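import Pool.Agent.Lib.H74.Chev.Model

/-! # Sparse integral model of type D4 with a generating triple -/

namespace MP9bf44d

namespace Sp

namespace D4

def e0 : T :=
.n (.n (.n (.l [P 1]) .z) (.n .z (.l [M 7]))) .z

def f0 : T :=
.n .z (.n (.n (.l [P 0]) .z) (.n .z (.l [M 6])))

def h0 : T :=
.n (.n (.n (.l [P 0]) .z) (.n .z (.l [P 6]))) (.n (.n (.l [M 1]) .z) (.n .z (.l [M 7])))

def x0 : T :=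
.n (.n (.n (.l [P 1]) .z) (.n .z (.l [M 7]))) .z

def u0 : T :=
.n (.n (.n (.l [M 1]) .z) (.n .z (.l [P 7]))) .z

def y0 : T :=
.n .z (.n (.n (.l [P 0]) .z) (.n .z (.l [M 6])))

def v0 : T :=
.n .z (.n (.n (.l [M 0]) .z) (.n .z (.l [P 6])))

def e1 : T :=
.n .z (.n (.n (.l [P 2]) (.l [M 6])) .z)

def f1 : T :=
.n (.n .z (.n (.l [P 1]) (.l [M 5]))) .z

def h1 : T :=
.n (.n .z (.n (.l [M 2]) (.l [M 6]))) (.n (.n (.l [P 1]) (.l [P 5])) .z)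

def x1 : T :=
.n .z (.n (.n (.l [P 2]) (.l [M 6])) .z)

def u1 : T :=
.n .z (.n (.n (.l [M 2]) (.l [P 6])) .z)

def y1 : T :=
.n (.n .z (.n (.l [P 1]) (.l [M 5]))) .z

def v1 : T :=
.n (.n .z (.n (.l [M 1]) (.l [P 5]))) .z

def e2 : T :=
.n (.n (.n .z (.l [M 5])) (.n (.l [P 3]) .z)) .z

def f2 : T :=
.n .z (.n (.n .z (.l [M 4])) (.n (.l [P 2]) .z))

def h2 : T :=
.n (.n (.n .z (.l [P 4])) (.n (.l [P 2]) .z)) (.n (.n .z (.l [M 5])) (.n (.l [M 3]) .z))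

def x2 : T :=
.n (.n (.n .z (.l [M 5])) (.n (.l [P 3]) .z)) .z

def u2 : T :=
.n (.n (.n .z (.l [P 5])) (.n (.l [M 3]) .z)) .z

def y2 : T :=
.n .z (.n (.n .z (.l [M 4])) (.n (.l [P 2]) .z))

def v2 : T :=
.n .z (.n (.n .z (.l [P 4])) (.n (.l [M 2]) .z))

def e3 : T :=
.n (.n .z (.n (.l [P 4]) .z)) (.n .z (.n (.l [M 5]) .z))

def f3 : T :=
.n (.n (.n .z (.l [P 2])) .z) (.n (.n .z (.l [M 3])) .z)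

def h3 : T :=
.n (.n (.n .z (.l [M 4])) (.n (.l [P 2]) .z)) (.n (.n .z (.l [M 5])) (.n (.l [P 3]) .z))

def x3 : T :=
.n (.n .z (.n (.l [P 4]) .z)) (.n .z (.n (.l [M 5]) .z))

def u3 : T :=
.n (.n .z (.n (.l [M 4]) .z)) (.n .z (.n (.l [P 5]) .z))

def y3 : T :=
.n (.n (.n .z (.l [P 2])) .z) (.n (.n .z (.l [M 3])) .z)

def v3 : T :=
.n (.n (.n .z (.l [M 2])) .z) (.n (.n .z (.l [P 3])) .z)

def idT : T :=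
.n (.n (.n (.l [P 0]) (.l [P 4])) (.n (.l [P 2]) (.l [P 6]))) (.n (.n (.l [P 1]) (.l [P 5])) (.n
  (.l [P 3]) (.l [P 7])))

/-- the representation -/
def rep : RepData where
  n := 8
  d := 3
  l := 4
  cart := [[2, -1, 0, 0], [-1, 2, -1, -1], [0, -1, 2, 0], [0, -1, 0, 2]]
  e := [e0, e1, e2, e3]
  f := [f0, f1, f2, f3]
  h := [h0, h1, h2, h3]
  x := [x0, x1, x2, x3]
  x' := [u0, u1, u2, u3]
  y := [y0, y1, y2, y3]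
  y' := [v0, v1, v2, v3]
  w := [(0, 1), (1, 2), (2, 3), (2, 4)]
  I := idT

def aA : Aff := ⟨(.ofNat 0),
.n (.n (.n (.l [P 5]) (.l [M 1])) (.n (.l [M 7]) (.l [P 3]))) (.n (.n (.l [P 4]) (.l [M 0])) (.n
  (.l [M 6]) (.l [P 2])))⟩

def bA : Aff := ⟨(.ofNat 0),
.n (.n (.n (.l [P 0]) (.l [M 3])) (.n (.l [P 0, M 2]) (.l [P 1]))) (.n (.n (.l [P 6]) (.l [M 5]))
  (.n (.l [M 4]) (.l [P 5, P 7])))⟩

def cA : Aff := ⟨(.ofNat 0),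
.n (.n (.n (.l [M 3, P 7]) (.l [M 7])) (.n (.l [M 6]) (.l [M 2]))) (.n (.n (.l [M 5]) (.l [M 1]))
  (.n (.l [M 0, M 4]) (.l [M 4])))⟩

def p1_0 : Step := ⟨.word [1, 13, 1], ⟨(.ofNat 0), .n (.n (.n (.l [P 1]) (.l [P 4])) (.n (.l [P 2]) (.l [M 7]))) (.n
  (.n (.l [M 0]) (.l [P 5])) (.n (.l [P 3]) (.l [P 6])))⟩⟩

def p1_1 : Step := ⟨.word [3, 15, 3], ⟨(.ofNat 0), .n (.n (.n (.l [P 0]) (.l [P 4])) (.n (.l [M 1]) (.l [P 5]))) (.n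
  (.n (.l [P 2]) (.l [M 6])) (.n (.l [P 3]) (.l [P 7])))⟩⟩

def p1_2 : Step := ⟨.word [5, 17, 5], ⟨(.ofNat 0), .n (.n (.n (.l [P 0]) (.l [M 5])) (.n (.l [P 3]) (.l [P 6]))) (.n
  (.n (.l [P 1]) (.l [P 4])) (.n (.l [M 2]) (.l [P 7])))⟩⟩

def p1_3 : Step := ⟨.word [7, 19, 7], ⟨(.ofNat 0), .n (.n (.n (.l [P 0]) (.l [M 2])) (.n (.l [P 4]) (.l [P 6]))) (.n
  (.n (.l [P 1]) (.l [P 3])) (.n (.l [M 5]) (.l [P 7])))⟩⟩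

def p1_4 : Step := ⟨.word [0, 2, 1, 3, 2, 0], ⟨(.ofNat 0), .n (.n (.n (.l [P 4]) (.l [M 0])) (.n (.l [P 6]) (.l [M
  2]))) (.n (.n (.l [M 5]) (.l [P 1])) (.n (.l [M 7]) (.l [P 3])))⟩⟩

def p1_5 : Step := ⟨.word [2, 2, 2, 4], ⟨(.ofNat 0), .n (.n (.n (.l [P 1]) (.l [P 5])) (.n (.l [M 3]) (.l [M 7])))
  (.n (.n (.l [M 0]) (.l [M 4])) (.n (.l [P 2]) (.l [P 6])))⟩⟩

def p1_6 : Step := ⟨.word [1, 0], ⟨(.ofNat 0), .n (.n (.n (.l [P 5]) (.l [M 1])) (.n (.l [M 7]) (.l [P 3]))) (.n (.n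
  (.l [P 4]) (.l [M 0])) (.n (.l [M 6]) (.l [P 2])))⟩⟩

def p1_7 : Step := ⟨.word [5, 3, 4, 5], ⟨(.ofNat 0), .n (.n (.n (.l [P 0]) (.l [M 3])) (.n (.l [M 2]) (.l [P 1])))
  (.n (.n (.l [P 6]) (.l [M 5])) (.n (.l [M 4]) (.l [P 7])))⟩⟩

def p1_8 : Step := ⟨.conj 6 21, ⟨(.ofNat 1), .n (.n .z (.n (.l [P 0]) .z)) (.n .z (.n .z (.l [M 5])))⟩⟩

def p1_9 : Step := ⟨.word [0, 1], ⟨(.ofNat 0), .n (.n (.n (.l [P 0]) (.l [M 3])) (.n (.l [P 0, M 2]) (.l [P 1]))) (.n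
  (.n (.l [P 6]) (.l [M 5])) (.n (.l [M 4]) (.l [P 5, P 7])))⟩⟩

def p1_10 : Step := ⟨.word [7, 8, 6, 9, 8, 8], ⟨(.ofNat 0), .n (.n (.n (.l [M 1]) (.l [M 7])) (.n (.l [P 5]) (.l [P
  3]))) (.n (.n (.l [P 4]) (.l [P 2])) (.n (.l [M 0]) (.l [M 6])))⟩⟩

def p1_11 : Step := ⟨.word [9, 8], ⟨(.ofNat 0), .n (.n (.n (.l [P 0]) (.l [M 5])) (.n (.l [M 1]) (.l [P 4]))) (.n (.n
  (.l [P 3]) (.l [M 6])) (.n (.l [M 2]) (.l [P 7])))⟩⟩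

def p1_12 : Step := ⟨.word [1, 0], ⟨(.ofNat 0), .n (.n (.n (.l [M 3]) (.l [M 7])) (.n (.l [M 6]) (.l [M 2]))) (.n (.n
  (.l [M 5]) (.l [M 1])) (.n (.l [M 0]) (.l [M 4])))⟩⟩

def p1_13 : Step := ⟨.conj 11 18, ⟨(.ofNat 1), .n (.n (.n (.l [P 2]) .z) .z) (.n (.n .z (.l [M 7])) .z)⟩⟩

def p1_14 : Step := ⟨.conj 10 0, ⟨(.ofNat 1), .n (.n (.n (.l [M 4]) .z) .z) (.n .z (.n (.l [P 7]) .z))⟩⟩

def p1_15 : Step := ⟨.word [0, 2], ⟨(.ofNat 0), .n (.n (.n (.l [M 3, P 7]) (.l [M 7])) (.n (.l [M 6]) (.l [M 2]))) (.n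
  (.n (.l [M 5]) (.l [M 1])) (.n (.l [M 0, M 4]) (.l [M 4])))⟩⟩

def p1 : List Step := [p1_0, p1_1, p1_2, p1_3, p1_4, p1_5, p1_6, p1_7, p1_8, p1_9, p1_10, p1_11, p1_12, p1_13, p1_14,
  p1_15]

def p2_0 : Step := ⟨.word [3, 2, 3, 2, 1, 3], ⟨(.ofNat 0), .n (.n (.n (.l [P 0, P 2, M 3, P 4, P 6, P 7]) (.l [M 0, M
  2, M 4])) (.n (.l [M 3, P 7]) (.l [M 3, M 5, P 6, (7, .ofNat 2)]))) (.n (.n (.l [P 0, P 4]) (.l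
  [M 1, M 4])) (.n (.l [P 1, P 2, M 3, M 5, P 6, P 7]) (.l [P 1, P 2])))⟩⟩

def p2_1 : Step := ⟨.word [2, 4, 2, 4, 3, 2], ⟨(.ofNat 0), .n (.n (.n (.l [M 0, P 2]) (.l [P 0, P 1, M 2])) (.n (.l
  [P 0]) (.l [M 0, P 3]))) (.n (.n (.l [P 4]) (.l [P 4, P 5, P 7])) (.n (.l [P 6]) (.l [P 5, P
  6])))⟩⟩

def p2_2 : Step := ⟨.word [1, 0, 1, 0, 1, 0], ⟨(.ofNat 1), .n (.n (.n (.l [M 0, M 4, M 7]) (.l [P 0, M 1, M 2, M 3, P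
  7])) (.n (.l [P 0, M 1, M 2, M 3]) (.l [(4, .negSucc 2), (7, .negSucc 1)]))) (.n (.n .z (.l [P
  7])) (.n (.l [M 3, M 4, M 5, M 7]) (.l [M 0, (1, .negSucc 1), P 2, M 4, M 5, (7, .negSucc
  1)])))⟩⟩

def p2_3 : Step := ⟨.word [2, 1, 2, 1], ⟨(.ofNat 1), .n (.n (.n (.l [(0, .negSucc 1), P 2, P 3, M 4, M 7]) (.l [(1,
  .negSucc 1), M 3, M 4, M 5])) (.n (.l [M 0, M 1, M 4]) (.l [(0, .negSucc 1), M 1, P 2, P 3, (4,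
  .negSucc 2), (7, .negSucc 1)]))) (.n (.n .z (.l [P 0, M 1, M 3, M 5])) (.n (.l [M 0, M 4, M 7])
  (.l [M 0, P 3, P 5, M 7])))⟩⟩

def p2_4 : Step := ⟨.word [1, 0], ⟨(.ofNat 1), .n (.n (.n (.l [(1, .ofNat 2)]) (.l [(1, .negSucc 1)])) (.n (.l [M 1])
  (.l [(1, .ofNat 5), P 2, (3, .ofNat 2), (4, .negSucc 2), P 5, (7, .negSucc 1)]))) (.n (.n .z (.l
  [M 1])) (.n (.l [(1, .ofNat 3)]) .z))⟩⟩

def p2_5 : Step := ⟨.quot 0 10000, ⟨(.ofNat 1), .n (.n (.n (.l [(1, .negSucc 1)]) (.l [(1, .ofNat 2)])) (.n (.l [P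
  1]) (.l [(1, .ofNat 5), M 2, (3, .negSucc 1), (4, .ofNat 3), M 5, (7, .ofNat 2)]))) (.n (.n .z
  (.l [P 1])) (.n (.l [(1, .negSucc 2)]) .z))⟩⟩

def p2_6 : Step := ⟨.word [9, 7, 9, 7, 9, 8], ⟨(.ofNat 0), .n (.n (.n (.l [P 0]) (.l [M 0, P 3])) (.n (.l [M 5, M 6])
  (.l [P 5]))) (.n (.n (.l [M 0, M 1, P 2]) (.l [M 1])) (.n (.l [P 4]) (.l [P 4, P 5, P 7])))⟩⟩

def p2_7 : Step := ⟨.word [0, 0, 0, 0, 0, 0], ⟨(.ofNat 1), .n (.n (.n .z (.l [(0, .negSucc 2)])) (.n (.l [(0,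
  .negSucc 1)]) (.l [P 0]))) (.n (.n (.l [M 0]) (.l [P 0])) (.n (.l [(0, .negSucc 2)]) (.l [(0,
  .negSucc 5), M 1, M 2, (3, .ofNat 3), (4, .ofNat 3), (5, .ofNat 2), P 6])))⟩⟩

def p2_8 : Step := ⟨.quot 0 10000, ⟨(.ofNat 1), .n (.n (.n .z (.l [(0, .ofNat 3)])) (.n (.l [(0, .ofNat 2)]) (.l [M
  0]))) (.n (.n (.l [P 0]) (.l [M 0])) (.n (.l [(0, .ofNat 3)]) (.l [(0, .negSucc 5), P 1, P 2,
  (3, .negSucc 2), (4, .negSucc 2), (5, .negSucc 1), M 6])))⟩⟩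

def p2_9 : Step := ⟨.word [10, 12, 11, 10, 12, 10], ⟨(.ofNat 0), .n (.n (.n (.l [M 1, P 5]) (.l [P 2, P 6])) (.n (.l
  [P 7]) (.l [P 4, M 7]))) (.n (.n (.l [P 2, P 3, P 6]) (.l [P 0, P 2, P 3, P 6])) (.n (.l [P 1, M
  4]) (.l [P 2])))⟩⟩

def p2_10 : Step := ⟨.word [13, 11, 13, 12, 11, 13], ⟨(.ofNat 0), .n (.n (.n (.l [P 1, P 4, P 7]) (.l [M 7])) (.n (.l
  [M 1, M 2]) (.l [P 2]))) (.n (.n (.l [P 3, P 5, M 6, M 7]) (.l [P 3, M 6, M 7])) (.n (.l [M 0, P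
  3, M 4, M 7]) (.l [P 3, M 7])))⟩⟩

def p2_11 : Step := ⟨.word [13, 12, 12, 14, 13, 12], ⟨(.ofNat 0), .n (.n (.n (.l [P 0, P 1, M 2]) (.l [M 5, M 6])) (.n
  (.l [P 0, P 1, M 2, M 4]) (.l [P 0]))) (.n (.n (.l [P 5, P 7]) (.l [M 3])) (.n (.l [P 0, M 2])
  (.l [P 3, P 6])))⟩⟩

def p2_12 : Step := ⟨.word [13, 15, 14, 13, 13, 15], ⟨(.ofNat 0), .n (.n (.n (.l [M 2]) (.l [M 1])) (.n (.l [M 0, M
  4]) (.l [P 0, M 3, P 4, P 7]))) (.n (.n (.l [M 1, M 4]) (.l [M 1, M 4, M 7])) (.n (.l [P 3, M 6,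
  M 7]) (.l [M 5])))⟩⟩

def p2_13 : Step := ⟨.word [15, 14, 16, 14, 16, 14], ⟨(.ofNat 0), .n (.n (.n (.l [P 2]) (.l [P 1])) (.n (.l [P 0, P
  2]) (.l [P 3]))) (.n (.n (.l [P 0, P 4]) (.l [M 3, P 7])) (.n (.l [P 2, P 6]) (.l [M 1, P 3, P
  5, M 7])))⟩⟩

def p2_14 : Step := ⟨.word [17, 16, 15, 17, 16, 15], ⟨(.ofNat 1), .n (.n (.n (.l [P 0, P 1, M 2, M 4]) (.l [M 0, M 1,
  P 2])) (.n (.l [M 0]) (.l [P 3]))) (.n (.n (.l [P 0, M 2]) (.l [P 6])) (.n (.l [P 5, P 7]) (.l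
  [P 5])))⟩⟩

def p2_15 : Step := ⟨.word [16, 18, 17, 16], ⟨(.ofNat 0), .n (.n (.n (.l [M 3]) (.l [P 0])) (.n (.l [P 6]) (.l [M 5, M
  6]))) (.n (.n (.l [P 0, M 2]) (.l [P 0, P 1, M 2])) (.n (.l [P 5, P 7]) (.l [M 4])))⟩⟩

def p2_16 : Step := ⟨.word [6, 5, 4, 9, 3, 2], ⟨(.ofNat 0), .n (.n (.n (.l [M 0, M 4]) (.l [P 0, M 1, P 4, P 5])) (.n
  (.l [M 2, P 3, P 4, P 5, M 6, M 7]) (.l [(0, .ofNat 2), P 2, P 4, P 6]))) (.n (.n (.l [P 0, (4,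
  .ofNat 2), P 5]) (.l [(0, .negSucc 1), M 4])) (.n (.l [M 6]) (.l [(0, .ofNat 2), (2, .ofNat 3),
  (3, .negSucc 1), P 4, (6, .ofNat 2), P 7])))⟩⟩

def p2_17 : Step := ⟨.word [2, 7, 6, 5, 10, 1], ⟨(.ofNat 0), .n (.n (.n (.l [(0, .ofNat 2), P 5]) (.l [M 0, M 5])) (.n
  (.l [(0, .negSucc 1), M 3, M 5, M 6]) (.l [M 0, P 3]))) (.n (.n (.l [M 1, P 4, P 5]) (.l [M 1, P
  5])) (.n (.l [M 1, (2, .negSucc 1), P 4, P 5, (6, .negSucc 1), P 7]) (.l [(1, .negSucc 1), M 2,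
  P 4, (5, .ofNat 2), M 6, P 7])))⟩⟩

def p2_18 : Step := ⟨.word [1, 0], ⟨(.negSucc 0), .n (.n (.n .z (.l [P 0])) (.n (.l [(0, .ofNat 2)]) .z)) (.n (.n .z
  (.l [(0, .negSucc 2)])) (.n (.l [P 0]) (.l [(0, .negSucc 4), (2, .ofNat 3), M 3, M 4, (5,
  .negSucc 1)])))⟩⟩

def p2_19 : Step := ⟨.word [10, 0], ⟨(.negSucc 0), .n (.n (.n .z (.l [(0, .negSucc 1)])) (.n .z (.l [P 0]))) (.n (.n
  (.l [M 0]) (.l [(0, .negSucc 1)])) (.n (.l [(0, .negSucc 1)]) (.l [(0, .ofNat 3), M 1, (2,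
  .ofNat 2), (3, .ofNat 2), (4, .ofNat 2), P 6])))⟩⟩

def p2_20 : Step := ⟨.word [21, 23, 21, 23, 21, 23], ⟨(.ofNat 0), .n (.n (.n (.l [M 6]) (.l [P 2, P 6])) (.n (.l [P 3,
  M 7]) (.l [M 3]))) (.n (.n (.l [M 0, M 4]) (.l [M 0])) (.n (.l [P 5]) (.l [M 1, P 5])))⟩⟩

def p2_21 : Step := ⟨.word [23, 22, 22, 24, 22, 24], ⟨(.ofNat 0), .n (.n (.n (.l [P 2, P 6]) (.l [P 1, M 5])) (.n (.l
  [P 0, P 2, P 4, P 6]) (.l [P 3, M 7]))) (.n (.n (.l [P 4]) (.l [P 7])) (.n (.l [P 6]) (.l [P 5,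
  M 7])))⟩⟩

def p2_22 : Step := ⟨.word [1, 0, 9, 20, 1, 0], ⟨(.negSucc 0), .n (.n (.n (.l [M 2, M 6]) (.l [M 2, M 6])) (.n (.l
  [(1, .negSucc 1), (2, .negSucc 1), M 3, P 4, (5, .ofNat 3), (6, .negSucc 4), M 7]) (.l [P 1, (2,
  .ofNat 2), M 5, (6, .ofNat 3)]))) (.n (.n (.l [P 1, (2, .ofNat 2), (6, .ofNat 3)]) (.l [P 2, P
  5, P 6])) (.n (.l [M 0]) (.l [P 2, P 4, P 6])))⟩⟩

def p2_23 : Step := ⟨.word [10, 21], ⟨(.negSucc 0), .n (.n .z (.n (.l [M 1, P 2]) (.l [P 1, P 5, P 6]))) (.n (.n (.l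
  [M 0, P 2, M 4]) (.l [M 0, M 1, P 2, M 4, M 6])) (.n (.l [P 0, M 5]) (.l [M 4, M 5])))⟩⟩

def p2_24 : Step := ⟨.word [1, 0], ⟨(.ofNat 1), .n (.n (.n (.l [M 5]) (.l [M 5])) (.n (.l [(0, .negSucc 1), (1,
  .negSucc 2), P 3, M 4, (5, .negSucc 5), (6, .negSucc 2), P 7]) (.l [(5, .ofNat 3)]))) (.n (.n
  (.l [(5, .ofNat 3)]) .z) (.n (.l [P 5]) (.l [(5, .ofNat 2)])))⟩⟩

def p2_25 : Step := ⟨.quot 0 10000, ⟨(.ofNat 1), .n (.n (.n (.l [P 5]) (.l [P 5])) (.n (.l [(0, .ofNat 2), (1, .ofNat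
  3), M 3, P 4, (5, .negSucc 5), (6, .ofNat 3), M 7]) (.l [(5, .negSucc 2)]))) (.n (.n (.l [(5,
  .negSucc 2)]) .z) (.n (.l [M 5]) (.l [(5, .negSucc 1)])))⟩⟩

def p2_26 : Step := ⟨.word [29, 28, 27, 29, 27, 29], ⟨(.ofNat 0), .n (.n (.n (.l [P 0, P 2, P 3, P 4, P 6, M 7]) (.l
  [M 0, M 2, M 4, M 6])) (.n (.l [M 6]) (.l [P 5, M 7]))) (.n (.n (.l [P 2, P 6]) (.l [M 1, P 5]))
  (.n (.l [P 4, M 7]) (.l [P 4])))⟩⟩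

def p2_27 : Step := ⟨.word [28, 30, 29, 28, 30, 29], ⟨(.ofNat 1), .n (.n (.n (.l [M 3]) (.l [P 5, P 7])) (.n (.l [M
  0]) (.l [P 0, M 2]))) (.n (.n (.l [P 4, P 5, P 7]) (.l [P 1, P 4, P 5, P 7])) (.n (.l [M 6]) (.l
  [P 5])))⟩⟩

def p2_28 : Step := ⟨.word [1, 0, 1, 0, 1, 0], ⟨(.ofNat 1), .n (.n (.n (.l [M 0, M 1, M 4, (5, .negSucc 2), M 7]) (.l
  [P 0, P 1, M 3, P 7])) (.n (.l [M 0, M 1, (3, .negSucc 1), M 4, (7, .ofNat 2)]) (.l [M 3]))) (.n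
  (.n (.l [M 0, M 1, P 3, M 4, M 7]) .z) (.n (.l [M 1, (3, .negSucc 1), M 4, (5, .negSucc 1), P
  6]) (.l [M 0, M 1, M 4, M 7])))⟩⟩

def p2_29 : Step := ⟨.word [2, 1, 2, 1], ⟨(.ofNat 1), .n (.n (.n (.l [M 0, P 3, M 5, M 6, M 7]) (.l [M 1, M 3, (4,
  .negSucc 1), (5, .negSucc 1), P 6])) (.n (.l [(0, .negSucc 1), M 1, (4, .negSucc 1), M 5, M 6])
  (.l [M 0, P 3, M 4, M 6, M 7]))) (.n (.n (.l [P 4, P 5]) .z) (.n (.l [M 0, M 4, M 5, M 6, M 7])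
  (.l [M 0, P 3, P 5, M 6, M 7])))⟩⟩

def p2_30 : Step := ⟨.word [1, 0], ⟨(.ofNat 1), .n (.n (.n (.l [(5, .negSucc 2)]) .z) (.n (.l [(0, .negSucc 1), M 1,
  (5, .ofNat 5), M 6, (7, .ofNat 3)]) (.l [P 5]))) (.n (.n (.l [P 5]) .z) (.n .z (.l [(5, .ofNat
  2)])))⟩⟩

def p2_31 : Step := ⟨.word [5, 0], ⟨(.ofNat 1), .n (.n (.n (.l [(5, .negSucc 1)]) (.l [P 5])) (.n (.l [(1, .ofNat 2),
  M 3, P 4, (5, .negSucc 2), (6, .ofNat 2), (7, .ofNat 2)]) (.l [(5, .negSucc 1)]))) (.n (.n (.l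
  [(5, .negSucc 1)]) .z) (.n (.l [M 5]) .z))⟩⟩

def p2_32 : Step := ⟨.word [35, 0, 35], ⟨(.ofNat 1), .n (.n (.n (.l [M 1]) .z) (.n (.l [(1, .negSucc 1)]) (.l [M 0,
  (1, .negSucc 2), (2, .ofNat 2), P 4, (5, .ofNat 2), P 7]))) (.n (.n .z (.l [(1, .negSucc 1)]))
  (.n (.l [M 1]) (.l [P 1])))⟩⟩

def p2_33 : Step := ⟨.word [27, 13, 0, 27, 13, 0], ⟨(.ofNat 1), .n (.n (.n (.l [M 0, P 1]) (.l [(0, .negSucc 1), (1,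
  .negSucc 5)])) (.n (.l [(0, .negSucc 1), (1, .negSucc 2)]) (.l [(0, .ofNat 14), (1, .ofNat 31),
  (2, .negSucc 3), (3, .negSucc 1), (4, .negSucc 2), (5, .negSucc 1), M 6, M 7]))) (.n (.n (.l [M
  0, (1, .negSucc 1)]) (.l [(0, .negSucc 3), (1, .negSucc 6)])) (.n (.l [(0, .negSucc 2), (1,
  .negSucc 1)]) (.l [(0, .negSucc 2), (1, .negSucc 1), (2, .ofNat 3), (3, .ofNat 4), M 4, P 5, P
  6, (7, .negSucc 1)])))⟩⟩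

def p2_34 : Step := ⟨.word [28, 14, 1], ⟨(.negSucc 0), .n (.n (.n (.l [(0, .ofNat 2), P 1]) (.l [(0, .negSucc 3), (1,
  .ofNat 2)])) (.n (.l [M 0, (1, .ofNat 2)]) (.l [P 0, (1, .negSucc 31), (2, .ofNat 7), (3, .ofNat
  6), (4, .ofNat 2), (5, .ofNat 3), (6, .ofNat 2), M 7]))) (.n (.n (.l [M 0, P 1]) (.l [(0,
  .negSucc 2), (1, .ofNat 4)])) (.n (.l [P 0, (1, .ofNat 3)]) (.l [(0, .ofNat 2), (1, .negSucc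
  13), (2, .ofNat 4), (3, .ofNat 2), (4, .ofNat 3), (5, .ofNat 2), P 6, P 7])))⟩⟩

def p2_35 : Step := ⟨.word [1, 0], ⟨(.negSucc 0), .n (.n .z (.n .z (.l [P 0]))) (.n .z (.n .z (.l [M 1])))⟩⟩

def p2_36 : Step := ⟨.word [36, 37], ⟨(.ofNat 0), .n (.n (.n (.l [M 5]) (.l [P 1])) (.n (.l [P 7]) (.l [M 3]))) (.n
  (.n (.l [M 4]) (.l [P 0])) (.n (.l [P 6]) (.l [M 2])))⟩⟩

def p2_37 : Step := ⟨.word [38, 1, 0], ⟨(.negSucc 0), .n (.n .z (.n (.l [M 4]) .z)) (.n .z (.n (.l [P 5]) .z))⟩⟩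

def p2_38 : Step := ⟨.word [40, 2, 40], ⟨(.negSucc 0), .n .z (.n (.n (.l [P 0]) .z) (.n .z (.l [M 6])))⟩⟩

def p2_39 : Step := ⟨.word [41, 1, 41], ⟨(.negSucc 0), .n (.n (.n .z (.l [P 5])) (.n (.l [M 3]) .z)) .z⟩⟩

def p2_40 : Step := ⟨.word [43, 2, 43], ⟨(.negSucc 0), .n (.n (.n (.l [P 1]) .z) (.n .z (.l [M 7]))) .z⟩⟩

def p2_41 : Step := ⟨.word [42, 0, 4], ⟨(.negSucc 0), .n .z (.n (.n .z (.l [P 4])) (.n (.l [M 2]) .z))⟩⟩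

def p2_42 : Step := ⟨.word [45, 0, 45], ⟨(.negSucc 0), .n (.n (.n (.l [M 6]) .z) .z) (.n (.n (.l [P 7]) .z) .z)⟩⟩

def p2_43 : Step := ⟨.word [44, 0, 6], ⟨(.negSucc 0), .n (.n (.n .z (.l [P 2])) .z) (.n (.n .z (.l [M 3])) .z)⟩⟩

def p2_44 : Step := ⟨.word [47, 8, 47, 4], ⟨(.ofNat 1), .n (.n (.n (.l [M 5]) .z) (.n (.l [P 7]) .z)) .z⟩⟩

def p2_45 : Step := ⟨.word [46, 0, 8], ⟨(.ofNat 1), .n .z (.n (.n .z (.l [P 0])) (.n .z (.l [M 2])))⟩⟩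

def p2_46 : Step := ⟨.quot 10 10000, ⟨(.negSucc 0), .n (.n .z (.n .z (.l [M 0]))) (.n .z (.n .z (.l [P 1])))⟩⟩

def p2_47 : Step := ⟨.quot 2 10000, ⟨(.ofNat 1), .n (.n (.n (.l [P 5]) .z) (.n (.l [M 7]) .z)) .z⟩⟩

def p2_48 : Step := ⟨.word [12, 3, 1, 0], ⟨(.ofNat 1), .n (.n .z (.n (.l [M 1]) (.l [P 5]))) .z⟩⟩

def p2_49 : Step := ⟨.quot 3 10000, ⟨(.ofNat 1), .n .z (.n (.n .z (.l [M 0])) (.n .z (.l [P 2])))⟩⟩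

def p2_50 : Step := ⟨.quot 7 10000, ⟨(.negSucc 0), .n (.n (.n (.l [P 6]) .z) .z) (.n (.n (.l [M 7]) .z) .z)⟩⟩

def p2_51 : Step := ⟨.word [8, 5, 0, 1], ⟨(.ofNat 1), .n .z (.n (.n (.l [P 2]) (.l [M 6])) .z)⟩⟩

def p2_52 : Step := ⟨.quot 3 10000, ⟨(.ofNat 1), .n (.n .z (.n (.l [P 1]) (.l [M 5]))) .z⟩⟩

def p2_53 : Step := ⟨.word [53, 12], ⟨(.ofNat 1), .n (.n (.n (.l [M 1]) .z) (.n .z (.l [P 7]))) .z⟩⟩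

def p2_54 : Step := ⟨.quot 0 10000, ⟨(.ofNat 1), .n (.n (.n (.l [P 1]) .z) (.n .z (.l [M 7]))) .z⟩⟩

def p2_55 : Step := ⟨.word [55, 15], ⟨(.ofNat 1), .n (.n (.n .z (.l [M 5])) (.n (.l [P 3]) .z)) .z⟩⟩

def p2_56 : Step := ⟨.word [56, 18], ⟨(.ofNat 1), .n (.n .z (.n (.l [P 4]) .z)) (.n .z (.n (.l [M 5]) .z))⟩⟩

def p2_57 : Step := ⟨.word [57, 18], ⟨(.ofNat 1), .n .z (.n (.n (.l [M 0]) .z) (.n .z (.l [P 6])))⟩⟩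

def p2_58 : Step := ⟨.quot 0 10000, ⟨(.ofNat 1), .n .z (.n (.n (.l [P 0]) .z) (.n .z (.l [M 6])))⟩⟩

def p2_59 : Step := ⟨.word [59, 17], ⟨(.ofNat 1), .n .z (.n (.n .z (.l [M 4])) (.n (.l [P 2]) .z))⟩⟩

def p2_60 : Step := ⟨.word [60, 16], ⟨(.ofNat 1), .n (.n (.n .z (.l [M 2])) .z) (.n (.n .z (.l [P 3])) .z)⟩⟩

def p2_61 : Step := ⟨.quot 0 10000, ⟨(.ofNat 1), .n (.n (.n .z (.l [P 2])) .z) (.n (.n .z (.l [M 3])) .z)⟩⟩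

def p2 : List Step := [p2_0, p2_1, p2_2, p2_3, p2_4, p2_5, p2_6, p2_7, p2_8, p2_9, p2_10, p2_11, p2_12, p2_13, p2_14,
  p2_15, p2_16, p2_17, p2_18, p2_19, p2_20, p2_21, p2_22, p2_23, p2_24, p2_25, p2_26, p2_27,
  p2_28, p2_29, p2_30, p2_31, p2_32, p2_33, p2_34, p2_35, p2_36, p2_37, p2_38, p2_39, p2_40,
  p2_41, p2_42, p2_43, p2_44, p2_45, p2_46, p2_47, p2_48, p2_49, p2_50, p2_51, p2_52, p2_53,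
  p2_54, p2_55, p2_56, p2_57, p2_58, p2_59, p2_60, p2_61]

/-- the triple -/
def trip : TripData where
  a := aA
  b := bA
  c := cA
  sa := -1
  sb := 1
  sc := 1
  sab := -1
  p1 := p1
  ta := 9
  tb := 6
  tc := 0
  p2 := p2
  tX := [7, 10, 6, 5]
  tY := [3, 9, 2, 0]

theorem chk_model : checkModel rep = true := by decide +kernel

theorem chk_rel : checkRel rep trip = true := by decide +kernel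

theorem chk_one : check1 rep trip = true := by decide +kernel

theorem chk_two : check2 rep trip = true := by decide +kernel

theorem chk_cart : ∀ i j : Fin 4, ((CartanMatrix.D 4) : Matrix (Fin 4) (Fin 4) ℤ) i j = rep.A i j := by
  intro i j
  fin_cases i <;> fin_cases j <;> rfl

end D4

end Sp

theorem goodModel_D4 : GoodModel (CartanMatrix.D 4) :=
  Sp.goodModel_of_check Sp.D4.rep Sp.D4.trip _ Sp.D4.chk_cart Sp.D4.chk_model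
    Sp.D4.chk_rel Sp.D4.chk_one Sp.D4.chk_two

end MP9bf44d
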