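import Pool.Agent.Lib.H74.Chev.Model

/-! # Sparse integral model of type E6 with a generating triple -/

namespace MP9bf44d

namespace Sp

namespace E6

def e0 : T :=
.n (.n (.n (.n (.n (.l [P 1]) (.l [P 17])) .z) (.n (.n .z (.l [P 21])) .z)) (.n (.n (.n .z (.l [P
  19])) (.n (.l [P 12]) .z)) .z)) (.n (.n .z (.n .z (.n (.l [P 15]) .z))) .z)

def f0 : T :=
.n (.n (.n .z (.n .z (.n (.l [P 10]) .z))) .z) (.n (.n (.n (.n (.l [P 0]) (.l [P 16])) .z) (.n (.n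
  .z (.l [P 20])) .z)) (.n (.n (.n .z (.l [P 18])) .z) (.n .z (.n (.l [P 13]) .z))))

def h0 : T :=
.n (.n (.n (.n (.n (.l [P 0]) (.l [P 16])) .z) (.n (.n .z (.l [P 20])) (.n (.l [M 12]) .z))) (.n
  (.n (.n .z (.l [P 18])) (.n (.l [P 10]) .z)) .z)) (.n (.n (.n (.n (.l [M 1]) (.l [M 17])) .z)
  (.n (.n .z (.l [M 21])) (.n (.l [P 13]) .z))) (.n (.n (.n .z (.l [M 19])) .z) (.n .z (.n (.l [M
  15]) .z))))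

def x0 : T :=
.n (.n (.n (.n (.n (.l [P 1]) (.l [P 17])) .z) (.n (.n .z (.l [P 21])) .z)) (.n (.n (.n .z (.l [P
  19])) (.n (.l [P 12]) .z)) .z)) (.n (.n .z (.n .z (.n (.l [P 15]) .z))) .z)

def u0 : T :=
.n (.n (.n (.n (.n (.l [M 1]) (.l [M 17])) .z) (.n (.n .z (.l [M 21])) .z)) (.n (.n (.n .z (.l [M
  19])) (.n (.l [M 12]) .z)) .z)) (.n (.n .z (.n .z (.n (.l [M 15]) .z))) .z)

def y0 : T :=
.n (.n (.n .z (.n .z (.n (.l [P 10]) .z))) .z) (.n (.n (.n (.n (.l [P 0]) (.l [P 16])) .z) (.n (.n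
  .z (.l [P 20])) .z)) (.n (.n (.n .z (.l [P 18])) .z) (.n .z (.n (.l [P 13]) .z))))

def v0 : T :=
.n (.n (.n .z (.n .z (.n (.l [M 10]) .z))) .z) (.n (.n (.n (.n (.l [M 0]) (.l [M 16])) .z) (.n (.n
  .z (.l [M 20])) .z)) (.n (.n (.n .z (.l [M 18])) .z) (.n .z (.n (.l [M 13]) .z))))

def e1 : T :=
.n (.n .z (.n (.n (.n .z (.l [P 20])) .z) (.n (.n .z (.l [P 23])) .z))) (.n (.n .z (.n (.n (.l [P
  6]) .z) .z)) (.n (.n (.n (.l [P 4]) (.l [P 21])) .z) (.n (.n (.l [P 9]) .z) .z)))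

def f1 : T :=
.n (.n (.n .z (.n (.n (.l [P 3]) (.l [P 18])) .z)) (.n .z (.n (.n (.l [P 5]) .z) .z))) (.n (.n (.n
  .z (.n (.l [P 7]) .z)) (.n (.n .z (.l [P 19])) .z)) (.n .z (.n (.n .z (.l [P 22])) .z)))

def h1 : T :=
.n (.n (.n .z (.n (.n (.l [M 4]) (.l [M 20])) .z)) (.n (.n (.n .z (.l [P 18])) .z) (.n (.n (.l [M
  6]) (.l [P 22])) .z))) (.n (.n (.n .z (.n (.l [M 9]) .z)) (.n (.n (.l [P 5]) (.l [M 21])) .z))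
  (.n (.n (.n (.l [P 3]) (.l [P 19])) .z) (.n (.n (.l [P 7]) (.l [M 23])) .z)))

def x1 : T :=
.n (.n .z (.n (.n (.n .z (.l [P 20])) .z) (.n (.n .z (.l [P 23])) .z))) (.n (.n .z (.n (.n (.l [P
  6]) .z) .z)) (.n (.n (.n (.l [P 4]) (.l [P 21])) .z) (.n (.n (.l [P 9]) .z) .z)))

def u1 : T :=
.n (.n .z (.n (.n (.n .z (.l [M 20])) .z) (.n (.n .z (.l [M 23])) .z))) (.n (.n .z (.n (.n (.l [M
  6]) .z) .z)) (.n (.n (.n (.l [M 4]) (.l [M 21])) .z) (.n (.n (.l [M 9]) .z) .z)))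

def y1 : T :=
.n (.n (.n .z (.n (.n (.l [P 3]) (.l [P 18])) .z)) (.n .z (.n (.n (.l [P 5]) .z) .z))) (.n (.n (.n
  .z (.n (.l [P 7]) .z)) (.n (.n .z (.l [P 19])) .z)) (.n .z (.n (.n .z (.l [P 22])) .z)))

def v1 : T :=
.n (.n (.n .z (.n (.n (.l [M 3]) (.l [M 18])) .z)) (.n .z (.n (.n (.l [M 5]) .z) .z))) (.n (.n (.n
  .z (.n (.l [M 7]) .z)) (.n (.n .z (.l [M 19])) .z)) (.n .z (.n (.n .z (.l [M 22])) .z)))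

def e2 : T :=
.n (.n (.n (.n .z (.n (.l [P 10]) .z)) .z) (.n .z (.n .z (.n (.l [P 16]) .z)))) (.n (.n (.n (.n
  (.l [P 2]) .z) .z) (.n (.n .z (.l [P 23])) .z)) (.n (.n (.n .z (.l [P 22])) (.n (.l [P 13]) .z))
  .z))

def f2 : T :=
.n (.n (.n (.n (.n .z (.l [P 14])) .z) .z) (.n (.n (.n (.l [P 1]) .z) (.n (.l [P 8]) .z)) (.n (.n
  .z (.l [P 19])) .z))) (.n (.n .z (.n .z (.n (.l [P 11]) .z))) (.n .z (.n (.n .z (.l [P 21]))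
  .z)))

def h2 : T :=
.n (.n (.n (.n (.n .z (.l [M 16])) (.n (.l [P 8]) .z)) .z) (.n (.n (.n (.l [M 2]) .z) (.n (.l [M
  10]) .z)) (.n (.n .z (.l [M 22])) (.n (.l [P 14]) .z)))) (.n (.n (.n (.n (.l [P 1]) .z) .z) (.n
  (.n .z (.l [P 21])) (.n (.l [M 13]) .z))) (.n (.n (.n .z (.l [P 19])) (.n (.l [P 11]) .z)) (.n
  (.n .z (.l [M 23])) .z)))

def x2 : T :=
.n (.n (.n (.n .z (.n (.l [P 10]) .z)) .z) (.n .z (.n .z (.n (.l [P 16]) .z)))) (.n (.n (.n (.n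
  (.l [P 2]) .z) .z) (.n (.n .z (.l [P 23])) .z)) (.n (.n (.n .z (.l [P 22])) (.n (.l [P 13]) .z))
  .z))

def u2 : T :=
.n (.n (.n (.n .z (.n (.l [M 10]) .z)) .z) (.n .z (.n .z (.n (.l [M 16]) .z)))) (.n (.n (.n (.n
  (.l [M 2]) .z) .z) (.n (.n .z (.l [M 23])) .z)) (.n (.n (.n .z (.l [M 22])) (.n (.l [M 13]) .z))
  .z))

def y2 : T :=
.n (.n (.n (.n (.n .z (.l [P 14])) .z) .z) (.n (.n (.n (.l [P 1]) .z) (.n (.l [P 8]) .z)) (.n (.n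
  .z (.l [P 19])) .z))) (.n (.n .z (.n .z (.n (.l [P 11]) .z))) (.n .z (.n (.n .z (.l [P 21]))
  .z)))

def v2 : T :=
.n (.n (.n (.n (.n .z (.l [M 14])) .z) .z) (.n (.n (.n (.l [M 1]) .z) (.n (.l [M 8]) .z)) (.n (.n
  .z (.l [M 19])) .z))) (.n (.n .z (.n .z (.n (.l [M 11]) .z))) (.n .z (.n (.n .z (.l [M 21]))
  .z)))

def e3 : T :=
.n (.n (.n (.n (.n .z (.l [P 18])) .z) .z) (.n (.n (.n (.l [P 3]) .z) .z) (.n (.n (.l [P 8]) .z)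
  .z))) (.n (.n (.n (.n .z (.l [P 19])) (.n (.l [P 11]) .z)) .z) (.n .z (.n (.n .z (.l [P 24]))
  .z)))

def f3 : T :=
.n (.n (.n (.n .z (.n (.l [P 6]) (.l [P 23]))) .z) (.n (.n (.n .z (.l [P 16])) .z) .z)) (.n .z (.n
  (.n (.n (.l [P 2]) (.l [P 17])) (.n (.l [P 9]) .z)) .z))

def h3 : T :=
.n (.n (.n (.n (.n .z (.l [P 16])) (.n (.l [M 8]) (.l [M 24]))) .z) (.n (.n (.n (.l [P 2]) (.l [M
  18])) .z) (.n (.n (.l [P 6]) .z) .z))) (.n (.n (.n (.n .z (.l [P 17])) (.n (.l [P 9]) .z)) .z)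
  (.n (.n (.n (.l [M 3]) (.l [M 19])) (.n (.l [M 11]) .z)) (.n (.n .z (.l [P 23])) .z)))

def x3 : T :=
.n (.n (.n (.n (.n .z (.l [P 18])) .z) .z) (.n (.n (.n (.l [P 3]) .z) .z) (.n (.n (.l [P 8]) .z)
  .z))) (.n (.n (.n (.n .z (.l [P 19])) (.n (.l [P 11]) .z)) .z) (.n .z (.n (.n .z (.l [P 24]))
  .z)))

def u3 : T :=
.n (.n (.n (.n (.n .z (.l [M 18])) .z) .z) (.n (.n (.n (.l [M 3]) .z) .z) (.n (.n (.l [M 8]) .z)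
  .z))) (.n (.n (.n (.n .z (.l [M 19])) (.n (.l [M 11]) .z)) .z) (.n .z (.n (.n .z (.l [M 24]))
  .z)))

def y3 : T :=
.n (.n (.n (.n .z (.n (.l [P 6]) (.l [P 23]))) .z) (.n (.n (.n .z (.l [P 16])) .z) .z)) (.n .z (.n
  (.n (.n (.l [P 2]) (.l [P 17])) (.n (.l [P 9]) .z)) .z))

def v3 : T :=
.n (.n (.n (.n .z (.n (.l [M 6]) (.l [M 23]))) .z) (.n (.n (.n .z (.l [M 16])) .z) .z)) (.n .z (.n
  (.n (.n (.l [M 2]) (.l [M 17])) (.n (.l [M 9]) .z)) .z))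

def e4 : T :=
.n (.n (.n (.n .z (.n .z (.l [P 25]))) (.n (.n (.l [P 6]) .z) .z)) .z) (.n (.n .z (.n .z (.n (.l
  [P 16]) .z))) (.n (.n (.n (.l [P 5]) .z) (.n (.l [P 14]) .z)) (.n .z (.n (.l [P 17]) .z))))

def f4 : T :=
.n (.n (.n (.n (.n .z (.l [P 13])) .z) .z) (.n .z (.n (.n (.l [P 4]) .z) (.n (.l [P 11]) .z))))
  (.n (.n (.n (.n .z (.l [P 15])) (.n .z (.l [P 24]))) (.n (.n (.l [P 3]) .z) .z)) .z)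

def h4 : T :=
.n (.n (.n (.n (.n .z (.l [M 16])) (.n .z (.l [P 24]))) (.n (.n (.l [P 4]) .z) .z)) (.n .z (.n (.n
  (.l [M 6]) .z) (.n (.l [M 14]) .z)))) (.n (.n (.n (.n .z (.l [M 17])) (.n .z (.l [M 25]))) (.n
  (.n (.l [M 5]) .z) (.n (.l [P 13]) .z))) (.n (.n (.n (.l [P 3]) .z) (.n (.l [P 11]) .z)) (.n .z
  (.n (.l [P 15]) .z))))

def x4 : T :=
.n (.n (.n (.n .z (.n .z (.l [P 25]))) (.n (.n (.l [P 6]) .z) .z)) .z) (.n (.n .z (.n .z (.n (.l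
  [P 16]) .z))) (.n (.n (.n (.l [P 5]) .z) (.n (.l [P 14]) .z)) (.n .z (.n (.l [P 17]) .z))))

def u4 : T :=
.n (.n (.n (.n .z (.n .z (.l [M 25]))) (.n (.n (.l [M 6]) .z) .z)) .z) (.n (.n .z (.n .z (.n (.l
  [M 16]) .z))) (.n (.n (.n (.l [M 5]) .z) (.n (.l [M 14]) .z)) (.n .z (.n (.l [M 17]) .z))))

def y4 : T :=
.n (.n (.n (.n (.n .z (.l [P 13])) .z) .z) (.n .z (.n (.n (.l [P 4]) .z) (.n (.l [P 11]) .z))))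
  (.n (.n (.n (.n .z (.l [P 15])) (.n .z (.l [P 24]))) (.n (.n (.l [P 3]) .z) .z)) .z)

def v4 : T :=
.n (.n (.n (.n (.n .z (.l [M 13])) .z) .z) (.n .z (.n (.n (.l [M 4]) .z) (.n (.l [M 11]) .z))))
  (.n (.n (.n (.n .z (.l [M 15])) (.n .z (.l [M 24]))) (.n (.n (.l [M 3]) .z) .z)) .z)

def e5 : T :=
.n (.n (.n (.n .z (.n (.l [P 11]) .z)) (.n .z (.n (.l [P 15]) .z))) (.n (.n .z (.n (.l [P 13])
  .z)) (.n (.n (.l [P 9]) .z) .z))) (.n (.n (.n .z (.n .z (.l [P 26]))) (.n (.n (.l [P 7]) .z)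
  .z)) .z)

def f5 : T :=
.n (.n .z (.n (.n .z (.n .z (.l [P 25]))) .z)) (.n (.n (.n .z (.n (.l [P 6]) .z)) (.n .z (.n (.l
  [P 10]) .z))) (.n (.n .z (.n (.l [P 8]) .z)) (.n (.n (.l [P 5]) .z) (.n (.l [P 12]) .z))))

def h5 : T :=
.n (.n (.n (.n .z (.n (.l [P 8]) .z)) (.n .z (.n (.l [P 12]) .z))) (.n (.n .z (.n (.l [P 10]) (.l
  [M 26]))) (.n (.n (.l [P 6]) .z) .z))) (.n (.n (.n .z (.n (.l [M 9]) (.l [P 25]))) (.n (.n (.l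
  [P 5]) .z) (.n (.l [M 13]) .z))) (.n (.n .z (.n (.l [M 11]) .z)) (.n (.n (.l [M 7]) .z) (.n (.l
  [M 15]) .z))))

def x5 : T :=
.n (.n (.n (.n .z (.n (.l [P 11]) .z)) (.n .z (.n (.l [P 15]) .z))) (.n (.n .z (.n (.l [P 13])
  .z)) (.n (.n (.l [P 9]) .z) .z))) (.n (.n (.n .z (.n .z (.l [P 26]))) (.n (.n (.l [P 7]) .z)
  .z)) .z)

def u5 : T :=
.n (.n (.n (.n .z (.n (.l [M 11]) .z)) (.n .z (.n (.l [M 15]) .z))) (.n (.n .z (.n (.l [M 13])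
  .z)) (.n (.n (.l [M 9]) .z) .z))) (.n (.n (.n .z (.n .z (.l [M 26]))) (.n (.n (.l [M 7]) .z)
  .z)) .z)

def y5 : T :=
.n (.n .z (.n (.n .z (.n .z (.l [P 25]))) .z)) (.n (.n (.n .z (.n (.l [P 6]) .z)) (.n .z (.n (.l
  [P 10]) .z))) (.n (.n .z (.n (.l [P 8]) .z)) (.n (.n (.l [P 5]) .z) (.n (.l [P 12]) .z))))

def v5 : T :=
.n (.n .z (.n (.n .z (.n .z (.l [M 25]))) .z)) (.n (.n (.n .z (.n (.l [M 6]) .z)) (.n .z (.n (.l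
  [M 10]) .z))) (.n (.n .z (.n (.l [M 8]) .z)) (.n (.n (.l [M 5]) .z) (.n (.l [M 12]) .z))))

def idT : T :=
.n (.n (.n (.n (.n (.l [P 0]) (.l [P 16])) (.n (.l [P 8]) (.l [P 24]))) (.n (.n (.l [P 4]) (.l [P
  20])) (.n (.l [P 12]) .z))) (.n (.n (.n (.l [P 2]) (.l [P 18])) (.n (.l [P 10]) (.l [P 26])))
  (.n (.n (.l [P 6]) (.l [P 22])) (.n (.l [P 14]) .z)))) (.n (.n (.n (.n (.l [P 1]) (.l [P 17]))
  (.n (.l [P 9]) (.l [P 25]))) (.n (.n (.l [P 5]) (.l [P 21])) (.n (.l [P 13]) .z))) (.n (.n (.n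
  (.l [P 3]) (.l [P 19])) (.n (.l [P 11]) .z)) (.n (.n (.l [P 7]) (.l [P 23])) (.n (.l [P 15])
  .z))))

/-- the representation -/
def rep : RepData where
  n := 27
  d := 5
  l := 6
  cart := [[2, 0, -1, 0, 0, 0], [0, 2, 0, -1, 0, 0], [-1, 0, 2, -1, 0, 0], [0, -1, -1, 2, -1, 0], [0, 0, 0, -1, 2, -1], [0, 0, 0, 0, -1, 2]]
  e := [e0, e1, e2, e3, e4, e5]
  f := [f0, f1, f2, f3, f4, f5]
  h := [h0, h1, h2, h3, h4, h5]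
  x := [x0, x1, x2, x3, x4, x5]
  x' := [u0, u1, u2, u3, u4, u5]
  y := [y0, y1, y2, y3, y4, y5]
  y' := [v0, v1, v2, v3, v4, v5]
  w := [(0, 1), (3, 4), (1, 2), (2, 3), (3, 5), (5, 7)]
  I := idT

def aA : Aff := ⟨(.ofNat 0),
.n (.n (.n (.n (.n (.l [M 1]) (.l [P 19])) (.n (.l [P 9]) (.l [M 23]))) (.n (.n (.l [P 4]) (.l [P
  21])) (.n (.l [M 13]) .z))) (.n (.n (.n (.l [P 3]) (.l [P 17])) (.n (.l [M 15]) (.l [P 25])))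
  (.n (.n (.l [P 11]) (.l [P 22])) (.n (.l [P 14]) .z)))) (.n (.n (.n (.n (.l [M 0]) (.l [P 18]))
  (.n (.l [P 8]) (.l [P 26]))) (.n (.n (.l [M 7]) (.l [P 20])) (.n (.l [M 12]) .z))) (.n (.n (.n
  (.l [P 2]) (.l [P 16])) (.n (.l [P 6]) .z)) (.n (.n (.l [M 5]) (.l [M 24])) (.n (.l [M 10])
  .z))))⟩

def bA : Aff := ⟨(.negSucc 0),
.n (.n (.n (.n (.n (.l [M 14]) (.l [(16, .ofNat 2)])) .z) (.n (.n (.l [(4, .ofNat 2), M 20, M 21])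
  .z) (.n (.l [M 25]) .z))) (.n (.n (.n (.l [P 16, P 17]) (.l [(18, .ofNat 2)])) (.n (.l [P 25])
  (.l [(26, .ofNat 2)]))) (.n (.n .z (.l [(22, .ofNat 2)])) (.n (.l [(14, .ofNat 2)]) .z)))) (.n
  (.n (.n (.n (.l [P 14]) (.l [(17, .ofNat 2)])) (.n .z (.l [(25, .ofNat 2)]))) (.n (.n (.l [(5,
  .ofNat 2)]) .z) (.n (.l [P 26]) .z))) (.n (.n (.n (.l [P 18, P 19]) (.l [(19, .ofNat 2)])) .z)
  (.n (.n (.l [(7, .ofNat 2)]) .z) (.n (.l [M 26]) .z))))⟩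

def cA : Aff := ⟨(.ofNat 0),
.n (.n (.n (.n (.n (.l [P 0]) (.l [M 11])) (.n (.l [P 10]) (.l [P 25]))) (.n (.n (.l [M 5]) (.l [P
  18])) (.n (.l [P 12]) .z))) (.n (.n (.n (.l [M 1]) (.l [P 20])) (.n (.l [P 8]) (.l [P 26]))) (.n
  (.n (.l [M 3]) (.l [M 21])) (.n (.l [M 13]) .z)))) (.n (.n (.n (.n (.l [M 2]) (.l [M 15])) (.n
  (.l [M 7]) (.l [P 24]))) (.n (.n (.l [M 4]) (.l [M 22])) (.n (.l [M 14]) .z))) (.n (.n (.n (.l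
  [M 6]) (.l [M 23])) (.n (.l [M 16]) .z)) (.n (.n (.l [M 9]) (.l [M 19])) (.n (.l [M 17]) .z))))⟩

def p1_0 : Step := ⟨.word [1, 19, 1], ⟨(.ofNat 1), .n (.n (.n (.n (.n (.l [M 0, P 1]) (.l [M 16, P 17])) .z) (.n (.n
  .z (.l [M 20, P 21])) (.n (.l [M 10, M 12]) .z))) (.n (.n (.n .z (.l [M 18, P 19])) (.n (.l [M
  10, P 12]) .z)) .z)) (.n (.n (.n (.n (.l [M 0, M 1]) (.l [M 16, M 17])) .z) (.n (.n .z (.l [M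
  20, M 21])) (.n (.l [M 13, P 15]) .z))) (.n (.n (.n .z (.l [M 18, M 19])) .z) (.n .z (.n (.l [M
  13, M 15]) .z))))⟩⟩

def p1_1 : Step := ⟨.word [3, 21, 3], ⟨(.ofNat 1), .n (.n (.n .z (.n (.n (.l [M 3, M 4]) (.l [M 18, M 20])) .z)) (.n
  (.n (.n .z (.l [M 18, P 20])) .z) (.n (.n (.l [M 5, M 6]) (.l [M 22, P 23])) .z))) (.n (.n (.n
  .z (.n (.l [M 7, M 9]) .z)) (.n (.n (.l [M 5, P 6]) (.l [M 19, M 21])) .z)) (.n (.n (.n (.l [M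
  3, P 4]) (.l [M 19, P 21])) .z) (.n (.n (.l [M 7, P 9]) (.l [M 22, M 23])) .z)))⟩⟩

def p1_2 : Step := ⟨.word [5, 23, 5], ⟨(.ofNat 1), .n (.n (.n (.n (.n .z (.l [M 14, M 16])) (.n (.l [M 8, P 10]) .z))
  .z) (.n (.n (.n (.l [M 1, M 2]) .z) (.n (.l [M 8, M 10]) .z)) (.n (.n .z (.l [M 19, M 22])) (.n
  (.l [M 14, P 16]) .z)))) (.n (.n (.n (.n (.l [M 1, P 2]) .z) .z) (.n (.n .z (.l [M 21, P 23]))
  (.n (.l [M 11, M 13]) .z))) (.n (.n (.n .z (.l [M 19, P 22])) (.n (.l [M 11, P 13]) .z)) (.n (.n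
  .z (.l [M 21, M 23])) .z)))⟩⟩

def p1_3 : Step := ⟨.word [7, 25, 7], ⟨(.ofNat 1), .n (.n (.n (.n (.n .z (.l [M 16, P 18])) (.n (.l [M 6, M 8]) (.l
  [M 23, M 24]))) .z) (.n (.n (.n (.l [M 2, P 3]) (.l [M 16, M 18])) .z) (.n (.n (.l [M 6, P 8])
  .z) .z))) (.n (.n (.n (.n .z (.l [M 17, P 19])) (.n (.l [M 9, P 11]) .z)) .z) (.n (.n (.n (.l [M
  2, M 3]) (.l [M 17, M 19])) (.n (.l [M 9, M 11]) .z)) (.n (.n .z (.l [M 23, P 24])) .z)))⟩⟩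

def p1_4 : Step := ⟨.word [9, 27, 9], ⟨(.ofNat 1), .n (.n (.n (.n (.n .z (.l [M 13, M 16])) (.n .z (.l [M 24, P
  25]))) (.n (.n (.l [M 4, P 6]) .z) .z)) (.n .z (.n (.n (.l [M 4, M 6]) .z) (.n (.l [M 11, M 14])
  .z)))) (.n (.n (.n (.n .z (.l [M 15, M 17])) (.n .z (.l [M 24, M 25]))) (.n (.n (.l [M 3, M 5])
  .z) (.n (.l [M 13, P 16]) .z))) (.n (.n (.n (.l [M 3, P 5]) .z) (.n (.l [M 11, P 14]) .z)) (.n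
  .z (.n (.l [M 15, P 17]) .z))))⟩⟩

def p1_5 : Step := ⟨.word [11, 29, 11], ⟨(.ofNat 1), .n (.n (.n (.n .z (.n (.l [M 8, P 11]) .z)) (.n .z (.n (.l [M
  12, P 15]) .z))) (.n (.n .z (.n (.l [M 10, P 13]) (.l [M 25, M 26]))) (.n (.n (.l [M 6, P 9])
  .z) .z))) (.n (.n (.n .z (.n (.l [M 6, M 9]) (.l [M 25, P 26]))) (.n (.n (.l [M 5, P 7]) .z) (.n
  (.l [M 10, M 13]) .z))) (.n (.n .z (.n (.l [M 8, M 11]) .z)) (.n (.n (.l [M 5, M 7]) .z) (.n (.l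
  [M 12, M 15]) .z))))⟩⟩

def p1_6 : Step := ⟨.word [4, 4, 3, 3, 1, 1], ⟨(.ofNat 1), .n (.n (.n (.n .z (.n (.l [(8, .negSucc 1)]) (.l [(24,
  .negSucc 1)]))) (.n (.n .z (.l [(20, .negSucc 1)])) .z)) (.n (.n (.n (.l [(2, .negSucc 1)]) (.l
  [(18, .negSucc 1)])) (.n (.l [(10, .negSucc 1)]) .z)) .z)) (.n (.n (.n (.n (.l [(1, .negSucc
  1)]) (.l [(17, .negSucc 1)])) (.n (.l [(9, .negSucc 1)]) (.l [(25, .negSucc 1)]))) .z) (.n .z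
  (.n (.n (.l [(7, .negSucc 1)]) .z) (.n (.l [(15, .negSucc 1)]) .z))))⟩⟩

def p1_7 : Step := ⟨.word [6, 3, 1, 0], ⟨(.ofNat 0), .n (.n (.n (.n (.n (.l [M 1]) (.l [P 19])) (.n (.l [P 9]) (.l [M
  23]))) (.n (.n (.l [P 4]) (.l [P 21])) (.n (.l [M 13]) .z))) (.n (.n (.n (.l [P 3]) (.l [P 17]))
  (.n (.l [M 15]) (.l [P 25]))) (.n (.n (.l [P 11]) (.l [P 22])) (.n (.l [P 14]) .z)))) (.n (.n
  (.n (.n (.l [M 0]) (.l [P 18])) (.n (.l [P 8]) (.l [P 26]))) (.n (.n (.l [M 7]) (.l [P 20])) (.n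
  (.l [M 12]) .z))) (.n (.n (.n (.l [P 2]) (.l [P 16])) (.n (.l [P 6]) .z)) (.n (.n (.l [M 5]) (.l
  [M 24])) (.n (.l [M 10]) .z))))⟩⟩

def p1_8 : Step := ⟨.word [4, 4], ⟨(.ofNat 1), .n (.n (.n (.n (.n .z (.l [(16, .negSucc 1)])) (.n (.l [(8, .negSucc
  1)]) (.l [(24, .negSucc 1)]))) .z) (.n (.n (.n (.l [(2, .negSucc 1)]) (.l [(18, .negSucc 1)]))
  .z) (.n (.n (.l [(6, .negSucc 1)]) .z) .z))) (.n (.n (.n (.n .z (.l [(17, .negSucc 1)])) (.n (.l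
  [(9, .negSucc 1)]) .z)) .z) (.n (.n (.n (.l [(3, .negSucc 1)]) (.l [(19, .negSucc 1)])) (.n (.l
  [(11, .negSucc 1)]) .z)) (.n (.n .z (.l [(23, .negSucc 1)])) .z)))⟩⟩

def p1_9 : Step := ⟨.word [7, 6, 4, 0], ⟨(.ofNat 0), .n (.n (.n (.n (.n (.l [P 0]) (.l [M 11])) (.n (.l [P 10]) (.l
  [P 25]))) (.n (.n (.l [M 5]) (.l [P 18])) (.n (.l [P 12]) .z))) (.n (.n (.n (.l [M 1]) (.l [P
  20])) (.n (.l [P 8]) (.l [P 26]))) (.n (.n (.l [M 3]) (.l [M 21])) (.n (.l [M 13]) .z)))) (.n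
  (.n (.n (.n (.l [M 2]) (.l [M 15])) (.n (.l [M 7]) (.l [P 24]))) (.n (.n (.l [M 4]) (.l [M 22]))
  (.n (.l [M 14]) .z))) (.n (.n (.n (.l [M 6]) (.l [M 23])) (.n (.l [M 16]) .z)) (.n (.n (.l [M
  9]) (.l [M 19])) (.n (.l [M 17]) .z))))⟩⟩

def p1_10 : Step := ⟨.word [9, 9, 6, 6], ⟨(.negSucc 0), .n (.n (.n (.n (.n .z (.l [(16, .ofNat 2)])) .z) (.n (.n (.l
  [(4, .ofNat 2)]) .z) .z)) (.n (.n (.n .z (.l [(18, .ofNat 2)])) (.n .z (.l [(26, .ofNat 2)])))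
  (.n (.n .z (.l [(22, .ofNat 2)])) (.n (.l [(14, .ofNat 2)]) .z)))) (.n (.n (.n (.n .z (.l [(17,
  .ofNat 2)])) (.n .z (.l [(25, .ofNat 2)]))) (.n (.n (.l [(5, .ofNat 2)]) .z) .z)) (.n (.n (.n .z
  (.l [(19, .ofNat 2)])) .z) (.n (.n (.l [(7, .ofNat 2)]) .z) .z)))⟩⟩

def p1_11 : Step := ⟨.conj 1 21, ⟨(.ofNat 1), .n .z (.n (.n (.n (.n (.l [M 6]) .z) .z) .z) (.n (.n (.n (.l [P 10]) (.l
  [P 25])) (.n (.l [P 20]) .z)) (.n (.n (.l [M 16]) .z) (.n (.l [M 23]) .z))))⟩⟩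

def p1_12 : Step := ⟨.conj 4 0, ⟨(.ofNat 1), .n (.n (.n (.n (.n (.l [P 11]) (.l [P 26])) .z) .z) (.n (.n (.n (.l [M
  15]) .z) (.n (.l [M 24]) .z)) (.n (.n (.l [P 21]) .z) .z))) (.n (.n .z (.n (.n (.l [P 19]) .z)
  .z)) .z)⟩⟩

def p1_13 : Step := ⟨.conj 8 0, ⟨(.ofNat 1), .n (.n (.n (.n (.n (.l [M 14]) .z) .z) (.n (.n (.l [P 21]) .z) .z)) (.n
  (.n (.n (.l [P 17]) .z) (.n (.l [P 25]) .z)) .z)) (.n (.n .z (.n .z (.n (.l [P 26]) .z))) (.n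
  (.n (.n (.l [P 19]) .z) .z) .z))⟩⟩

def p1_14 : Step := ⟨.conj 6 0, ⟨(.ofNat 1), .n (.n (.n .z (.n (.n (.l [P 20]) .z) (.n (.l [M 25]) .z))) (.n (.n (.n
  (.l [P 16]) .z) .z) .z)) (.n (.n (.n (.n (.l [P 14]) .z) .z) .z) (.n (.n (.n (.l [P 18]) .z) .z)
  (.n .z (.n (.l [M 26]) .z))))⟩⟩

def p1_15 : Step := ⟨.word [1, 0, 4], ⟨(.negSucc 0), .n (.n (.n (.n (.n (.l [M 14]) (.l [(16, .ofNat 2)])) .z) (.n (.n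
  (.l [(4, .ofNat 2), M 20, M 21]) .z) (.n (.l [M 25]) .z))) (.n (.n (.n (.l [P 16, P 17]) (.l
  [(18, .ofNat 2)])) (.n (.l [P 25]) (.l [(26, .ofNat 2)]))) (.n (.n .z (.l [(22, .ofNat 2)])) (.n
  (.l [(14, .ofNat 2)]) .z)))) (.n (.n (.n (.n (.l [P 14]) (.l [(17, .ofNat 2)])) (.n .z (.l [(25,
  .ofNat 2)]))) (.n (.n (.l [(5, .ofNat 2)]) .z) (.n (.l [P 26]) .z))) (.n (.n (.n (.l [P 18, P
  19]) (.l [(19, .ofNat 2)])) .z) (.n (.n (.l [(7, .ofNat 2)]) .z) (.n (.l [M 26]) .z))))⟩⟩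

def p1 : List Step := [p1_0, p1_1, p1_2, p1_3, p1_4, p1_5, p1_6, p1_7, p1_8, p1_9, p1_10, p1_11, p1_12, p1_13, p1_14,
  p1_15]

def p2_0 : Step := ⟨.word [3, 1, 3], ⟨(.ofNat 0), .n (.n (.n (.n (.n (.l [P 2]) (.l [P 3])) (.n (.l [P 17]) (.l [P
  26]))) (.n (.n (.l [M 9]) (.l [M 15])) (.n (.l [P 14]) .z))) (.n (.n (.n (.l [P 0]) (.l [M 22]))
  (.n (.l [M 7]) (.l [P 24]))) (.n (.n (.l [P 1]) (.l [M 18])) (.n (.l [P 12]) .z)))) (.n (.n (.n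
  (.n (.l [P 6]) (.l [P 8])) (.n (.l [M 4]) (.l [P 19]))) (.n (.n (.l [P 5]) (.l [P 21])) (.n (.l
  [P 13]) .z))) (.n (.n (.n (.l [P 16]) (.l [P 25])) (.n (.l [P 23]) .z)) (.n (.n (.l [M 10]) (.l
  [P 11])) (.n (.l [M 20]) .z))))⟩⟩

def p2_1 : Step := ⟨.conj 0 3, ⟨(.negSucc 0), .n (.n (.n (.n (.n (.l [P 3, P 8]) (.l [M 22, P 25])) (.n (.l [(8,
  .ofNat 2)]) (.l [(24, .ofNat 2)]))) (.n (.n .z (.l [P 24])) (.n (.l [(12, .ofNat 2)]) .z))) (.n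
  (.n (.n (.l [M 12]) (.l [(18, .ofNat 2)])) (.n (.l [(10, .ofNat 2)]) .z)) (.n (.n (.l [P 12])
  (.l [(22, .ofNat 2)])) (.n (.l [M 19]) .z)))) (.n (.n (.n .z (.n (.l [(9, .ofNat 2), M 15, P
  21]) (.l [(25, .ofNat 2)]))) (.n (.n (.l [(5, .ofNat 2)]) .z) (.n (.l [P 24]) .z))) (.n (.n (.n
  (.l [(3, .ofNat 2)]) (.l [(19, .ofNat 2)])) .z) (.n (.n (.l [M 19]) .z) .z)))⟩⟩

def p2_2 : Step := ⟨.word [4, 0], ⟨(.ofNat 1), .n (.n (.n (.n (.n (.l [M 3, M 8, P 14, P 19]) (.l [(16, .negSucc 1),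
  M 22, P 25])) (.n (.l [(8, .negSucc 1)]) (.l [(24, .negSucc 1)]))) (.n (.n (.l [(4, .negSucc 1),
  P 20, P 21, M 24]) (.l [M 24])) (.n (.l [(12, .negSucc 1), M 25]) .z))) (.n (.n (.n (.l [P 12, M
  16, M 17, M 22, P 25]) .z) (.n (.l [(10, .negSucc 1), P 25]) (.l [(26, .negSucc 1)]))) (.n (.n
  (.l [M 12]) .z) (.n (.l [(14, .negSucc 1), M 19]) .z)))) (.n (.n (.n (.n (.l [M 14, M 19]) (.l
  [(17, .negSucc 1)])) (.n (.l [(9, .negSucc 1), P 15, M 21]) .z)) (.n .z (.n (.l [M 24, M 26])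
  .z))) (.n (.n (.n (.l [(3, .negSucc 1), P 18, P 19]) .z) .z) (.n (.n (.l [(7, .negSucc 1), M
  19]) .z) (.n (.l [P 26]) .z))))⟩⟩

def p2_3 : Step := ⟨.word [0, 0], ⟨(.ofNat 1), .n (.n (.n (.n (.n (.l [M 18]) .z) .z) (.n (.n (.l [P 24]) .z) .z))
  (.n (.n (.n (.l [M 22]) .z) .z) (.n (.n (.l [P 25]) .z) .z))) (.n (.n (.n (.n (.l [M 19]) .z)
  (.n (.l [P 26]) .z)) .z) .z)⟩⟩

def p2_4 : Step := ⟨.conj 5 0, ⟨(.ofNat 1), .n (.n (.n (.n (.n (.l [P 16]) .z) (.n (.l [P 25]) .z)) (.n (.n (.l [M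
  23]) .z) .z)) .z) (.n (.n (.n (.n (.l [P 17]) .z) .z) .z) (.n (.n (.n (.l [M 22]) .z) (.n (.l [P
  26]) .z)) .z))⟩⟩

def p2_5 : Step := ⟨.conj 8 0, ⟨(.ofNat 1), .n (.n (.n (.n (.n (.l [M 11]) (.l [M 26])) .z) .z) (.n (.n (.n (.l [P
  15]) .z) (.n (.l [P 24]) .z)) (.n (.n (.l [M 21]) .z) .z))) (.n (.n .z (.n (.n (.l [M 19]) .z)
  .z)) .z)⟩⟩

def p2_6 : Step := ⟨.conj 7 0, ⟨(.ofNat 1), .n .z (.n (.n (.n (.n (.l [P 6]) .z) .z) .z) (.n (.n (.n (.l [M 10]) (.l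
  [M 25])) (.n (.l [M 20]) .z)) (.n (.n (.l [P 16]) .z) (.n (.l [P 23]) .z))))⟩⟩

def p2_7 : Step := ⟨.conj 10 0, ⟨(.ofNat 1), .n (.n (.n (.n (.n .z (.l [P 18])) .z) .z) (.n (.n (.n (.l [P 3]) .z)
  .z) (.n (.n (.l [P 8]) .z) .z))) (.n (.n (.n (.n .z (.l [P 19])) (.n (.l [P 11]) .z)) .z) (.n .z
  (.n (.n .z (.l [P 24])) .z)))⟩⟩

def p2_8 : Step := ⟨.conj 9 0, ⟨(.ofNat 1), .n (.n (.n (.n .z (.n (.l [P 6]) (.l [P 23]))) .z) (.n (.n (.n .z (.l [P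
  16])) .z) .z)) (.n .z (.n (.n (.n (.l [P 2]) (.l [P 17])) (.n (.l [P 9]) .z)) .z))⟩⟩

def p2_9 : Step := ⟨.conj 12 0, ⟨(.ofNat 1), .n (.n (.n (.n (.n .z (.l [P 7])) .z) (.n (.n .z (.l [M 11])) .z)) (.n
  (.n .z (.n (.l [M 3]) .z)) (.n (.n (.l [P 1]) .z) .z))) (.n (.n (.n .z (.n .z (.l [M 19]))) .z)
  (.n .z (.n (.n .z (.l [P 15])) .z)))⟩⟩

def p2_10 : Step := ⟨.conj 12 0, ⟨(.ofNat 1), .n (.n (.n (.n (.n .z (.l [P 7])) .z) (.n (.n (.l [M 11]) (.l [M 11]))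
  (.n (.l [P 19]) .z))) (.n (.n (.n (.l [P 7]) .z) (.n (.l [M 3, P 18]) .z)) (.n (.n (.l [P 1, M
  14]) .z) .z))) (.n (.n (.n .z (.n .z (.l [M 19]))) .z) (.n .z (.n (.n .z (.l [P 15, P 26]))
  .z)))⟩⟩

def p2_11 : Step := ⟨.quot 1 0, ⟨(.ofNat 1), .n (.n (.n .z (.n (.n (.l [M 11]) .z) (.n (.l [P 19]) .z))) (.n (.n (.n
  (.l [P 7]) .z) (.n (.l [P 18]) .z)) (.n (.n (.l [M 14]) .z) .z))) (.n .z (.n .z (.n (.n .z (.l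
  [P 26])) .z)))⟩⟩

def p2_12 : Step := ⟨.comm 0 3, ⟨(.ofNat 1), .n (.n (.n (.n .z (.n (.l [P 14]) (.l [M 26]))) (.n (.n (.l [M 9]) .z)
  (.n (.l [P 17]) .z))) (.n (.n .z (.n (.l [P 16]) .z)) .z)) (.n .z (.n (.n (.n (.l [M 7]) .z) .z)
  .z))⟩⟩

def p2_13 : Step := ⟨.conj 14 0, ⟨(.ofNat 1), .n (.n (.n .z (.n (.n (.l [M 8]) .z) .z)) (.n (.n (.n (.l [P 5]) .z) .z)
  .z)) (.n (.n (.n .z (.n (.l [P 14]) .z)) (.n .z (.n (.l [M 18]) .z))) (.n .z (.n (.n .z (.l [P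
  25])) (.n (.l [M 19]) .z))))⟩⟩

def p2_14 : Step := ⟨.conj 17 0, ⟨(.ofNat 1), .n (.n .z (.n .z (.n .z (.n (.l [P 20]) .z)))) (.n (.n (.n (.n (.l [P
  4]) (.l [M 23])) .z) (.n (.n (.l [P 10]) .z) .z)) (.n (.n (.n .z (.l [M 24])) .z) (.n (.n (.l [P
  13]) .z) .z)))⟩⟩

def p2_15 : Step := ⟨.conj 16 0, ⟨(.ofNat 1), .n (.n (.n (.n (.n (.l [M 4]) (.l [P 23])) .z) .z) (.n (.n (.n .z (.l [P
  24])) .z) (.n .z (.n (.l [P 21]) .z)))) (.n (.n .z (.n (.n (.l [P 12]) .z) .z)) (.n .z (.n (.n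
  (.l [P 15]) .z) .z)))⟩⟩

def p2_16 : Step := ⟨.conj 19 0, ⟨(.ofNat 1), .n (.n (.n (.n (.n (.l [P 5]) .z) .z) (.n (.n (.l [M 12]) (.l [P 25]))
  .z)) .z) (.n (.n (.n .z (.n (.l [P 17]) .z)) (.n .z (.n (.l [P 22]) .z))) (.n (.n .z (.n (.l [P
  19]) .z)) .z))⟩⟩

def p2_17 : Step := ⟨.conj 18 0, ⟨(.ofNat 1), .n (.n (.n (.n .z (.n (.l [P 18]) .z)) (.n (.n (.l [P 13]) .z) (.n (.l
  [M 22]) .z))) (.n .z (.n (.n (.l [P 16]) .z) .z))) (.n (.n (.n (.n (.l [P 7]) .z) .z) (.n (.n .z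
  (.l [P 26])) .z)) .z)⟩⟩

def p2_18 : Step := ⟨.conj 21 0, ⟨(.ofNat 1), .n (.n (.n .z (.n .z (.n (.l [P 21]) .z))) (.n (.n (.n (.l [P 9]) .z)
  (.n (.l [P 20]) .z)) (.n (.n .z (.l [M 26])) .z))) (.n (.n .z (.n (.n (.l [P 14]) .z) .z)) (.n
  (.n (.n (.l [P 11]) .z) .z) .z))⟩⟩

def p2_19 : Step := ⟨.conj 20 0, ⟨(.ofNat 1), .n (.n .z (.n (.n (.n (.l [P 6]) .z) .z) (.n (.n .z (.l [M 25])) .z)))
  (.n (.n .z (.n .z (.n (.l [M 20]) .z))) (.n (.n (.n (.l [P 8]) .z) .z) (.n (.n (.l [M 14]) .z)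
  (.n (.l [M 21]) .z))))⟩⟩

def p2_20 : Step := ⟨.conj 23 0, ⟨(.ofNat 1), .n (.n .z (.n .z (.n (.n (.l [M 10]) .z) (.n (.l [P 18]) .z)))) (.n (.n
  (.n (.n (.l [P 3]) (.l [M 22])) (.n (.l [M 13]) .z)) (.n (.n .z (.l [P 24])) .z)) .z)⟩⟩

def p2_21 : Step := ⟨.conj 22 0, ⟨(.ofNat 1), .n (.n (.n (.n (.n (.l [M 2]) .z) (.n (.l [P 12]) .z)) (.n (.n .z (.l [M
  23])) .z)) (.n (.n (.n .z (.l [M 22])) .z) (.n .z (.n (.l [P 17]) .z)))) (.n .z (.n (.n .z (.n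
  (.l [P 15]) .z)) .z))⟩⟩

def p2_22 : Step := ⟨.conj 25 0, ⟨(.ofNat 1), .n (.n (.n (.n (.n (.l [P 1]) (.l [P 17])) .z) (.n (.n .z (.l [P 21]))
  .z)) (.n (.n (.n .z (.l [P 19])) (.n (.l [P 12]) .z)) .z)) (.n (.n .z (.n .z (.n (.l [P 15])
  .z))) .z)⟩⟩

def p2_23 : Step := ⟨.comm 15 16, ⟨(.ofNat 1), .n (.n .z (.n (.n (.n (.l [M 10]) .z) .z) .z)) (.n (.n (.n (.n (.l [M
  8]) (.l [M 25])) (.n (.l [M 20]) .z)) .z) (.n .z (.n (.n (.l [M 18]) .z) (.n (.l [M 24])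
  .z))))⟩⟩

def p2_24 : Step := ⟨.conj 25 0, ⟨(.ofNat 1), .n (.n (.n (.n (.n (.l [P 9]) .z) (.n (.l [M 21]) .z)) .z) (.n (.n (.n
  .z (.l [M 26])) (.n (.l [M 23]) .z)) .z)) (.n (.n .z (.n (.n (.l [P 17]) .z) .z)) (.n (.n (.n
  (.l [P 15]) .z) .z) .z))⟩⟩

def p2_25 : Step := ⟨.conj 28 0, ⟨(.ofNat 1), .n (.n (.n (.n (.n (.l [M 7]) .z) (.n (.l [P 19]) .z)) (.n (.n (.l [P
  15]) (.l [M 26])) .z)) (.n (.n .z (.n (.l [P 22]) .z)) (.n (.n (.l [P 17]) .z) .z))) .z⟩⟩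

def p2_26 : Step := ⟨.conj 27 0, ⟨(.ofNat 1), .n (.n (.n .z (.n (.n (.l [M 10]) .z) .z)) .z) (.n (.n (.n (.n (.l [M
  5]) .z) (.n (.l [P 16]) .z)) (.n (.n .z (.l [M 25])) .z)) (.n (.n .z (.n (.l [P 18]) .z)) (.n .z
  (.n (.l [M 22]) .z))))⟩⟩

def p2_27 : Step := ⟨.conj 30 0, ⟨(.ofNat 1), .n (.n (.n (.n (.n .z (.l [M 20])) .z) .z) (.n (.n (.n (.l [M 4]) .z)
  .z) (.n (.n .z (.l [P 24])) .z))) (.n (.n (.n (.n .z (.l [M 21])) .z) (.n (.n (.l [P 8]) .z)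
  .z)) (.n .z (.n (.n (.l [P 11]) .z) .z)))⟩⟩

def p2_28 : Step := ⟨.conj 29 0, ⟨(.ofNat 1), .n (.n .z (.n (.n (.n .z (.l [M 20])) .z) (.n (.n .z (.l [M 23])) .z)))
  (.n (.n .z (.n (.n (.l [M 6]) .z) .z)) (.n (.n (.n (.l [M 4]) (.l [M 21])) .z) (.n (.n (.l [M
  9]) .z) .z)))⟩⟩

def p2_29 : Step := ⟨.quot 0 10000, ⟨(.ofNat 1), .n (.n .z (.n (.n (.n .z (.l [P 20])) .z) (.n (.n .z (.l [P 23]))
  .z))) (.n (.n .z (.n (.n (.l [P 6]) .z) .z)) (.n (.n (.n (.l [P 4]) (.l [P 21])) .z) (.n (.n (.l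
  [P 9]) .z) .z)))⟩⟩

def p2_30 : Step := ⟨.conj 33 18, ⟨(.ofNat 1), .n (.n (.n (.n .z (.n (.l [P 20]) .z)) (.n .z (.n (.l [M 23]) .z))) .z)
  (.n (.n (.n (.n (.l [P 9]) .z) .z) (.n (.n (.l [M 16]) .z) .z)) (.n (.n (.n (.l [M 13]) (.l [M
  26])) .z) .z))⟩⟩

def p2_31 : Step := ⟨.conj 32 0, ⟨(.ofNat 1), .n (.n (.n (.n (.n (.l [M 8]) (.l [M 25])) .z) .z) (.n (.n (.n (.l [P
  12]) .z) .z) .z)) (.n (.n (.n .z (.n (.l [P 21]) .z)) (.n .z (.n (.l [M 24]) .z))) (.n .z (.n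
  (.n (.l [P 19]) .z) .z)))⟩⟩

def p2_32 : Step := ⟨.conj 35 0, ⟨(.ofNat 1), .n (.n (.n (.n (.n (.l [M 10]) .z) .z) .z) (.n .z (.n .z (.n (.l [P 25])
  .z)))) (.n (.n (.n (.n (.l [M 12]) .z) (.n (.l [P 23]) .z)) .z) (.n (.n .z (.n (.l [P 24]) .z))
  (.n (.n (.l [P 22]) .z) .z)))⟩⟩

def p2_33 : Step := ⟨.conj 34 0, ⟨(.ofNat 1), .n (.n (.n (.n (.n (.l [M 13]) .z) (.n (.l [M 24]) .z)) .z) (.n .z (.n
  (.n (.l [M 23]) .z) (.n (.l [P 26]) .z)))) (.n (.n (.n (.n (.l [M 15]) .z) .z) (.n (.n (.l [M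
  22]) .z) .z)) .z)⟩⟩

def p2_34 : Step := ⟨.conj 37 0, ⟨(.ofNat 1), .n (.n (.n (.n (.n (.l [P 14]) .z) .z) (.n (.n (.l [M 21]) .z) .z)) (.n
  (.n (.n (.l [M 17]) .z) (.n (.l [M 25]) .z)) .z)) (.n (.n .z (.n .z (.n (.l [M 26]) .z))) (.n
  (.n (.n (.l [M 19]) .z) .z) .z))⟩⟩

def p2_35 : Step := ⟨.conj 36 0, ⟨(.ofNat 1), .n (.n (.n .z (.n (.n (.l [M 20]) .z) (.n (.l [P 25]) .z))) (.n (.n (.n
  (.l [M 16]) .z) .z) .z)) (.n (.n (.n (.n (.l [M 14]) .z) .z) .z) (.n (.n (.n (.l [M 18]) .z) .z)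
  (.n .z (.n (.l [P 26]) .z))))⟩⟩

def p2_36 : Step := ⟨.conj 39 0, ⟨(.ofNat 1), .n (.n (.n .z (.n .z (.n (.l [P 24]) .z))) (.n (.n (.n (.l [M 13]) .z)
  .z) (.n (.n (.l [P 20]) .z) .z))) (.n (.n (.n (.n (.l [M 11]) (.l [M 26])) .z) (.n (.n (.l [P
  18]) .z) .z)) .z)⟩⟩

def p2_37 : Step := ⟨.conj 38 0, ⟨(.ofNat 1), .n (.n (.n (.n (.n (.l [P 6]) .z) .z) .z) (.n (.n (.n .z (.l [M 25]))
  .z) .z)) (.n (.n .z (.n .z (.n (.l [P 23]) .z))) (.n (.n (.n (.l [P 12]) .z) (.n (.l [P 21])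
  .z)) (.n (.n (.l [M 17]) .z) .z)))⟩⟩

def p2_38 : Step := ⟨.conj 41 0, ⟨(.ofNat 1), .n (.n (.n (.n (.n (.l [M 3]) (.l [P 22])) .z) (.n (.n .z (.l [M 24]))
  .z)) (.n .z (.n (.n (.l [M 12]) .z) (.n (.l [P 19]) .z)))) (.n (.n (.n .z (.n (.l [M 15]) .z))
  .z) .z)⟩⟩

def p2_39 : Step := ⟨.conj 40 0, ⟨(.ofNat 1), .n (.n (.n (.n .z (.n (.l [P 10]) .z)) .z) (.n .z (.n .z (.n (.l [P 16])
  .z)))) (.n (.n (.n (.n (.l [P 2]) .z) .z) (.n (.n .z (.l [P 23])) .z)) (.n (.n (.n .z (.l [P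
  22])) (.n (.l [P 13]) .z)) .z))⟩⟩

def p2_40 : Step := ⟨.conj 41 28, ⟨(.ofNat 1), .n (.n (.n (.n .z (.n .z (.l [M 25]))) (.n (.n (.l [M 6]) .z) .z)) .z)
  (.n (.n .z (.n .z (.n (.l [M 16]) .z))) (.n (.n (.n (.l [M 5]) .z) (.n (.l [M 14]) .z)) (.n .z
  (.n (.l [M 17]) .z))))⟩⟩

def p2_41 : Step := ⟨.quot 0 10000, ⟨(.ofNat 1), .n (.n (.n (.n .z (.n .z (.l [P 25]))) (.n (.n (.l [P 6]) .z) .z))
  .z) (.n (.n .z (.n .z (.n (.l [P 16]) .z))) (.n (.n (.n (.l [P 5]) .z) (.n (.l [P 14]) .z)) (.n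
  .z (.n (.l [P 17]) .z))))⟩⟩

def p2_42 : Step := ⟨.conj 45 29, ⟨(.ofNat 1), .n (.n (.n (.n .z (.n (.l [M 11]) .z)) (.n .z (.n (.l [M 15]) .z))) (.n
  (.n .z (.n (.l [M 13]) .z)) (.n (.n (.l [M 9]) .z) .z))) (.n (.n (.n .z (.n .z (.l [M 26]))) (.n
  (.n (.l [M 7]) .z) .z)) .z)⟩⟩

def p2_43 : Step := ⟨.quot 0 10000, ⟨(.ofNat 1), .n (.n (.n (.n .z (.n (.l [P 11]) .z)) (.n .z (.n (.l [P 15]) .z)))
  (.n (.n .z (.n (.l [P 13]) .z)) (.n (.n (.l [P 9]) .z) .z))) (.n (.n (.n .z (.n .z (.l [P 26])))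
  (.n (.n (.l [P 7]) .z) .z)) .z)⟩⟩

def p2_44 : Step := ⟨.conj 45 21, ⟨(.ofNat 1), .n (.n (.n .z (.n .z (.n (.l [P 10]) .z))) .z) (.n (.n (.n (.n (.l [P
  0]) (.l [P 16])) .z) (.n (.n .z (.l [P 20])) .z)) (.n (.n (.n .z (.l [P 18])) .z) (.n .z (.n (.l
  [P 13]) .z))))⟩⟩

def p2_45 : Step := ⟨.conj 48 16, ⟨(.ofNat 1), .n (.n (.n .z (.n (.n (.l [M 3]) (.l [M 18])) .z)) (.n .z (.n (.n (.l
  [M 5]) .z) .z))) (.n (.n (.n .z (.n (.l [M 7]) .z)) (.n (.n .z (.l [M 19])) .z)) (.n .z (.n (.n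
  .z (.l [M 22])) .z)))⟩⟩

def p2_46 : Step := ⟨.quot 0 10000, ⟨(.ofNat 1), .n (.n (.n .z (.n (.n (.l [P 3]) (.l [P 18])) .z)) (.n .z (.n (.n (.l
  [P 5]) .z) .z))) (.n (.n (.n .z (.n (.l [P 7]) .z)) (.n (.n .z (.l [P 19])) .z)) (.n .z (.n (.n
  .z (.l [P 22])) .z)))⟩⟩

def p2_47 : Step := ⟨.conj 50 7, ⟨(.ofNat 1), .n (.n (.n (.n (.n .z (.l [P 14])) .z) .z) (.n (.n (.n (.l [P 1]) .z)
  (.n (.l [P 8]) .z)) (.n (.n .z (.l [P 19])) .z))) (.n (.n .z (.n .z (.n (.l [P 11]) .z))) (.n .z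
  (.n (.n .z (.l [P 21])) .z)))⟩⟩

def p2_48 : Step := ⟨.conj 51 7, ⟨(.ofNat 1), .n (.n (.n (.n (.n .z (.l [M 13])) .z) .z) (.n .z (.n (.n (.l [M 4]) .z)
  (.n (.l [M 11]) .z)))) (.n (.n (.n (.n .z (.l [M 15])) (.n .z (.l [M 24]))) (.n (.n (.l [M 3])
  .z) .z)) .z)⟩⟩

def p2_49 : Step := ⟨.quot 0 10000, ⟨(.ofNat 1), .n (.n (.n (.n (.n .z (.l [P 13])) .z) .z) (.n .z (.n (.n (.l [P 4])
  .z) (.n (.l [P 11]) .z)))) (.n (.n (.n (.n .z (.l [P 15])) (.n .z (.l [P 24]))) (.n (.n (.l [P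
  3]) .z) .z)) .z)⟩⟩

def p2_50 : Step := ⟨.conj 51 7, ⟨(.ofNat 1), .n (.n .z (.n (.n .z (.n .z (.l [M 25]))) .z)) (.n (.n (.n .z (.n (.l [M
  6]) .z)) (.n .z (.n (.l [M 10]) .z))) (.n (.n .z (.n (.l [M 8]) .z)) (.n (.n (.l [M 5]) .z) (.n
  (.l [M 12]) .z))))⟩⟩

def p2_51 : Step := ⟨.quot 0 10000, ⟨(.ofNat 1), .n (.n .z (.n (.n .z (.n .z (.l [P 25]))) .z)) (.n (.n (.n .z (.n (.l
  [P 6]) .z)) (.n .z (.n (.l [P 10]) .z))) (.n (.n .z (.n (.l [P 8]) .z)) (.n (.n (.l [P 5]) .z)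
  (.n (.l [P 12]) .z))))⟩⟩

def p2 : List Step := [p2_0, p2_1, p2_2, p2_3, p2_4, p2_5, p2_6, p2_7, p2_8, p2_9, p2_10, p2_11, p2_12, p2_13, p2_14,
  p2_15, p2_16, p2_17, p2_18, p2_19, p2_20, p2_21, p2_22, p2_23, p2_24, p2_25, p2_26, p2_27,
  p2_28, p2_29, p2_30, p2_31, p2_32, p2_33, p2_34, p2_35, p2_36, p2_37, p2_38, p2_39, p2_40,
  p2_41, p2_42, p2_43, p2_44, p2_45, p2_46, p2_47, p2_48, p2_49, p2_50, p2_51]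

/-- the triple -/
def trip : TripData where
  a := aA
  b := bA
  c := cA
  sa := 1
  sb := 1
  sc := 1
  sab := 1
  p1 := p1
  ta := 8
  tb := 0
  tc := 6
  p2 := p2
  tX := [29, 22, 12, 44, 10, 8]
  tY := [7, 5, 4, 43, 2, 0]

theorem chk_model : checkModel rep = true := by decide +kernel

theorem chk_rel : checkRel rep trip = true := by decide +kernel

theorem chk_one : check1 rep trip = true := by decide +kernel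

theorem chk_two : check2 rep trip = true := by decide +kernel

theorem chk_cart : ∀ i j : Fin 6, (CartanMatrix.E₆ : Matrix (Fin 6) (Fin 6) ℤ) i j = rep.A i j := by
  intro i j
  fin_cases i <;> fin_cases j <;> rfl

end E6

end Sp

theorem goodModel_E6 : GoodModel CartanMatrix.E₆ :=
  Sp.goodModel_of_check Sp.E6.rep Sp.E6.trip _ Sp.E6.chk_cart Sp.E6.chk_model
    Sp.E6.chk_rel Sp.E6.chk_one Sp.E6.chk_two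

end MP9bf44d
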