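import Pool.Agent.Lib.H74.Chev.Model

/-! # Sparse integral model of type E7 with a generating triple -/

namespace MP9bf44d

namespace Sp

namespace E7

def e0 : T :=
.n (.n (.n (.n (.n .z (.n .z (.l [P 49]))) .z) (.n .z (.n (.n (.l [P 14]) (.l [P 45])) .z))) (.n
  (.n (.n (.n .z (.l [P 37])) (.n (.l [P 21]) .z)) (.n (.n (.l [P 11]) .z) .z)) (.n (.n (.n (.l [P
  8]) (.l [P 40])) .z) (.n (.n .z (.l [P 47])) .z)))) (.n (.n (.n .z (.n (.n .z (.l [P 43])) .z))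
  .z) (.n .z (.n (.n (.n (.l [P 9]) .z) .z) (.n (.n (.l [P 17]) .z) .z))))

def f0 : T :=
.n (.n (.n (.n .z (.n (.n (.l [P 6]) (.l [P 38])) .z)) .z) (.n .z (.n .z (.n (.n (.l [P 12]) .z)
  .z)))) (.n (.n (.n (.n .z (.n (.l [P 15]) (.l [P 48]))) (.n (.n (.l [P 7]) .z) .z)) (.n (.n (.n
  .z (.l [P 34])) (.n (.l [P 18]) .z)) (.n (.n .z (.l [P 44])) .z))) (.n (.n .z (.n (.n (.l [P
  10]) (.l [P 41])) .z)) (.n .z (.n (.n .z (.l [P 46])) .z))))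

def h0 : T :=
.n (.n (.n (.n (.n .z (.n .z (.l [P 48]))) (.n (.n (.l [M 8]) (.l [M 40])) .z)) (.n .z (.n (.n (.l
  [P 12]) (.l [P 44])) .z))) (.n (.n (.n (.n .z (.l [P 34])) (.n (.l [P 18]) .z)) (.n (.n (.l [P
  10]) .z) .z)) (.n (.n (.n (.l [P 6]) (.l [P 38])) .z) (.n (.n (.l [M 14]) (.l [P 46])) .z))))
  (.n (.n (.n (.n .z (.n (.l [M 17]) (.l [M 49]))) (.n (.n (.l [M 9]) (.l [P 41])) .z)) (.n (.n
  (.n .z (.l [M 37])) (.n (.l [M 21]) .z)) (.n (.n .z (.l [M 45])) .z))) (.n (.n .z (.n (.n (.l [M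
  11]) (.l [M 43])) .z)) (.n (.n (.n (.l [P 7]) .z) .z) (.n (.n (.l [P 15]) (.l [M 47])) .z))))

def x0 : T :=
.n (.n (.n (.n (.n .z (.n .z (.l [P 49]))) .z) (.n .z (.n (.n (.l [P 14]) (.l [P 45])) .z))) (.n
  (.n (.n (.n .z (.l [P 37])) (.n (.l [P 21]) .z)) (.n (.n (.l [P 11]) .z) .z)) (.n (.n (.n (.l [P
  8]) (.l [P 40])) .z) (.n (.n .z (.l [P 47])) .z)))) (.n (.n (.n .z (.n (.n .z (.l [P 43])) .z))
  .z) (.n .z (.n (.n (.n (.l [P 9]) .z) .z) (.n (.n (.l [P 17]) .z) .z))))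

def u0 : T :=
.n (.n (.n (.n (.n .z (.n .z (.l [M 49]))) .z) (.n .z (.n (.n (.l [M 14]) (.l [M 45])) .z))) (.n
  (.n (.n (.n .z (.l [M 37])) (.n (.l [M 21]) .z)) (.n (.n (.l [M 11]) .z) .z)) (.n (.n (.n (.l [M
  8]) (.l [M 40])) .z) (.n (.n .z (.l [M 47])) .z)))) (.n (.n (.n .z (.n (.n .z (.l [M 43])) .z))
  .z) (.n .z (.n (.n (.n (.l [M 9]) .z) .z) (.n (.n (.l [M 17]) .z) .z))))

def y0 : T :=
.n (.n (.n (.n .z (.n (.n (.l [P 6]) (.l [P 38])) .z)) .z) (.n .z (.n .z (.n (.n (.l [P 12]) .z)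
  .z)))) (.n (.n (.n (.n .z (.n (.l [P 15]) (.l [P 48]))) (.n (.n (.l [P 7]) .z) .z)) (.n (.n (.n
  .z (.l [P 34])) (.n (.l [P 18]) .z)) (.n (.n .z (.l [P 44])) .z))) (.n (.n .z (.n (.n (.l [P
  10]) (.l [P 41])) .z)) (.n .z (.n (.n .z (.l [P 46])) .z))))

def v0 : T :=
.n (.n (.n (.n .z (.n (.n (.l [M 6]) (.l [M 38])) .z)) .z) (.n .z (.n .z (.n (.n (.l [M 12]) .z)
  .z)))) (.n (.n (.n (.n .z (.n (.l [M 15]) (.l [M 48]))) (.n (.n (.l [M 7]) .z) .z)) (.n (.n (.n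
  .z (.l [M 34])) (.n (.l [M 18]) .z)) (.n (.n .z (.l [M 44])) .z))) (.n (.n .z (.n (.n (.l [M
  10]) (.l [M 41])) .z)) (.n .z (.n (.n .z (.l [M 46])) .z))))

def e1 : T :=
.n (.n (.n (.n .z (.n (.n (.l [P 9]) .z) .z)) (.n (.n (.n (.l [P 5]) .z) .z) .z)) (.n (.n (.n .z
  (.n .z (.l [P 51]))) (.n .z (.n (.l [P 28]) .z))) (.n (.n (.n (.l [P 7]) .z) .z) (.n (.n .z (.l
  [P 48])) (.n (.l [P 32]) .z))))) (.n (.n (.n (.n (.n .z (.l [P 36])) .z) .z) .z) (.n (.n (.n .z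
  (.n (.l [P 22]) .z)) (.n .z (.n (.l [P 29]) .z))) (.n (.n .z (.n (.l [P 25]) .z)) (.n (.n .z (.l
  [P 49])) .z))))

def f1 : T :=
.n (.n (.n (.n (.n (.n .z (.l [P 30])) (.n .z (.l [P 46]))) .z) (.n (.n (.n .z (.l [P 33])) .z)
  (.n .z (.n (.l [P 26]) .z)))) (.n .z (.n (.n .z (.n (.l [P 19]) .z)) .z))) (.n (.n (.n (.n .z
  (.n .z (.l [P 47]))) (.n (.n (.l [P 8]) .z) (.n (.l [P 23]) .z))) (.n (.n (.n (.l [P 4]) .z) .z)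
  (.n .z (.n (.l [P 27]) .z)))) (.n (.n (.n .z (.n .z (.l [P 50]))) .z) (.n (.n (.n (.l [P 6]) .z)
  .z) .z)))

def h1 : T :=
.n (.n (.n (.n (.n (.n .z (.l [M 32])) (.n .z (.l [M 48]))) (.n (.n (.l [P 8]) .z) .z)) (.n (.n
  (.n (.l [P 4]) (.l [M 36])) .z) (.n .z (.n (.l [M 28]) .z)))) (.n (.n (.n .z (.n .z (.l [P
  50]))) (.n .z (.n (.l [P 26]) .z))) (.n (.n (.n (.l [P 6]) .z) (.n (.l [M 22]) .z)) (.n (.n .z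
  (.l [P 46])) (.n (.l [P 30]) .z))))) (.n (.n (.n (.n (.n .z (.l [P 33])) (.n .z (.l [M 49])))
  (.n (.n (.l [M 9]) .z) (.n (.l [M 25]) .z))) (.n (.n (.n (.l [M 5]) .z) .z) (.n .z (.n (.l [M
  29]) .z)))) (.n (.n (.n .z (.n (.l [P 19]) (.l [M 51]))) (.n .z (.n (.l [P 27]) .z))) (.n (.n
  (.n (.l [M 7]) .z) (.n (.l [P 23]) .z)) (.n (.n .z (.l [P 47])) .z))))

def x1 : T :=
.n (.n (.n (.n .z (.n (.n (.l [P 9]) .z) .z)) (.n (.n (.n (.l [P 5]) .z) .z) .z)) (.n (.n (.n .z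
  (.n .z (.l [P 51]))) (.n .z (.n (.l [P 28]) .z))) (.n (.n (.n (.l [P 7]) .z) .z) (.n (.n .z (.l
  [P 48])) (.n (.l [P 32]) .z))))) (.n (.n (.n (.n (.n .z (.l [P 36])) .z) .z) .z) (.n (.n (.n .z
  (.n (.l [P 22]) .z)) (.n .z (.n (.l [P 29]) .z))) (.n (.n .z (.n (.l [P 25]) .z)) (.n (.n .z (.l
  [P 49])) .z))))

def u1 : T :=
.n (.n (.n (.n .z (.n (.n (.l [M 9]) .z) .z)) (.n (.n (.n (.l [M 5]) .z) .z) .z)) (.n (.n (.n .z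
  (.n .z (.l [M 51]))) (.n .z (.n (.l [M 28]) .z))) (.n (.n (.n (.l [M 7]) .z) .z) (.n (.n .z (.l
  [M 48])) (.n (.l [M 32]) .z))))) (.n (.n (.n (.n (.n .z (.l [M 36])) .z) .z) .z) (.n (.n (.n .z
  (.n (.l [M 22]) .z)) (.n .z (.n (.l [M 29]) .z))) (.n (.n .z (.n (.l [M 25]) .z)) (.n (.n .z (.l
  [M 49])) .z))))

def y1 : T :=
.n (.n (.n (.n (.n (.n .z (.l [P 30])) (.n .z (.l [P 46]))) .z) (.n (.n (.n .z (.l [P 33])) .z)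
  (.n .z (.n (.l [P 26]) .z)))) (.n .z (.n (.n .z (.n (.l [P 19]) .z)) .z))) (.n (.n (.n (.n .z
  (.n .z (.l [P 47]))) (.n (.n (.l [P 8]) .z) (.n (.l [P 23]) .z))) (.n (.n (.n (.l [P 4]) .z) .z)
  (.n .z (.n (.l [P 27]) .z)))) (.n (.n (.n .z (.n .z (.l [P 50]))) .z) (.n (.n (.n (.l [P 6]) .z)
  .z) .z)))

def v1 : T :=
.n (.n (.n (.n (.n (.n .z (.l [M 30])) (.n .z (.l [M 46]))) .z) (.n (.n (.n .z (.l [M 33])) .z)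
  (.n .z (.n (.l [M 26]) .z)))) (.n .z (.n (.n .z (.n (.l [M 19]) .z)) .z))) (.n (.n (.n (.n .z
  (.n .z (.l [M 47]))) (.n (.n (.l [M 8]) .z) (.n (.l [M 23]) .z))) (.n (.n (.n (.l [M 4]) .z) .z)
  (.n .z (.n (.l [M 27]) .z)))) (.n (.n (.n .z (.n .z (.l [M 50]))) .z) (.n (.n (.n (.l [M 6]) .z)
  .z) .z)))

def e2 : T :=
.n (.n (.n .z (.n (.n (.n (.l [P 6]) .z) .z) .z)) (.n (.n .z (.n (.n .z (.l [P 44])) .z)) (.n .z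
  (.n (.n (.l [P 16]) .z) .z)))) (.n (.n (.n (.n .z (.n (.l [P 20]) (.l [P 51]))) .z) (.n (.n (.n
  (.l [P 7]) .z) (.n (.l [P 24]) .z)) .z)) (.n (.n (.n (.n .z (.l [P 38])) .z) (.n (.n (.l [P 13])
  .z) .z)) (.n (.n (.n .z (.l [P 41])) .z) (.n (.n .z (.l [P 50])) (.n (.l [P 34]) .z)))))

def f2 : T :=
.n (.n (.n (.n (.n .z (.n (.l [P 14]) .z)) (.n .z (.n (.l [P 21]) .z))) (.n (.n .z (.n (.l [P 17])
  .z)) (.n (.n .z (.l [P 42])) .z))) (.n (.n (.n (.n .z (.l [P 31])) (.n .z (.l [P 47]))) .z) (.n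
  (.n (.n (.l [P 4]) (.l [P 35])) .z) .z))) (.n (.n (.n .z (.n (.n .z (.l [P 39])) .z)) (.n .z (.n
  (.n (.l [P 11]) .z) .z))) (.n (.n (.n .z (.n .z (.l [P 49]))) .z) (.n (.n (.n (.l [P 5]) .z) .z)
  .z)))

def h2 : T :=
.n (.n (.n (.n (.n .z (.n (.l [M 16]) .z)) (.n .z (.n (.l [M 24]) .z))) (.n (.n (.n (.l [P 4]) .z)
  (.n (.l [M 20]) .z)) (.n (.n .z (.l [M 44])) .z))) (.n (.n (.n (.n .z (.l [M 34])) (.n .z (.l [M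
  50]))) (.n (.n .z (.l [P 42])) .z)) (.n (.n (.n (.l [M 6]) (.l [M 38])) .z) (.n (.n (.l [P 14])
  .z) .z)))) (.n (.n (.n (.n .z (.n (.l [P 17]) (.l [P 49]))) (.n (.n .z (.l [M 41])) .z)) (.n (.n
  (.n (.l [P 5]) .z) (.n (.l [P 21]) .z)) (.n (.n (.l [M 13]) .z) .z))) (.n (.n (.n (.n .z (.l [P
  35])) (.n .z (.l [M 51]))) (.n (.n (.l [P 11]) .z) .z)) (.n (.n (.n (.l [M 7]) (.l [P 39])) .z)
  (.n (.n .z (.l [P 47])) (.n (.l [P 31]) .z)))))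

def x2 : T :=
.n (.n (.n .z (.n (.n (.n (.l [P 6]) .z) .z) .z)) (.n (.n .z (.n (.n .z (.l [P 44])) .z)) (.n .z
  (.n (.n (.l [P 16]) .z) .z)))) (.n (.n (.n (.n .z (.n (.l [P 20]) (.l [P 51]))) .z) (.n (.n (.n
  (.l [P 7]) .z) (.n (.l [P 24]) .z)) .z)) (.n (.n (.n (.n .z (.l [P 38])) .z) (.n (.n (.l [P 13])
  .z) .z)) (.n (.n (.n .z (.l [P 41])) .z) (.n (.n .z (.l [P 50])) (.n (.l [P 34]) .z)))))

def u2 : T :=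
.n (.n (.n .z (.n (.n (.n (.l [M 6]) .z) .z) .z)) (.n (.n .z (.n (.n .z (.l [M 44])) .z)) (.n .z
  (.n (.n (.l [M 16]) .z) .z)))) (.n (.n (.n (.n .z (.n (.l [M 20]) (.l [M 51]))) .z) (.n (.n (.n
  (.l [M 7]) .z) (.n (.l [M 24]) .z)) .z)) (.n (.n (.n (.n .z (.l [M 38])) .z) (.n (.n (.l [M 13])
  .z) .z)) (.n (.n (.n .z (.l [M 41])) .z) (.n (.n .z (.l [M 50])) (.n (.l [M 34]) .z)))))

def y2 : T :=
.n (.n (.n (.n (.n .z (.n (.l [P 14]) .z)) (.n .z (.n (.l [P 21]) .z))) (.n (.n .z (.n (.l [P 17])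
  .z)) (.n (.n .z (.l [P 42])) .z))) (.n (.n (.n (.n .z (.l [P 31])) (.n .z (.l [P 47]))) .z) (.n
  (.n (.n (.l [P 4]) (.l [P 35])) .z) .z))) (.n (.n (.n .z (.n (.n .z (.l [P 39])) .z)) (.n .z (.n
  (.n (.l [P 11]) .z) .z))) (.n (.n (.n .z (.n .z (.l [P 49]))) .z) (.n (.n (.n (.l [P 5]) .z) .z)
  .z)))

def v2 : T :=
.n (.n (.n (.n (.n .z (.n (.l [M 14]) .z)) (.n .z (.n (.l [M 21]) .z))) (.n (.n .z (.n (.l [M 17])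
  .z)) (.n (.n .z (.l [M 42])) .z))) (.n (.n (.n (.n .z (.l [M 31])) (.n .z (.l [M 47]))) .z) (.n
  (.n (.n (.l [M 4]) (.l [M 35])) .z) .z))) (.n (.n (.n .z (.n (.n .z (.l [M 39])) .z)) (.n .z (.n
  (.n (.l [M 11]) .z) .z))) (.n (.n (.n .z (.n .z (.l [M 49]))) .z) (.n (.n (.n (.l [M 5]) .z) .z)
  .z)))

def e3 : T :=
.n (.n (.n (.n (.n (.n .z (.l [P 35])) (.n (.l [P 19]) .z)) (.n .z (.n (.l [P 27]) .z))) (.n (.n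
  (.n .z (.l [P 39])) (.n (.l [P 23]) .z)) (.n (.n .z (.l [P 46])) (.n (.l [P 31]) .z)))) .z) (.n
  (.n (.n .z (.n (.n (.l [P 11]) .z) .z)) (.n .z (.n (.n .z (.l [P 47])) .z))) (.n (.n (.n (.n (.l
  [P 4]) .z) (.n .z (.l [P 52]))) .z) (.n (.n (.n (.l [P 10]) .z) .z) .z)))

def f3 : T :=
.n (.n (.n .z (.n (.n (.n (.l [P 3]) .z) (.n .z (.l [P 51]))) .z)) (.n (.n .z (.n (.n (.l [P 7])
  .z) .z)) (.n .z (.n (.n .z (.l [P 44])) .z)))) (.n .z (.n (.n (.n (.n .z (.l [P 32])) (.n (.l [P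
  16]) .z)) (.n (.n (.l [P 9]) .z) (.n (.l [P 24]) .z))) (.n (.n (.n .z (.l [P 36])) (.n (.l [P
  20]) .z)) (.n (.n .z (.l [P 45])) (.n (.l [P 28]) .z)))))

def h3 : T :=
.n (.n (.n (.n (.n (.n .z (.l [P 32])) (.n (.l [P 16]) .z)) (.n .z (.n (.l [P 24]) .z))) (.n (.n
  (.n (.l [M 4]) (.l [P 36])) (.n (.l [P 20]) (.l [M 52]))) (.n (.n .z (.l [P 44])) (.n (.l [P
  28]) .z)))) (.n (.n .z (.n (.n (.l [M 10]) .z) .z)) (.n .z (.n (.n .z (.l [M 46])) .z)))) (.n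
  (.n (.n .z (.n (.n (.l [P 9]) .z) .z)) (.n .z (.n (.n .z (.l [P 45])) .z))) (.n (.n (.n (.n (.l
  [P 3]) (.l [M 35])) (.n (.l [M 19]) (.l [P 51]))) (.n (.n (.l [M 11]) .z) (.n (.l [M 27]) .z)))
  (.n (.n (.n (.l [P 7]) (.l [M 39])) (.n (.l [M 23]) .z)) (.n (.n .z (.l [M 47])) (.n (.l [M 31])
  .z)))))

def x3 : T :=
.n (.n (.n (.n (.n (.n .z (.l [P 35])) (.n (.l [P 19]) .z)) (.n .z (.n (.l [P 27]) .z))) (.n (.n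
  (.n .z (.l [P 39])) (.n (.l [P 23]) .z)) (.n (.n .z (.l [P 46])) (.n (.l [P 31]) .z)))) .z) (.n
  (.n (.n .z (.n (.n (.l [P 11]) .z) .z)) (.n .z (.n (.n .z (.l [P 47])) .z))) (.n (.n (.n (.n (.l
  [P 4]) .z) (.n .z (.l [P 52]))) .z) (.n (.n (.n (.l [P 10]) .z) .z) .z)))

def u3 : T :=
.n (.n (.n (.n (.n (.n .z (.l [M 35])) (.n (.l [M 19]) .z)) (.n .z (.n (.l [M 27]) .z))) (.n (.n
  (.n .z (.l [M 39])) (.n (.l [M 23]) .z)) (.n (.n .z (.l [M 46])) (.n (.l [M 31]) .z)))) .z) (.n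
  (.n (.n .z (.n (.n (.l [M 11]) .z) .z)) (.n .z (.n (.n .z (.l [M 47])) .z))) (.n (.n (.n (.n (.l
  [M 4]) .z) (.n .z (.l [M 52]))) .z) (.n (.n (.n (.l [M 10]) .z) .z) .z)))

def y3 : T :=
.n (.n (.n .z (.n (.n (.n (.l [P 3]) .z) (.n .z (.l [P 51]))) .z)) (.n (.n .z (.n (.n (.l [P 7])
  .z) .z)) (.n .z (.n (.n .z (.l [P 44])) .z)))) (.n .z (.n (.n (.n (.n .z (.l [P 32])) (.n (.l [P
  16]) .z)) (.n (.n (.l [P 9]) .z) (.n (.l [P 24]) .z))) (.n (.n (.n .z (.l [P 36])) (.n (.l [P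
  20]) .z)) (.n (.n .z (.l [P 45])) (.n (.l [P 28]) .z)))))

def v3 : T :=
.n (.n (.n .z (.n (.n (.n (.l [M 3]) .z) (.n .z (.l [M 51]))) .z)) (.n (.n .z (.n (.n (.l [M 7])
  .z) .z)) (.n .z (.n (.n .z (.l [M 44])) .z)))) (.n .z (.n (.n (.n (.n .z (.l [M 32])) (.n (.l [M
  16]) .z)) (.n (.n (.l [M 9]) .z) (.n (.l [M 24]) .z))) (.n (.n (.n .z (.l [M 36])) (.n (.l [M
  20]) .z)) (.n (.n .z (.l [M 45])) (.n (.l [M 28]) .z)))))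

def e4 : T :=
.n (.n (.n .z (.n (.n .z (.n .z (.l [P 53]))) .z)) (.n (.n (.n (.n (.l [P 3]) .z) .z) (.n (.n (.l
  [P 12]) .z) .z)) .z)) (.n (.n (.n .z (.n (.n .z (.l [P 44])) (.n (.l [P 28]) .z))) (.n .z (.n
  (.n (.l [P 16]) .z) (.n (.l [P 32]) .z)))) (.n (.n .z (.n (.n (.l [P 14]) (.l [P 45])) (.n (.l
  [P 30]) .z))) (.n (.n (.n .z (.l [P 42])) (.n (.l [P 26]) .z)) .z)))

def f4 : T :=
.n (.n (.n (.n (.n (.n .z (.l [P 29])) (.n (.l [P 13]) .z)) .z) (.n .z (.n (.n (.l [P 10]) (.l [P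
  41])) (.n (.l [P 25]) .z)))) (.n (.n .z (.n (.n .z (.l [P 39])) (.n (.l [P 23]) .z))) (.n .z (.n
  (.n (.l [P 11]) .z) (.n (.l [P 27]) .z))))) (.n (.n .z (.n (.n .z (.n .z (.l [P 52]))) (.n (.n
  .z (.l [P 43])) .z))) (.n (.n (.n (.n (.l [P 2]) .z) .z) .z) .z))

def h4 : T :=
.n (.n (.n (.n (.n (.n .z (.l [M 32])) (.n (.l [M 16]) .z)) .z) (.n (.n .z (.n .z (.l [P 52])))
  (.n (.n (.l [M 12]) (.l [M 44])) (.n (.l [M 28]) .z)))) (.n (.n (.n (.n (.l [P 2]) .z) .z) (.n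
  (.n (.l [P 10]) (.l [M 42])) (.n (.l [M 26]) .z))) (.n .z (.n (.n (.l [M 14]) .z) (.n (.l [M
  30]) .z))))) (.n (.n (.n .z (.n (.n .z (.l [P 41])) (.n (.l [P 25]) .z))) (.n (.n .z (.n .z (.l
  [M 53]))) (.n (.n (.l [P 13]) (.l [M 45])) (.n (.l [P 29]) .z)))) (.n (.n (.n (.n (.l [M 3]) .z)
  .z) (.n (.n (.l [P 11]) (.l [P 43])) (.n (.l [P 27]) .z))) (.n (.n (.n .z (.l [P 39])) (.n (.l
  [P 23]) .z)) .z)))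

def x4 : T :=
.n (.n (.n .z (.n (.n .z (.n .z (.l [P 53]))) .z)) (.n (.n (.n (.n (.l [P 3]) .z) .z) (.n (.n (.l
  [P 12]) .z) .z)) .z)) (.n (.n (.n .z (.n (.n .z (.l [P 44])) (.n (.l [P 28]) .z))) (.n .z (.n
  (.n (.l [P 16]) .z) (.n (.l [P 32]) .z)))) (.n (.n .z (.n (.n (.l [P 14]) (.l [P 45])) (.n (.l
  [P 30]) .z))) (.n (.n (.n .z (.l [P 42])) (.n (.l [P 26]) .z)) .z)))

def u4 : T :=
.n (.n (.n .z (.n (.n .z (.n .z (.l [M 53]))) .z)) (.n (.n (.n (.n (.l [M 3]) .z) .z) (.n (.n (.l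
  [M 12]) .z) .z)) .z)) (.n (.n (.n .z (.n (.n .z (.l [M 44])) (.n (.l [M 28]) .z))) (.n .z (.n
  (.n (.l [M 16]) .z) (.n (.l [M 32]) .z)))) (.n (.n .z (.n (.n (.l [M 14]) (.l [M 45])) (.n (.l
  [M 30]) .z))) (.n (.n (.n .z (.l [M 42])) (.n (.l [M 26]) .z)) .z)))

def y4 : T :=
.n (.n (.n (.n (.n (.n .z (.l [P 29])) (.n (.l [P 13]) .z)) .z) (.n .z (.n (.n (.l [P 10]) (.l [P
  41])) (.n (.l [P 25]) .z)))) (.n (.n .z (.n (.n .z (.l [P 39])) (.n (.l [P 23]) .z))) (.n .z (.n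
  (.n (.l [P 11]) .z) (.n (.l [P 27]) .z))))) (.n (.n .z (.n (.n .z (.n .z (.l [P 52]))) (.n (.n
  .z (.l [P 43])) .z))) (.n (.n (.n (.n (.l [P 2]) .z) .z) .z) .z))

def v4 : T :=
.n (.n (.n (.n (.n (.n .z (.l [M 29])) (.n (.l [M 13]) .z)) .z) (.n .z (.n (.n (.l [M 10]) (.l [M
  41])) (.n (.l [M 25]) .z)))) (.n (.n .z (.n (.n .z (.l [M 39])) (.n (.l [M 23]) .z))) (.n .z (.n
  (.n (.l [M 11]) .z) (.n (.l [M 27]) .z))))) (.n (.n .z (.n (.n .z (.n .z (.l [M 52]))) (.n (.n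
  .z (.l [M 43])) .z))) (.n (.n (.n (.n (.l [M 2]) .z) .z) .z) .z))

def e5 : T :=
.n (.n (.n (.n (.n (.n .z (.l [P 36])) (.n (.l [P 20]) .z)) (.n (.n .z (.l [P 43])) .z)) (.n .z
  (.n (.n (.l [P 15]) .z) .z))) (.n .z (.n (.n (.n .z (.l [P 41])) (.n (.l [P 25]) .z)) (.n (.n
  (.l [P 17]) .z) (.n (.l [P 33]) .z))))) (.n (.n (.n (.n (.n (.l [P 2]) .z) .z) .z) (.n (.n .z
  (.n .z (.l [P 54]))) .z)) (.n (.n (.n (.n .z (.l [P 39])) (.n (.l [P 23]) .z)) .z) .z))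

def f5 : T :=
.n (.n (.n .z (.n (.n (.n .z (.l [P 32])) (.n (.l [P 16]) .z)) .z)) (.n (.n (.n (.n (.l [P 1]) .z)
  .z) .z) (.n (.n .z (.n .z (.l [P 53]))) .z))) (.n (.n (.n (.n (.n .z (.l [P 30])) (.n (.l [P
  14]) .z)) (.n (.n .z (.l [P 38])) (.n (.l [P 22]) .z))) .z) (.n (.n .z (.n (.n .z (.l [P 40]))
  .z)) (.n (.n (.n .z (.l [P 35])) (.n (.l [P 19]) .z)) (.n (.n (.l [P 12]) .z) .z))))

def h5 : T :=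
.n (.n (.n (.n (.n (.n .z (.l [P 32])) (.n (.l [P 16]) .z)) (.n (.n .z (.l [P 40])) .z)) (.n (.n
  (.n .z (.l [M 36])) (.n (.l [M 20]) .z)) (.n (.n (.l [P 12]) .z) .z))) (.n (.n (.n (.n (.l [M
  2]) .z) .z) .z) (.n (.n (.n .z (.l [P 38])) (.n (.l [P 22]) (.l [M 54]))) (.n (.n (.l [P 14])
  .z) (.n (.l [P 30]) .z))))) (.n (.n (.n (.n (.n (.l [P 1]) (.l [M 33])) (.n (.l [M 17]) .z)) (.n
  (.n .z (.l [M 41])) (.n (.l [M 25]) .z))) (.n (.n .z (.n .z (.l [P 53]))) .z)) (.n (.n (.n (.n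
  .z (.l [P 35])) (.n (.l [P 19]) .z)) (.n (.n .z (.l [M 43])) .z)) (.n (.n (.n .z (.l [M 39]))
  (.n (.l [M 23]) .z)) (.n (.n (.l [M 15]) .z) .z))))

def x5 : T :=
.n (.n (.n (.n (.n (.n .z (.l [P 36])) (.n (.l [P 20]) .z)) (.n (.n .z (.l [P 43])) .z)) (.n .z
  (.n (.n (.l [P 15]) .z) .z))) (.n .z (.n (.n (.n .z (.l [P 41])) (.n (.l [P 25]) .z)) (.n (.n
  (.l [P 17]) .z) (.n (.l [P 33]) .z))))) (.n (.n (.n (.n (.n (.l [P 2]) .z) .z) .z) (.n (.n .z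
  (.n .z (.l [P 54]))) .z)) (.n (.n (.n (.n .z (.l [P 39])) (.n (.l [P 23]) .z)) .z) .z))

def u5 : T :=
.n (.n (.n (.n (.n (.n .z (.l [M 36])) (.n (.l [M 20]) .z)) (.n (.n .z (.l [M 43])) .z)) (.n .z
  (.n (.n (.l [M 15]) .z) .z))) (.n .z (.n (.n (.n .z (.l [M 41])) (.n (.l [M 25]) .z)) (.n (.n
  (.l [M 17]) .z) (.n (.l [M 33]) .z))))) (.n (.n (.n (.n (.n (.l [M 2]) .z) .z) .z) (.n (.n .z
  (.n .z (.l [M 54]))) .z)) (.n (.n (.n (.n .z (.l [M 39])) (.n (.l [M 23]) .z)) .z) .z))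

def y5 : T :=
.n (.n (.n .z (.n (.n (.n .z (.l [P 32])) (.n (.l [P 16]) .z)) .z)) (.n (.n (.n (.n (.l [P 1]) .z)
  .z) .z) (.n (.n .z (.n .z (.l [P 53]))) .z))) (.n (.n (.n (.n (.n .z (.l [P 30])) (.n (.l [P
  14]) .z)) (.n (.n .z (.l [P 38])) (.n (.l [P 22]) .z))) .z) (.n (.n .z (.n (.n .z (.l [P 40]))
  .z)) (.n (.n (.n .z (.l [P 35])) (.n (.l [P 19]) .z)) (.n (.n (.l [P 12]) .z) .z))))

def v5 : T :=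
.n (.n (.n .z (.n (.n (.n .z (.l [M 32])) (.n (.l [M 16]) .z)) .z)) (.n (.n (.n (.n (.l [M 1]) .z)
  .z) .z) (.n (.n .z (.n .z (.l [M 53]))) .z))) (.n (.n (.n (.n (.n .z (.l [M 30])) (.n (.l [M
  14]) .z)) (.n (.n .z (.l [M 38])) (.n (.l [M 22]) .z))) .z) (.n (.n .z (.n (.n .z (.l [M 40]))
  .z)) (.n (.n (.n .z (.l [M 35])) (.n (.l [M 19]) .z)) (.n (.n (.l [M 12]) .z) .z))))

def e6 : T :=
.n (.n (.n (.n (.n (.n (.l [P 1]) .z) .z) .z) (.n (.n .z (.n (.l [P 24]) .z)) (.n .z (.n (.l [P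
  32]) .z)))) (.n (.n (.n (.n .z (.l [P 38])) .z) (.n .z (.n (.l [P 30]) .z))) (.n (.n .z (.n .z
  (.l [P 55]))) .z))) (.n (.n (.n (.n .z (.n (.l [P 21]) .z)) (.n .z (.n (.l [P 29]) .z))) (.n (.n
  (.n .z (.l [P 40])) .z) .z)) (.n .z (.n (.n .z (.n (.l [P 27]) .z)) (.n (.n (.l [P 18]) .z) (.n
  (.l [P 35]) .z)))))

def f6 : T :=
.n (.n (.n (.n (.n (.n .z (.l [P 28])) .z) (.n (.n .z (.l [P 37])) (.n (.l [P 20]) .z))) .z) (.n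
  (.n (.n .z (.n (.l [P 15]) .z)) .z) (.n (.n (.n .z (.l [P 34])) .z) (.n .z (.n (.l [P 26])
  .z))))) (.n (.n (.n (.n (.n (.l [P 0]) .z) .z) .z) (.n (.n .z (.n (.l [P 17]) .z)) (.n .z (.n
  (.l [P 25]) .z)))) (.n (.n (.n (.n .z (.l [P 31])) .z) (.n .z (.n (.l [P 23]) .z))) (.n (.n .z
  (.n .z (.l [P 54]))) .z)))

def h6 : T :=
.n (.n (.n (.n (.n (.n (.l [P 0]) (.l [M 32])) .z) (.n (.n .z (.l [M 40])) (.n (.l [M 24]) .z)))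
  (.n (.n .z (.n (.l [P 20]) .z)) (.n .z (.n (.l [P 28]) .z)))) (.n (.n (.n (.n .z (.l [P 34]))
  (.n (.l [M 18]) .z)) (.n .z (.n (.l [P 26]) .z))) (.n (.n (.n .z (.l [M 38])) (.n .z (.l [P
  54]))) (.n .z (.n (.l [M 30]) .z))))) (.n (.n (.n (.n (.n (.l [M 1]) .z) (.n (.l [P 17]) .z))
  (.n .z (.n (.l [P 25]) .z))) (.n (.n (.n .z (.l [P 37])) (.n (.l [M 21]) .z)) (.n .z (.n (.l [M
  29]) .z)))) (.n (.n (.n (.n .z (.l [M 35])) .z) (.n .z (.n (.l [M 27]) .z))) (.n (.n .z (.n (.l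
  [P 23]) (.l [M 55]))) (.n (.n (.l [P 15]) .z) (.n (.l [P 31]) .z)))))

def x6 : T :=
.n (.n (.n (.n (.n (.n (.l [P 1]) .z) .z) .z) (.n (.n .z (.n (.l [P 24]) .z)) (.n .z (.n (.l [P
  32]) .z)))) (.n (.n (.n (.n .z (.l [P 38])) .z) (.n .z (.n (.l [P 30]) .z))) (.n (.n .z (.n .z
  (.l [P 55]))) .z))) (.n (.n (.n (.n .z (.n (.l [P 21]) .z)) (.n .z (.n (.l [P 29]) .z))) (.n (.n
  (.n .z (.l [P 40])) .z) .z)) (.n .z (.n (.n .z (.n (.l [P 27]) .z)) (.n (.n (.l [P 18]) .z) (.n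
  (.l [P 35]) .z)))))

def u6 : T :=
.n (.n (.n (.n (.n (.n (.l [M 1]) .z) .z) .z) (.n (.n .z (.n (.l [M 24]) .z)) (.n .z (.n (.l [M
  32]) .z)))) (.n (.n (.n (.n .z (.l [M 38])) .z) (.n .z (.n (.l [M 30]) .z))) (.n (.n .z (.n .z
  (.l [M 55]))) .z))) (.n (.n (.n (.n .z (.n (.l [M 21]) .z)) (.n .z (.n (.l [M 29]) .z))) (.n (.n
  (.n .z (.l [M 40])) .z) .z)) (.n .z (.n (.n .z (.n (.l [M 27]) .z)) (.n (.n (.l [M 18]) .z) (.n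
  (.l [M 35]) .z)))))

def y6 : T :=
.n (.n (.n (.n (.n (.n .z (.l [P 28])) .z) (.n (.n .z (.l [P 37])) (.n (.l [P 20]) .z))) .z) (.n
  (.n (.n .z (.n (.l [P 15]) .z)) .z) (.n (.n (.n .z (.l [P 34])) .z) (.n .z (.n (.l [P 26])
  .z))))) (.n (.n (.n (.n (.n (.l [P 0]) .z) .z) .z) (.n (.n .z (.n (.l [P 17]) .z)) (.n .z (.n
  (.l [P 25]) .z)))) (.n (.n (.n (.n .z (.l [P 31])) .z) (.n .z (.n (.l [P 23]) .z))) (.n (.n .z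
  (.n .z (.l [P 54]))) .z)))

def v6 : T :=
.n (.n (.n (.n (.n (.n .z (.l [M 28])) .z) (.n (.n .z (.l [M 37])) (.n (.l [M 20]) .z))) .z) (.n
  (.n (.n .z (.n (.l [M 15]) .z)) .z) (.n (.n (.n .z (.l [M 34])) .z) (.n .z (.n (.l [M 26])
  .z))))) (.n (.n (.n (.n (.n (.l [M 0]) .z) .z) .z) (.n (.n .z (.n (.l [M 17]) .z)) (.n .z (.n
  (.l [M 25]) .z)))) (.n (.n (.n (.n .z (.l [M 31])) .z) (.n .z (.n (.l [M 23]) .z))) (.n (.n .z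
  (.n .z (.l [M 54]))) .z)))

def idT : T :=
.n (.n (.n (.n (.n (.n (.l [P 0]) (.l [P 32])) (.n (.l [P 16]) (.l [P 48]))) (.n (.n (.l [P 8])
  (.l [P 40])) (.n (.l [P 24]) .z))) (.n (.n (.n (.l [P 4]) (.l [P 36])) (.n (.l [P 20]) (.l [P
  52]))) (.n (.n (.l [P 12]) (.l [P 44])) (.n (.l [P 28]) .z)))) (.n (.n (.n (.n (.l [P 2]) (.l [P
  34])) (.n (.l [P 18]) (.l [P 50]))) (.n (.n (.l [P 10]) (.l [P 42])) (.n (.l [P 26]) .z))) (.n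
  (.n (.n (.l [P 6]) (.l [P 38])) (.n (.l [P 22]) (.l [P 54]))) (.n (.n (.l [P 14]) (.l [P 46]))
  (.n (.l [P 30]) .z))))) (.n (.n (.n (.n (.n (.l [P 1]) (.l [P 33])) (.n (.l [P 17]) (.l [P
  49]))) (.n (.n (.l [P 9]) (.l [P 41])) (.n (.l [P 25]) .z))) (.n (.n (.n (.l [P 5]) (.l [P 37]))
  (.n (.l [P 21]) (.l [P 53]))) (.n (.n (.l [P 13]) (.l [P 45])) (.n (.l [P 29]) .z)))) (.n (.n
  (.n (.n (.l [P 3]) (.l [P 35])) (.n (.l [P 19]) (.l [P 51]))) (.n (.n (.l [P 11]) (.l [P 43]))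
  (.n (.l [P 27]) .z))) (.n (.n (.n (.l [P 7]) (.l [P 39])) (.n (.l [P 23]) (.l [P 55]))) (.n (.n
  (.l [P 15]) (.l [P 47])) (.n (.l [P 31]) .z)))))

/-- the representation -/
def rep : RepData where
  n := 56
  d := 6
  l := 7
  cart := [[2, 0, -1, 0, 0, 0, 0], [0, 2, 0, -1, 0, 0, 0], [-1, 0, 2, -1, 0, 0, 0], [0, -1, -1, 2, -1, 0, 0], [0, 0, 0, -1, 2, -1, 0], [0, 0, 0, 0, -1, 2, -1], [0, 0, 0, 0, 0, -1, 2]]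
  e := [e0, e1, e2, e3, e4, e5, e6]
  f := [f0, f1, f2, f3, f4, f5, f6]
  h := [h0, h1, h2, h3, h4, h5, h6]
  x := [x0, x1, x2, x3, x4, x5, x6]
  x' := [u0, u1, u2, u3, u4, u5, u6]
  y := [y0, y1, y2, y3, y4, y5, y6]
  y' := [v0, v1, v2, v3, v4, v5, v6]
  w := [(6, 8), (4, 5), (4, 6), (3, 4), (2, 3), (1, 2), (0, 1)]
  I := idT

def aA : Aff := ⟨(.ofNat 0),
.n (.n (.n (.n (.n (.n (.l [M 0]) (.l [M 39])) (.n (.l [M 23]) (.l [M 49]))) (.n (.n (.l [P 6])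
  (.l [P 41])) (.n (.l [M 27]) .z))) (.n (.n (.n (.l [M 3]) (.l [M 35])) (.n (.l [M 19]) (.l [P
  51]))) (.n (.n (.l [P 17]) (.l [M 47])) (.n (.l [P 31]) .z)))) (.n (.n (.n (.n (.l [P 1]) (.l [M
  37])) (.n (.l [P 21]) (.l [M 50]))) (.n (.n (.l [M 9]) (.l [M 42])) (.n (.l [M 26]) .z))) (.n
  (.n (.n (.l [P 8]) (.l [P 43])) (.n (.l [M 25]) (.l [M 53]))) (.n (.n (.l [P 15]) (.l [M 45]))
  (.n (.l [P 33]) .z))))) (.n (.n (.n (.n (.n (.l [P 2]) (.l [P 30])) (.n (.l [P 12]) (.l [M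
  48]))) (.n (.n (.l [M 10]) (.l [P 40])) (.n (.l [M 22]) .z))) (.n (.n (.n (.l [M 5]) (.l [M
  34])) (.n (.l [P 18]) (.l [M 54]))) (.n (.n (.l [M 13]) (.l [M 46])) (.n (.l [M 29]) .z)))) (.n
  (.n (.n (.n (.l [M 4]) (.l [M 36])) (.n (.l [M 20]) (.l [P 52]))) (.n (.n (.l [M 7]) (.l [P
  38])) (.n (.l [M 24]) .z))) (.n (.n (.n (.l [M 11]) (.l [M 32])) (.n (.l [M 16]) (.l [M 55])))
  (.n (.n (.l [P 14]) (.l [M 44])) (.n (.l [P 28]) .z)))))⟩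

def bA : Aff := ⟨(.negSucc 0),
.n (.n (.n (.n (.n (.n (.l [(0, .ofNat 2)]) (.l [M 53])) .z) (.n .z (.n (.l [P 50]) .z))) (.n (.n
  (.n (.l [P 26]) (.l [M 54])) .z) (.n (.n .z (.l [(44, .ofNat 2)])) .z))) (.n (.n (.n (.n (.l
  [(2, .ofNat 2), P 20, M 23]) .z) (.n (.l [M 44, P 46]) (.l [(50, .ofNat 2)]))) (.n (.n (.l [(10,
  .ofNat 2), P 34]) (.l [(42, .ofNat 2)])) (.n (.l [(26, .ofNat 2)]) .z))) (.n (.n .z (.n (.l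
  [(22, .ofNat 2)]) (.l [(54, .ofNat 2)]))) (.n (.n .z (.l [(46, .ofNat 2)])) (.n (.l [(30, .ofNat
  2)]) .z))))) (.n (.n (.n (.n (.n (.l [(1, .ofNat 2), P 16, M 19]) (.l [(33, .ofNat 2)])) .z) (.n
  (.n (.l [(9, .ofNat 2), P 37]) .z) (.n (.l [(25, .ofNat 2)]) .z))) (.n (.n (.n (.l [(5, .ofNat
  2), M 28, P 31]) .z) (.n (.l [M 45, P 47]) (.l [(53, .ofNat 2)]))) (.n (.n (.l [(13, .ofNat 2)])
  (.l [(45, .ofNat 2)])) (.n (.l [(29, .ofNat 2), M 51, P 52]) .z)))) (.n (.n (.n (.n (.l [P 26])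
  (.l [M 53])) .z) (.n (.n (.l [(11, .ofNat 2), P 37]) .z) (.n (.l [P 50]) .z))) (.n (.n (.n (.l
  [(7, .ofNat 2), P 34]) (.l [M 54])) (.n .z (.l [(55, .ofNat 2)]))) (.n (.n .z (.l [(47, .ofNat
  2)])) .z))))⟩

def cA : Aff := ⟨(.ofNat 0),
.n (.n (.n (.n (.n (.n (.l [P 1]) (.l [M 23])) (.n (.l [M 11]) (.l [P 46]))) (.n (.n (.l [M 9])
  (.l [P 37])) (.n (.l [M 17]) .z))) (.n (.n (.n (.l [M 7]) (.l [M 33])) (.n (.l [P 21]) (.l [P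
  53]))) (.n (.n (.l [P 10]) (.l [P 39])) (.n (.l [P 27]) .z)))) (.n (.n (.n (.n (.l [P 3]) (.l [M
  35])) (.n (.l [P 15]) (.l [P 49]))) (.n (.n (.l [M 12]) (.l [P 41])) (.n (.l [M 29]) .z))) (.n
  (.n (.n (.l [M 5]) (.l [P 31])) (.n (.l [M 19]) (.l [P 55]))) (.n (.n (.l [M 13]) (.l [M 48]))
  (.n (.l [P 25]) .z))))) (.n (.n (.n (.n (.n (.l [M 0]) (.l [P 36])) (.n (.l [P 24]) (.l [M
  50]))) (.n (.n (.l [P 8]) (.l [M 42])) (.n (.l [M 30]) .z))) (.n (.n (.n (.l [P 6]) (.l [M 40]))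
  (.n (.l [M 20]) (.l [M 52]))) (.n (.n (.l [P 14]) (.l [P 43])) (.n (.l [P 26]) .z)))) (.n (.n
  (.n (.n (.l [M 2]) (.l [P 34])) (.n (.l [P 22]) (.l [M 47]))) (.n (.n (.l [P 16]) (.l [M 45]))
  (.n (.l [M 28]) .z))) (.n (.n (.n (.l [P 4]) (.l [M 44])) (.n (.l [P 32]) (.l [M 54]))) (.n (.n
  (.l [M 18]) (.l [P 51])) (.n (.l [M 38]) .z)))))⟩

def p1_0 : Step := ⟨.word [1, 22, 1], ⟨(.ofNat 1), .n (.n (.n (.n (.n .z (.n .z (.l [M 48, P 49]))) (.n (.n (.l [M 6,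
  M 8]) (.l [M 38, M 40])) .z)) (.n .z (.n (.n (.l [M 12, P 14]) (.l [M 44, P 45])) .z))) (.n (.n
  (.n (.n .z (.l [M 34, P 37])) (.n (.l [M 18, P 21]) .z)) (.n (.n (.l [M 10, P 11]) .z) .z)) (.n
  (.n (.n (.l [M 6, P 8]) (.l [M 38, P 40])) .z) (.n (.n (.l [M 12, M 14]) (.l [M 46, P 47]))
  .z)))) (.n (.n (.n (.n .z (.n (.l [M 15, M 17]) (.l [M 48, M 49]))) (.n (.n (.l [M 7, M 9]) (.l
  [M 41, P 43])) .z)) (.n (.n (.n .z (.l [M 34, M 37])) (.n (.l [M 18, M 21]) .z)) (.n (.n .z (.l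
  [M 44, M 45])) .z))) (.n (.n .z (.n (.n (.l [M 10, M 11]) (.l [M 41, M 43])) .z)) (.n (.n (.n
  (.l [M 7, P 9]) .z) .z) (.n (.n (.l [M 15, P 17]) (.l [M 46, M 47])) .z))))⟩⟩

def p1_1 : Step := ⟨.word [3, 24, 3], ⟨(.ofNat 1), .n (.n (.n (.n (.n (.n .z (.l [M 30, M 32])) (.n .z (.l [M 46, M
  48]))) (.n (.n (.l [M 8, P 9]) .z) .z)) (.n (.n (.n (.l [M 4, P 5]) (.l [M 33, M 36])) .z) (.n
  .z (.n (.l [M 26, M 28]) .z)))) (.n (.n (.n .z (.n .z (.l [M 50, P 51]))) (.n .z (.n (.l [M 26,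
  P 28]) .z))) (.n (.n (.n (.l [M 6, P 7]) .z) (.n (.l [M 19, M 22]) .z)) (.n (.n .z (.l [M 46, P
  48])) (.n (.l [M 30, P 32]) .z))))) (.n (.n (.n (.n (.n .z (.l [M 33, P 36])) (.n .z (.l [M 47,
  M 49]))) (.n (.n (.l [M 8, M 9]) .z) (.n (.l [M 23, M 25]) .z))) (.n (.n (.n (.l [M 4, M 5]) .z)
  .z) (.n .z (.n (.l [M 27, M 29]) .z)))) (.n (.n (.n .z (.n (.l [M 19, P 22]) (.l [M 50, M 51])))
  (.n .z (.n (.l [M 27, P 29]) .z))) (.n (.n (.n (.l [M 6, M 7]) .z) (.n (.l [M 23, P 25]) .z))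
  (.n (.n .z (.l [M 47, P 49])) .z))))⟩⟩

def p1_2 : Step := ⟨.word [5, 26, 5], ⟨(.ofNat 1), .n (.n (.n (.n (.n .z (.n (.l [M 14, M 16]) .z)) (.n .z (.n (.l [M
  21, M 24]) .z))) (.n (.n (.n (.l [M 4, P 6]) .z) (.n (.l [M 17, M 20]) .z)) (.n (.n .z (.l [M
  42, M 44])) .z))) (.n (.n (.n (.n .z (.l [M 31, M 34])) (.n .z (.l [M 47, M 50]))) (.n (.n .z
  (.l [M 42, P 44])) .z)) (.n (.n (.n (.l [M 4, M 6]) (.l [M 35, M 38])) .z) (.n (.n (.l [M 14, P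
  16]) .z) .z)))) (.n (.n (.n (.n .z (.n (.l [M 17, P 20]) (.l [M 49, P 51]))) (.n (.n .z (.l [M
  39, M 41])) .z)) (.n (.n (.n (.l [M 5, P 7]) .z) (.n (.l [M 21, P 24]) .z)) (.n (.n (.l [M 11, M
  13]) .z) .z))) (.n (.n (.n (.n .z (.l [M 35, P 38])) (.n .z (.l [M 49, M 51]))) (.n (.n (.l [M
  11, P 13]) .z) .z)) (.n (.n (.n (.l [M 5, M 7]) (.l [M 39, P 41])) .z) (.n (.n .z (.l [M 47, P
  50])) (.n (.l [M 31, P 34]) .z)))))⟩⟩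

def p1_3 : Step := ⟨.word [7, 28, 7], ⟨(.ofNat 1), .n (.n (.n (.n (.n (.n .z (.l [M 32, P 35])) (.n (.l [M 16, P 19])
  .z)) (.n .z (.n (.l [M 24, P 27]) .z))) (.n (.n (.n (.l [M 3, M 4]) (.l [M 36, P 39])) (.n (.l
  [M 20, P 23]) (.l [M 51, M 52]))) (.n (.n .z (.l [M 44, P 46])) (.n (.l [M 28, P 31]) .z)))) (.n
  (.n .z (.n (.n (.l [M 7, M 10]) .z) .z)) (.n .z (.n (.n .z (.l [M 44, M 46])) .z)))) (.n (.n (.n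
  .z (.n (.n (.l [M 9, P 11]) .z) .z)) (.n .z (.n (.n .z (.l [M 45, P 47])) .z))) (.n (.n (.n (.n
  (.l [M 3, P 4]) (.l [M 32, M 35])) (.n (.l [M 16, M 19]) (.l [M 51, P 52]))) (.n (.n (.l [M 9, M
  11]) .z) (.n (.l [M 24, M 27]) .z))) (.n (.n (.n (.l [M 7, P 10]) (.l [M 36, M 39])) (.n (.l [M
  20, M 23]) .z)) (.n (.n .z (.l [M 45, M 47])) (.n (.l [M 28, M 31]) .z)))))⟩⟩

def p1_4 : Step := ⟨.word [9, 30, 9], ⟨(.ofNat 1), .n (.n (.n (.n (.n (.n .z (.l [M 29, M 32])) (.n (.l [M 13, M 16])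
  .z)) .z) (.n (.n .z (.n .z (.l [M 52, P 53]))) (.n (.n (.l [M 10, M 12]) (.l [M 41, M 44])) (.n
  (.l [M 25, M 28]) .z)))) (.n (.n (.n (.n (.l [M 2, P 3]) .z) .z) (.n (.n (.l [M 10, P 12]) (.l
  [M 39, M 42])) (.n (.l [M 23, M 26]) .z))) (.n .z (.n (.n (.l [M 11, M 14]) .z) (.n (.l [M 27, M
  30]) .z))))) (.n (.n (.n .z (.n (.n .z (.l [M 41, P 44])) (.n (.l [M 25, P 28]) .z))) (.n (.n .z
  (.n .z (.l [M 52, M 53]))) (.n (.n (.l [M 13, P 16]) (.l [M 43, M 45])) (.n (.l [M 29, P 32])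
  .z)))) (.n (.n (.n (.n (.l [M 2, M 3]) .z) .z) (.n (.n (.l [M 11, P 14]) (.l [M 43, P 45])) (.n
  (.l [M 27, P 30]) .z))) (.n (.n (.n .z (.l [M 39, P 42])) (.n (.l [M 23, P 26]) .z)) .z)))⟩⟩

def p1_5 : Step := ⟨.word [11, 32, 11], ⟨(.ofNat 1), .n (.n (.n (.n (.n (.n .z (.l [M 32, P 36])) (.n (.l [M 16, P
  20]) .z)) (.n (.n .z (.l [M 40, P 43])) .z)) (.n (.n (.n .z (.l [M 32, M 36])) (.n (.l [M 16, M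
  20]) .z)) (.n (.n (.l [M 12, P 15]) .z) .z))) (.n (.n (.n (.n (.l [M 1, M 2]) .z) .z) .z) (.n
  (.n (.n .z (.l [M 38, P 41])) (.n (.l [M 22, P 25]) (.l [M 53, M 54]))) (.n (.n (.l [M 14, P
  17]) .z) (.n (.l [M 30, P 33]) .z))))) (.n (.n (.n (.n (.n (.l [M 1, P 2]) (.l [M 30, M 33]))
  (.n (.l [M 14, M 17]) .z)) (.n (.n .z (.l [M 38, M 41])) (.n (.l [M 22, M 25]) .z))) (.n (.n .z
  (.n .z (.l [M 53, P 54]))) .z)) (.n (.n (.n (.n .z (.l [M 35, P 39])) (.n (.l [M 19, P 23]) .z))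
  (.n (.n .z (.l [M 40, M 43])) .z)) (.n (.n (.n .z (.l [M 35, M 39])) (.n (.l [M 19, M 23]) .z))
  (.n (.n (.l [M 12, M 15]) .z) .z))))⟩⟩

def p1_6 : Step := ⟨.word [13, 34, 13], ⟨(.ofNat 1), .n (.n (.n (.n (.n (.n (.l [M 0, P 1]) (.l [M 28, M 32])) .z)
  (.n (.n .z (.l [M 37, M 40])) (.n (.l [M 20, M 24]) .z))) (.n (.n .z (.n (.l [M 20, P 24]) .z))
  (.n .z (.n (.l [M 28, P 32]) .z)))) (.n (.n (.n (.n .z (.l [M 34, P 38])) (.n (.l [M 15, M 18])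
  .z)) (.n .z (.n (.l [M 26, P 30]) .z))) (.n (.n (.n .z (.l [M 34, M 38])) (.n .z (.l [M 54, P
  55]))) (.n .z (.n (.l [M 26, M 30]) .z))))) (.n (.n (.n (.n (.n (.l [M 0, M 1]) .z) (.n (.l [M
  17, P 21]) .z)) (.n .z (.n (.l [M 25, P 29]) .z))) (.n (.n (.n .z (.l [M 37, P 40])) (.n (.l [M
  17, M 21]) .z)) (.n .z (.n (.l [M 25, M 29]) .z)))) (.n (.n (.n (.n .z (.l [M 31, M 35])) .z)
  (.n .z (.n (.l [M 23, M 27]) .z))) (.n (.n .z (.n (.l [M 23, P 27]) (.l [M 54, M 55]))) (.n (.n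
  (.l [M 15, P 18]) .z) (.n (.l [M 31, P 35]) .z)))))⟩⟩

def p1_7 : Step := ⟨.word [4, 4, 0, 0], ⟨(.negSucc 0), .n (.n (.n (.n (.n .z (.n .z (.l [(48, .ofNat 2)]))) (.n (.n
  (.l [(8, .ofNat 2)]) .z) (.n (.l [(24, .ofNat 2)]) .z))) (.n (.n (.n .z (.l [(36, .ofNat 2)]))
  (.n (.l [(20, .ofNat 2)]) (.l [(52, .ofNat 2)]))) (.n (.n (.l [(12, .ofNat 2)]) .z) .z))) (.n
  (.n (.n (.n (.l [(2, .ofNat 2)]) (.l [(34, .ofNat 2)])) .z) (.n (.n (.l [(10, .ofNat 2)]) .z)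
  .z)) (.n (.n (.n .z (.l [(38, .ofNat 2)])) (.n (.l [(22, .ofNat 2)]) .z)) (.n (.n .z (.l [(46,
  .ofNat 2)])) .z)))) (.n (.n (.n (.n (.n .z (.l [(33, .ofNat 2)])) (.n (.l [(17, .ofNat 2)]) .z))
  (.n (.n (.l [(9, .ofNat 2)]) .z) .z)) (.n (.n .z (.n (.l [(21, .ofNat 2)]) (.l [(53, .ofNat
  2)]))) (.n (.n .z (.l [(45, .ofNat 2)])) .z))) (.n (.n (.n (.n (.l [(3, .ofNat 2)]) (.l [(35,
  .ofNat 2)])) (.n (.l [(19, .ofNat 2)]) .z)) (.n (.n .z (.l [(43, .ofNat 2)])) .z)) (.n .z (.n .z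
  (.n (.l [(31, .ofNat 2)]) .z)))))⟩⟩

def p1_8 : Step := ⟨.word [7, 4, 2, 0], ⟨(.ofNat 0), .n (.n (.n (.n (.n (.n (.l [M 0]) (.l [M 39])) (.n (.l [M 23])
  (.l [M 49]))) (.n (.n (.l [P 6]) (.l [P 41])) (.n (.l [M 27]) .z))) (.n (.n (.n (.l [M 3]) (.l
  [M 35])) (.n (.l [M 19]) (.l [P 51]))) (.n (.n (.l [P 17]) (.l [M 47])) (.n (.l [P 31]) .z))))
  (.n (.n (.n (.n (.l [P 1]) (.l [M 37])) (.n (.l [P 21]) (.l [M 50]))) (.n (.n (.l [M 9]) (.l [M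
  42])) (.n (.l [M 26]) .z))) (.n (.n (.n (.l [P 8]) (.l [P 43])) (.n (.l [M 25]) (.l [M 53])))
  (.n (.n (.l [P 15]) (.l [M 45])) (.n (.l [P 33]) .z))))) (.n (.n (.n (.n (.n (.l [P 2]) (.l [P
  30])) (.n (.l [P 12]) (.l [M 48]))) (.n (.n (.l [M 10]) (.l [P 40])) (.n (.l [M 22]) .z))) (.n
  (.n (.n (.l [M 5]) (.l [M 34])) (.n (.l [P 18]) (.l [M 54]))) (.n (.n (.l [M 13]) (.l [M 46]))
  (.n (.l [M 29]) .z)))) (.n (.n (.n (.n (.l [M 4]) (.l [M 36])) (.n (.l [M 20]) (.l [P 52]))) (.n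
  (.n (.l [M 7]) (.l [P 38])) (.n (.l [M 24]) .z))) (.n (.n (.n (.l [M 11]) (.l [M 32])) (.n (.l
  [M 16]) (.l [M 55]))) (.n (.n (.l [P 14]) (.l [M 44])) (.n (.l [P 28]) .z)))))⟩⟩

def p1_9 : Step := ⟨.word [8, 8], ⟨(.ofNat 1), .n (.n (.n (.n (.n .z (.n .z (.l [(48, .negSucc 1)]))) (.n (.n (.l
  [(8, .negSucc 1)]) (.l [(40, .negSucc 1)])) .z)) (.n .z (.n (.n (.l [(12, .negSucc 1)]) (.l
  [(44, .negSucc 1)])) .z))) (.n (.n (.n (.n .z (.l [(34, .negSucc 1)])) (.n (.l [(18, .negSucc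
  1)]) .z)) (.n (.n (.l [(10, .negSucc 1)]) .z) .z)) (.n (.n (.n (.l [(6, .negSucc 1)]) (.l [(38,
  .negSucc 1)])) .z) (.n (.n (.l [(14, .negSucc 1)]) (.l [(46, .negSucc 1)])) .z)))) (.n (.n (.n
  (.n .z (.n (.l [(17, .negSucc 1)]) (.l [(49, .negSucc 1)]))) (.n (.n (.l [(9, .negSucc 1)]) (.l
  [(41, .negSucc 1)])) .z)) (.n (.n (.n .z (.l [(37, .negSucc 1)])) (.n (.l [(21, .negSucc 1)])
  .z)) (.n (.n .z (.l [(45, .negSucc 1)])) .z))) (.n (.n .z (.n (.n (.l [(11, .negSucc 1)]) (.l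
  [(43, .negSucc 1)])) .z)) (.n (.n (.n (.l [(7, .negSucc 1)]) .z) .z) (.n (.n (.l [(15, .negSucc
  1)]) (.l [(47, .negSucc 1)])) .z))))⟩⟩

def p1_10 : Step := ⟨.word [8, 7, 5, 3, 0], ⟨(.ofNat 0), .n (.n (.n (.n (.n (.n (.l [P 1]) (.l [M 23])) (.n (.l [M
  11]) (.l [P 46]))) (.n (.n (.l [M 9]) (.l [P 37])) (.n (.l [M 17]) .z))) (.n (.n (.n (.l [M 7])
  (.l [M 33])) (.n (.l [P 21]) (.l [P 53]))) (.n (.n (.l [P 10]) (.l [P 39])) (.n (.l [P 27])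
  .z)))) (.n (.n (.n (.n (.l [P 3]) (.l [M 35])) (.n (.l [P 15]) (.l [P 49]))) (.n (.n (.l [M 12])
  (.l [P 41])) (.n (.l [M 29]) .z))) (.n (.n (.n (.l [M 5]) (.l [P 31])) (.n (.l [M 19]) (.l [P
  55]))) (.n (.n (.l [M 13]) (.l [M 48])) (.n (.l [P 25]) .z))))) (.n (.n (.n (.n (.n (.l [M 0])
  (.l [P 36])) (.n (.l [P 24]) (.l [M 50]))) (.n (.n (.l [P 8]) (.l [M 42])) (.n (.l [M 30]) .z)))
  (.n (.n (.n (.l [P 6]) (.l [M 40])) (.n (.l [M 20]) (.l [M 52]))) (.n (.n (.l [P 14]) (.l [P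
  43])) (.n (.l [P 26]) .z)))) (.n (.n (.n (.n (.l [M 2]) (.l [P 34])) (.n (.l [P 22]) (.l [M
  47]))) (.n (.n (.l [P 16]) (.l [M 45])) (.n (.l [M 28]) .z))) (.n (.n (.n (.l [P 4]) (.l [M
  44])) (.n (.l [P 32]) (.l [M 54]))) (.n (.n (.l [M 18]) (.l [P 51])) (.n (.l [M 38]) .z)))))⟩⟩

def p1_11 : Step := ⟨.word [10, 10, 7, 7], ⟨(.negSucc 0), .n (.n (.n (.n (.n (.n (.l [(0, .ofNat 2)]) .z) .z) .z) (.n
  .z (.n (.n .z (.l [(44, .ofNat 2)])) .z))) (.n (.n (.n (.n (.l [(2, .ofNat 2)]) .z) (.n .z (.l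
  [(50, .ofNat 2)]))) (.n (.n (.l [(10, .ofNat 2)]) (.l [(42, .ofNat 2)])) (.n (.l [(26, .ofNat
  2)]) .z))) (.n (.n .z (.n (.l [(22, .ofNat 2)]) (.l [(54, .ofNat 2)]))) (.n (.n .z (.l [(46,
  .ofNat 2)])) (.n (.l [(30, .ofNat 2)]) .z))))) (.n (.n (.n (.n (.n (.l [(1, .ofNat 2)]) (.l
  [(33, .ofNat 2)])) .z) (.n (.n (.l [(9, .ofNat 2)]) .z) (.n (.l [(25, .ofNat 2)]) .z))) (.n (.n
  (.n (.l [(5, .ofNat 2)]) .z) (.n .z (.l [(53, .ofNat 2)]))) (.n (.n (.l [(13, .ofNat 2)]) (.l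
  [(45, .ofNat 2)])) (.n (.l [(29, .ofNat 2)]) .z)))) (.n (.n .z (.n (.n (.l [(11, .ofNat 2)]) .z)
  .z)) (.n (.n (.n (.l [(7, .ofNat 2)]) .z) (.n .z (.l [(55, .ofNat 2)]))) (.n (.n .z (.l [(47,
  .ofNat 2)])) .z))))⟩⟩

def p1_12 : Step := ⟨.conj 1 16, ⟨(.ofNat 1), .n (.n (.n (.n .z (.n (.n (.l [P 16]) .z) .z)) (.n (.n (.n (.l [M 12])
  .z) .z) .z)) (.n (.n (.n (.n (.l [P 7]) .z) .z) .z) .z)) (.n (.n (.n (.n (.n .z (.l [P 44])) (.n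
  (.l [P 28]) .z)) .z) (.n (.n .z (.n (.l [P 32]) .z)) .z)) (.n (.n .z (.n (.n (.l [M 22]) (.l [P
  51])) (.n (.l [M 38]) .z))) (.n (.n (.n .z (.l [M 48])) (.n (.l [M 34]) .z)) (.n (.n .z (.l [M
  53])) .z))))⟩⟩

def p1_13 : Step := ⟨.conj 4 0, ⟨(.ofNat 1), .n (.n (.n (.n (.n (.n .z (.l [M 49])) (.n (.l [M 37]) .z)) (.n .z (.n
  (.l [P 43]) .z))) (.n .z (.n (.n (.l [P 31]) (.l [M 54])) .z))) (.n (.n (.n .z (.n (.l [M 39])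
  .z)) .z) (.n (.n (.n (.l [M 23]) (.l [P 52])) .z) (.n .z (.n (.l [M 47]) .z))))) (.n (.n (.n (.n
  (.n (.l [M 11]) .z) .z) .z) .z) (.n (.n (.n (.n (.l [P 17]) .z) .z) .z) (.n (.n (.n (.l [M 25])
  .z) .z) .z)))⟩⟩

def p1_14 : Step := ⟨.conj 11 0, ⟨(.ofNat 1), .n (.n (.n (.n (.n (.n .z (.l [P 51])) .z) .z) (.n (.n (.n (.l [M 23])
  .z) .z) (.n (.n (.l [M 34]) .z) .z))) (.n (.n (.n .z (.n (.l [P 41]) .z)) (.n (.n .z (.l [M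
  54])) .z)) (.n .z (.n (.n (.l [M 37]) .z) (.n (.l [P 50]) .z))))) (.n (.n (.n (.n (.n (.l [P
  13]) .z) .z) .z) (.n (.n (.n (.l [M 25]) .z) (.n (.l [P 43]) .z)) .z)) (.n (.n (.n (.n (.l [M
  20]) (.l [P 52])) .z) .z) .z))⟩⟩

def p1_15 : Step := ⟨.conj 10 0, ⟨(.ofNat 1), .n (.n (.n .z (.n (.n (.n (.l [P 26]) .z) .z) .z)) (.n (.n (.n (.n (.l
  [M 20]) .z) (.n (.l [M 44]) .z)) (.n (.n (.l [M 34]) .z) .z)) .z)) (.n (.n (.n (.n (.n (.l [M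
  16]) .z) .z) .z) (.n (.n (.n (.l [P 28]) .z) (.n (.l [M 45]) .z)) (.n .z (.n (.l [P 51]) .z))))
  (.n (.n (.n (.n .z (.l [M 53])) .z) (.n (.n (.l [M 37]) .z) (.n (.l [P 50]) .z))) (.n (.n (.n .z
  (.l [M 54])) .z) .z)))⟩⟩

def p1_16 : Step := ⟨.conj 12 0, ⟨(.ofNat 1), .n (.n (.n (.n (.n (.n .z (.l [M 53])) .z) (.n .z (.n (.l [P 50]) .z)))
  (.n (.n (.n .z (.l [M 54])) .z) .z)) (.n (.n (.n (.n (.l [P 23]) .z) (.n (.l [P 46]) .z)) .z)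
  .z)) (.n (.n (.n (.n (.n (.l [P 19]) .z) .z) (.n (.n (.l [M 37]) .z) .z)) (.n (.n (.n (.l [M
  31]) .z) (.n (.l [P 47]) .z)) (.n .z (.n (.l [M 52]) .z)))) (.n (.n (.n (.n (.l [P 26]) .z) .z)
  .z) (.n (.n (.n (.l [M 34]) .z) .z) .z)))⟩⟩

def p1_17 : Step := ⟨.word [0, 1, 5], ⟨(.negSucc 0), .n (.n (.n (.n (.n (.n (.l [(0, .ofNat 2)]) (.l [M 53])) .z) (.n
  .z (.n (.l [P 50]) .z))) (.n (.n (.n (.l [P 26]) (.l [M 54])) .z) (.n (.n .z (.l [(44, .ofNat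
  2)])) .z))) (.n (.n (.n (.n (.l [(2, .ofNat 2), P 20, M 23]) .z) (.n (.l [M 44, P 46]) (.l [(50,
  .ofNat 2)]))) (.n (.n (.l [(10, .ofNat 2), P 34]) (.l [(42, .ofNat 2)])) (.n (.l [(26, .ofNat
  2)]) .z))) (.n (.n .z (.n (.l [(22, .ofNat 2)]) (.l [(54, .ofNat 2)]))) (.n (.n .z (.l [(46,
  .ofNat 2)])) (.n (.l [(30, .ofNat 2)]) .z))))) (.n (.n (.n (.n (.n (.l [(1, .ofNat 2), P 16, M
  19]) (.l [(33, .ofNat 2)])) .z) (.n (.n (.l [(9, .ofNat 2), P 37]) .z) (.n (.l [(25, .ofNat 2)])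
  .z))) (.n (.n (.n (.l [(5, .ofNat 2), M 28, P 31]) .z) (.n (.l [M 45, P 47]) (.l [(53, .ofNat
  2)]))) (.n (.n (.l [(13, .ofNat 2)]) (.l [(45, .ofNat 2)])) (.n (.l [(29, .ofNat 2), M 51, P
  52]) .z)))) (.n (.n (.n (.n (.l [P 26]) (.l [M 53])) .z) (.n (.n (.l [(11, .ofNat 2), P 37]) .z)
  (.n (.l [P 50]) .z))) (.n (.n (.n (.l [(7, .ofNat 2), P 34]) (.l [M 54])) (.n .z (.l [(55,
  .ofNat 2)]))) (.n (.n .z (.l [(47, .ofNat 2)])) .z))))⟩⟩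

def p1 : List Step := [p1_0, p1_1, p1_2, p1_3, p1_4, p1_5, p1_6, p1_7, p1_8, p1_9, p1_10, p1_11, p1_12, p1_13, p1_14,
  p1_15, p1_16, p1_17]

def p2_0 : Step := ⟨.conj 3 2, ⟨(.negSucc 0), .n (.n (.n (.n (.n (.n (.l [(0, .ofNat 2), P 11, P 22]) .z) (.n (.l
  [(16, .ofNat 2), M 40]) (.l [(48, .ofNat 2)]))) (.n (.n (.l [(8, .ofNat 2), M 40]) .z) .z)) (.n
  (.n (.n (.l [(4, .ofNat 2), M 35]) (.l [(36, .ofNat 2)])) (.n (.l [P 43, M 51]) (.l [(52, .ofNat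
  2)]))) (.n (.n (.l [(12, .ofNat 2), P 35]) (.l [P 55])) (.n (.l [M 49]) .z)))) (.n (.n (.n (.n
  (.l [P 29]) (.l [P 52])) .z) (.n .z (.n (.l [(26, .ofNat 2), P 47, P 53]) .z))) (.n (.n (.n (.l
  [(6, .ofNat 2), M 27, M 38]) .z) (.n .z (.l [(54, .ofNat 2)]))) (.n (.n (.l [(14, .ofNat 2)])
  .z) (.n (.l [(30, .ofNat 2)]) .z))))) (.n (.n (.n (.n (.n (.l [(1, .ofNat 2)]) (.l [P 55])) (.n
  (.l [M 49]) (.l [(49, .ofNat 2)]))) (.n (.n .z (.l [(41, .ofNat 2)])) (.n (.l [(25, .ofNat 2)])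
  .z))) (.n .z (.n .z (.n (.l [(29, .ofNat 2)]) .z)))) (.n (.n (.n (.n (.l [(3, .ofNat 2), P 21, M
  32]) .z) (.n (.l [(19, .ofNat 2)]) (.l [(51, .ofNat 2)]))) (.n (.n .z (.l [(43, .ofNat 2)]))
  .z)) (.n (.n (.n (.l [P 29]) (.l [(39, .ofNat 2)])) (.n (.l [M 52]) (.l [(55, .ofNat 2)]))) (.n
  (.n (.l [M 39, M 48]) .z) .z))))⟩⟩

def p2_1 : Step := ⟨.word [3, 0], ⟨(.negSucc 0), .n (.n (.n (.n (.n (.n (.l [(0, .ofNat 2), P 11, P 22]) (.l [(32,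
  .ofNat 2), P 53])) (.n (.l [P 40]) .z)) (.n (.n (.l [P 40]) (.l [(40, .ofNat 2)])) (.n (.l [(24,
  .ofNat 2), M 50]) .z))) (.n (.n (.n (.l [P 26, P 35, P 47, P 53]) (.l [M 54])) (.n (.l [(20,
  .ofNat 2), M 43, P 51]) .z)) (.n (.n (.l [M 35]) (.l [P 55])) (.n (.l [(28, .ofNat 2), P 49])
  .z)))) (.n (.n (.n (.n (.l [M 20, P 23, P 29, P 43, M 51, P 52]) (.l [(34, .ofNat 2), M 52]))
  (.n (.l [(18, .ofNat 2), P 44, M 46, M 55]) .z)) (.n (.n (.l [M 34, P 52]) .z) (.n (.l [(26,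
  .ofNat 2), P 47, P 53]) .z))) (.n (.n (.n (.l [P 27, P 38]) (.l [(38, .ofNat 2)])) (.n .z (.l
  [(54, .ofNat 2)]))) (.n .z (.n (.l [(30, .ofNat 2)]) .z))))) (.n (.n (.n (.n (.n (.l [(1, .ofNat
  2), P 16, M 19, M 40]) (.l [P 55])) (.n (.l [(17, .ofNat 2), P 49]) .z)) (.n (.n (.l [M 37]) .z)
  (.n (.l [(25, .ofNat 2)]) .z))) (.n (.n (.n (.l [P 28, M 31, P 49]) (.l [(37, .ofNat 2)])) (.n
  (.l [(21, .ofNat 2), P 45, M 47]) .z)) (.n .z (.n (.l [(29, .ofNat 2), M 51, P 52]) .z)))) (.n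
  (.n (.n (.n (.l [M 21, P 26, P 32, P 47, P 53]) (.l [(35, .ofNat 2), P 53])) .z) (.n (.n (.l [M
  37]) .z) (.n (.l [(27, .ofNat 2), M 50]) .z))) (.n (.n (.n (.l [P 29, M 34, P 52]) (.l [M 54]))
  (.n (.l [(23, .ofNat 2), P 52]) (.l [(55, .ofNat 2)]))) (.n (.n (.l [(15, .ofNat 2), P 39, P
  48]) .z) (.n (.l [(31, .ofNat 2)]) .z)))))⟩⟩

def p2_2 : Step := ⟨.word [0, 0], ⟨(.ofNat 1), .n (.n (.n (.n (.n (.n (.l [M 37]) .z) .z) .z) (.n (.n (.n (.l [M 47])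
  .z) .z) (.n (.n (.l [M 53]) .z) .z))) (.n (.n (.n (.n (.l [M 43]) .z) (.n (.l [M 55]) .z)) (.n
  (.n (.l [M 52]) .z) .z)) (.n (.n (.n (.l [M 50]) .z) .z) .z))) (.n (.n (.n (.n (.n (.l [M 40])
  .z) .z) .z) (.n (.n (.n (.l [M 49]) .z) .z) .z)) (.n (.n (.n (.n (.l [M 45]) .z) .z) .z) (.n (.n
  (.n (.l [M 51]) .z) .z) (.n (.n (.l [M 54]) .z) .z))))⟩⟩

def p2_3 : Step := ⟨.conj 4 0, ⟨(.ofNat 1), .n (.n (.n (.n (.n (.n (.l [M 34]) .z) .z) (.n (.n (.l [P 50]) .z) .z))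
  (.n (.n (.n (.l [M 46]) .z) .z) .z)) (.n (.n (.n (.n (.l [M 41]) .z) .z) .z) (.n .z (.n (.n (.l
  [P 53]) .z) .z)))) (.n (.n (.n (.n (.n (.l [M 38]) .z) (.n (.l [P 54]) .z)) (.n (.n (.l [P 51])
  .z) .z)) (.n (.n (.n (.l [M 48]) .z) (.n (.l [P 55]) .z)) .z)) (.n (.n (.n (.n (.l [M 44]) .z)
  .z) (.n (.n (.l [P 52]) .z) .z)) .z))⟩⟩

def p2_4 : Step := ⟨.conj 7 0, ⟨(.ofNat 1), .n (.n (.n (.n (.n (.n (.l [P 31]) .z) (.n (.l [P 53]) .z)) (.n (.n (.l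
  [M 47]) .z) (.n (.l [P 55]) .z))) (.n (.n .z (.n (.l [P 54]) .z)) .z)) (.n (.n (.n (.n (.l [P
  39]) .z) .z) .z) (.n (.n (.n (.l [M 46]) .z) .z) .z))) (.n (.n (.n (.n (.n (.l [P 35]) .z) .z)
  (.n (.n (.l [M 49]) .z) .z)) (.n .z (.n (.n (.l [P 52]) .z) .z))) (.n (.n (.n (.n (.l [P 42])
  .z) .z) .z) (.n (.n (.n (.l [M 48]) .z) .z) .z)))⟩⟩

def p2_5 : Step := ⟨.conj 6 0, ⟨(.ofNat 1), .n (.n (.n (.n (.n (.n (.l [M 28]) .z) .z) (.n (.n (.l [P 45]) .z) .z))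
  (.n (.n (.n (.l [P 42]) .z) .z) .z)) (.n (.n (.n (.n (.l [M 36]) .z) .z) (.n (.n (.l [M 48]) .z)
  .z)) (.n (.n (.n (.l [P 44]) .z) .z) .z))) (.n (.n (.n (.n (.n (.l [M 32]) .z) .z) .z) (.n .z
  (.n (.n (.l [M 51]) .z) .z))) (.n (.n (.n .z (.n (.l [P 53]) .z)) (.n (.n (.l [M 49]) .z) (.n
  (.l [P 55]) .z))) (.n (.n .z (.n (.l [P 54]) .z)) .z)))⟩⟩

def p2_6 : Step := ⟨.conj 9 0, ⟨(.ofNat 1), .n (.n (.n (.n (.n (.n (.l [M 23]) (.l [P 55])) (.n (.l [P 50]) .z)) .z)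
  (.n .z (.n (.n (.l [P 46]) .z) (.n (.l [P 54]) .z)))) (.n .z (.n (.n .z (.n (.l [M 52]) .z)) (.n
  (.n (.l [P 47]) .z) .z)))) (.n (.n (.n (.n (.n (.l [M 27]) .z) .z) (.n (.n (.l [M 43]) .z) .z))
  (.n (.n (.n (.l [M 39]) .z) .z) .z)) (.n (.n (.n (.n (.l [P 33]) .z) .z) .z) (.n (.n (.n (.l [M
  41]) .z) .z) .z)))⟩⟩

def p2_7 : Step := ⟨.conj 8 0, ⟨(.ofNat 1), .n (.n (.n (.n (.n (.n (.l [M 16]) .z) .z) .z) (.n (.n (.n (.l [M 30])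
  .z) .z) .z)) (.n (.n (.n (.n (.l [P 24]) .z) .z) (.n (.n (.l [P 38]) .z) .z)) .z)) (.n (.n (.n
  (.n .z (.n (.l [M 45]) .z)) (.n .z (.n (.l [P 51]) .z))) (.n (.n (.n (.l [M 32]) .z) .z) .z))
  (.n (.n .z (.n (.n (.l [P 40]) .z) .z)) (.n (.n (.n .z (.l [P 55])) (.n (.l [P 50]) .z)) (.n (.n
  (.l [M 44]) .z) (.n (.l [M 53]) .z)))))⟩⟩

def p2_8 : Step := ⟨.conj 11 0, ⟨(.ofNat 1), .n (.n (.n (.n (.n (.n .z (.l [P 49])) (.n (.l [P 37]) .z)) (.n .z (.n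
  (.l [M 43]) .z))) (.n .z (.n (.n (.l [M 31]) (.l [P 54])) .z))) (.n (.n (.n .z (.n (.l [P 39])
  .z)) .z) (.n (.n (.n (.l [P 23]) (.l [M 52])) .z) (.n .z (.n (.l [P 47]) .z))))) (.n (.n (.n (.n
  (.n (.l [P 11]) .z) .z) .z) .z) (.n (.n (.n (.n (.l [M 17]) .z) .z) .z) (.n (.n (.n (.l [P 25])
  .z) .z) .z)))⟩⟩

def p2_9 : Step := ⟨.conj 10 0, ⟨(.ofNat 1), .n (.n (.n (.n .z (.n (.n (.l [M 16]) .z) .z)) (.n (.n (.n (.l [P 12])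
  .z) .z) .z)) (.n (.n (.n (.n (.l [M 7]) .z) .z) .z) .z)) (.n (.n (.n (.n (.n .z (.l [M 44])) (.n
  (.l [M 28]) .z)) .z) (.n (.n .z (.n (.l [M 32]) .z)) .z)) (.n (.n .z (.n (.n (.l [P 22]) (.l [M
  51])) (.n (.l [P 38]) .z))) (.n (.n (.n .z (.l [P 48])) (.n (.l [P 34]) .z)) (.n (.n .z (.l [P
  53])) .z))))⟩⟩

def p2_10 : Step := ⟨.conj 13 0, ⟨(.ofNat 1), .n (.n (.n (.n (.n (.n .z (.l [M 35])) (.n (.l [M 19]) .z)) (.n .z (.n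
  (.l [M 27]) .z))) (.n (.n (.n .z (.l [M 39])) (.n (.l [M 23]) .z)) (.n (.n .z (.l [M 46])) (.n
  (.l [M 31]) .z)))) .z) (.n (.n (.n .z (.n (.n (.l [M 11]) .z) .z)) (.n .z (.n (.n .z (.l [M
  47])) .z))) (.n (.n (.n (.n (.l [M 4]) .z) (.n .z (.l [M 52]))) .z) (.n (.n (.n (.l [M 10]) .z)
  .z) .z)))⟩⟩

def p2_11 : Step := ⟨.comm 0 1, ⟨(.ofNat 1), .n (.n (.n (.n .z (.n (.n (.l [M 19]) .z) (.n (.l [M 38]) .z))) (.n (.n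
  (.n .z (.l [M 48])) (.n (.l [M 34]) .z)) .z)) (.n (.n (.n (.n (.l [M 10]) .z) .z) .z) .z)) (.n
  (.n (.n (.n (.n .z (.l [M 46])) (.n (.l [M 31]) .z)) (.n (.n (.l [M 22]) .z) .z)) (.n (.n .z (.n
  (.l [M 35]) .z)) (.n (.n .z (.l [M 53])) .z))) (.n (.n (.n (.n (.l [M 12]) .z) .z) (.n (.n .z
  (.l [M 52])) .z)) .z))⟩⟩

def p2_12 : Step := ⟨.conj 13 0, ⟨(.ofNat 1), .n (.n (.n .z (.n (.n (.n (.l [P 17]) .z) .z) (.n (.n (.l [M 28]) .z)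
  .z))) (.n (.n (.n .z (.n (.l [P 36]) .z)) (.n (.n (.l [M 25]) .z) .z)) (.n (.n (.n (.l [P 20])
  (.l [M 51])) .z) (.n (.n .z (.l [M 54])) (.n (.l [P 45]) .z))))) (.n (.n (.n (.n (.n (.l [P 9])
  .z) .z) .z) .z) (.n (.n (.n (.n .z (.l [M 49])) (.n (.l [M 37]) .z)) (.n .z (.n (.l [P 43])
  .z))) .z))⟩⟩

def p2_13 : Step := ⟨.conj 16 0, ⟨(.ofNat 1), .n (.n (.n (.n (.n (.n (.l [M 8]) .z) (.n .z (.l [P 55]))) .z) (.n .z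
  (.n (.n (.l [M 30]) .z) (.n (.l [P 45]) .z)))) (.n (.n (.n (.n .z (.l [P 50])) .z) (.n (.n (.l
  [M 27]) .z) .z)) (.n (.n .z (.n (.l [P 40]) .z)) .z))) (.n (.n (.n .z (.n .z (.n (.l [P 43])
  .z))) (.n (.n (.n (.l [M 21]) .z) .z) .z)) (.n .z (.n (.n (.n (.l [M 24]) .z) .z) (.n (.n (.l [M
  33]) .z) (.n (.l [P 47]) .z)))))⟩⟩

def p2_14 : Step := ⟨.conj 15 0, ⟨(.ofNat 1), .n (.n (.n (.n (.n (.n (.l [P 6]) .z) .z) .z) (.n .z (.n .z (.n (.l [M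
  44]) .z)))) (.n .z (.n (.n .z (.n (.l [M 38]) .z)) (.n (.n (.l [M 30]) .z) .z)))) (.n (.n (.n
  (.n .z (.n (.l [M 33]) (.l [P 55]))) (.n (.n (.l [M 24]) .z) (.n (.l [M 41]) .z))) (.n (.n (.n
  (.l [P 18]) (.l [P 50])) .z) .z)) (.n (.n .z (.n (.n (.l [M 27]) .z) .z)) (.n .z (.n .z (.n (.l
  [M 46]) .z)))))⟩⟩

def p2_15 : Step := ⟨.conj 18 0, ⟨(.ofNat 1), .n (.n (.n (.n (.n .z (.n (.l [P 28]) .z)) (.n (.n (.l [P 17]) (.l [M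
  49])) (.n (.l [M 36]) .z))) .z) (.n (.n (.n .z (.n .z (.l [P 54]))) .z) (.n (.n (.n (.l [P 15])
  (.l [M 48])) .z) (.n .z (.n (.l [M 42]) .z))))) (.n (.n (.n (.n (.n (.l [M 5]) .z) .z) .z) (.n
  .z (.n (.n (.l [P 25]) .z) .z))) (.n (.n (.n .z (.n (.l [P 31]) .z)) (.n .z (.n (.l [M 39])
  .z))) .z))⟩⟩

def p2_16 : Step := ⟨.conj 17 0, ⟨(.ofNat 1), .n (.n (.n (.n .z (.n (.n (.l [P 14]) .z) (.n (.l [M 32]) .z))) (.n (.n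
  .z (.n (.l [M 28]) .z)) .z)) (.n (.n (.n (.n (.l [P 5]) .z) (.n .z (.l [P 53]))) .z) (.n (.n (.n
  (.l [P 12]) .z) .z) .z))) (.n (.n (.n (.n (.n .z (.l [P 42])) .z) (.n (.n .z (.l [P 48])) .z))
  (.n .z (.n (.n (.l [P 22]) .z) .z))) (.n (.n .z (.n (.n .z (.l [P 49])) (.n (.l [M 35]) .z)))
  (.n (.n .z (.n (.l [M 31]) .z)) .z)))⟩⟩

def p2_17 : Step := ⟨.conj 20 0, ⟨(.ofNat 1), .n (.n (.n (.n (.n (.n .z (.l [P 38])) .z) .z) (.n (.n (.n .z (.l [P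
  41])) .z) (.n .z (.n (.l [P 34]) .z)))) (.n (.n .z (.n (.n .z (.l [M 46])) .z)) (.n .z (.n (.n
  (.l [M 19]) .z) .z)))) (.n (.n (.n (.n .z (.n (.l [M 23]) (.l [M 52]))) (.n (.n (.l [P 13]) .z)
  .z)) (.n (.n (.n (.l [M 10]) .z) (.n (.l [M 27]) .z)) (.n (.n .z (.l [P 50])) .z))) (.n (.n (.n
  (.n (.l [P 6]) .z) .z) .z) .z))⟩⟩

def p2_18 : Step := ⟨.conj 19 0, ⟨(.ofNat 1), .n (.n (.n (.n (.n .z (.n .z (.l [P 51]))) .z) (.n (.n (.n (.l [M 8])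
  .z) .z) (.n (.n (.l [P 16]) .z) .z))) (.n (.n (.n .z (.n (.l [P 24]) .z)) (.n (.n (.l [P 13])
  (.l [M 45])) .z)) (.n .z (.n (.n .z (.l [P 50])) .z)))) (.n (.n .z (.n (.n (.n (.l [M 9]) .z)
  .z) .z)) (.n (.n (.n (.n .z (.l [M 40])) .z) .z) (.n (.n (.n .z (.l [M 43])) .z) (.n (.n (.l [P
  20]) .z) (.n (.l [M 37]) .z)))))⟩⟩

def p2_19 : Step := ⟨.conj 22 0, ⟨(.ofNat 1), .n (.n (.n (.n (.n .z (.n .z (.l [M 49]))) .z) (.n .z (.n (.n (.l [M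
  14]) (.l [M 45])) .z))) (.n (.n (.n (.n .z (.l [M 37])) (.n (.l [M 21]) .z)) (.n (.n (.l [M 11])
  .z) .z)) (.n (.n (.n (.l [M 8]) (.l [M 40])) .z) (.n (.n .z (.l [M 47])) .z)))) (.n (.n (.n .z
  (.n (.n .z (.l [M 43])) .z)) .z) (.n .z (.n (.n (.n (.l [M 9]) .z) .z) (.n (.n (.l [M 17]) .z)
  .z))))⟩⟩

def p2_20 : Step := ⟨.quot 0 10000, ⟨(.ofNat 1), .n (.n (.n (.n (.n .z (.n .z (.l [P 49]))) .z) (.n .z (.n (.n (.l [P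
  14]) (.l [P 45])) .z))) (.n (.n (.n (.n .z (.l [P 37])) (.n (.l [P 21]) .z)) (.n (.n (.l [P 11])
  .z) .z)) (.n (.n (.n (.l [P 8]) (.l [P 40])) .z) (.n (.n .z (.l [P 47])) .z)))) (.n (.n (.n .z
  (.n (.n .z (.l [P 43])) .z)) .z) (.n .z (.n (.n (.n (.l [P 9]) .z) .z) (.n (.n (.l [P 17]) .z)
  .z))))⟩⟩

def p2_21 : Step := ⟨.conj 23 10, ⟨(.ofNat 1), .n (.n (.n (.n (.n (.n .z (.l [M 35, M 53])) (.n (.l [M 19]) .z)) (.n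
  .z (.n (.l [M 27, P 50]) .z))) (.n (.n (.n .z (.l [M 39, M 54])) (.n (.l [M 23]) .z)) (.n (.n .z
  (.l [M 46])) (.n (.l [M 31]) .z)))) (.n (.n (.n (.n (.l [P 23]) .z) (.n (.l [P 46]) .z)) .z)
  .z)) (.n (.n (.n (.n (.n (.l [P 19]) .z) .z) (.n (.n (.l [M 11, M 37]) .z) .z)) (.n (.n (.n (.l
  [M 31]) .z) (.n (.l [P 47]) .z)) (.n (.n .z (.l [M 47])) (.n (.l [M 52]) .z)))) (.n (.n (.n (.n
  (.l [M 4, P 26]) .z) (.n .z (.l [M 52]))) .z) (.n (.n (.n (.l [M 10, M 34]) .z) .z) .z)))⟩⟩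

def p2_22 : Step := ⟨.quot 11 0, ⟨(.ofNat 1), .n (.n (.n (.n (.n (.n .z (.l [M 53])) .z) (.n .z (.n (.l [P 50]) .z)))
  (.n (.n (.n .z (.l [M 54])) .z) .z)) (.n (.n (.n (.n (.l [P 23]) .z) (.n (.l [P 46]) .z)) .z)
  .z)) (.n (.n (.n (.n (.n (.l [P 19]) .z) .z) (.n (.n (.l [M 37]) .z) .z)) (.n (.n (.n (.l [M
  31]) .z) (.n (.l [P 47]) .z)) (.n .z (.n (.l [M 52]) .z)))) (.n (.n (.n (.n (.l [P 26]) .z) .z)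
  .z) (.n (.n (.n (.l [M 34]) .z) .z) .z)))⟩⟩

def p2_23 : Step := ⟨.conj 24 12, ⟨(.ofNat 1), .n (.n (.n .z (.n (.n (.n (.l [M 3]) .z) (.n .z (.l [M 51]))) .z)) (.n
  (.n .z (.n (.n (.l [M 7]) .z) .z)) (.n .z (.n (.n .z (.l [M 44])) .z)))) (.n .z (.n (.n (.n (.n
  .z (.l [M 32])) (.n (.l [M 16]) .z)) (.n (.n (.l [M 9]) .z) (.n (.l [M 24]) .z))) (.n (.n (.n .z
  (.l [M 36])) (.n (.l [M 20]) .z)) (.n (.n .z (.l [M 45])) (.n (.l [M 28]) .z)))))⟩⟩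

def p2_24 : Step := ⟨.conj 27 0, ⟨(.ofNat 1), .n (.n (.n (.n (.n (.n .z (.l [M 21])) (.n (.l [M 8]) (.l [P 39]))) .z)
  (.n .z (.n (.n (.l [P 4]) (.l [M 33])) (.n (.l [M 17]) .z)))) (.n (.n (.n (.n .z (.l [P 23]))
  .z) .z) (.n (.n (.n .z (.l [P 27])) (.n (.l [P 11]) .z)) .z))) (.n (.n .z (.n (.n .z (.n .z (.l
  [P 47]))) .z)) (.n (.n (.n .z (.n .z (.l [M 43]))) .z) (.n (.n (.n (.l [M 2]) .z) .z) .z)))⟩⟩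

def p2_25 : Step := ⟨.conj 26 0, ⟨(.ofNat 1), .n (.n (.n .z (.n (.n .z (.n .z (.l [M 38]))) .z)) (.n .z (.n (.n .z (.n
  .z (.l [P 44]))) .z))) (.n (.n (.n (.n .z (.n (.l [M 3]) (.l [P 32]))) (.n .z (.n (.l [P 7])
  .z))) (.n (.n (.n .z (.l [P 16])) .z) .z)) (.n (.n .z (.n (.n (.l [P 1]) (.l [M 24])) .z)) (.n
  (.n (.n .z (.l [P 18])) (.n (.l [P 6]) .z)) (.n (.n .z (.l [P 30])) (.n (.l [M 12]) .z)))))⟩⟩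

def p2_26 : Step := ⟨.comm 3 0, ⟨(.ofNat 1), .n (.n (.n .z (.n (.n (.n .z (.l [M 44])) .z) .z)) (.n (.n (.n (.n (.l [P
  6]) .z) .z) .z) .z)) (.n (.n (.n (.n .z (.n (.l [P 26]) (.l [P 53]))) (.n (.n (.l [M 16]) .z)
  (.n (.l [P 34]) .z))) (.n (.n (.n (.l [P 12]) .z) (.n (.l [P 30]) .z)) (.n .z (.n (.l [P 38])
  .z)))) (.n (.n .z (.n (.n (.l [M 19]) (.l [P 50])) .z)) (.n (.n (.n .z (.l [M 46])) .z) .z)))⟩⟩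

def p2_27 : Step := ⟨.conj 30 0, ⟨(.ofNat 1), .n (.n (.n (.n (.n .z (.n (.l [M 22]) .z)) (.n (.n (.l [P 11]) .z) (.n
  (.l [M 29]) .z))) (.n (.n .z (.n (.l [M 25]) .z)) (.n (.n .z (.l [M 48])) .z))) (.n (.n (.n .z
  (.n .z (.l [P 52]))) (.n .z (.n (.l [P 31]) .z))) (.n (.n (.n (.l [P 10]) .z) .z) (.n .z (.n (.l
  [P 35]) .z))))) (.n (.n (.n (.n (.n .z (.l [P 39])) .z) .z) (.n .z (.n (.n .z (.l [M 49])) .z)))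
  (.n (.n (.n (.n (.l [M 5]) .z) .z) .z) .z))⟩⟩

def p2_28 : Step := ⟨.conj 29 0, ⟨(.ofNat 1), .n (.n (.n (.n .z (.n (.n (.l [M 9]) .z) .z)) (.n (.n (.n (.l [M 5]) .z)
  .z) .z)) (.n (.n (.n .z (.n .z (.l [M 51]))) (.n .z (.n (.l [M 28]) .z))) (.n (.n (.n (.l [M 7])
  .z) .z) (.n (.n .z (.l [M 48])) (.n (.l [M 32]) .z))))) (.n (.n (.n (.n (.n .z (.l [M 36])) .z)
  .z) .z) (.n (.n (.n .z (.n (.l [M 22]) .z)) (.n .z (.n (.l [M 29]) .z))) (.n (.n .z (.n (.l [M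
  25]) .z)) (.n (.n .z (.l [M 49])) .z))))⟩⟩

def p2_29 : Step := ⟨.quot 0 10000, ⟨(.ofNat 1), .n (.n (.n (.n .z (.n (.n (.l [P 9]) .z) .z)) (.n (.n (.n (.l [P 5])
  .z) .z) .z)) (.n (.n (.n .z (.n .z (.l [P 51]))) (.n .z (.n (.l [P 28]) .z))) (.n (.n (.n (.l [P
  7]) .z) .z) (.n (.n .z (.l [P 48])) (.n (.l [P 32]) .z))))) (.n (.n (.n (.n (.n .z (.l [P 36]))
  .z) .z) .z) (.n (.n (.n .z (.n (.l [P 22]) .z)) (.n .z (.n (.l [P 29]) .z))) (.n (.n .z (.n (.l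
  [P 25]) .z)) (.n (.n .z (.l [P 49])) .z))))⟩⟩

def p2_30 : Step := ⟨.comm 20 21, ⟨(.ofNat 1), .n (.n (.n (.n .z (.n (.n (.l [M 37]) .z) (.n (.l [M 51]) .z))) (.n (.n
  (.n (.l [M 31]) .z) .z) .z)) (.n (.n (.n (.n (.l [M 25]) .z) (.n (.l [M 48]) .z)) .z) (.n (.n
  (.n (.l [M 34]) .z) .z) (.n .z (.n (.l [M 53]) .z))))) (.n (.n (.n (.n (.n (.l [M 22]) (.l [M
  54])) .z) .z) (.n (.n .z (.n (.l [M 49]) .z)) .z)) (.n (.n (.n (.n (.l [M 28]) .z) .z) (.n .z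
  (.n (.l [M 52]) .z))) .z))⟩⟩

def p2_31 : Step := ⟨.conj 34 0, ⟨(.ofNat 1), .n (.n (.n (.n (.n (.n (.l [M 19]) .z) .z) .z) (.n (.n (.n .z (.l [M
  55])) (.n (.l [M 50]) .z)) (.n .z (.n (.l [P 53]) .z)))) (.n (.n (.n (.n (.l [P 27]) .z) .z) .z)
  .z)) (.n (.n (.n (.n .z (.n (.l [M 47]) .z)) (.n (.n (.l [M 40]) .z) (.n (.l [P 52]) .z))) (.n
  (.n (.n (.l [M 35]) .z) .z) .z)) (.n (.n (.n (.n (.l [P 30]) .z) .z) .z) (.n (.n (.n (.l [M 38])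
  .z) .z) (.n (.n (.l [M 46]) .z) .z))))⟩⟩

def p2_32 : Step := ⟨.conj 33 0, ⟨(.ofNat 1), .n (.n (.n (.n (.n (.n (.l [M 20]) .z) .z) .z) (.n (.n (.n (.l [M 33])
  .z) .z) (.n (.n (.l [P 44]) .z) .z))) (.n (.n .z (.n (.n (.l [P 41]) .z) .z)) (.n (.n .z (.n (.l
  [M 51]) .z)) (.n (.n (.l [P 45]) .z) .z)))) (.n (.n (.n (.n (.n (.l [M 24]) .z) .z) .z) (.n (.n
  (.n (.l [M 36]) .z) .z) .z)) (.n (.n (.n (.n .z (.l [M 55])) (.n (.l [M 50]) .z)) (.n (.n (.l [P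
  43]) .z) .z)) (.n .z (.n .z (.n (.l [M 54]) .z)))))⟩⟩

def p2_33 : Step := ⟨.conj 36 0, ⟨(.ofNat 1), .n (.n (.n (.n (.n (.n (.l [M 17]) .z) (.n (.l [M 45]) .z)) .z) (.n .z
  (.n (.n (.l [P 42]) .z) .z))) (.n (.n (.n (.n .z (.l [P 54])) .z) (.n (.n (.l [P 39]) .z) .z))
  (.n (.n (.n (.l [P 33]) (.l [P 55])) (.n (.l [M 49]) .z)) .z))) (.n (.n (.n (.n (.n (.l [M 21])
  .z) .z) .z) (.n .z (.n (.n (.l [M 43]) .z) .z))) (.n (.n (.n .z (.n (.l [M 47]) .z)) .z) (.n (.n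
  (.n (.l [P 36]) .z) .z) .z)))⟩⟩

def p2_34 : Step := ⟨.conj 35 0, ⟨(.ofNat 1), .n (.n (.n (.n (.n (.n (.l [P 12]) .z) .z) (.n (.n (.l [P 30]) .z) .z))
  (.n (.n .z (.n (.l [M 44]) .z)) .z)) (.n (.n (.n (.n (.l [M 18]) .z) .z) .z) .z)) (.n (.n (.n
  (.n .z (.n (.l [M 42]) .z)) (.n (.n (.l [P 32]) .z) (.n (.l [M 48]) .z))) (.n (.n (.n .z (.l [P
  53])) .z) (.n (.n (.l [P 38]) .z) .z))) (.n (.n .z (.n (.n (.l [P 35]) (.l [M 55])) .z)) (.n (.n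
  .z (.n (.l [M 46]) .z)) .z)))⟩⟩

def p2_35 : Step := ⟨.conj 38 0, ⟨(.ofNat 1), .n (.n (.n (.n (.n (.n .z (.l [P 48])) (.n (.l [P 34]) .z)) (.n (.n (.l
  [M 23]) (.l [P 52])) (.n (.l [M 41]) .z))) .z) (.n .z (.n .z (.n (.n (.l [P 31]) .z) (.n (.l [P
  46]) .z))))) (.n (.n (.n (.n (.n (.l [P 10]) .z) .z) (.n (.n (.l [M 25]) .z) .z)) (.n (.n .z (.n
  (.l [M 39]) .z)) (.n (.n .z (.l [M 54])) .z))) (.n (.n (.n (.n (.l [M 15]) .z) .z) .z) .z))⟩⟩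

def p2_36 : Step := ⟨.conj 37 0, ⟨(.ofNat 1), .n (.n (.n .z (.n (.n (.n (.l [P 14]) .z) .z) .z)) (.n (.n (.n (.n (.l
  [M 9]) .z) (.n (.l [P 32]) .z)) (.n (.n (.l [M 22]) .z) .z)) (.n (.n (.n (.l [P 16]) .z) .z) (.n
  (.n .z (.l [M 53])) .z)))) (.n (.n (.n (.n (.n .z (.l [M 45])) .z) (.n (.n .z (.l [P 51])) .z))
  .z) (.n (.n .z (.n .z (.n (.l [P 40]) .z))) (.n (.n (.n .z (.l [P 49])) (.n (.l [P 37]) .z)) (.n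
  (.n (.l [P 28]) .z) .z))))⟩⟩

def p2_37 : Step := ⟨.conj 40 0, ⟨(.ofNat 1), .n (.n (.n (.n (.n (.n .z (.l [M 40])) (.n .z (.l [M 52]))) .z) (.n (.n
  (.n .z (.l [M 43])) .z) (.n (.n (.l [M 19]) (.l [P 50])) (.n (.l [M 37]) .z)))) (.n (.n (.n .z
  (.n (.l [M 27]) .z)) (.n (.n .z (.l [P 47])) .z)) .z)) (.n (.n .z (.n (.n (.n (.l [P 11]) .z)
  .z) .z)) (.n (.n (.n (.n (.l [M 8]) .z) .z) .z) (.n (.n (.n (.l [P 13]) .z) .z) (.n (.n (.l [M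
  23]) .z) .z))))⟩⟩

def p2_38 : Step := ⟨.conj 39 0, ⟨(.ofNat 1), .n (.n (.n .z (.n (.n (.n (.l [P 6]) .z) .z) .z)) (.n (.n .z (.n (.n .z
  (.l [P 44])) .z)) (.n .z (.n (.n (.l [P 16]) .z) .z)))) (.n (.n (.n (.n .z (.n (.l [P 20]) (.l
  [P 51]))) .z) (.n (.n (.n (.l [P 7]) .z) (.n (.l [P 24]) .z)) .z)) (.n (.n (.n (.n .z (.l [P
  38])) .z) (.n (.n (.l [P 13]) .z) .z)) (.n (.n (.n .z (.l [P 41])) .z) (.n (.n .z (.l [P 50]))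
  (.n (.l [P 34]) .z)))))⟩⟩

def p2_39 : Step := ⟨.quot 28 10000, ⟨(.ofNat 1), .n (.n (.n (.n (.n (.n .z (.l [P 35])) (.n (.l [P 19]) .z)) (.n .z
  (.n (.l [P 27]) .z))) (.n (.n (.n .z (.l [P 39])) (.n (.l [P 23]) .z)) (.n (.n .z (.l [P 46]))
  (.n (.l [P 31]) .z)))) .z) (.n (.n (.n .z (.n (.n (.l [P 11]) .z) .z)) (.n .z (.n (.n .z (.l [P
  47])) .z))) (.n (.n (.n (.n (.l [P 4]) .z) (.n .z (.l [P 52]))) .z) (.n (.n (.n (.l [P 10]) .z)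
  .z) .z)))⟩⟩

def p2_40 : Step := ⟨.conj 41 17, ⟨(.ofNat 1), .n (.n (.n .z (.n (.n (.n (.l [P 26]) .z) .z) .z)) (.n (.n (.n (.n (.l
  [M 20]) .z) (.n (.l [M 44]) .z)) (.n (.n (.l [M 34]) .z) .z)) .z)) (.n (.n (.n (.n (.n (.l [M
  16]) .z) .z) .z) (.n (.n (.n (.l [P 28]) .z) (.n (.l [M 45]) .z)) (.n .z (.n (.l [P 51]) .z))))
  (.n (.n (.n (.n .z (.l [M 53])) .z) (.n (.n (.l [M 37]) .z) (.n (.l [P 50]) .z))) (.n (.n (.n .z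
  (.l [M 54])) .z) .z)))⟩⟩

def p2_41 : Step := ⟨.conj 44 0, ⟨(.ofNat 1), .n (.n (.n (.n (.n (.n (.l [M 11]) .z) (.n (.l [P 40]) .z)) .z) (.n (.n
  .z (.n (.l [P 43]) .z)) (.n (.n (.l [M 35]) (.l [P 55])) (.n (.l [M 49]) .z)))) (.n (.n (.n (.n
  .z (.l [P 52])) .z) (.n .z (.n (.l [M 47]) .z))) (.n (.n (.n (.l [P 27]) .z) .z) .z))) (.n .z
  (.n (.n (.n (.n (.l [M 21]) .z) .z) .z) (.n (.n (.n (.l [P 29]) .z) .z) (.n (.n (.l [M 39]) .z)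
  .z))))⟩⟩

def p2_42 : Step := ⟨.conj 43 0, ⟨(.ofNat 1), .n (.n (.n (.n (.n (.n (.l [M 7]) .z) .z) (.n (.n (.l [M 24]) .z) .z))
  (.n (.n (.n (.l [P 18]) .z) .z) .z)) (.n (.n .z (.n .z (.n (.l [M 44]) .z))) (.n .z (.n (.n (.l
  [P 32]) .z) .z)))) (.n (.n (.n (.n .z (.n (.l [P 36]) .z)) .z) (.n (.n (.n .z (.l [M 51])) .z)
  .z)) (.n (.n (.n .z (.n (.l [M 38]) .z)) (.n (.n (.l [P 29]) .z) .z)) (.n (.n .z (.n (.l [M 41])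
  .z)) (.n (.n .z (.l [P 55])) (.n (.l [P 48]) .z)))))⟩⟩

def p2_43 : Step := ⟨.conj 46 0, ⟨(.ofNat 1), .n (.n (.n (.n (.n (.n .z (.l [P 42])) (.n (.l [P 26]) .z)) (.n (.n .z
  (.l [M 47])) (.n (.l [M 33]) .z))) .z) (.n .z (.n (.n (.n .z (.l [M 46])) (.n (.l [M 31]) .z))
  .z))) (.n (.n (.n (.n (.n (.l [M 4]) .z) .z) (.n (.n (.l [M 17]) .z) .z)) (.n .z (.n (.n (.l [P
  23]) .z) (.n (.l [P 39]) .z)))) (.n (.n (.n .z (.n .z (.l [M 54]))) .z) (.n (.n (.n (.l [M 15])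
  .z) .z) .z)))⟩⟩

def p2_44 : Step := ⟨.conj 45 0, ⟨(.ofNat 1), .n (.n (.n .z (.n (.n .z (.n .z (.l [P 53]))) .z)) (.n (.n (.n (.n (.l
  [P 3]) .z) .z) (.n (.n (.l [P 12]) .z) .z)) .z)) (.n (.n (.n .z (.n (.n .z (.l [P 44])) (.n (.l
  [P 28]) .z))) (.n .z (.n (.n (.l [P 16]) .z) (.n (.l [P 32]) .z)))) (.n (.n .z (.n (.n (.l [P
  14]) (.l [P 45])) (.n (.l [P 30]) .z))) (.n (.n (.n .z (.l [P 42])) (.n (.l [P 26]) .z)) .z)))⟩⟩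

def p2_45 : Step := ⟨.conj 48 19, ⟨(.ofNat 1), .n (.n (.n (.n (.n (.n .z (.l [M 5])) (.n (.l [M 0]) .z)) (.n (.n .z
  (.l [P 11])) (.n (.l [P 2]) .z))) (.n .z (.n (.n .z (.l [M 15])) .z))) (.n (.n (.n .z (.n .z (.l
  [P 23]))) .z) (.n (.n (.n .z (.l [P 10])) .z) (.n .z (.n (.l [M 4]) .z))))) (.n (.n .z (.n (.n
  .z (.n .z (.l [M 31]))) (.n (.n .z (.l [M 17])) .z))) (.n (.n (.n .z (.n .z (.l [P 25]))) .z)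
  (.n (.n .z (.n .z (.l [P 39]))) .z)))⟩⟩

def p2_46 : Step := ⟨.conj 47 0, ⟨(.ofNat 1), .n (.n (.n .z (.n (.n .z (.n .z (.l [M 22]))) .z)) (.n (.n (.n .z (.n .z
  (.l [P 16]))) .z) (.n (.n .z (.n .z (.l [P 28]))) (.n (.n .z (.l [P 12])) .z)))) (.n (.n (.n (.n
  (.n .z (.l [P 3])) .z) (.n (.n .z (.l [M 7])) .z)) .z) (.n (.n .z (.n (.n .z (.l [M 9])) (.n (.l
  [M 1]) .z))) (.n (.n (.n .z (.l [M 5])) (.n (.l [M 0]) (.l [P 32]))) (.n (.n .z (.l [P 14]))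
  .z))))⟩⟩

def p2_47 : Step := ⟨.conj 50 0, ⟨(.ofNat 1), .n (.n (.n (.n (.n (.n .z (.l [M 1])) (.n .z (.l [M 10]))) .z) (.n (.n
  (.n .z (.l [M 2])) .z) (.n (.n .z (.l [P 6])) (.n (.l [M 0]) .z)))) (.n (.n .z (.n (.n .z (.l [P
  4])) .z)) (.n (.n .z (.n .z (.l [P 23]))) .z))) (.n (.n (.n (.n .z (.n .z (.l [M 11]))) .z) (.n
  (.n .z (.n .z (.l [P 19]))) (.n (.n .z (.l [P 8])) .z))) (.n (.n (.n .z (.n .z (.l [M 13]))) .z)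
  (.n (.n .z (.n .z (.l [P 27]))) .z)))⟩⟩

def p2_48 : Step := ⟨.comm 17 0, ⟨(.ofNat 1), .n (.n (.n (.n (.n (.n .z (.l [M 22])) .z) (.n .z (.n (.l [P 13]) .z)))
  (.n (.n (.n .z (.l [M 25])) .z) (.n (.n .z (.l [P 34])) .z))) (.n (.n (.n .z (.n (.l [P 10])
  .z)) (.n (.n .z (.l [P 31])) .z)) (.n .z (.n .z (.n (.l [M 19]) .z))))) (.n (.n (.n (.n (.n .z
  (.l [M 23])) .z) .z) (.n (.n .z (.n (.l [P 11]) .z)) (.n (.n .z (.l [P 37])) .z))) (.n (.n (.n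
  (.n (.l [P 0]) .z) .z) .z) (.n (.n .z (.n .z (.l [P 52]))) .z)))⟩⟩

def p2_49 : Step := ⟨.conj 52 0, ⟨(.ofNat 1), .n (.n (.n .z (.n (.n (.n .z (.l [M 32])) (.n (.l [M 16]) .z)) .z)) (.n
  (.n (.n (.n (.l [M 1]) .z) .z) .z) (.n (.n .z (.n .z (.l [M 53]))) .z))) (.n (.n (.n (.n (.n .z
  (.l [M 30])) (.n (.l [M 14]) .z)) (.n (.n .z (.l [M 38])) (.n (.l [M 22]) .z))) .z) (.n (.n .z
  (.n (.n .z (.l [M 40])) .z)) (.n (.n (.n .z (.l [M 35])) (.n (.l [M 19]) .z)) (.n (.n (.l [M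
  12]) .z) .z))))⟩⟩

def p2_50 : Step := ⟨.conj 51 0, ⟨(.ofNat 1), .n (.n (.n (.n (.n (.n .z (.l [M 36])) (.n (.l [M 20]) .z)) (.n (.n .z
  (.l [M 43])) .z)) (.n .z (.n (.n (.l [M 15]) .z) .z))) (.n .z (.n (.n (.n .z (.l [M 41])) (.n
  (.l [M 25]) .z)) (.n (.n (.l [M 17]) .z) (.n (.l [M 33]) .z))))) (.n (.n (.n (.n (.n (.l [M 2])
  .z) .z) .z) (.n (.n .z (.n .z (.l [M 54]))) .z)) (.n (.n (.n (.n .z (.l [M 39])) (.n (.l [M 23])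
  .z)) .z) .z))⟩⟩

def p2_51 : Step := ⟨.quot 0 10000, ⟨(.ofNat 1), .n (.n (.n (.n (.n (.n .z (.l [P 36])) (.n (.l [P 20]) .z)) (.n (.n
  .z (.l [P 43])) .z)) (.n .z (.n (.n (.l [P 15]) .z) .z))) (.n .z (.n (.n (.n .z (.l [P 41])) (.n
  (.l [P 25]) .z)) (.n (.n (.l [P 17]) .z) (.n (.l [P 33]) .z))))) (.n (.n (.n (.n (.n (.l [P 2])
  .z) .z) .z) (.n (.n .z (.n .z (.l [P 54]))) .z)) (.n (.n (.n (.n .z (.l [P 39])) (.n (.l [P 23])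
  .z)) .z) .z))⟩⟩

def p2_52 : Step := ⟨.comm 29 5, ⟨(.ofNat 1), .n (.n (.n (.n .z (.n .z (.n (.l [P 16]) .z))) (.n (.n (.n .z (.l [M
  28])) .z) .z)) (.n (.n (.n (.n (.l [M 0]) .z) (.n (.l [P 12]) .z)) .z) .z)) (.n (.n (.n (.n (.n
  .z (.l [M 26])) .z) (.n (.n .z (.l [M 34])) .z)) (.n (.n .z (.n (.l [P 14]) .z)) (.n .z (.n (.l
  [P 22]) .z)))) (.n (.n .z (.n (.n .z (.l [M 37])) (.n (.l [P 19]) .z))) (.n (.n (.n .z (.l [M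
  31])) (.n .z (.l [P 53]))) .z)))⟩⟩

def p2_53 : Step := ⟨.conj 54 0, ⟨(.ofNat 1), .n (.n (.n (.n (.n (.n .z (.l [P 28])) .z) (.n (.n .z (.l [P 37])) (.n
  (.l [P 20]) .z))) .z) (.n (.n (.n .z (.n (.l [P 15]) .z)) .z) (.n (.n (.n .z (.l [P 34])) .z)
  (.n .z (.n (.l [P 26]) .z))))) (.n (.n (.n (.n (.n (.l [P 0]) .z) .z) .z) (.n (.n .z (.n (.l [P
  17]) .z)) (.n .z (.n (.l [P 25]) .z)))) (.n (.n (.n (.n .z (.l [P 31])) .z) (.n .z (.n (.l [P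
  23]) .z))) (.n (.n .z (.n .z (.l [P 54]))) .z)))⟩⟩

def p2_54 : Step := ⟨.conj 57 0, ⟨(.ofNat 1), .n (.n (.n (.n (.n (.n (.l [M 1]) .z) .z) .z) (.n (.n .z (.n (.l [M 24])
  .z)) (.n .z (.n (.l [M 32]) .z)))) (.n (.n (.n (.n .z (.l [M 38])) .z) (.n .z (.n (.l [M 30])
  .z))) (.n (.n .z (.n .z (.l [M 55]))) .z))) (.n (.n (.n (.n .z (.n (.l [M 21]) .z)) (.n .z (.n
  (.l [M 29]) .z))) (.n (.n (.n .z (.l [M 40])) .z) .z)) (.n .z (.n (.n .z (.n (.l [M 27]) .z))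
  (.n (.n (.l [M 18]) .z) (.n (.l [M 35]) .z)))))⟩⟩

def p2_55 : Step := ⟨.quot 0 10000, ⟨(.ofNat 1), .n (.n (.n (.n (.n (.n (.l [P 1]) .z) .z) .z) (.n (.n .z (.n (.l [P
  24]) .z)) (.n .z (.n (.l [P 32]) .z)))) (.n (.n (.n (.n .z (.l [P 38])) .z) (.n .z (.n (.l [P
  30]) .z))) (.n (.n .z (.n .z (.l [P 55]))) .z))) (.n (.n (.n (.n .z (.n (.l [P 21]) .z)) (.n .z
  (.n (.l [P 29]) .z))) (.n (.n (.n .z (.l [P 40])) .z) .z)) (.n .z (.n (.n .z (.n (.l [P 27])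
  .z)) (.n (.n (.l [P 18]) .z) (.n (.l [P 35]) .z)))))⟩⟩

def p2_56 : Step := ⟨.conj 57 36, ⟨(.ofNat 1), .n (.n (.n (.n .z (.n (.n (.l [M 6]) (.l [M 38])) .z)) .z) (.n .z (.n
  .z (.n (.n (.l [M 12]) .z) .z)))) (.n (.n (.n (.n .z (.n (.l [M 15]) (.l [M 48]))) (.n (.n (.l
  [M 7]) .z) .z)) (.n (.n (.n .z (.l [M 34])) (.n (.l [M 18]) .z)) (.n (.n .z (.l [M 44])) .z)))
  (.n (.n .z (.n (.n (.l [M 10]) (.l [M 41])) .z)) (.n .z (.n (.n .z (.l [M 46])) .z))))⟩⟩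

def p2_57 : Step := ⟨.quot 0 10000, ⟨(.ofNat 1), .n (.n (.n (.n .z (.n (.n (.l [P 6]) (.l [P 38])) .z)) .z) (.n .z (.n
  .z (.n (.n (.l [P 12]) .z) .z)))) (.n (.n (.n (.n .z (.n (.l [P 15]) (.l [P 48]))) (.n (.n (.l
  [P 7]) .z) .z)) (.n (.n (.n .z (.l [P 34])) (.n (.l [P 18]) .z)) (.n (.n .z (.l [P 44])) .z)))
  (.n (.n .z (.n (.n (.l [P 10]) (.l [P 41])) .z)) (.n .z (.n (.n .z (.l [P 46])) .z))))⟩⟩

def p2_58 : Step := ⟨.conj 61 29, ⟨(.ofNat 1), .n (.n (.n (.n (.n (.n .z (.l [P 30])) (.n .z (.l [P 46]))) .z) (.n (.n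
  (.n .z (.l [P 33])) .z) (.n .z (.n (.l [P 26]) .z)))) (.n .z (.n (.n .z (.n (.l [P 19]) .z))
  .z))) (.n (.n (.n (.n .z (.n .z (.l [P 47]))) (.n (.n (.l [P 8]) .z) (.n (.l [P 23]) .z))) (.n
  (.n (.n (.l [P 4]) .z) .z) (.n .z (.n (.l [P 27]) .z)))) (.n (.n (.n .z (.n .z (.l [P 50]))) .z)
  (.n (.n (.n (.l [P 6]) .z) .z) .z)))⟩⟩

def p2_59 : Step := ⟨.conj 62 20, ⟨(.ofNat 1), .n (.n (.n (.n (.n .z (.n (.l [P 14]) .z)) (.n .z (.n (.l [P 21]) .z)))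
  (.n (.n .z (.n (.l [P 17]) .z)) (.n (.n .z (.l [P 42])) .z))) (.n (.n (.n (.n .z (.l [P 31]))
  (.n .z (.l [P 47]))) .z) (.n (.n (.n (.l [P 4]) (.l [P 35])) .z) .z))) (.n (.n (.n .z (.n (.n .z
  (.l [P 39])) .z)) (.n .z (.n (.n (.l [P 11]) .z) .z))) (.n (.n (.n .z (.n .z (.l [P 49]))) .z)
  (.n (.n (.n (.l [P 5]) .z) .z) .z)))⟩⟩

def p2_60 : Step := ⟨.quot 36 10000, ⟨(.ofNat 1), .n (.n (.n .z (.n (.n (.n (.l [P 3]) .z) (.n .z (.l [P 51]))) .z))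
  (.n (.n .z (.n (.n (.l [P 7]) .z) .z)) (.n .z (.n (.n .z (.l [P 44])) .z)))) (.n .z (.n (.n (.n
  (.n .z (.l [P 32])) (.n (.l [P 16]) .z)) (.n (.n (.l [P 9]) .z) (.n (.l [P 24]) .z))) (.n (.n
  (.n .z (.l [P 36])) (.n (.l [P 20]) .z)) (.n (.n .z (.l [P 45])) (.n (.l [P 28]) .z)))))⟩⟩

def p2_61 : Step := ⟨.conj 64 16, ⟨(.ofNat 1), .n (.n (.n (.n (.n (.n .z (.l [M 29])) (.n (.l [M 13]) .z)) .z) (.n .z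
  (.n (.n (.l [M 10]) (.l [M 41])) (.n (.l [M 25]) .z)))) (.n (.n .z (.n (.n .z (.l [M 39])) (.n
  (.l [M 23]) .z))) (.n .z (.n (.n (.l [M 11]) .z) (.n (.l [M 27]) .z))))) (.n (.n .z (.n (.n .z
  (.n .z (.l [M 52]))) (.n (.n .z (.l [M 43])) .z))) (.n (.n (.n (.n (.l [M 2]) .z) .z) .z) .z))⟩⟩

def p2_62 : Step := ⟨.quot 0 10000, ⟨(.ofNat 1), .n (.n (.n (.n (.n (.n .z (.l [P 29])) (.n (.l [P 13]) .z)) .z) (.n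
  .z (.n (.n (.l [P 10]) (.l [P 41])) (.n (.l [P 25]) .z)))) (.n (.n .z (.n (.n .z (.l [P 39]))
  (.n (.l [P 23]) .z))) (.n .z (.n (.n (.l [P 11]) .z) (.n (.l [P 27]) .z))))) (.n (.n .z (.n (.n
  .z (.n .z (.l [P 52]))) (.n (.n .z (.l [P 43])) .z))) (.n (.n (.n (.n (.l [P 2]) .z) .z) .z)
  .z))⟩⟩

def p2_63 : Step := ⟨.quot 13 10000, ⟨(.ofNat 1), .n (.n (.n .z (.n (.n (.n .z (.l [P 32])) (.n (.l [P 16]) .z)) .z))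
  (.n (.n (.n (.n (.l [P 1]) .z) .z) .z) (.n (.n .z (.n .z (.l [P 53]))) .z))) (.n (.n (.n (.n (.n
  .z (.l [P 30])) (.n (.l [P 14]) .z)) (.n (.n .z (.l [P 38])) (.n (.l [P 22]) .z))) .z) (.n (.n
  .z (.n (.n .z (.l [P 40])) .z)) (.n (.n (.n .z (.l [P 35])) (.n (.l [P 19]) .z)) (.n (.n (.l [P
  12]) .z) .z))))⟩⟩

def p2 : List Step := [p2_0, p2_1, p2_2, p2_3, p2_4, p2_5, p2_6, p2_7, p2_8, p2_9, p2_10, p2_11, p2_12, p2_13, p2_14,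
  p2_15, p2_16, p2_17, p2_18, p2_19, p2_20, p2_21, p2_22, p2_23, p2_24, p2_25, p2_26, p2_27,
  p2_28, p2_29, p2_30, p2_31, p2_32, p2_33, p2_34, p2_35, p2_36, p2_37, p2_38, p2_39, p2_40,
  p2_41, p2_42, p2_43, p2_44, p2_45, p2_46, p2_47, p2_48, p2_49, p2_50, p2_51, p2_52, p2_53,
  p2_54, p2_55, p2_56, p2_57, p2_58, p2_59, p2_60, p2_61, p2_62, p2_63]

/-- the triple -/
def trip : TripData where
  a := aA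
  b := bA
  c := cA
  sa := 1
  sb := 1
  sc := -1
  sab := 1
  p1 := p1
  ta := 9
  tb := 0
  tc := 7
  p2 := p2
  tX := [43, 34, 25, 24, 19, 12, 8]
  tY := [6, 5, 4, 3, 1, 0, 10]

theorem chk_model : checkModel rep = true := by decide +kernel

theorem chk_rel : checkRel rep trip = true := by decide +kernel

theorem chk_one : check1 rep trip = true := by decide +kernel

theorem chk_two : check2 rep trip = true := by decide +kernel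

theorem chk_cart : ∀ i j : Fin 7, (CartanMatrix.E₇ : Matrix (Fin 7) (Fin 7) ℤ) i j = rep.A i j := by
  intro i j
  fin_cases i <;> fin_cases j <;> rfl

end E7

end Sp

theorem goodModel_E7 : GoodModel CartanMatrix.E₇ :=
  Sp.goodModel_of_check Sp.E7.rep Sp.E7.trip _ Sp.E7.chk_cart Sp.E7.chk_model
    Sp.E7.chk_rel Sp.E7.chk_one Sp.E7.chk_two

end MP9bf44d
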