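import Pool.Agent.Lib.H74.Chev.Model

/-! # Sparse integral model of type E8 with a generating triple -/

namespace MP9bf44d

namespace Sp

namespace E8

def e0 : T :=
.n (.n (.n (.n (.n (.n .z (.n (.n .z (.l [P 165])) (.n (.l [P 101]) .z))) (.n (.n (.n (.l [P 18])
  (.l [P 150])) .z) (.n (.n .z (.l [P 180])) .z))) (.n (.n .z (.n (.n .z (.l [P 173])) (.n (.l [P
  109]) (.l [P 234])))) (.n (.n (.n .z (.l [P 157])) .z) (.n .z (.n (.l [P 128]) .z))))) (.n (.n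
  (.n (.n .z (.n (.l [P 72]) .z)) .z) .z) (.n .z (.n (.n .z (.n .z (.l [P 224]))) (.n (.n (.l [P
  64]) (.l [P 193])) .z))))) (.n (.n (.n (.n (.n (.n .z (.l [P 136])) (.n (.l [P 70]) .z)) (.n (.n
  .z (.l [P 166])) .z)) (.n (.n (.n .z (.l [P 151])) (.n (.l [P 87]) .z)) .z)) (.n (.n (.n (.n .z
  (.l [P 143])) (.n (.l [P 79]) .z)) (.n (.n .z (.l [P 174])) .z)) (.n (.n (.n .z (.l [P 158]))
  (.n (.l [P 95]) .z)) .z))) (.n (.n .z (.n .z (.n (.n (.l [P 59]) (.l [P 186])) .z))) .z))) (.n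
  (.n (.n (.n (.n .z (.n .z (.n (.l [P 103]) (.l [P 228])))) (.n (.n .z (.n (.l [P 85]) .z)) (.n
  (.n .z (.l [P 181])) .z))) (.n (.n (.n (.n (.l [P 10]) .z) (.n (.l [P 77]) (.l [P 206]))) (.n
  (.n (.l [P 46]) .z) .z)) (.n (.n .z (.n (.l [P 93]) .z)) .z))) (.n (.n (.n .z (.n .z (.n .z (.l
  [P 231])))) (.n .z (.n (.n (.l [P 58]) .z) .z))) (.n (.n (.n (.n (.l [P 15]) .z) .z) (.n .z (.n
  .z (.l [P 238])))) (.n .z (.n (.n (.l [P 65]) (.l [P 194])) .z))))) (.n (.n (.n (.n (.n .z (.n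
  (.l [P 71]) (.l [P 200]))) .z) (.n (.n (.n (.l [P 22]) .z) (.n (.l [P 88]) .z)) .z)) (.n (.n (.n
  (.n (.l [P 12]) .z) (.n (.l [P 80]) .z)) (.n .z (.n .z (.l [P 236])))) .z)) (.n (.n (.n (.n (.n
  (.l [P 8]) .z) .z) (.n (.n .z (.l [P 172])) .z)) (.n (.n (.n (.l [P 27]) .z) .z) (.n (.n .z (.l
  [P 187])) (.n (.l [(120, .ofNat 2), P 122]) .z)))) (.n (.n .z (.n (.n (.l [P 52]) (.l [P 179]))
  (.n (.l [P 117]) (.l [P 240])))) (.n (.n (.n .z (.l [P 164])) .z) .z)))))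

def f0 : T :=
.n (.n (.n (.n (.n (.n (.n (.n .z (.l [(120, .ofNat 2), P 122])) (.n (.l [P 60]) .z)) (.n .z (.n
  .z (.l [P 220])))) (.n (.n .z (.n (.l [P 75]) .z)) (.n .z (.n .z (.l [P 239]))))) (.n (.n (.n
  (.n (.l [P 7]) (.l [P 130])) (.n (.l [P 68]) (.l [P 195]))) .z) (.n (.n .z (.n (.l [P 83]) .z))
  (.n .z (.n (.l [P 119]) .z))))) (.n (.n (.n .z (.n (.n .z (.l [P 159])) (.n .z (.l [P 225]))))
  (.n .z (.n (.n (.l [P 47]) (.l [P 176])) .z))) (.n (.n (.n (.n (.l [P 11]) .z) .z) (.n (.n .z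
  (.l [P 167])) (.n .z (.l [P 235])))) .z))) (.n (.n (.n (.n (.n .z (.n .z (.l [P 189]))) .z) (.n
  (.n (.n (.l [P 16]) .z) .z) .z)) (.n (.n (.n (.n (.l [P 9]) .z) .z) (.n .z (.n .z (.l [P
  232])))) (.n .z (.n (.n (.l [P 53]) (.l [P 182])) .z)))) (.n (.n (.n (.n .z (.n (.l [P 66]) .z))
  (.n (.n .z (.l [P 162])) .z)) (.n (.n (.n (.l [P 19]) (.l [P 144])) .z) .z)) (.n (.n (.n .z (.n
  .z (.l [P 201]))) (.n (.n (.l [P 41]) (.l [P 170])) (.n .z (.l [P 237])))) (.n (.n (.n .z (.l [P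
  154])) .z) .z))))) (.n (.n (.n (.n (.n (.n .z (.n (.l [P 61]) (.l [P 188]))) .z) .z) .z) (.n (.n
  (.n .z (.n (.n .z (.l [P 160])) (.n (.l [P 96]) .z))) (.n (.n .z (.n (.l [P 81]) .z)) (.n (.n .z
  (.l [P 177])) (.n (.l [P 111]) .z)))) (.n (.n (.n .z (.n (.l [P 73]) .z)) (.n (.n .z (.l [P
  168])) (.n (.l [P 104]) .z))) (.n (.n (.n .z (.l [P 152])) (.n (.l [P 89]) .z)) .z)))) (.n (.n
  (.n .z (.n .z (.n (.n .z (.l [P 175])) .z))) (.n .z (.n (.n (.n (.l [P 23]) .z) .z) (.n (.n (.l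
  [P 54]) (.l [P 183])) .z)))) (.n (.n (.n (.n .z (.n (.l [P 67]) .z)) (.n .z (.n (.l [P 97]) (.l
  [P 229])))) (.n (.n (.n .z (.l [P 146])) (.n (.l [P 82]) .z)) .z)) (.n (.n (.n (.n (.l [P 13])
  (.l [P 138])) (.n (.l [P 74]) .z)) .z) (.n (.n .z (.n (.l [P 90]) .z)) .z)))))

def h0 : T :=
.n (.n (.n (.n (.n (.n (.n (.n .z (.l [(128, .negSucc 1)])) (.n (.l [M 64]) .z)) (.n (.n .z (.l [P
  160])) (.n (.l [P 96]) (.l [M 224])))) (.n (.n (.n (.l [P 16]) (.l [P 144])) (.n (.l [M 80])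
  .z)) (.n (.n .z (.l [P 176])) (.n .z (.l [M 240]))))) (.n (.n (.n (.n (.l [M 8]) (.l [M 136]))
  (.n (.l [M 72]) (.l [M 200]))) (.n (.n .z (.l [P 168])) (.n (.l [P 104]) (.l [P 232])))) (.n (.n
  (.n .z (.l [P 152])) (.n (.l [M 88]) .z)) .z))) (.n (.n (.n (.n .z (.n (.l [P 68]) .z)) (.n (.n
  .z (.l [M 164])) (.n .z (.l [M 228])))) (.n .z (.n (.n (.l [M 52]) (.l [M 180])) .z))) (.n (.n
  (.n (.n (.l [M 12]) .z) .z) (.n (.n .z (.l [M 172])) (.n .z (.l [M 236])))) (.n (.n .z (.n .z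
  (.l [P 220]))) (.n (.n (.l [P 60]) (.l [P 188])) .z))))) (.n (.n (.n (.n (.n (.n .z (.l [P
  130])) (.n (.l [P 66]) (.l [M 194]))) (.n (.n .z (.l [P 162])) .z)) (.n (.n (.n (.l [M 18]) (.l
  [P 146])) (.n (.l [P 82]) .z)) .z)) (.n (.n (.n (.n (.l [M 10]) (.l [P 138])) (.n (.l [P 74])
  .z)) (.n (.n .z (.l [P 170])) (.n .z (.l [M 234])))) (.n (.n (.n .z (.l [P 154])) (.n (.l [P
  90]) .z)) (.n (.n (.l [M 58]) (.l [M 186])) .z)))) (.n (.n (.n (.n .z (.n (.l [M 70]) .z)) (.n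
  (.n .z (.l [M 166])) .z)) (.n (.n (.n (.l [M 22]) (.l [M 150])) .z) (.n (.n (.l [P 54]) (.l [P
  182])) .z))) (.n (.n (.n .z (.n .z (.l [M 206]))) (.n (.n (.l [M 46]) (.l [M 174])) (.n .z (.l
  [M 238])))) (.n (.n (.n .z (.l [M 158])) .z) .z))))) (.n (.n (.n (.n (.n (.n .z (.n (.l [M 65])
  (.l [M 193]))) (.n .z (.n (.l [P 97]) (.l [P 225])))) (.n (.n .z (.n (.l [P 81]) .z)) (.n (.n .z
  (.l [P 177])) .z))) (.n (.n (.n (.n (.l [P 9]) .z) (.n (.l [P 73]) (.l [P 201]))) (.n (.n (.l [P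
  41]) .z) .z)) (.n (.n .z (.n (.l [P 89]) .z)) .z))) (.n (.n (.n .z (.n (.n .z (.l [M 165])) (.n
  (.l [M 101]) (.l [P 229])))) (.n (.n .z (.n (.l [M 85]) .z)) (.n (.n (.l [P 53]) (.l [M 181]))
  (.n (.l [M 117]) .z)))) (.n (.n (.n (.n (.l [P 13]) .z) (.n (.l [M 77]) .z)) (.n (.n .z (.l [M
  173])) (.n (.l [M 109]) (.l [P 237])))) (.n (.n (.n .z (.l [M 157])) (.n (.l [M 93]) .z)) (.n
  (.n (.l [P 61]) (.l [P 189])) .z))))) (.n (.n (.n (.n (.n .z (.n (.l [P 67]) (.l [P 195]))) .z)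
  (.n (.n (.n (.l [P 19]) .z) (.n (.l [P 83]) .z)) (.n (.n .z (.l [M 179])) .z))) (.n (.n (.n (.n
  (.l [P 11]) .z) (.n (.l [P 75]) .z)) (.n .z (.n .z (.l [P 235])))) (.n (.n (.n (.l [M 27]) .z)
  .z) (.n (.n (.l [M 59]) (.l [M 187])) .z)))) (.n (.n (.n (.n (.n (.l [P 7]) .z) (.n (.l [M 71])
  .z)) (.n (.n .z (.l [P 167])) (.n (.l [M 103]) (.l [M 231])))) (.n (.n (.n (.l [P 23]) (.l [M
  151])) (.n (.l [M 87]) .z)) (.n (.n .z (.l [P 183])) (.n (.l [(119, .ofNat 2)]) .z)))) (.n (.n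
  (.n (.n (.l [M 15]) (.l [M 143])) (.n (.l [M 79]) .z)) (.n (.n (.l [P 47]) (.l [P 175])) (.n (.l
  [P 111]) (.l [P 239])))) (.n (.n (.n .z (.l [P 159])) (.n (.l [M 95]) .z)) .z)))))

def x0 : T :=
.n (.n (.n (.n (.n (.n .z (.n (.n .z (.l [P 165])) (.n (.l [P 101]) .z))) (.n (.n (.n (.l [P 18])
  (.l [P 150])) .z) (.n (.n .z (.l [P 180])) .z))) (.n (.n .z (.n (.n .z (.l [P 173])) (.n (.l [P
  109]) (.l [P 234])))) (.n (.n (.n .z (.l [P 157])) .z) (.n .z (.n (.l [P 128]) .z))))) (.n (.n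
  (.n (.n .z (.n (.l [P 72]) .z)) .z) .z) (.n .z (.n (.n .z (.n .z (.l [P 224]))) (.n (.n (.l [P
  64]) (.l [P 193])) .z))))) (.n (.n (.n (.n (.n (.n .z (.l [P 136])) (.n (.l [P 70]) .z)) (.n (.n
  .z (.l [P 166])) .z)) (.n (.n (.n .z (.l [P 151])) (.n (.l [P 87]) .z)) .z)) (.n (.n (.n (.n .z
  (.l [P 143])) (.n (.l [P 79]) .z)) (.n (.n .z (.l [P 174])) .z)) (.n (.n (.n .z (.l [P 158]))
  (.n (.l [P 95]) .z)) .z))) (.n (.n .z (.n .z (.n (.n (.l [P 59]) (.l [P 186])) .z))) .z))) (.n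
  (.n (.n (.n (.n .z (.n .z (.n (.l [P 103]) (.l [P 228])))) (.n (.n .z (.n (.l [P 85]) .z)) (.n
  (.n .z (.l [P 181])) .z))) (.n (.n (.n (.n (.l [P 10]) .z) (.n (.l [P 77]) (.l [P 206]))) (.n
  (.n (.l [P 46]) .z) .z)) (.n (.n .z (.n (.l [P 93]) .z)) .z))) (.n (.n (.n .z (.n .z (.n .z (.l
  [P 231])))) (.n .z (.n (.n (.l [P 58]) .z) .z))) (.n (.n (.n (.n (.l [P 15]) .z) .z) (.n .z (.n
  .z (.l [P 238])))) (.n .z (.n (.n (.l [P 65]) (.l [P 194])) .z))))) (.n (.n (.n (.n (.n .z (.n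
  (.l [P 71]) (.l [P 200]))) .z) (.n (.n (.n (.l [P 22]) .z) (.n (.l [P 88]) .z)) .z)) (.n (.n (.n
  (.n (.l [P 12]) .z) (.n (.l [P 80]) .z)) (.n .z (.n .z (.l [P 236])))) .z)) (.n (.n (.n (.n (.n
  (.l [P 8]) .z) .z) (.n (.n .z (.l [P 172])) .z)) (.n (.n (.n (.l [P 27]) .z) .z) (.n (.n .z (.l
  [P 187])) (.n (.l [(120, .ofNat 2), P 122, P 128]) .z)))) (.n (.n .z (.n (.n (.l [P 52]) (.l [P
  179])) (.n (.l [P 117]) (.l [P 240])))) (.n (.n (.n .z (.l [P 164])) .z) .z)))))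

def u0 : T :=
.n (.n (.n (.n (.n (.n .z (.n (.n .z (.l [M 165])) (.n (.l [M 101]) .z))) (.n (.n (.n (.l [M 18])
  (.l [M 150])) .z) (.n (.n .z (.l [M 180])) .z))) (.n (.n .z (.n (.n .z (.l [M 173])) (.n (.l [M
  109]) (.l [M 234])))) (.n (.n (.n .z (.l [M 157])) .z) (.n .z (.n (.l [M 128]) .z))))) (.n (.n
  (.n (.n .z (.n (.l [M 72]) .z)) .z) .z) (.n .z (.n (.n .z (.n .z (.l [M 224]))) (.n (.n (.l [M
  64]) (.l [M 193])) .z))))) (.n (.n (.n (.n (.n (.n .z (.l [M 136])) (.n (.l [M 70]) .z)) (.n (.n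
  .z (.l [M 166])) .z)) (.n (.n (.n .z (.l [M 151])) (.n (.l [M 87]) .z)) .z)) (.n (.n (.n (.n .z
  (.l [M 143])) (.n (.l [M 79]) .z)) (.n (.n .z (.l [M 174])) .z)) (.n (.n (.n .z (.l [M 158]))
  (.n (.l [M 95]) .z)) .z))) (.n (.n .z (.n .z (.n (.n (.l [M 59]) (.l [M 186])) .z))) .z))) (.n
  (.n (.n (.n (.n .z (.n .z (.n (.l [M 103]) (.l [M 228])))) (.n (.n .z (.n (.l [M 85]) .z)) (.n
  (.n .z (.l [M 181])) .z))) (.n (.n (.n (.n (.l [M 10]) .z) (.n (.l [M 77]) (.l [M 206]))) (.n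
  (.n (.l [M 46]) .z) .z)) (.n (.n .z (.n (.l [M 93]) .z)) .z))) (.n (.n (.n .z (.n .z (.n .z (.l
  [M 231])))) (.n .z (.n (.n (.l [M 58]) .z) .z))) (.n (.n (.n (.n (.l [M 15]) .z) .z) (.n .z (.n
  .z (.l [M 238])))) (.n .z (.n (.n (.l [M 65]) (.l [M 194])) .z))))) (.n (.n (.n (.n (.n .z (.n
  (.l [M 71]) (.l [M 200]))) .z) (.n (.n (.n (.l [M 22]) .z) (.n (.l [M 88]) .z)) .z)) (.n (.n (.n
  (.n (.l [M 12]) .z) (.n (.l [M 80]) .z)) (.n .z (.n .z (.l [M 236])))) .z)) (.n (.n (.n (.n (.n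
  (.l [M 8]) .z) .z) (.n (.n .z (.l [M 172])) .z)) (.n (.n (.n (.l [M 27]) .z) .z) (.n (.n .z (.l
  [M 187])) (.n (.l [(120, .negSucc 1), M 122, P 128]) .z)))) (.n (.n .z (.n (.n (.l [M 52]) (.l
  [M 179])) (.n (.l [M 117]) (.l [M 240])))) (.n (.n (.n .z (.l [M 164])) .z) .z)))))

def y0 : T :=
.n (.n (.n (.n (.n (.n (.n (.n .z (.l [P 119, (120, .ofNat 2), P 122])) (.n (.l [P 60]) .z)) (.n
  .z (.n .z (.l [P 220])))) (.n (.n .z (.n (.l [P 75]) .z)) (.n .z (.n .z (.l [P 239]))))) (.n (.n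
  (.n (.n (.l [P 7]) (.l [P 130])) (.n (.l [P 68]) (.l [P 195]))) .z) (.n (.n .z (.n (.l [P 83])
  .z)) (.n .z (.n (.l [P 119]) .z))))) (.n (.n (.n .z (.n (.n .z (.l [P 159])) (.n .z (.l [P
  225])))) (.n .z (.n (.n (.l [P 47]) (.l [P 176])) .z))) (.n (.n (.n (.n (.l [P 11]) .z) .z) (.n
  (.n .z (.l [P 167])) (.n .z (.l [P 235])))) .z))) (.n (.n (.n (.n (.n .z (.n .z (.l [P 189])))
  .z) (.n (.n (.n (.l [P 16]) .z) .z) .z)) (.n (.n (.n (.n (.l [P 9]) .z) .z) (.n .z (.n .z (.l [P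
  232])))) (.n .z (.n (.n (.l [P 53]) (.l [P 182])) .z)))) (.n (.n (.n (.n .z (.n (.l [P 66]) .z))
  (.n (.n .z (.l [P 162])) .z)) (.n (.n (.n (.l [P 19]) (.l [P 144])) .z) .z)) (.n (.n (.n .z (.n
  .z (.l [P 201]))) (.n (.n (.l [P 41]) (.l [P 170])) (.n .z (.l [P 237])))) (.n (.n (.n .z (.l [P
  154])) .z) .z))))) (.n (.n (.n (.n (.n (.n .z (.n (.l [P 61]) (.l [P 188]))) .z) .z) .z) (.n (.n
  (.n .z (.n (.n .z (.l [P 160])) (.n (.l [P 96]) .z))) (.n (.n .z (.n (.l [P 81]) .z)) (.n (.n .z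
  (.l [P 177])) (.n (.l [P 111]) .z)))) (.n (.n (.n .z (.n (.l [P 73]) .z)) (.n (.n .z (.l [P
  168])) (.n (.l [P 104]) .z))) (.n (.n (.n .z (.l [P 152])) (.n (.l [P 89]) .z)) .z)))) (.n (.n
  (.n .z (.n .z (.n (.n .z (.l [P 175])) .z))) (.n .z (.n (.n (.n (.l [P 23]) .z) .z) (.n (.n (.l
  [P 54]) (.l [P 183])) .z)))) (.n (.n (.n (.n .z (.n (.l [P 67]) .z)) (.n .z (.n (.l [P 97]) (.l
  [P 229])))) (.n (.n (.n .z (.l [P 146])) (.n (.l [P 82]) .z)) .z)) (.n (.n (.n (.n (.l [P 13])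
  (.l [P 138])) (.n (.l [P 74]) .z)) .z) (.n (.n .z (.n (.l [P 90]) .z)) .z)))))

def v0 : T :=
.n (.n (.n (.n (.n (.n (.n (.n .z (.l [P 119, (120, .negSucc 1), M 122])) (.n (.l [M 60]) .z)) (.n
  .z (.n .z (.l [M 220])))) (.n (.n .z (.n (.l [M 75]) .z)) (.n .z (.n .z (.l [M 239]))))) (.n (.n
  (.n (.n (.l [M 7]) (.l [M 130])) (.n (.l [M 68]) (.l [M 195]))) .z) (.n (.n .z (.n (.l [M 83])
  .z)) (.n .z (.n (.l [M 119]) .z))))) (.n (.n (.n .z (.n (.n .z (.l [M 159])) (.n .z (.l [M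
  225])))) (.n .z (.n (.n (.l [M 47]) (.l [M 176])) .z))) (.n (.n (.n (.n (.l [M 11]) .z) .z) (.n
  (.n .z (.l [M 167])) (.n .z (.l [M 235])))) .z))) (.n (.n (.n (.n (.n .z (.n .z (.l [M 189])))
  .z) (.n (.n (.n (.l [M 16]) .z) .z) .z)) (.n (.n (.n (.n (.l [M 9]) .z) .z) (.n .z (.n .z (.l [M
  232])))) (.n .z (.n (.n (.l [M 53]) (.l [M 182])) .z)))) (.n (.n (.n (.n .z (.n (.l [M 66]) .z))
  (.n (.n .z (.l [M 162])) .z)) (.n (.n (.n (.l [M 19]) (.l [M 144])) .z) .z)) (.n (.n (.n .z (.n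
  .z (.l [M 201]))) (.n (.n (.l [M 41]) (.l [M 170])) (.n .z (.l [M 237])))) (.n (.n (.n .z (.l [M
  154])) .z) .z))))) (.n (.n (.n (.n (.n (.n .z (.n (.l [M 61]) (.l [M 188]))) .z) .z) .z) (.n (.n
  (.n .z (.n (.n .z (.l [M 160])) (.n (.l [M 96]) .z))) (.n (.n .z (.n (.l [M 81]) .z)) (.n (.n .z
  (.l [M 177])) (.n (.l [M 111]) .z)))) (.n (.n (.n .z (.n (.l [M 73]) .z)) (.n (.n .z (.l [M
  168])) (.n (.l [M 104]) .z))) (.n (.n (.n .z (.l [M 152])) (.n (.l [M 89]) .z)) .z)))) (.n (.n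
  (.n .z (.n .z (.n (.n .z (.l [M 175])) .z))) (.n .z (.n (.n (.n (.l [M 23]) .z) .z) (.n (.n (.l
  [M 54]) (.l [M 183])) .z)))) (.n (.n (.n (.n .z (.n (.l [M 67]) .z)) (.n .z (.n (.l [M 97]) (.l
  [M 229])))) (.n (.n (.n .z (.l [M 146])) (.n (.l [M 82]) .z)) .z)) (.n (.n (.n (.n (.l [M 13])
  (.l [M 138])) (.n (.l [M 74]) .z)) .z) (.n (.n .z (.n (.l [M 90]) .z)) .z)))))

def e1 : T :=
.n (.n (.n (.n .z (.n (.n (.n (.n (.l [P 10]) .z) .z) (.n (.n (.l [P 44]) .z) .z)) .z)) (.n (.n .z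
  (.n (.n (.n (.l [P 24]) .z) .z) .z)) (.n (.n (.n .z (.n .z (.l [P 208]))) .z) .z))) (.n (.n (.n
  (.n (.n .z (.n (.l [P 73]) .z)) (.n (.n (.l [P 37]) (.l [P 168])) .z)) (.n (.n (.n .z (.l [P
  152])) (.n (.l [P 89]) (.l [P 213]))) .z)) (.n (.n (.n (.n .z (.l [P 144])) (.n (.l [P 81]) .z))
  (.n (.n .z (.l [P 177])) .z)) (.n (.n (.n .z (.l [P 160])) (.n (.l [P 96]) .z)) .z))) (.n (.n
  (.n (.n .z (.n (.l [P 77]) .z)) (.n (.n .z (.l [P 173])) (.n (.l [P 108]) .z))) (.n (.n .z (.n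
  (.l [P 92]) (.l [P 217]))) (.n .z (.n (.l [(121, .ofNat 2), P 123]) .z)))) (.n (.n (.n .z (.n
  (.l [P 84]) .z)) (.n (.n .z (.l [P 181])) (.n (.l [P 116]) (.l [P 240])))) (.n (.n (.n (.l [P
  33]) (.l [P 165])) (.n (.l [P 100]) .z)) (.n (.n .z (.l [P 196])) .z)))))) (.n (.n (.n (.n (.n
  .z (.n .z (.n (.l [P 104]) .z))) (.n (.n .z (.n .z (.l [P 212]))) (.n .z (.n .z (.l [P 242])))))
  (.n .z (.n (.n (.n (.l [P 28]) .z) .z) (.n .z (.n (.l [P 129]) .z))))) (.n (.n (.n (.n (.n (.l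
  [P 6]) .z) (.n .z (.l [P 202]))) .z) .z) (.n (.n .z (.n (.n (.l [P 50]) .z) (.n .z (.l [P
  239])))) (.n (.n (.n (.l [P 32]) .z) .z) .z)))) (.n (.n (.n (.n (.n (.n .z (.l [P 137])) .z) (.n
  (.n (.l [P 38]) (.l [P 169])) .z)) (.n (.n (.n .z (.l [P 153])) .z) (.n (.n (.l [P 57]) .z)
  .z))) (.n (.n (.n (.n .z (.l [P 145])) (.n .z (.l [P 207]))) .z) (.n (.n (.n .z (.l [P 161]))
  (.n .z (.l [P 222]))) .z))) (.n (.n (.n (.n (.n (.l [P 9]) .z) .z) (.n (.n (.l [P 43]) .z) (.n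
  (.l [P 109]) .z))) (.n (.n (.n .z (.l [P 157])) (.n (.l [P 93]) (.l [P 218]))) .z)) (.n (.n (.n
  (.n .z (.l [P 150])) (.n (.l [P 85]) .z)) .z) (.n (.n .z (.n (.l [P 101]) (.l [P 227]))) .z)))))

def f1 : T :=
.n (.n (.n (.n (.n (.n .z (.n (.n (.l [P 29]) (.l [P 154])) (.n (.l [P 90]) .z))) (.n (.n (.n .z
  (.l [P 138])) (.n .z (.l [P 204]))) (.n .z (.n .z (.l [P 238]))))) (.n (.n .z (.n (.n .z (.l [P
  162])) (.n (.l [P 97]) .z))) (.n (.n (.n (.l [P 20]) (.l [P 146])) .z) .z))) (.n (.n (.n (.n .z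
  (.n .z (.l [P 190]))) (.n .z (.n (.l [P 94]) .z))) (.n (.n .z (.n (.l [P 78]) (.l [P 209]))) (.n
  .z (.n (.l [P 110]) .z)))) (.n (.n .z (.n (.n (.l [P 40]) .z) (.n (.l [P 102]) .z))) (.n (.n (.n
  (.l [P 25]) .z) (.n (.l [P 86]) .z)) .z)))) (.n (.n (.n .z (.n .z (.n (.n (.l [P 45]) .z) (.n .z
  (.l [P 241]))))) (.n (.n (.n (.n (.l [P 8]) .z) (.n .z (.l [P 197]))) .z) (.n (.n .z (.n .z (.l
  [P 215]))) .z))) (.n (.n (.n (.n (.n (.l [P 5]) .z) .z) (.n (.n (.l [P 35]) .z) .z)) (.n (.n (.n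
  .z (.l [P 143])) .z) .z)) (.n .z (.n (.n .z (.n .z (.l [P 219]))) .z))))) (.n (.n (.n (.n (.n
  (.n (.n .z (.l [(121, .ofNat 2), P 123])) .z) (.n (.n (.l [P 30]) (.l [P 155])) .z)) (.n (.n (.n
  .z (.l [P 139])) (.n (.l [P 74]) .z)) (.n (.n .z (.l [P 170])) .z))) (.n (.n (.n (.n (.l [P 7])
  (.l [P 131])) (.n (.l [P 66]) .z)) (.n (.n .z (.l [P 163])) .z)) (.n (.n (.n .z (.l [P 147]))
  (.n (.l [P 82]) (.l [P 214]))) (.n (.n (.l [P 51]) .z) (.n (.l [P 118]) .z))))) (.n (.n (.n .z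
  (.n (.n (.l [P 34]) (.l [P 158])) (.n (.l [P 95]) .z))) (.n (.n .z (.n (.l [P 79]) (.l [P
  210]))) (.n (.n .z (.l [P 174])) .z))) (.n (.n (.n .z (.n (.l [P 70]) .z)) (.n (.n .z (.l [P
  166])) (.n (.l [P 103]) .z))) (.n (.n (.n .z (.l [P 151])) (.n (.l [P 87]) .z)) .z)))) (.n (.n
  (.n (.n .z (.n .z (.n .z (.l [P 223])))) .z) (.n (.n .z (.n (.n (.l [P 39]) .z) .z)) .z)) (.n .z
  (.n (.n (.n .z (.n .z (.l [P 203]))) (.n .z (.n .z (.l [P 237])))) .z))))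

def h1 : T :=
.n (.n (.n (.n (.n (.n .z (.n (.n (.l [M 32]) (.l [M 160])) (.n (.l [M 96]) .z))) (.n (.n (.n .z
  (.l [M 144])) (.n .z (.l [M 208]))) (.n .z (.n .z (.l [M 240]))))) (.n (.n (.n (.n (.l [P 8])
  .z) .z) (.n (.n (.l [P 40]) (.l [M 168])) (.n (.l [M 104]) .z))) (.n (.n (.n (.l [M 24]) (.l [M
  152])) .z) .z))) (.n (.n (.n (.n .z (.n .z (.l [M 196]))) (.n .z (.n (.l [M 100]) .z))) (.n (.n
  (.n (.l [P 20]) .z) (.n (.l [M 84]) (.l [M 212]))) (.n .z (.n (.l [M 116]) .z)))) (.n (.n (.n .z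
  (.n .z (.l [P 204]))) (.n (.n (.l [M 44]) .z) (.n (.l [M 108]) .z))) (.n (.n (.n (.l [M 28]) .z)
  (.n (.l [M 92]) .z)) .z)))) (.n (.n (.n (.n (.n .z (.n (.l [P 66]) .z)) (.n (.n (.l [P 34]) (.l
  [P 162])) .z)) (.n (.n (.n .z (.l [P 146])) (.n (.l [P 82]) (.l [P 210]))) (.n (.n (.l [M 50])
  .z) (.n .z (.l [M 242]))))) (.n (.n (.n (.n (.l [M 10]) (.l [P 138])) (.n (.l [P 74]) (.l [M
  202]))) (.n (.n .z (.l [P 170])) .z)) (.n (.n (.n .z (.l [P 154])) (.n (.l [P 90]) (.l [M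
  218]))) .z))) (.n (.n (.n (.n (.n (.l [M 6]) .z) (.n (.l [P 70]) .z)) (.n (.n (.l [M 38]) (.l [P
  166])) (.n (.l [P 102]) .z))) (.n (.n (.n .z (.l [M 150])) (.n (.l [P 86]) (.l [P 214]))) (.n .z
  (.n (.l [(118, .ofNat 2)]) .z)))) (.n (.n (.n .z (.n (.l [P 78]) .z)) (.n (.n .z (.l [P 174]))
  (.n (.l [P 110]) (.l [P 238])))) (.n (.n (.n (.l [P 30]) (.l [P 158])) (.n (.l [P 94]) (.l [M
  222]))) (.n (.n .z (.l [P 190])) .z)))))) (.n (.n (.n (.n (.n (.n (.n .z (.l [(129, .negSucc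
  1)])) .z) (.n (.n (.l [M 33]) (.l [M 161])) (.n (.l [P 97]) .z))) (.n (.n (.n .z (.l [M 145]))
  (.n (.l [M 81]) (.l [P 209]))) (.n (.n .z (.l [M 177])) (.n .z (.l [P 241]))))) (.n (.n (.n (.n
  (.l [M 9]) (.l [M 137])) (.n (.l [M 73]) .z)) (.n (.n .z (.l [M 169])) .z)) (.n (.n (.n (.l [P
  25]) (.l [M 153])) (.n (.l [M 89]) (.l [M 217]))) (.n (.n (.l [M 57]) .z) .z)))) (.n (.n (.n (.n
  (.n (.l [P 5]) .z) (.n .z (.l [P 197]))) (.n (.n (.l [M 37]) (.l [M 165])) (.n (.l [M 101])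
  .z))) (.n (.n .z (.n (.l [M 85]) (.l [M 213]))) (.n (.n .z (.l [M 181])) .z))) (.n (.n (.n .z
  (.n (.l [M 77]) .z)) (.n (.n (.l [P 45]) (.l [M 173])) (.n (.l [M 109]) (.l [P 237])))) (.n (.n
  (.n (.l [P 29]) (.l [M 157])) (.n (.l [M 93]) .z)) .z)))) (.n (.n (.n (.n (.n (.n .z (.l [P
  131])) .z) (.n (.n (.l [P 35]) (.l [P 163])) (.n .z (.l [M 227])))) (.n (.n (.n .z (.l [P 147]))
  .z) (.n (.n (.l [P 51]) .z) .z))) (.n (.n (.n (.n .z (.l [P 139])) (.n .z (.l [P 203]))) (.n (.n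
  (.l [M 43]) .z) .z)) (.n (.n (.n .z (.l [P 155])) (.n .z (.l [P 219]))) .z))) (.n (.n (.n (.n
  (.n (.l [P 7]) .z) .z) (.n (.n (.l [P 39]) .z) (.n (.l [P 103]) .z))) (.n (.n (.n .z (.l [P
  151])) (.n (.l [P 87]) (.l [P 215]))) .z)) (.n (.n (.n (.n .z (.l [P 143])) (.n (.l [P 79]) (.l
  [M 207]))) (.n .z (.n .z (.l [M 239])))) (.n (.n .z (.n (.l [P 95]) (.l [P 223]))) .z)))))

def x1 : T :=
.n (.n (.n (.n .z (.n (.n (.n (.n (.l [P 10]) .z) .z) (.n (.n (.l [P 44]) .z) .z)) .z)) (.n (.n .z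
  (.n (.n (.n (.l [P 24]) .z) .z) .z)) (.n (.n (.n .z (.n .z (.l [P 208]))) .z) .z))) (.n (.n (.n
  (.n (.n .z (.n (.l [P 73]) .z)) (.n (.n (.l [P 37]) (.l [P 168])) .z)) (.n (.n (.n .z (.l [P
  152])) (.n (.l [P 89]) (.l [P 213]))) .z)) (.n (.n (.n (.n .z (.l [P 144])) (.n (.l [P 81]) .z))
  (.n (.n .z (.l [P 177])) .z)) (.n (.n (.n .z (.l [P 160])) (.n (.l [P 96]) .z)) .z))) (.n (.n
  (.n (.n .z (.n (.l [P 77]) .z)) (.n (.n .z (.l [P 173])) (.n (.l [P 108]) .z))) (.n (.n .z (.n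
  (.l [P 92]) (.l [P 217]))) (.n .z (.n (.l [(121, .ofNat 2), P 123, P 129]) .z)))) (.n (.n (.n .z
  (.n (.l [P 84]) .z)) (.n (.n .z (.l [P 181])) (.n (.l [P 116]) (.l [P 240])))) (.n (.n (.n (.l
  [P 33]) (.l [P 165])) (.n (.l [P 100]) .z)) (.n (.n .z (.l [P 196])) .z)))))) (.n (.n (.n (.n
  (.n .z (.n .z (.n (.l [P 104]) .z))) (.n (.n .z (.n .z (.l [P 212]))) (.n .z (.n .z (.l [P
  242]))))) (.n .z (.n (.n (.n (.l [P 28]) .z) .z) (.n .z (.n (.l [P 129]) .z))))) (.n (.n (.n (.n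
  (.n (.l [P 6]) .z) (.n .z (.l [P 202]))) .z) .z) (.n (.n .z (.n (.n (.l [P 50]) .z) (.n .z (.l
  [P 239])))) (.n (.n (.n (.l [P 32]) .z) .z) .z)))) (.n (.n (.n (.n (.n (.n .z (.l [P 137])) .z)
  (.n (.n (.l [P 38]) (.l [P 169])) .z)) (.n (.n (.n .z (.l [P 153])) .z) (.n (.n (.l [P 57]) .z)
  .z))) (.n (.n (.n (.n .z (.l [P 145])) (.n .z (.l [P 207]))) .z) (.n (.n (.n .z (.l [P 161]))
  (.n .z (.l [P 222]))) .z))) (.n (.n (.n (.n (.n (.l [P 9]) .z) .z) (.n (.n (.l [P 43]) .z) (.n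
  (.l [P 109]) .z))) (.n (.n (.n .z (.l [P 157])) (.n (.l [P 93]) (.l [P 218]))) .z)) (.n (.n (.n
  (.n .z (.l [P 150])) (.n (.l [P 85]) .z)) .z) (.n (.n .z (.n (.l [P 101]) (.l [P 227]))) .z)))))

def u1 : T :=
.n (.n (.n (.n .z (.n (.n (.n (.n (.l [M 10]) .z) .z) (.n (.n (.l [M 44]) .z) .z)) .z)) (.n (.n .z
  (.n (.n (.n (.l [M 24]) .z) .z) .z)) (.n (.n (.n .z (.n .z (.l [M 208]))) .z) .z))) (.n (.n (.n
  (.n (.n .z (.n (.l [M 73]) .z)) (.n (.n (.l [M 37]) (.l [M 168])) .z)) (.n (.n (.n .z (.l [M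
  152])) (.n (.l [M 89]) (.l [M 213]))) .z)) (.n (.n (.n (.n .z (.l [M 144])) (.n (.l [M 81]) .z))
  (.n (.n .z (.l [M 177])) .z)) (.n (.n (.n .z (.l [M 160])) (.n (.l [M 96]) .z)) .z))) (.n (.n
  (.n (.n .z (.n (.l [M 77]) .z)) (.n (.n .z (.l [M 173])) (.n (.l [M 108]) .z))) (.n (.n .z (.n
  (.l [M 92]) (.l [M 217]))) (.n .z (.n (.l [(121, .negSucc 1), M 123, P 129]) .z)))) (.n (.n (.n
  .z (.n (.l [M 84]) .z)) (.n (.n .z (.l [M 181])) (.n (.l [M 116]) (.l [M 240])))) (.n (.n (.n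
  (.l [M 33]) (.l [M 165])) (.n (.l [M 100]) .z)) (.n (.n .z (.l [M 196])) .z)))))) (.n (.n (.n
  (.n (.n .z (.n .z (.n (.l [M 104]) .z))) (.n (.n .z (.n .z (.l [M 212]))) (.n .z (.n .z (.l [M
  242]))))) (.n .z (.n (.n (.n (.l [M 28]) .z) .z) (.n .z (.n (.l [M 129]) .z))))) (.n (.n (.n (.n
  (.n (.l [M 6]) .z) (.n .z (.l [M 202]))) .z) .z) (.n (.n .z (.n (.n (.l [M 50]) .z) (.n .z (.l
  [M 239])))) (.n (.n (.n (.l [M 32]) .z) .z) .z)))) (.n (.n (.n (.n (.n (.n .z (.l [M 137])) .z)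
  (.n (.n (.l [M 38]) (.l [M 169])) .z)) (.n (.n (.n .z (.l [M 153])) .z) (.n (.n (.l [M 57]) .z)
  .z))) (.n (.n (.n (.n .z (.l [M 145])) (.n .z (.l [M 207]))) .z) (.n (.n (.n .z (.l [M 161]))
  (.n .z (.l [M 222]))) .z))) (.n (.n (.n (.n (.n (.l [M 9]) .z) .z) (.n (.n (.l [M 43]) .z) (.n
  (.l [M 109]) .z))) (.n (.n (.n .z (.l [M 157])) (.n (.l [M 93]) (.l [M 218]))) .z)) (.n (.n (.n
  (.n .z (.l [M 150])) (.n (.l [M 85]) .z)) .z) (.n (.n .z (.n (.l [M 101]) (.l [M 227]))) .z)))))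

def y1 : T :=
.n (.n (.n (.n (.n (.n .z (.n (.n (.l [P 29]) (.l [P 154])) (.n (.l [P 90]) .z))) (.n (.n (.n .z
  (.l [P 138])) (.n .z (.l [P 204]))) (.n .z (.n .z (.l [P 238]))))) (.n (.n .z (.n (.n .z (.l [P
  162])) (.n (.l [P 97]) .z))) (.n (.n (.n (.l [P 20]) (.l [P 146])) .z) .z))) (.n (.n (.n (.n .z
  (.n .z (.l [P 190]))) (.n .z (.n (.l [P 94]) .z))) (.n (.n .z (.n (.l [P 78]) (.l [P 209]))) (.n
  .z (.n (.l [P 110]) .z)))) (.n (.n .z (.n (.n (.l [P 40]) .z) (.n (.l [P 102]) .z))) (.n (.n (.n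
  (.l [P 25]) .z) (.n (.l [P 86]) .z)) .z)))) (.n (.n (.n .z (.n .z (.n (.n (.l [P 45]) .z) (.n .z
  (.l [P 241]))))) (.n (.n (.n (.n (.l [P 8]) .z) (.n .z (.l [P 197]))) .z) (.n (.n .z (.n .z (.l
  [P 215]))) .z))) (.n (.n (.n (.n (.n (.l [P 5]) .z) .z) (.n (.n (.l [P 35]) .z) .z)) (.n (.n (.n
  .z (.l [P 143])) .z) .z)) (.n .z (.n (.n .z (.n .z (.l [P 219]))) .z))))) (.n (.n (.n (.n (.n
  (.n (.n .z (.l [P 118, (121, .ofNat 2), P 123])) .z) (.n (.n (.l [P 30]) (.l [P 155])) .z)) (.n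
  (.n (.n .z (.l [P 139])) (.n (.l [P 74]) .z)) (.n (.n .z (.l [P 170])) .z))) (.n (.n (.n (.n (.l
  [P 7]) (.l [P 131])) (.n (.l [P 66]) .z)) (.n (.n .z (.l [P 163])) .z)) (.n (.n (.n .z (.l [P
  147])) (.n (.l [P 82]) (.l [P 214]))) (.n (.n (.l [P 51]) .z) (.n (.l [P 118]) .z))))) (.n (.n
  (.n .z (.n (.n (.l [P 34]) (.l [P 158])) (.n (.l [P 95]) .z))) (.n (.n .z (.n (.l [P 79]) (.l [P
  210]))) (.n (.n .z (.l [P 174])) .z))) (.n (.n (.n .z (.n (.l [P 70]) .z)) (.n (.n .z (.l [P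
  166])) (.n (.l [P 103]) .z))) (.n (.n (.n .z (.l [P 151])) (.n (.l [P 87]) .z)) .z)))) (.n (.n
  (.n (.n .z (.n .z (.n .z (.l [P 223])))) .z) (.n (.n .z (.n (.n (.l [P 39]) .z) .z)) .z)) (.n .z
  (.n (.n (.n .z (.n .z (.l [P 203]))) (.n .z (.n .z (.l [P 237])))) .z))))

def v1 : T :=
.n (.n (.n (.n (.n (.n .z (.n (.n (.l [M 29]) (.l [M 154])) (.n (.l [M 90]) .z))) (.n (.n (.n .z
  (.l [M 138])) (.n .z (.l [M 204]))) (.n .z (.n .z (.l [M 238]))))) (.n (.n .z (.n (.n .z (.l [M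
  162])) (.n (.l [M 97]) .z))) (.n (.n (.n (.l [M 20]) (.l [M 146])) .z) .z))) (.n (.n (.n (.n .z
  (.n .z (.l [M 190]))) (.n .z (.n (.l [M 94]) .z))) (.n (.n .z (.n (.l [M 78]) (.l [M 209]))) (.n
  .z (.n (.l [M 110]) .z)))) (.n (.n .z (.n (.n (.l [M 40]) .z) (.n (.l [M 102]) .z))) (.n (.n (.n
  (.l [M 25]) .z) (.n (.l [M 86]) .z)) .z)))) (.n (.n (.n .z (.n .z (.n (.n (.l [M 45]) .z) (.n .z
  (.l [M 241]))))) (.n (.n (.n (.n (.l [M 8]) .z) (.n .z (.l [M 197]))) .z) (.n (.n .z (.n .z (.l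
  [M 215]))) .z))) (.n (.n (.n (.n (.n (.l [M 5]) .z) .z) (.n (.n (.l [M 35]) .z) .z)) (.n (.n (.n
  .z (.l [M 143])) .z) .z)) (.n .z (.n (.n .z (.n .z (.l [M 219]))) .z))))) (.n (.n (.n (.n (.n
  (.n (.n .z (.l [P 118, (121, .negSucc 1), M 123])) .z) (.n (.n (.l [M 30]) (.l [M 155])) .z))
  (.n (.n (.n .z (.l [M 139])) (.n (.l [M 74]) .z)) (.n (.n .z (.l [M 170])) .z))) (.n (.n (.n (.n
  (.l [M 7]) (.l [M 131])) (.n (.l [M 66]) .z)) (.n (.n .z (.l [M 163])) .z)) (.n (.n (.n .z (.l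
  [M 147])) (.n (.l [M 82]) (.l [M 214]))) (.n (.n (.l [M 51]) .z) (.n (.l [M 118]) .z))))) (.n
  (.n (.n .z (.n (.n (.l [M 34]) (.l [M 158])) (.n (.l [M 95]) .z))) (.n (.n .z (.n (.l [M 79])
  (.l [M 210]))) (.n (.n .z (.l [M 174])) .z))) (.n (.n (.n .z (.n (.l [M 70]) .z)) (.n (.n .z (.l
  [M 166])) (.n (.l [M 103]) .z))) (.n (.n (.n .z (.l [M 151])) (.n (.l [M 87]) .z)) .z)))) (.n
  (.n (.n (.n .z (.n .z (.n .z (.l [M 223])))) .z) (.n (.n .z (.n (.n (.l [M 39]) .z) .z)) .z))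
  (.n .z (.n (.n (.n .z (.n .z (.l [M 203]))) (.n .z (.n .z (.l [M 237])))) .z))))

def e2 : T :=
.n (.n (.n (.n (.n (.n (.n (.n .z (.l [P 136])) .z) .z) (.n .z (.n (.n (.l [P 53]) .z) (.n .z (.l
  [P 242]))))) (.n (.n (.n .z (.n .z (.l [P 205]))) .z) (.n (.n .z (.n .z (.l [P 220]))) (.n (.n
  (.l [P 61]) .z) .z)))) (.n (.n (.n .z (.n (.n (.l [P 41]) (.l [P 171])) .z)) (.n .z (.n (.n .z
  (.l [P 185])) .z))) (.n (.n (.n (.n (.l [P 14]) .z) (.n (.l [P 83]) .z)) (.n (.n .z (.l [P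
  178])) .z)) .z))) (.n (.n (.n (.n (.n .z (.n .z (.l [P 199]))) (.n .z (.n .z (.l [P 229])))) (.n
  (.n (.n (.l [P 21]) .z) .z) .z)) (.n (.n .z (.n (.n (.l [P 47]) .z) .z)) (.n .z (.n (.n .z (.l
  [P 191])) (.n (.l [P 130]) .z))))) (.n (.n (.n (.n (.n (.l [P 9]) .z) (.n (.l [P 78]) .z)) (.n
  .z (.n .z (.l [P 232])))) (.n (.n (.n (.l [P 26]) .z) .z) .z)) (.n (.n (.n .z (.n .z (.l [P
  211]))) (.n .z (.n .z (.l [P 241])))) (.n .z (.n (.n (.l [P 67]) .z) .z)))))) (.n (.n (.n (.n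
  (.n (.n .z (.n .z (.l [P 198]))) (.n (.n .z (.l [P 168])) .z)) (.n (.n (.n .z (.l [P 152])) .z)
  (.n (.n (.l [P 54]) .z) .z))) (.n (.n (.n (.n .z (.l [P 144])) .z) (.n (.n .z (.l [P 177])) (.n
  .z (.l [P 235])))) (.n (.n (.n .z (.l [P 160])) .z) .z))) (.n (.n (.n (.n (.n (.l [P 7]) .z) (.n
  (.l [P 75]) .z)) (.n .z (.n (.l [P 108]) .z))) (.n (.n .z (.n (.l [P 92]) .z)) (.n .z (.n (.l [P
  120, (122, .ofNat 2), P 123]) .z)))) (.n (.n (.n .z (.n (.l [P 84]) .z)) (.n .z (.n (.l [P 116])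
  .z))) (.n (.n .z (.n (.l [P 100]) (.l [P 225]))) .z)))) (.n (.n (.n (.n (.n (.n .z (.l [P 138]))
  .z) (.n (.n .z (.l [P 170])) .z)) (.n (.n (.n .z (.l [P 154])) .z) (.n (.n .z (.l [P 184]))
  .z))) (.n (.n (.n (.n .z (.l [P 146])) .z) .z) (.n (.n (.n (.l [P 31]) (.l [P 162])) .z) (.n (.n
  .z (.l [P 192])) .z)))) (.n (.n (.n .z (.n .z (.n (.l [P 110]) .z))) (.n (.n .z (.n (.l [P 94])
  .z)) (.n (.n (.l [P 60]) .z) .z))) (.n (.n (.n (.n (.l [P 17]) .z) (.n (.l [P 86]) .z)) (.n .z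
  (.n (.l [P 119]) .z))) (.n (.n .z (.n (.l [P 102]) .z)) (.n (.n (.l [P 68]) .z) .z))))))

def f2 : T :=
.n (.n (.n (.n (.n (.n (.n .z (.n .z (.l [P 187]))) (.n (.n .z (.l [P 153])) .z)) (.n (.n (.n .z
  (.l [P 137])) .z) .z)) (.n (.n (.n (.n .z (.l [P 128])) .z) (.n (.n .z (.l [P 161])) (.n .z (.l
  [P 230])))) (.n (.n (.n .z (.l [P 145])) .z) (.n (.n .z (.l [P 179])) .z)))) (.n (.n (.n (.n .z
  (.n (.l [P 63]) .z)) (.n .z (.n (.l [P 93]) .z))) (.n (.n .z (.n (.l [P 77]) .z)) (.n .z (.n (.l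
  [P 109]) .z)))) (.n (.n .z (.n .z (.n (.l [P 101]) .z))) (.n (.n .z (.n (.l [P 85]) (.l [P
  216]))) (.n (.n (.l [P 55]) .z) .z))))) (.n (.n (.n (.n (.n (.n .z (.l [P 120, (122, .ofNat 2),
  P 123])) .z) (.n (.n .z (.l [P 155])) .z)) (.n (.n (.n .z (.l [P 139])) .z) (.n (.n .z (.l [P
  172])) (.n .z (.l [P 240]))))) (.n (.n (.n (.n .z (.l [P 131])) .z) (.n (.n .z (.l [P 163]))
  .z)) (.n (.n (.n (.l [P 22]) (.l [P 147])) .z) (.n .z (.n (.l [P 117]) .z))))) (.n (.n (.n (.n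
  .z (.n .z (.l [P 193]))) (.n .z (.n (.l [P 95]) .z))) (.n (.n .z (.n (.l [P 79]) .z)) (.n (.n
  (.l [P 49]) .z) .z))) (.n (.n (.n (.n (.l [P 12]) .z) (.n (.l [P 70]) .z)) (.n .z (.n (.l [P
  103]) .z))) (.n (.n .z (.n (.l [P 87]) .z)) .z))))) (.n (.n (.n (.n (.n .z (.n .z (.n .z (.l [P
  221])))) (.n (.n (.n (.l [P 15]) .z) .z) (.n (.n .z (.l [P 169])) (.n .z (.l [P 238]))))) (.n
  (.n (.n (.n (.l [P 6]) .z) .z) (.n (.n (.l [P 36]) .z) .z)) (.n .z (.n (.n .z (.l [P 180]))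
  .z)))) (.n (.n (.n .z (.n .z (.n .z (.l [P 226])))) (.n (.n (.n (.l [P 18]) .z) .z) (.n (.n (.l
  [P 48]) .z) .z))) (.n (.n (.n .z (.n .z (.l [P 200]))) .z) (.n .z (.n (.n (.l [P 56]) .z)
  .z))))) (.n (.n (.n (.n (.n .z (.n (.l [P 62]) .z)) .z) (.n (.n .z (.n (.l [P 76]) (.l [P
  206]))) .z)) (.n (.n (.n .z (.n (.l [P 69]) .z)) (.n (.n .z (.l [P 164])) (.n .z (.l [P 233]))))
  .z)) (.n (.n (.n (.n (.n (.l [P 5]) .z) (.n .z (.l [P 194]))) .z) (.n .z (.n .z (.n (.l [P 111])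
  .z)))) (.n (.n .z (.n (.n (.l [P 42]) .z) .z)) (.n (.n (.n (.l [P 27]) .z) .z) (.n (.n .z (.l [P
  186])) .z))))))

def h2 : T :=
.n (.n (.n (.n (.n (.n (.n (.n .z (.l [P 128])) (.n .z (.l [M 192]))) (.n (.n .z (.l [M 160]))
  .z)) (.n (.n (.n .z (.l [M 144])) .z) (.n (.n (.l [P 48]) .z) (.n .z (.l [P 240]))))) (.n (.n
  (.n (.n .z (.l [M 136])) (.n .z (.l [P 200]))) (.n (.n .z (.l [M 168])) (.n .z (.l [M 232]))))
  (.n (.n (.n .z (.l [M 152])) (.n .z (.l [P 216]))) (.n (.n (.l [P 56]) (.l [M 184])) .z)))) (.n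
  (.n (.n (.n .z (.n (.l [M 68]) .z)) (.n (.n (.l [P 36]) (.l [P 164])) (.n (.l [M 100]) .z))) (.n
  (.n .z (.n (.l [M 84]) .z)) (.n (.n .z (.l [P 180])) (.n (.l [M 116]) .z)))) (.n (.n (.n (.n (.l
  [P 12]) .z) (.n (.l [P 76]) .z)) (.n (.n .z (.l [P 172])) (.n (.l [M 108]) .z))) (.n (.n .z (.n
  (.l [M 92]) (.l [M 220]))) (.n (.n (.l [M 60]) .z) .z))))) (.n (.n (.n (.n (.n (.n .z (.l [(130,
  .negSucc 1)])) (.n .z (.l [P 194]))) (.n (.n .z (.l [M 162])) (.n .z (.l [P 226])))) (.n (.n (.n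
  (.l [P 18]) (.l [M 146])) .z) (.n (.n .z (.l [M 178])) (.n .z (.l [M 242]))))) (.n (.n (.n (.n
  .z (.l [M 138])) .z) (.n (.n (.l [P 42]) (.l [M 170])) .z)) (.n (.n (.n (.l [M 26]) (.l [M
  154])) .z) (.n (.n .z (.l [P 186])) .z)))) (.n (.n (.n (.n (.n (.l [P 6]) .z) (.n (.l [P 70])
  (.l [M 198]))) (.n .z (.n (.l [M 102]) (.l [P 230])))) (.n (.n (.n (.l [P 22]) .z) (.n (.l [M
  86]) .z)) (.n (.n (.l [M 54]) .z) .z))) (.n (.n (.n (.n (.l [M 14]) .z) (.n (.l [M 78]) (.l [P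
  206]))) (.n .z (.n (.l [M 110]) (.l [P 238])))) (.n (.n .z (.n (.l [M 94]) .z)) (.n (.n (.l [P
  62]) .z) .z)))))) (.n (.n (.n (.n (.n (.n .z (.n .z (.l [P 193]))) (.n (.n .z (.l [P 161])) (.n
  .z (.l [M 225])))) (.n (.n (.n (.l [M 17]) (.l [P 145])) .z) (.n (.n (.l [P 49]) (.l [M 177]))
  (.n .z (.l [M 241]))))) (.n (.n (.n (.n (.l [M 9]) (.l [P 137])) .z) (.n (.n (.l [M 41]) (.l [P
  169])) (.n .z (.l [P 233])))) (.n (.n (.n .z (.l [P 153])) .z) (.n (.n .z (.l [M 185])) .z))))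
  (.n (.n (.n (.n (.n (.l [P 5]) .z) (.n (.l [P 69]) .z)) (.n .z (.n (.l [P 101]) (.l [M 229]))))
  (.n (.n (.n (.l [M 21]) .z) (.n (.l [P 85]) .z)) (.n (.n (.l [M 53]) .z) (.n (.l [(117, .ofNat
  2)]) .z)))) (.n (.n (.n .z (.n (.l [P 77]) (.l [M 205]))) (.n .z (.n (.l [P 109]) .z))) (.n (.n
  .z (.n (.l [P 93]) (.l [P 221]))) (.n (.n (.l [M 61]) .z) .z))))) (.n (.n (.n (.n (.n (.n .z (.l
  [P 131])) (.n (.l [M 67]) .z)) (.n (.n .z (.l [P 163])) .z)) (.n (.n (.n .z (.l [P 147])) (.n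
  (.l [M 83]) (.l [M 211]))) (.n (.n .z (.l [P 179])) .z))) (.n (.n (.n (.n .z (.l [P 139])) (.n
  (.l [M 75]) .z)) (.n (.n .z (.l [M 171])) (.n .z (.l [M 235])))) (.n (.n (.n (.l [P 27]) (.l [P
  155])) .z) (.n (.n .z (.l [P 187])) .z)))) (.n (.n (.n (.n (.n (.l [M 7]) .z) (.n .z (.l [M
  199]))) (.n .z (.n (.l [P 103]) .z))) (.n (.n .z (.n (.l [P 87]) .z)) (.n (.n (.l [P 55]) .z)
  (.n (.l [M 119]) .z)))) (.n (.n (.n (.n (.l [P 15]) .z) (.n (.l [P 79]) .z)) (.n (.n (.l [M 47])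
  .z) (.n (.l [P 111]) .z))) (.n (.n (.n (.l [M 31]) .z) (.n (.l [P 95]) .z)) (.n (.n (.l [P 63])
  (.l [M 191])) .z))))))

def x2 : T :=
.n (.n (.n (.n (.n (.n (.n (.n .z (.l [P 136])) .z) .z) (.n .z (.n (.n (.l [P 53]) .z) (.n .z (.l
  [P 242]))))) (.n (.n (.n .z (.n .z (.l [P 205]))) .z) (.n (.n .z (.n .z (.l [P 220]))) (.n (.n
  (.l [P 61]) .z) .z)))) (.n (.n (.n .z (.n (.n (.l [P 41]) (.l [P 171])) .z)) (.n .z (.n (.n .z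
  (.l [P 185])) .z))) (.n (.n (.n (.n (.l [P 14]) .z) (.n (.l [P 83]) .z)) (.n (.n .z (.l [P
  178])) .z)) .z))) (.n (.n (.n (.n (.n .z (.n .z (.l [P 199]))) (.n .z (.n .z (.l [P 229])))) (.n
  (.n (.n (.l [P 21]) .z) .z) .z)) (.n (.n .z (.n (.n (.l [P 47]) .z) .z)) (.n .z (.n (.n .z (.l
  [P 191])) (.n (.l [P 130]) .z))))) (.n (.n (.n (.n (.n (.l [P 9]) .z) (.n (.l [P 78]) .z)) (.n
  .z (.n .z (.l [P 232])))) (.n (.n (.n (.l [P 26]) .z) .z) .z)) (.n (.n (.n .z (.n .z (.l [P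
  211]))) (.n .z (.n .z (.l [P 241])))) (.n .z (.n (.n (.l [P 67]) .z) .z)))))) (.n (.n (.n (.n
  (.n (.n .z (.n .z (.l [P 198]))) (.n (.n .z (.l [P 168])) .z)) (.n (.n (.n .z (.l [P 152])) .z)
  (.n (.n (.l [P 54]) .z) .z))) (.n (.n (.n (.n .z (.l [P 144])) .z) (.n (.n .z (.l [P 177])) (.n
  .z (.l [P 235])))) (.n (.n (.n .z (.l [P 160])) .z) .z))) (.n (.n (.n (.n (.n (.l [P 7]) .z) (.n
  (.l [P 75]) .z)) (.n .z (.n (.l [P 108]) .z))) (.n (.n .z (.n (.l [P 92]) .z)) (.n .z (.n (.l [P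
  120, (122, .ofNat 2), P 123, P 130]) .z)))) (.n (.n (.n .z (.n (.l [P 84]) .z)) (.n .z (.n (.l
  [P 116]) .z))) (.n (.n .z (.n (.l [P 100]) (.l [P 225]))) .z)))) (.n (.n (.n (.n (.n (.n .z (.l
  [P 138])) .z) (.n (.n .z (.l [P 170])) .z)) (.n (.n (.n .z (.l [P 154])) .z) (.n (.n .z (.l [P
  184])) .z))) (.n (.n (.n (.n .z (.l [P 146])) .z) .z) (.n (.n (.n (.l [P 31]) (.l [P 162])) .z)
  (.n (.n .z (.l [P 192])) .z)))) (.n (.n (.n .z (.n .z (.n (.l [P 110]) .z))) (.n (.n .z (.n (.l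
  [P 94]) .z)) (.n (.n (.l [P 60]) .z) .z))) (.n (.n (.n (.n (.l [P 17]) .z) (.n (.l [P 86]) .z))
  (.n .z (.n (.l [P 119]) .z))) (.n (.n .z (.n (.l [P 102]) .z)) (.n (.n (.l [P 68]) .z) .z))))))

def u2 : T :=
.n (.n (.n (.n (.n (.n (.n (.n .z (.l [M 136])) .z) .z) (.n .z (.n (.n (.l [M 53]) .z) (.n .z (.l
  [M 242]))))) (.n (.n (.n .z (.n .z (.l [M 205]))) .z) (.n (.n .z (.n .z (.l [M 220]))) (.n (.n
  (.l [M 61]) .z) .z)))) (.n (.n (.n .z (.n (.n (.l [M 41]) (.l [M 171])) .z)) (.n .z (.n (.n .z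
  (.l [M 185])) .z))) (.n (.n (.n (.n (.l [M 14]) .z) (.n (.l [M 83]) .z)) (.n (.n .z (.l [M
  178])) .z)) .z))) (.n (.n (.n (.n (.n .z (.n .z (.l [M 199]))) (.n .z (.n .z (.l [M 229])))) (.n
  (.n (.n (.l [M 21]) .z) .z) .z)) (.n (.n .z (.n (.n (.l [M 47]) .z) .z)) (.n .z (.n (.n .z (.l
  [M 191])) (.n (.l [M 130]) .z))))) (.n (.n (.n (.n (.n (.l [M 9]) .z) (.n (.l [M 78]) .z)) (.n
  .z (.n .z (.l [M 232])))) (.n (.n (.n (.l [M 26]) .z) .z) .z)) (.n (.n (.n .z (.n .z (.l [M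
  211]))) (.n .z (.n .z (.l [M 241])))) (.n .z (.n (.n (.l [M 67]) .z) .z)))))) (.n (.n (.n (.n
  (.n (.n .z (.n .z (.l [M 198]))) (.n (.n .z (.l [M 168])) .z)) (.n (.n (.n .z (.l [M 152])) .z)
  (.n (.n (.l [M 54]) .z) .z))) (.n (.n (.n (.n .z (.l [M 144])) .z) (.n (.n .z (.l [M 177])) (.n
  .z (.l [M 235])))) (.n (.n (.n .z (.l [M 160])) .z) .z))) (.n (.n (.n (.n (.n (.l [M 7]) .z) (.n
  (.l [M 75]) .z)) (.n .z (.n (.l [M 108]) .z))) (.n (.n .z (.n (.l [M 92]) .z)) (.n .z (.n (.l [M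
  120, (122, .negSucc 1), M 123, P 130]) .z)))) (.n (.n (.n .z (.n (.l [M 84]) .z)) (.n .z (.n (.l
  [M 116]) .z))) (.n (.n .z (.n (.l [M 100]) (.l [M 225]))) .z)))) (.n (.n (.n (.n (.n (.n .z (.l
  [M 138])) .z) (.n (.n .z (.l [M 170])) .z)) (.n (.n (.n .z (.l [M 154])) .z) (.n (.n .z (.l [M
  184])) .z))) (.n (.n (.n (.n .z (.l [M 146])) .z) .z) (.n (.n (.n (.l [M 31]) (.l [M 162])) .z)
  (.n (.n .z (.l [M 192])) .z)))) (.n (.n (.n .z (.n .z (.n (.l [M 110]) .z))) (.n (.n .z (.n (.l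
  [M 94]) .z)) (.n (.n (.l [M 60]) .z) .z))) (.n (.n (.n (.n (.l [M 17]) .z) (.n (.l [M 86]) .z))
  (.n .z (.n (.l [M 119]) .z))) (.n (.n .z (.n (.l [M 102]) .z)) (.n (.n (.l [M 68]) .z) .z))))))

def y2 : T :=
.n (.n (.n (.n (.n (.n (.n .z (.n .z (.l [P 187]))) (.n (.n .z (.l [P 153])) .z)) (.n (.n (.n .z
  (.l [P 137])) .z) .z)) (.n (.n (.n (.n .z (.l [P 128])) .z) (.n (.n .z (.l [P 161])) (.n .z (.l
  [P 230])))) (.n (.n (.n .z (.l [P 145])) .z) (.n (.n .z (.l [P 179])) .z)))) (.n (.n (.n (.n .z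
  (.n (.l [P 63]) .z)) (.n .z (.n (.l [P 93]) .z))) (.n (.n .z (.n (.l [P 77]) .z)) (.n .z (.n (.l
  [P 109]) .z)))) (.n (.n .z (.n .z (.n (.l [P 101]) .z))) (.n (.n .z (.n (.l [P 85]) (.l [P
  216]))) (.n (.n (.l [P 55]) .z) .z))))) (.n (.n (.n (.n (.n (.n .z (.l [P 117, P 120, (122,
  .ofNat 2), P 123])) .z) (.n (.n .z (.l [P 155])) .z)) (.n (.n (.n .z (.l [P 139])) .z) (.n (.n
  .z (.l [P 172])) (.n .z (.l [P 240]))))) (.n (.n (.n (.n .z (.l [P 131])) .z) (.n (.n .z (.l [P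
  163])) .z)) (.n (.n (.n (.l [P 22]) (.l [P 147])) .z) (.n .z (.n (.l [P 117]) .z))))) (.n (.n
  (.n (.n .z (.n .z (.l [P 193]))) (.n .z (.n (.l [P 95]) .z))) (.n (.n .z (.n (.l [P 79]) .z))
  (.n (.n (.l [P 49]) .z) .z))) (.n (.n (.n (.n (.l [P 12]) .z) (.n (.l [P 70]) .z)) (.n .z (.n
  (.l [P 103]) .z))) (.n (.n .z (.n (.l [P 87]) .z)) .z))))) (.n (.n (.n (.n (.n .z (.n .z (.n .z
  (.l [P 221])))) (.n (.n (.n (.l [P 15]) .z) .z) (.n (.n .z (.l [P 169])) (.n .z (.l [P 238])))))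
  (.n (.n (.n (.n (.l [P 6]) .z) .z) (.n (.n (.l [P 36]) .z) .z)) (.n .z (.n (.n .z (.l [P 180]))
  .z)))) (.n (.n (.n .z (.n .z (.n .z (.l [P 226])))) (.n (.n (.n (.l [P 18]) .z) .z) (.n (.n (.l
  [P 48]) .z) .z))) (.n (.n (.n .z (.n .z (.l [P 200]))) .z) (.n .z (.n (.n (.l [P 56]) .z)
  .z))))) (.n (.n (.n (.n (.n .z (.n (.l [P 62]) .z)) .z) (.n (.n .z (.n (.l [P 76]) (.l [P
  206]))) .z)) (.n (.n (.n .z (.n (.l [P 69]) .z)) (.n (.n .z (.l [P 164])) (.n .z (.l [P 233]))))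
  .z)) (.n (.n (.n (.n (.n (.l [P 5]) .z) (.n .z (.l [P 194]))) .z) (.n .z (.n .z (.n (.l [P 111])
  .z)))) (.n (.n .z (.n (.n (.l [P 42]) .z) .z)) (.n (.n (.n (.l [P 27]) .z) .z) (.n (.n .z (.l [P
  186])) .z))))))

def v2 : T :=
.n (.n (.n (.n (.n (.n (.n .z (.n .z (.l [M 187]))) (.n (.n .z (.l [M 153])) .z)) (.n (.n (.n .z
  (.l [M 137])) .z) .z)) (.n (.n (.n (.n .z (.l [M 128])) .z) (.n (.n .z (.l [M 161])) (.n .z (.l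
  [M 230])))) (.n (.n (.n .z (.l [M 145])) .z) (.n (.n .z (.l [M 179])) .z)))) (.n (.n (.n (.n .z
  (.n (.l [M 63]) .z)) (.n .z (.n (.l [M 93]) .z))) (.n (.n .z (.n (.l [M 77]) .z)) (.n .z (.n (.l
  [M 109]) .z)))) (.n (.n .z (.n .z (.n (.l [M 101]) .z))) (.n (.n .z (.n (.l [M 85]) (.l [M
  216]))) (.n (.n (.l [M 55]) .z) .z))))) (.n (.n (.n (.n (.n (.n .z (.l [P 117, M 120, (122,
  .negSucc 1), M 123])) .z) (.n (.n .z (.l [M 155])) .z)) (.n (.n (.n .z (.l [M 139])) .z) (.n (.n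
  .z (.l [M 172])) (.n .z (.l [M 240]))))) (.n (.n (.n (.n .z (.l [M 131])) .z) (.n (.n .z (.l [M
  163])) .z)) (.n (.n (.n (.l [M 22]) (.l [M 147])) .z) (.n .z (.n (.l [M 117]) .z))))) (.n (.n
  (.n (.n .z (.n .z (.l [M 193]))) (.n .z (.n (.l [M 95]) .z))) (.n (.n .z (.n (.l [M 79]) .z))
  (.n (.n (.l [M 49]) .z) .z))) (.n (.n (.n (.n (.l [M 12]) .z) (.n (.l [M 70]) .z)) (.n .z (.n
  (.l [M 103]) .z))) (.n (.n .z (.n (.l [M 87]) .z)) .z))))) (.n (.n (.n (.n (.n .z (.n .z (.n .z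
  (.l [M 221])))) (.n (.n (.n (.l [M 15]) .z) .z) (.n (.n .z (.l [M 169])) (.n .z (.l [M 238])))))
  (.n (.n (.n (.n (.l [M 6]) .z) .z) (.n (.n (.l [M 36]) .z) .z)) (.n .z (.n (.n .z (.l [M 180]))
  .z)))) (.n (.n (.n .z (.n .z (.n .z (.l [M 226])))) (.n (.n (.n (.l [M 18]) .z) .z) (.n (.n (.l
  [M 48]) .z) .z))) (.n (.n (.n .z (.n .z (.l [M 200]))) .z) (.n .z (.n (.n (.l [M 56]) .z)
  .z))))) (.n (.n (.n (.n (.n .z (.n (.l [M 62]) .z)) .z) (.n (.n .z (.n (.l [M 76]) (.l [M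
  206]))) .z)) (.n (.n (.n .z (.n (.l [M 69]) .z)) (.n (.n .z (.l [M 164])) (.n .z (.l [M 233]))))
  .z)) (.n (.n (.n (.n (.n (.l [M 5]) .z) (.n .z (.l [M 194]))) .z) (.n .z (.n .z (.n (.l [M 111])
  .z)))) (.n (.n .z (.n (.n (.l [M 42]) .z) .z)) (.n (.n (.n (.l [M 27]) .z) .z) (.n (.n .z (.l [M
  186])) .z))))))

def e3 : T :=
.n (.n (.n (.n (.n (.n (.n .z (.n (.l [P 70]) .z)) (.n (.n (.l [P 36]) (.l [P 167])) .z)) (.n (.n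
  .z (.n (.l [P 87]) .z)) .z)) (.n (.n (.n (.n .z (.l [P 143])) .z) (.n (.n .z (.l [P 176])) (.n
  (.l [P 111]) .z))) (.n (.n (.n .z (.l [P 159])) (.n (.l [P 95]) .z)) (.n (.n .z (.l [P 190]))
  .z)))) (.n (.n (.n (.n (.n (.l [P 5]) (.l [P 139])) .z) (.n .z (.n (.l [P 107]) .z))) (.n (.n
  (.n .z (.l [P 155])) (.n (.l [P 91]) (.l [P 216]))) (.n .z (.n (.l [P 121, P 122, (123, .ofNat
  2), P 124]) .z)))) (.n (.n (.n (.n .z (.l [P 147])) .z) (.n (.n (.l [P 49]) .z) (.n (.l [P 115])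
  (.l [P 238])))) (.n (.n (.n .z (.l [P 163])) (.n (.l [P 99]) .z)) (.n (.n (.l [P 66]) .z)
  .z))))) (.n (.n (.n (.n (.n (.n .z (.l [P 138])) .z) .z) (.n .z (.n (.n (.l [P 56]) .z) (.n .z
  (.l [P 243]))))) (.n (.n (.n (.n (.l [P 12]) .z) .z) .z) (.n (.n (.n (.l [P 30]) .z) .z) .z)))
  (.n (.n (.n (.n .z (.n .z (.l [P 203]))) .z) .z) (.n (.n .z (.n .z (.n (.l [P 118]) .z))) (.n
  (.n .z (.n .z (.l [P 226]))) .z))))) (.n (.n (.n (.n (.n (.n (.n .z (.l [P 137])) .z) .z) (.n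
  (.n (.n (.l [P 20]) .z) .z) (.n (.n .z (.l [P 183])) .z))) (.n (.n (.n (.n (.l [P 11]) .z) .z)
  .z) (.n (.n .z (.n .z (.l [P 221]))) (.n (.n (.l [P 63]) .z) .z)))) (.n (.n (.n .z (.n (.n (.l
  [P 42]) (.l [P 172])) .z)) (.n (.n (.n (.l [P 25]) .z) .z) (.n (.n .z (.l [P 187])) .z))) (.n
  (.n (.n .z (.n .z (.l [P 210]))) (.n (.n .z (.l [P 180])) (.n (.l [P 117]) .z))) (.n (.n (.n .z
  (.l [P 164])) .z) .z)))) (.n (.n (.n (.n (.n .z (.n (.l [P 74]) .z)) (.n .z (.n .z (.l [P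
  230])))) (.n (.n .z (.n (.l [P 90]) (.l [P 215]))) .z)) (.n (.n (.n .z (.n (.l [P 82]) .z)) (.n
  (.n (.l [P 48]) .z) (.n .z (.l [P 237])))) (.n .z (.n .z (.n (.l [P 131]) .z))))) (.n (.n (.n
  (.n .z (.n (.l [P 79]) (.l [P 204]))) .z) .z) (.n .z (.n (.n (.n (.l [P 35]) .z) .z) (.n (.n .z
  (.l [P 197])) .z))))))

def f3 : T :=
.n (.n (.n (.n (.n .z (.n .z (.n (.n (.l [P 43]) (.l [P 168])) .z))) (.n .z (.n (.n .z (.n .z (.l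
  [P 212]))) (.n (.n (.l [P 50]) .z) .z)))) (.n (.n (.n .z (.n (.n (.l [P 32]) (.l [P 157])) .z))
  (.n (.n (.n (.l [P 17]) .z) .z) (.n (.n .z (.l [P 173])) .z))) (.n (.n (.n (.n (.l [P 10]) .z)
  (.n .z (.l [P 199]))) (.n (.n .z (.l [P 165])) .z)) .z))) (.n (.n (.n (.n (.n .z (.n (.l [P 60])
  .z)) (.n .z (.n .z (.l [P 222])))) (.n (.n .z (.n (.l [P 75]) (.l [P 205]))) .z)) (.n (.n (.n
  (.n .z (.l [P 130])) (.n (.l [P 67]) .z)) (.n (.n (.l [P 37]) .z) .z)) (.n (.n .z (.n (.l [P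
  83]) .z)) .z))) (.n (.n (.n (.n .z (.n (.l [P 64]) .z)) (.n .z (.n .z (.l [P 227])))) (.n .z (.n
  .z (.n (.l [P 110]) .z)))) (.n (.n .z (.n .z (.n .z (.l [P 236])))) (.n (.n (.n (.l [P 26]) .z)
  .z) (.n (.n .z (.l [P 184])) .z)))))) (.n (.n (.n (.n .z (.n .z (.n (.n (.l [P 44]) .z) .z)))
  (.n (.n (.n (.n .z (.l [P 129])) .z) .z) (.n (.n (.n (.l [P 21]) .z) .z) .z))) (.n (.n (.n (.n
  (.n (.l [P 4]) .z) (.n .z (.l [P 191]))) .z) (.n .z (.n .z (.n (.l [P 109]) .z)))) (.n (.n .z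
  (.n .z (.n .z (.l [P 235])))) (.n (.n .z (.n .z (.l [P 217]))) .z)))) (.n (.n (.n (.n (.n (.n .z
  (.l [P 121, P 122, (123, .ofNat 2), P 124])) .z) (.n (.n (.l [P 31]) (.l [P 156])) (.n (.l [P
  92]) .z))) (.n (.n (.n .z (.l [P 140])) .z) (.n .z (.n (.l [P 108]) (.l [P 242]))))) (.n (.n (.n
  (.n (.l [P 9]) (.l [P 132])) (.n .z (.l [P 198]))) (.n .z (.n (.l [P 100]) .z))) (.n (.n (.n .z
  (.l [P 148])) (.n (.l [P 84]) .z)) (.n (.n .z (.l [P 181])) (.n (.l [P 116]) .z))))) (.n (.n (.n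
  .z (.n (.n .z (.l [P 160])) .z)) (.n (.n .z (.n (.l [P 80]) (.l [P 211]))) (.n (.n .z (.l [P
  177])) .z))) (.n (.n (.n (.n .z (.l [P 136])) (.n (.l [P 71]) .z)) (.n .z (.n (.l [P 104]) .z)))
  (.n (.n (.n .z (.l [P 152])) (.n (.l [P 88]) .z)) (.n (.n (.l [P 57]) .z) .z))))))

def h3 : T :=
.n (.n (.n (.n (.n (.n (.n .z (.n (.l [P 64]) .z)) (.n (.n (.l [P 32]) (.l [P 160])) .z)) (.n (.n
  .z (.n (.l [P 80]) .z)) (.n (.n (.l [M 48]) (.l [M 176])) .z))) (.n (.n (.n (.n .z (.l [P 136]))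
  .z) (.n (.n .z (.l [P 168])) (.n (.l [P 104]) .z))) (.n (.n (.n .z (.l [P 152])) (.n (.l [P 88])
  (.l [M 216]))) (.n (.n (.l [M 56]) (.l [P 184])) .z)))) (.n (.n (.n (.n (.n (.l [P 4]) (.l [P
  132])) .z) (.n (.n (.l [M 36]) (.l [M 164])) (.n (.l [P 100]) .z))) (.n (.n (.n (.l [M 20]) (.l
  [P 148])) (.n (.l [P 84]) (.l [P 212]))) (.n (.n .z (.l [M 180])) (.n (.l [(116, .ofNat 2)])
  .z)))) (.n (.n (.n (.n (.l [M 12]) (.l [P 140])) (.n .z (.l [M 204]))) (.n (.n (.l [P 44]) (.l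
  [M 172])) (.n (.l [P 108]) (.l [P 236])))) (.n (.n (.n .z (.l [P 156])) (.n (.l [P 92]) .z)) (.n
  (.n (.l [P 60]) .z) .z))))) (.n (.n (.n (.n (.n (.n .z (.l [P 130])) (.n (.l [M 66]) .z)) (.n .z
  (.n .z (.l [M 226])))) (.n (.n .z (.n (.l [M 82]) (.l [M 210]))) (.n (.n (.l [P 50]) .z) (.n .z
  (.l [P 242]))))) (.n (.n (.n (.n (.l [P 10]) (.l [M 138])) (.n (.l [M 74]) .z)) (.n (.n (.l [M
  42]) .z) .z)) (.n (.n (.n (.l [P 26]) .z) (.n (.l [M 90]) .z)) .z))) (.n (.n (.n (.n .z (.n (.l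
  [M 70]) (.l [P 198]))) (.n .z (.n .z (.l [M 230])))) (.n .z (.n .z (.n (.l [M 118]) .z)))) (.n
  (.n .z (.n .z (.n (.l [P 110]) (.l [M 238])))) (.n (.n (.n (.l [M 30]) .z) (.n .z (.l [P 222])))
  (.n (.n .z (.l [M 190])) .z)))))) (.n (.n (.n (.n (.n (.n (.n .z (.l [P 129])) .z) .z) (.n (.n
  (.n (.l [P 17]) .z) .z) (.n (.n (.l [M 49]) (.l [P 177])) .z))) (.n (.n (.n (.n (.l [P 9]) (.l
  [M 137])) .z) .z) (.n (.n (.n (.l [M 25]) .z) (.n .z (.l [P 217]))) (.n (.n (.l [P 57]) .z)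
  .z)))) (.n (.n (.n (.n (.n (.l [M 5]) .z) (.n .z (.l [M 197]))) (.n (.n (.l [P 37]) (.l [P
  165])) .z)) (.n (.n (.n (.l [P 21]) .z) .z) (.n (.n .z (.l [P 181])) (.n (.l [M 117]) .z)))) (.n
  (.n (.n .z (.n .z (.l [P 205]))) (.n (.n .z (.l [P 173])) (.n (.l [P 109]) (.l [M 237])))) (.n
  (.n (.n .z (.l [P 157])) (.n .z (.l [M 221]))) .z)))) (.n (.n (.n (.n (.n (.n .z (.l [(131,
  .negSucc 1)])) (.n (.l [P 67]) .z)) (.n (.n (.l [M 35]) (.l [M 163])) (.n (.l [M 99]) (.l [P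
  227])))) (.n (.n (.n .z (.l [M 147])) (.n (.l [P 83]) (.l [P 211]))) (.n .z (.n (.l [M 115]) (.l
  [M 243]))))) (.n (.n (.n (.n (.l [M 11]) (.l [M 139])) (.n (.l [P 75]) (.l [M 203]))) (.n (.n
  (.l [P 43]) .z) (.n (.l [M 107]) (.l [P 235])))) (.n (.n (.n .z (.l [M 155])) (.n (.l [M 91])
  .z)) (.n (.n .z (.l [M 187])) .z)))) (.n (.n (.n (.n .z (.n (.l [P 71]) (.l [P 199]))) (.n (.n
  .z (.l [M 167])) .z)) (.n (.n .z (.n (.l [M 87]) (.l [M 215]))) (.n (.n .z (.l [M 183])) .z)))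
  (.n (.n (.n (.n .z (.l [M 143])) (.n (.l [M 79]) .z)) (.n .z (.n (.l [M 111]) .z))) (.n (.n (.n
  (.l [P 31]) (.l [M 159])) (.n (.l [M 95]) .z)) (.n (.n (.l [M 63]) (.l [P 191])) .z))))))

def x3 : T :=
.n (.n (.n (.n (.n (.n (.n .z (.n (.l [P 70]) .z)) (.n (.n (.l [P 36]) (.l [P 167])) .z)) (.n (.n
  .z (.n (.l [P 87]) .z)) .z)) (.n (.n (.n (.n .z (.l [P 143])) .z) (.n (.n .z (.l [P 176])) (.n
  (.l [P 111]) .z))) (.n (.n (.n .z (.l [P 159])) (.n (.l [P 95]) .z)) (.n (.n .z (.l [P 190]))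
  .z)))) (.n (.n (.n (.n (.n (.l [P 5]) (.l [P 139])) .z) (.n .z (.n (.l [P 107]) .z))) (.n (.n
  (.n .z (.l [P 155])) (.n (.l [P 91]) (.l [P 216]))) (.n .z (.n (.l [P 121, P 122, (123, .ofNat
  2), P 124, P 131]) .z)))) (.n (.n (.n (.n .z (.l [P 147])) .z) (.n (.n (.l [P 49]) .z) (.n (.l
  [P 115]) (.l [P 238])))) (.n (.n (.n .z (.l [P 163])) (.n (.l [P 99]) .z)) (.n (.n (.l [P 66])
  .z) .z))))) (.n (.n (.n (.n (.n (.n .z (.l [P 138])) .z) .z) (.n .z (.n (.n (.l [P 56]) .z) (.n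
  .z (.l [P 243]))))) (.n (.n (.n (.n (.l [P 12]) .z) .z) .z) (.n (.n (.n (.l [P 30]) .z) .z)
  .z))) (.n (.n (.n (.n .z (.n .z (.l [P 203]))) .z) .z) (.n (.n .z (.n .z (.n (.l [P 118]) .z)))
  (.n (.n .z (.n .z (.l [P 226]))) .z))))) (.n (.n (.n (.n (.n (.n (.n .z (.l [P 137])) .z) .z)
  (.n (.n (.n (.l [P 20]) .z) .z) (.n (.n .z (.l [P 183])) .z))) (.n (.n (.n (.n (.l [P 11]) .z)
  .z) .z) (.n (.n .z (.n .z (.l [P 221]))) (.n (.n (.l [P 63]) .z) .z)))) (.n (.n (.n .z (.n (.n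
  (.l [P 42]) (.l [P 172])) .z)) (.n (.n (.n (.l [P 25]) .z) .z) (.n (.n .z (.l [P 187])) .z)))
  (.n (.n (.n .z (.n .z (.l [P 210]))) (.n (.n .z (.l [P 180])) (.n (.l [P 117]) .z))) (.n (.n (.n
  .z (.l [P 164])) .z) .z)))) (.n (.n (.n (.n (.n .z (.n (.l [P 74]) .z)) (.n .z (.n .z (.l [P
  230])))) (.n (.n .z (.n (.l [P 90]) (.l [P 215]))) .z)) (.n (.n (.n .z (.n (.l [P 82]) .z)) (.n
  (.n (.l [P 48]) .z) (.n .z (.l [P 237])))) (.n .z (.n .z (.n (.l [P 131]) .z))))) (.n (.n (.n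
  (.n .z (.n (.l [P 79]) (.l [P 204]))) .z) .z) (.n .z (.n (.n (.n (.l [P 35]) .z) .z) (.n (.n .z
  (.l [P 197])) .z))))))

def u3 : T :=
.n (.n (.n (.n (.n (.n (.n .z (.n (.l [M 70]) .z)) (.n (.n (.l [M 36]) (.l [M 167])) .z)) (.n (.n
  .z (.n (.l [M 87]) .z)) .z)) (.n (.n (.n (.n .z (.l [M 143])) .z) (.n (.n .z (.l [M 176])) (.n
  (.l [M 111]) .z))) (.n (.n (.n .z (.l [M 159])) (.n (.l [M 95]) .z)) (.n (.n .z (.l [M 190]))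
  .z)))) (.n (.n (.n (.n (.n (.l [M 5]) (.l [M 139])) .z) (.n .z (.n (.l [M 107]) .z))) (.n (.n
  (.n .z (.l [M 155])) (.n (.l [M 91]) (.l [M 216]))) (.n .z (.n (.l [M 121, M 122, (123, .negSucc
  1), M 124, P 131]) .z)))) (.n (.n (.n (.n .z (.l [M 147])) .z) (.n (.n (.l [M 49]) .z) (.n (.l
  [M 115]) (.l [M 238])))) (.n (.n (.n .z (.l [M 163])) (.n (.l [M 99]) .z)) (.n (.n (.l [M 66])
  .z) .z))))) (.n (.n (.n (.n (.n (.n .z (.l [M 138])) .z) .z) (.n .z (.n (.n (.l [M 56]) .z) (.n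
  .z (.l [M 243]))))) (.n (.n (.n (.n (.l [M 12]) .z) .z) .z) (.n (.n (.n (.l [M 30]) .z) .z)
  .z))) (.n (.n (.n (.n .z (.n .z (.l [M 203]))) .z) .z) (.n (.n .z (.n .z (.n (.l [M 118]) .z)))
  (.n (.n .z (.n .z (.l [M 226]))) .z))))) (.n (.n (.n (.n (.n (.n (.n .z (.l [M 137])) .z) .z)
  (.n (.n (.n (.l [M 20]) .z) .z) (.n (.n .z (.l [M 183])) .z))) (.n (.n (.n (.n (.l [M 11]) .z)
  .z) .z) (.n (.n .z (.n .z (.l [M 221]))) (.n (.n (.l [M 63]) .z) .z)))) (.n (.n (.n .z (.n (.n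
  (.l [M 42]) (.l [M 172])) .z)) (.n (.n (.n (.l [M 25]) .z) .z) (.n (.n .z (.l [M 187])) .z)))
  (.n (.n (.n .z (.n .z (.l [M 210]))) (.n (.n .z (.l [M 180])) (.n (.l [M 117]) .z))) (.n (.n (.n
  .z (.l [M 164])) .z) .z)))) (.n (.n (.n (.n (.n .z (.n (.l [M 74]) .z)) (.n .z (.n .z (.l [M
  230])))) (.n (.n .z (.n (.l [M 90]) (.l [M 215]))) .z)) (.n (.n (.n .z (.n (.l [M 82]) .z)) (.n
  (.n (.l [M 48]) .z) (.n .z (.l [M 237])))) (.n .z (.n .z (.n (.l [M 131]) .z))))) (.n (.n (.n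
  (.n .z (.n (.l [M 79]) (.l [M 204]))) .z) .z) (.n .z (.n (.n (.n (.l [M 35]) .z) .z) (.n (.n .z
  (.l [M 197])) .z))))))

def y3 : T :=
.n (.n (.n (.n (.n .z (.n .z (.n (.n (.l [P 43]) (.l [P 168])) .z))) (.n .z (.n (.n .z (.n .z (.l
  [P 212]))) (.n (.n (.l [P 50]) .z) .z)))) (.n (.n (.n .z (.n (.n (.l [P 32]) (.l [P 157])) .z))
  (.n (.n (.n (.l [P 17]) .z) .z) (.n (.n .z (.l [P 173])) .z))) (.n (.n (.n (.n (.l [P 10]) .z)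
  (.n .z (.l [P 199]))) (.n (.n .z (.l [P 165])) .z)) .z))) (.n (.n (.n (.n (.n .z (.n (.l [P 60])
  .z)) (.n .z (.n .z (.l [P 222])))) (.n (.n .z (.n (.l [P 75]) (.l [P 205]))) .z)) (.n (.n (.n
  (.n .z (.l [P 130])) (.n (.l [P 67]) .z)) (.n (.n (.l [P 37]) .z) .z)) (.n (.n .z (.n (.l [P
  83]) .z)) .z))) (.n (.n (.n (.n .z (.n (.l [P 64]) .z)) (.n .z (.n .z (.l [P 227])))) (.n .z (.n
  .z (.n (.l [P 110]) .z)))) (.n (.n .z (.n .z (.n .z (.l [P 236])))) (.n (.n (.n (.l [P 26]) .z)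
  .z) (.n (.n .z (.l [P 184])) .z)))))) (.n (.n (.n (.n .z (.n .z (.n (.n (.l [P 44]) .z) .z)))
  (.n (.n (.n (.n .z (.l [P 129])) .z) .z) (.n (.n (.n (.l [P 21]) .z) .z) .z))) (.n (.n (.n (.n
  (.n (.l [P 4]) .z) (.n .z (.l [P 191]))) .z) (.n .z (.n .z (.n (.l [P 109]) .z)))) (.n (.n .z
  (.n .z (.n .z (.l [P 235])))) (.n (.n .z (.n .z (.l [P 217]))) .z)))) (.n (.n (.n (.n (.n (.n .z
  (.l [P 116, P 121, P 122, (123, .ofNat 2), P 124])) .z) (.n (.n (.l [P 31]) (.l [P 156])) (.n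
  (.l [P 92]) .z))) (.n (.n (.n .z (.l [P 140])) .z) (.n .z (.n (.l [P 108]) (.l [P 242]))))) (.n
  (.n (.n (.n (.l [P 9]) (.l [P 132])) (.n .z (.l [P 198]))) (.n .z (.n (.l [P 100]) .z))) (.n (.n
  (.n .z (.l [P 148])) (.n (.l [P 84]) .z)) (.n (.n .z (.l [P 181])) (.n (.l [P 116]) .z))))) (.n
  (.n (.n .z (.n (.n .z (.l [P 160])) .z)) (.n (.n .z (.n (.l [P 80]) (.l [P 211]))) (.n (.n .z
  (.l [P 177])) .z))) (.n (.n (.n (.n .z (.l [P 136])) (.n (.l [P 71]) .z)) (.n .z (.n (.l [P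
  104]) .z))) (.n (.n (.n .z (.l [P 152])) (.n (.l [P 88]) .z)) (.n (.n (.l [P 57]) .z) .z))))))

def v3 : T :=
.n (.n (.n (.n (.n .z (.n .z (.n (.n (.l [M 43]) (.l [M 168])) .z))) (.n .z (.n (.n .z (.n .z (.l
  [M 212]))) (.n (.n (.l [M 50]) .z) .z)))) (.n (.n (.n .z (.n (.n (.l [M 32]) (.l [M 157])) .z))
  (.n (.n (.n (.l [M 17]) .z) .z) (.n (.n .z (.l [M 173])) .z))) (.n (.n (.n (.n (.l [M 10]) .z)
  (.n .z (.l [M 199]))) (.n (.n .z (.l [M 165])) .z)) .z))) (.n (.n (.n (.n (.n .z (.n (.l [M 60])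
  .z)) (.n .z (.n .z (.l [M 222])))) (.n (.n .z (.n (.l [M 75]) (.l [M 205]))) .z)) (.n (.n (.n
  (.n .z (.l [M 130])) (.n (.l [M 67]) .z)) (.n (.n (.l [M 37]) .z) .z)) (.n (.n .z (.n (.l [M
  83]) .z)) .z))) (.n (.n (.n (.n .z (.n (.l [M 64]) .z)) (.n .z (.n .z (.l [M 227])))) (.n .z (.n
  .z (.n (.l [M 110]) .z)))) (.n (.n .z (.n .z (.n .z (.l [M 236])))) (.n (.n (.n (.l [M 26]) .z)
  .z) (.n (.n .z (.l [M 184])) .z)))))) (.n (.n (.n (.n .z (.n .z (.n (.n (.l [M 44]) .z) .z)))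
  (.n (.n (.n (.n .z (.l [M 129])) .z) .z) (.n (.n (.n (.l [M 21]) .z) .z) .z))) (.n (.n (.n (.n
  (.n (.l [M 4]) .z) (.n .z (.l [M 191]))) .z) (.n .z (.n .z (.n (.l [M 109]) .z)))) (.n (.n .z
  (.n .z (.n .z (.l [M 235])))) (.n (.n .z (.n .z (.l [M 217]))) .z)))) (.n (.n (.n (.n (.n (.n .z
  (.l [P 116, M 121, M 122, (123, .negSucc 1), M 124])) .z) (.n (.n (.l [M 31]) (.l [M 156])) (.n
  (.l [M 92]) .z))) (.n (.n (.n .z (.l [M 140])) .z) (.n .z (.n (.l [M 108]) (.l [M 242]))))) (.n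
  (.n (.n (.n (.l [M 9]) (.l [M 132])) (.n .z (.l [M 198]))) (.n .z (.n (.l [M 100]) .z))) (.n (.n
  (.n .z (.l [M 148])) (.n (.l [M 84]) .z)) (.n (.n .z (.l [M 181])) (.n (.l [M 116]) .z))))) (.n
  (.n (.n .z (.n (.n .z (.l [M 160])) .z)) (.n (.n .z (.n (.l [M 80]) (.l [M 211]))) (.n (.n .z
  (.l [M 177])) .z))) (.n (.n (.n (.n .z (.l [M 136])) (.n (.l [M 71]) .z)) (.n .z (.n (.l [M
  104]) .z))) (.n (.n (.n .z (.l [M 152])) (.n (.l [M 88]) .z)) (.n (.n (.l [M 57]) .z) .z))))))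

def e4 : T :=
.n (.n (.n (.n (.n (.n (.n .z (.n .z (.l [P 199]))) (.n .z (.n (.l [P 104]) .z))) (.n (.n (.n .z
  (.l [P 152])) .z) (.n (.n (.l [P 55]) (.l [P 182])) .z))) (.n (.n (.n .z (.n (.l [P 80]) .z))
  (.n .z (.n .z (.l [P 235])))) (.n .z (.n (.n (.l [P 62]) .z) .z)))) (.n (.n (.n (.n .z (.n (.l
  [P 75]) .z)) .z) (.n .z (.n (.n .z (.l [P 186])) .z))) (.n (.n (.n (.n (.l [P 15]) .z) .z) (.n
  (.n .z (.l [P 179])) (.n (.l [P 116]) .z))) (.n (.n (.n (.l [P 32]) .z) .z) (.n .z (.n (.l [P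
  132]) .z)))))) (.n (.n (.n .z (.n (.n .z (.n .z (.l [P 214]))) (.n (.n .z (.l [P 184])) .z)))
  (.n (.n (.n (.n .z (.l [P 146])) .z) (.n .z (.n .z (.l [P 236])))) (.n (.n .z (.n (.l [P 97])
  (.l [P 222]))) (.n (.n (.l [P 64]) .z) .z)))) (.n (.n (.n .z (.n (.n (.l [P 44]) .z) (.n (.l [P
  110]) (.l [P 233])))) (.n (.n (.n .z (.l [P 157])) .z) .z)) (.n (.n (.n (.n (.l [P 17]) .z) .z)
  .z) (.n (.n (.n (.l [P 34]) .z) .z) .z))))) (.n (.n (.n (.n (.n (.n .z (.n (.l [P 71]) .z)) (.n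
  (.n (.l [P 37]) .z) .z)) .z) (.n (.n (.n (.n .z (.l [P 145])) .z) .z) (.n (.n (.n (.l [P 29])
  .z) .z) (.n (.n .z (.l [P 191])) .z)))) (.n (.n (.n (.n (.n .z (.l [P 140])) .z) (.n .z (.n (.l
  [P 109]) .z))) (.n (.n (.n .z (.l [P 156])) (.n .z (.l [P 217]))) (.n (.n (.l [P 60]) .z) .z)))
  (.n (.n (.n (.n .z (.l [P 148])) .z) .z) (.n .z (.n (.n (.l [P 67]) .z) .z))))) (.n (.n (.n (.n
  (.n (.n (.l [P 4]) (.l [P 139])) .z) (.n (.n (.l [P 40]) .z) (.n (.l [P 106]) .z))) (.n .z (.n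
  .z (.n (.l [P 123, (124, .ofNat 2), P 125]) (.l [P 244]))))) (.n (.n (.n (.n (.l [P 13]) .z) (.n
  .z (.l [P 209]))) (.n .z (.n (.l [P 114]) .z))) (.n (.n .z (.n (.l [P 98]) .z)) (.n (.n .z (.l
  [P 194])) .z)))) (.n (.n (.n .z (.n (.n .z (.l [P 175])) .z)) (.n (.n .z (.n .z (.l [P 219])))
  (.n (.n .z (.l [P 189])) .z))) (.n (.n (.n (.n .z (.l [P 151])) (.n .z (.l [P 212]))) .z) (.n
  (.n .z (.n (.l [P 103]) .z)) (.n (.n (.l [P 69]) .z) .z))))))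

def f4 : T :=
.n (.n (.n (.n (.n (.n (.n .z (.n (.l [P 58]) .z)) (.n (.n (.l [P 28]) .z) .z)) (.n (.n .z (.n (.l
  [P 72]) .z)) .z)) (.n (.n .z (.n (.n (.l [P 35]) .z) (.n (.l [P 96]) .z))) (.n (.n (.n .z (.l [P
  144])) .z) (.n (.n .z (.l [P 178])) .z)))) (.n (.n (.n (.n (.n (.l [P 3]) (.l [P 123, (124,
  .ofNat 2), P 125])) .z) .z) (.n (.n (.n .z (.l [P 141])) (.n .z (.l [P 207]))) (.n .z (.n (.l [P
  108]) (.l [P 243]))))) (.n (.n (.n (.n .z (.l [P 133])) .z) (.n (.n (.l [P 38]) .z) (.n .z (.l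
  [P 234])))) (.n (.n (.n .z (.l [P 149])) .z) (.n (.n (.l [P 53]) .z) (.n (.l [P 115]) .z))))))
  (.n (.n (.n (.n (.n .z (.n .z (.l [P 187]))) (.n (.n (.l [P 30]) .z) (.n (.l [P 91]) .z))) (.n
  (.n (.n .z (.l [P 138])) .z) (.n .z (.n (.l [P 107]) .z)))) (.n (.n .z (.n .z (.n (.l [P 99])
  .z))) (.n .z (.n (.n .z (.l [P 180])) .z)))) (.n (.n .z (.n (.n .z (.n .z (.l [P 210]))) (.n (.n
  .z (.l [P 176])) .z))) (.n (.n .z (.n .z (.n (.l [P 102]) .z))) (.n (.n .z (.n .z (.l [P 218])))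
  (.n (.n (.l [P 56]) .z) .z)))))) (.n (.n (.n (.n (.n .z (.n .z (.n (.l [P 90]) .z))) (.n (.n (.n
  (.l [P 14]) (.l [P 137])) (.n .z (.l [P 203]))) .z)) (.n (.n .z (.n .z (.n .z (.l [P 230]))))
  (.n (.n .z (.n .z (.l [P 213]))) .z))) (.n (.n (.n (.n .z (.n (.l [P 63]) .z)) (.n (.n (.l [P
  33]) .z) .z)) .z) (.n (.n (.n (.n (.l [P 11]) .z) .z) (.n .z (.n (.l [P 101]) .z))) (.n (.n (.n
  (.l [P 25]) (.l [P 150])) .z) (.n (.n .z (.l [P 183])) .z))))) (.n (.n (.n (.n (.n .z (.n (.l [P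
  61]) .z)) .z) (.n .z (.n (.n .z (.l [P 172])) .z))) (.n (.n (.n (.n .z (.l [P 131])) (.n (.l [P
  68]) .z)) (.n .z (.n .z (.l [P 232])))) (.n (.n .z (.n .z (.l [P 215]))) .z))) (.n (.n (.n (.n
  .z (.n (.l [P 65]) (.l [P 192]))) (.n .z (.n (.l [P 95]) .z))) (.n (.n (.n .z (.l [P 143])) .z)
  (.n (.n (.l [P 48]) .z) .z))) (.n (.n (.n (.n (.l [P 12]) .z) .z) (.n (.n .z (.l [P 167])) .z))
  (.n .z (.n (.n .z (.l [P 185])) .z))))))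

def h4 : T :=
.n (.n (.n (.n (.n (.n (.n .z (.n (.l [M 64]) (.l [P 192]))) (.n (.n (.l [M 32]) .z) (.n (.l [P
  96]) .z))) (.n (.n (.n .z (.l [P 144])) (.n (.l [M 80]) .z)) (.n (.n (.l [P 48]) (.l [P 176]))
  .z))) (.n (.n (.n .z (.n (.l [P 72]) .z)) (.n (.n (.l [M 40]) .z) (.n (.l [M 104]) (.l [P
  232])))) (.n (.n (.n .z (.l [M 152])) .z) (.n (.n (.l [P 56]) (.l [M 184])) .z)))) (.n (.n (.n
  (.n (.n (.l [M 4]) (.l [(132, .negSucc 1)])) (.n (.l [P 68]) .z)) .z) (.n (.n (.n .z (.l [M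
  148])) (.n .z (.l [M 212]))) (.n (.n .z (.l [P 180])) (.n (.l [M 116]) (.l [M 244]))))) (.n (.n
  (.n (.n (.l [P 12]) (.l [M 140])) .z) (.n (.n (.l [M 44]) (.l [P 172])) (.n (.l [P 108]) (.l [M
  236])))) (.n (.n (.n (.l [P 28]) (.l [M 156])) .z) (.n (.n (.l [M 60]) .z) .z))))) (.n (.n (.n
  (.n (.n .z (.n .z (.l [M 194]))) (.n (.n (.l [M 34]) .z) (.n (.l [M 98]) .z))) (.n (.n (.n .z
  (.l [M 146])) (.n .z (.l [P 210]))) (.n (.n .z (.l [P 178])) (.n (.l [M 114]) .z)))) (.n (.n (.n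
  (.n .z (.l [P 138])) .z) (.n .z (.n (.l [M 106]) (.l [P 234])))) (.n (.n .z (.n (.l [P 90]) (.l
  [P 218]))) (.n (.n (.l [P 58]) (.l [M 186])) .z)))) (.n (.n (.n .z (.n (.n (.l [P 38]) .z) (.n
  (.l [P 102]) (.l [P 230])))) (.n (.n (.n .z (.l [P 150])) (.n .z (.l [M 214]))) (.n (.n .z (.l
  [M 182])) .z))) (.n (.n (.n (.n (.l [P 14]) .z) .z) (.n .z (.n (.l [M 110]) .z))) (.n (.n (.n
  (.l [P 30]) .z) (.n .z (.l [M 222]))) (.n (.n (.l [M 62]) .z) .z)))))) (.n (.n (.n (.n (.n (.n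
  .z (.n (.l [P 65]) .z)) (.n (.n (.l [P 33]) .z) (.n (.l [M 97]) .z))) (.n (.n (.n (.l [M 17])
  (.l [M 145])) (.n .z (.l [M 209]))) .z)) (.n (.n (.n (.n .z (.l [P 137])) .z) (.n .z (.n .z (.l
  [M 233])))) (.n (.n (.n (.l [P 25]) .z) (.n .z (.l [M 217]))) (.n (.n .z (.l [P 185])) .z))))
  (.n (.n (.n (.n (.n .z (.l [P 133])) (.n (.l [M 69]) .z)) (.n (.n (.l [M 37]) .z) (.n (.l [P
  101]) .z))) (.n (.n (.n .z (.l [P 149])) (.n .z (.l [P 213]))) (.n (.n (.l [P 53]) .z) .z))) (.n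
  (.n (.n (.n (.l [M 13]) (.l [P 141])) .z) (.n .z (.n (.l [M 109]) .z))) (.n (.n (.n (.l [M 29])
  (.l [M 157])) .z) (.n (.n (.l [P 61]) (.l [M 189])) .z))))) (.n (.n (.n (.n (.n (.n (.l [P 3])
  (.l [P 131])) (.n (.l [M 67]) .z)) (.n (.n (.l [P 35]) .z) (.n (.l [P 99]) .z))) (.n .z (.n (.n
  .z (.l [M 179])) (.n (.l [(115, .ofNat 2)]) (.l [P 243]))))) (.n (.n (.n (.n (.l [P 11]) (.l [M
  139])) (.n (.l [M 75]) (.l [P 203]))) (.n .z (.n (.l [P 107]) (.l [M 235])))) (.n (.n .z (.n (.l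
  [P 91]) (.l [M 219]))) (.n (.n .z (.l [P 187])) .z)))) (.n (.n (.n (.n .z (.n (.l [M 71]) (.l [M
  199]))) (.n (.n .z (.l [P 167])) (.n (.l [M 103]) .z))) (.n (.n (.n .z (.l [M 151])) (.n .z (.l
  [P 215]))) (.n (.n (.l [M 55]) (.l [P 183])) .z))) (.n (.n (.n (.n (.l [M 15]) (.l [P 143])) (.n
  .z (.l [P 207]))) (.n (.n .z (.l [M 175])) .z)) (.n (.n .z (.n (.l [P 95]) .z)) (.n (.n (.l [P
  63]) (.l [M 191])) .z))))))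

def x4 : T :=
.n (.n (.n (.n (.n (.n (.n .z (.n .z (.l [P 199]))) (.n .z (.n (.l [P 104]) .z))) (.n (.n (.n .z
  (.l [P 152])) .z) (.n (.n (.l [P 55]) (.l [P 182])) .z))) (.n (.n (.n .z (.n (.l [P 80]) .z))
  (.n .z (.n .z (.l [P 235])))) (.n .z (.n (.n (.l [P 62]) .z) .z)))) (.n (.n (.n (.n .z (.n (.l
  [P 75]) .z)) .z) (.n .z (.n (.n .z (.l [P 186])) .z))) (.n (.n (.n (.n (.l [P 15]) .z) .z) (.n
  (.n .z (.l [P 179])) (.n (.l [P 116]) .z))) (.n (.n (.n (.l [P 32]) .z) .z) (.n .z (.n (.l [P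
  132]) .z)))))) (.n (.n (.n .z (.n (.n .z (.n .z (.l [P 214]))) (.n (.n .z (.l [P 184])) .z)))
  (.n (.n (.n (.n .z (.l [P 146])) .z) (.n .z (.n .z (.l [P 236])))) (.n (.n .z (.n (.l [P 97])
  (.l [P 222]))) (.n (.n (.l [P 64]) .z) .z)))) (.n (.n (.n .z (.n (.n (.l [P 44]) .z) (.n (.l [P
  110]) (.l [P 233])))) (.n (.n (.n .z (.l [P 157])) .z) .z)) (.n (.n (.n (.n (.l [P 17]) .z) .z)
  .z) (.n (.n (.n (.l [P 34]) .z) .z) .z))))) (.n (.n (.n (.n (.n (.n .z (.n (.l [P 71]) .z)) (.n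
  (.n (.l [P 37]) .z) .z)) .z) (.n (.n (.n (.n .z (.l [P 145])) .z) .z) (.n (.n (.n (.l [P 29])
  .z) .z) (.n (.n .z (.l [P 191])) .z)))) (.n (.n (.n (.n (.n .z (.l [P 140])) .z) (.n .z (.n (.l
  [P 109]) .z))) (.n (.n (.n .z (.l [P 156])) (.n .z (.l [P 217]))) (.n (.n (.l [P 60]) .z) .z)))
  (.n (.n (.n (.n .z (.l [P 148])) .z) .z) (.n .z (.n (.n (.l [P 67]) .z) .z))))) (.n (.n (.n (.n
  (.n (.n (.l [P 4]) (.l [P 139])) .z) (.n (.n (.l [P 40]) .z) (.n (.l [P 106]) .z))) (.n .z (.n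
  .z (.n (.l [P 123, (124, .ofNat 2), P 125, P 132]) (.l [P 244]))))) (.n (.n (.n (.n (.l [P 13])
  .z) (.n .z (.l [P 209]))) (.n .z (.n (.l [P 114]) .z))) (.n (.n .z (.n (.l [P 98]) .z)) (.n (.n
  .z (.l [P 194])) .z)))) (.n (.n (.n .z (.n (.n .z (.l [P 175])) .z)) (.n (.n .z (.n .z (.l [P
  219]))) (.n (.n .z (.l [P 189])) .z))) (.n (.n (.n (.n .z (.l [P 151])) (.n .z (.l [P 212])))
  .z) (.n (.n .z (.n (.l [P 103]) .z)) (.n (.n (.l [P 69]) .z) .z))))))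

def u4 : T :=
.n (.n (.n (.n (.n (.n (.n .z (.n .z (.l [M 199]))) (.n .z (.n (.l [M 104]) .z))) (.n (.n (.n .z
  (.l [M 152])) .z) (.n (.n (.l [M 55]) (.l [M 182])) .z))) (.n (.n (.n .z (.n (.l [M 80]) .z))
  (.n .z (.n .z (.l [M 235])))) (.n .z (.n (.n (.l [M 62]) .z) .z)))) (.n (.n (.n (.n .z (.n (.l
  [M 75]) .z)) .z) (.n .z (.n (.n .z (.l [M 186])) .z))) (.n (.n (.n (.n (.l [M 15]) .z) .z) (.n
  (.n .z (.l [M 179])) (.n (.l [M 116]) .z))) (.n (.n (.n (.l [M 32]) .z) .z) (.n .z (.n (.l [M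
  132]) .z)))))) (.n (.n (.n .z (.n (.n .z (.n .z (.l [M 214]))) (.n (.n .z (.l [M 184])) .z)))
  (.n (.n (.n (.n .z (.l [M 146])) .z) (.n .z (.n .z (.l [M 236])))) (.n (.n .z (.n (.l [M 97])
  (.l [M 222]))) (.n (.n (.l [M 64]) .z) .z)))) (.n (.n (.n .z (.n (.n (.l [M 44]) .z) (.n (.l [M
  110]) (.l [M 233])))) (.n (.n (.n .z (.l [M 157])) .z) .z)) (.n (.n (.n (.n (.l [M 17]) .z) .z)
  .z) (.n (.n (.n (.l [M 34]) .z) .z) .z))))) (.n (.n (.n (.n (.n (.n .z (.n (.l [M 71]) .z)) (.n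
  (.n (.l [M 37]) .z) .z)) .z) (.n (.n (.n (.n .z (.l [M 145])) .z) .z) (.n (.n (.n (.l [M 29])
  .z) .z) (.n (.n .z (.l [M 191])) .z)))) (.n (.n (.n (.n (.n .z (.l [M 140])) .z) (.n .z (.n (.l
  [M 109]) .z))) (.n (.n (.n .z (.l [M 156])) (.n .z (.l [M 217]))) (.n (.n (.l [M 60]) .z) .z)))
  (.n (.n (.n (.n .z (.l [M 148])) .z) .z) (.n .z (.n (.n (.l [M 67]) .z) .z))))) (.n (.n (.n (.n
  (.n (.n (.l [M 4]) (.l [M 139])) .z) (.n (.n (.l [M 40]) .z) (.n (.l [M 106]) .z))) (.n .z (.n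
  .z (.n (.l [M 123, (124, .negSucc 1), M 125, P 132]) (.l [M 244]))))) (.n (.n (.n (.n (.l [M
  13]) .z) (.n .z (.l [M 209]))) (.n .z (.n (.l [M 114]) .z))) (.n (.n .z (.n (.l [M 98]) .z)) (.n
  (.n .z (.l [M 194])) .z)))) (.n (.n (.n .z (.n (.n .z (.l [M 175])) .z)) (.n (.n .z (.n .z (.l
  [M 219]))) (.n (.n .z (.l [M 189])) .z))) (.n (.n (.n (.n .z (.l [M 151])) (.n .z (.l [M 212])))
  .z) (.n (.n .z (.n (.l [M 103]) .z)) (.n (.n (.l [M 69]) .z) .z))))))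

def y4 : T :=
.n (.n (.n (.n (.n (.n (.n .z (.n (.l [P 58]) .z)) (.n (.n (.l [P 28]) .z) .z)) (.n (.n .z (.n (.l
  [P 72]) .z)) .z)) (.n (.n .z (.n (.n (.l [P 35]) .z) (.n (.l [P 96]) .z))) (.n (.n (.n .z (.l [P
  144])) .z) (.n (.n .z (.l [P 178])) .z)))) (.n (.n (.n (.n (.n (.l [P 3]) (.l [P 115, P 123,
  (124, .ofNat 2), P 125])) .z) .z) (.n (.n (.n .z (.l [P 141])) (.n .z (.l [P 207]))) (.n .z (.n
  (.l [P 108]) (.l [P 243]))))) (.n (.n (.n (.n .z (.l [P 133])) .z) (.n (.n (.l [P 38]) .z) (.n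
  .z (.l [P 234])))) (.n (.n (.n .z (.l [P 149])) .z) (.n (.n (.l [P 53]) .z) (.n (.l [P 115])
  .z)))))) (.n (.n (.n (.n (.n .z (.n .z (.l [P 187]))) (.n (.n (.l [P 30]) .z) (.n (.l [P 91])
  .z))) (.n (.n (.n .z (.l [P 138])) .z) (.n .z (.n (.l [P 107]) .z)))) (.n (.n .z (.n .z (.n (.l
  [P 99]) .z))) (.n .z (.n (.n .z (.l [P 180])) .z)))) (.n (.n .z (.n (.n .z (.n .z (.l [P 210])))
  (.n (.n .z (.l [P 176])) .z))) (.n (.n .z (.n .z (.n (.l [P 102]) .z))) (.n (.n .z (.n .z (.l [P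
  218]))) (.n (.n (.l [P 56]) .z) .z)))))) (.n (.n (.n (.n (.n .z (.n .z (.n (.l [P 90]) .z))) (.n
  (.n (.n (.l [P 14]) (.l [P 137])) (.n .z (.l [P 203]))) .z)) (.n (.n .z (.n .z (.n .z (.l [P
  230])))) (.n (.n .z (.n .z (.l [P 213]))) .z))) (.n (.n (.n (.n .z (.n (.l [P 63]) .z)) (.n (.n
  (.l [P 33]) .z) .z)) .z) (.n (.n (.n (.n (.l [P 11]) .z) .z) (.n .z (.n (.l [P 101]) .z))) (.n
  (.n (.n (.l [P 25]) (.l [P 150])) .z) (.n (.n .z (.l [P 183])) .z))))) (.n (.n (.n (.n (.n .z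
  (.n (.l [P 61]) .z)) .z) (.n .z (.n (.n .z (.l [P 172])) .z))) (.n (.n (.n (.n .z (.l [P 131]))
  (.n (.l [P 68]) .z)) (.n .z (.n .z (.l [P 232])))) (.n (.n .z (.n .z (.l [P 215]))) .z))) (.n
  (.n (.n (.n .z (.n (.l [P 65]) (.l [P 192]))) (.n .z (.n (.l [P 95]) .z))) (.n (.n (.n .z (.l [P
  143])) .z) (.n (.n (.l [P 48]) .z) .z))) (.n (.n (.n (.n (.l [P 12]) .z) .z) (.n (.n .z (.l [P
  167])) .z)) (.n .z (.n (.n .z (.l [P 185])) .z))))))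

def v4 : T :=
.n (.n (.n (.n (.n (.n (.n .z (.n (.l [M 58]) .z)) (.n (.n (.l [M 28]) .z) .z)) (.n (.n .z (.n (.l
  [M 72]) .z)) .z)) (.n (.n .z (.n (.n (.l [M 35]) .z) (.n (.l [M 96]) .z))) (.n (.n (.n .z (.l [M
  144])) .z) (.n (.n .z (.l [M 178])) .z)))) (.n (.n (.n (.n (.n (.l [M 3]) (.l [P 115, M 123,
  (124, .negSucc 1), M 125])) .z) .z) (.n (.n (.n .z (.l [M 141])) (.n .z (.l [M 207]))) (.n .z
  (.n (.l [M 108]) (.l [M 243]))))) (.n (.n (.n (.n .z (.l [M 133])) .z) (.n (.n (.l [M 38]) .z)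
  (.n .z (.l [M 234])))) (.n (.n (.n .z (.l [M 149])) .z) (.n (.n (.l [M 53]) .z) (.n (.l [M 115])
  .z)))))) (.n (.n (.n (.n (.n .z (.n .z (.l [M 187]))) (.n (.n (.l [M 30]) .z) (.n (.l [M 91])
  .z))) (.n (.n (.n .z (.l [M 138])) .z) (.n .z (.n (.l [M 107]) .z)))) (.n (.n .z (.n .z (.n (.l
  [M 99]) .z))) (.n .z (.n (.n .z (.l [M 180])) .z)))) (.n (.n .z (.n (.n .z (.n .z (.l [M 210])))
  (.n (.n .z (.l [M 176])) .z))) (.n (.n .z (.n .z (.n (.l [M 102]) .z))) (.n (.n .z (.n .z (.l [M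
  218]))) (.n (.n (.l [M 56]) .z) .z)))))) (.n (.n (.n (.n (.n .z (.n .z (.n (.l [M 90]) .z))) (.n
  (.n (.n (.l [M 14]) (.l [M 137])) (.n .z (.l [M 203]))) .z)) (.n (.n .z (.n .z (.n .z (.l [M
  230])))) (.n (.n .z (.n .z (.l [M 213]))) .z))) (.n (.n (.n (.n .z (.n (.l [M 63]) .z)) (.n (.n
  (.l [M 33]) .z) .z)) .z) (.n (.n (.n (.n (.l [M 11]) .z) .z) (.n .z (.n (.l [M 101]) .z))) (.n
  (.n (.n (.l [M 25]) (.l [M 150])) .z) (.n (.n .z (.l [M 183])) .z))))) (.n (.n (.n (.n (.n .z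
  (.n (.l [M 61]) .z)) .z) (.n .z (.n (.n .z (.l [M 172])) .z))) (.n (.n (.n (.n .z (.l [M 131]))
  (.n (.l [M 68]) .z)) (.n .z (.n .z (.l [M 232])))) (.n (.n .z (.n .z (.l [M 215]))) .z))) (.n
  (.n (.n (.n .z (.n (.l [M 65]) (.l [M 192]))) (.n .z (.n (.l [M 95]) .z))) (.n (.n (.n .z (.l [M
  143])) .z) (.n (.n (.l [M 48]) .z) .z))) (.n (.n (.n (.n (.l [M 12]) .z) .z) (.n (.n .z (.l [M
  167])) .z)) (.n .z (.n (.n .z (.l [M 185])) .z))))))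

def e5 : T :=
.n (.n (.n (.n (.n .z (.n (.n .z (.n (.l [P 88]) (.l [P 213]))) .z)) (.n (.n .z (.n (.n (.l [P
  45]) .z) .z)) (.n (.n (.n (.l [P 28]) (.l [P 160])) .z) .z))) (.n (.n (.n (.n (.n .z (.l [P
  140])) .z) (.n (.n .z (.l [P 172])) (.n (.l [P 108]) .z))) (.n (.n (.n (.l [P 25]) .z) .z) (.n
  (.n (.l [P 58]) .z) (.n .z (.l [P 245]))))) (.n (.n (.n .z (.n .z (.l [P 210]))) (.n (.n (.l [P
  50]) .z) .z)) .z))) (.n (.n (.n (.n (.n (.n (.l [P 3]) .z) (.n .z (.l [P 200]))) (.n (.n (.l [P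
  39]) .z) (.n (.l [P 105]) (.l [P 230])))) (.n (.n (.n .z (.l [P 154])) (.n (.l [P 90]) .z)) (.n
  .z (.n (.l [P 124, (125, .ofNat 2), P 126]) .z)))) (.n (.n (.n .z (.n .z (.l [P 207]))) (.n (.n
  (.l [P 48]) .z) (.n (.l [P 113]) .z))) (.n .z (.n (.n .z (.l [P 193])) .z)))) (.n (.n (.n (.n
  (.n .z (.l [P 141])) .z) .z) (.n .z (.n (.n (.l [P 61]) (.l [P 188])) .z))) (.n (.n (.n (.n .z
  (.l [P 149])) .z) .z) (.n (.n .z (.n (.l [P 102]) (.l [P 227]))) .z))))) (.n (.n (.n (.n .z (.n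
  (.n (.n (.l [P 21]) (.l [P 153])) .z) (.n (.n (.l [P 56]) .z) .z))) (.n .z (.n (.n .z (.n (.l [P
  96]) .z)) .z))) (.n (.n (.n (.n .z (.n (.l [P 76]) (.l [P 203]))) (.n (.n (.l [P 43]) .z) (.n .z
  (.l [P 232])))) .z) (.n (.n (.n (.n (.l [P 16]) .z) .z) .z) (.n (.n (.n .z (.l [P 165])) (.n (.l
  [P 101]) .z)) (.n (.n .z (.l [P 195])) (.n (.l [P 133]) .z)))))) (.n (.n .z (.n (.n (.n (.n .z
  (.l [P 147])) (.n (.l [P 83]) .z)) (.n (.n .z (.l [P 178])) (.n (.l [P 115]) .z))) (.n (.n .z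
  (.n .z (.l [P 223]))) (.n (.n (.l [P 65]) .z) .z)))) (.n (.n (.n (.n .z (.n .z (.l [P 205])))
  (.n .z (.n .z (.l [P 234])))) (.n (.n (.n .z (.l [P 158])) (.n (.l [P 95]) .z)) .z)) (.n (.n (.n
  (.n (.l [P 18]) .z) .z) (.n (.n (.l [P 53]) .z) .z)) (.n (.n (.n .z (.l [P 167])) .z) (.n (.n .z
  (.l [P 198])) .z))))))

def f5 : T :=
.n (.n (.n (.n (.n (.n .z (.n (.n .z (.l [P 152])) (.n (.l [P 89]) .z))) (.n (.n (.n (.l [P 13])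
  .z) .z) (.n (.n (.l [P 42]) .z) .z))) (.n (.n (.n .z (.n .z (.l [P 194]))) (.n .z (.n .z (.l [P
  229])))) (.n (.n .z (.n (.l [P 80]) .z)) (.n (.n (.l [P 49]) .z) .z)))) (.n .z (.n (.n (.n (.n
  .z (.l [P 132])) (.n (.l [P 69]) .z)) (.n (.n .z (.l [P 164])) (.n (.l [P 100]) .z))) (.n (.n
  (.n (.l [P 24]) .z) .z) (.n (.n .z (.l [P 182])) .z))))) (.n (.n (.n .z (.n (.n (.n (.l [P 15])
  .z) (.n .z (.l [P 204]))) (.n (.n (.l [P 44]) (.l [P 171])) .z))) (.n (.n .z (.n .z (.n .z (.l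
  [P 231])))) (.n (.n (.n .z (.l [P 146])) (.n (.l [P 82]) .z)) (.n (.n (.l [P 52]) .z) .z)))) (.n
  (.n (.n (.n .z (.n .z (.l [P 191]))) (.n .z (.n (.l [P 94]) (.l [P 226])))) .z) (.n .z (.n (.n
  (.n .z (.l [P 151])) .z) .z))))) (.n (.n (.n (.n (.n (.n .z (.n (.l [P 59]) (.l [P 186]))) .z)
  (.n .z (.n .z (.n (.l [P 106]) .z)))) (.n (.n .z (.n .z (.n (.l [P 98]) .z))) (.n (.n (.n (.l [P
  20]) (.l [P 145])) .z) .z))) (.n (.n (.n (.n (.n .z (.l [P 124, (125, .ofNat 2), P 126])) .z)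
  (.n (.n .z (.l [P 157])) (.n (.l [P 93]) .z))) (.n (.n (.n (.l [P 17]) (.l [P 142])) (.n .z (.l
  [P 208]))) (.n (.n (.l [P 47]) .z) (.n .z (.l [P 244]))))) (.n (.n (.n (.n .z (.l [P 134])) (.n
  .z (.l [P 199]))) (.n (.n (.l [P 40]) .z) .z)) (.n .z (.n (.n (.l [P 54]) .z) (.n (.l [P 114])
  .z)))))) (.n (.n (.n (.n (.n (.n (.l [P 2]) .z) (.n .z (.l [P 189]))) (.n .z (.n .z (.l [P
  222])))) (.n (.n (.n .z (.l [P 139])) (.n (.l [P 75]) .z)) (.n .z (.n (.l [P 107]) .z)))) (.n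
  (.n (.n .z (.n .z (.l [P 197]))) (.n (.n (.l [P 37]) .z) .z)) .z)) (.n (.n (.n .z (.n (.n (.l [P
  34]) (.l [P 159])) .z)) .z) (.n (.n (.n .z (.n .z (.l [P 202]))) .z) (.n (.n .z (.n (.l [P 87])
  (.l [P 219]))) .z)))))

def h5 : T :=
.n (.n (.n (.n (.n (.n .z (.n (.n .z (.l [M 160])) (.n (.l [M 96]) .z))) (.n (.n (.n (.l [M 16])
  .z) (.n (.l [P 80]) (.l [P 208]))) (.n (.n (.l [M 48]) .z) .z))) (.n (.n (.n .z (.n .z (.l [M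
  200]))) (.n (.n (.l [P 40]) .z) (.n .z (.l [M 232])))) (.n (.n (.n (.l [P 24]) (.l [P 152])) (.n
  (.l [M 88]) .z)) (.n (.n (.l [M 56]) .z) .z)))) (.n (.n (.n (.n (.n .z (.l [P 132])) .z) (.n (.n
  .z (.l [P 164])) (.n (.l [P 100]) .z))) (.n (.n (.n (.l [P 20]) .z) .z) (.n (.n (.l [P 52]) .z)
  (.n .z (.l [P 244]))))) (.n (.n (.n (.n .z (.l [M 140])) (.n (.l [M 76]) (.l [P 204]))) (.n (.n
  (.l [P 44]) (.l [M 172])) (.n (.l [M 108]) .z))) (.n (.n (.n (.l [M 28]) .z) .z) (.n (.n .z (.l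
  [M 188])) .z))))) (.n (.n (.n (.n (.n (.n (.l [P 2]) .z) (.n .z (.l [P 194]))) (.n (.n (.l [P
  34]) .z) (.n (.l [P 98]) (.l [P 226])))) (.n (.n (.n (.l [M 18]) (.l [P 146])) (.n (.l [P 82])
  (.l [M 210]))) (.n (.n (.l [M 50]) (.l [M 178])) (.n (.l [(114, .ofNat 2)]) .z)))) (.n (.n (.n
  .z (.n .z (.l [P 202]))) (.n (.n (.l [P 42]) .z) (.n (.l [P 106]) (.l [M 234])))) (.n (.n (.n .z
  (.l [M 154])) (.n (.l [M 90]) .z)) (.n (.n (.l [M 58]) (.l [P 186])) .z)))) (.n (.n (.n (.n (.n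
  .z (.l [P 134])) (.n .z (.l [M 198]))) (.n .z (.n (.l [M 102]) (.l [M 230])))) (.n .z (.n (.n
  (.l [P 54]) (.l [P 182])) .z))) (.n (.n (.n (.n .z (.l [P 142])) .z) .z) (.n (.n (.n .z (.l [M
  158])) (.n (.l [P 94]) (.l [P 222]))) .z))))) (.n (.n (.n (.n (.n (.n .z (.n (.l [M 65]) (.l [M
  193]))) .z) (.n (.n (.n (.l [P 17]) (.l [P 145])) .z) (.n (.n (.l [P 49]) .z) (.n (.l [M 113])
  .z)))) (.n (.n .z (.n .z (.n (.l [M 105]) .z))) (.n (.n (.n (.l [M 25]) (.l [M 153])) (.n (.l [P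
  89]) .z)) .z))) (.n (.n (.n (.n (.n .z (.l [(133, .negSucc 1)])) (.n (.l [P 69]) (.l [P 197])))
  (.n (.n (.l [P 37]) (.l [M 165])) (.n (.l [M 101]) (.l [P 229])))) (.n (.n (.n (.l [M 21]) (.l
  [M 149])) (.n .z (.l [M 213]))) (.n (.n (.l [M 53]) .z) (.n .z (.l [M 245]))))) (.n (.n (.n (.n
  (.l [P 13]) (.l [M 141])) (.n .z (.l [M 205]))) (.n (.n (.l [M 45]) .z) .z)) (.n (.n (.n .z (.l
  [P 157])) (.n (.l [P 93]) .z)) (.n (.n (.l [M 61]) (.l [P 189])) .z))))) (.n (.n (.n (.n (.n (.n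
  (.l [M 3]) .z) (.n .z (.l [M 195]))) (.n .z (.n .z (.l [M 227])))) (.n (.n (.n .z (.l [M 147]))
  (.n (.l [M 83]) .z)) (.n .z (.n (.l [M 115]) .z)))) (.n (.n (.n (.n .z (.l [P 139])) (.n (.l [P
  75]) (.l [M 203]))) (.n (.n (.l [M 43]) (.l [P 171])) (.n (.l [P 107]) .z))) (.n (.n .z (.n .z
  (.l [P 219]))) (.n (.n (.l [P 59]) .z) .z)))) (.n (.n (.n (.n .z (.n .z (.l [P 199]))) (.n (.n
  (.l [M 39]) (.l [M 167])) (.n .z (.l [P 231])))) (.n (.n (.n .z (.l [P 151])) (.n (.l [P 87])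
  .z)) .z)) (.n (.n (.n (.n (.l [P 15]) .z) (.n .z (.l [M 207]))) (.n (.n (.l [P 47]) .z) .z)) (.n
  (.n (.n .z (.l [P 159])) (.n (.l [M 95]) (.l [M 223]))) (.n (.n .z (.l [P 191])) .z))))))

def x5 : T :=
.n (.n (.n (.n (.n .z (.n (.n .z (.n (.l [P 88]) (.l [P 213]))) .z)) (.n (.n .z (.n (.n (.l [P
  45]) .z) .z)) (.n (.n (.n (.l [P 28]) (.l [P 160])) .z) .z))) (.n (.n (.n (.n (.n .z (.l [P
  140])) .z) (.n (.n .z (.l [P 172])) (.n (.l [P 108]) .z))) (.n (.n (.n (.l [P 25]) .z) .z) (.n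
  (.n (.l [P 58]) .z) (.n .z (.l [P 245]))))) (.n (.n (.n .z (.n .z (.l [P 210]))) (.n (.n (.l [P
  50]) .z) .z)) .z))) (.n (.n (.n (.n (.n (.n (.l [P 3]) .z) (.n .z (.l [P 200]))) (.n (.n (.l [P
  39]) .z) (.n (.l [P 105]) (.l [P 230])))) (.n (.n (.n .z (.l [P 154])) (.n (.l [P 90]) .z)) (.n
  .z (.n (.l [P 124, (125, .ofNat 2), P 126, P 133]) .z)))) (.n (.n (.n .z (.n .z (.l [P 207])))
  (.n (.n (.l [P 48]) .z) (.n (.l [P 113]) .z))) (.n .z (.n (.n .z (.l [P 193])) .z)))) (.n (.n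
  (.n (.n (.n .z (.l [P 141])) .z) .z) (.n .z (.n (.n (.l [P 61]) (.l [P 188])) .z))) (.n (.n (.n
  (.n .z (.l [P 149])) .z) .z) (.n (.n .z (.n (.l [P 102]) (.l [P 227]))) .z))))) (.n (.n (.n (.n
  .z (.n (.n (.n (.l [P 21]) (.l [P 153])) .z) (.n (.n (.l [P 56]) .z) .z))) (.n .z (.n (.n .z (.n
  (.l [P 96]) .z)) .z))) (.n (.n (.n (.n .z (.n (.l [P 76]) (.l [P 203]))) (.n (.n (.l [P 43]) .z)
  (.n .z (.l [P 232])))) .z) (.n (.n (.n (.n (.l [P 16]) .z) .z) .z) (.n (.n (.n .z (.l [P 165]))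
  (.n (.l [P 101]) .z)) (.n (.n .z (.l [P 195])) (.n (.l [P 133]) .z)))))) (.n (.n .z (.n (.n (.n
  (.n .z (.l [P 147])) (.n (.l [P 83]) .z)) (.n (.n .z (.l [P 178])) (.n (.l [P 115]) .z))) (.n
  (.n .z (.n .z (.l [P 223]))) (.n (.n (.l [P 65]) .z) .z)))) (.n (.n (.n (.n .z (.n .z (.l [P
  205]))) (.n .z (.n .z (.l [P 234])))) (.n (.n (.n .z (.l [P 158])) (.n (.l [P 95]) .z)) .z)) (.n
  (.n (.n (.n (.l [P 18]) .z) .z) (.n (.n (.l [P 53]) .z) .z)) (.n (.n (.n .z (.l [P 167])) .z)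
  (.n (.n .z (.l [P 198])) .z))))))

def u5 : T :=
.n (.n (.n (.n (.n .z (.n (.n .z (.n (.l [M 88]) (.l [M 213]))) .z)) (.n (.n .z (.n (.n (.l [M
  45]) .z) .z)) (.n (.n (.n (.l [M 28]) (.l [M 160])) .z) .z))) (.n (.n (.n (.n (.n .z (.l [M
  140])) .z) (.n (.n .z (.l [M 172])) (.n (.l [M 108]) .z))) (.n (.n (.n (.l [M 25]) .z) .z) (.n
  (.n (.l [M 58]) .z) (.n .z (.l [M 245]))))) (.n (.n (.n .z (.n .z (.l [M 210]))) (.n (.n (.l [M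
  50]) .z) .z)) .z))) (.n (.n (.n (.n (.n (.n (.l [M 3]) .z) (.n .z (.l [M 200]))) (.n (.n (.l [M
  39]) .z) (.n (.l [M 105]) (.l [M 230])))) (.n (.n (.n .z (.l [M 154])) (.n (.l [M 90]) .z)) (.n
  .z (.n (.l [M 124, (125, .negSucc 1), M 126, P 133]) .z)))) (.n (.n (.n .z (.n .z (.l [M 207])))
  (.n (.n (.l [M 48]) .z) (.n (.l [M 113]) .z))) (.n .z (.n (.n .z (.l [M 193])) .z)))) (.n (.n
  (.n (.n (.n .z (.l [M 141])) .z) .z) (.n .z (.n (.n (.l [M 61]) (.l [M 188])) .z))) (.n (.n (.n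
  (.n .z (.l [M 149])) .z) .z) (.n (.n .z (.n (.l [M 102]) (.l [M 227]))) .z))))) (.n (.n (.n (.n
  .z (.n (.n (.n (.l [M 21]) (.l [M 153])) .z) (.n (.n (.l [M 56]) .z) .z))) (.n .z (.n (.n .z (.n
  (.l [M 96]) .z)) .z))) (.n (.n (.n (.n .z (.n (.l [M 76]) (.l [M 203]))) (.n (.n (.l [M 43]) .z)
  (.n .z (.l [M 232])))) .z) (.n (.n (.n (.n (.l [M 16]) .z) .z) .z) (.n (.n (.n .z (.l [M 165]))
  (.n (.l [M 101]) .z)) (.n (.n .z (.l [M 195])) (.n (.l [M 133]) .z)))))) (.n (.n .z (.n (.n (.n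
  (.n .z (.l [M 147])) (.n (.l [M 83]) .z)) (.n (.n .z (.l [M 178])) (.n (.l [M 115]) .z))) (.n
  (.n .z (.n .z (.l [M 223]))) (.n (.n (.l [M 65]) .z) .z)))) (.n (.n (.n (.n .z (.n .z (.l [M
  205]))) (.n .z (.n .z (.l [M 234])))) (.n (.n (.n .z (.l [M 158])) (.n (.l [M 95]) .z)) .z)) (.n
  (.n (.n (.n (.l [M 18]) .z) .z) (.n (.n (.l [M 53]) .z) .z)) (.n (.n (.n .z (.l [M 167])) .z)
  (.n (.n .z (.l [M 198])) .z))))))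

def y5 : T :=
.n (.n (.n (.n (.n (.n .z (.n (.n .z (.l [P 152])) (.n (.l [P 89]) .z))) (.n (.n (.n (.l [P 13])
  .z) .z) (.n (.n (.l [P 42]) .z) .z))) (.n (.n (.n .z (.n .z (.l [P 194]))) (.n .z (.n .z (.l [P
  229])))) (.n (.n .z (.n (.l [P 80]) .z)) (.n (.n (.l [P 49]) .z) .z)))) (.n .z (.n (.n (.n (.n
  .z (.l [P 132])) (.n (.l [P 69]) .z)) (.n (.n .z (.l [P 164])) (.n (.l [P 100]) .z))) (.n (.n
  (.n (.l [P 24]) .z) .z) (.n (.n .z (.l [P 182])) .z))))) (.n (.n (.n .z (.n (.n (.n (.l [P 15])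
  .z) (.n .z (.l [P 204]))) (.n (.n (.l [P 44]) (.l [P 171])) .z))) (.n (.n .z (.n .z (.n .z (.l
  [P 231])))) (.n (.n (.n .z (.l [P 146])) (.n (.l [P 82]) .z)) (.n (.n (.l [P 52]) .z) .z)))) (.n
  (.n (.n (.n .z (.n .z (.l [P 191]))) (.n .z (.n (.l [P 94]) (.l [P 226])))) .z) (.n .z (.n (.n
  (.n .z (.l [P 151])) .z) .z))))) (.n (.n (.n (.n (.n (.n .z (.n (.l [P 59]) (.l [P 186]))) .z)
  (.n .z (.n .z (.n (.l [P 106]) .z)))) (.n (.n .z (.n .z (.n (.l [P 98]) .z))) (.n (.n (.n (.l [P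
  20]) (.l [P 145])) .z) .z))) (.n (.n (.n (.n (.n .z (.l [P 114, P 124, (125, .ofNat 2), P 126]))
  .z) (.n (.n .z (.l [P 157])) (.n (.l [P 93]) .z))) (.n (.n (.n (.l [P 17]) (.l [P 142])) (.n .z
  (.l [P 208]))) (.n (.n (.l [P 47]) .z) (.n .z (.l [P 244]))))) (.n (.n (.n (.n .z (.l [P 134]))
  (.n .z (.l [P 199]))) (.n (.n (.l [P 40]) .z) .z)) (.n .z (.n (.n (.l [P 54]) .z) (.n (.l [P
  114]) .z)))))) (.n (.n (.n (.n (.n (.n (.l [P 2]) .z) (.n .z (.l [P 189]))) (.n .z (.n .z (.l [P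
  222])))) (.n (.n (.n .z (.l [P 139])) (.n (.l [P 75]) .z)) (.n .z (.n (.l [P 107]) .z)))) (.n
  (.n (.n .z (.n .z (.l [P 197]))) (.n (.n (.l [P 37]) .z) .z)) .z)) (.n (.n (.n .z (.n (.n (.l [P
  34]) (.l [P 159])) .z)) .z) (.n (.n (.n .z (.n .z (.l [P 202]))) .z) (.n (.n .z (.n (.l [P 87])
  (.l [P 219]))) .z)))))

def v5 : T :=
.n (.n (.n (.n (.n (.n .z (.n (.n .z (.l [M 152])) (.n (.l [M 89]) .z))) (.n (.n (.n (.l [M 13])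
  .z) .z) (.n (.n (.l [M 42]) .z) .z))) (.n (.n (.n .z (.n .z (.l [M 194]))) (.n .z (.n .z (.l [M
  229])))) (.n (.n .z (.n (.l [M 80]) .z)) (.n (.n (.l [M 49]) .z) .z)))) (.n .z (.n (.n (.n (.n
  .z (.l [M 132])) (.n (.l [M 69]) .z)) (.n (.n .z (.l [M 164])) (.n (.l [M 100]) .z))) (.n (.n
  (.n (.l [M 24]) .z) .z) (.n (.n .z (.l [M 182])) .z))))) (.n (.n (.n .z (.n (.n (.n (.l [M 15])
  .z) (.n .z (.l [M 204]))) (.n (.n (.l [M 44]) (.l [M 171])) .z))) (.n (.n .z (.n .z (.n .z (.l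
  [M 231])))) (.n (.n (.n .z (.l [M 146])) (.n (.l [M 82]) .z)) (.n (.n (.l [M 52]) .z) .z)))) (.n
  (.n (.n (.n .z (.n .z (.l [M 191]))) (.n .z (.n (.l [M 94]) (.l [M 226])))) .z) (.n .z (.n (.n
  (.n .z (.l [M 151])) .z) .z))))) (.n (.n (.n (.n (.n (.n .z (.n (.l [M 59]) (.l [M 186]))) .z)
  (.n .z (.n .z (.n (.l [M 106]) .z)))) (.n (.n .z (.n .z (.n (.l [M 98]) .z))) (.n (.n (.n (.l [M
  20]) (.l [M 145])) .z) .z))) (.n (.n (.n (.n (.n .z (.l [P 114, M 124, (125, .negSucc 1), M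
  126])) .z) (.n (.n .z (.l [M 157])) (.n (.l [M 93]) .z))) (.n (.n (.n (.l [M 17]) (.l [M 142]))
  (.n .z (.l [M 208]))) (.n (.n (.l [M 47]) .z) (.n .z (.l [M 244]))))) (.n (.n (.n (.n .z (.l [M
  134])) (.n .z (.l [M 199]))) (.n (.n (.l [M 40]) .z) .z)) (.n .z (.n (.n (.l [M 54]) .z) (.n (.l
  [M 114]) .z)))))) (.n (.n (.n (.n (.n (.n (.l [M 2]) .z) (.n .z (.l [M 189]))) (.n .z (.n .z (.l
  [M 222])))) (.n (.n (.n .z (.l [M 139])) (.n (.l [M 75]) .z)) (.n .z (.n (.l [M 107]) .z)))) (.n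
  (.n (.n .z (.n .z (.l [M 197]))) (.n (.n (.l [M 37]) .z) .z)) .z)) (.n (.n (.n .z (.n (.n (.l [M
  34]) (.l [M 159])) .z)) .z) (.n (.n (.n .z (.n .z (.l [M 202]))) .z) (.n (.n .z (.n (.l [M 87])
  (.l [M 219]))) .z)))))

def e6 : T :=
.n (.n (.n (.n (.n (.n .z (.n (.n (.l [P 37]) (.l [P 168])) .z)) (.n (.n (.n (.l [P 19]) .z) .z)
  .z)) (.n (.n (.n .z (.n .z (.l [P 206]))) .z) (.n .z (.n (.n (.l [P 63]) (.l [P 191])) .z))))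
  (.n (.n (.n (.n .z (.n .z (.l [P 202]))) (.n (.n (.l [P 42]) .z) (.n .z (.l [P 231])))) .z) (.n
  (.n (.n (.n .z (.l [P 148])) .z) (.n (.n .z (.l [P 180])) .z)) (.n (.n (.n (.l [P 33]) .z) (.n
  (.l [P 100]) .z)) .z)))) (.n (.n (.n .z (.n (.n (.n (.l [P 22]) .z) (.n .z (.l [P 215]))) (.n
  (.n (.l [P 57]) (.l [P 185])) .z))) (.n (.n (.n .z (.n (.l [P 82]) .z)) (.n .z (.n (.l [P 114])
  .z))) (.n (.n (.n .z (.l [P 162])) .z) .z))) (.n (.n .z (.n (.n .z (.n (.l [P 94]) (.l [P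
  219]))) .z)) (.n (.n .z (.n (.n (.l [P 52]) .z) .z)) (.n (.n (.n .z (.l [P 166])) .z) (.n (.n
  (.l [P 69]) (.l [P 197])) (.n (.l [P 134]) .z))))))) (.n (.n (.n (.n (.n (.n (.n (.l [P 2]) .z)
  (.n (.l [P 72]) .z)) (.n .z (.n .z (.l [P 229])))) (.n (.n .z (.n (.l [P 89]) .z)) (.n .z (.n
  (.l [P 125, (126, .ofNat 2), P 127]) .z)))) (.n (.n .z (.n (.n (.l [P 47]) .z) (.n (.l [P 112])
  .z))) (.n (.n (.n (.l [P 30]) (.l [P 161])) (.n .z (.l [P 222]))) .z))) (.n (.n (.n (.n (.n .z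
  (.l [P 141])) .z) (.n (.n .z (.l [P 173])) .z)) (.n (.n (.n (.l [P 26]) .z) (.n (.l [P 93]) (.l
  [P 218]))) (.n .z (.n .z (.l [P 246]))))) (.n (.n (.n .z (.n .z (.l [P 211]))) (.n (.n (.l [P
  51]) .z) .z)) (.n (.n (.n (.l [P 34]) .z) (.n .z (.l [P 226]))) (.n (.n (.l [P 68]) .z) .z)))))
  (.n (.n (.n (.n (.n .z (.n (.l [P 75]) (.l [P 201]))) (.n .z (.n (.l [P 107]) .z))) (.n (.n (.n
  .z (.l [P 155])) .z) (.n (.n .z (.l [P 186])) .z))) .z) (.n (.n (.n (.n (.n .z (.l [P 142])) (.n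
  (.l [P 80]) .z)) (.n (.n .z (.l [P 176])) .z)) .z) (.n (.n (.n .z (.n (.l [P 87]) .z)) (.n (.n
  .z (.l [P 182])) .z)) .z))))

def f6 : T :=
.n (.n (.n (.n (.n .z (.n (.n .z (.n (.l [P 71]) .z)) (.n (.n .z (.l [P 167])) (.n (.l [P 105])
  .z)))) (.n (.n (.n .z (.n (.l [P 65]) .z)) (.n (.n .z (.l [P 160])) .z)) .z)) (.n (.n (.n (.n .z
  (.n (.l [P 61]) .z)) (.n .z (.n (.l [P 92]) .z))) (.n (.n (.n .z (.l [P 140])) .z) (.n (.n (.l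
  [P 46]) (.l [P 172])) .z))) .z)) (.n (.n (.n (.n (.n (.n (.l [P 1]) .z) .z) (.n (.n (.l [P 29])
  (.l [P 154])) (.n .z (.l [P 221])))) (.n (.n .z (.n (.l [P 74]) .z)) (.n .z (.n (.l [P 106])
  .z)))) (.n (.n (.n .z (.n .z (.l [P 196]))) (.n (.n (.l [P 36]) .z) .z)) (.n (.n (.n (.l [P 21])
  .z) (.n .z (.l [P 213]))) (.n (.n .z (.l [P 179])) .z)))) (.n (.n (.n (.n (.n .z (.l [P 125,
  (126, .ofNat 2), P 127])) .z) (.n (.n .z (.l [P 158])) .z)) (.n (.n (.n (.l [P 18]) .z) .z) (.n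
  (.n .z (.l [P 175])) (.n .z (.l [P 245]))))) (.n (.n (.n (.n .z (.l [P 135])) (.n .z (.l [P
  200]))) .z) (.n (.n (.n (.l [P 25]) .z) (.n (.l [P 86]) (.l [P 217]))) (.n .z (.n (.l [P 113])
  .z))))))) (.n (.n (.n (.n (.n .z (.n (.n (.l [P 28]) (.l [P 153])) .z)) .z) (.n (.n (.n .z (.n
  .z (.l [P 195]))) .z) (.n (.n .z (.n (.l [P 81]) .z)) (.n (.n (.l [P 50]) (.l [P 178])) .z))))
  (.n (.n (.n (.n .z (.n (.l [P 62]) (.l [P 190]))) (.n (.n (.l [P 32]) .z) (.n .z (.l [P 225]))))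
  .z) (.n (.n (.n (.n .z (.l [P 133])) .z) (.n (.n .z (.l [P 165])) .z)) (.n (.n .z (.n (.l [P
  85]) .z)) .z)))) (.n (.n (.n .z (.n (.n (.n (.l [P 16]) .z) (.n .z (.l [P 205]))) (.n (.n (.l [P
  45]) .z) .z))) (.n (.n (.n .z (.n (.l [P 67]) .z)) (.n .z (.n (.l [P 99]) .z))) (.n (.n (.n .z
  (.l [P 147])) (.n .z (.l [P 214]))) .z))) (.n (.n (.n .z (.n .z (.n .z (.l [P 228])))) (.n (.n
  .z (.n (.l [P 79]) (.l [P 210]))) .z)) (.n (.n .z (.n (.n (.l [P 41]) .z) .z)) (.n .z (.n (.n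
  (.l [P 56]) (.l [P 184])) .z))))))

def h6 : T :=
.n (.n (.n (.n (.n (.n .z (.n (.n (.l [P 32]) (.l [P 160])) .z)) (.n (.n (.n (.l [P 16]) .z) (.n
  (.l [M 80]) .z)) (.n (.n .z (.l [M 176])) (.n (.l [M 112]) .z)))) (.n (.n (.n .z (.n (.l [M 72])
  (.l [P 200]))) (.n (.n .z (.l [M 168])) .z)) (.n .z (.n (.n (.l [P 56]) (.l [P 184])) .z)))) (.n
  (.n (.n (.n .z (.n (.l [M 68]) (.l [P 196]))) (.n (.n (.l [P 36]) .z) (.n (.l [M 100]) (.l [P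
  228])))) (.n (.n (.n .z (.l [M 148])) .z) (.n (.n (.l [M 52]) (.l [M 180])) .z))) (.n (.n (.n
  (.n .z (.l [P 140])) .z) (.n (.n .z (.l [P 172])) .z)) (.n (.n (.n (.l [P 28]) .z) (.n (.l [P
  92]) .z)) .z)))) (.n (.n (.n (.n (.n (.n (.l [M 2]) .z) .z) (.n (.n (.l [M 34]) (.l [M 162]))
  (.n .z (.l [M 226])))) (.n (.n (.n (.l [P 18]) .z) (.n (.l [M 82]) (.l [P 210]))) (.n (.n (.l [P
  50]) (.l [P 178])) (.n (.l [M 114]) .z)))) (.n (.n (.n .z (.n (.l [P 74]) (.l [M 202]))) (.n (.n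
  (.l [M 42]) .z) (.n (.l [P 106]) .z))) (.n (.n (.n (.l [M 26]) (.l [P 154])) (.n .z (.l [M
  218]))) (.n (.n .z (.l [M 186])) .z)))) (.n (.n (.n (.n (.n .z (.l [(134, .negSucc 1)])) .z) (.n
  (.n .z (.l [M 166])) .z)) (.n (.n (.n (.l [M 22]) .z) (.n (.l [P 86]) (.l [P 214]))) (.n (.n .z
  (.l [M 182])) (.n .z (.l [M 246]))))) (.n (.n (.n (.n .z (.l [M 142])) (.n .z (.l [M 206]))) (.n
  (.n (.l [P 46]) .z) .z)) (.n (.n (.n (.l [M 30]) (.l [P 158])) (.n (.l [M 94]) (.l [M 222])))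
  (.n (.n (.l [P 62]) (.l [P 190])) .z)))))) (.n (.n (.n (.n (.n (.n (.n (.l [P 1]) .z) (.n (.l [P
  65]) .z)) (.n (.n (.l [M 33]) (.l [M 161])) (.n .z (.l [P 225])))) (.n (.n .z (.n (.l [P 81])
  .z)) (.n .z (.n (.l [(113, .ofNat 2)]) .z)))) (.n (.n (.n .z (.n .z (.l [M 201]))) (.n (.n (.l
  [P 41]) .z) (.n (.l [P 105]) .z))) (.n (.n (.n (.l [P 25]) (.l [P 153])) (.n (.l [M 89]) (.l [P
  217]))) (.n (.n (.l [M 57]) (.l [M 185])) .z)))) (.n (.n (.n (.n (.n .z (.l [P 133])) (.n (.l [M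
  69]) (.l [M 197]))) (.n (.n (.l [M 37]) (.l [P 165])) (.n .z (.l [M 229])))) (.n (.n (.n (.l [P
  21]) .z) (.n (.l [P 85]) (.l [P 213]))) (.n .z (.n .z (.l [P 245]))))) (.n (.n (.n (.n .z (.l [M
  141])) (.n .z (.l [P 205]))) (.n (.n (.l [P 45]) (.l [M 173])) .z)) (.n (.n (.n (.l [P 29]) .z)
  (.n (.l [M 93]) (.l [P 221]))) (.n (.n (.l [P 61]) .z) .z))))) (.n (.n (.n (.n (.n .z (.n (.l [P
  67]) (.l [P 195]))) (.n .z (.n (.l [P 99]) .z))) (.n (.n (.n (.l [M 19]) (.l [P 147])) (.n .z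
  (.l [M 211]))) (.n (.n (.l [M 51]) (.l [P 179])) .z))) (.n (.n (.n .z (.n (.l [M 75]) .z)) (.n
  .z (.n (.l [M 107]) .z))) (.n (.n (.n .z (.l [M 155])) (.n .z (.l [M 219]))) .z))) (.n (.n (.n
  (.n (.n .z (.l [P 135])) (.n (.l [P 71]) .z)) (.n (.n .z (.l [P 167])) (.n .z (.l [M 231]))))
  (.n (.n .z (.n (.l [M 87]) (.l [M 215]))) .z)) (.n (.n (.n .z (.n (.l [P 79]) .z)) (.n (.n (.l
  [M 47]) (.l [P 175])) .z)) (.n .z (.n (.n (.l [M 63]) (.l [M 191])) .z))))))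

def x6 : T :=
.n (.n (.n (.n (.n (.n .z (.n (.n (.l [P 37]) (.l [P 168])) .z)) (.n (.n (.n (.l [P 19]) .z) .z)
  .z)) (.n (.n (.n .z (.n .z (.l [P 206]))) .z) (.n .z (.n (.n (.l [P 63]) (.l [P 191])) .z))))
  (.n (.n (.n (.n .z (.n .z (.l [P 202]))) (.n (.n (.l [P 42]) .z) (.n .z (.l [P 231])))) .z) (.n
  (.n (.n (.n .z (.l [P 148])) .z) (.n (.n .z (.l [P 180])) .z)) (.n (.n (.n (.l [P 33]) .z) (.n
  (.l [P 100]) .z)) .z)))) (.n (.n (.n .z (.n (.n (.n (.l [P 22]) .z) (.n .z (.l [P 215]))) (.n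
  (.n (.l [P 57]) (.l [P 185])) .z))) (.n (.n (.n .z (.n (.l [P 82]) .z)) (.n .z (.n (.l [P 114])
  .z))) (.n (.n (.n .z (.l [P 162])) .z) .z))) (.n (.n .z (.n (.n .z (.n (.l [P 94]) (.l [P
  219]))) .z)) (.n (.n .z (.n (.n (.l [P 52]) .z) .z)) (.n (.n (.n .z (.l [P 166])) .z) (.n (.n
  (.l [P 69]) (.l [P 197])) (.n (.l [P 134]) .z))))))) (.n (.n (.n (.n (.n (.n (.n (.l [P 2]) .z)
  (.n (.l [P 72]) .z)) (.n .z (.n .z (.l [P 229])))) (.n (.n .z (.n (.l [P 89]) .z)) (.n .z (.n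
  (.l [P 125, (126, .ofNat 2), P 127, P 134]) .z)))) (.n (.n .z (.n (.n (.l [P 47]) .z) (.n (.l [P
  112]) .z))) (.n (.n (.n (.l [P 30]) (.l [P 161])) (.n .z (.l [P 222]))) .z))) (.n (.n (.n (.n
  (.n .z (.l [P 141])) .z) (.n (.n .z (.l [P 173])) .z)) (.n (.n (.n (.l [P 26]) .z) (.n (.l [P
  93]) (.l [P 218]))) (.n .z (.n .z (.l [P 246]))))) (.n (.n (.n .z (.n .z (.l [P 211]))) (.n (.n
  (.l [P 51]) .z) .z)) (.n (.n (.n (.l [P 34]) .z) (.n .z (.l [P 226]))) (.n (.n (.l [P 68]) .z)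
  .z))))) (.n (.n (.n (.n (.n .z (.n (.l [P 75]) (.l [P 201]))) (.n .z (.n (.l [P 107]) .z))) (.n
  (.n (.n .z (.l [P 155])) .z) (.n (.n .z (.l [P 186])) .z))) .z) (.n (.n (.n (.n (.n .z (.l [P
  142])) (.n (.l [P 80]) .z)) (.n (.n .z (.l [P 176])) .z)) .z) (.n (.n (.n .z (.n (.l [P 87])
  .z)) (.n (.n .z (.l [P 182])) .z)) .z))))

def u6 : T :=
.n (.n (.n (.n (.n (.n .z (.n (.n (.l [M 37]) (.l [M 168])) .z)) (.n (.n (.n (.l [M 19]) .z) .z)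
  .z)) (.n (.n (.n .z (.n .z (.l [M 206]))) .z) (.n .z (.n (.n (.l [M 63]) (.l [M 191])) .z))))
  (.n (.n (.n (.n .z (.n .z (.l [M 202]))) (.n (.n (.l [M 42]) .z) (.n .z (.l [M 231])))) .z) (.n
  (.n (.n (.n .z (.l [M 148])) .z) (.n (.n .z (.l [M 180])) .z)) (.n (.n (.n (.l [M 33]) .z) (.n
  (.l [M 100]) .z)) .z)))) (.n (.n (.n .z (.n (.n (.n (.l [M 22]) .z) (.n .z (.l [M 215]))) (.n
  (.n (.l [M 57]) (.l [M 185])) .z))) (.n (.n (.n .z (.n (.l [M 82]) .z)) (.n .z (.n (.l [M 114])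
  .z))) (.n (.n (.n .z (.l [M 162])) .z) .z))) (.n (.n .z (.n (.n .z (.n (.l [M 94]) (.l [M
  219]))) .z)) (.n (.n .z (.n (.n (.l [M 52]) .z) .z)) (.n (.n (.n .z (.l [M 166])) .z) (.n (.n
  (.l [M 69]) (.l [M 197])) (.n (.l [M 134]) .z))))))) (.n (.n (.n (.n (.n (.n (.n (.l [M 2]) .z)
  (.n (.l [M 72]) .z)) (.n .z (.n .z (.l [M 229])))) (.n (.n .z (.n (.l [M 89]) .z)) (.n .z (.n
  (.l [M 125, (126, .negSucc 1), M 127, P 134]) .z)))) (.n (.n .z (.n (.n (.l [M 47]) .z) (.n (.l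
  [M 112]) .z))) (.n (.n (.n (.l [M 30]) (.l [M 161])) (.n .z (.l [M 222]))) .z))) (.n (.n (.n (.n
  (.n .z (.l [M 141])) .z) (.n (.n .z (.l [M 173])) .z)) (.n (.n (.n (.l [M 26]) .z) (.n (.l [M
  93]) (.l [M 218]))) (.n .z (.n .z (.l [M 246]))))) (.n (.n (.n .z (.n .z (.l [M 211]))) (.n (.n
  (.l [M 51]) .z) .z)) (.n (.n (.n (.l [M 34]) .z) (.n .z (.l [M 226]))) (.n (.n (.l [M 68]) .z)
  .z))))) (.n (.n (.n (.n (.n .z (.n (.l [M 75]) (.l [M 201]))) (.n .z (.n (.l [M 107]) .z))) (.n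
  (.n (.n .z (.l [M 155])) .z) (.n (.n .z (.l [M 186])) .z))) .z) (.n (.n (.n (.n (.n .z (.l [M
  142])) (.n (.l [M 80]) .z)) (.n (.n .z (.l [M 176])) .z)) .z) (.n (.n (.n .z (.n (.l [M 87])
  .z)) (.n (.n .z (.l [M 182])) .z)) .z))))

def y6 : T :=
.n (.n (.n (.n (.n .z (.n (.n .z (.n (.l [P 71]) .z)) (.n (.n .z (.l [P 167])) (.n (.l [P 105])
  .z)))) (.n (.n (.n .z (.n (.l [P 65]) .z)) (.n (.n .z (.l [P 160])) .z)) .z)) (.n (.n (.n (.n .z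
  (.n (.l [P 61]) .z)) (.n .z (.n (.l [P 92]) .z))) (.n (.n (.n .z (.l [P 140])) .z) (.n (.n (.l
  [P 46]) (.l [P 172])) .z))) .z)) (.n (.n (.n (.n (.n (.n (.l [P 1]) .z) .z) (.n (.n (.l [P 29])
  (.l [P 154])) (.n .z (.l [P 221])))) (.n (.n .z (.n (.l [P 74]) .z)) (.n .z (.n (.l [P 106])
  .z)))) (.n (.n (.n .z (.n .z (.l [P 196]))) (.n (.n (.l [P 36]) .z) .z)) (.n (.n (.n (.l [P 21])
  .z) (.n .z (.l [P 213]))) (.n (.n .z (.l [P 179])) .z)))) (.n (.n (.n (.n (.n .z (.l [P 113, P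
  125, (126, .ofNat 2), P 127])) .z) (.n (.n .z (.l [P 158])) .z)) (.n (.n (.n (.l [P 18]) .z) .z)
  (.n (.n .z (.l [P 175])) (.n .z (.l [P 245]))))) (.n (.n (.n (.n .z (.l [P 135])) (.n .z (.l [P
  200]))) .z) (.n (.n (.n (.l [P 25]) .z) (.n (.l [P 86]) (.l [P 217]))) (.n .z (.n (.l [P 113])
  .z))))))) (.n (.n (.n (.n (.n .z (.n (.n (.l [P 28]) (.l [P 153])) .z)) .z) (.n (.n (.n .z (.n
  .z (.l [P 195]))) .z) (.n (.n .z (.n (.l [P 81]) .z)) (.n (.n (.l [P 50]) (.l [P 178])) .z))))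
  (.n (.n (.n (.n .z (.n (.l [P 62]) (.l [P 190]))) (.n (.n (.l [P 32]) .z) (.n .z (.l [P 225]))))
  .z) (.n (.n (.n (.n .z (.l [P 133])) .z) (.n (.n .z (.l [P 165])) .z)) (.n (.n .z (.n (.l [P
  85]) .z)) .z)))) (.n (.n (.n .z (.n (.n (.n (.l [P 16]) .z) (.n .z (.l [P 205]))) (.n (.n (.l [P
  45]) .z) .z))) (.n (.n (.n .z (.n (.l [P 67]) .z)) (.n .z (.n (.l [P 99]) .z))) (.n (.n (.n .z
  (.l [P 147])) (.n .z (.l [P 214]))) .z))) (.n (.n (.n .z (.n .z (.n .z (.l [P 228])))) (.n (.n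
  .z (.n (.l [P 79]) (.l [P 210]))) .z)) (.n (.n .z (.n (.n (.l [P 41]) .z) .z)) (.n .z (.n (.n
  (.l [P 56]) (.l [P 184])) .z))))))

def v6 : T :=
.n (.n (.n (.n (.n .z (.n (.n .z (.n (.l [M 71]) .z)) (.n (.n .z (.l [M 167])) (.n (.l [M 105])
  .z)))) (.n (.n (.n .z (.n (.l [M 65]) .z)) (.n (.n .z (.l [M 160])) .z)) .z)) (.n (.n (.n (.n .z
  (.n (.l [M 61]) .z)) (.n .z (.n (.l [M 92]) .z))) (.n (.n (.n .z (.l [M 140])) .z) (.n (.n (.l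
  [M 46]) (.l [M 172])) .z))) .z)) (.n (.n (.n (.n (.n (.n (.l [M 1]) .z) .z) (.n (.n (.l [M 29])
  (.l [M 154])) (.n .z (.l [M 221])))) (.n (.n .z (.n (.l [M 74]) .z)) (.n .z (.n (.l [M 106])
  .z)))) (.n (.n (.n .z (.n .z (.l [M 196]))) (.n (.n (.l [M 36]) .z) .z)) (.n (.n (.n (.l [M 21])
  .z) (.n .z (.l [M 213]))) (.n (.n .z (.l [M 179])) .z)))) (.n (.n (.n (.n (.n .z (.l [P 113, M
  125, (126, .negSucc 1), M 127])) .z) (.n (.n .z (.l [M 158])) .z)) (.n (.n (.n (.l [M 18]) .z)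
  .z) (.n (.n .z (.l [M 175])) (.n .z (.l [M 245]))))) (.n (.n (.n (.n .z (.l [M 135])) (.n .z (.l
  [M 200]))) .z) (.n (.n (.n (.l [M 25]) .z) (.n (.l [M 86]) (.l [M 217]))) (.n .z (.n (.l [M
  113]) .z))))))) (.n (.n (.n (.n (.n .z (.n (.n (.l [M 28]) (.l [M 153])) .z)) .z) (.n (.n (.n .z
  (.n .z (.l [M 195]))) .z) (.n (.n .z (.n (.l [M 81]) .z)) (.n (.n (.l [M 50]) (.l [M 178]))
  .z)))) (.n (.n (.n (.n .z (.n (.l [M 62]) (.l [M 190]))) (.n (.n (.l [M 32]) .z) (.n .z (.l [M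
  225])))) .z) (.n (.n (.n (.n .z (.l [M 133])) .z) (.n (.n .z (.l [M 165])) .z)) (.n (.n .z (.n
  (.l [M 85]) .z)) .z)))) (.n (.n (.n .z (.n (.n (.n (.l [M 16]) .z) (.n .z (.l [M 205]))) (.n (.n
  (.l [M 45]) .z) .z))) (.n (.n (.n .z (.n (.l [M 67]) .z)) (.n .z (.n (.l [M 99]) .z))) (.n (.n
  (.n .z (.l [M 147])) (.n .z (.l [M 214]))) .z))) (.n (.n (.n .z (.n .z (.n .z (.l [M 228]))))
  (.n (.n .z (.n (.l [M 79]) (.l [M 210]))) .z)) (.n (.n .z (.n (.n (.l [M 41]) .z) .z)) (.n .z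
  (.n (.n (.l [M 56]) (.l [M 184])) .z))))))

def e7 : T :=
.n (.n (.n (.n (.n (.n (.n (.n (.l [P 1]) .z) (.n (.l [P 71]) .z)) (.n .z (.n .z (.l [P 228]))))
  (.n .z (.n (.n (.l [P 56]) (.l [P 183])) (.n (.l [P 126, (127, .ofNat 2)]) .z)))) (.n (.n .z (.n
  (.n .z (.l [P 177])) .z)) (.n (.n .z (.n .z (.l [P 221]))) .z))) (.n (.n .z (.n (.n (.n .z (.l
  [P 156])) (.n (.l [P 92]) (.l [P 217]))) (.n (.n (.l [P 59]) (.l [P 187])) .z))) (.n .z (.n (.n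
  .z (.n .z (.l [P 225]))) (.n (.n (.l [P 67]) (.l [P 195])) .z))))) (.n (.n (.n (.n (.n .z (.n
  (.l [P 74]) .z)) (.n (.n (.l [P 40]) (.l [P 170])) (.n (.l [P 106]) .z))) .z) (.n (.n (.n .z (.n
  .z (.l [P 208]))) (.n (.n (.l [P 49]) .z) .z)) (.n (.n (.n (.l [P 31]) .z) .z) (.n (.n (.l [P
  65]) (.l [P 194])) .z)))) (.n (.n (.n (.n (.n .z (.l [P 142])) (.n (.l [P 79]) (.l [P 205])))
  (.n (.n .z (.l [P 174])) .z)) (.n (.n (.n (.l [P 27]) .z) .z) (.n (.n .z (.l [P 189])) (.n .z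
  (.l [P 247]))))) (.n (.n (.n .z (.n (.l [P 86]) .z)) .z) (.n (.n (.n (.l [P 35]) .z) .z) .z)))))
  (.n (.n (.n (.n (.n (.n .z (.n .z (.l [P 200]))) (.n (.n (.l [P 38]) (.l [P 169])) .z)) (.n (.n
  .z (.n .z (.l [P 214]))) .z)) (.n (.n (.n .z (.n (.l [P 81]) .z)) (.n .z (.n (.l [P 113]) .z)))
  (.n .z (.n (.n .z (.l [P 192])) .z)))) (.n (.n (.n (.n .z (.n .z (.l [P 204]))) (.n (.n (.l [P
  44]) .z) .z)) (.n .z (.n (.n (.l [P 61]) .z) .z))) (.n (.n (.n (.n .z (.l [P 149])) (.n (.l [P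
  85]) .z)) (.n (.n .z (.l [P 181])) .z)) .z))) (.n (.n (.n .z (.n (.n (.n (.l [P 23]) .z) .z)
  .z)) (.n (.n (.n .z (.n .z (.l [P 210]))) (.n (.n (.l [P 50]) .z) .z)) (.n (.n (.n .z (.l [P
  163])) (.n (.l [P 99]) .z)) .z))) (.n (.n (.n .z (.n (.n (.l [P 45]) .z) .z)) (.n .z (.n (.n (.l
  [P 62]) .z) .z))) (.n (.n (.n .z (.n .z (.l [P 213]))) (.n (.n (.l [P 54]) .z) .z)) (.n .z (.n
  (.n .z (.l [P 199])) (.n (.l [P 135]) .z)))))))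

def f7 : T :=
.n (.n (.n (.n (.n (.n (.n .z (.n .z (.l [P 185]))) .z) (.n (.n .z (.n .z (.l [P 202]))) .z)) (.n
  (.n (.n .z (.n .z (.l [P 193]))) (.n (.n (.l [P 34]) .z) .z)) (.n .z (.n (.n (.l [P 48]) .z)
  .z)))) (.n (.n (.n .z (.n .z (.n .z (.l [P 224])))) .z) (.n (.n (.n .z (.n .z (.l [P 197]))) (.n
  (.n (.l [P 37]) .z) .z)) (.n (.n (.n .z (.l [P 148])) (.n (.l [P 84]) .z)) .z)))) (.n (.n (.n
  (.n (.n .z (.n .z (.l [P 186]))) .z) (.n (.n .z (.n .z (.l [P 203]))) (.n (.n (.l [P 43]) .z)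
  .z))) (.n (.n (.n .z (.n (.l [P 66]) .z)) (.n (.n .z (.l [P 162])) (.n (.l [P 98]) .z))) .z))
  (.n (.n (.n .z (.n (.n (.l [P 33]) .z) .z)) (.n (.n .z (.n (.l [P 78]) (.l [P 209]))) (.n (.n
  (.l [P 47]) .z) .z))) (.n (.n (.n (.n .z (.l [P 134])) .z) (.n (.n .z (.l [P 166])) .z)) (.n .z
  (.n (.n (.l [P 55]) .z) .z)))))) (.n (.n (.n (.n (.n (.n (.n (.l [P 0]) .z) (.n (.l [P 58]) .z))
  (.n .z (.n .z (.l [P 220])))) (.n (.n .z (.n (.l [P 73]) .z)) (.n (.n (.l [P 42]) (.l [P 168]))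
  (.n (.l [P 105]) .z)))) (.n (.n .z (.n (.n .z (.l [P 161])) .z)) (.n (.n .z (.n .z (.l [P
  212]))) .z))) (.n (.n .z (.n (.n (.n .z (.l [P 141])) (.n (.l [P 77]) (.l [P 207]))) (.n (.n .z
  (.l [P 173])) .z))) (.n (.n (.n .z (.n .z (.l [P 198]))) (.n (.n (.l [P 39]) .z) .z)) (.n (.n .z
  (.n .z (.l [P 216]))) (.n (.n (.l [P 53]) (.l [P 182])) .z))))) (.n (.n (.n (.n (.n .z (.n (.l
  [P 60]) (.l [P 188]))) (.n (.n (.l [P 30]) (.l [P 155])) (.n (.l [P 91]) .z))) .z) (.n .z (.n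
  (.n (.n (.l [P 22]) .z) .z) (.n (.n (.l [P 52]) (.l [P 180])) .z)))) (.n (.n (.n (.n (.n .z (.l
  [P 126, (127, .ofNat 2)])) (.n (.l [P 64]) (.l [P 191]))) .z) (.n (.n (.n (.l [P 19]) .z) .z)
  (.n (.n .z (.l [P 176])) (.n .z (.l [P 246]))))) (.n (.n (.n .z (.n (.l [P 70]) .z)) .z) (.n (.n
  (.n (.l [P 26]) .z) .z) (.n .z (.n (.l [P 112]) .z)))))))

def h7 : T :=
.n (.n (.n (.n (.n (.n (.n (.n (.l [P 0]) .z) (.n (.l [P 64]) (.l [M 192]))) (.n .z (.n .z (.l [P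
  224])))) (.n (.n .z (.n .z (.l [M 208]))) (.n (.n (.l [P 48]) (.l [P 176])) (.n (.l [(112,
  .ofNat 2)]) .z)))) (.n (.n (.n .z (.n .z (.l [M 200]))) (.n (.n (.l [M 40]) (.l [P 168])) .z))
  (.n (.n .z (.n .z (.l [P 216]))) (.n (.n (.l [M 56]) .z) .z)))) (.n (.n (.n .z (.n .z (.n .z (.l
  [M 228])))) (.n (.n (.n .z (.l [P 148])) (.n (.l [P 84]) (.l [P 212]))) (.n (.n (.l [P 52]) (.l
  [P 180])) .z))) (.n (.n (.n .z (.n .z (.l [M 204]))) (.n (.n (.l [M 44]) .z) .z)) (.n (.n (.n .z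
  (.l [M 156])) (.n (.l [M 92]) (.l [P 220]))) (.n (.n (.l [P 60]) (.l [P 188])) .z))))) (.n (.n
  (.n (.n (.n .z (.n (.l [P 66]) (.l [M 194]))) (.n (.n (.l [P 34]) (.l [P 162])) (.n (.l [P 98])
  .z))) (.n (.n .z (.n .z (.l [M 210]))) (.n (.n (.l [M 50]) .z) .z))) (.n (.n (.n .z (.n (.l [M
  74]) (.l [P 202]))) (.n (.n (.l [P 42]) (.l [M 170])) (.n (.l [M 106]) .z))) (.n (.n (.n (.l [P
  26]) .z) .z) (.n (.n (.l [P 58]) (.l [P 186])) .z)))) (.n (.n (.n (.n (.n .z (.l [P 134])) (.n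
  (.l [P 70]) (.l [P 198]))) (.n (.n (.l [M 38]) (.l [P 166])) .z)) (.n (.n (.n (.l [P 22]) .z)
  (.n (.l [M 86]) (.l [M 214]))) (.n (.n (.l [M 54]) (.l [P 182])) (.n .z (.l [P 246]))))) (.n (.n
  (.n (.n .z (.l [M 142])) (.n (.l [P 78]) .z)) (.n (.n .z (.l [M 174])) .z)) (.n (.n (.n (.l [P
  30]) .z) .z) (.n (.n (.l [M 62]) .z) .z)))))) (.n (.n (.n (.n (.n (.n (.n (.l [M 1]) .z) (.n (.l
  [M 65]) (.l [P 193]))) (.n (.n (.l [P 33]) (.l [P 161])) (.n .z (.l [M 225])))) (.n (.n .z (.n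
  (.l [M 81]) (.l [P 209]))) (.n (.n (.l [M 49]) (.l [M 177])) (.n (.l [M 113]) .z)))) (.n (.n (.n
  .z (.n (.l [P 73]) .z)) (.n (.n .z (.l [M 169])) (.n (.l [P 105]) .z))) (.n (.n .z (.n .z (.l [M
  217]))) (.n (.n .z (.l [P 185])) .z)))) (.n (.n (.n (.n .z (.n .z (.l [P 197]))) (.n (.n (.l [P
  37]) .z) .z)) (.n (.n (.n .z (.l [M 149])) (.n (.l [M 85]) (.l [M 213]))) (.n (.n (.l [P 53])
  (.l [M 181])) .z))) (.n (.n (.n (.n .z (.l [P 141])) (.n (.l [P 77]) (.l [M 205]))) (.n (.n (.l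
  [M 45]) (.l [P 173])) .z)) (.n (.n .z (.n .z (.l [M 221]))) (.n (.n (.l [M 61]) (.l [M 189]))
  .z))))) (.n (.n (.n (.n (.n .z (.n (.l [M 67]) (.l [M 195]))) (.n (.n (.l [M 35]) (.l [M 163]))
  (.n (.l [M 99]) .z))) (.n (.n (.n (.l [P 19]) .z) .z) .z)) (.n (.n (.n .z (.n .z (.l [P 203])))
  (.n (.n (.l [P 43]) .z) .z)) (.n (.n (.n (.l [M 27]) (.l [P 155])) (.n (.l [P 91]) .z)) (.n (.n
  (.l [M 59]) (.l [M 187])) .z)))) (.n (.n (.n (.n (.n .z (.l [(135, .negSucc 1)])) (.n (.l [M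
  71]) (.l [M 199]))) (.n (.n (.l [P 39]) .z) .z)) (.n (.n (.n (.l [M 23]) .z) .z) (.n (.n (.l [P
  55]) (.l [M 183])) (.n .z (.l [M 247]))))) (.n (.n (.n .z (.n (.l [M 79]) (.l [P 207]))) (.n (.n
  (.l [P 47]) .z) .z)) (.n (.n (.n (.l [M 31]) .z) .z) (.n (.n .z (.l [P 191])) .z))))))

def x7 : T :=
.n (.n (.n (.n (.n (.n (.n (.n (.l [P 1]) .z) (.n (.l [P 71]) .z)) (.n .z (.n .z (.l [P 228]))))
  (.n .z (.n (.n (.l [P 56]) (.l [P 183])) (.n (.l [P 126, (127, .ofNat 2), P 135]) .z)))) (.n (.n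
  .z (.n (.n .z (.l [P 177])) .z)) (.n (.n .z (.n .z (.l [P 221]))) .z))) (.n (.n .z (.n (.n (.n
  .z (.l [P 156])) (.n (.l [P 92]) (.l [P 217]))) (.n (.n (.l [P 59]) (.l [P 187])) .z))) (.n .z
  (.n (.n .z (.n .z (.l [P 225]))) (.n (.n (.l [P 67]) (.l [P 195])) .z))))) (.n (.n (.n (.n (.n
  .z (.n (.l [P 74]) .z)) (.n (.n (.l [P 40]) (.l [P 170])) (.n (.l [P 106]) .z))) .z) (.n (.n (.n
  .z (.n .z (.l [P 208]))) (.n (.n (.l [P 49]) .z) .z)) (.n (.n (.n (.l [P 31]) .z) .z) (.n (.n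
  (.l [P 65]) (.l [P 194])) .z)))) (.n (.n (.n (.n (.n .z (.l [P 142])) (.n (.l [P 79]) (.l [P
  205]))) (.n (.n .z (.l [P 174])) .z)) (.n (.n (.n (.l [P 27]) .z) .z) (.n (.n .z (.l [P 189]))
  (.n .z (.l [P 247]))))) (.n (.n (.n .z (.n (.l [P 86]) .z)) .z) (.n (.n (.n (.l [P 35]) .z) .z)
  .z))))) (.n (.n (.n (.n (.n (.n .z (.n .z (.l [P 200]))) (.n (.n (.l [P 38]) (.l [P 169])) .z))
  (.n (.n .z (.n .z (.l [P 214]))) .z)) (.n (.n (.n .z (.n (.l [P 81]) .z)) (.n .z (.n (.l [P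
  113]) .z))) (.n .z (.n (.n .z (.l [P 192])) .z)))) (.n (.n (.n (.n .z (.n .z (.l [P 204]))) (.n
  (.n (.l [P 44]) .z) .z)) (.n .z (.n (.n (.l [P 61]) .z) .z))) (.n (.n (.n (.n .z (.l [P 149]))
  (.n (.l [P 85]) .z)) (.n (.n .z (.l [P 181])) .z)) .z))) (.n (.n (.n .z (.n (.n (.n (.l [P 23])
  .z) .z) .z)) (.n (.n (.n .z (.n .z (.l [P 210]))) (.n (.n (.l [P 50]) .z) .z)) (.n (.n (.n .z
  (.l [P 163])) (.n (.l [P 99]) .z)) .z))) (.n (.n (.n .z (.n (.n (.l [P 45]) .z) .z)) (.n .z (.n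
  (.n (.l [P 62]) .z) .z))) (.n (.n (.n .z (.n .z (.l [P 213]))) (.n (.n (.l [P 54]) .z) .z)) (.n
  .z (.n (.n .z (.l [P 199])) (.n (.l [P 135]) .z)))))))

def u7 : T :=
.n (.n (.n (.n (.n (.n (.n (.n (.l [M 1]) .z) (.n (.l [M 71]) .z)) (.n .z (.n .z (.l [M 228]))))
  (.n .z (.n (.n (.l [M 56]) (.l [M 183])) (.n (.l [M 126, (127, .negSucc 1), P 135]) .z)))) (.n
  (.n .z (.n (.n .z (.l [M 177])) .z)) (.n (.n .z (.n .z (.l [M 221]))) .z))) (.n (.n .z (.n (.n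
  (.n .z (.l [M 156])) (.n (.l [M 92]) (.l [M 217]))) (.n (.n (.l [M 59]) (.l [M 187])) .z))) (.n
  .z (.n (.n .z (.n .z (.l [M 225]))) (.n (.n (.l [M 67]) (.l [M 195])) .z))))) (.n (.n (.n (.n
  (.n .z (.n (.l [M 74]) .z)) (.n (.n (.l [M 40]) (.l [M 170])) (.n (.l [M 106]) .z))) .z) (.n (.n
  (.n .z (.n .z (.l [M 208]))) (.n (.n (.l [M 49]) .z) .z)) (.n (.n (.n (.l [M 31]) .z) .z) (.n
  (.n (.l [M 65]) (.l [M 194])) .z)))) (.n (.n (.n (.n (.n .z (.l [M 142])) (.n (.l [M 79]) (.l [M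
  205]))) (.n (.n .z (.l [M 174])) .z)) (.n (.n (.n (.l [M 27]) .z) .z) (.n (.n .z (.l [M 189]))
  (.n .z (.l [M 247]))))) (.n (.n (.n .z (.n (.l [M 86]) .z)) .z) (.n (.n (.n (.l [M 35]) .z) .z)
  .z))))) (.n (.n (.n (.n (.n (.n .z (.n .z (.l [M 200]))) (.n (.n (.l [M 38]) (.l [M 169])) .z))
  (.n (.n .z (.n .z (.l [M 214]))) .z)) (.n (.n (.n .z (.n (.l [M 81]) .z)) (.n .z (.n (.l [M
  113]) .z))) (.n .z (.n (.n .z (.l [M 192])) .z)))) (.n (.n (.n (.n .z (.n .z (.l [M 204]))) (.n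
  (.n (.l [M 44]) .z) .z)) (.n .z (.n (.n (.l [M 61]) .z) .z))) (.n (.n (.n (.n .z (.l [M 149]))
  (.n (.l [M 85]) .z)) (.n (.n .z (.l [M 181])) .z)) .z))) (.n (.n (.n .z (.n (.n (.n (.l [M 23])
  .z) .z) .z)) (.n (.n (.n .z (.n .z (.l [M 210]))) (.n (.n (.l [M 50]) .z) .z)) (.n (.n (.n .z
  (.l [M 163])) (.n (.l [M 99]) .z)) .z))) (.n (.n (.n .z (.n (.n (.l [M 45]) .z) .z)) (.n .z (.n
  (.n (.l [M 62]) .z) .z))) (.n (.n (.n .z (.n .z (.l [M 213]))) (.n (.n (.l [M 54]) .z) .z)) (.n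
  .z (.n (.n .z (.l [M 199])) (.n (.l [M 135]) .z)))))))

def y7 : T :=
.n (.n (.n (.n (.n (.n (.n .z (.n .z (.l [P 185]))) .z) (.n (.n .z (.n .z (.l [P 202]))) .z)) (.n
  (.n (.n .z (.n .z (.l [P 193]))) (.n (.n (.l [P 34]) .z) .z)) (.n .z (.n (.n (.l [P 48]) .z)
  .z)))) (.n (.n (.n .z (.n .z (.n .z (.l [P 224])))) .z) (.n (.n (.n .z (.n .z (.l [P 197]))) (.n
  (.n (.l [P 37]) .z) .z)) (.n (.n (.n .z (.l [P 148])) (.n (.l [P 84]) .z)) .z)))) (.n (.n (.n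
  (.n (.n .z (.n .z (.l [P 186]))) .z) (.n (.n .z (.n .z (.l [P 203]))) (.n (.n (.l [P 43]) .z)
  .z))) (.n (.n (.n .z (.n (.l [P 66]) .z)) (.n (.n .z (.l [P 162])) (.n (.l [P 98]) .z))) .z))
  (.n (.n (.n .z (.n (.n (.l [P 33]) .z) .z)) (.n (.n .z (.n (.l [P 78]) (.l [P 209]))) (.n (.n
  (.l [P 47]) .z) .z))) (.n (.n (.n (.n .z (.l [P 134])) .z) (.n (.n .z (.l [P 166])) .z)) (.n .z
  (.n (.n (.l [P 55]) .z) .z)))))) (.n (.n (.n (.n (.n (.n (.n (.l [P 0]) .z) (.n (.l [P 58]) .z))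
  (.n .z (.n .z (.l [P 220])))) (.n (.n .z (.n (.l [P 73]) .z)) (.n (.n (.l [P 42]) (.l [P 168]))
  (.n (.l [P 105]) .z)))) (.n (.n .z (.n (.n .z (.l [P 161])) .z)) (.n (.n .z (.n .z (.l [P
  212]))) .z))) (.n (.n .z (.n (.n (.n .z (.l [P 141])) (.n (.l [P 77]) (.l [P 207]))) (.n (.n .z
  (.l [P 173])) .z))) (.n (.n (.n .z (.n .z (.l [P 198]))) (.n (.n (.l [P 39]) .z) .z)) (.n (.n .z
  (.n .z (.l [P 216]))) (.n (.n (.l [P 53]) (.l [P 182])) .z))))) (.n (.n (.n (.n (.n .z (.n (.l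
  [P 60]) (.l [P 188]))) (.n (.n (.l [P 30]) (.l [P 155])) (.n (.l [P 91]) .z))) .z) (.n .z (.n
  (.n (.n (.l [P 22]) .z) .z) (.n (.n (.l [P 52]) (.l [P 180])) .z)))) (.n (.n (.n (.n (.n .z (.l
  [P 112, P 126, (127, .ofNat 2)])) (.n (.l [P 64]) (.l [P 191]))) .z) (.n (.n (.n (.l [P 19]) .z)
  .z) (.n (.n .z (.l [P 176])) (.n .z (.l [P 246]))))) (.n (.n (.n .z (.n (.l [P 70]) .z)) .z) (.n
  (.n (.n (.l [P 26]) .z) .z) (.n .z (.n (.l [P 112]) .z)))))))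

def v7 : T :=
.n (.n (.n (.n (.n (.n (.n .z (.n .z (.l [M 185]))) .z) (.n (.n .z (.n .z (.l [M 202]))) .z)) (.n
  (.n (.n .z (.n .z (.l [M 193]))) (.n (.n (.l [M 34]) .z) .z)) (.n .z (.n (.n (.l [M 48]) .z)
  .z)))) (.n (.n (.n .z (.n .z (.n .z (.l [M 224])))) .z) (.n (.n (.n .z (.n .z (.l [M 197]))) (.n
  (.n (.l [M 37]) .z) .z)) (.n (.n (.n .z (.l [M 148])) (.n (.l [M 84]) .z)) .z)))) (.n (.n (.n
  (.n (.n .z (.n .z (.l [M 186]))) .z) (.n (.n .z (.n .z (.l [M 203]))) (.n (.n (.l [M 43]) .z)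
  .z))) (.n (.n (.n .z (.n (.l [M 66]) .z)) (.n (.n .z (.l [M 162])) (.n (.l [M 98]) .z))) .z))
  (.n (.n (.n .z (.n (.n (.l [M 33]) .z) .z)) (.n (.n .z (.n (.l [M 78]) (.l [M 209]))) (.n (.n
  (.l [M 47]) .z) .z))) (.n (.n (.n (.n .z (.l [M 134])) .z) (.n (.n .z (.l [M 166])) .z)) (.n .z
  (.n (.n (.l [M 55]) .z) .z)))))) (.n (.n (.n (.n (.n (.n (.n (.l [M 0]) .z) (.n (.l [M 58]) .z))
  (.n .z (.n .z (.l [M 220])))) (.n (.n .z (.n (.l [M 73]) .z)) (.n (.n (.l [M 42]) (.l [M 168]))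
  (.n (.l [M 105]) .z)))) (.n (.n .z (.n (.n .z (.l [M 161])) .z)) (.n (.n .z (.n .z (.l [M
  212]))) .z))) (.n (.n .z (.n (.n (.n .z (.l [M 141])) (.n (.l [M 77]) (.l [M 207]))) (.n (.n .z
  (.l [M 173])) .z))) (.n (.n (.n .z (.n .z (.l [M 198]))) (.n (.n (.l [M 39]) .z) .z)) (.n (.n .z
  (.n .z (.l [M 216]))) (.n (.n (.l [M 53]) (.l [M 182])) .z))))) (.n (.n (.n (.n (.n .z (.n (.l
  [M 60]) (.l [M 188]))) (.n (.n (.l [M 30]) (.l [M 155])) (.n (.l [M 91]) .z))) .z) (.n .z (.n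
  (.n (.n (.l [M 22]) .z) .z) (.n (.n (.l [M 52]) (.l [M 180])) .z)))) (.n (.n (.n (.n (.n .z (.l
  [P 112, M 126, (127, .negSucc 1)])) (.n (.l [M 64]) (.l [M 191]))) .z) (.n (.n (.n (.l [M 19])
  .z) .z) (.n (.n .z (.l [M 176])) (.n .z (.l [M 246]))))) (.n (.n (.n .z (.n (.l [M 70]) .z)) .z)
  (.n (.n (.n (.l [M 26]) .z) .z) (.n .z (.n (.l [M 112]) .z)))))))

def idT : T :=
.n (.n (.n (.n (.n (.n (.n (.n (.l [P 0]) (.l [P 128])) (.n (.l [P 64]) (.l [P 192]))) (.n (.n (.l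
  [P 32]) (.l [P 160])) (.n (.l [P 96]) (.l [P 224])))) (.n (.n (.n (.l [P 16]) (.l [P 144])) (.n
  (.l [P 80]) (.l [P 208]))) (.n (.n (.l [P 48]) (.l [P 176])) (.n (.l [P 112]) (.l [P 240])))))
  (.n (.n (.n (.n (.l [P 8]) (.l [P 136])) (.n (.l [P 72]) (.l [P 200]))) (.n (.n (.l [P 40]) (.l
  [P 168])) (.n (.l [P 104]) (.l [P 232])))) (.n (.n (.n (.l [P 24]) (.l [P 152])) (.n (.l [P 88])
  (.l [P 216]))) (.n (.n (.l [P 56]) (.l [P 184])) (.n (.l [P 120]) .z))))) (.n (.n (.n (.n (.n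
  (.l [P 4]) (.l [P 132])) (.n (.l [P 68]) (.l [P 196]))) (.n (.n (.l [P 36]) (.l [P 164])) (.n
  (.l [P 100]) (.l [P 228])))) (.n (.n (.n (.l [P 20]) (.l [P 148])) (.n (.l [P 84]) (.l [P
  212]))) (.n (.n (.l [P 52]) (.l [P 180])) (.n (.l [P 116]) (.l [P 244]))))) (.n (.n (.n (.n (.l
  [P 12]) (.l [P 140])) (.n (.l [P 76]) (.l [P 204]))) (.n (.n (.l [P 44]) (.l [P 172])) (.n (.l
  [P 108]) (.l [P 236])))) (.n (.n (.n (.l [P 28]) (.l [P 156])) (.n (.l [P 92]) (.l [P 220])))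
  (.n (.n (.l [P 60]) (.l [P 188])) (.n (.l [P 124]) .z)))))) (.n (.n (.n (.n (.n (.n (.l [P 2])
  (.l [P 130])) (.n (.l [P 66]) (.l [P 194]))) (.n (.n (.l [P 34]) (.l [P 162])) (.n (.l [P 98])
  (.l [P 226])))) (.n (.n (.n (.l [P 18]) (.l [P 146])) (.n (.l [P 82]) (.l [P 210]))) (.n (.n (.l
  [P 50]) (.l [P 178])) (.n (.l [P 114]) (.l [P 242]))))) (.n (.n (.n (.n (.l [P 10]) (.l [P
  138])) (.n (.l [P 74]) (.l [P 202]))) (.n (.n (.l [P 42]) (.l [P 170])) (.n (.l [P 106]) (.l [P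
  234])))) (.n (.n (.n (.l [P 26]) (.l [P 154])) (.n (.l [P 90]) (.l [P 218]))) (.n (.n (.l [P
  58]) (.l [P 186])) (.n (.l [P 122]) .z))))) (.n (.n (.n (.n (.n (.l [P 6]) (.l [P 134])) (.n (.l
  [P 70]) (.l [P 198]))) (.n (.n (.l [P 38]) (.l [P 166])) (.n (.l [P 102]) (.l [P 230])))) (.n
  (.n (.n (.l [P 22]) (.l [P 150])) (.n (.l [P 86]) (.l [P 214]))) (.n (.n (.l [P 54]) (.l [P
  182])) (.n (.l [P 118]) (.l [P 246]))))) (.n (.n (.n (.n (.l [P 14]) (.l [P 142])) (.n (.l [P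
  78]) (.l [P 206]))) (.n (.n (.l [P 46]) (.l [P 174])) (.n (.l [P 110]) (.l [P 238])))) (.n (.n
  (.n (.l [P 30]) (.l [P 158])) (.n (.l [P 94]) (.l [P 222]))) (.n (.n (.l [P 62]) (.l [P 190]))
  (.n (.l [P 126]) .z))))))) (.n (.n (.n (.n (.n (.n (.n (.l [P 1]) (.l [P 129])) (.n (.l [P 65])
  (.l [P 193]))) (.n (.n (.l [P 33]) (.l [P 161])) (.n (.l [P 97]) (.l [P 225])))) (.n (.n (.n (.l
  [P 17]) (.l [P 145])) (.n (.l [P 81]) (.l [P 209]))) (.n (.n (.l [P 49]) (.l [P 177])) (.n (.l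
  [P 113]) (.l [P 241]))))) (.n (.n (.n (.n (.l [P 9]) (.l [P 137])) (.n (.l [P 73]) (.l [P
  201]))) (.n (.n (.l [P 41]) (.l [P 169])) (.n (.l [P 105]) (.l [P 233])))) (.n (.n (.n (.l [P
  25]) (.l [P 153])) (.n (.l [P 89]) (.l [P 217]))) (.n (.n (.l [P 57]) (.l [P 185])) (.n (.l [P
  121]) .z))))) (.n (.n (.n (.n (.n (.l [P 5]) (.l [P 133])) (.n (.l [P 69]) (.l [P 197]))) (.n
  (.n (.l [P 37]) (.l [P 165])) (.n (.l [P 101]) (.l [P 229])))) (.n (.n (.n (.l [P 21]) (.l [P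
  149])) (.n (.l [P 85]) (.l [P 213]))) (.n (.n (.l [P 53]) (.l [P 181])) (.n (.l [P 117]) (.l [P
  245]))))) (.n (.n (.n (.n (.l [P 13]) (.l [P 141])) (.n (.l [P 77]) (.l [P 205]))) (.n (.n (.l
  [P 45]) (.l [P 173])) (.n (.l [P 109]) (.l [P 237])))) (.n (.n (.n (.l [P 29]) (.l [P 157])) (.n
  (.l [P 93]) (.l [P 221]))) (.n (.n (.l [P 61]) (.l [P 189])) (.n (.l [P 125]) .z)))))) (.n (.n
  (.n (.n (.n (.n (.l [P 3]) (.l [P 131])) (.n (.l [P 67]) (.l [P 195]))) (.n (.n (.l [P 35]) (.l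
  [P 163])) (.n (.l [P 99]) (.l [P 227])))) (.n (.n (.n (.l [P 19]) (.l [P 147])) (.n (.l [P 83])
  (.l [P 211]))) (.n (.n (.l [P 51]) (.l [P 179])) (.n (.l [P 115]) (.l [P 243]))))) (.n (.n (.n
  (.n (.l [P 11]) (.l [P 139])) (.n (.l [P 75]) (.l [P 203]))) (.n (.n (.l [P 43]) (.l [P 171]))
  (.n (.l [P 107]) (.l [P 235])))) (.n (.n (.n (.l [P 27]) (.l [P 155])) (.n (.l [P 91]) (.l [P
  219]))) (.n (.n (.l [P 59]) (.l [P 187])) (.n (.l [P 123]) .z))))) (.n (.n (.n (.n (.n (.l [P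
  7]) (.l [P 135])) (.n (.l [P 71]) (.l [P 199]))) (.n (.n (.l [P 39]) (.l [P 167])) (.n (.l [P
  103]) (.l [P 231])))) (.n (.n (.n (.l [P 23]) (.l [P 151])) (.n (.l [P 87]) (.l [P 215]))) (.n
  (.n (.l [P 55]) (.l [P 183])) (.n (.l [P 119]) (.l [P 247]))))) (.n (.n (.n (.n (.l [P 15]) (.l
  [P 143])) (.n (.l [P 79]) (.l [P 207]))) (.n (.n (.l [P 47]) (.l [P 175])) (.n (.l [P 111]) (.l
  [P 239])))) (.n (.n (.n (.l [P 31]) (.l [P 159])) (.n (.l [P 95]) (.l [P 223]))) (.n (.n (.l [P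
  63]) (.l [P 191])) (.n (.l [P 127]) .z)))))))

/-- the representation -/
def rep : RepData where
  n := 248
  d := 8
  l := 8
  cart := [[2, 0, -1, 0, 0, 0, 0, 0], [0, 2, 0, -1, 0, 0, 0, 0], [-1, 0, 2, -1, 0, 0, 0, 0], [0, -1, -1, 2, -1, 0, 0, 0], [0, 0, 0, -1, 2, -1, 0, 0], [0, 0, 0, 0, -1, 2, -1, 0], [0, 0, 0, 0, 0, -1, 2, -1], [0, 0, 0, 0, 0, 0, -1, 2]]
  e := [e0, e1, e2, e3, e4, e5, e6, e7]
  f := [f0, f1, f2, f3, f4, f5, f6, f7]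
  h := [h0, h1, h2, h3, h4, h5, h6, h7]
  x := [x0, x1, x2, x3, x4, x5, x6, x7]
  x' := [u0, u1, u2, u3, u4, u5, u6, u7]
  y := [y0, y1, y2, y3, y4, y5, y6, y7]
  y' := [v0, v1, v2, v3, v4, v5, v6, v7]
  w := [(7, 8), (5, 6), (5, 7), (4, 5), (3, 4), (2, 3), (1, 2), (0, 1)]
  I := idT

def aA : Aff := ⟨(.ofNat 0),
.n (.n (.n (.n (.n (.n (.n (.n (.l [M 1]) (.l [M 119])) (.n (.l [P 74]) (.l [M 185]))) (.n (.n (.l
  [P 36]) (.l [P 164])) (.n (.l [M 93]) (.l [M 225])))) (.n (.n (.n (.l [P 15]) (.l [P 150])) (.n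
  (.l [M 90]) (.l [M 207]))) (.n (.n (.l [P 44]) (.l [M 181])) (.n (.l [M 135]) (.l [M 239])))))
  (.n (.n (.n (.n (.l [P 7]) (.l [P 138])) (.n (.l [M 68]) (.l [P 182]))) (.n (.n (.l [M 39]) (.l
  [M 187])) (.n (.l [P 117]) (.l [P 231])))) (.n (.n (.n (.l [M 28]) (.l [P 172])) (.n (.l [M 82])
  (.l [P 217]))) (.n (.n (.l [P 37]) (.l [M 190])) (.n (.l [M 120, M 122]) .z))))) (.n (.n (.n (.n
  (.n (.l [M 5]) (.l [P 147])) (.n (.l [M 72]) (.l [M 196]))) (.n (.n (.l [P 32]) (.l [P 160]))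
  (.n (.l [P 115]) (.l [M 220])))) (.n (.n (.n (.l [M 21]) (.l [M 163])) (.n (.l [M 99]) (.l [P
  221]))) (.n (.n (.l [M 61]) (.l [M 177])) (.n (.l [M 131]) (.l [M 245]))))) (.n (.n (.n (.n (.l
  [M 9]) (.l [P 139])) (.n (.l [M 69]) (.l [M 198]))) (.n (.n (.l [P 48]) (.l [P 152])) (.n (.l [P
  107]) (.l [M 237])))) (.n (.n (.n (.l [M 24]) (.l [M 155])) (.n (.l [M 91]) (.l [M 228]))) (.n
  (.n (.l [P 79]) (.l [P 194])) (.n (.l [P 124]) .z)))))) (.n (.n (.n (.n (.n (.n (.l [P 3]) (.l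
  [P 143])) (.n (.l [P 71]) (.l [P 188]))) (.n (.n (.l [M 45]) (.l [P 174])) (.n (.l [P 113]) (.l
  [M 227])))) (.n (.n (.n (.l [P 13]) (.l [M 158])) (.n (.l [M 88]) (.l [M 191]))) (.n (.n (.l [P
  42]) (.l [P 171])) (.n (.l [M 133]) (.l [P 243]))))) (.n (.n (.n (.n (.l [M 11]) (.l [P 136]))
  (.n (.l [P 64]) (.l [M 213]))) (.n (.n (.l [P 50]) (.l [P 166])) (.n (.l [P 105]) (.l [P
  229])))) (.n (.n (.n (.l [P 35]) (.l [M 151])) (.n (.l [M 80]) (.l [M 218]))) (.n (.n (.l [M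
  54]) (.l [P 195])) (.n (.l [P 122]) .z))))) (.n (.n (.n (.n (.n (.l [M 6]) (.l [P 149])) (.n (.l
  [P 67]) (.l [M 204]))) (.n (.n (.l [P 33]) (.l [P 170])) (.n (.l [M 94]) (.l [M 222])))) (.n (.n
  (.n (.l [M 23]) (.l [P 144])) (.n (.l [P 78]) (.l [M 209]))) (.n (.n (.l [M 58]) (.l [P 200]))
  (.n (.l [P 110]) (.l [P 247]))))) (.n (.n (.n (.n (.l [M 14]) (.l [P 141])) (.n (.l [P 86]) (.l
  [P 201]))) (.n (.n (.l [M 41]) (.l [P 162])) (.n (.l [P 118]) (.l [M 235])))) (.n (.n (.n (.l [P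
  31]) (.l [M 146])) (.n (.l [M 102]) (.l [M 230]))) (.n (.n (.l [P 55]) (.l [M 184])) (.n (.l [P
  126]) .z))))))) (.n (.n (.n (.n (.n (.n (.n (.l [M 0]) (.l [M 137])) (.n (.l [M 47]) (.l [P
  189]))) (.n (.n (.l [P 38]) (.l [M 169])) (.n (.l [M 103]) (.l [M 224])))) (.n (.n (.n (.l [M
  25]) (.l [P 153])) (.n (.l [P 77]) (.l [M 214]))) (.n (.n (.l [P 43]) (.l [M 180])) (.n (.l [P
  98]) (.l [M 241]))))) (.n (.n (.n (.n (.l [M 12]) (.l [M 129])) (.n (.l [P 85]) (.l [P 206])))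
  (.n (.n (.l [M 46]) (.l [M 161])) (.n (.l [P 106]) (.l [M 233])))) (.n (.n (.n (.l [M 17]) (.l
  [P 145])) (.n (.l [M 101]) (.l [P 216]))) (.n (.n (.l [P 63]) (.l [M 192])) (.n (.l [P 121])
  .z))))) (.n (.n (.n (.n (.n (.l [M 4]) (.l [M 114])) (.n (.l [M 76]) (.l [M 205]))) (.n (.n (.l
  [P 56]) (.l [P 159])) (.n (.l [M 89]) (.l [P 234])))) (.n (.n (.n (.l [M 20]) (.l [P 134])) (.n
  (.l [P 73]) (.l [M 202]))) (.n (.n (.l [M 59]) (.l [M 176])) (.n (.l [P 104]) (.l [M 244])))))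
  (.n (.n (.n (.n (.l [P 18]) (.l [P 142])) (.n (.l [P 81]) (.l [M 197]))) (.n (.n (.l [M 34]) (.l
  [M 183])) (.n (.l [P 111]) (.l [M 236])))) (.n (.n (.n (.l [M 29]) (.l [P 167])) (.n (.l [M 96])
  (.l [P 212]))) (.n (.n (.l [M 52]) (.l [P 193])) (.n (.l [M 124, M 125, M 126]) .z)))))) (.n (.n
  (.n (.n (.n (.n (.l [P 2]) (.l [M 116])) (.n (.l [P 70]) (.l [P 186]))) (.n (.n (.l [P 26]) (.l
  [M 148])) (.n (.l [M 84]) (.l [M 226])))) (.n (.n (.n (.l [M 27]) (.l [P 132])) (.n (.l [M 87])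
  (.l [M 215]))) (.n (.n (.l [M 51]) (.l [P 175])) (.n (.l [P 100]) (.l [P 242]))))) (.n (.n (.n
  (.n (.l [M 10]) (.l [P 140])) (.n (.l [M 95]) (.l [M 199]))) (.n (.n (.l [P 49]) (.l [P 178]))
  (.n (.l [P 108]) (.l [M 238])))) (.n (.n (.n (.l [M 19]) (.l [M 156])) (.n (.l [M 92]) (.l [P
  223]))) (.n (.n (.l [M 53]) (.l [M 168])) (.n (.l [M 121, M 122, M 123, M 124]) .z))))) (.n (.n
  (.n (.n (.n (.l [P 8]) (.l [M 112])) (.n (.l [P 66]) (.l [M 203]))) (.n (.n (.l [M 40]) (.l [P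
  157])) (.n (.l [M 97]) (.l [P 232])))) (.n (.n (.n (.l [M 22]) (.l [M 154])) (.n (.l [M 83]) (.l
  [M 211]))) (.n (.n (.l [P 62]) (.l [M 173])) (.n (.l [M 128]) (.l [P 246]))))) (.n (.n (.n (.n
  (.l [P 16]) (.l [P 130])) (.n (.l [P 60]) (.l [M 208]))) (.n (.n (.l [M 65]) (.l [P 179])) (.n
  (.l [P 109]) (.l [M 240])))) (.n (.n (.n (.l [P 30]) (.l [P 165])) (.n (.l [M 75]) (.l [P
  219]))) (.n (.n (.l [P 57]) (.l [M 210])) (.n (.l [M 126, M 127]) .z)))))))⟩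

def bA : Aff := ⟨(.ofNat 1),
.n (.n (.n (.n (.n (.n (.n (.n (.l [(0, .negSucc 1), M 112, M 127, M 246, M 247]) .z) (.n (.l [P
  236]) (.l [(192, .negSucc 1)]))) (.n (.n (.l [P 212, P 217]) .z) .z)) (.n (.n (.n (.l [P 188, P
  195]) (.l [(144, .negSucc 1)])) .z) (.n (.n (.l [P 230]) .z) (.n (.l [P 246]) (.l [(240,
  .negSucc 1)]))))) (.n (.n (.n (.n (.l [(8, .negSucc 1), M 166, M 174]) (.l [(136, .negSucc 1)]))
  (.n (.l [(72, .negSucc 1)]) (.l [(200, .negSucc 1)]))) (.n (.n (.l [M 219]) .z) (.n (.l [(104,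
  .negSucc 1)]) .z))) (.n (.n (.n (.l [(24, .negSucc 1), M 202, M 208]) .z) (.n .z (.l [(216,
  .negSucc 1)]))) (.n (.n (.l [M 230]) .z) (.n (.l [(246, .ofNat 2), (247, .ofNat 2)]) .z))))) (.n
  (.n (.n (.n (.n (.l [P 148, P 156]) (.l [(132, .negSucc 1)])) (.n (.l [(68, .negSucc 1)]) .z))
  (.n (.n (.l [P 216, P 221]) .z) (.n (.l [(100, .negSucc 1)]) .z))) (.n (.n (.n (.l [(20,
  .negSucc 1), M 197, M 204]) (.l [(148, .negSucc 1)])) (.n (.l [(84, .negSucc 1), M 242]) (.l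
  [(212, .negSucc 1)]))) (.n (.n (.l [(52, .negSucc 1), M 231]) .z) (.n .z (.l [(244, .negSucc
  1)]))))) (.n (.n (.n (.n (.l [(12, .negSucc 1), M 180, M 187]) (.l [(140, .negSucc 1)])) (.n (.l
  [(76, .negSucc 1)]) .z)) (.n (.n (.l [M 222]) .z) (.n (.l [(108, .negSucc 1)]) (.l [(236,
  .negSucc 1)])))) (.n (.n (.n (.l [(28, .negSucc 1), M 207, M 213]) (.l [(156, .negSucc 1)])) (.n
  (.l [(92, .negSucc 1), P 242]) .z)) (.n (.n (.l [P 235]) (.l [(188, .negSucc 1)])) (.n (.l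
  [(246, .negSucc 4), (247, .negSucc 4)]) .z)))))) (.n (.n (.n (.n (.n (.n (.l [(2, .negSucc 1), M
  134, M 142]) (.l [(130, .negSucc 1)])) (.n (.l [P 237]) (.l [(194, .negSucc 1)]))) (.n (.n (.l
  [P 219]) .z) (.n (.l [P 244]) (.l [(226, .negSucc 1)])))) (.n (.n (.n (.l [P 193, P 200]) .z)
  .z) (.n (.n (.l [M 227]) (.l [(178, .negSucc 1)])) .z))) (.n (.n (.n (.n (.l [(10, .negSucc 1),
  M 173, M 181]) (.l [(138, .negSucc 1)])) (.n (.l [M 237]) .z)) (.n (.n (.l [P 226]) .z) (.n (.l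
  [M 244]) .z))) (.n (.n (.n (.l [(26, .negSucc 1), M 211]) .z) .z) (.n (.n (.l [(58, .negSucc 1),
  M 234]) (.l [(186, .negSucc 1)])) (.n (.l [(246, .negSucc 3), (247, .negSucc 3)]) .z))))) (.n
  (.n (.n (.n (.n (.l [P 161, P 169]) .z) (.n (.l [P 238]) .z)) (.n (.n (.l [(38, .negSucc 1), P
  218]) .z) (.n (.l [(102, .negSucc 1)]) (.l [(230, .negSucc 1)])))) (.n (.n (.n (.l [P 206]) (.l
  [(150, .negSucc 1)])) (.n (.l [(86, .negSucc 1), P 241]) (.l [(214, .negSucc 1)]))) (.n (.n (.l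
  [(54, .negSucc 1), P 229]) (.l [(182, .negSucc 1)])) (.n .z (.l [(246, .negSucc 1)]))))) (.n (.n
  (.n (.n (.l [P 185, P 192]) .z) (.n (.l [(78, .negSucc 1), M 241]) (.l [(206, .negSucc 1)])))
  (.n (.n (.l [(46, .negSucc 1), M 224, M 228]) .z) (.n .z (.l [(238, .negSucc 1)])))) (.n (.n (.n
  (.l [(30, .negSucc 1), M 215]) .z) (.n (.l [(94, .negSucc 1)]) (.l [(222, .negSucc 1)]))) (.n
  (.n (.l [(62, .negSucc 1), P 233]) .z) (.n (.l [(246, .negSucc 2), (247, .negSucc 2)]) .z)))))))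
  (.n (.n (.n (.n (.n (.n (.n (.l [(1, .negSucc 1), M 126, M 127, M 135, P 246, P 247]) .z) (.n
  (.l [(65, .negSucc 1), P 234]) (.l [(193, .negSucc 1)]))) (.n (.n (.l [(33, .negSucc 1), M 218])
  (.l [(161, .negSucc 1)])) (.n (.l [(97, .negSucc 1)]) .z))) (.n (.n (.n (.l [(17, .negSucc 1), M
  191, M 199]) (.l [(145, .negSucc 1)])) (.n (.l [M 239]) (.l [(209, .negSucc 1)]))) (.n (.n (.l
  [M 226]) .z) (.n (.l [M 245]) .z)))) (.n (.n (.n (.n (.l [(9, .negSucc 1), M 168, M 177]) .z)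
  (.n (.l [P 239]) (.l [(201, .negSucc 1)]))) (.n (.n (.l [(41, .negSucc 1), M 220, M 225]) (.l
  [(169, .negSucc 1)])) (.n (.l [P 245]) .z))) (.n (.n (.n (.l [(25, .negSucc 1), M 203, M 210])
  (.l [(153, .negSucc 1)])) (.n .z (.l [(217, .negSucc 1)]))) (.n (.n .z (.l [(185, .negSucc 1)]))
  (.n (.l [(246, .negSucc 2), (247, .negSucc 2)]) .z))))) (.n (.n (.n (.n (.n (.l [P 155, P 163])
  .z) (.n (.l [(69, .negSucc 1)]) .z)) (.n (.n (.l [P 222]) .z) .z)) (.n (.n (.n (.l [(21,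
  .negSucc 1), M 198, M 205]) .z) (.n (.l [M 240]) .z)) (.n (.n (.l [(53, .negSucc 1), M 232]) .z)
  (.n (.l [(117, .negSucc 1)]) (.l [(245, .negSucc 1)]))))) (.n (.n (.n (.n (.l [P 182, P 189])
  .z) (.n (.l [P 240]) .z)) (.n (.n (.l [M 223]) .z) (.n (.l [(109, .negSucc 1)]) (.l [(237,
  .negSucc 1)])))) (.n (.n (.n (.l [P 209, P 214]) .z) (.n .z (.l [(221, .negSucc 1)]))) (.n (.n
  (.l [(61, .negSucc 1), P 232]) (.l [(189, .negSucc 1)])) (.n (.l [(246, .ofNat 4), (247, .ofNat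
  4)]) .z)))))) (.n (.n (.n (.n (.n (.n (.l [(3, .negSucc 1), M 141, M 149]) .z) (.n (.l [M 235])
  (.l [(195, .negSucc 1)]))) (.n (.n (.l [(35, .negSucc 1), P 215]) (.l [(163, .negSucc 1)])) (.n
  (.l [(99, .negSucc 1), P 243]) (.l [(227, .negSucc 1)])))) (.n (.n (.n (.l [P 201]) (.l [(147,
  .negSucc 1)])) .z) (.n (.n .z (.l [(179, .negSucc 1)])) (.n (.l [(115, .negSucc 1)]) .z)))) (.n
  (.n (.n (.n (.l [(11, .negSucc 1), M 176, M 183]) (.l [(139, .negSucc 1)])) .z) (.n (.n (.l [P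
  227]) (.l [(171, .negSucc 1)])) (.n (.l [(107, .negSucc 1)]) (.l [(235, .negSucc 1)])))) (.n (.n
  (.n (.l [M 206]) (.l [(155, .negSucc 1)])) (.n (.l [(91, .negSucc 1), M 243]) (.l [(219,
  .negSucc 1)]))) (.n (.n (.l [(59, .negSucc 1), P 231]) .z) (.n (.l [(246, .ofNat 6), (247,
  .ofNat 6)]) .z))))) (.n (.n (.n (.n (.n (.l [(7, .negSucc 1), M 162, M 170]) (.l [M 247])) (.n
  (.l [M 236]) .z)) (.n (.n (.l [P 223]) .z) (.n (.l [(103, .negSucc 1)]) .z))) (.n (.n (.n (.l [M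
  201]) .z) .z) (.n (.n (.l [(55, .negSucc 1), M 233]) .z) (.n .z (.l [(247, .negSucc 1)]))))) (.n
  (.n (.n (.n (.l [P 186, P 194]) (.l [(143, .negSucc 1)])) (.n (.l [M 238]) .z)) (.n (.n (.l
  [(47, .negSucc 1), M 229]) (.l [(175, .negSucc 1)])) (.n (.l [(111, .negSucc 1)]) (.l [(239,
  .negSucc 1)])))) (.n (.n (.n (.l [(31, .negSucc 1), P 211]) .z) (.n .z (.l [(223, .negSucc
  1)]))) (.n .z (.n (.l [P 246, (247, .ofNat 2)]) .z)))))))⟩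

def cA : Aff := ⟨(.ofNat 0),
.n (.n (.n (.n (.n (.n (.n (.n (.l [M 0]) (.l [M 136])) (.n (.l [P 58]) (.l [P 194]))) (.n (.n (.l
  [P 30]) (.l [P 155])) (.n (.l [M 97]) (.l [M 224])))) (.n (.n (.n (.l [M 19]) (.l [M 139])) (.n
  (.l [M 65]) (.l [M 204]))) (.n (.n (.l [P 60]) (.l [M 175])) (.n (.l [P 105]) (.l [M 241])))))
  (.n (.n (.n (.n (.l [M 10]) (.l [M 128])) (.n (.l [M 71]) (.l [M 211]))) (.n (.n (.l [P 38]) (.l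
  [P 147])) (.n (.l [M 90]) (.l [M 233])))) (.n (.n (.n (.l [P 20]) (.l [M 131])) (.n (.l [M 88])
  (.l [M 220]))) (.n (.n (.l [M 75]) (.l [P 180])) (.n (.l [P 120]) .z))))) (.n (.n (.n (.n (.n
  (.l [M 3]) (.l [M 115])) (.n (.l [M 62]) (.l [M 197]))) (.n (.n (.l [M 47]) (.l [P 171])) (.n
  (.l [M 79]) (.l [P 231])))) (.n (.n (.n (.l [P 24]) (.l [P 133])) (.n (.l [P 70]) (.l [P 203])))
  (.n (.n (.l [M 46]) (.l [P 184])) (.n (.l [P 95]) (.l [P 243]))))) (.n (.n (.n (.n (.l [M 17])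
  (.l [P 141])) (.n (.l [M 83]) (.l [M 208]))) (.n (.n (.l [P 35]) (.l [P 191])) (.n (.l [P 103])
  (.l [M 234])))) (.n (.n (.n (.l [P 34]) (.l [P 149])) (.n (.l [M 87]) (.l [M 216]))) (.n (.n (.l
  [P 48]) (.l [M 188])) (.n (.l [M 123, M 124, M 125]) .z)))))) (.n (.n (.n (.n (.n (.n (.l [P 1])
  (.l [M 117])) (.n (.l [M 73]) (.l [P 192]))) (.n (.n (.l [P 28]) (.l [P 153])) (.n (.l [M 91])
  (.l [P 225])))) (.n (.n (.n (.l [P 26]) (.l [M 137])) (.n (.l [P 81]) (.l [M 222]))) (.n (.n (.l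
  [M 51]) (.l [P 186])) (.n (.l [P 99]) (.l [M 238]))))) (.n (.n (.n (.n (.l [M 8]) (.l [M 145]))
  (.n (.l [P 89]) (.l [M 190]))) (.n (.n (.l [M 41]) (.l [P 169])) (.n (.l [P 107]) (.l [M
  236])))) (.n (.n (.n (.l [P 18]) (.l [P 161])) (.n (.l [M 104]) (.l [M 214]))) (.n (.n (.l [P
  64]) (.l [P 178])) (.n (.l [M 120, M 122, M 123]) .z))))) (.n (.n (.n (.n (.n (.l [M 7]) (.l [M
  113])) (.n (.l [P 84]) (.l [P 193]))) (.n (.n (.l [P 40]) (.l [P 165])) (.n (.l [P 109]) (.l [M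
  235])))) (.n (.n (.n (.l [P 21]) (.l [M 151])) (.n (.l [M 93]) (.l [M 218]))) (.n (.n (.l [M
  49]) (.l [M 167])) (.n (.l [M 129]) (.l [M 245]))))) (.n (.n (.n (.n (.l [M 15]) (.l [M 135]))
  (.n (.l [P 77]) (.l [M 205]))) (.n (.n (.l [M 52]) (.l [P 181])) (.n (.l [P 101]) (.l [M
  242])))) (.n (.n (.n (.l [P 32]) (.l [P 173])) (.n (.l [M 85]) (.l [M 210]))) (.n (.n (.l [M
  68]) (.l [M 202])) (.n (.l [M 125, M 126, M 127]) .z))))))) (.n (.n (.n (.n (.n (.n (.n (.l [P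
  2]) (.l [M 118])) (.n (.l [M 80]) (.l [P 198]))) (.n (.n (.l [P 29]) (.l [P 154])) (.n (.l [M
  96]) (.l [P 226])))) (.n (.n (.n (.l [M 12]) (.l [M 138])) (.n (.l [P 82]) (.l [P 207]))) (.n
  (.n (.l [M 54]) (.l [P 163])) (.n (.l [M 134]) (.l [M 240]))))) (.n (.n (.n (.n (.l [M 5]) (.l
  [M 146])) (.n (.l [M 66]) (.l [P 195]))) (.n (.n (.l [M 42]) (.l [P 170])) (.n (.l [P 112]) (.l
  [M 232])))) (.n (.n (.n (.l [P 37]) (.l [P 162])) (.n (.l [P 74]) (.l [M 215]))) (.n (.n (.l [M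
  45]) (.l [P 179])) (.n (.l [M 121, M 123]) .z))))) (.n (.n (.n (.n (.n (.l [M 9]) (.l [P 148]))
  (.n (.l [M 61]) (.l [M 196]))) (.n (.n (.l [P 25]) (.l [P 166])) (.n (.l [P 110]) (.l [P
  221])))) (.n (.n (.n (.l [P 22]) (.l [P 156])) (.n (.l [M 94]) (.l [M 219]))) (.n (.n (.l [P
  55]) (.l [P 174])) (.n (.l [M 130]) (.l [M 246]))))) (.n (.n (.n (.n (.l [P 11]) (.l [P 140]))
  (.n (.l [P 78]) (.l [M 206]))) (.n (.n (.l [M 57]) (.l [P 158])) (.n (.l [P 102]) (.l [P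
  239])))) (.n (.n (.n (.l [P 33]) (.l [M 143])) (.n (.l [M 86]) (.l [P 229]))) (.n (.n (.l [M
  69]) (.l [M 183])) (.n (.l [P 125]) .z)))))) (.n (.n (.n (.n (.n (.n (.l [M 4]) (.l [M 152]))
  (.n (.l [M 63]) (.l [P 201]))) (.n (.n (.l [P 44]) (.l [P 177])) (.n (.l [P 114]) (.l [M
  223])))) (.n (.n (.n (.l [M 16]) (.l [P 168])) (.n (.l [M 76]) (.l [M 200]))) (.n (.n (.l [M
  50]) (.l [P 185])) (.n (.l [M 132]) (.l [P 244]))))) (.n (.n (.n (.n (.l [P 13]) (.l [M 144]))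
  (.n (.l [M 56]) (.l [P 212]))) (.n (.n (.l [P 39]) (.l [P 164])) (.n (.l [P 106]) (.l [M
  230])))) (.n (.n (.n (.l [P 31]) (.l [P 160])) (.n (.l [M 98]) (.l [M 213]))) (.n (.n (.l [M
  59]) (.l [P 199])) (.n (.l [P 123]) .z))))) (.n (.n (.n (.n (.n (.l [M 6]) (.l [M 142])) (.n (.l
  [M 72]) (.l [P 187]))) (.n (.n (.l [P 43]) (.l [M 182])) (.n (.l [P 108]) (.l [P 228])))) (.n
  (.n (.n (.l [M 23]) (.l [M 150])) (.n (.l [M 92]) (.l [M 217]))) (.n (.n (.l [P 53]) (.l [M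
  189])) (.n (.l [P 111]) (.l [M 247]))))) (.n (.n (.n (.n (.l [M 14]) (.l [M 157])) (.n (.l [M
  100]) (.l [P 209]))) (.n (.n (.l [M 36]) (.l [M 176])) (.n (.l [P 119]) (.l [P 237])))) (.n (.n
  (.n (.l [P 27]) (.l [M 159])) (.n (.l [P 116]) (.l [M 227]))) (.n (.n (.l [M 67]) (.l [P 172]))
  (.n (.l [P 127]) .z)))))))⟩

def p1_0 : Step := ⟨.word [1, 25, 1], ⟨(.ofNat 1), .n (.n (.n (.n (.n (.n (.n (.n .z (.l [P 119, M 128])) (.n (.l [M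
  60, M 64]) .z)) (.n (.n .z (.l [M 160, P 165])) (.n (.l [M 96, P 101]) (.l [M 220, M 224]))))
  (.n (.n (.n (.l [M 16, P 18]) (.l [M 144, P 150])) (.n (.l [M 75, M 80]) .z)) (.n (.n .z (.l [M
  176, P 180])) (.n .z (.l [M 239, M 240]))))) (.n (.n (.n (.n (.l [M 7, M 8]) (.l [M 130, M
  136])) (.n (.l [M 68, M 72]) (.l [M 195, M 200]))) (.n (.n .z (.l [M 168, P 173])) (.n (.l [M
  104, P 109]) (.l [M 232, P 234])))) (.n (.n (.n .z (.l [M 152, P 157])) (.n (.l [M 83, M 88])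
  .z)) (.n .z (.n (.l [(120, .negSucc 1), M 122]) .z))))) (.n (.n (.n (.n .z (.n (.l [M 68, P 72])
  .z)) (.n (.n .z (.l [M 159, M 164])) (.n .z (.l [M 225, M 228])))) (.n .z (.n (.n (.l [M 47, M
  52]) (.l [M 176, M 180])) .z))) (.n (.n (.n (.n (.l [M 11, M 12]) .z) .z) (.n (.n .z (.l [M 167,
  M 172])) (.n .z (.l [M 235, M 236])))) (.n (.n .z (.n .z (.l [M 220, P 224]))) (.n (.n (.l [M
  60, P 64]) (.l [M 188, P 193])) .z))))) (.n (.n (.n (.n (.n (.n .z (.l [M 130, P 136])) (.n (.l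
  [M 66, P 70]) (.l [M 189, M 194]))) (.n (.n .z (.l [M 162, P 166])) .z)) (.n (.n (.n (.l [M 16,
  M 18]) (.l [M 146, P 151])) (.n (.l [M 82, P 87]) .z)) .z)) (.n (.n (.n (.n (.l [M 9, M 10]) (.l
  [M 138, P 143])) (.n (.l [M 74, P 79]) .z)) (.n (.n .z (.l [M 170, P 174])) (.n .z (.l [M 232, M
  234])))) (.n (.n (.n .z (.l [M 154, P 158])) (.n (.l [M 90, P 95]) .z)) (.n (.n (.l [M 53, M
  58]) (.l [M 182, M 186])) .z)))) (.n (.n (.n (.n .z (.n (.l [M 66, M 70]) .z)) (.n (.n .z (.l [M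
  162, M 166])) .z)) (.n (.n (.n (.l [M 19, M 22]) (.l [M 144, M 150])) .z) (.n (.n (.l [M 54, P
  59]) (.l [M 182, P 186])) .z))) (.n (.n (.n .z (.n .z (.l [M 201, M 206]))) (.n (.n (.l [M 41, M
  46]) (.l [M 170, M 174])) (.n .z (.l [M 237, M 238])))) (.n (.n (.n .z (.l [M 154, M 158])) .z)
  .z))))) (.n (.n (.n (.n (.n (.n .z (.n (.l [M 61, M 65]) (.l [M 188, M 193]))) (.n .z (.n (.l [M
  97, P 103]) (.l [M 225, P 228])))) (.n (.n .z (.n (.l [M 81, P 85]) .z)) (.n (.n .z (.l [M 177,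
  P 181])) .z))) (.n (.n (.n (.n (.l [M 9, P 10]) .z) (.n (.l [M 73, P 77]) (.l [M 201, P 206])))
  (.n (.n (.l [M 41, P 46]) .z) .z)) (.n (.n .z (.n (.l [M 89, P 93]) .z)) .z))) (.n (.n (.n .z
  (.n (.n .z (.l [M 160, M 165])) (.n (.l [M 96, M 101]) (.l [M 229, P 231])))) (.n (.n .z (.n (.l
  [M 81, M 85]) .z)) (.n (.n (.l [M 53, P 58]) (.l [M 177, M 181])) (.n (.l [M 111, M 117]) .z))))
  (.n (.n (.n (.n (.l [M 13, P 15]) .z) (.n (.l [M 73, M 77]) .z)) (.n (.n .z (.l [M 168, M 173]))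
  (.n (.l [M 104, M 109]) (.l [M 237, P 238])))) (.n (.n (.n .z (.l [M 152, M 157])) (.n (.l [M
  89, M 93]) .z)) (.n (.n (.l [M 61, P 65]) (.l [M 189, P 194])) .z))))) (.n (.n (.n (.n (.n .z
  (.n (.l [M 67, P 71]) (.l [M 195, P 200]))) .z) (.n (.n (.n (.l [M 19, P 22]) .z) (.n (.l [M 83,
  P 88]) .z)) (.n (.n .z (.l [M 175, M 179])) .z))) (.n (.n (.n (.n (.l [M 11, P 12]) .z) (.n (.l
  [M 75, P 80]) .z)) (.n .z (.n .z (.l [M 235, P 236])))) (.n (.n (.n (.l [M 23, M 27]) .z) .z)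
  (.n (.n (.l [M 54, M 59]) (.l [M 183, M 187])) .z)))) (.n (.n (.n (.n (.n (.l [M 7, P 8]) .z)
  (.n (.l [M 67, M 71]) .z)) (.n (.n .z (.l [M 167, P 172])) (.n (.l [M 97, M 103]) (.l [M 229, M
  231])))) (.n (.n (.n (.l [M 23, P 27]) (.l [M 146, M 151])) (.n (.l [M 82, M 87]) .z)) (.n (.n
  .z (.l [M 183, P 187])) (.n (.l [M 119, P 128]) .z)))) (.n (.n (.n (.n (.l [M 13, M 15]) (.l [M
  138, M 143])) (.n (.l [M 74, M 79]) .z)) (.n (.n (.l [M 47, P 52]) (.l [M 175, P 179])) (.n (.l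
  [M 111, P 117]) (.l [M 239, P 240])))) (.n (.n (.n .z (.l [M 159, P 164])) (.n (.l [M 90, M 95])
  .z)) .z)))))⟩⟩

def p1_1 : Step := ⟨.word [3, 27, 3], ⟨(.ofNat 1), .n (.n (.n (.n (.n (.n .z (.n (.n (.l [M 29, M 32]) (.l [M 154, M
  160])) (.n (.l [M 90, M 96]) .z))) (.n (.n (.n .z (.l [M 138, M 144])) (.n .z (.l [M 204, M
  208]))) (.n .z (.n .z (.l [M 238, M 240]))))) (.n (.n (.n (.n (.l [M 8, P 10]) .z) .z) (.n (.n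
  (.l [M 40, P 44]) (.l [M 162, M 168])) (.n (.l [M 97, M 104]) .z))) (.n (.n (.n (.l [M 20, M
  24]) (.l [M 146, M 152])) .z) .z))) (.n (.n (.n (.n .z (.n .z (.l [M 190, M 196]))) (.n .z (.n
  (.l [M 94, M 100]) .z))) (.n (.n (.n (.l [M 20, P 24]) .z) (.n (.l [M 78, M 84]) (.l [M 209, M
  212]))) (.n .z (.n (.l [M 110, M 116]) .z)))) (.n (.n (.n .z (.n .z (.l [M 204, P 208]))) (.n
  (.n (.l [M 40, M 44]) .z) (.n (.l [M 102, M 108]) .z))) (.n (.n (.n (.l [M 25, M 28]) .z) (.n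
  (.l [M 86, M 92]) .z)) .z)))) (.n (.n (.n (.n (.n .z (.n (.l [M 66, P 73]) .z)) (.n (.n (.l [M
  34, P 37]) (.l [M 162, P 168])) .z)) (.n (.n (.n .z (.l [M 146, P 152])) (.n (.l [M 82, P 89])
  (.l [M 210, P 213]))) (.n (.n (.l [M 45, M 50]) .z) (.n .z (.l [M 241, M 242]))))) (.n (.n (.n
  (.n (.l [M 8, M 10]) (.l [M 138, P 144])) (.n (.l [M 74, P 81]) (.l [M 197, M 202]))) (.n (.n .z
  (.l [M 170, P 177])) .z)) (.n (.n (.n .z (.l [M 154, P 160])) (.n (.l [M 90, P 96]) (.l [M 215,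
  M 218]))) .z))) (.n (.n (.n (.n (.n (.l [M 5, M 6]) .z) (.n (.l [M 70, P 77]) .z)) (.n (.n (.l
  [M 35, M 38]) (.l [M 166, P 173])) (.n (.l [M 102, P 108]) .z))) (.n (.n (.n .z (.l [M 143, M
  150])) (.n (.l [M 86, P 92]) (.l [M 214, P 217]))) (.n .z (.n (.l [M 118, P 129]) .z)))) (.n (.n
  (.n .z (.n (.l [M 78, P 84]) .z)) (.n (.n .z (.l [M 174, P 181])) (.n (.l [M 110, P 116]) (.l [M
  238, P 240])))) (.n (.n (.n (.l [M 30, P 33]) (.l [M 158, P 165])) (.n (.l [M 94, P 100]) (.l [M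
  219, M 222]))) (.n (.n .z (.l [M 190, P 196])) .z)))))) (.n (.n (.n (.n (.n (.n (.n .z (.l [P
  118, M 129])) .z) (.n (.n (.l [M 30, M 33]) (.l [M 155, M 161])) (.n (.l [M 97, P 104]) .z)))
  (.n (.n (.n .z (.l [M 139, M 145])) (.n (.l [M 74, M 81]) (.l [M 209, P 212]))) (.n (.n .z (.l
  [M 170, M 177])) (.n .z (.l [M 241, P 242]))))) (.n (.n (.n (.n (.l [M 7, M 9]) (.l [M 131, M
  137])) (.n (.l [M 66, M 73]) .z)) (.n (.n .z (.l [M 163, M 169])) .z)) (.n (.n (.n (.l [M 25, P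
  28]) (.l [M 147, M 153])) (.n (.l [M 82, M 89]) (.l [M 214, M 217]))) (.n (.n (.l [M 51, M 57])
  .z) (.n (.l [(121, .negSucc 1), M 123]) .z))))) (.n (.n (.n (.n (.n (.l [M 5, P 6]) .z) (.n .z
  (.l [M 197, P 202]))) (.n (.n (.l [M 34, M 37]) (.l [M 158, M 165])) (.n (.l [M 95, M 101])
  .z))) (.n (.n .z (.n (.l [M 79, M 85]) (.l [M 210, M 213]))) (.n (.n .z (.l [M 174, M 181]))
  .z))) (.n (.n (.n .z (.n (.l [M 70, M 77]) .z)) (.n (.n (.l [M 45, P 50]) (.l [M 166, M 173]))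
  (.n (.l [M 103, M 109]) (.l [M 237, P 239])))) (.n (.n (.n (.l [M 29, P 32]) (.l [M 151, M
  157])) (.n (.l [M 87, M 93]) .z)) .z)))) (.n (.n (.n (.n (.n (.n .z (.l [M 131, P 137])) .z) (.n
  (.n (.l [M 35, P 38]) (.l [M 163, P 169])) (.n .z (.l [M 223, M 227])))) (.n (.n (.n .z (.l [M
  147, P 153])) .z) (.n (.n (.l [M 51, P 57]) .z) .z))) (.n (.n (.n (.n .z (.l [M 139, P 145]))
  (.n .z (.l [M 203, P 207]))) (.n (.n (.l [M 39, M 43]) .z) .z)) (.n (.n (.n .z (.l [M 155, P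
  161])) (.n .z (.l [M 219, P 222]))) .z))) (.n (.n (.n (.n (.n (.l [M 7, P 9]) .z) .z) (.n (.n
  (.l [M 39, P 43]) .z) (.n (.l [M 103, P 109]) .z))) (.n (.n (.n .z (.l [M 151, P 157])) (.n (.l
  [M 87, P 93]) (.l [M 215, P 218]))) .z)) (.n (.n (.n (.n .z (.l [M 143, P 150])) (.n (.l [M 79,
  P 85]) (.l [M 203, M 207]))) (.n .z (.n .z (.l [M 237, M 239])))) (.n (.n .z (.n (.l [M 95, P
  101]) (.l [M 223, P 227]))) .z)))))⟩⟩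

def p1_2 : Step := ⟨.word [5, 29, 5], ⟨(.ofNat 1), .n (.n (.n (.n (.n (.n (.n (.n .z (.l [M 128, P 136])) (.n .z (.l
  [M 187, M 192]))) (.n (.n .z (.l [M 153, M 160])) .z)) (.n (.n (.n .z (.l [M 137, M 144])) .z)
  (.n (.n (.l [M 48, P 53]) .z) (.n .z (.l [M 240, P 242]))))) (.n (.n (.n (.n .z (.l [M 128, M
  136])) (.n .z (.l [M 200, P 205]))) (.n (.n .z (.l [M 161, M 168])) (.n .z (.l [M 230, M
  232])))) (.n (.n (.n .z (.l [M 145, M 152])) (.n .z (.l [M 216, P 220]))) (.n (.n (.l [M 56, P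
  61]) (.l [M 179, M 184])) .z)))) (.n (.n (.n (.n .z (.n (.l [M 63, M 68]) .z)) (.n (.n (.l [M
  36, P 41]) (.l [M 164, P 171])) (.n (.l [M 93, M 100]) .z))) (.n (.n .z (.n (.l [M 77, M 84])
  .z)) (.n (.n .z (.l [M 180, P 185])) (.n (.l [M 109, M 116]) .z)))) (.n (.n (.n (.n (.l [M 12, P
  14]) .z) (.n (.l [M 76, P 83]) .z)) (.n (.n .z (.l [M 172, P 178])) (.n (.l [M 101, M 108])
  .z))) (.n (.n .z (.n (.l [M 85, M 92]) (.l [M 216, M 220]))) (.n (.n (.l [M 55, M 60]) .z)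
  .z))))) (.n (.n (.n (.n (.n (.n .z (.l [P 117, M 130])) (.n .z (.l [M 194, P 199]))) (.n (.n .z
  (.l [M 155, M 162])) (.n .z (.l [M 226, P 229])))) (.n (.n (.n (.l [M 18, P 21]) (.l [M 139, M
  146])) .z) (.n (.n .z (.l [M 172, M 178])) (.n .z (.l [M 240, M 242]))))) (.n (.n (.n (.n .z (.l
  [M 131, M 138])) .z) (.n (.n (.l [M 42, P 47]) (.l [M 163, M 170])) .z)) (.n (.n (.n (.l [M 22,
  M 26]) (.l [M 147, M 154])) .z) (.n (.n .z (.l [M 186, P 191])) (.n (.l [M 120, (122, .negSucc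
  1), M 123]) .z))))) (.n (.n (.n (.n (.n (.l [M 6, P 9]) .z) (.n (.l [M 70, P 78]) (.l [M 193, M
  198]))) (.n .z (.n (.l [M 95, M 102]) (.l [M 230, P 232])))) (.n (.n (.n (.l [M 22, P 26]) .z)
  (.n (.l [M 79, M 86]) .z)) (.n (.n (.l [M 49, M 54]) .z) .z))) (.n (.n (.n (.n (.l [M 12, M 14])
  .z) (.n (.l [M 70, M 78]) (.l [M 206, P 211]))) (.n .z (.n (.l [M 103, M 110]) (.l [M 238, P
  241])))) (.n (.n .z (.n (.l [M 87, M 94]) .z)) (.n (.n (.l [M 62, P 67]) .z) .z)))))) (.n (.n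
  (.n (.n (.n (.n .z (.n .z (.l [M 193, P 198]))) (.n (.n .z (.l [M 161, P 168])) (.n .z (.l [M
  221, M 225])))) (.n (.n (.n (.l [M 15, M 17]) (.l [M 145, P 152])) .z) (.n (.n (.l [M 49, P 54])
  (.l [M 169, M 177])) (.n .z (.l [M 238, M 241]))))) (.n (.n (.n (.n (.l [M 6, M 9]) (.l [M 137,
  P 144])) .z) (.n (.n (.l [M 36, M 41]) (.l [M 169, P 177])) (.n .z (.l [M 233, P 235])))) (.n
  (.n (.n .z (.l [M 153, P 160])) .z) (.n (.n .z (.l [M 180, M 185])) .z)))) (.n (.n (.n (.n (.n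
  (.l [M 5, P 7]) .z) (.n (.l [M 69, P 75]) .z)) (.n .z (.n (.l [M 101, P 108]) (.l [M 226, M
  229])))) (.n (.n (.n (.l [M 18, M 21]) .z) (.n (.l [M 85, P 92]) .z)) (.n (.n (.l [M 48, M 53])
  .z) (.n (.l [M 117, P 130]) .z)))) (.n (.n (.n .z (.n (.l [M 77, P 84]) (.l [M 200, M 205])))
  (.n .z (.n (.l [M 109, P 116]) .z))) (.n (.n .z (.n (.l [M 93, P 100]) (.l [M 221, P 225]))) (.n
  (.n (.l [M 56, M 61]) .z) .z))))) (.n (.n (.n (.n (.n (.n .z (.l [M 131, P 138])) (.n (.l [M 62,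
  M 67]) .z)) (.n (.n .z (.l [M 163, P 170])) .z)) (.n (.n (.n .z (.l [M 147, P 154])) (.n (.l [M
  76, M 83]) (.l [M 206, M 211]))) (.n (.n .z (.l [M 179, P 184])) .z))) (.n (.n (.n (.n .z (.l [M
  139, P 146])) (.n (.l [M 69, M 75]) .z)) (.n (.n .z (.l [M 164, M 171])) (.n .z (.l [M 233, M
  235])))) (.n (.n (.n (.l [M 27, P 31]) (.l [M 155, P 162])) .z) (.n (.n .z (.l [M 187, P 192]))
  .z)))) (.n (.n (.n (.n (.n (.l [M 5, M 7]) .z) (.n .z (.l [M 194, M 199]))) (.n .z (.n (.l [M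
  103, P 110]) .z))) (.n (.n .z (.n (.l [M 87, P 94]) .z)) (.n (.n (.l [M 55, P 60]) .z) (.n (.l
  [M 111, M 119]) .z)))) (.n (.n (.n (.n (.l [M 15, P 17]) .z) (.n (.l [M 79, P 86]) .z)) (.n (.n
  (.l [M 42, M 47]) .z) (.n (.l [M 111, P 119]) .z))) (.n (.n (.n (.l [M 27, M 31]) .z) (.n (.l [M
  95, P 102]) .z)) (.n (.n (.l [M 63, P 68]) (.l [M 186, M 191])) .z))))))⟩⟩

def p1_3 : Step := ⟨.word [7, 31, 7], ⟨(.ofNat 1), .n (.n (.n (.n (.n (.n (.n .z (.n (.l [M 64, P 70]) .z)) (.n (.n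
  (.l [M 32, P 36]) (.l [M 160, P 167])) .z)) (.n (.n .z (.n (.l [M 80, P 87]) .z)) (.n (.n (.l [M
  43, M 48]) (.l [M 168, M 176])) .z))) (.n (.n (.n (.n .z (.l [M 136, P 143])) .z) (.n (.n .z (.l
  [M 168, P 176])) (.n (.l [M 104, P 111]) .z))) (.n (.n (.n .z (.l [M 152, P 159])) (.n (.l [M
  88, P 95]) (.l [M 212, M 216]))) (.n (.n (.l [M 50, M 56]) (.l [M 184, P 190])) .z)))) (.n (.n
  (.n (.n (.n (.l [M 4, P 5]) (.l [M 132, P 139])) .z) (.n (.n (.l [M 32, M 36]) (.l [M 157, M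
  164])) (.n (.l [M 100, P 107]) .z))) (.n (.n (.n (.l [M 17, M 20]) (.l [M 148, P 155])) (.n (.l
  [M 84, P 91]) (.l [M 212, P 216]))) (.n (.n .z (.l [M 173, M 180])) (.n (.l [M 116, P 131])
  .z)))) (.n (.n (.n (.n (.l [M 10, M 12]) (.l [M 140, P 147])) (.n .z (.l [M 199, M 204]))) (.n
  (.n (.l [M 44, P 49]) (.l [M 165, M 172])) (.n (.l [M 108, P 115]) (.l [M 236, P 238])))) (.n
  (.n (.n .z (.l [M 156, P 163])) (.n (.l [M 92, P 99]) .z)) (.n (.n (.l [M 60, P 66]) .z) .z)))))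
  (.n (.n (.n (.n (.n (.n .z (.l [M 130, P 138])) (.n (.l [M 60, M 66]) .z)) (.n .z (.n .z (.l [M
  222, M 226])))) (.n (.n .z (.n (.l [M 75, M 82]) (.l [M 205, M 210]))) (.n (.n (.l [M 50, P 56])
  .z) (.n .z (.l [M 242, P 243]))))) (.n (.n (.n (.n (.l [M 10, P 12]) (.l [M 130, M 138])) (.n
  (.l [M 67, M 74]) .z)) (.n (.n (.l [M 37, M 42]) .z) .z)) (.n (.n (.n (.l [M 26, P 30]) .z) (.n
  (.l [M 83, M 90]) .z)) .z))) (.n (.n (.n (.n .z (.n (.l [M 64, M 70]) (.l [M 198, P 203]))) (.n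
  .z (.n .z (.l [M 227, M 230])))) (.n .z (.n .z (.n (.l [M 110, M 118]) .z)))) (.n (.n .z (.n .z
  (.n (.l [M 110, P 118]) (.l [M 236, M 238])))) (.n (.n (.n (.l [M 26, M 30]) .z) (.n .z (.l [M
  222, P 226]))) (.n (.n .z (.l [M 184, M 190])) .z)))))) (.n (.n (.n (.n (.n (.n (.n .z (.l [M
  129, P 137])) .z) .z) (.n (.n (.n (.l [M 17, P 20]) .z) .z) (.n (.n (.l [M 44, M 49]) (.l [M
  177, P 183])) .z))) (.n (.n (.n (.n (.l [M 9, P 11]) (.l [M 129, M 137])) .z) .z) (.n (.n (.n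
  (.l [M 21, M 25]) .z) (.n .z (.l [M 217, P 221]))) (.n (.n (.l [M 57, P 63]) .z) .z)))) (.n (.n
  (.n (.n (.n (.l [M 4, M 5]) .z) (.n .z (.l [M 191, M 197]))) (.n (.n (.l [M 37, P 42]) (.l [M
  165, P 172])) .z)) (.n (.n (.n (.l [M 21, P 25]) .z) .z) (.n (.n .z (.l [M 181, P 187])) (.n (.l
  [M 109, M 117]) .z)))) (.n (.n (.n .z (.n .z (.l [M 205, P 210]))) (.n (.n .z (.l [M 173, P
  180])) (.n (.l [M 109, P 117]) (.l [M 235, M 237])))) (.n (.n (.n .z (.l [M 157, P 164])) (.n .z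
  (.l [M 217, M 221]))) .z)))) (.n (.n (.n (.n (.n (.n .z (.l [P 116, M 131])) (.n (.l [M 67, P
  74]) .z)) (.n (.n (.l [M 31, M 35]) (.l [M 156, M 163])) (.n (.l [M 92, M 99]) (.l [M 227, P
  230])))) (.n (.n (.n .z (.l [M 140, M 147])) (.n (.l [M 83, P 90]) (.l [M 211, P 215]))) (.n .z
  (.n (.l [M 108, M 115]) (.l [M 242, M 243]))))) (.n (.n (.n (.n (.l [M 9, M 11]) (.l [M 132, M
  139])) (.n (.l [M 75, P 82]) (.l [M 198, M 203]))) (.n (.n (.l [M 43, P 48]) .z) (.n (.l [M 100,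
  M 107]) (.l [M 235, P 237])))) (.n (.n (.n .z (.l [M 148, M 155])) (.n (.l [M 84, M 91]) .z))
  (.n (.n .z (.l [M 181, M 187])) (.n (.l [M 121, M 122, (123, .negSucc 1), M 124]) .z))))) (.n
  (.n (.n (.n .z (.n (.l [M 71, P 79]) (.l [M 199, P 204]))) (.n (.n .z (.l [M 160, M 167])) .z))
  (.n (.n .z (.n (.l [M 80, M 87]) (.l [M 211, M 215]))) (.n (.n .z (.l [M 177, M 183])) .z))) (.n
  (.n (.n (.n .z (.l [M 136, M 143])) (.n (.l [M 71, M 79]) .z)) (.n .z (.n (.l [M 104, M 111])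
  .z))) (.n (.n (.n (.l [M 31, P 35]) (.l [M 152, M 159])) (.n (.l [M 88, M 95]) .z)) (.n (.n (.l
  [M 57, M 63]) (.l [M 191, P 197])) .z))))))⟩⟩

def p1_4 : Step := ⟨.word [9, 33, 9], ⟨(.ofNat 1), .n (.n (.n (.n (.n (.n (.n .z (.n (.l [M 58, M 64]) (.l [M 192, P
  199]))) (.n (.n (.l [M 28, M 32]) .z) (.n (.l [M 96, P 104]) .z))) (.n (.n (.n .z (.l [M 144, P
  152])) (.n (.l [M 72, M 80]) .z)) (.n (.n (.l [M 48, P 55]) (.l [M 176, P 182])) .z))) (.n (.n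
  (.n .z (.n (.l [M 72, P 80]) .z)) (.n (.n (.l [M 35, M 40]) .z) (.n (.l [M 96, M 104]) (.l [M
  232, P 235])))) (.n (.n (.n .z (.l [M 144, M 152])) .z) (.n (.n (.l [M 56, P 62]) (.l [M 178, M
  184])) .z)))) (.n (.n (.n (.n (.n (.l [M 3, M 4]) (.l [P 115, M 132])) (.n (.l [M 68, P 75])
  .z)) .z) (.n (.n (.n .z (.l [M 141, M 148])) (.n .z (.l [M 207, M 212]))) (.n (.n .z (.l [M 180,
  P 186])) (.n (.l [M 108, M 116]) (.l [M 243, M 244]))))) (.n (.n (.n (.n (.l [M 12, P 15]) (.l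
  [M 133, M 140])) .z) (.n (.n (.l [M 38, M 44]) (.l [M 172, P 179])) (.n (.l [M 108, P 116]) (.l
  [M 234, M 236])))) (.n (.n (.n (.l [M 28, P 32]) (.l [M 149, M 156])) .z) (.n (.n (.l [M 53, M
  60]) .z) (.n (.l [M 123, (124, .negSucc 1), M 125]) .z)))))) (.n (.n (.n (.n (.n .z (.n .z (.l
  [M 187, M 194]))) (.n (.n (.l [M 30, M 34]) .z) (.n (.l [M 91, M 98]) .z))) (.n (.n (.n .z (.l
  [M 138, M 146])) (.n .z (.l [M 210, P 214]))) (.n (.n .z (.l [M 178, P 184])) (.n (.l [M 107, M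
  114]) .z)))) (.n (.n (.n (.n .z (.l [M 138, P 146])) .z) (.n .z (.n (.l [M 99, M 106]) (.l [M
  234, P 236])))) (.n (.n .z (.n (.l [M 90, P 97]) (.l [M 218, P 222]))) (.n (.n (.l [M 58, P 64])
  (.l [M 180, M 186])) .z)))) (.n (.n (.n .z (.n (.n (.l [M 38, P 44]) .z) (.n (.l [M 102, P 110])
  (.l [M 230, P 233])))) (.n (.n (.n .z (.l [M 150, P 157])) (.n .z (.l [M 210, M 214]))) (.n (.n
  .z (.l [M 176, M 182])) .z))) (.n (.n (.n (.n (.l [M 14, P 17]) .z) .z) (.n .z (.n (.l [M 102, M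
  110]) .z))) (.n (.n (.n (.l [M 30, P 34]) .z) (.n .z (.l [M 218, M 222]))) (.n (.n (.l [M 56, M
  62]) .z) .z)))))) (.n (.n (.n (.n (.n (.n .z (.n (.l [M 65, P 71]) .z)) (.n (.n (.l [M 33, P
  37]) .z) (.n (.l [M 90, M 97]) .z))) (.n (.n (.n (.l [M 14, M 17]) (.l [M 137, M 145])) (.n .z
  (.l [M 203, M 209]))) .z)) (.n (.n (.n (.n .z (.l [M 137, P 145])) .z) (.n .z (.n .z (.l [M 230,
  M 233])))) (.n (.n (.n (.l [M 25, P 29]) .z) (.n .z (.l [M 213, M 217]))) (.n (.n .z (.l [M 185,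
  P 191])) .z)))) (.n (.n (.n (.n (.n .z (.l [M 133, P 140])) (.n (.l [M 63, M 69]) .z)) (.n (.n
  (.l [M 33, M 37]) .z) (.n (.l [M 101, P 109]) .z))) (.n (.n (.n .z (.l [M 149, P 156])) (.n .z
  (.l [M 213, P 217]))) (.n (.n (.l [M 53, P 60]) .z) .z))) (.n (.n (.n (.n (.l [M 11, M 13]) (.l
  [M 141, P 148])) .z) (.n .z (.n (.l [M 101, M 109]) .z))) (.n (.n (.n (.l [M 25, M 29]) (.l [M
  150, M 157])) .z) (.n (.n (.l [M 61, P 67]) (.l [M 183, M 189])) .z))))) (.n (.n (.n (.n (.n (.n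
  (.l [M 3, P 4]) (.l [M 131, P 139])) (.n (.l [M 61, M 67]) .z)) (.n (.n (.l [M 35, P 40]) .z)
  (.n (.l [M 99, P 106]) .z))) (.n .z (.n (.n .z (.l [M 172, M 179])) (.n (.l [M 115, P 132]) (.l
  [M 243, P 244]))))) (.n (.n (.n (.n (.l [M 11, P 13]) (.l [M 131, M 139])) (.n (.l [M 68, M 75])
  (.l [M 203, P 209]))) (.n .z (.n (.l [M 107, P 114]) (.l [M 232, M 235])))) (.n (.n .z (.n (.l
  [M 91, P 98]) (.l [M 215, M 219]))) (.n (.n .z (.l [M 187, P 194])) .z)))) (.n (.n (.n (.n .z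
  (.n (.l [M 65, M 71]) (.l [M 192, M 199]))) (.n (.n .z (.l [M 167, P 175])) (.n (.l [M 95, M
  103]) .z))) (.n (.n (.n .z (.l [M 143, M 151])) (.n .z (.l [M 215, P 219]))) (.n (.n (.l [M 48,
  M 55]) (.l [M 183, P 189])) .z))) (.n (.n (.n (.n (.l [M 12, M 15]) (.l [M 143, P 151])) (.n .z
  (.l [M 207, P 212]))) (.n (.n .z (.l [M 167, M 175])) .z)) (.n (.n .z (.n (.l [M 95, P 103])
  .z)) (.n (.n (.l [M 63, P 69]) (.l [M 185, M 191])) .z))))))⟩⟩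

def p1_5 : Step := ⟨.word [11, 35, 11], ⟨(.ofNat 1), .n (.n (.n (.n (.n (.n .z (.n (.n .z (.l [M 152, M 160])) (.n
  (.l [M 89, M 96]) .z))) (.n (.n (.n (.l [M 13, M 16]) .z) (.n (.l [M 80, P 88]) (.l [M 208, P
  213]))) (.n (.n (.l [M 42, M 48]) .z) .z))) (.n (.n (.n .z (.n .z (.l [M 194, M 200]))) (.n (.n
  (.l [M 40, P 45]) .z) (.n .z (.l [M 229, M 232])))) (.n (.n (.n (.l [M 24, P 28]) (.l [M 152, P
  160])) (.n (.l [M 80, M 88]) .z)) (.n (.n (.l [M 49, M 56]) .z) .z)))) (.n (.n (.n (.n (.n .z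
  (.l [M 132, P 140])) .z) (.n (.n .z (.l [M 164, P 172])) (.n (.l [M 100, P 108]) .z))) (.n (.n
  (.n (.l [M 20, P 25]) .z) .z) (.n (.n (.l [M 52, P 58]) .z) (.n .z (.l [M 244, P 245]))))) (.n
  (.n (.n (.n .z (.l [M 132, M 140])) (.n (.l [M 69, M 76]) (.l [M 204, P 210]))) (.n (.n (.l [M
  44, P 50]) (.l [M 164, M 172])) (.n (.l [M 100, M 108]) .z))) (.n (.n (.n (.l [M 24, M 28]) .z)
  .z) (.n (.n .z (.l [M 182, M 188])) .z))))) (.n (.n (.n (.n (.n (.n (.l [M 2, P 3]) .z) (.n .z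
  (.l [M 194, P 200]))) (.n (.n (.l [M 34, P 39]) .z) (.n (.l [M 98, P 105]) (.l [M 226, P
  230])))) (.n (.n (.n (.l [M 15, M 18]) (.l [M 146, P 154])) (.n (.l [M 82, P 90]) (.l [M 204, M
  210]))) (.n (.n (.l [M 44, M 50]) (.l [M 171, M 178])) (.n (.l [M 114, P 133]) .z)))) (.n (.n
  (.n .z (.n .z (.l [M 202, P 207]))) (.n (.n (.l [M 42, P 48]) .z) (.n (.l [M 106, P 113]) (.l [M
  231, M 234])))) (.n (.n (.n .z (.l [M 146, M 154])) (.n (.l [M 82, M 90]) .z)) (.n (.n (.l [M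
  52, M 58]) (.l [M 186, P 193])) .z)))) (.n (.n (.n (.n (.n .z (.l [M 134, P 141])) (.n .z (.l [M
  191, M 198]))) (.n .z (.n (.l [M 94, M 102]) (.l [M 226, M 230])))) (.n .z (.n (.n (.l [M 54, P
  61]) (.l [M 182, P 188])) .z))) (.n (.n (.n (.n .z (.l [M 142, P 149])) .z) .z) (.n (.n (.n .z
  (.l [M 151, M 158])) (.n (.l [M 94, P 102]) (.l [M 222, P 227]))) .z))))) (.n (.n (.n (.n (.n
  (.n .z (.n (.l [M 59, M 65]) (.l [M 186, M 193]))) .z) (.n (.n (.n (.l [M 17, P 21]) (.l [M 145,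
  P 153])) .z) (.n (.n (.l [M 49, P 56]) .z) (.n (.l [M 106, M 113]) .z)))) (.n (.n .z (.n .z (.n
  (.l [M 98, M 105]) .z))) (.n (.n (.n (.l [M 20, M 25]) (.l [M 145, M 153])) (.n (.l [M 89, P
  96]) .z)) .z))) (.n (.n (.n (.n (.n .z (.l [P 114, M 133])) (.n (.l [M 69, P 76]) (.l [M 197, P
  203]))) (.n (.n (.l [M 37, P 43]) (.l [M 157, M 165])) (.n (.l [M 93, M 101]) (.l [M 229, P
  232])))) (.n (.n (.n (.l [M 17, M 21]) (.l [M 142, M 149])) (.n .z (.l [M 208, M 213]))) (.n (.n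
  (.l [M 47, M 53]) .z) (.n .z (.l [M 244, M 245]))))) (.n (.n (.n (.n (.l [M 13, P 16]) (.l [M
  134, M 141])) (.n .z (.l [M 199, M 205]))) (.n (.n (.l [M 40, M 45]) .z) .z)) (.n (.n (.n .z (.l
  [M 157, P 165])) (.n (.l [M 93, P 101]) .z)) (.n (.n (.l [M 54, M 61]) (.l [M 189, P 195])) (.n
  (.l [M 124, (125, .negSucc 1), M 126]) .z)))))) (.n (.n (.n (.n (.n (.n (.l [M 2, M 3]) .z) (.n
  .z (.l [M 189, M 195]))) (.n .z (.n .z (.l [M 222, M 227])))) (.n (.n (.n .z (.l [M 139, M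
  147])) (.n (.l [M 75, M 83]) .z)) (.n .z (.n (.l [M 107, M 115]) .z)))) (.n (.n (.n (.n .z (.l
  [M 139, P 147])) (.n (.l [M 75, P 83]) (.l [M 197, M 203]))) (.n (.n (.l [M 37, M 43]) (.l [M
  171, P 178])) (.n (.l [M 107, P 115]) .z))) (.n (.n .z (.n .z (.l [M 219, P 223]))) (.n (.n (.l
  [M 59, P 65]) .z) .z)))) (.n (.n (.n (.n .z (.n .z (.l [M 199, P 205]))) (.n (.n (.l [M 34, M
  39]) (.l [M 159, M 167])) (.n .z (.l [M 231, P 234])))) (.n (.n (.n .z (.l [M 151, P 158])) (.n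
  (.l [M 87, P 95]) .z)) .z)) (.n (.n (.n (.n (.l [M 15, P 18]) .z) (.n .z (.l [M 202, M 207])))
  (.n (.n (.l [M 47, P 53]) .z) .z)) (.n (.n (.n .z (.l [M 159, P 167])) (.n (.l [M 87, M 95]) (.l
  [M 219, M 223]))) (.n (.n .z (.l [M 191, P 198])) .z))))))⟩⟩

def p1_6 : Step := ⟨.word [13, 37, 13], ⟨(.ofNat 1), .n (.n (.n (.n (.n (.n .z (.n (.n (.l [M 32, P 37]) (.l [M 160,
  P 168])) .z)) (.n (.n (.n (.l [M 16, P 19]) .z) (.n (.l [M 71, M 80]) .z)) (.n (.n .z (.l [M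
  167, M 176])) (.n (.l [M 105, M 112]) .z)))) (.n (.n (.n .z (.n (.l [M 65, M 72]) (.l [M 200, P
  206]))) (.n (.n .z (.l [M 160, M 168])) .z)) (.n .z (.n (.n (.l [M 56, P 63]) (.l [M 184, P
  191])) .z)))) (.n (.n (.n (.n .z (.n (.l [M 61, M 68]) (.l [M 196, P 202]))) (.n (.n (.l [M 36,
  P 42]) .z) (.n (.l [M 92, M 100]) (.l [M 228, P 231])))) (.n (.n (.n .z (.l [M 140, M 148])) .z)
  (.n (.n (.l [M 46, M 52]) (.l [M 172, M 180])) .z))) (.n (.n (.n (.n .z (.l [M 140, P 148])) .z)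
  (.n (.n .z (.l [M 172, P 180])) .z)) (.n (.n (.n (.l [M 28, P 33]) .z) (.n (.l [M 92, P 100])
  .z)) .z)))) (.n (.n (.n (.n (.n (.n (.l [M 1, M 2]) .z) .z) (.n (.n (.l [M 29, M 34]) (.l [M
  154, M 162])) (.n .z (.l [M 221, M 226])))) (.n (.n (.n (.l [M 18, P 22]) .z) (.n (.l [M 74, M
  82]) (.l [M 210, P 215]))) (.n (.n (.l [M 50, P 57]) (.l [M 178, P 185])) (.n (.l [M 106, M
  114]) .z)))) (.n (.n (.n .z (.n (.l [M 74, P 82]) (.l [M 196, M 202]))) (.n (.n (.l [M 36, M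
  42]) .z) (.n (.l [M 106, P 114]) .z))) (.n (.n (.n (.l [M 21, M 26]) (.l [M 154, P 162])) (.n .z
  (.l [M 213, M 218]))) (.n (.n .z (.l [M 179, M 186])) .z)))) (.n (.n (.n (.n (.n .z (.l [P 113,
  M 134])) .z) (.n (.n .z (.l [M 158, M 166])) .z)) (.n (.n (.n (.l [M 18, M 22]) .z) (.n (.l [M
  86, P 94]) (.l [M 214, P 219]))) (.n (.n .z (.l [M 175, M 182])) (.n .z (.l [M 245, M 246])))))
  (.n (.n (.n (.n .z (.l [M 135, M 142])) (.n .z (.l [M 200, M 206]))) (.n (.n (.l [M 46, P 52])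
  .z) .z)) (.n (.n (.n (.l [M 25, M 30]) (.l [M 158, P 166])) (.n (.l [M 86, M 94]) (.l [M 217, M
  222]))) (.n (.n (.l [M 62, P 69]) (.l [M 190, P 197])) (.n (.l [M 125, (126, .negSucc 1), M
  127]) .z))))))) (.n (.n (.n (.n (.n (.n (.n (.l [M 1, P 2]) .z) (.n (.l [M 65, P 72]) .z)) (.n
  (.n (.l [M 28, M 33]) (.l [M 153, M 161])) (.n .z (.l [M 225, P 229])))) (.n (.n .z (.n (.l [M
  81, P 89]) .z)) (.n .z (.n (.l [M 113, P 134]) .z)))) (.n (.n (.n .z (.n .z (.l [M 195, M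
  201]))) (.n (.n (.l [M 41, P 47]) .z) (.n (.l [M 105, P 112]) .z))) (.n (.n (.n (.l [M 25, P
  30]) (.l [M 153, P 161])) (.n (.l [M 81, M 89]) (.l [M 217, P 222]))) (.n (.n (.l [M 50, M 57])
  (.l [M 178, M 185])) .z)))) (.n (.n (.n (.n (.n .z (.l [M 133, P 141])) (.n (.l [M 62, M 69])
  (.l [M 190, M 197]))) (.n (.n (.l [M 32, M 37]) (.l [M 165, P 173])) (.n .z (.l [M 225, M
  229])))) (.n (.n (.n (.l [M 21, P 26]) .z) (.n (.l [M 85, P 93]) (.l [M 213, P 218]))) (.n .z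
  (.n .z (.l [M 245, P 246]))))) (.n (.n (.n (.n .z (.l [M 133, M 141])) (.n .z (.l [M 205, P
  211]))) (.n (.n (.l [M 45, P 51]) (.l [M 165, M 173])) .z)) (.n (.n (.n (.l [M 29, P 34]) .z)
  (.n (.l [M 85, M 93]) (.l [M 221, P 226]))) (.n (.n (.l [M 61, P 68]) .z) .z))))) (.n (.n (.n
  (.n (.n .z (.n (.l [M 67, P 75]) (.l [M 195, P 201]))) (.n .z (.n (.l [M 99, P 107]) .z))) (.n
  (.n (.n (.l [M 16, M 19]) (.l [M 147, P 155])) (.n .z (.l [M 205, M 211]))) (.n (.n (.l [M 45, M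
  51]) (.l [M 179, P 186])) .z))) (.n (.n (.n .z (.n (.l [M 67, M 75]) .z)) (.n .z (.n (.l [M 99,
  M 107]) .z))) (.n (.n (.n .z (.l [M 147, M 155])) (.n .z (.l [M 214, M 219]))) .z))) (.n (.n (.n
  (.n (.n .z (.l [M 135, P 142])) (.n (.l [M 71, P 80]) .z)) (.n (.n .z (.l [M 167, P 176])) (.n
  .z (.l [M 228, M 231])))) (.n (.n .z (.n (.l [M 79, M 87]) (.l [M 210, M 215]))) .z)) (.n (.n
  (.n .z (.n (.l [M 79, P 87]) .z)) (.n (.n (.l [M 41, M 47]) (.l [M 175, P 182])) .z)) (.n .z (.n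
  (.n (.l [M 56, M 63]) (.l [M 184, M 191])) .z))))))⟩⟩

def p1_7 : Step := ⟨.word [15, 39, 15], ⟨(.ofNat 1), .n (.n (.n (.n (.n (.n (.n (.n (.l [M 0, P 1]) .z) (.n (.l [M
  64, P 71]) (.l [M 185, M 192]))) (.n .z (.n .z (.l [M 224, P 228])))) (.n (.n .z (.n .z (.l [M
  202, M 208]))) (.n (.n (.l [M 48, P 56]) (.l [M 176, P 183])) (.n (.l [M 112, P 135]) .z)))) (.n
  (.n (.n .z (.n .z (.l [M 193, M 200]))) (.n (.n (.l [M 34, M 40]) (.l [M 168, P 177])) .z)) (.n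
  (.n .z (.n .z (.l [M 216, P 221]))) (.n (.n (.l [M 48, M 56]) .z) .z)))) (.n (.n (.n .z (.n .z
  (.n .z (.l [M 224, M 228])))) (.n (.n (.n .z (.l [M 148, P 156])) (.n (.l [M 84, P 92]) (.l [M
  212, P 217]))) (.n (.n (.l [M 52, P 59]) (.l [M 180, P 187])) .z))) (.n (.n (.n .z (.n .z (.l [M
  197, M 204]))) (.n (.n (.l [M 37, M 44]) .z) .z)) (.n (.n (.n .z (.l [M 148, M 156])) (.n (.l [M
  84, M 92]) (.l [M 220, P 225]))) (.n (.n (.l [M 60, P 67]) (.l [M 188, P 195])) .z))))) (.n (.n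
  (.n (.n (.n .z (.n (.l [M 66, P 74]) (.l [M 186, M 194]))) (.n (.n (.l [M 34, P 40]) (.l [M 162,
  P 170])) (.n (.l [M 98, P 106]) .z))) (.n (.n .z (.n .z (.l [M 203, M 210]))) (.n (.n (.l [M 43,
  M 50]) .z) .z))) (.n (.n (.n .z (.n (.l [M 66, M 74]) (.l [M 202, P 208]))) (.n (.n (.l [M 42, P
  49]) (.l [M 162, M 170])) (.n (.l [M 98, M 106]) .z))) (.n (.n (.n (.l [M 26, P 31]) .z) .z) (.n
  (.n (.l [M 58, P 65]) (.l [M 186, P 194])) .z)))) (.n (.n (.n (.n (.n .z (.l [M 134, P 142]))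
  (.n (.l [M 70, P 79]) (.l [M 198, P 205]))) (.n (.n (.l [M 33, M 38]) (.l [M 166, P 174])) .z))
  (.n (.n (.n (.l [M 22, P 27]) .z) (.n (.l [M 78, M 86]) (.l [M 209, M 214]))) (.n (.n (.l [M 47,
  M 54]) (.l [M 182, P 189])) (.n .z (.l [M 246, P 247]))))) (.n (.n (.n (.n .z (.l [M 134, M
  142])) (.n (.l [M 78, P 86]) .z)) (.n (.n .z (.l [M 166, M 174])) .z)) (.n (.n (.n (.l [M 30, P
  35]) .z) .z) (.n (.n (.l [M 55, M 62]) .z) .z)))))) (.n (.n (.n (.n (.n (.n (.n (.l [M 0, M 1])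
  .z) (.n (.l [M 58, M 65]) (.l [M 193, P 200]))) (.n (.n (.l [M 33, P 38]) (.l [M 161, P 169]))
  (.n .z (.l [M 220, M 225])))) (.n (.n .z (.n (.l [M 73, M 81]) (.l [M 209, P 214]))) (.n (.n (.l
  [M 42, M 49]) (.l [M 168, M 177])) (.n (.l [M 105, M 113]) .z)))) (.n (.n (.n .z (.n (.l [M 73,
  P 81]) .z)) (.n (.n .z (.l [M 161, M 169])) (.n (.l [M 105, P 113]) .z))) (.n (.n .z (.n .z (.l
  [M 212, M 217]))) (.n (.n .z (.l [M 185, P 192])) .z)))) (.n (.n (.n (.n .z (.n .z (.l [M 197, P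
  204]))) (.n (.n (.l [M 37, P 44]) .z) .z)) (.n (.n (.n .z (.l [M 141, M 149])) (.n (.l [M 77, M
  85]) (.l [M 207, M 213]))) (.n (.n (.l [M 53, P 61]) (.l [M 173, M 181])) .z))) (.n (.n (.n (.n
  .z (.l [M 141, P 149])) (.n (.l [M 77, P 85]) (.l [M 198, M 205]))) (.n (.n (.l [M 39, M 45])
  (.l [M 173, P 181])) .z)) (.n (.n .z (.n .z (.l [M 216, M 221]))) (.n (.n (.l [M 53, M 61]) (.l
  [M 182, M 189])) .z))))) (.n (.n (.n (.n (.n .z (.n (.l [M 60, M 67]) (.l [M 188, M 195]))) (.n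
  (.n (.l [M 30, M 35]) (.l [M 155, M 163])) (.n (.l [M 91, M 99]) .z))) (.n (.n (.n (.l [M 19, P
  23]) .z) .z) .z)) (.n (.n (.n .z (.n .z (.l [M 203, P 210]))) (.n (.n (.l [M 43, P 50]) .z) .z))
  (.n (.n (.n (.l [M 22, M 27]) (.l [M 155, P 163])) (.n (.l [M 91, P 99]) .z)) (.n (.n (.l [M 52,
  M 59]) (.l [M 180, M 187])) .z)))) (.n (.n (.n (.n (.n .z (.l [P 112, M 135])) (.n (.l [M 64, M
  71]) (.l [M 191, M 199]))) (.n (.n (.l [M 39, P 45]) .z) .z)) (.n (.n (.n (.l [M 19, M 23]) .z)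
  .z) (.n (.n (.l [M 55, P 62]) (.l [M 176, M 183])) (.n .z (.l [M 246, M 247]))))) (.n (.n (.n .z
  (.n (.l [M 70, M 79]) (.l [M 207, P 213]))) (.n (.n (.l [M 47, P 54]) .z) .z)) (.n (.n (.n (.l
  [M 26, M 31]) .z) .z) (.n (.n .z (.l [M 191, P 199])) (.n (.l [M 126, (127, .negSucc 1)])
  .z)))))))⟩⟩

def p1_8 : Step := ⟨.word [5, 5, 1, 1], ⟨(.negSucc 0), .n (.n (.n (.n (.n (.n (.n (.n (.l [(0, .ofNat 2)]) .z) (.n
  (.l [(64, .ofNat 2)]) .z)) (.n (.n .z (.l [(160, .ofNat 2)])) (.n (.l [(96, .ofNat 2)]) (.l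
  [(224, .ofNat 2)])))) (.n (.n .z (.n .z (.l [(208, .ofNat 2)]))) .z)) (.n (.n (.n (.n (.l [(8,
  .ofNat 2)]) .z) (.n .z (.l [(200, .ofNat 2)]))) (.n (.n (.l [(40, .ofNat 2)]) (.l [(168, .ofNat
  2)])) (.n (.l [(104, .ofNat 2)]) .z))) (.n (.n (.n (.l [(24, .ofNat 2)]) .z) (.n (.l [(88,
  .ofNat 2)]) .z)) (.n (.n (.l [(56, .ofNat 2)]) (.l [(184, .ofNat 2)])) (.n (.l [(120, .ofNat
  2)]) .z))))) (.n (.n (.n (.n (.n (.l [(4, .ofNat 2)]) (.l [(132, .ofNat 2)])) (.n (.l [(68,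
  .ofNat 2)]) .z)) (.n (.n (.l [(36, .ofNat 2)]) .z) (.n (.l [(100, .ofNat 2)]) .z))) (.n (.n (.n
  (.l [(20, .ofNat 2)]) .z) (.n .z (.l [(212, .ofNat 2)]))) (.n (.n .z (.l [(180, .ofNat 2)])) (.n
  .z (.l [(244, .ofNat 2)]))))) (.n (.n (.n .z (.n .z (.l [(204, .ofNat 2)]))) (.n (.n (.l [(44,
  .ofNat 2)]) (.l [(172, .ofNat 2)])) (.n .z (.l [(236, .ofNat 2)])))) (.n (.n (.n .z (.l [(156,
  .ofNat 2)])) (.n (.l [(92, .ofNat 2)]) .z)) (.n (.n .z (.l [(188, .ofNat 2)])) (.n (.l [(124,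
  .ofNat 2)]) .z)))))) (.n (.n (.n (.n (.n (.n .z (.l [(130, .ofNat 2)])) (.n (.l [(66, .ofNat
  2)]) .z)) (.n (.n .z (.l [(162, .ofNat 2)])) (.n (.l [(98, .ofNat 2)]) (.l [(226, .ofNat 2)]))))
  (.n (.n (.n (.l [(18, .ofNat 2)]) .z) .z) (.n (.n .z (.l [(178, .ofNat 2)])) .z))) (.n (.n (.n
  (.n (.l [(10, .ofNat 2)]) .z) .z) (.n (.n (.l [(42, .ofNat 2)]) .z) (.n .z (.l [(234, .ofNat
  2)])))) (.n (.n (.n (.l [(26, .ofNat 2)]) (.l [(154, .ofNat 2)])) (.n (.l [(90, .ofNat 2)]) .z))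
  (.n (.n (.l [(58, .ofNat 2)]) (.l [(186, .ofNat 2)])) (.n (.l [(122, .ofNat 2)]) .z))))) (.n (.n
  (.n (.n (.n .z (.l [(134, .ofNat 2)])) .z) (.n (.n (.l [(38, .ofNat 2)]) .z) .z)) (.n (.n (.n
  (.l [(22, .ofNat 2)]) (.l [(150, .ofNat 2)])) (.n (.l [(86, .ofNat 2)]) .z)) (.n .z (.n (.l
  [(118, .ofNat 2)]) .z)))) (.n (.n (.n .z (.n .z (.l [(206, .ofNat 2)]))) (.n (.n .z (.l [(174,
  .ofNat 2)])) .z)) (.n (.n .z (.n (.l [(94, .ofNat 2)]) .z)) (.n (.n (.l [(62, .ofNat 2)]) .z)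
  (.n (.l [(126, .ofNat 2)]) .z))))))) (.n (.n (.n (.n (.n (.n (.n .z (.l [(129, .ofNat 2)])) .z)
  (.n (.n .z (.l [(161, .ofNat 2)])) (.n (.l [(97, .ofNat 2)]) (.l [(225, .ofNat 2)])))) (.n (.n
  .z (.n .z (.l [(209, .ofNat 2)]))) (.n .z (.n (.l [(113, .ofNat 2)]) .z)))) (.n (.n (.n .z (.n
  (.l [(73, .ofNat 2)]) .z)) (.n (.n (.l [(41, .ofNat 2)]) .z) .z)) (.n (.n (.n .z (.l [(153,
  .ofNat 2)])) .z) (.n (.n .z (.l [(185, .ofNat 2)])) (.n (.l [(121, .ofNat 2)]) .z))))) (.n (.n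
  (.n (.n .z (.n (.l [(69, .ofNat 2)]) .z)) (.n .z (.n .z (.l [(229, .ofNat 2)])))) (.n (.n (.n
  (.l [(21, .ofNat 2)]) (.l [(149, .ofNat 2)])) (.n (.l [(85, .ofNat 2)]) .z)) (.n (.n .z (.l
  [(181, .ofNat 2)])) (.n (.l [(117, .ofNat 2)]) .z)))) (.n (.n (.n (.n (.l [(13, .ofNat 2)]) .z)
  (.n .z (.l [(205, .ofNat 2)]))) (.n .z (.n .z (.l [(237, .ofNat 2)])))) (.n (.n (.n .z (.l
  [(157, .ofNat 2)])) (.n (.l [(93, .ofNat 2)]) (.l [(221, .ofNat 2)]))) (.n (.n (.l [(61, .ofNat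
  2)]) (.l [(189, .ofNat 2)])) (.n (.l [(125, .ofNat 2)]) .z)))))) (.n (.n (.n (.n (.n (.n (.l
  [(3, .ofNat 2)]) .z) (.n (.l [(67, .ofNat 2)]) .z)) (.n (.n (.l [(35, .ofNat 2)]) .z) (.n .z (.l
  [(227, .ofNat 2)])))) (.n (.n (.n .z (.l [(147, .ofNat 2)])) (.n .z (.l [(211, .ofNat 2)]))) (.n
  (.n .z (.l [(179, .ofNat 2)])) (.n (.l [(115, .ofNat 2)]) (.l [(243, .ofNat 2)]))))) (.n (.n (.n
  (.n (.l [(11, .ofNat 2)]) .z) (.n (.l [(75, .ofNat 2)]) (.l [(203, .ofNat 2)]))) (.n (.n (.l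
  [(43, .ofNat 2)]) .z) .z)) (.n (.n (.n .z (.l [(155, .ofNat 2)])) (.n (.l [(91, .ofNat 2)]) .z))
  (.n (.n (.l [(59, .ofNat 2)]) .z) (.n (.l [(123, .ofNat 2)]) .z))))) (.n (.n (.n .z (.n (.n (.l
  [(39, .ofNat 2)]) .z) .z)) (.n (.n (.n (.l [(23, .ofNat 2)]) (.l [(151, .ofNat 2)])) (.n (.l
  [(87, .ofNat 2)]) .z)) (.n (.n .z (.l [(183, .ofNat 2)])) (.n .z (.l [(247, .ofNat 2)]))))) (.n
  (.n (.n (.n .z (.l [(143, .ofNat 2)])) (.n (.l [(79, .ofNat 2)]) (.l [(207, .ofNat 2)]))) (.n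
  (.n (.l [(47, .ofNat 2)]) .z) (.n .z (.l [(239, .ofNat 2)])))) (.n (.n (.n .z (.l [(159, .ofNat
  2)])) (.n .z (.l [(223, .ofNat 2)]))) (.n (.n (.l [(63, .ofNat 2)]) (.l [(191, .ofNat 2)])) (.n
  (.l [(127, .ofNat 2)]) .z)))))))⟩⟩

def p1_9 : Step := ⟨.word [8, 5, 3, 1, 0], ⟨(.ofNat 0), .n (.n (.n (.n (.n (.n (.n (.n (.l [M 1]) (.l [M 119])) (.n
  (.l [P 74]) (.l [M 185]))) (.n (.n (.l [P 36]) (.l [P 164])) (.n (.l [M 93]) (.l [M 225])))) (.n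
  (.n (.n (.l [P 15]) (.l [P 150])) (.n (.l [M 90]) (.l [M 207]))) (.n (.n (.l [P 44]) (.l [M
  181])) (.n (.l [M 135]) (.l [M 239]))))) (.n (.n (.n (.n (.l [P 7]) (.l [P 138])) (.n (.l [M
  68]) (.l [P 182]))) (.n (.n (.l [M 39]) (.l [M 187])) (.n (.l [P 117]) (.l [P 231])))) (.n (.n
  (.n (.l [M 28]) (.l [P 172])) (.n (.l [M 82]) (.l [P 217]))) (.n (.n (.l [P 37]) (.l [M 190]))
  (.n (.l [M 120, M 122]) .z))))) (.n (.n (.n (.n (.n (.l [M 5]) (.l [P 147])) (.n (.l [M 72]) (.l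
  [M 196]))) (.n (.n (.l [P 32]) (.l [P 160])) (.n (.l [P 115]) (.l [M 220])))) (.n (.n (.n (.l [M
  21]) (.l [M 163])) (.n (.l [M 99]) (.l [P 221]))) (.n (.n (.l [M 61]) (.l [M 177])) (.n (.l [M
  131]) (.l [M 245]))))) (.n (.n (.n (.n (.l [M 9]) (.l [P 139])) (.n (.l [M 69]) (.l [M 198])))
  (.n (.n (.l [P 48]) (.l [P 152])) (.n (.l [P 107]) (.l [M 237])))) (.n (.n (.n (.l [M 24]) (.l
  [M 155])) (.n (.l [M 91]) (.l [M 228]))) (.n (.n (.l [P 79]) (.l [P 194])) (.n (.l [P 124])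
  .z)))))) (.n (.n (.n (.n (.n (.n (.l [P 3]) (.l [P 143])) (.n (.l [P 71]) (.l [P 188]))) (.n (.n
  (.l [M 45]) (.l [P 174])) (.n (.l [P 113]) (.l [M 227])))) (.n (.n (.n (.l [P 13]) (.l [M 158]))
  (.n (.l [M 88]) (.l [M 191]))) (.n (.n (.l [P 42]) (.l [P 171])) (.n (.l [M 133]) (.l [P
  243]))))) (.n (.n (.n (.n (.l [M 11]) (.l [P 136])) (.n (.l [P 64]) (.l [M 213]))) (.n (.n (.l
  [P 50]) (.l [P 166])) (.n (.l [P 105]) (.l [P 229])))) (.n (.n (.n (.l [P 35]) (.l [M 151])) (.n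
  (.l [M 80]) (.l [M 218]))) (.n (.n (.l [M 54]) (.l [P 195])) (.n (.l [P 122]) .z))))) (.n (.n
  (.n (.n (.n (.l [M 6]) (.l [P 149])) (.n (.l [P 67]) (.l [M 204]))) (.n (.n (.l [P 33]) (.l [P
  170])) (.n (.l [M 94]) (.l [M 222])))) (.n (.n (.n (.l [M 23]) (.l [P 144])) (.n (.l [P 78]) (.l
  [M 209]))) (.n (.n (.l [M 58]) (.l [P 200])) (.n (.l [P 110]) (.l [P 247]))))) (.n (.n (.n (.n
  (.l [M 14]) (.l [P 141])) (.n (.l [P 86]) (.l [P 201]))) (.n (.n (.l [M 41]) (.l [P 162])) (.n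
  (.l [P 118]) (.l [M 235])))) (.n (.n (.n (.l [P 31]) (.l [M 146])) (.n (.l [M 102]) (.l [M
  230]))) (.n (.n (.l [P 55]) (.l [M 184])) (.n (.l [P 126]) .z))))))) (.n (.n (.n (.n (.n (.n (.n
  (.l [M 0]) (.l [M 137])) (.n (.l [M 47]) (.l [P 189]))) (.n (.n (.l [P 38]) (.l [M 169])) (.n
  (.l [M 103]) (.l [M 224])))) (.n (.n (.n (.l [M 25]) (.l [P 153])) (.n (.l [P 77]) (.l [M
  214]))) (.n (.n (.l [P 43]) (.l [M 180])) (.n (.l [P 98]) (.l [M 241]))))) (.n (.n (.n (.n (.l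
  [M 12]) (.l [M 129])) (.n (.l [P 85]) (.l [P 206]))) (.n (.n (.l [M 46]) (.l [M 161])) (.n (.l
  [P 106]) (.l [M 233])))) (.n (.n (.n (.l [M 17]) (.l [P 145])) (.n (.l [M 101]) (.l [P 216])))
  (.n (.n (.l [P 63]) (.l [M 192])) (.n (.l [P 121]) .z))))) (.n (.n (.n (.n (.n (.l [M 4]) (.l [M
  114])) (.n (.l [M 76]) (.l [M 205]))) (.n (.n (.l [P 56]) (.l [P 159])) (.n (.l [M 89]) (.l [P
  234])))) (.n (.n (.n (.l [M 20]) (.l [P 134])) (.n (.l [P 73]) (.l [M 202]))) (.n (.n (.l [M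
  59]) (.l [M 176])) (.n (.l [P 104]) (.l [M 244]))))) (.n (.n (.n (.n (.l [P 18]) (.l [P 142]))
  (.n (.l [P 81]) (.l [M 197]))) (.n (.n (.l [M 34]) (.l [M 183])) (.n (.l [P 111]) (.l [M
  236])))) (.n (.n (.n (.l [M 29]) (.l [P 167])) (.n (.l [M 96]) (.l [P 212]))) (.n (.n (.l [M
  52]) (.l [P 193])) (.n (.l [M 124, M 125, M 126]) .z)))))) (.n (.n (.n (.n (.n (.n (.l [P 2])
  (.l [M 116])) (.n (.l [P 70]) (.l [P 186]))) (.n (.n (.l [P 26]) (.l [M 148])) (.n (.l [M 84])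
  (.l [M 226])))) (.n (.n (.n (.l [M 27]) (.l [P 132])) (.n (.l [M 87]) (.l [M 215]))) (.n (.n (.l
  [M 51]) (.l [P 175])) (.n (.l [P 100]) (.l [P 242]))))) (.n (.n (.n (.n (.l [M 10]) (.l [P
  140])) (.n (.l [M 95]) (.l [M 199]))) (.n (.n (.l [P 49]) (.l [P 178])) (.n (.l [P 108]) (.l [M
  238])))) (.n (.n (.n (.l [M 19]) (.l [M 156])) (.n (.l [M 92]) (.l [P 223]))) (.n (.n (.l [M
  53]) (.l [M 168])) (.n (.l [M 121, M 122, M 123, M 124]) .z))))) (.n (.n (.n (.n (.n (.l [P 8])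
  (.l [M 112])) (.n (.l [P 66]) (.l [M 203]))) (.n (.n (.l [M 40]) (.l [P 157])) (.n (.l [M 97])
  (.l [P 232])))) (.n (.n (.n (.l [M 22]) (.l [M 154])) (.n (.l [M 83]) (.l [M 211]))) (.n (.n (.l
  [P 62]) (.l [M 173])) (.n (.l [M 128]) (.l [P 246]))))) (.n (.n (.n (.n (.l [P 16]) (.l [P
  130])) (.n (.l [P 60]) (.l [M 208]))) (.n (.n (.l [M 65]) (.l [P 179])) (.n (.l [P 109]) (.l [M
  240])))) (.n (.n (.n (.l [P 30]) (.l [P 165])) (.n (.l [M 75]) (.l [P 219]))) (.n (.n (.l [P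
  57]) (.l [M 210])) (.n (.l [M 126, M 127]) .z)))))))⟩⟩

def p1_10 : Step := ⟨.word [6, 6, 2, 2], ⟨(.negSucc 0), .n (.n (.n (.n (.n (.n (.n (.n .z (.l [(128, .ofNat 2)])) (.n
  (.l [(64, .ofNat 2)]) .z)) (.n .z (.n (.l [(96, .ofNat 2)]) .z))) (.n (.n (.n (.l [(16, .ofNat
  2)]) (.l [(144, .ofNat 2)])) .z) (.n (.n (.l [(48, .ofNat 2)]) (.l [(176, .ofNat 2)])) (.n (.l
  [(112, .ofNat 2)]) (.l [(240, .ofNat 2)]))))) (.n (.n (.n (.n (.l [(8, .ofNat 2)]) .z) (.n (.l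
  [(72, .ofNat 2)]) .z)) (.n (.n .z (.l [(168, .ofNat 2)])) (.n .z (.l [(232, .ofNat 2)])))) (.n
  (.n (.n (.l [(24, .ofNat 2)]) .z) (.n .z (.l [(216, .ofNat 2)]))) (.n (.n (.l [(56, .ofNat 2)])
  .z) (.n (.l [(120, .ofNat 2)]) .z))))) (.n (.n (.n (.n .z (.n (.l [(68, .ofNat 2)]) (.l [(196,
  .ofNat 2)]))) .z) (.n (.n (.n .z (.l [(148, .ofNat 2)])) (.n (.l [(84, .ofNat 2)]) (.l [(212,
  .ofNat 2)]))) (.n (.n .z (.l [(180, .ofNat 2)])) (.n (.l [(116, .ofNat 2)]) (.l [(244, .ofNat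
  2)]))))) (.n (.n (.n .z (.n (.l [(76, .ofNat 2)]) (.l [(204, .ofNat 2)]))) (.n (.n (.l [(44,
  .ofNat 2)]) .z) .z)) (.n (.n (.n (.l [(28, .ofNat 2)]) (.l [(156, .ofNat 2)])) (.n (.l [(92,
  .ofNat 2)]) .z)) (.n (.n (.l [(60, .ofNat 2)]) .z) (.n (.l [(124, .ofNat 2)]) .z)))))) (.n (.n
  (.n (.n (.n (.n (.l [(2, .ofNat 2)]) .z) (.n (.l [(66, .ofNat 2)]) .z)) .z) (.n (.n (.n (.l
  [(18, .ofNat 2)]) (.l [(146, .ofNat 2)])) (.n .z (.l [(210, .ofNat 2)]))) (.n (.n (.l [(50,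
  .ofNat 2)]) (.l [(178, .ofNat 2)])) (.n (.l [(114, .ofNat 2)]) .z)))) (.n (.n (.n .z (.n (.l
  [(74, .ofNat 2)]) .z)) (.n (.n (.l [(42, .ofNat 2)]) .z) (.n .z (.l [(234, .ofNat 2)])))) (.n
  (.n (.n (.l [(26, .ofNat 2)]) (.l [(154, .ofNat 2)])) (.n .z (.l [(218, .ofNat 2)]))) (.n .z (.n
  (.l [(122, .ofNat 2)]) .z))))) (.n (.n (.n (.n (.n (.l [(6, .ofNat 2)]) .z) (.n (.l [(70, .ofNat
  2)]) (.l [(198, .ofNat 2)]))) (.n .z (.n (.l [(102, .ofNat 2)]) .z))) (.n (.n (.n .z (.l [(150,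
  .ofNat 2)])) .z) .z)) (.n (.n (.n (.n (.l [(14, .ofNat 2)]) .z) (.n .z (.l [(206, .ofNat 2)])))
  (.n (.n (.l [(46, .ofNat 2)]) .z) .z)) (.n (.n (.n (.l [(30, .ofNat 2)]) (.l [(158, .ofNat 2)]))
  (.n (.l [(94, .ofNat 2)]) .z)) (.n .z (.n (.l [(126, .ofNat 2)]) .z))))))) (.n (.n (.n (.n (.n
  .z (.n .z (.n (.l [(97, .ofNat 2)]) .z))) (.n (.n (.n .z (.l [(145, .ofNat 2)])) .z) (.n (.n (.l
  [(49, .ofNat 2)]) (.l [(177, .ofNat 2)])) (.n .z (.l [(241, .ofNat 2)]))))) (.n (.n (.n .z (.n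
  .z (.l [(201, .ofNat 2)]))) (.n (.n (.l [(41, .ofNat 2)]) .z) (.n .z (.l [(233, .ofNat 2)]))))
  (.n (.n (.n .z (.l [(153, .ofNat 2)])) (.n (.l [(89, .ofNat 2)]) (.l [(217, .ofNat 2)]))) (.n .z
  (.n (.l [(121, .ofNat 2)]) .z))))) (.n (.n (.n (.n (.n .z (.l [(133, .ofNat 2)])) (.n (.l [(69,
  .ofNat 2)]) (.l [(197, .ofNat 2)]))) (.n (.n (.l [(37, .ofNat 2)]) .z) (.n (.l [(101, .ofNat
  2)]) (.l [(229, .ofNat 2)])))) (.n .z (.n (.n .z (.l [(181, .ofNat 2)])) (.n .z (.l [(245,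
  .ofNat 2)]))))) (.n (.n (.n (.n (.l [(13, .ofNat 2)]) .z) (.n .z (.l [(205, .ofNat 2)]))) (.n
  (.n .z (.l [(173, .ofNat 2)])) .z)) (.n (.n (.n (.l [(29, .ofNat 2)]) .z) (.n (.l [(93, .ofNat
  2)]) (.l [(221, .ofNat 2)]))) (.n .z (.n (.l [(125, .ofNat 2)]) .z)))))) (.n (.n (.n (.n (.n (.n
  (.l [(3, .ofNat 2)]) (.l [(131, .ofNat 2)])) (.n (.l [(67, .ofNat 2)]) .z)) (.n (.n (.l [(35,
  .ofNat 2)]) (.l [(163, .ofNat 2)])) (.n (.l [(99, .ofNat 2)]) .z))) (.n .z (.n (.n (.l [(51,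
  .ofNat 2)]) (.l [(179, .ofNat 2)])) .z))) (.n (.n (.n .z (.n .z (.l [(203, .ofNat 2)]))) (.n (.n
  (.l [(43, .ofNat 2)]) (.l [(171, .ofNat 2)])) .z)) (.n (.n (.n .z (.l [(155, .ofNat 2)])) (.n
  (.l [(91, .ofNat 2)]) (.l [(219, .ofNat 2)]))) (.n (.n .z (.l [(187, .ofNat 2)])) (.n (.l [(123,
  .ofNat 2)]) .z))))) (.n (.n (.n (.n (.n (.l [(7, .ofNat 2)]) (.l [(135, .ofNat 2)])) (.n (.l
  [(71, .ofNat 2)]) (.l [(199, .ofNat 2)]))) (.n .z (.n (.l [(103, .ofNat 2)]) (.l [(231, .ofNat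
  2)])))) (.n (.n (.n .z (.l [(151, .ofNat 2)])) .z) (.n (.n .z (.l [(183, .ofNat 2)])) (.n (.l
  [(119, .ofNat 2)]) .z)))) (.n (.n (.n (.n (.l [(15, .ofNat 2)]) .z) (.n (.l [(79, .ofNat 2)])
  .z)) (.n (.n .z (.l [(175, .ofNat 2)])) (.n .z (.l [(239, .ofNat 2)])))) (.n (.n (.n (.l [(31,
  .ofNat 2)]) .z) (.n .z (.l [(223, .ofNat 2)]))) (.n (.n .z (.l [(191, .ofNat 2)])) (.n (.l
  [(127, .ofNat 2)]) .z)))))))⟩⟩

def p1_11 : Step := ⟨.word [9, 8, 6, 4, 0], ⟨(.ofNat 0), .n (.n (.n (.n (.n (.n (.n (.n (.l [M 0]) (.l [M 136])) (.n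
  (.l [P 58]) (.l [P 194]))) (.n (.n (.l [P 30]) (.l [P 155])) (.n (.l [M 97]) (.l [M 224])))) (.n
  (.n (.n (.l [M 19]) (.l [M 139])) (.n (.l [M 65]) (.l [M 204]))) (.n (.n (.l [P 60]) (.l [M
  175])) (.n (.l [P 105]) (.l [M 241]))))) (.n (.n (.n (.n (.l [M 10]) (.l [M 128])) (.n (.l [M
  71]) (.l [M 211]))) (.n (.n (.l [P 38]) (.l [P 147])) (.n (.l [M 90]) (.l [M 233])))) (.n (.n
  (.n (.l [P 20]) (.l [M 131])) (.n (.l [M 88]) (.l [M 220]))) (.n (.n (.l [M 75]) (.l [P 180]))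
  (.n (.l [P 120]) .z))))) (.n (.n (.n (.n (.n (.l [M 3]) (.l [M 115])) (.n (.l [M 62]) (.l [M
  197]))) (.n (.n (.l [M 47]) (.l [P 171])) (.n (.l [M 79]) (.l [P 231])))) (.n (.n (.n (.l [P
  24]) (.l [P 133])) (.n (.l [P 70]) (.l [P 203]))) (.n (.n (.l [M 46]) (.l [P 184])) (.n (.l [P
  95]) (.l [P 243]))))) (.n (.n (.n (.n (.l [M 17]) (.l [P 141])) (.n (.l [M 83]) (.l [M 208])))
  (.n (.n (.l [P 35]) (.l [P 191])) (.n (.l [P 103]) (.l [M 234])))) (.n (.n (.n (.l [P 34]) (.l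
  [P 149])) (.n (.l [M 87]) (.l [M 216]))) (.n (.n (.l [P 48]) (.l [M 188])) (.n (.l [M 123, M
  124, M 125]) .z)))))) (.n (.n (.n (.n (.n (.n (.l [P 1]) (.l [M 117])) (.n (.l [M 73]) (.l [P
  192]))) (.n (.n (.l [P 28]) (.l [P 153])) (.n (.l [M 91]) (.l [P 225])))) (.n (.n (.n (.l [P
  26]) (.l [M 137])) (.n (.l [P 81]) (.l [M 222]))) (.n (.n (.l [M 51]) (.l [P 186])) (.n (.l [P
  99]) (.l [M 238]))))) (.n (.n (.n (.n (.l [M 8]) (.l [M 145])) (.n (.l [P 89]) (.l [M 190])))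
  (.n (.n (.l [M 41]) (.l [P 169])) (.n (.l [P 107]) (.l [M 236])))) (.n (.n (.n (.l [P 18]) (.l
  [P 161])) (.n (.l [M 104]) (.l [M 214]))) (.n (.n (.l [P 64]) (.l [P 178])) (.n (.l [M 120, M
  122, M 123]) .z))))) (.n (.n (.n (.n (.n (.l [M 7]) (.l [M 113])) (.n (.l [P 84]) (.l [P 193])))
  (.n (.n (.l [P 40]) (.l [P 165])) (.n (.l [P 109]) (.l [M 235])))) (.n (.n (.n (.l [P 21]) (.l
  [M 151])) (.n (.l [M 93]) (.l [M 218]))) (.n (.n (.l [M 49]) (.l [M 167])) (.n (.l [M 129]) (.l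
  [M 245]))))) (.n (.n (.n (.n (.l [M 15]) (.l [M 135])) (.n (.l [P 77]) (.l [M 205]))) (.n (.n
  (.l [M 52]) (.l [P 181])) (.n (.l [P 101]) (.l [M 242])))) (.n (.n (.n (.l [P 32]) (.l [P 173]))
  (.n (.l [M 85]) (.l [M 210]))) (.n (.n (.l [M 68]) (.l [M 202])) (.n (.l [M 125, M 126, M 127])
  .z))))))) (.n (.n (.n (.n (.n (.n (.n (.l [P 2]) (.l [M 118])) (.n (.l [M 80]) (.l [P 198])))
  (.n (.n (.l [P 29]) (.l [P 154])) (.n (.l [M 96]) (.l [P 226])))) (.n (.n (.n (.l [M 12]) (.l [M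
  138])) (.n (.l [P 82]) (.l [P 207]))) (.n (.n (.l [M 54]) (.l [P 163])) (.n (.l [M 134]) (.l [M
  240]))))) (.n (.n (.n (.n (.l [M 5]) (.l [M 146])) (.n (.l [M 66]) (.l [P 195]))) (.n (.n (.l [M
  42]) (.l [P 170])) (.n (.l [P 112]) (.l [M 232])))) (.n (.n (.n (.l [P 37]) (.l [P 162])) (.n
  (.l [P 74]) (.l [M 215]))) (.n (.n (.l [M 45]) (.l [P 179])) (.n (.l [M 121, M 123]) .z))))) (.n
  (.n (.n (.n (.n (.l [M 9]) (.l [P 148])) (.n (.l [M 61]) (.l [M 196]))) (.n (.n (.l [P 25]) (.l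
  [P 166])) (.n (.l [P 110]) (.l [P 221])))) (.n (.n (.n (.l [P 22]) (.l [P 156])) (.n (.l [M 94])
  (.l [M 219]))) (.n (.n (.l [P 55]) (.l [P 174])) (.n (.l [M 130]) (.l [M 246]))))) (.n (.n (.n
  (.n (.l [P 11]) (.l [P 140])) (.n (.l [P 78]) (.l [M 206]))) (.n (.n (.l [M 57]) (.l [P 158]))
  (.n (.l [P 102]) (.l [P 239])))) (.n (.n (.n (.l [P 33]) (.l [M 143])) (.n (.l [M 86]) (.l [P
  229]))) (.n (.n (.l [M 69]) (.l [M 183])) (.n (.l [P 125]) .z)))))) (.n (.n (.n (.n (.n (.n (.l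
  [M 4]) (.l [M 152])) (.n (.l [M 63]) (.l [P 201]))) (.n (.n (.l [P 44]) (.l [P 177])) (.n (.l [P
  114]) (.l [M 223])))) (.n (.n (.n (.l [M 16]) (.l [P 168])) (.n (.l [M 76]) (.l [M 200]))) (.n
  (.n (.l [M 50]) (.l [P 185])) (.n (.l [M 132]) (.l [P 244]))))) (.n (.n (.n (.n (.l [P 13]) (.l
  [M 144])) (.n (.l [M 56]) (.l [P 212]))) (.n (.n (.l [P 39]) (.l [P 164])) (.n (.l [P 106]) (.l
  [M 230])))) (.n (.n (.n (.l [P 31]) (.l [P 160])) (.n (.l [M 98]) (.l [M 213]))) (.n (.n (.l [M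
  59]) (.l [P 199])) (.n (.l [P 123]) .z))))) (.n (.n (.n (.n (.n (.l [M 6]) (.l [M 142])) (.n (.l
  [M 72]) (.l [P 187]))) (.n (.n (.l [P 43]) (.l [M 182])) (.n (.l [P 108]) (.l [P 228])))) (.n
  (.n (.n (.l [M 23]) (.l [M 150])) (.n (.l [M 92]) (.l [M 217]))) (.n (.n (.l [P 53]) (.l [M
  189])) (.n (.l [P 111]) (.l [M 247]))))) (.n (.n (.n (.n (.l [M 14]) (.l [M 157])) (.n (.l [M
  100]) (.l [P 209]))) (.n (.n (.l [M 36]) (.l [M 176])) (.n (.l [P 119]) (.l [P 237])))) (.n (.n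
  (.n (.l [P 27]) (.l [M 159])) (.n (.l [P 116]) (.l [M 227]))) (.n (.n (.l [M 67]) (.l [P 172]))
  (.n (.l [P 127]) .z)))))))⟩⟩

def p1_12 : Step := ⟨.word [11, 11, 6, 6, 4, 4], ⟨(.ofNat 1), .n (.n (.n (.n (.n (.n (.n (.n (.l [(0, .negSucc 1)])
  .z) (.n .z (.l [(192, .negSucc 1)]))) .z) (.n (.n (.n .z (.l [(144, .negSucc 1)])) .z) (.n .z
  (.n .z (.l [(240, .negSucc 1)]))))) (.n (.n (.n (.n (.l [(8, .negSucc 1)]) (.l [(136, .negSucc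
  1)])) (.n (.l [(72, .negSucc 1)]) (.l [(200, .negSucc 1)]))) (.n .z (.n (.l [(104, .negSucc 1)])
  .z))) (.n (.n (.n (.l [(24, .negSucc 1)]) .z) (.n .z (.l [(216, .negSucc 1)]))) .z))) (.n (.n
  (.n (.n (.n .z (.l [(132, .negSucc 1)])) (.n (.l [(68, .negSucc 1)]) .z)) (.n .z (.n (.l [(100,
  .negSucc 1)]) .z))) (.n (.n (.n (.l [(20, .negSucc 1)]) (.l [(148, .negSucc 1)])) (.n (.l [(84,
  .negSucc 1)]) (.l [(212, .negSucc 1)]))) (.n (.n (.l [(52, .negSucc 1)]) .z) (.n .z (.l [(244,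
  .negSucc 1)]))))) (.n (.n (.n (.n (.l [(12, .negSucc 1)]) (.l [(140, .negSucc 1)])) (.n (.l
  [(76, .negSucc 1)]) .z)) (.n .z (.n (.l [(108, .negSucc 1)]) (.l [(236, .negSucc 1)])))) (.n (.n
  (.n (.l [(28, .negSucc 1)]) (.l [(156, .negSucc 1)])) (.n (.l [(92, .negSucc 1)]) .z)) (.n (.n
  .z (.l [(188, .negSucc 1)])) .z))))) (.n (.n (.n (.n (.n (.n (.l [(2, .negSucc 1)]) (.l [(130,
  .negSucc 1)])) (.n .z (.l [(194, .negSucc 1)]))) (.n .z (.n .z (.l [(226, .negSucc 1)])))) (.n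
  .z (.n (.n .z (.l [(178, .negSucc 1)])) .z))) (.n (.n (.n (.n (.l [(10, .negSucc 1)]) (.l [(138,
  .negSucc 1)])) .z) .z) (.n (.n (.n (.l [(26, .negSucc 1)]) .z) .z) (.n (.n (.l [(58, .negSucc
  1)]) (.l [(186, .negSucc 1)])) .z)))) (.n (.n (.n .z (.n (.n (.l [(38, .negSucc 1)]) .z) (.n (.l
  [(102, .negSucc 1)]) (.l [(230, .negSucc 1)])))) (.n (.n (.n .z (.l [(150, .negSucc 1)])) (.n
  (.l [(86, .negSucc 1)]) (.l [(214, .negSucc 1)]))) (.n (.n (.l [(54, .negSucc 1)]) (.l [(182,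
  .negSucc 1)])) (.n .z (.l [(246, .negSucc 1)]))))) (.n (.n (.n .z (.n (.l [(78, .negSucc 1)])
  (.l [(206, .negSucc 1)]))) (.n (.n (.l [(46, .negSucc 1)]) .z) (.n .z (.l [(238, .negSucc
  1)])))) (.n (.n (.n (.l [(30, .negSucc 1)]) .z) (.n (.l [(94, .negSucc 1)]) (.l [(222, .negSucc
  1)]))) (.n (.n (.l [(62, .negSucc 1)]) .z) .z)))))) (.n (.n (.n (.n (.n (.n (.n (.l [(1,
  .negSucc 1)]) .z) (.n (.l [(65, .negSucc 1)]) (.l [(193, .negSucc 1)]))) (.n (.n (.l [(33,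
  .negSucc 1)]) (.l [(161, .negSucc 1)])) (.n (.l [(97, .negSucc 1)]) .z))) (.n (.n (.n (.l [(17,
  .negSucc 1)]) (.l [(145, .negSucc 1)])) (.n .z (.l [(209, .negSucc 1)]))) .z)) (.n (.n (.n (.n
  (.l [(9, .negSucc 1)]) .z) (.n .z (.l [(201, .negSucc 1)]))) (.n (.n (.l [(41, .negSucc 1)]) (.l
  [(169, .negSucc 1)])) .z)) (.n (.n (.n (.l [(25, .negSucc 1)]) (.l [(153, .negSucc 1)])) (.n .z
  (.l [(217, .negSucc 1)]))) (.n (.n .z (.l [(185, .negSucc 1)])) .z)))) (.n (.n (.n (.n .z (.n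
  (.l [(69, .negSucc 1)]) .z)) .z) (.n (.n (.n (.l [(21, .negSucc 1)]) .z) .z) (.n (.n (.l [(53,
  .negSucc 1)]) .z) (.n (.l [(117, .negSucc 1)]) (.l [(245, .negSucc 1)]))))) (.n (.n .z (.n .z
  (.n (.l [(109, .negSucc 1)]) (.l [(237, .negSucc 1)])))) (.n (.n .z (.n .z (.l [(221, .negSucc
  1)]))) (.n (.n (.l [(61, .negSucc 1)]) (.l [(189, .negSucc 1)])) .z))))) (.n (.n (.n (.n (.n (.n
  (.l [(3, .negSucc 1)]) .z) (.n .z (.l [(195, .negSucc 1)]))) (.n (.n (.l [(35, .negSucc 1)]) (.l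
  [(163, .negSucc 1)])) (.n (.l [(99, .negSucc 1)]) (.l [(227, .negSucc 1)])))) (.n (.n (.n .z (.l
  [(147, .negSucc 1)])) .z) (.n (.n .z (.l [(179, .negSucc 1)])) (.n (.l [(115, .negSucc 1)])
  .z)))) (.n (.n (.n (.n (.l [(11, .negSucc 1)]) (.l [(139, .negSucc 1)])) .z) (.n (.n .z (.l
  [(171, .negSucc 1)])) (.n (.l [(107, .negSucc 1)]) (.l [(235, .negSucc 1)])))) (.n (.n (.n .z
  (.l [(155, .negSucc 1)])) (.n (.l [(91, .negSucc 1)]) (.l [(219, .negSucc 1)]))) (.n (.n (.l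
  [(59, .negSucc 1)]) .z) .z)))) (.n (.n (.n (.n (.n (.l [(7, .negSucc 1)]) .z) .z) (.n .z (.n (.l
  [(103, .negSucc 1)]) .z))) (.n .z (.n (.n (.l [(55, .negSucc 1)]) .z) (.n .z (.l [(247, .negSucc
  1)]))))) (.n (.n (.n (.n .z (.l [(143, .negSucc 1)])) .z) (.n (.n (.l [(47, .negSucc 1)]) (.l
  [(175, .negSucc 1)])) (.n (.l [(111, .negSucc 1)]) (.l [(239, .negSucc 1)])))) (.n (.n (.n (.l
  [(31, .negSucc 1)]) .z) (.n .z (.l [(223, .negSucc 1)]))) .z)))))⟩⟩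

def p1_13 : Step := ⟨.conj 1 17, ⟨(.ofNat 1), .n (.n (.n (.n (.n (.n (.n (.n .z (.l [P 157])) .z) .z) (.n .z (.n (.n
  (.l [M 73]) .z) .z))) (.n (.n (.n (.n (.l [P 17]) .z) (.n (.l [P 100]) (.l [P 217]))) .z) (.n
  (.n .z (.n (.l [M 116]) .z)) (.n (.n (.l [M 81]) .z) .z)))) (.n (.n .z (.n .z (.n (.n .z (.l [M
  202])) .z))) (.n (.n (.n (.n (.l [M 24]) .z) (.n (.l [P 104]) .z)) (.n (.n .z (.l [M 196])) .z))
  (.n .z (.n .z (.n (.l [P 152]) .z)))))) (.n (.n (.n .z (.n (.n (.n (.l [P 32]) .z) (.n .z (.l [M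
  225]))) .z)) (.n (.n .z (.n .z (.n .z (.l [P 242])))) (.n (.n .z (.n (.l [M 119]) .z)) (.n (.n
  (.l [P 84]) .z) (.n (.l [P 152]) .z))))) (.n (.n (.n (.n .z (.n (.l [M 98]) .z)) (.n (.n .z (.l
  [P 191])) (.n (.l [M 130]) (.l [M 239])))) (.n (.n (.n (.l [P 37]) .z) .z) (.n .z (.n (.l [P
  146]) .z)))) (.n (.n (.n .z (.n .z (.l [P 222]))) (.n (.n .z (.l [P 199])) (.n .z (.l [M
  244])))) (.n (.n (.n (.l [M 47]) (.l [P 184])) .z) .z))))) (.n (.n (.n (.n (.n (.n .z (.n (.l [P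
  92]) (.l [P 212]))) .z) .z) (.n .z (.n (.n (.n (.l [M 41]) .z) .z) (.n .z (.n (.l [P 152])
  .z))))) (.n (.n (.n (.n (.n (.l [M 13]) (.l [P 160])) .z) (.n .z (.n (.l [M 129]) .z))) (.n (.n
  (.n .z (.l [P 177])) .z) (.n .z (.n (.l [P 145]) .z)))) (.n (.n (.n (.n .z (.l [P 168])) .z) (.n
  (.n (.l [P 67]) .z) .z)) .z))) (.n (.n (.n (.n (.n (.n (.l [P 9]) (.l [P 159])) .z) (.n (.n (.l
  [M 54]) (.l [M 189])) .z)) (.n (.n (.n .z (.l [M 175])) .z) (.n (.n (.l [P 75]) .z) (.n (.l [P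
  144]) .z)))) (.n (.n (.n .z (.n .z (.l [M 220]))) .z) (.n (.n (.n (.l [P 44]) (.l [M 182])) .z)
  (.n (.n .z (.l [M 208])) (.n (.l [M 152]) .z))))) (.n (.n (.n .z (.n (.n (.l [P 60]) .z) (.n (.l
  [M 132]) .z))) (.n (.n .z (.n (.l [M 114]) (.l [M 229]))) .z)) (.n (.n (.n (.n .z (.l [M 171]))
  (.n (.l [M 106]) .z)) .z) (.n (.n .z (.n (.l [M 120, M 121, M 122, M 123, M 124, M 125, M 152])
  (.l [P 235]))) (.n (.n (.l [M 89]) .z) .z))))))⟩⟩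

def p1_14 : Step := ⟨.conj 4 0, ⟨(.ofNat 1), .n (.n (.n (.n (.n .z (.n (.n .z (.n (.l [M 128]) .z)) .z)) (.n (.n .z
  (.n (.n (.l [M 79]) (.l [M 207])) (.n (.l [P 153]) .z))) (.n (.n (.n .z (.l [P 196])) .z) (.n .z
  (.n (.l [M 172]) .z))))) (.n (.n (.n (.n (.n (.l [P 18]) (.l [M 179])) (.n (.l [M 115]) .z)) (.n
  .z (.n (.l [P 150]) .z))) (.n (.n (.n .z (.l [P 193])) .z) (.n .z (.n (.l [M 165]) .z)))) (.n
  (.n .z (.n (.n (.l [M 85]) .z) .z)) (.n (.n (.n .z (.l [P 200])) .z) (.n (.n (.l [M 105]) .z)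
  (.n (.l [P 172]) .z)))))) (.n (.n (.n (.n (.n (.n (.l [M 12]) (.l [M 178])) .z) (.n (.n (.l [M
  70]) (.l [M 203])) .z)) (.n (.n (.n .z (.l [P 190])) (.n (.l [M 131]) .z)) (.n .z (.n (.l [M
  164]) .z)))) (.n (.n .z (.n (.n .z (.l [M 210])) .z)) (.n (.n (.n (.l [P 58]) .z) .z) (.n .z (.n
  (.l [P 172]) .z))))) (.n (.n (.n (.n (.n .z (.l [M 180])) .z) .z) (.n .z (.n (.n (.l [P 99]) (.l
  [P 216])) .z))) (.n (.n (.n (.n .z (.l [M 187])) .z) (.n .z (.n (.l [M 158]) .z))) (.n (.n .z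
  (.n (.l [P 143]) (.l [M 240]))) .z))))) (.n (.n (.n (.n (.n .z (.n .z (.n (.l [P 147]) .z))) (.n
  (.n (.n (.l [M 46]) .z) .z) (.n (.n .z (.l [M 213])) .z))) (.n (.n (.n (.n (.l [M 28]) .z) (.n
  .z (.l [M 230]))) .z) (.n (.n .z (.n (.l [M 137]) .z)) (.n (.n (.l [P 101]) .z) (.n (.l [P 172])
  .z))))) (.n (.n (.n (.n .z (.n (.l [M 117]) .z)) (.n (.n (.l [M 77]) .z) (.n .z (.l [P 243]))))
  .z) (.n (.n (.n (.n (.l [P 36]) .z) .z) .z) (.n .z (.n (.n .z (.l [P 221])) (.n (.l [M 172])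
  .z)))))) (.n (.n (.n (.n (.n .z (.n (.l [M 113]) .z)) .z) (.n (.n (.n (.l [M 48]) .z) (.n (.l [M
  133]) (.l [P 234]))) (.n (.n (.l [P 95]) .z) .z))) (.n (.n (.n .z (.n (.l [M 120, M 122, M 123,
  M 124, M 125, M 126, P 172]) .z)) (.n .z (.n .z (.l [M 245])))) (.n (.n .z (.n .z (.l [M 238])))
  (.n .z (.n (.l [(172, .negSucc 1)]) .z))))) (.n (.n (.n (.n (.n (.l [M 25]) .z) (.n .z (.l [M
  228]))) .z) (.n (.n (.n (.l [M 56]) .z) .z) (.n .z (.n (.l [M 167]) .z)))) (.n (.n .z (.n (.n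
  (.l [P 91]) .z) .z)) (.n (.n (.n (.l [P 65]) .z) .z) (.n (.n .z (.l [M 224])) .z))))))⟩⟩

def p1_15 : Step := ⟨.conj 3 0, ⟨(.ofNat 1), .n (.n (.n (.n (.n (.n .z (.n .z (.n (.l [M 168]) .z))) (.n (.n (.n (.l
  [P 60]) .z) .z) (.n (.n (.l [M 112]) .z) .z))) (.n (.n (.n .z (.n .z (.l [P 236]))) .z) (.n .z
  (.n (.n (.l [M 122, M 123, M 124, M 125, M 126, M 127, M 191]) .z) (.n (.l [M 191]) .z))))) (.n
  (.n (.n .z (.n (.n (.l [P 98]) .z) .z)) .z) (.n (.n (.n (.n (.l [M 52]) .z) (.n (.l [P 148])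
  .z)) (.n (.n .z (.l [P 224])) .z)) (.n (.n (.n (.l [M 84]) .z) .z) (.n .z (.n (.l [(191, .ofNat
  2)]) .z)))))) (.n (.n (.n .z (.n (.n (.n (.l [P 64]) .z) (.n .z (.l [M 241]))) (.n (.n (.l [M
  116]) .z) .z))) (.n (.n (.n .z (.n (.l [P 146]) .z)) .z) (.n (.n .z (.n (.l [M 162]) .z)) (.n .z
  (.n (.l [(191, .ofNat 2)]) .z))))) (.n (.n (.n (.n (.n (.l [P 37]) .z) .z) (.n (.n (.l [P 100])
  .z) (.n .z (.l [M 246])))) .z) (.n .z (.n .z (.n (.n (.l [M 132]) .z) (.n (.l [P 191]) .z)))))))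
  (.n (.n (.n (.n (.n (.n (.n (.l [P 17]) .z) (.n (.l [M 136]) .z)) .z) (.n (.n .z (.n (.l [P
  152]) .z)) (.n (.n (.l [M 114]) .z) (.n (.l [P 184]) .z)))) (.n (.n (.n (.n .z (.l [P 202])) .z)
  (.n (.n .z (.l [P 222])) .z)) (.n (.n (.n (.l [M 78]) (.l [M 212])) .z) (.n .z (.n (.l [P 191])
  .z))))) (.n (.n (.n (.n (.n (.l [P 34]) (.l [P 198])) .z) (.n .z (.n (.l [M 173]) .z))) (.n (.n
  (.n .z (.l [M 211])) (.n (.l [P 157]) (.l [M 242]))) (.n .z (.n (.l [P 186]) .z)))) (.n (.n .z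
  (.n (.n (.l [M 110]) .z) .z)) (.n (.n .z (.n .z (.l [P 244]))) (.n (.n (.l [M 130]) .z) (.n (.l
  [M 191]) .z)))))) (.n (.n (.n (.n (.n (.n (.l [M 26]) (.l [P 197])) (.n .z (.l [P 235]))) (.n
  (.n (.l [P 94]) (.l [P 219])) (.n (.l [M 171]) .z))) (.n (.n (.n .z (.l [M 209])) .z) (.n .z (.n
  (.l [P 185]) .z)))) (.n (.n (.n (.n (.l [M 47]) .z) .z) .z) (.n (.n (.n (.l [M 80]) .z) .z) (.n
  (.n .z (.l [M 231])) (.n (.l [(191, .negSucc 1)]) .z))))) (.n (.n (.n (.n (.n .z (.l [P 199]))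
  .z) (.n (.n .z (.l [P 220])) .z)) (.n (.n (.n (.l [M 75]) .z) .z) (.n (.n .z (.l [M 229])) .z)))
  (.n (.n (.n .z (.n (.l [P 151]) .z)) (.n .z (.n (.l [P 182]) .z))) (.n (.n .z (.n (.l [M 166])
  .z)) (.n (.n (.l [M 134]) .z) .z))))))⟩⟩

def p1_16 : Step := ⟨.conj 6 0, ⟨(.ofNat 1), .n (.n (.n (.n (.n (.n (.n (.n (.l [P 25]) .z) (.n (.l [M 158]) .z)) (.n
  (.n (.l [P 113]) .z) .z)) (.n (.n .z (.n (.l [P 174]) .z)) (.n .z (.n (.l [P 203]) .z)))) (.n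
  (.n .z (.n (.n .z (.l [P 232])) (.n (.l [P 195]) .z))) (.n (.n (.n (.l [M 99]) (.l [M 225])) .z)
  (.n .z (.n (.l [P 210]) .z))))) (.n (.n (.n (.n (.n (.l [P 45]) (.l [P 214])) .z) (.n .z (.n (.l
  [M 192]) .z))) (.n (.n (.n .z (.l [M 223])) (.n (.l [P 178]) (.l [M 245]))) (.n (.n (.l [P 143])
  .z) (.n (.l [P 205]) .z)))) (.n (.n .z (.n (.n (.l [P 135]) .z) .z)) (.n .z (.n (.n (.l [M 154])
  .z) (.n (.l [(210, .negSucc 1)]) .z)))))) (.n (.n (.n (.n (.n (.n (.l [M 35]) .z) .z) (.n (.n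
  (.l [P 118]) .z) (.n (.l [M 190]) .z))) (.n .z (.n .z (.n (.l [P 204]) .z)))) (.n (.n (.n (.n
  (.l [M 65]) .z) (.n .z (.l [P 243]))) (.n (.n (.l [P 131]) .z) .z)) (.n (.n (.n (.l [M 102]) .z)
  .z) (.n (.n .z (.l [M 238])) (.n (.l [(210, .negSucc 1)]) .z))))) (.n (.n (.n (.n (.n (.l [M
  56]) (.l [P 215])) .z) .z) (.n (.n (.n (.l [M 95]) .z) .z) (.n (.n .z (.l [M 237])) .z))) (.n .z
  (.n (.n .z (.n .z (.l [P 247]))) (.n .z (.n (.l [M 210]) .z))))))) (.n (.n (.n (.n (.n (.n (.n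
  .z (.l [P 213])) .z) (.n (.n (.l [P 115]) (.l [P 230])) .z)) (.n (.n (.n (.l [P 86]) (.l [M
  221])) .z) .z)) (.n (.n (.n (.n (.l [M 61]) .z) (.n (.l [P 167]) .z)) .z) (.n (.n .z (.n (.l [M
  183]) .z)) (.n (.n (.l [M 149]) .z) (.n (.l [M 210]) .z))))) (.n (.n (.n (.n .z (.n (.l [P 163])
  .z)) (.n (.n (.l [P 121, P 123, P 124, P 125, P 126, P 127, P 210]) .z) .z)) .z) (.n (.n (.n (.n
  (.l [P 74]) .z) (.n (.l [P 172]) .z)) (.n (.n .z (.l [P 234])) (.n (.l [P 200]) .z))) (.n (.n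
  (.n .z (.l [M 228])) (.n (.l [M 187]) .z)) (.n .z (.n (.l [(210, .ofNat 2)]) .z)))))) (.n (.n
  (.n .z (.n (.n (.n (.l [M 90]) .z) .z) .z)) (.n (.n (.n .z (.n (.l [P 170]) .z)) (.n (.n (.l [P
  133]) .z) .z)) (.n .z (.n .z (.n (.l [(210, .ofNat 3)]) .z))))) (.n (.n .z (.n .z (.n (.n (.l [M
  147]) .z) .z))) (.n (.n (.n (.n (.l [P 79]) .z) .z) (.n (.n (.l [P 138]) .z) .z)) (.n .z (.n (.n
  .z (.l [M 241])) (.n (.l [P 210]) .z)))))))⟩⟩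

def p1_17 : Step := ⟨.conj 5 0, ⟨(.ofNat 1), .n (.n (.n (.n (.n (.n (.n (.n (.l [M 37]) .z) .z) .z) (.n (.n (.n (.l [M
  104]) .z) .z) (.n (.n (.l [M 161]) .z) .z))) (.n (.n (.n (.n (.l [M 80]) .z) .z) .z) (.n .z (.n
  (.n (.l [M 169]) .z) (.n (.l [M 222]) .z))))) (.n (.n (.n .z (.n (.n (.l [P 145]) .z) .z)) (.n
  (.n (.n (.l [M 114]) .z) .z) .z)) (.n (.n (.n (.n (.l [P 93]) .z) .z) (.n (.n .z (.l [P 240]))
  .z)) (.n (.n (.n (.l [M 129]) .z) .z) (.n .z (.n (.l [(222, .ofNat 3)]) .z)))))) (.n (.n (.n (.n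
  (.n .z (.n (.l [P 182]) .z)) .z) (.n (.n (.n (.l [M 109]) .z) (.n .z (.l [P 247]))) (.n (.n .z
  (.l [P 242])) .z))) (.n (.n (.n (.n .z (.l [P 229])) (.n (.l [P 189]) .z)) .z) (.n (.n (.n .z
  (.l [M 235])) (.n (.l [M 201]) .z)) (.n (.n (.l [M 173]) .z) (.n (.l [(222, .ofNat 2)]) .z)))))
  (.n (.n (.n (.n .z (.n (.l [P 186]) .z)) (.n .z (.n (.l [M 211]) .z))) (.n (.n .z (.n (.l [P
  199]) .z)) (.n .z (.n (.l [P 219]) .z)))) (.n (.n (.n (.n (.l [P 100]) .z) (.n (.l [P 191]) .z))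
  (.n (.n (.l [P 157]) .z) .z)) (.n (.n (.n (.l [M 134]) (.l [M 236])) .z) (.n (.n .z (.l [M
  244])) (.n (.l [(222, .ofNat 2)]) .z))))))) (.n (.n (.n (.n (.n (.n (.n (.l [M 44]) .z) (.n (.l
  [M 181]) .z)) .z) (.n .z (.n .z (.n (.l [P 217]) .z)))) (.n (.n .z (.n (.n (.l [P 152]) .z) (.n
  (.l [P 212]) .z))) (.n (.n (.n (.l [M 121, M 123, M 124, M 125, M 126, M 222]) .z) .z) (.n .z
  (.n (.l [(222, .ofNat 2)]) .z))))) (.n (.n (.n (.n (.n (.l [M 69]) (.l [P 227])) .z) .z) (.n (.n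
  (.n (.l [M 116]) .z) .z) (.n (.n (.l [M 168]) .z) .z))) (.n (.n .z (.n (.n (.l [P 156]) .z) .z))
  (.n (.n (.n (.l [M 132]) .z) .z) (.n (.n (.l [M 177]) .z) (.n (.l [(222, .negSucc 1)]) .z))))))
  (.n (.n (.n (.n (.n (.n (.l [P 57]) (.l [P 226])) .z) (.n (.n (.l [M 142]) .z) (.n (.l [M 208])
  .z))) (.n (.n (.n .z (.l [M 233])) .z) (.n .z (.n (.l [P 218]) .z)))) (.n (.n (.n (.n (.l [P
  89]) .z) (.n .z (.l [P 246]))) .z) (.n (.n .z (.n (.l [M 202]) .z)) (.n .z (.n (.l [(222,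
  .negSucc 2)]) .z))))) (.n (.n (.n (.n (.n (.l [M 75]) .z) .z) (.n (.n (.l [P 148]) (.l [P 239]))
  .z)) .z) (.n (.n (.n (.n .z (.l [P 231])) (.n (.l [P 194]) .z)) .z) (.n (.n .z (.n (.l [M 206])
  .z)) (.n .z (.n (.l [M 222]) .z)))))))⟩⟩

def p1_18 : Step := ⟨.conj 8 0, ⟨(.ofNat 1), .n (.n (.n (.n (.n (.n (.n (.n (.l [P 48]) .z) (.n (.l [P 193]) .z)) (.n
  (.n (.l [P 153]) .z) .z)) (.n (.n .z (.n (.l [P 206]) .z)) .z)) (.n (.n (.n (.n (.l [P 95]) (.l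
  [P 234])) .z) (.n (.n (.l [P 163]) .z) .z)) (.n (.n (.n (.l [M 137]) (.l [M 239])) .z) (.n (.n
  .z (.l [M 245])) (.n (.l [P 230]) .z))))) (.n (.n (.n (.n (.n (.l [M 76]) (.l [P 233])) .z) (.n
  .z (.n (.l [M 218]) .z))) (.n (.n (.n (.l [M 131]) .z) (.n (.l [M 207]) .z)) (.n (.n (.l [M
  180]) .z) (.n (.l [P 227]) .z)))) (.n (.n .z (.n (.n (.l [P 169]) .z) .z)) (.n (.n .z (.n (.l [M
  213]) .z)) (.n (.n (.l [P 188]) .z) (.n (.l [(230, .negSucc 2)]) .z)))))) (.n (.n (.n (.n (.n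
  (.n (.l [P 63]) (.l [P 232])) .z) (.n (.n (.l [P 155]) .z) (.n (.l [P 216]) .z))) (.n (.n (.n .z
  (.l [M 237])) .z) (.n .z (.n (.l [P 226]) .z)))) (.n (.n (.n (.n (.l [P 101]) .z) .z) (.n .z (.n
  (.l [P 221]) .z))) (.n (.n (.n (.l [M 141]) .z) .z) (.n .z (.n (.l [(230, .negSucc 1)]) .z)))))
  (.n (.n .z (.n (.n .z (.n (.l [M 210]) .z)) (.n (.n (.l [M 183]) .z) .z))) (.n (.n (.n (.n (.l
  [M 115]) .z) (.n (.l [M 203]) .z)) (.n (.n (.l [M 172]) .z) (.n (.l [P 223]) .z))) (.n (.n .z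
  (.n (.l [M 215]) .z)) (.n .z (.n (.l [(230, .negSucc 1)]) .z))))))) (.n (.n (.n (.n (.n (.n (.n
  (.l [P 56]) .z) .z) .z) (.n (.n (.n (.l [M 122, M 123, M 124, M 125, M 230]) .z) .z) .z)) (.n
  (.n (.n (.n (.l [P 96]) .z) .z) (.n (.n (.l [M 167]) .z) .z)) (.n .z (.n .z (.n (.l [(230,
  .negSucc 1)]) .z))))) (.n (.n (.n .z (.n (.n (.l [P 161]) .z) .z)) (.n (.n (.n (.l [M 133]) .z)
  .z) .z)) (.n (.n (.n (.n (.l [M 111]) .z) .z) .z) (.n (.n (.n (.l [P 147]) (.l [M 240])) .z) (.n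
  .z (.n (.l [(230, .ofNat 3)]) .z)))))) (.n (.n (.n (.n (.n .z (.n (.l [P 195]) .z)) .z) .z) (.n
  (.n (.n .z (.n (.l [P 201]) .z)) (.n (.n .z (.l [P 243])) .z)) (.n .z (.n (.n (.l [M 187]) .z)
  (.n (.l [(230, .ofNat 4)]) .z))))) (.n (.n (.n (.n (.n (.l [P 90]) .z) (.n (.l [P 200]) (.l [M
  247]))) .z) (.n (.n (.n .z (.l [M 238])) .z) .z)) (.n (.n (.n (.n (.l [M 117]) .z) .z) (.n (.n
  (.l [M 176]) .z) .z)) (.n (.n (.n (.l [M 149]) .z) .z) (.n (.n .z (.l [M 246])) (.n (.l [P 230])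
  .z)))))))⟩⟩

def p1_19 : Step := ⟨.conj 7 0, ⟨(.ofNat 1), .n (.n (.n (.n (.n (.n (.n (.n (.l [M 60]) (.l [P 236])) .z) .z) (.n .z
  (.n (.n (.l [M 188]) .z) .z))) (.n (.n (.n (.n (.l [M 110]) .z) (.n (.l [P 211]) .z)) .z) (.n
  (.n (.n (.l [P 152]) .z) .z) (.n (.n (.l [M 195]) .z) (.n (.l [M 235]) .z))))) (.n (.n (.n .z
  (.n (.n (.l [M 175]) (.l [P 244])) .z)) (.n (.n (.n (.l [P 146]) .z) .z) (.n (.n (.l [P 191])
  (.l [P 246])) .z))) (.n (.n (.n (.n (.l [M 120, M 122, M 123, M 124, M 235]) .z) .z) (.n (.n .z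
  (.l [P 245])) .z)) (.n (.n (.n (.l [P 160]) .z) .z) (.n .z (.n (.l [(235, .ofNat 4)]) .z))))))
  (.n (.n (.n (.n (.n (.n (.l [M 75]) .z) .z) .z) (.n (.n (.n (.l [M 140]) .z) .z) .z)) (.n (.n
  (.n (.n (.l [M 116]) .z) .z) (.n (.n (.l [M 182]) .z) .z)) (.n .z (.n (.n (.l [P 198]) .z) (.n
  (.l [(235, .ofNat 3)]) .z))))) (.n (.n (.n (.n (.n (.l [P 104]) .z) (.n (.l [M 209]) .z)) (.n
  (.n (.l [P 177]) .z) .z)) (.n (.n (.n (.l [M 148]) (.l [M 242])) .z) .z)) (.n (.n (.n (.n (.l [M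
  130]) .z) .z) (.n (.n (.l [P 184]) .z) .z)) (.n (.n (.n (.l [P 162]) .z) .z) (.n .z (.n (.l
  [(235, .ofNat 2)]) .z))))))) (.n (.n (.n (.n (.n (.n (.n (.l [M 67]) .z) (.n (.l [P 205]) .z))
  (.n (.n (.l [P 168]) .z) .z)) (.n .z (.n (.n (.l [M 189]) .z) .z))) (.n (.n (.n (.n .z (.l [P
  239])) .z) .z) (.n (.n (.n (.l [P 154]) .z) .z) (.n .z (.n (.l [(235, .ofNat 2)]) .z))))) (.n
  (.n (.n (.n (.n (.l [P 97]) .z) .z) (.n .z (.n (.l [M 227]) .z))) (.n (.n .z (.n (.l [M 217])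
  .z)) (.n .z (.n (.l [P 233]) .z)))) (.n (.n (.n .z (.n (.l [M 212]) .z)) .z) (.n (.n .z (.n (.l
  [M 222]) .z)) (.n .z (.n (.l [(235, .negSucc 2)]) .z)))))) (.n (.n (.n (.n (.n (.n (.l [M 83])
  (.l [P 237])) .z) (.n (.n (.l [P 170]) .z) (.n (.l [P 225]) .z))) (.n .z (.n .z (.n (.l [P 232])
  .z)))) (.n (.n (.n (.n (.l [M 119]) .z) .z) (.n .z (.n (.l [P 229]) .z))) (.n (.n (.n (.l [M
  156]) .z) (.n (.l [P 220]) .z)) (.n (.n (.l [P 199]) (.l [P 247])) (.n (.l [(235, .negSucc 3)])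
  .z))))) (.n (.n .z (.n (.n .z (.n (.l [M 219]) .z)) .z)) (.n (.n (.n (.n (.l [M 132]) (.l [M
  241])) (.n (.l [M 214]) .z)) .z) (.n (.n .z (.n (.l [M 223]) .z)) (.n (.n (.l [M 201]) .z) (.n
  (.l [M 235]) .z)))))))⟩⟩

def p1_20 : Step := ⟨.conj 10 0, ⟨(.ofNat 1), .n (.n (.n (.n (.n (.n (.n (.n (.l [P 70]) .z) .z) (.n (.n (.l [M 179])
  (.l [M 245])) (.n (.l [M 230]) .z))) (.n (.n (.n (.l [M 147]) (.l [M 243])) .z) .z)) (.n (.n .z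
  (.n (.n .z (.l [M 246])) (.n (.l [M 233]) .z))) (.n (.n (.n (.l [M 164]) (.l [M 244])) .z) (.n
  .z (.n (.l [(238, .ofNat 2)]) .z))))) (.n (.n (.n (.n (.n (.l [P 103]) .z) (.n (.l [P 215]) .z))
  (.n .z (.n (.l [P 231]) .z))) (.n (.n .z (.n (.l [P 224]) .z)) (.n .z (.n (.l [P 236]) .z))))
  (.n (.n .z (.n (.n (.l [M 194]) .z) (.n (.l [P 234]) .z))) (.n (.n (.n (.l [M 172]) .z) (.n (.l
  [P 228]) .z)) (.n (.n (.l [P 209]) .z) (.n (.l [(238, .negSucc 3)]) .z)))))) (.n (.n (.n (.n (.n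
  (.n (.l [P 87]) (.l [P 241])) .z) .z) (.n .z (.n (.n (.l [M 200]) .z) .z))) (.n (.n (.n (.n (.l
  [M 128]) .z) .z) .z) (.n (.n (.n (.l [P 166]) .z) .z) (.n .z (.n (.l [(238, .negSucc 2)])
  .z))))) (.n (.n (.n (.n (.n (.l [M 117]) .z) .z) (.n (.n (.l [M 187]) .z) .z)) (.n .z (.n (.n
  (.l [P 204]) .z) .z))) (.n (.n (.n (.n (.l [P 143]) .z) .z) .z) (.n .z (.n .z (.n (.l [(238,
  .negSucc 1)]) .z))))))) (.n (.n (.n (.n (.n (.n (.n (.l [P 79]) (.l [P 240])) .z) (.n (.n (.l [M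
  180]) .z) .z)) (.n (.n (.n (.l [P 151]) .z) (.n (.l [M 221]) .z)) (.n (.n .z (.l [M 247])) .z)))
  (.n (.n (.n (.n (.l [M 120, M 121, M 122, M 123, M 238]) .z) (.n (.l [M 216]) .z)) (.n (.n (.l
  [P 190]) .z) .z)) (.n (.n .z (.n (.l [M 226]) .z)) (.n (.n (.l [M 206]) .z) (.n (.l [(238,
  .negSucc 1)]) .z))))) (.n (.n (.n .z (.n (.n (.l [M 186]) .z) .z)) (.n (.n (.n (.l [P 158]) .z)
  .z) (.n (.n (.l [P 203]) .z) .z))) (.n (.n (.n (.n (.l [M 139]) .z) .z) .z) (.n .z (.n (.n (.l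
  [P 210]) .z) (.n (.l [(238, .ofNat 3)]) .z)))))) (.n (.n (.n (.n (.n (.n (.l [P 95]) .z) (.n (.l
  [P 214]) .z)) .z) (.n (.n (.n (.l [M 155]) .z) (.n (.l [P 223]) .z)) .z)) (.n (.n (.n (.n (.l [M
  131]) .z) (.n (.l [P 219]) .z)) (.n (.n (.l [M 193]) .z) .z)) (.n .z (.n .z (.n (.l [(238,
  .ofNat 5)]) .z))))) (.n (.n (.n (.n (.n (.l [M 118]) .z) .z) .z) (.n (.n (.n (.l [M 163]) .z)
  .z) (.n .z (.n (.l [P 237]) .z)))) (.n (.n .z (.n (.n (.l [P 197]) .z) .z)) (.n (.n (.n (.l [P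
  174]) .z) .z) (.n .z (.n (.l [P 238]) .z)))))))⟩⟩

def p1_21 : Step := ⟨.conj 9 0, ⟨(.ofNat 1), .n (.n (.n (.n (.n (.n (.n (.n (.l [M 84]) .z) .z) .z) (.n (.n (.n (.l [P
  160]) .z) .z) (.n (.n (.l [P 207]) .z) .z))) (.n (.n (.n (.n (.l [M 136]) .z) .z) (.n (.n (.l [M
  199]) .z) .z)) (.n .z (.n (.n (.l [P 213]) .z) (.n (.l [(242, .negSucc 1)]) .z))))) (.n (.n (.n
  (.n (.n (.l [M 116]) .z) .z) (.n (.n (.l [P 196]) .z) .z)) (.n (.n (.n (.l [M 171]) .z) .z) .z))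
  (.n (.n (.n (.n (.l [P 150]) .z) (.n (.l [P 227]) .z)) .z) (.n .z (.n .z (.n (.l [(242, .ofNat
  4)]) .z)))))) (.n (.n (.n (.n (.n (.n (.l [M 100]) .z) (.n (.l [M 220]) .z)) (.n (.n (.l [M
  191]) .z) .z)) (.n (.n (.n (.l [P 165]) .z) (.n (.l [M 229]) .z)) .z)) (.n (.n (.n .z (.n (.l [M
  225]) .z)) (.n (.n (.l [P 202]) .z) .z)) (.n (.n .z (.n (.l [M 232]) .z)) (.n .z (.n (.l [(242,
  .ofNat 4)]) .z))))) (.n (.n (.n (.n (.n (.l [M 129]) .z) (.n (.l [M 224]) .z)) .z) (.n (.n (.n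
  (.l [P 173]) .z) .z) (.n .z (.n (.l [P 241]) .z)))) (.n .z (.n (.n (.n (.l [M 185]) .z) .z) (.n
  (.n (.l [P 217]) .z) (.n (.l [(242, .ofNat 2)]) .z))))))) (.n (.n (.n (.n (.n (.n (.n (.l [M
  92]) .z) .z) (.n .z (.n (.l [M 235]) .z))) (.n .z (.n (.n (.l [P 208]) .z) .z))) (.n .z (.n (.n
  (.n (.l [M 178]) .z) .z) (.n .z (.n (.l [(242, .ofNat 3)]) .z))))) (.n (.n (.n (.n (.n (.l [M
  121, M 122, M 123, M 242]) .z) (.n (.l [P 222]) .z)) .z) (.n .z (.n .z (.n (.l [P 240]) .z))))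
  (.n (.n (.n (.n (.l [P 152]) .z) .z) (.n (.n (.l [M 205]) .z) .z)) (.n (.n (.n (.l [M 184]) .z)
  .z) (.n .z (.n (.l [(242, .negSucc 2)]) .z)))))) (.n (.n (.n (.n (.n (.n (.l [M 108]) (.l [P
  243])) .z) (.n (.n (.l [M 192]) (.l [P 247])) .z)) (.n (.n (.n (.l [P 168]) (.l [P 245])) .z)
  (.n (.n (.l [M 211]) .z) .z))) (.n (.n (.n (.n (.l [P 144]) (.l [P 244])) .z) .z) (.n (.n (.n
  (.l [P 181]) (.l [P 246])) .z) (.n .z (.n (.l [(242, .negSucc 4)]) .z))))) (.n (.n (.n (.n (.n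
  (.l [M 130]) .z) .z) (.n (.n (.l [M 198]) .z) (.n (.l [M 236]) .z))) (.n (.n (.n (.l [P 177])
  .z) (.n (.l [M 231]) .z)) (.n (.n (.l [P 212]) .z) .z))) (.n (.n (.n (.n (.l [P 157]) .z) (.n
  (.l [M 228]) .z)) (.n .z (.n (.l [P 239]) .z))) (.n (.n .z (.n (.l [M 234]) .z)) (.n (.n (.l [P
  218]) .z) (.n (.l [M 242]) .z)))))))⟩⟩

def p1_22 : Step := ⟨.conj 18 0, ⟨(.ofNat 1), .n (.n (.n (.n (.n (.n (.n (.n (.l [P 91]) .z) (.n (.l [M 224]) .z)) (.n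
  (.n (.l [P 196]) .z) .z)) (.n (.n (.n (.l [M 167]) .z) (.n (.l [M 231]) .z)) .z)) (.n (.n (.n
  (.n (.l [P 143]) .z) .z) (.n (.n (.l [P 204]) .z) (.n (.l [P 239]) .z))) (.n (.n .z (.n (.l [M
  234]) .z)) (.n .z (.n (.l [(243, .ofNat 2)]) .z))))) (.n (.n (.n (.n (.n (.l [P 123, P 124, P
  243]) (.l [P 244])) .z) .z) (.n (.n (.n .z (.l [P 246])) .z) (.n .z (.n (.l [P 242]) .z)))) (.n
  (.n (.n (.n .z (.l [P 245])) (.n (.l [M 230]) .z)) (.n (.n (.l [P 208]) .z) .z)) (.n (.n (.n .z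
  (.l [P 247])) .z) (.n (.n (.l [M 220]) .z) (.n (.l [(243, .negSucc 3)]) .z)))))) (.n (.n (.n (.n
  (.n (.n (.l [P 107]) .z) .z) (.n (.n (.l [P 197]) .z) .z)) (.n (.n (.n (.l [M 172]) .z) .z) (.n
  (.n (.l [P 213]) .z) .z))) (.n (.n (.n (.n (.l [P 150]) .z) .z) .z) (.n (.n (.n (.l [M 185]) .z)
  .z) (.n .z (.n (.l [(243, .negSucc 3)]) .z))))) (.n (.n (.n (.n (.n (.l [P 137]) .z) .z) .z) (.n
  (.n (.n (.l [M 180]) .z) .z) .z)) (.n (.n .z (.n .z (.n (.l [P 241]) .z))) (.n .z (.n (.n (.l [M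
  221]) .z) (.n (.l [(243, .negSucc 1)]) .z))))))) (.n (.n (.n (.n (.n (.n (.n (.l [P 99]) .z) .z)
  (.n .z (.n (.l [P 237]) .z))) (.n (.n (.n (.l [M 171]) .z) .z) .z)) (.n (.n (.n (.n (.l [P 144])
  .z) .z) .z) (.n .z (.n (.n (.l [P 218]) .z) (.n (.l [(243, .negSucc 2)]) .z))))) (.n (.n (.n (.n
  (.n (.l [P 131]) .z) (.n (.l [M 226]) .z)) (.n (.n (.l [P 202]) .z) .z)) (.n (.n (.n (.l [M
  178]) .z) .z) .z)) (.n (.n (.n (.n (.l [M 159]) .z) .z) (.n (.n (.l [P 210]) .z) (.n (.l [P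
  240]) .z))) (.n (.n (.n (.l [P 190]) .z) .z) (.n .z (.n (.l [(243, .ofNat 3)]) .z)))))) (.n (.n
  (.n (.n (.n (.n (.l [P 115]) .z) (.n (.l [M 225]) .z)) .z) (.n (.n (.n (.l [M 176]) .z) (.n (.l
  [M 232]) .z)) (.n (.n (.l [P 215]) .z) .z))) (.n (.n (.n .z (.n (.l [M 229]) .z)) (.n (.n (.l [P
  207]) .z) .z)) (.n (.n (.n (.l [M 187]) .z) .z) (.n .z (.n (.l [(243, .ofNat 6)]) .z))))) (.n
  (.n (.n (.n (.n (.l [P 138]) .z) (.n (.l [M 228]) .z)) (.n (.n (.l [P 203]) .z) (.n (.l [P 238])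
  .z))) (.n (.n (.n (.l [M 183]) .z) .z) (.n (.n (.l [M 216]) .z) .z))) (.n (.n (.n (.n (.l [M
  164]) .z) .z) .z) (.n (.n (.n (.l [M 192]) .z) .z) (.n .z (.n (.l [P 243]) .z)))))))⟩⟩

def p1_23 : Step := ⟨.conj 18 0, ⟨(.ofNat 1), .n (.n (.n (.n (.n (.n (.n (.n (.l [M 98]) .z) .z) (.n .z (.n (.l [P
  239]) .z))) (.n (.n (.n (.l [P 175]) .z) .z) (.n (.n (.l [M 216]) .z) .z))) (.n (.n (.n (.n (.l
  [M 151]) .z) (.n (.l [M 231]) .z)) .z) (.n (.n .z (.n (.l [P 236]) .z)) (.n (.n (.l [M 221]) .z)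
  (.n (.l [(244, .negSucc 1)]) .z))))) (.n (.n (.n (.n (.n (.l [M 132]) .z) (.n (.l [M 229]) .z))
  .z) .z) (.n (.n (.n (.n (.l [M 164]) .z) (.n (.l [P 233]) .z)) (.n .z (.n (.l [P 242]) .z))) (.n
  (.n (.n (.l [P 196]) .z) .z) (.n .z (.n (.l [(244, .ofNat 5)]) .z)))))) (.n (.n (.n (.n (.n (.n
  (.l [M 114]) .z) .z) .z) (.n (.n (.n (.l [P 179]) .z) .z) (.n (.n (.l [M 217]) .z) .z))) (.n (.n
  (.n (.n (.l [M 157]) .z) .z) .z) (.n (.n (.n (.l [P 191]) .z) (.n (.l [P 237]) .z)) (.n (.n (.l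
  [M 224]) .z) (.n (.l [(244, .ofNat 4)]) .z))))) (.n (.n (.n (.n (.n (.l [M 145]) .z) .z) (.n (.n
  (.l [P 208]) .z) (.n (.l [P 241]) .z))) (.n (.n (.n (.l [P 186]) .z) .z) .z)) (.n (.n (.n (.n
  (.l [M 171]) .z) .z) .z) (.n (.n (.n (.l [P 197]) .z) .z) (.n .z (.n (.l [(244, .ofNat 2)])
  .z))))))) (.n (.n (.n (.n (.n (.n (.n (.l [M 106]) .z) (.n (.l [M 228]) .z)) (.n (.n (.l [P
  202]) .z) .z)) .z) (.n (.n (.n (.n (.l [M 152]) .z) .z) .z) (.n (.n (.n (.l [P 190]) .z) .z) (.n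
  (.n (.l [M 222]) .z) (.n (.l [(244, .ofNat 3)]) .z))))) (.n (.n (.n (.n (.n (.l [M 139]) (.l [P
  245])) .z) (.n .z (.n (.l [P 240]) .z))) (.n (.n (.n (.l [P 184]) (.l [P 247])) .z) (.n (.n (.l
  [M 220]) .z) .z))) (.n (.n (.n (.n .z (.l [P 246])) .z) (.n (.n (.l [M 214]) .z) .z)) (.n .z (.n
  (.n (.l [M 225]) .z) (.n (.l [(244, .negSucc 2)]) .z)))))) (.n (.n (.n (.n (.n (.n (.l [M 124, M
  125, M 244]) .z) .z) (.n (.n (.l [P 204]) .z) .z)) (.n (.n (.n (.l [P 182]) .z) (.n (.l [P 235])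
  .z)) (.n (.n (.l [M 219]) .z) (.n (.l [P 243]) .z)))) (.n (.n (.n (.n (.l [M 159]) .z) .z) (.n
  (.n (.l [M 212]) .z) .z)) (.n (.n (.n (.l [P 194]) .z) .z) (.n .z (.n (.l [(244, .negSucc 5)])
  .z))))) (.n (.n (.n (.n (.n (.l [M 146]) .z) .z) (.n (.n (.l [M 209]) .z) .z)) (.n (.n (.n (.l
  [P 189]) .z) .z) .z)) (.n .z (.n (.n (.n (.l [P 199]) .z) (.n (.l [P 238]) .z)) (.n (.n (.l [M
  226]) .z) (.n (.l [M 244]) .z)))))))⟩⟩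

def p1_24 : Step := ⟨.conj 18 0, ⟨(.ofNat 1), .n (.n (.n (.n (.n (.n (.n (.n (.l [P 105]) .z) .z) .z) (.n (.n .z (.n
  (.l [P 236]) .z)) .z)) (.n (.n (.n (.n (.l [P 158]) .z) (.n (.l [P 234]) .z)) (.n (.n (.l [M
  214]) .z) .z)) (.n (.n (.n (.l [P 196]) .z) .z) (.n .z (.n (.l [(245, .ofNat 2)]) .z))))) (.n
  (.n (.n (.n (.n (.l [P 140]) .z) (.n (.l [P 232]) .z)) (.n .z (.n (.l [P 242]) .z))) (.n (.n (.n
  (.l [P 190]) .z) .z) (.n (.n (.l [M 224]) .z) .z))) (.n (.n (.n (.n (.l [P 172]) .z) .z) (.n (.n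
  (.l [M 217]) .z) .z)) (.n .z (.n .z (.n (.l [(245, .negSucc 4)]) .z)))))) (.n (.n (.n (.n (.n
  (.n (.l [P 125, P 126, P 245]) .z) .z) (.n (.n (.l [M 209]) .z) .z)) (.n (.n .z (.n (.l [P 237])
  .z)) (.n .z (.n (.l [P 244]) .z)))) (.n (.n (.n (.n (.l [P 165]) .z) .z) (.n (.n (.l [M 216])
  .z) .z)) (.n (.n (.n (.l [M 198]) .z) .z) (.n .z (.n (.l [(245, .negSucc 3)]) .z))))) (.n (.n
  (.n (.n (.n (.l [P 153]) (.l [P 246])) .z) (.n (.n (.l [M 213]) .z) .z)) (.n (.n (.n (.l [M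
  193]) .z) .z) (.n (.n (.l [M 225]) .z) .z))) (.n (.n (.n (.n (.l [P 178]) (.l [P 247])) .z) .z)
  (.n (.n (.n (.l [M 203]) .z) (.n (.l [P 241]) .z)) (.n .z (.n (.l [(245, .negSucc 1)]) .z)))))))
  (.n (.n (.n (.n (.n (.n (.n (.l [P 113]) .z) .z) (.n (.n (.l [M 207]) .z) .z)) (.n (.n (.n (.l
  [P 184]) .z) .z) (.n (.n (.l [M 221]) .z) .z))) (.n (.n (.n (.n (.l [P 160]) .z) .z) .z) (.n (.n
  .z (.n (.l [P 239]) .z)) (.n (.n (.l [P 227]) .z) (.n (.l [(245, .negSucc 2)]) .z))))) (.n (.n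
  (.n (.n (.n (.l [P 147]) .z) (.n (.l [P 233]) .z)) (.n (.n (.l [M 212]) .z) .z)) .z) (.n (.n (.n
  (.n (.l [P 175]) .z) .z) .z) (.n (.n .z (.n (.l [P 240]) .z)) (.n .z (.n (.l [(245, .ofNat 4)])
  .z)))))) (.n (.n (.n (.n (.n (.n (.l [P 133]) .z) .z) (.n (.n (.l [M 210]) .z) .z)) (.n (.n (.n
  (.l [M 188]) .z) .z) (.n (.n (.l [P 223]) .z) .z))) (.n (.n (.n (.n (.l [P 167]) .z) (.n (.l [P
  235]) .z)) (.n .z (.n (.l [P 243]) .z))) (.n (.n (.n (.l [M 200]) .z) .z) (.n (.n (.l [M 228])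
  .z) (.n (.l [(245, .ofNat 6)]) .z))))) (.n (.n (.n (.n (.n (.l [P 154]) .z) .z) .z) (.n (.n (.n
  (.l [M 195]) .z) (.n (.l [P 238]) .z)) .z)) (.n (.n (.n (.n (.l [P 179]) .z) .z) (.n (.n (.l [M
  220]) .z) .z)) (.n (.n (.n (.l [M 205]) .z) .z) (.n (.n (.l [P 230]) .z) (.n (.l [P 245])
  .z)))))))⟩⟩

def p1_25 : Step := ⟨.conj 18 0, ⟨(.ofNat 1), .n (.n (.n (.n (.n (.n (.n (.n (.l [M 112]) .z) .z) (.n (.n (.l [M 212])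
  .z) .z)) (.n (.n (.n (.l [M 188]) .z) .z) .z)) (.n (.n (.n (.n (.l [M 166]) .z) .z) (.n (.n (.l
  [P 219]) .z) .z)) (.n (.n (.n (.l [M 202]) .z) .z) (.n (.n (.l [P 230]) .z) (.n (.l [(246,
  .negSucc 1)]) .z))))) (.n (.n (.n (.n (.n (.l [M 148]) .z) .z) (.n (.n (.l [M 216]) .z) .z)) (.n
  (.n (.n (.l [M 197]) .z) .z) .z)) (.n (.n (.n (.n (.l [M 180]) .z) .z) (.n (.n (.l [P 222]) .z)
  .z)) (.n (.n (.n (.l [M 207]) .z) (.n (.l [P 242]) .z)) (.n .z (.n (.l [(246, .ofNat 5)])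
  .z)))))) (.n (.n (.n (.n (.n (.n (.l [M 134]) .z) .z) .z) (.n (.n (.n (.l [M 193]) .z) .z) (.n
  (.n (.l [P 227]) .z) .z))) (.n (.n (.n (.n (.l [M 173]) .z) (.n (.l [P 237]) .z)) (.n .z (.n (.l
  [P 244]) .z))) (.n .z (.n .z (.n (.l [(246, .ofNat 4)]) .z))))) (.n (.n (.n (.n (.n (.l [M 161])
  .z) .z) (.n (.n (.l [P 218]) .z) .z)) (.n (.n .z (.n (.l [P 241]) .z)) (.n (.n (.l [P 229]) .z)
  .z))) (.n (.n (.n (.n (.l [M 185]) .z) .z) (.n (.n (.l [M 224]) .z) .z)) (.n .z (.n (.n (.l [P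
  233]) .z) (.n (.l [(246, .ofNat 3)]) .z))))))) (.n (.n (.n (.n (.n (.n (.n (.l [M 126, M 127, M
  246]) .z) (.n (.l [P 234]) .z)) .z) (.n (.n (.n (.l [M 191]) .z) (.n (.l [P 239]) .z)) (.n (.n
  (.l [P 226]) .z) (.n (.l [P 245]) .z)))) (.n (.n (.n (.n (.l [M 168]) .z) .z) (.n (.n (.l [M
  220]) .z) .z)) (.n (.n (.n (.l [M 203]) .z) .z) (.n .z (.n (.l [(246, .ofNat 3)]) .z))))) (.n
  (.n (.n (.n (.n (.l [M 155]) .z) .z) .z) (.n (.n (.n (.l [M 198]) .z) (.n (.l [P 240]) .z)) .z))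
  (.n (.n (.n (.n (.l [M 182]) .z) .z) (.n (.n (.l [P 223]) .z) .z)) (.n (.n (.n (.l [M 209]) .z)
  .z) (.n (.n (.l [P 232]) .z) (.n (.l [(246, .negSucc 3)]) .z)))))) (.n (.n (.n (.n (.n (.n (.l
  [M 141]) .z) (.n (.l [P 235]) .z)) (.n (.n (.l [P 215]) .z) (.n (.l [P 243]) .z))) .z) (.n (.n
  (.n (.n (.l [M 176]) .z) .z) .z) (.n (.n (.n (.l [P 206]) .z) .z) (.n (.n (.l [P 231]) .z) (.n
  (.l [(246, .negSucc 5)]) .z))))) (.n (.n (.n (.n (.n (.l [M 162]) (.l [P 247])) (.n (.l [P 236])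
  .z)) .z) (.n (.n (.n (.l [P 201]) .z) .z) .z)) (.n (.n (.n (.n (.l [M 186]) .z) (.n (.l [P 238])
  .z)) .z) (.n (.n (.n (.l [P 211]) .z) .z) (.n .z (.n (.l [M 246]) .z)))))))⟩⟩

def p1_26 : Step := ⟨.conj 16 0, ⟨(.ofNat 1), .n (.n (.n (.n (.n (.n (.n (.n (.l [M 127, P 247]) .z) (.n (.l [M 236])
  .z)) (.n (.n (.l [M 217]) .z) .z)) (.n (.n (.n (.l [M 195]) .z) .z) (.n (.n (.l [M 230]) .z) (.n
  (.l [M 246]) .z)))) (.n (.n (.n (.n (.l [M 174]) .z) .z) .z) (.n (.n (.n (.l [M 208]) .z) .z)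
  (.n .z (.n (.l [(247, .negSucc 1)]) .z))))) (.n (.n (.n (.n (.n (.l [M 156]) .z) .z) (.n (.n (.l
  [M 221]) .z) .z)) (.n (.n (.n (.l [M 204]) .z) (.n (.l [M 242]) .z)) (.n (.n (.l [M 231]) .z)
  .z))) (.n (.n (.n (.n (.l [M 187]) .z) .z) .z) (.n (.n (.n (.l [M 213]) .z) .z) (.n (.n (.l [M
  235]) .z) (.n (.l [(247, .ofNat 5)]) .z)))))) (.n (.n (.n (.n (.n (.n (.l [M 142]) .z) (.n (.l
  [M 237]) .z)) (.n (.n (.l [M 219]) .z) (.n (.l [M 244]) .z))) (.n (.n (.n (.l [M 200]) .z) .z)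
  .z)) (.n (.n (.n (.n (.l [M 181]) .z) .z) (.n (.n (.l [M 226]) .z) .z)) (.n (.n (.n (.l [M 211])
  .z) .z) (.n (.n (.l [M 234]) .z) (.n (.l [(247, .ofNat 4)]) .z))))) (.n (.n (.n (.n (.n (.l [M
  169]) .z) (.n (.l [M 238]) .z)) .z) (.n (.n (.n (.l [M 206]) .z) .z) .z)) (.n (.n (.n (.n (.l [M
  192]) .z) (.n (.l [M 241]) .z)) (.n (.n (.l [M 228]) .z) .z)) (.n (.n (.n (.l [M 215]) .z) .z)
  (.n .z (.n (.l [(247, .ofNat 3)]) .z))))))) (.n (.n (.n (.n (.n (.n (.n (.l [M 135]) .z) .z) (.n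
  (.n (.l [M 218]) .z) .z)) (.n (.n (.n (.l [M 199]) .z) .z) .z)) (.n (.n (.n (.n (.l [M 177]) .z)
  (.n (.l [M 239]) .z)) (.n (.n (.l [M 225]) .z) (.n (.l [M 245]) .z))) (.n (.n (.n (.l [M 210])
  .z) .z) (.n .z (.n (.l [(247, .ofNat 3)]) .z))))) (.n (.n (.n (.n (.n (.l [M 163]) .z) .z) (.n
  (.n (.l [M 222]) .z) .z)) (.n (.n (.n (.l [M 205]) .z) .z) (.n (.n (.l [M 232]) .z) .z))) (.n
  (.n (.n (.n (.l [M 189]) .z) (.n (.l [M 240]) .z)) .z) (.n (.n (.n (.l [M 214]) .z) .z) (.n .z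
  (.n (.l [(247, .negSucc 3)]) .z)))))) (.n (.n (.n (.n (.n (.n (.l [M 149]) .z) .z) .z) (.n (.n
  (.n (.l [M 201]) .z) .z) .z)) (.n (.n (.n (.n (.l [M 183]) .z) .z) (.n (.n (.l [M 227]) .z) .z))
  (.n (.n .z (.n (.l [M 243]) .z)) (.n .z (.n (.l [(247, .negSucc 5)]) .z))))) (.n (.n (.n (.n (.n
  (.l [M 170]) .z) .z) (.n (.n (.l [M 223]) .z) .z)) (.n .z (.n (.n (.l [M 233]) .z) .z))) (.n (.n
  (.n (.n (.l [M 194]) .z) .z) (.n (.n (.l [M 229]) .z) .z)) (.n .z (.n .z (.n (.l [(247, .negSucc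
  1)]) .z)))))))⟩⟩

def p1_27 : Step := ⟨.word [0, 1, 14], ⟨(.ofNat 1), .n (.n (.n (.n (.n (.n (.n (.n (.l [(0, .negSucc 1), M 112, M 127,
  M 246, M 247]) .z) (.n (.l [P 236]) (.l [(192, .negSucc 1)]))) (.n (.n (.l [P 212, P 217]) .z)
  .z)) (.n (.n (.n (.l [P 188, P 195]) (.l [(144, .negSucc 1)])) .z) (.n (.n (.l [P 230]) .z) (.n
  (.l [P 246]) (.l [(240, .negSucc 1)]))))) (.n (.n (.n (.n (.l [(8, .negSucc 1), M 166, M 174])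
  (.l [(136, .negSucc 1)])) (.n (.l [(72, .negSucc 1)]) (.l [(200, .negSucc 1)]))) (.n (.n (.l [M
  219]) .z) (.n (.l [(104, .negSucc 1)]) .z))) (.n (.n (.n (.l [(24, .negSucc 1), M 202, M 208])
  .z) (.n .z (.l [(216, .negSucc 1)]))) (.n (.n (.l [M 230]) .z) (.n (.l [(246, .ofNat 2), (247,
  .ofNat 2)]) .z))))) (.n (.n (.n (.n (.n (.l [P 148, P 156]) (.l [(132, .negSucc 1)])) (.n (.l
  [(68, .negSucc 1)]) .z)) (.n (.n (.l [P 216, P 221]) .z) (.n (.l [(100, .negSucc 1)]) .z))) (.n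
  (.n (.n (.l [(20, .negSucc 1), M 197, M 204]) (.l [(148, .negSucc 1)])) (.n (.l [(84, .negSucc
  1), M 242]) (.l [(212, .negSucc 1)]))) (.n (.n (.l [(52, .negSucc 1), M 231]) .z) (.n .z (.l
  [(244, .negSucc 1)]))))) (.n (.n (.n (.n (.l [(12, .negSucc 1), M 180, M 187]) (.l [(140,
  .negSucc 1)])) (.n (.l [(76, .negSucc 1)]) .z)) (.n (.n (.l [M 222]) .z) (.n (.l [(108, .negSucc
  1)]) (.l [(236, .negSucc 1)])))) (.n (.n (.n (.l [(28, .negSucc 1), M 207, M 213]) (.l [(156,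
  .negSucc 1)])) (.n (.l [(92, .negSucc 1), P 242]) .z)) (.n (.n (.l [P 235]) (.l [(188, .negSucc
  1)])) (.n (.l [(246, .negSucc 4), (247, .negSucc 4)]) .z)))))) (.n (.n (.n (.n (.n (.n (.l [(2,
  .negSucc 1), M 134, M 142]) (.l [(130, .negSucc 1)])) (.n (.l [P 237]) (.l [(194, .negSucc
  1)]))) (.n (.n (.l [P 219]) .z) (.n (.l [P 244]) (.l [(226, .negSucc 1)])))) (.n (.n (.n (.l [P
  193, P 200]) .z) .z) (.n (.n (.l [M 227]) (.l [(178, .negSucc 1)])) .z))) (.n (.n (.n (.n (.l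
  [(10, .negSucc 1), M 173, M 181]) (.l [(138, .negSucc 1)])) (.n (.l [M 237]) .z)) (.n (.n (.l [P
  226]) .z) (.n (.l [M 244]) .z))) (.n (.n (.n (.l [(26, .negSucc 1), M 211]) .z) .z) (.n (.n (.l
  [(58, .negSucc 1), M 234]) (.l [(186, .negSucc 1)])) (.n (.l [(246, .negSucc 3), (247, .negSucc
  3)]) .z))))) (.n (.n (.n (.n (.n (.l [P 161, P 169]) .z) (.n (.l [P 238]) .z)) (.n (.n (.l [(38,
  .negSucc 1), P 218]) .z) (.n (.l [(102, .negSucc 1)]) (.l [(230, .negSucc 1)])))) (.n (.n (.n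
  (.l [P 206]) (.l [(150, .negSucc 1)])) (.n (.l [(86, .negSucc 1), P 241]) (.l [(214, .negSucc
  1)]))) (.n (.n (.l [(54, .negSucc 1), P 229]) (.l [(182, .negSucc 1)])) (.n .z (.l [(246,
  .negSucc 1)]))))) (.n (.n (.n (.n (.l [P 185, P 192]) .z) (.n (.l [(78, .negSucc 1), M 241]) (.l
  [(206, .negSucc 1)]))) (.n (.n (.l [(46, .negSucc 1), M 224, M 228]) .z) (.n .z (.l [(238,
  .negSucc 1)])))) (.n (.n (.n (.l [(30, .negSucc 1), M 215]) .z) (.n (.l [(94, .negSucc 1)]) (.l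
  [(222, .negSucc 1)]))) (.n (.n (.l [(62, .negSucc 1), P 233]) .z) (.n (.l [(246, .negSucc 2),
  (247, .negSucc 2)]) .z))))))) (.n (.n (.n (.n (.n (.n (.n (.l [(1, .negSucc 1), M 126, M 127, M
  135, P 246, P 247]) .z) (.n (.l [(65, .negSucc 1), P 234]) (.l [(193, .negSucc 1)]))) (.n (.n
  (.l [(33, .negSucc 1), M 218]) (.l [(161, .negSucc 1)])) (.n (.l [(97, .negSucc 1)]) .z))) (.n
  (.n (.n (.l [(17, .negSucc 1), M 191, M 199]) (.l [(145, .negSucc 1)])) (.n (.l [M 239]) (.l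
  [(209, .negSucc 1)]))) (.n (.n (.l [M 226]) .z) (.n (.l [M 245]) .z)))) (.n (.n (.n (.n (.l [(9,
  .negSucc 1), M 168, M 177]) .z) (.n (.l [P 239]) (.l [(201, .negSucc 1)]))) (.n (.n (.l [(41,
  .negSucc 1), M 220, M 225]) (.l [(169, .negSucc 1)])) (.n (.l [P 245]) .z))) (.n (.n (.n (.l
  [(25, .negSucc 1), M 203, M 210]) (.l [(153, .negSucc 1)])) (.n .z (.l [(217, .negSucc 1)])))
  (.n (.n .z (.l [(185, .negSucc 1)])) (.n (.l [(246, .negSucc 2), (247, .negSucc 2)]) .z))))) (.n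
  (.n (.n (.n (.n (.l [P 155, P 163]) .z) (.n (.l [(69, .negSucc 1)]) .z)) (.n (.n (.l [P 222])
  .z) .z)) (.n (.n (.n (.l [(21, .negSucc 1), M 198, M 205]) .z) (.n (.l [M 240]) .z)) (.n (.n (.l
  [(53, .negSucc 1), M 232]) .z) (.n (.l [(117, .negSucc 1)]) (.l [(245, .negSucc 1)]))))) (.n (.n
  (.n (.n (.l [P 182, P 189]) .z) (.n (.l [P 240]) .z)) (.n (.n (.l [M 223]) .z) (.n (.l [(109,
  .negSucc 1)]) (.l [(237, .negSucc 1)])))) (.n (.n (.n (.l [P 209, P 214]) .z) (.n .z (.l [(221,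
  .negSucc 1)]))) (.n (.n (.l [(61, .negSucc 1), P 232]) (.l [(189, .negSucc 1)])) (.n (.l [(246,
  .ofNat 4), (247, .ofNat 4)]) .z)))))) (.n (.n (.n (.n (.n (.n (.l [(3, .negSucc 1), M 141, M
  149]) .z) (.n (.l [M 235]) (.l [(195, .negSucc 1)]))) (.n (.n (.l [(35, .negSucc 1), P 215]) (.l
  [(163, .negSucc 1)])) (.n (.l [(99, .negSucc 1), P 243]) (.l [(227, .negSucc 1)])))) (.n (.n (.n
  (.l [P 201]) (.l [(147, .negSucc 1)])) .z) (.n (.n .z (.l [(179, .negSucc 1)])) (.n (.l [(115,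
  .negSucc 1)]) .z)))) (.n (.n (.n (.n (.l [(11, .negSucc 1), M 176, M 183]) (.l [(139, .negSucc
  1)])) .z) (.n (.n (.l [P 227]) (.l [(171, .negSucc 1)])) (.n (.l [(107, .negSucc 1)]) (.l [(235,
  .negSucc 1)])))) (.n (.n (.n (.l [M 206]) (.l [(155, .negSucc 1)])) (.n (.l [(91, .negSucc 1), M
  243]) (.l [(219, .negSucc 1)]))) (.n (.n (.l [(59, .negSucc 1), P 231]) .z) (.n (.l [(246,
  .ofNat 6), (247, .ofNat 6)]) .z))))) (.n (.n (.n (.n (.n (.l [(7, .negSucc 1), M 162, M 170])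
  (.l [M 247])) (.n (.l [M 236]) .z)) (.n (.n (.l [P 223]) .z) (.n (.l [(103, .negSucc 1)]) .z)))
  (.n (.n (.n (.l [M 201]) .z) .z) (.n (.n (.l [(55, .negSucc 1), M 233]) .z) (.n .z (.l [(247,
  .negSucc 1)]))))) (.n (.n (.n (.n (.l [P 186, P 194]) (.l [(143, .negSucc 1)])) (.n (.l [M 238])
  .z)) (.n (.n (.l [(47, .negSucc 1), M 229]) (.l [(175, .negSucc 1)])) (.n (.l [(111, .negSucc
  1)]) (.l [(239, .negSucc 1)])))) (.n (.n (.n (.l [(31, .negSucc 1), P 211]) .z) (.n .z (.l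
  [(223, .negSucc 1)]))) (.n .z (.n (.l [P 246, (247, .ofNat 2)]) .z)))))))⟩⟩

def p1 : List Step := [p1_0, p1_1, p1_2, p1_3, p1_4, p1_5, p1_6, p1_7, p1_8, p1_9, p1_10, p1_11, p1_12, p1_13, p1_14,
  p1_15, p1_16, p1_17, p1_18, p1_19, p1_20, p1_21, p1_22, p1_23, p1_24, p1_25, p1_26, p1_27]

def p2_0 : Step := ⟨.word [3, 1], ⟨(.ofNat 0), .n (.n (.n (.n (.n (.n (.n (.n (.l [P 1]) (.l [M 138])) (.n (.l [M
  54]) (.l [P 188]))) (.n (.n (.l [P 31]) (.l [M 156])) (.n (.l [P 103]) (.l [P 225])))) (.n (.n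
  (.n (.l [P 27]) (.l [M 140])) (.n (.l [P 47]) (.l [P 198]))) (.n (.n (.l [P 79]) (.l [M 179]))
  (.n (.l [P 106]) (.l [P 241]))))) (.n (.n (.n (.n (.l [P 11]) (.l [P 119])) (.n (.l [M 66]) (.l
  [P 215]))) (.n (.n (.l [P 33]) (.l [P 132])) (.n (.l [P 80]) (.l [P 233])))) (.n (.n (.n (.l [M
  21]) (.l [P 116])) (.n (.l [P 82]) (.l [P 228]))) (.n (.n (.l [P 95]) (.l [M 177])) (.n (.l [M
  120, M 122]) .z))))) (.n (.n (.n (.n (.n (.l [M 2]) (.l [M 100])) (.n (.l [M 55]) (.l [P 205])))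
  (.n (.n (.l [P 65]) (.l [P 178])) (.n (.l [M 60]) (.l [P 232])))) (.n (.n (.n (.l [M 28]) (.l [M
  114])) (.n (.l [P 67]) (.l [M 199]))) (.n (.n (.l [P 41]) (.l [M 190])) (.n (.l [M 75]) (.l [P
  242]))))) (.n (.n (.n (.n (.l [P 25]) (.l [P 142])) (.n (.l [P 87]) (.l [P 207]))) (.n (.n (.l
  [P 26]) (.l [M 210])) (.n (.l [M 97]) (.l [M 229])))) (.n (.n (.n (.l [M 45]) (.l [P 134])) (.n
  (.l [P 83]) (.l [M 217]))) (.n (.n (.l [P 44]) (.l [M 194])) (.n (.l [P 121, P 122, P 123, P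
  124, P 125, P 126]) .z)))))) (.n (.n (.n (.n (.n (.n (.l [M 0]) (.l [M 104])) (.n (.l [M 85])
  (.l [M 185]))) (.n (.n (.l [M 24]) (.l [P 145])) (.n (.l [P 92]) (.l [M 224])))) (.n (.n (.n (.l
  [P 35]) (.l [P 129])) (.n (.l [P 77]) (.l [P 230]))) (.n (.n (.l [P 51]) (.l [P 195])) (.n (.l
  [M 84]) (.l [P 235]))))) (.n (.n (.n (.n (.l [M 7]) (.l [M 153])) (.n (.l [M 101]) (.l [P
  184]))) (.n (.n (.l [P 46]) (.l [M 161])) (.n (.l [P 108]) (.l [P 237])))) (.n (.n (.n (.l [P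
  13]) (.l [M 169])) (.n (.l [M 117]) (.l [P 209]))) (.n (.n (.l [P 74]) (.l [P 171])) (.n (.l [P
  120, P 121, P 122, P 123, P 124]) .z))))) (.n (.n (.n (.n (.n (.l [M 8]) (.l [M 98])) (.n (.l [M
  99]) (.l [P 189]))) (.n (.n (.l [M 39]) (.l [P 159])) (.n (.l [P 111]) (.l [P 238])))) (.n (.n
  (.n (.l [M 20]) (.l [P 154])) (.n (.l [P 96]) (.l [P 218]))) (.n (.n (.l [M 43]) (.l [M 157]))
  (.n (.l [P 137]) (.l [P 244]))))) (.n (.n (.n (.n (.l [M 16]) (.l [P 112])) (.n (.l [P 81]) (.l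
  [P 197]))) (.n (.n (.l [P 61]) (.l [M 176])) (.n (.l [M 89]) (.l [M 243])))) (.n (.n (.n (.l [P
  36]) (.l [M 183])) (.n (.l [M 73]) (.l [P 191]))) (.n (.n (.l [P 72]) (.l [P 213])) (.n (.l [P
  124, P 125, P 126, P 127]) .z))))))) (.n (.n (.n (.n (.n (.n (.n (.l [P 3]) (.l [M 110])) (.n
  (.l [P 90]) (.l [M 204]))) (.n (.n (.l [M 29]) (.l [M 151])) (.n (.l [P 93]) (.l [M 227])))) (.n
  (.n (.n (.l [P 9]) (.l [M 136])) (.n (.l [M 88]) (.l [M 208]))) (.n (.n (.l [P 58]) (.l [M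
  148])) (.n (.l [M 149]) (.l [P 239]))))) (.n (.n (.n (.n (.l [P 4]) (.l [P 158])) (.n (.l [M
  71]) (.l [P 186]))) (.n (.n (.l [M 50]) (.l [P 166])) (.n (.l [M 135]) (.l [M 231])))) (.n (.n
  (.n (.l [P 56]) (.l [P 174])) (.n (.l [P 64]) (.l [P 211]))) (.n (.n (.l [P 34]) (.l [P 175]))
  (.n (.l [P 122, P 123, P 124]) .z))))) (.n (.n (.n (.n (.n (.l [P 12]) (.l [M 163])) (.n (.l [P
  52]) (.l [P 196]))) (.n (.n (.l [M 17]) (.l [P 170])) (.n (.l [P 118]) (.l [P 212])))) (.n (.n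
  (.n (.l [M 23]) (.l [M 155])) (.n (.l [P 102]) (.l [M 223]))) (.n (.n (.l [P 62]) (.l [P 162]))
  (.n (.l [M 143]) (.l [M 247]))))) (.n (.n (.n (.n (.l [M 10]) (.l [P 139])) (.n (.l [P 86]) (.l
  [M 201]))) (.n (.n (.l [M 63]) (.l [M 146])) (.n (.l [M 94]) (.l [M 240])))) (.n (.n (.n (.l [P
  38]) (.l [M 130])) (.n (.l [M 78]) (.l [P 234]))) (.n (.n (.l [P 76]) (.l [P 173])) (.n (.l [M
  124, M 125, M 126]) .z)))))) (.n (.n (.n (.n (.n (.n (.l [P 5]) (.l [M 172])) (.n (.l [M 57])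
  (.l [P 206]))) (.n (.n (.l [P 48]) (.l [M 180])) (.n (.l [M 133]) (.l [M 219])))) (.n (.n (.n
  (.l [M 15]) (.l [M 187])) (.n (.l [P 69]) (.l [M 182]))) (.n (.n (.l [M 42]) (.l [M 192])) (.n
  (.l [M 147]) (.l [M 245]))))) (.n (.n (.n (.n (.l [P 18]) (.l [M 150])) (.n (.l [M 37]) (.l [P
  221]))) (.n (.n (.l [M 40]) (.l [P 160])) (.n (.l [P 105]) (.l [P 222])))) (.n (.n (.n (.l [P
  30]) (.l [P 164])) (.n (.l [M 113]) (.l [P 202]))) (.n (.n (.l [P 53]) (.l [M 203])) (.n (.l [M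
  121, M 122, M 123, M 124]) .z))))) (.n (.n (.n (.n (.n (.l [P 6]) (.l [M 141])) (.n (.l [P 68])
  (.l [M 168]))) (.n (.n (.l [P 49]) (.l [M 200])) (.n (.l [P 107]) (.l [M 220])))) (.n (.n (.n
  (.l [P 22]) (.l [M 144])) (.n (.l [P 91]) (.l [M 216]))) (.n (.n (.l [M 59]) (.l [M 193])) (.n
  (.l [P 109]) (.l [M 246]))))) (.n (.n (.n (.n (.l [P 14]) (.l [M 167])) (.n (.l [M 115]) (.l [M
  214]))) (.n (.n (.l [M 32]) (.l [P 181])) (.n (.l [M 128]) (.l [M 236])))) (.n (.n (.n (.l [M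
  19]) (.l [M 165])) (.n (.l [M 131]) (.l [P 226]))) (.n (.n (.l [M 70]) (.l [P 152])) (.n (.l [M
  126, M 127]) .z)))))))⟩⟩

def p2_1 : Step := ⟨.word [0, 0], ⟨(.ofNat 0), .n (.n (.n (.n (.n (.n (.n (.n (.l [P 3]) (.l [P 153])) (.n (.l [P
  43]) (.l [M 194]))) (.n (.n (.l [M 19]) (.l [M 134])) (.n (.l [P 107]) (.l [M 227])))) (.n (.n
  (.n (.l [P 30]) (.l [M 142])) (.n (.l [M 32]) (.l [P 189]))) (.n (.n (.l [M 115]) (.l [P 192]))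
  (.n (.l [P 108]) (.l [P 239]))))) (.n (.n (.n (.n (.l [P 18]) (.l [P 109])) (.n (.l [P 85]) (.l
  [M 216]))) (.n (.n (.l [M 29]) (.l [M 100])) (.n (.l [P 47]) (.l [M 231])))) (.n (.n (.n (.l [P
  23]) (.l [M 75])) (.n (.l [P 77]) (.l [P 232]))) (.n (.n (.l [M 131]) (.l [P 148])) (.n (.l [M
  121, M 123, M 124]) .z))))) (.n (.n (.n (.n (.n (.l [P 0]) (.l [P 60])) (.n (.l [P 59]) (.l [M
  201]))) (.n (.n (.l [P 90]) (.l [P 195])) (.n (.l [M 44]) (.l [P 233])))) (.n (.n (.n (.l [P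
  45]) (.l [P 84])) (.n (.l [M 57]) (.l [P 168]))) (.n (.n (.l [M 50]) (.l [M 213])) (.n (.l [P
  37]) (.l [P 235]))))) (.n (.n (.n (.n (.l [P 56]) (.l [P 112])) (.n (.l [P 91]) (.l [M 214])))
  (.n (.n (.l [P 13]) (.l [M 230])) (.n (.l [M 93]) (.l [M 212])))) (.n (.n (.n (.l [P 63]) (.l [M
  98])) (.n (.l [P 69]) (.l [M 211]))) (.n (.n (.l [P 26]) (.l [P 185])) (.n (.l [P 120, P 121,
  (122, .ofNat 2), (123, .ofNat 2), (124, .ofNat 2), P 125, P 126, P 127]) .z)))))) (.n (.n (.n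
  (.n (.n (.n (.l [M 1]) (.l [M 80])) (.n (.l [M 102]) (.l [M 175]))) (.n (.n (.l [P 21]) (.l [M
  136])) (.n (.l [P 83]) (.l [M 225])))) (.n (.n (.n (.l [P 48]) (.l [M 110])) (.n (.l [P 86]) (.l
  [P 238]))) (.n (.n (.l [M 42]) (.l [P 206])) (.n (.l [M 67]) (.l [P 222]))))) (.n (.n (.n (.n
  (.l [M 6]) (.l [M 174])) (.n (.l [M 118]) (.l [M 177]))) (.n (.n (.l [P 61]) (.l [P 151])) (.n
  (.l [M 97]) (.l [M 240])))) (.n (.n (.n (.l [M 10]) (.l [M 166])) (.n (.l [P 143]) (.l [M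
  208]))) (.n (.n (.l [M 101]) (.l [P 160])) (.n (.l [P 121, P 122, (123, .ofNat 2), (124, .ofNat
  2), P 125, P 126]) .z))))) (.n (.n (.n (.n (.n (.l [M 11]) (.l [M 92])) (.n (.l [P 133]) (.l [P
  173]))) (.n (.n (.l [M 49]) (.l [M 165])) (.n (.l [M 128]) (.l [M 243])))) (.n (.n (.n (.l [P
  28]) (.l [M 169])) (.n (.l [P 103]) (.l [P 209]))) (.n (.n (.l [P 40]) (.l [P 130])) (.n (.l [P
  158]) (.l [P 242]))))) (.n (.n (.n (.n (.l [M 27]) (.l [P 106])) (.n (.l [M 88]) (.l [P 196])))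
  (.n (.n (.l [P 76]) (.l [P 179])) (.n (.l [M 64]) (.l [P 245])))) (.n (.n (.n (.l [P 65]) (.l [P
  193])) (.n (.l [P 71]) (.l [P 152]))) (.n (.n (.l [M 66]) (.l [M 223])) (.n (.l [P 121, P 122, P
  123, P 124, P 125]) .z))))))) (.n (.n (.n (.n (.n (.n (.n (.l [P 5]) (.l [P 89])) (.n (.l [M
  117]) (.l [M 207]))) (.n (.n (.l [M 38]) (.l [P 144])) (.n (.l [M 78]) (.l [P 219])))) (.n (.n
  (.n (.l [P 4]) (.l [M 119])) (.n (.l [M 82]) (.l [M 198]))) (.n (.n (.l [P 74]) (.l [P 114]))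
  (.n (.l [P 155]) (.l [M 236]))))) (.n (.n (.n (.n (.l [M 2]) (.l [M 183])) (.n (.l [M 68]) (.l
  [P 171]))) (.n (.n (.l [M 51]) (.l [P 159])) (.n (.l [P 141]) (.l [P 220])))) (.n (.n (.n (.l [P
  95]) (.l [M 176])) (.n (.l [M 54]) (.l [M 182]))) (.n (.n (.l [M 24]) (.l [P 181])) (.n (.l [P
  120, P 121, P 122, P 123, P 124, P 125, P 126]) .z))))) (.n (.n (.n (.n (.n (.l [P 25]) (.l [P
  180])) (.n (.l [P 41]) (.l [P 205]))) (.n (.n (.l [M 9]) (.l [M 161])) (.n (.l [P 137]) (.l [M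
  199])))) (.n (.n (.n (.l [M 22]) (.l [M 164])) (.n (.l [P 111]) (.l [M 226]))) (.n (.n (.l [P
  72]) (.l [P 145])) (.n (.l [P 167]) (.l [P 246]))))) (.n (.n (.n (.n (.l [P 7]) (.l [M 150]))
  (.n (.l [P 96]) (.l [M 186]))) (.n (.n (.l [P 70]) (.l [M 129])) (.n (.l [P 73]) (.l [M 241]))))
  (.n (.n (.n (.l [M 39]) (.l [P 104])) (.n (.l [M 81]) (.l [P 237]))) (.n (.n (.l [P 87]) (.l [M
  146])) (.n (.l [M 121, M 122, M 123, M 124, M 125, M 126, M 127]) .z)))))) (.n (.n (.n (.n (.n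
  (.n (.l [P 12]) (.l [P 210])) (.n (.l [M 34]) (.l [P 197]))) (.n (.n (.l [P 79]) (.l [P 190]))
  (.n (.l [P 163]) (.l [M 202])))) (.n (.n (.n (.l [M 14]) (.l [P 203])) (.n (.l [P 52]) (.l [P
  157]))) (.n (.n (.l [M 46]) (.l [M 188])) (.n (.l [P 187]) (.l [P 247]))))) (.n (.n (.n (.n (.l
  [P 35]) (.l [M 154])) (.n (.l [P 17]) (.l [P 234]))) (.n (.n (.l [M 33]) (.l [M 156])) (.n (.l
  [M 135]) (.l [P 191])))) (.n (.n (.n (.l [P 36]) (.l [P 178])) (.n (.l [P 149]) (.l [P 184])))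
  (.n (.n (.l [P 62]) (.l [M 221])) (.n (.l [M 120, M 121, (122, .negSucc 1), (123, .negSucc 1),
  (124, .negSucc 1), M 125, M 126]) .z))))) (.n (.n (.n (.n (.n (.l [M 8]) (.l [M 139])) (.n (.l
  [M 55]) (.l [M 132]))) (.n (.n (.l [P 58]) (.l [M 215])) (.n (.l [P 105]) (.l [P 217])))) (.n
  (.n (.n (.l [M 20]) (.l [P 140])) (.n (.l [M 113]) (.l [M 228]))) (.n (.n (.l [M 53]) (.l [P
  204])) (.n (.l [M 94]) (.l [M 244]))))) (.n (.n (.n (.n (.l [M 16]) (.l [P 200])) (.n (.l [P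
  147]) (.l [M 218]))) (.n (.n (.l [M 31]) (.l [P 162])) (.n (.l [P 138]) (.l [P 229])))) (.n (.n
  (.n (.l [P 15]) (.l [M 170])) (.n (.l [P 172]) (.l [M 224]))) (.n (.n (.l [P 99]) (.l [P 116]))
  (.n (.l [M 124, M 125]) .z)))))))⟩⟩

def p2_2 : Step := ⟨.word [0, 0], ⟨(.ofNat 0), .n (.n (.n (.n (.n (.n (.n (.n (.l [P 12]) (.l [M 176])) (.n (.l [M
  33]) (.l [P 175]))) (.n (.n (.l [P 14]) (.l [P 92])) (.n (.l [M 135]) (.l [P 202])))) (.n (.n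
  (.n (.l [P 65]) (.l [M 106])) (.n (.l [P 19]) (.l [M 146]))) (.n (.n (.l [M 187]) (.l [M 194]))
  (.n (.l [M 93]) (.l [P 229]))))) (.n (.n (.n (.n (.l [P 48]) (.l [P 73])) (.n (.l [P 111]) (.l
  [M 232]))) (.n (.n (.l [P 39]) (.l [P 44])) (.n (.l [M 31]) (.l [M 217])))) (.n (.n (.n (.l [M
  20]) (.l [M 17])) (.n (.l [P 96]) (.l [M 231]))) (.n (.n (.l [M 210]) (.l [P 84])) (.n (.l [M
  120, M 121, M 122, M 123, M 124, M 125, M 126, M 127]) .z))))) (.n (.n (.n (.n (.n (.l [P 3])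
  (.l [P 26])) (.n (.l [P 62]) (.l [M 171]))) (.n (.n (.l [P 143]) (.l [P 197])) (.n (.l [M 13])
  (.l [P 220])))) (.n (.n (.n (.l [P 70]) (.l [M 57])) (.n (.l [P 24]) (.l [M 100]))) (.n (.n (.l
  [P 42]) (.l [P 226])) (.n (.l [M 9]) (.l [P 191]))))) (.n (.n (.n (.n (.l [M 131]) (.l [P 108]))
  (.n (.l [P 149]) (.l [M 209]))) (.n (.n (.l [P 7]) (.l [P 243])) (.n (.l [P 81]) (.l [M 168]))))
  (.n (.n (.n (.l [P 99]) (.l [M 83])) (.n (.l [P 41]) (.l [M 157]))) (.n (.n (.l [M 10]) (.l [P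
  181])) (.n (.l [P 120, (121, .ofNat 2), (122, .ofNat 3), (123, .ofNat 4), (124, .ofNat 3), (125,
  .ofNat 2), (126, .ofNat 2), P 127]) .z)))))) (.n (.n (.n (.n (.n (.n (.l [M 5]) (.l [P 32])) (.n
  (.l [P 128]) (.l [M 162]))) (.n (.n (.l [M 22]) (.l [M 109])) (.n (.l [P 52]) (.l [M 219]))))
  (.n (.n (.n (.l [M 115]) (.l [P 64])) (.n (.l [P 103]) (.l [P 245]))) (.n (.n (.l [M 61]) (.l [P
  196])) (.n (.l [P 34]) (.l [P 152]))))) (.n (.n (.n (.n (.l [P 11]) (.l [M 179])) (.n (.l [M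
  158]) (.l [M 114]))) (.n (.n (.l [P 87]) (.l [P 140])) (.n (.l [P 78]) (.l [M 239])))) (.n (.n
  (.n (.l [P 6]) (.l [P 165])) (.n (.l [P 200]) (.l [M 189]))) (.n (.n (.l [M 137]) (.l [M 134]))
  (.n (.l [P 120, (121, .ofNat 2), (122, .ofNat 2), (123, .ofNat 3), (124, .ofNat 3), (125, .ofNat
  2), P 126, P 127]) .z))))) (.n (.n (.n (.n (.n (.l [M 35]) (.l [M 69])) (.n (.l [P 180]) (.l [M
  129]))) (.n (.n (.l [M 74]) (.l [P 161])) (.n (.l [M 153]) (.l [M 247])))) (.n (.n (.n (.l [P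
  63]) (.l [M 159])) (.n (.l [P 105]) (.l [M 198]))) (.n (.n (.l [M 29]) (.l [M 80])) (.n (.l [P
  193]) (.l [P 222]))))) (.n (.n (.n (.n (.l [M 36]) (.l [M 97])) (.n (.l [M 77]) (.l [M 201])))
  (.n (.n (.l [P 91]) (.l [M 188])) (.n (.l [M 43]) (.l [P 246])))) (.n (.n (.n (.l [M 117]) (.l
  [M 207])) (.n (.l [M 55]) (.l [M 75]))) (.n (.n (.l [P 102]) (.l [P 224])) (.n (.l [P 120, P
  121, P 122, (123, .ofNat 2), (124, .ofNat 2), P 125, P 126]) .z))))))) (.n (.n (.n (.n (.n (.n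
  (.n (.l [P 25]) (.l [M 54])) (.n (.l [M 167]) (.l [P 218]))) (.n (.n (.l [P 49]) (.l [M 142]))
  (.n (.l [P 88]) (.l [P 184])))) (.n (.n (.n (.l [P 0]) (.l [P 94])) (.n (.l [M 86]) (.l [M
  173]))) (.n (.n (.l [M 118]) (.l [M 67])) (.n (.l [P 178]) (.l [P 212]))))) (.n (.n (.n (.n (.l
  [P 1]) (.l [M 204])) (.n (.l [M 59]) (.l [M 156]))) (.n (.n (.l [P 46]) (.l [M 170])) (.n (.l [M
  150]) (.l [M 211])))) (.n (.n (.n (.l [P 172]) (.l [M 192])) (.n (.l [M 40]) (.l [M 130]))) (.n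
  (.n (.l [M 23]) (.l [P 145])) (.n (.l [P 120, P 121, (122, .ofNat 2), (123, .ofNat 2), (124,
  .ofNat 2), (125, .ofNat 2), P 126]) .z))))) (.n (.n (.n (.n (.n (.l [P 95]) (.l [M 213])) (.n
  (.l [M 51]) (.l [M 186]))) (.n (.n (.l [P 2]) (.l [M 144])) (.n (.l [M 183]) (.l [P 132])))) (.n
  (.n (.n (.l [M 28]) (.l [M 195])) (.n (.l [P 138]) (.l [P 225]))) (.n (.n (.l [P 85]) (.l [M
  119])) (.n (.l [M 215]) (.l [P 242]))))) (.n (.n (.n (.n (.l [M 8]) (.l [P 169])) (.n (.l [P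
  107]) (.l [M 160]))) (.n (.n (.l [P 133]) (.l [M 89])) (.n (.l [M 68]) (.l [P 236])))) (.n (.n
  (.n (.l [M 58]) (.l [P 47])) (.n (.l [P 82]) (.l [M 241]))) (.n (.n (.l [M 113]) (.l [P 110]))
  (.n (.l [M 120, (121, .negSucc 1), (122, .negSucc 1), (123, .negSucc 2), (124, .negSucc 1), M
  125, M 126]) .z)))))) (.n (.n (.n (.n (.n (.n (.l [P 56]) (.l [P 238])) (.n (.l [M 21]) (.l [P
  205]))) (.n (.n (.l [P 147]) (.l [M 223])) (.n (.l [P 190]) (.l [P 177])))) (.n (.n (.n (.l [P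
  27]) (.l [P 234])) (.n (.l [M 50]) (.l [P 104]))) (.n (.n (.l [M 76]) (.l [M 185])) (.n (.l [M
  221]) (.l [M 244]))))) (.n (.n (.n (.n (.l [P 79]) (.l [P 166])) (.n (.l [P 4]) (.l [M 240])))
  (.n (.n (.l [P 38]) (.l [P 98])) (.n (.l [P 139]) (.l [P 116])))) (.n (.n (.n (.l [P 90]) (.l [P
  206])) (.n (.l [M 164]) (.l [P 148]))) (.n (.n (.l [M 66]) (.l [M 237])) (.n (.l [M 120, (121,
  .negSucc 1), (122, .negSucc 2), (123, .negSucc 3), (124, .negSucc 3), (125, .negSucc 2), (126,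
  .negSucc 1), M 127]) .z))))) (.n (.n (.n (.n (.n (.l [M 18]) (.l [P 154])) (.n (.l [P 53]) (.l
  [M 60]))) (.n (.n (.l [M 101]) (.l [P 228])) (.n (.l [P 141]) (.l [M 182])))) (.n (.n (.n (.l [M
  45]) (.l [P 112])) (.n (.l [M 155]) (.l [M 233]))) (.n (.n (.l [M 72]) (.l [M 214])) (.n (.l [M
  71]) (.l [M 235]))))) (.n (.n (.n (.n (.l [M 30]) (.l [M 216])) (.n (.l [P 203]) (.l [P 208])))
  (.n (.n (.l [M 15]) (.l [M 136])) (.n (.l [M 174]) (.l [M 199])))) (.n (.n (.n (.l [M 16]) (.l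
  [M 151])) (.n (.l [M 230]) (.l [P 227]))) (.n (.n (.l [P 163]) (.l [P 37])) (.n (.l [M 120, M
  122, M 123, M 124]) .z)))))))⟩⟩

def p2_3 : Step := ⟨.word [0, 0], ⟨(.ofNat 0), .n (.n (.n (.n (.n (.n (.n (.n (.l [M 131]) (.l [P 194])) (.n (.l [M
  49]) (.l [M 136]))) (.n (.n (.l [M 36]) (.l [P 41])) (.n (.l [M 154]) (.l [M 114])))) (.n (.n
  (.n (.l [M 167]) (.l [M 78])) (.n (.l [P 27]) (.l [M 64]))) (.n (.n (.l [P 237]) (.l [P 162]))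
  (.n (.l [M 82]) (.l [P 132]))))) (.n (.n (.n (.n (.l [M 187]) (.l [M 59])) (.n (.l [M 174]) (.l
  [P 217]))) (.n (.n (.l [M 101]) (.l [P 7])) (.n (.l [P 16]) (.l [P 130])))) (.n (.n (.n (.l [M
  70]) (.l [M 0])) (.n (.l [M 135]) (.l [P 182]))) (.n (.n (.l [M 245]) (.l [P 24])) (.n (.l [M
  121, M 122, (123, .negSucc 1), (124, .negSucc 1), (125, .negSucc 1), M 126]) .z))))) (.n (.n (.n
  (.n (.n (.l [P 56]) (.l [P 6])) (.n (.l [P 102]) (.l [M 98]))) (.n (.n (.l [M 216]) (.l [M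
  186])) (.n (.l [P 8]) (.l [M 157])))) (.n (.n (.n (.l [P 180]) (.l [P 23])) (.n (.l [M 20]) (.l
  [P 13]))) (.n (.n (.l [P 87]) (.l [M 219])) (.n (.l [M 1]) (.l [P 37]))))) (.n (.n (.n (.n (.l
  [M 238]) (.l [P 81])) (.n (.l [M 195]) (.l [P 173]))) (.n (.n (.l [M 18]) (.l [M 244])) (.n (.l
  [M 86]) (.l [M 44])))) (.n (.n (.n (.l [P 190]) (.l [P 50])) (.n (.l [P 46]) (.l [M 47]))) (.n
  (.n (.l [M 11]) (.l [M 119])) (.n (.l [(120, .ofNat 2), (121, .ofNat 3), (122, .ofNat 3), (123,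
  .ofNat 5), (124, .ofNat 4), (125, .ofNat 3), (126, .ofNat 2), P 127]) .z)))))) (.n (.n (.n (.n
  (.n (.n (.l [M 95]) (.l [P 14])) (.n (.l [M 176]) (.l [P 109]))) (.n (.n (.l [M 63]) (.l [P
  68])) (.n (.l [P 42]) (.l [M 148])))) (.n (.n (.n (.l [P 221]) (.l [M 33])) (.n (.l [P 141]) (.l
  [P 242]))) (.n (.n (.l [P 113]) (.l [M 171])) (.n (.l [M 22]) (.l [M 17]))))) (.n (.n (.n (.n
  (.l [P 79]) (.l [P 185])) (.n (.l [P 207]) (.l [M 34]))) (.n (.n (.l [M 155]) (.l [P 108])) (.n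
  (.l [M 77]) (.l [P 199])))) (.n (.n (.n (.l [M 35]) (.l [M 144])) (.n (.l [M 232]) (.l [M
  110]))) (.n (.n (.l [P 204]) (.l [P 69])) (.n (.l [P 120, (121, .ofNat 2), (122, .ofNat 3),
  (123, .ofNat 4), (124, .ofNat 3), (125, .ofNat 3), (126, .ofNat 2), P 127]) .z))))) (.n (.n (.n
  (.n (.n (.l [M 147]) (.l [P 51])) (.n (.l [P 226]) (.l [P 54]))) (.n (.n (.l [P 158]) (.l [M
  142])) (.n (.l [P 192]) (.l [P 235])))) (.n (.n (.n (.l [P 163]) (.l [P 151])) (.n (.l [M 150])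
  (.l [P 129]))) (.n (.n (.l [P 58]) (.l [M 19])) (.n (.l [P 218]) (.l [M 75]))))) (.n (.n (.n (.n
  (.l [M 143]) (.l [M 88])) (.n (.l [M 107]) (.l [P 156]))) (.n (.n (.l [M 164]) (.l [M 181])) (.n
  (.l [M 38]) (.l [P 222])))) (.n (.n (.n (.l [P 215]) (.l [M 208])) (.n (.l [P 72]) (.l [M 4])))
  (.n (.n (.l [M 153]) (.l [P 202])) (.n (.l [P 120, P 121, (122, .ofNat 2), (123, .ofNat 3),
  (124, .ofNat 2), P 125, P 126]) .z))))))) (.n (.n (.n (.n (.n (.n (.n (.l [P 172]) (.l [P 29]))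
  (.n (.l [M 228]) (.l [M 189]))) (.n (.n (.l [M 118]) (.l [P 97])) (.n (.l [P 96]) (.l [P 84]))))
  (.n (.n (.n (.l [P 12]) (.l [M 55])) (.n (.l [M 105]) (.l [P 89]))) (.n (.n (.l [M 193]) (.l [P
  21])) (.n (.l [P 196]) (.l [M 100]))))) (.n (.n (.n (.n (.l [P 25]) (.l [P 209])) (.n (.l [P
  66]) (.l [P 83]))) (.n (.n (.l [P 91]) (.l [M 140])) (.n (.l [P 159]) (.l [M 104])))) (.n (.n
  (.n (.l [P 243]) (.l [M 175])) (.n (.l [M 39]) (.l [M 32]))) (.n (.n (.l [P 45]) (.l [P 94]))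
  (.n (.l [P 120, P 121, (122, .ofNat 2), (123, .ofNat 3), (124, .ofNat 3), (125, .ofNat 2), P
  126, P 127]) .z))))) (.n (.n (.n (.n (.n (.l [M 230]) (.l [M 225])) (.n (.l [P 76]) (.l [P
  134]))) (.n (.n (.l [M 5]) (.l [P 106])) (.n (.l [P 214]) (.l [P 26])))) (.n (.n (.n (.l [M 99])
  (.l [M 205])) (.n (.l [M 179]) (.l [P 184]))) (.n (.n (.l [P 138]) (.l [P 71])) (.n (.l [P 233])
  (.l [P 152]))))) (.n (.n (.n (.n (.l [M 48]) (.l [M 170])) (.n (.l [P 139]) (.l [M 92]))) (.n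
  (.n (.l [M 213]) (.l [P 40])) (.n (.l [M 62]) (.l [M 168])))) (.n (.n (.n (.l [P 137]) (.l [M
  15])) (.n (.l [P 103]) (.l [M 212]))) (.n (.n (.l [M 178]) (.l [M 43])) (.n (.l [(120, .negSucc
  1), (121, .negSucc 1), (122, .negSucc 2), (123, .negSucc 3), (124, .negSucc 2), (125, .negSucc
  1), M 126]) .z)))))) (.n (.n (.n (.n (.n (.n (.l [M 210]) (.l [P 246])) (.n (.l [P 28]) (.l [M
  160]))) (.n (.n (.l [P 234]) (.l [M 227])) (.n (.l [P 224]) (.l [M 67])))) (.n (.n (.n (.l [P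
  90]) (.l [M 239])) (.n (.l [P 61]) (.l [M 31]))) (.n (.n (.l [M 149]) (.l [M 145])) (.n (.l [P
  241]) (.l [M 191]))))) (.n (.n (.n (.n (.l [P 203]) (.l [P 161])) (.n (.l [P 3]) (.l [M 229])))
  (.n (.n (.l [M 74]) (.l [P 52])) (.n (.l [P 166]) (.l [M 9])))) (.n (.n (.n (.l [P 200]) (.l [M
  201])) (.n (.l [M 197]) (.l [M 57]))) (.n (.n (.l [M 128]) (.l [M 236])) (.n (.l [(120, .negSucc
  1), (121, .negSucc 2), (122, .negSucc 3), (123, .negSucc 5), (124, .negSucc 4), (125, .negSucc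
  3), (126, .negSucc 2), (127, .negSucc 1)]) .z))))) (.n (.n (.n (.n (.n (.l [P 115]) (.l [P
  165])) (.n (.l [P 85]) (.l [P 10]))) (.n (.n (.l [P 183]) (.l [P 220])) (.n (.l [P 169]) (.l [P
  80])))) (.n (.n (.n (.l [M 133]) (.l [M 93])) (.n (.l [M 206]) (.l [P 211]))) (.n (.n (.l [M
  111]) (.l [P 198])) (.n (.l [M 53]) (.l [M 116]))))) (.n (.n (.n (.n (.l [P 117]) (.l [P 231]))
  (.n (.l [M 240]) (.l [M 146]))) (.n (.n (.l [P 30]) (.l [M 73])) (.n (.l [P 188]) (.l [P 60]))))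
  (.n (.n (.n (.l [M 65]) (.l [M 112])) (.n (.l [P 247]) (.l [P 177]))) (.n (.n (.l [M 223]) (.l
  [P 2])) (.n (.l [M 121, M 122, (123, .negSucc 1), M 124]) .z)))))))⟩⟩

def p2_4 : Step := ⟨.word [0, 7], ⟨(.ofNat 0), .n (.n (.n (.n (.n (.n (.n (.n (.l [P 152]) (.l [P 192])) (.n (.l [P
  54]) (.l [P 128]))) (.n (.n (.l [P 47]) (.l [M 42])) (.n (.l [M 161]) (.l [M 99])))) (.n (.n (.n
  (.l [P 182]) (.l [M 77])) (.n (.l [P 31]) (.l [M 58]))) (.n (.n (.l [P 239]) (.l [P 153])) (.n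
  (.l [M 81]) (.l [M 115]))))) (.n (.n (.n (.n (.l [M 199]) (.l [P 59])) (.n (.l [M 181]) (.l [M
  215]))) (.n (.n (.l [M 110]) (.l [M 6])) (.n (.l [M 19]) (.l [M 117])))) (.n (.n (.n (.l [M 84])
  (.l [P 0])) (.n (.l [P 142]) (.l [M 167]))) (.n (.n (.l [P 246]) (.l [P 20])) (.n (.l [P 120, P
  121, P 122, (123, .ofNat 2), (124, .ofNat 2), P 125, P 126, P 127]) .z))))) (.n (.n (.n (.n (.n
  (.l [M 75]) (.l [M 7])) (.n (.l [P 109]) (.l [P 91]))) (.n (.n (.l [P 220]) (.l [M 178])) (.n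
  (.l [M 10]) (.l [P 143])))) (.n (.n (.n (.l [P 184]) (.l [M 23])) (.n (.l [M 24]) (.l [P 11])))
  (.n (.n (.l [M 92]) (.l [P 213])) (.n (.l [M 2]) (.l [P 25]))))) (.n (.n (.n (.n (.l [P 242])
  (.l [P 82])) (.n (.l [M 201]) (.l [P 158]))) (.n (.n (.l [M 26]) (.l [M 243])) (.n (.l [P 93])
  (.l [M 35])))) (.n (.n (.n (.l [M 202]) (.l [M 51])) (.n (.l [M 52]) (.l [P 36]))) (.n (.n (.l
  [M 13]) (.l [M 111])) (.n (.l [M 120, (121, .negSucc 2), (122, .negSucc 2), (123, .negSucc 4),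
  (124, .negSucc 3), (125, .negSucc 2), (126, .negSucc 1), M 127]) .z)))))) (.n (.n (.n (.n (.n
  (.n (.l [M 116]) (.l [M 15])) (.n (.l [P 175]) (.l [P 102]))) (.n (.n (.l [P 67]) (.l [M 62]))
  (.n (.l [M 41]) (.l [M 133])))) (.n (.n (.n (.l [P 229]) (.l [M 29])) (.n (.l [P 140]) (.l [M
  238]))) (.n (.n (.l [M 134]) (.l [M 164])) (.n (.l [M 21]) (.l [P 12]))))) (.n (.n (.n (.n (.l
  [M 100]) (.l [P 179])) (.n (.l [P 209]) (.l [M 28]))) (.n (.n (.l [M 160]) (.l [P 103])) (.n (.l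
  [M 78]) (.l [P 187])))) (.n (.n (.n (.l [M 44]) (.l [P 139])) (.n (.l [P 233]) (.l [M 101])))
  (.n (.n (.l [M 208]) (.l [M 61])) (.n (.l [(120, .negSucc 1), (121, .negSucc 1), (122, .negSucc
  2), (123, .negSucc 3), (124, .negSucc 2), (125, .negSucc 1), (126, .negSucc 1), M 127]) .z)))))
  (.n (.n (.n (.n (.n (.l [M 168]) (.l [M 50])) (.n (.l [P 225]) (.l [M 49]))) (.n (.n (.l [P
  173]) (.l [P 135])) (.n (.l [P 194]) (.l [M 230])))) (.n (.n (.n (.l [P 177]) (.l [M 150])) (.n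
  (.l [P 151]) (.l [M 118]))) (.n (.n (.l [P 64]) (.l [P 16])) (.n (.l [M 214]) (.l [P 56])))))
  (.n (.n (.n (.n (.l [P 157]) (.l [P 88])) (.n (.l [M 106]) (.l [P 149]))) (.n (.n (.l [M 171])
  (.l [M 174])) (.n (.l [M 40]) (.l [M 210])))) (.n (.n (.n (.l [M 217]) (.l [P 204])) (.n (.l [M
  71]) (.l [P 3]))) (.n (.n (.l [M 162]) (.l [M 190])) (.n (.l [M 120, M 121, (122, .negSucc 1),
  (123, .negSucc 1), (124, .negSucc 1), (125, .negSucc 1), M 126, M 127]) .z))))))) (.n (.n (.n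
  (.n (.n (.n (.n (.l [P 191]) (.l [P 33])) (.n (.l [M 231]) (.l [P 183]))) (.n (.n (.l [P 129])
  (.l [M 96])) (.n (.l [M 97]) (.l [P 70])))) (.n (.n (.n (.l [M 17]) (.l [M 53])) (.n (.l [M
  112]) (.l [P 74]))) (.n (.n (.l [M 198]) (.l [P 22])) (.n (.l [M 197]) (.l [P 79]))))) (.n (.n
  (.n (.n (.l [P 37]) (.l [P 207])) (.n (.l [M 73]) (.l [M 76]))) (.n (.n (.l [M 98]) (.l [M
  141])) (.n (.l [M 159]) (.l [P 90])))) (.n (.n (.n (.l [P 244]) (.l [P 176])) (.n (.l [M 43])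
  (.l [M 30]))) (.n (.n (.l [M 57]) (.l [M 85])) (.n (.l [M 120, M 121, (122, .negSucc 1), (123,
  .negSucc 2), (124, .negSucc 2), (125, .negSucc 1), M 126]) .z))))) (.n (.n (.n (.n (.n (.l [P
  235]) (.l [M 226])) (.n (.l [M 83]) (.l [M 113]))) (.n (.n (.l [P 9]) (.l [P 107])) (.n (.l [M
  218]) (.l [P 18])))) (.n (.n (.n (.l [M 114]) (.l [P 206])) (.n (.l [M 185]) (.l [P 180]))) (.n
  (.n (.l [M 145]) (.l [M 72])) (.n (.l [M 232]) (.l [M 131]))))) (.n (.n (.n (.n (.l [M 60]) (.l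
  [M 169])) (.n (.l [M 144]) (.l [P 87]))) (.n (.n (.l [P 219]) (.l [P 38])) (.n (.l [P 68]) (.l
  [M 147])))) (.n (.n (.n (.l [M 146]) (.l [P 14])) (.n (.l [P 108]) (.l [M 203]))) (.n (.n (.l [M
  186]) (.l [M 39])) (.n (.l [P 120, (121, .ofNat 2), (122, .ofNat 3), (123, .ofNat 4), (124,
  .ofNat 3), (125, .ofNat 2), P 126, P 127]) .z)))))) (.n (.n (.n (.n (.n (.n (.l [P 222]) (.l [M
  245])) (.n (.l [P 34]) (.l [M 155]))) (.n (.n (.l [M 236]) (.l [P 223])) (.n (.l [M 224]) (.l [P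
  63])))) (.n (.n (.n (.l [M 104]) (.l [M 237])) (.n (.l [M 69]) (.l [M 27]))) (.n (.n (.l [M
  156]) (.l [P 138])) (.n (.l [M 240]) (.l [M 172]))))) (.n (.n (.n (.n (.l [P 212]) (.l [P 154]))
  (.n (.l [M 4]) (.l [M 221]))) (.n (.n (.l [M 89]) (.l [M 46])) (.n (.l [P 165]) (.l [P 5]))))
  (.n (.n (.n (.l [M 211]) (.l [M 195])) (.n (.l [P 196]) (.l [P 45]))) (.n (.n (.l [P 136]) (.l
  [P 234])) (.n (.l [(120, .ofNat 2), (121, .ofNat 3), (122, .ofNat 4), (123, .ofNat 6), (124,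
  .ofNat 5), (125, .ofNat 4), (126, .ofNat 3), P 127]) .z))))) (.n (.n (.n (.n (.n (.l [M 132])
  (.l [P 166])) (.n (.l [M 94]) (.l [M 8]))) (.n (.n (.l [M 189]) (.l [M 216])) (.n (.l [P 170])
  (.l [M 65])))) (.n (.n (.n (.l [M 148]) (.l [P 86])) (.n (.l [P 205]) (.l [M 200]))) (.n (.n (.l
  [M 119]) (.l [P 193])) (.n (.l [M 55]) (.l [M 95]))))) (.n (.n (.n (.n (.l [M 130]) (.l [P
  228])) (.n (.l [P 241]) (.l [P 137]))) (.n (.n (.l [P 32]) (.l [P 66])) (.n (.l [M 188]) (.l [P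
  48])))) (.n (.n (.n (.l [P 80]) (.l [M 105])) (.n (.l [M 247]) (.l [P 163]))) (.n (.n (.l [P
  227]) (.l [P 1])) (.n (.l [P 120, P 121, P 122, P 123, P 124, P 125]) .z)))))))⟩⟩

def p2_5 : Step := ⟨.conj 0 7, ⟨(.ofNat 1), .n (.n (.n (.n (.n (.n (.n (.n .z (.l [(128, .negSucc 1)])) (.n (.l [P
  18, (64, .negSucc 1)]) .z)) (.n (.n (.l [M 18, (32, .negSucc 1)]) (.l [P 133])) (.n (.l [(96,
  .negSucc 1)]) (.l [P 172, (224, .negSucc 1)])))) (.n (.n (.n (.l [(16, .negSucc 1)]) (.l [P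
  115])) (.n (.l [M 27, (80, .negSucc 1)]) (.l [P 187, (208, .negSucc 1)]))) (.n (.n (.l [(48,
  .negSucc 1)]) (.l [(176, .negSucc 1)])) (.n (.l [P 48]) (.l [(240, .negSucc 1)]))))) (.n (.n (.n
  (.n .z (.l [M 65, (136, .negSucc 1)])) .z) (.n (.n .z (.l [P 96, P 141])) (.n (.l [P 76]) (.l
  [(232, .negSucc 1)])))) (.n (.n (.n (.l [P 12, (24, .negSucc 1)]) (.l [M 56, P 81, P 95, M 120,
  M 121, M 122, M 123, M 124, M 125, (152, .negSucc 1)])) .z) (.n (.n (.l [(56, .negSucc 1)]) (.l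
  [P 113, M 158, (184, .negSucc 1)])) (.n (.l [M 56]) .z))))) (.n (.n (.n (.n (.n .z (.l [M 62, P
  103, (132, .negSucc 1)])) (.n (.l [(68, .negSucc 1)]) (.l [P 172, (196, .negSucc 1)]))) (.n (.n
  .z (.l [(164, .negSucc 1)])) (.n (.l [P 38, M 72, (100, .negSucc 1)]) (.l [(228, .negSucc
  1)])))) (.n (.n (.n .z (.l [M 76])) (.n (.l [M 28, M 58, (84, .negSucc 1)]) (.l [M 153, M 193,
  (212, .negSucc 1)]))) (.n (.n (.l [M 12, (52, .negSucc 1)]) .z) (.n (.l [M 50, P 88, (116,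
  .negSucc 1)]) (.l [P 221, P 238, (244, .negSucc 1)]))))) (.n (.n (.n .z (.n (.l [(76, .negSucc
  1)]) .z)) (.n (.n (.l [M 27, (44, .negSucc 1)]) .z) (.n .z (.l [P 200, (236, .negSucc 1)]))))
  (.n (.n .z (.n (.l [M 65, (92, .negSucc 1)]) (.l [M 167, M 203]))) (.n (.n (.l [M 16, P 39]) (.l
  [(188, .negSucc 1)])) (.n (.l [(56, .ofNat 2), M 95]) .z)))))) (.n (.n (.n (.n (.n (.n .z (.l [P
  61, M 102])) (.n (.l [(66, .negSucc 1)]) (.l [(194, .negSucc 1)]))) (.n (.n (.l [M 5]) (.l [M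
  90, (162, .negSucc 1)])) (.n (.l [P 36, P 70, (98, .negSucc 1)]) .z))) (.n (.n (.n .z (.l [M 74,
  P 118])) (.n (.l [(82, .negSucc 1)]) (.l [(210, .negSucc 1)]))) (.n .z (.n (.l [M 49, P 87,
  (114, .negSucc 1)]) (.l [M 213, M 234, (242, .negSucc 1)]))))) (.n (.n (.n (.n (.l [(10,
  .negSucc 1)]) (.l [(138, .negSucc 1)])) (.n (.l [(74, .negSucc 1)]) (.l [P 137, P 180, (202,
  .negSucc 1)]))) (.n (.n .z (.l [(170, .negSucc 1)])) (.n (.l [P 79, (106, .negSucc 1)]) .z)))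
  (.n (.n (.n (.l [P 3]) (.l [(154, .negSucc 1)])) .z) (.n (.n .z (.l [P 117, (186, .negSucc 1)]))
  (.n (.l [(56, .ofNat 2), M 95]) .z))))) (.n (.n (.n (.n (.n .z (.l [P 63])) (.n .z (.l [M
  133]))) (.n (.n .z (.l [P 95])) (.n (.l [(102, .negSucc 1)]) (.l [(230, .negSucc 1)])))) (.n (.n
  (.n .z (.l [(150, .negSucc 1)])) .z) (.n (.n (.l [M 35]) (.l [M 111, M 155])) (.n (.l [(118,
  .negSucc 1)]) (.l [P 230]))))) (.n (.n (.n .z (.n (.l [P 25]) .z)) (.n (.n (.l [(46, .negSucc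
  1)]) .z) (.n (.l [P 45]) .z))) (.n (.n (.n (.l [(30, .negSucc 1)]) .z) (.n (.l [M 35]) (.l [P
  169, M 206, (222, .negSucc 1)]))) (.n .z (.n (.l [P 56]) .z))))))) (.n (.n (.n (.n (.n (.n (.n
  .z (.l [P 101, (129, .negSucc 1)])) .z) (.n .z (.n (.l [(97, .negSucc 1)]) (.l [M 210])))) (.n
  (.n (.n (.l [P 1, M 8, (17, .negSucc 1)]) (.l [M 117, (145, .negSucc 1)])) (.n (.l [M 56]) (.l
  [P 147]))) (.n (.n .z (.l [P 149])) (.n .z (.l [P 210]))))) (.n (.n (.n (.n (.l [P 3]) .z) (.n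
  (.l [M 48]) (.l [(201, .negSucc 1)]))) (.n (.n (.l [M 25]) .z) .z)) (.n (.n (.n (.l [(25,
  .negSucc 1)]) .z) (.n (.l [M 63]) (.l [M 200, (217, .negSucc 1)]))) (.n (.n .z (.l [M 115])) (.n
  (.l [P 56, M 95]) .z))))) (.n (.n (.n (.n (.n (.l [(5, .negSucc 1)]) (.l [(133, .negSucc 1)]))
  (.n .z (.l [M 131]))) (.n (.n (.l [P 6, M 22, (37, .negSucc 1)]) (.l [(165, .negSucc 1)])) (.n
  .z (.l [P 183, M 215])))) (.n (.n (.n .z (.l [(149, .negSucc 1)])) (.n (.l [(85, .negSucc 1)])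
  .z)) (.n (.n (.l [(53, .negSucc 1)]) (.l [(181, .negSucc 1)])) .z))) (.n (.n (.n (.n (.l [M 5])
  (.l [(141, .negSucc 1)])) (.n (.l [(77, .negSucc 1)]) .z)) (.n (.n (.l [(45, .negSucc 1)]) (.l
  [M 101, (173, .negSucc 1)])) (.n (.l [(109, .negSucc 1)]) (.l [(237, .negSucc 1)])))) (.n (.n
  (.n .z (.l [M 85, P 128])) (.n (.l [(93, .negSucc 1)]) .z)) (.n (.n (.l [(61, .negSucc 1)]) (.l
  [M 163])) (.n (.l [M 56]) .z)))))) (.n (.n (.n (.n (.n (.n (.l [(3, .negSucc 1)]) (.l [(131,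
  .negSucc 1)])) (.n (.l [P 45]) (.l [(195, .negSucc 1)]))) (.n (.n (.l [(35, .negSucc 1)]) (.l
  [(163, .negSucc 1)])) .z)) (.n (.n (.n (.l [(19, .negSucc 1)]) (.l [(147, .negSucc 1)])) (.n (.l
  [(83, .negSucc 1)]) (.l [P 149]))) (.n (.n (.l [(51, .negSucc 1)]) (.l [(179, .negSucc 1)])) (.n
  (.l [(115, .negSucc 1)]) .z)))) (.n (.n (.n (.n (.l [(11, .negSucc 1)]) .z) (.n (.l [P 23, P
  51]) (.l [(203, .negSucc 1)]))) (.n (.n .z (.l [M 99, P 143, (171, .negSucc 1)])) (.n .z (.l [M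
  195, P 223])))) (.n (.n (.n .z (.l [(155, .negSucc 1)])) (.n .z (.l [M 163]))) (.n (.n (.l [(59,
  .negSucc 1)]) .z) (.n (.l [(56, .negSucc 1), P 95]) .z))))) (.n (.n (.n (.n (.n (.l [(7,
  .negSucc 1)]) .z) (.n (.l [(71, .negSucc 1)]) (.l [P 135, M 174, (199, .negSucc 1)]))) (.n (.n
  (.l [(39, .negSucc 1)]) (.l [(167, .negSucc 1)])) (.n .z (.l [M 187, (231, .negSucc 1)])))) (.n
  (.n (.n (.l [(23, .negSucc 1)]) (.l [P 79, (151, .negSucc 1)])) (.n .z (.l [(215, .negSucc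
  1)]))) (.n (.n .z (.l [(183, .negSucc 1)])) (.n (.l [P 90, (119, .negSucc 1)]) .z)))) (.n (.n
  (.n (.n (.l [(15, .negSucc 1)]) .z) .z) (.n (.n (.l [P 11, M 30]) (.l [M 147])) (.n (.l [(111,
  .negSucc 1)]) (.l [M 230])))) (.n (.n (.n .z (.l [P 131])) (.n (.l [(95, .negSucc 1)]) (.l
  [(223, .negSucc 1)]))) (.n (.n (.l [(63, .negSucc 1)]) (.l [P 56, M 95, P 122, P 123, P 124, P
  125, P 126, P 127, M 166, (191, .negSucc 1)])) .z))))))⟩⟩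

def p2_6 : Step := ⟨.word [8, 0], ⟨(.negSucc 0), .n (.n (.n (.n (.n (.n (.n (.n (.l [M 48, M 112, M 127, M 230, M
  246, M 247]) .z) (.n (.l [P 18, P 200, M 236]) .z)) (.n (.n (.l [M 18, M 153, M 193, M 200, M
  212, M 217]) (.l [P 133, (160, .ofNat 2)])) (.n .z (.l [P 172])))) (.n (.n (.n (.l [M 188, M
  195]) (.l [M 115])) (.n (.l [M 27]) (.l [P 187]))) (.n (.n (.l [M 230]) .z) (.n (.l [P 48, (112,
  .ofNat 2), P 230, P 246]) (.l [(240, .ofNat 2)]))))) (.n (.n (.n (.n (.l [M 95, M 166, M 174])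
  (.l [P 65, (136, .ofNat 2)])) .z) (.n (.n (.l [(40, .ofNat 2), P 163, M 219]) (.l [P 96, P 141,
  (168, .ofNat 2)])) (.n (.l [M 76]) .z))) (.n (.n (.n (.l [M 12, (24, .ofNat 2), M 137, M 180, M
  187, P 202, P 208]) (.l [M 56, P 81, P 95, M 120, M 121, M 122, M 123, M 124, M 125])) (.n (.l
  [(88, .ofNat 2)]) .z)) (.n (.n (.l [P 230]) (.l [P 113, M 158])) (.n (.l [M 56, (120, .ofNat 2),
  (230, .ofNat 2), (246, .ofNat 2), (247, .ofNat 2)]) .z))))) (.n (.n (.n (.n (.n (.l [(4, .ofNat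
  2), M 76, P 148, P 156]) (.l [P 62, M 103, (132, .ofNat 2)])) (.n (.l [(68, .ofNat 2)]) (.l [P
  172]))) (.n (.n (.l [(36, .ofNat 2), P 216, P 221]) .z) (.n (.l [M 38, P 72, (100, .ofNat 2)])
  .z))) (.n (.n (.n (.l [P 131, M 197, M 204]) (.l [P 76])) (.n (.l [P 28, P 58, (84, .ofNat 2), P
  213, P 234, P 242]) (.l [P 153, P 193, (212, .ofNat 2)]))) (.n (.n (.l [P 12, (52, .ofNat 2), P
  187, P 231]) (.l [(180, .ofNat 2)])) (.n (.l [M 50, P 88]) (.l [M 221, M 238, (244, .ofNat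
  2)]))))) (.n (.n (.n (.n (.l [M 180, M 187]) .z) (.n (.l [(76, .ofNat 2)]) (.l [(204, .ofNat
  2)]))) (.n (.n (.l [M 27, M 169, P 206, P 222]) (.l [(172, .ofNat 2)])) (.n .z (.l [M 200, (236,
  .ofNat 2)])))) (.n (.n (.n (.l [M 207, M 213]) .z) (.n (.l [P 65, (92, .ofNat 2), M 213, M 234,
  M 242]) (.l [M 167, M 203, (220, .ofNat 2)]))) (.n (.n (.l [M 16, P 39, (60, .ofNat 2), M 195, P
  223, P 235]) (.l [(188, .ofNat 2)])) (.n (.l [(56, .ofNat 2), M 95, (124, .ofNat 2), (230,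
  .negSucc 4), (246, .negSucc 4), (247, .negSucc 4)]) .z)))))) (.n (.n (.n (.n (.n (.n (.l [M 63,
  M 134, M 142]) (.l [M 61, P 102])) (.n (.l [M 237]) (.l [(194, .ofNat 2)]))) (.n (.n (.l [M 5,
  (34, .ofNat 2), M 163, P 219]) (.l [M 90])) (.n (.l [P 36, P 70, P 221, P 238, M 244]) .z))) (.n
  (.n (.n (.l [(18, .ofNat 2), P 193, P 200]) (.l [M 74, P 118, (146, .ofNat 2)])) .z) (.n (.n (.l
  [(50, .ofNat 2), M 227]) .z) (.n (.l [M 49, P 87]) (.l [M 213, M 234]))))) (.n (.n (.n (.n (.l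
  [(10, .ofNat 2), P 101, P 173, P 181]) (.l [(138, .ofNat 2)])) (.n (.l [P 237]) (.l [P 137, P
  180]))) (.n (.n (.l [(42, .ofNat 2), P 226]) .z) (.n (.l [P 79, M 221, M 238, P 244]) (.l [(234,
  .ofNat 2)])))) (.n (.n (.n (.l [M 3, M 149, M 211]) .z) (.n (.l [(90, .ofNat 2)]) (.l [(218,
  .ofNat 2)]))) (.n (.n (.l [M 234]) (.l [M 117, (186, .ofNat 2)])) (.n (.l [(56, .ofNat 2), M 95,
  (122, .ofNat 2), (230, .negSucc 3), (246, .negSucc 3), (247, .negSucc 3)]) .z))))) (.n (.n (.n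
  (.n (.n (.l [(6, .ofNat 2), P 161, P 169]) (.l [P 63, (134, .ofNat 2)])) (.n (.l [(70, .ofNat
  2), P 238]) (.l [M 133, (198, .ofNat 2)]))) (.n (.n (.l [P 218]) (.l [P 95, (166, .ofNat 2)]))
  (.n (.l [(102, .ofNat 2)]) (.l [(230, .ofNat 2)])))) (.n (.n (.n (.l [(22, .ofNat 2), P 206])
  (.l [(150, .ofNat 2)])) (.n (.l [P 210, P 241]) .z)) (.n (.n (.l [P 35, P 183, M 215, P 229])
  (.l [P 111, P 155])) (.n .z (.l [M 230]))))) (.n (.n (.n (.n (.l [(14, .ofNat 2), M 115, P 185,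
  P 192]) (.l [(142, .ofNat 2)])) (.n (.l [M 25, M 210, M 241]) .z)) (.n (.n (.l [(46, .ofNat 2),
  M 172, P 224, P 228]) (.l [(174, .ofNat 2)])) (.n (.l [P 45, (110, .ofNat 2)]) .z))) (.n (.n (.n
  (.l [(30, .ofNat 2), P 215]) (.l [(158, .ofNat 2)])) (.n (.l [P 35]) (.l [M 169, P 206, (222,
  .ofNat 2)]))) (.n (.n (.l [P 233]) (.l [(190, .ofNat 2)])) (.n (.l [P 56, (126, .ofNat 2), (230,
  .negSucc 2), (246, .negSucc 2), (247, .negSucc 2)]) .z))))))) (.n (.n (.n (.n (.n (.n (.n (.l [M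
  56, M 126, M 127, M 135, P 230, P 246, P 247]) (.l [P 101])) (.n (.l [P 234]) .z)) (.n (.n (.l
  [M 218]) .z) (.n (.l [(97, .ofNat 2)]) (.l [M 210, (225, .ofNat 2)])))) (.n (.n (.n (.l [M 1, P
  8, (17, .ofNat 2), M 56, P 95, M 122, M 123, M 124, M 125, M 126, M 127, M 135, P 166, P 174, P
  191, P 199]) (.l [P 117, (145, .ofNat 2)])) (.n (.l [M 56, (81, .ofNat 2), P 230, M 239]) (.l [M
  147]))) (.n (.n (.l [(49, .ofNat 2), M 226]) (.l [P 149, (177, .ofNat 2)])) (.n (.l [(113,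
  .ofNat 2), M 245]) (.l [P 210, (241, .ofNat 2)]))))) (.n (.n (.n (.n (.l [M 3, M 96, M 141, M
  149, M 168, M 177]) (.l [(137, .ofNat 2)])) (.n (.l [M 48, (73, .ofNat 2), M 230, P 239]) (.l
  [(201, .ofNat 2)]))) (.n (.n (.l [P 25, P 167, P 203, P 210, M 220, M 225]) .z) (.n (.l [(105,
  .ofNat 2), P 245]) (.l [(233, .ofNat 2)])))) (.n (.n (.n (.l [(25, .ofNat 2), P 203, P 210]) .z)
  (.n (.l [M 63, (89, .ofNat 2)]) (.l [P 200, (217, .ofNat 2)]))) (.n (.n (.l [(57, .ofNat 2)])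
  (.l [P 115])) (.n (.l [P 56, M 95, (121, .ofNat 2), (230, .negSucc 2), (246, .negSucc 2), (247,
  .negSucc 2)]) .z))))) (.n (.n (.n (.n (.n (.l [M 155, M 163]) .z) (.n .z (.l [M 131, (197,
  .ofNat 2)]))) (.n (.n (.l [P 6, M 22, P 169, M 206, M 222]) .z) (.n (.l [(101, .ofNat 2)]) (.l
  [P 183, M 215, (229, .ofNat 2)])))) (.n (.n (.n (.l [P 133, M 198, M 205]) .z) (.n (.l [P 240])
  (.l [(213, .ofNat 2)]))) (.n (.n (.l [(53, .ofNat 2), P 232]) .z) .z))) (.n (.n (.n (.n (.l [M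
  5, (13, .ofNat 2), M 111, M 155, M 163, P 182, P 189]) .z) (.n (.l [M 240]) (.l [(205, .ofNat
  2)]))) (.n (.n (.l [P 223]) (.l [M 101])) (.n (.l [(109, .ofNat 2)]) (.l [(237, .ofNat 2)]))))
  (.n (.n (.n (.l [(29, .ofNat 2), P 147, P 209, P 214]) (.l [M 85, P 128, (157, .ofNat 2)])) .z)
  (.n (.n (.l [(61, .ofNat 2), M 232]) (.l [P 163])) (.n (.l [M 56, (125, .ofNat 2), (230, .ofNat
  4), (246, .ofNat 4), (247, .ofNat 4)]) .z)))))) (.n (.n (.n (.n (.n (.n (.l [(3, .ofNat 2), P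
  141, P 149]) .z) (.n (.l [P 45, (67, .ofNat 2), P 195, M 223, M 235]) (.l [(195, .ofNat 2)])))
  (.n (.n (.l [(35, .ofNat 2), M 215]) (.l [(163, .ofNat 2)])) (.n (.l [P 243]) .z))) (.n (.n (.n
  (.l [M 201]) (.l [(147, .ofNat 2)])) (.n .z (.l [P 149, (211, .ofNat 2)]))) (.n (.n .z (.l
  [(179, .ofNat 2)])) (.n (.l [(115, .ofNat 2)]) (.l [(243, .ofNat 2)]))))) (.n (.n (.n (.n (.l
  [(11, .ofNat 2), P 176, P 183]) .z) (.n (.l [P 23, P 51, (75, .ofNat 2)]) .z)) (.n (.n (.l [(43,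
  .ofNat 2), P 227]) (.l [P 99, M 143, (171, .ofNat 2)])) (.n .z (.l [P 195, M 223])))) (.n (.n
  (.n (.l [(27, .ofNat 2), M 206]) (.l [(155, .ofNat 2)])) (.n (.l [M 243]) (.l [P 163]))) (.n (.n
  (.l [(59, .ofNat 2), M 187, M 231]) (.l [(187, .ofNat 2)])) (.n (.l [(56, .negSucc 1), P 95,
  (123, .ofNat 2), (230, .ofNat 6), (246, .ofNat 6), (247, .ofNat 6)]) .z))))) (.n (.n (.n (.n (.n
  (.l [(7, .ofNat 2), P 90, P 162, P 170]) (.l [(135, .ofNat 2), M 247])) (.n (.l [M 200, P 236])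
  (.l [P 135, M 174]))) (.n (.n (.l [M 223]) .z) (.n .z (.l [M 187])))) (.n (.n (.n (.l [P 201])
  (.l [P 79])) (.n (.l [(87, .ofNat 2)]) .z)) (.n (.n (.l [M 233]) .z) (.n (.l [P 90]) .z)))) (.n
  (.n (.n (.n (.l [P 117, M 186, M 194]) .z) (.n (.l [(79, .ofNat 2), M 238]) (.l [(207, .ofNat
  2)]))) (.n (.n (.l [M 11, P 30, M 183, P 215, M 229]) (.l [P 147])) (.n (.l [(111, .ofNat 2)])
  (.l [P 230])))) (.n (.n (.n (.l [P 149, P 211]) (.l [P 131, (159, .ofNat 2)])) (.n .z (.l [(223,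
  .ofNat 2)]))) (.n (.n .z (.l [P 56, M 95, P 122, P 123, P 124, P 125, P 126, P 127, M 166])) (.n
  (.l [(127, .ofNat 2), P 230, P 246, (247, .ofNat 2)]) .z)))))))⟩⟩

def p2_7 : Step := ⟨.word [0, 0], ⟨(.ofNat 1), .n (.n (.n (.n (.n (.n (.n (.n (.l [P 48]) .z) (.n (.l [P 193]) .z))
  (.n (.n (.l [P 153]) .z) .z)) (.n (.n .z (.n (.l [P 206]) .z)) .z)) (.n (.n (.n (.n (.l [P 95])
  (.l [P 234])) .z) (.n (.n (.l [P 163]) .z) .z)) (.n (.n (.n (.l [M 137]) (.l [M 239])) .z) (.n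
  (.n .z (.l [M 245])) (.n (.l [P 230]) .z))))) (.n (.n (.n (.n (.n (.l [M 76]) (.l [P 233])) .z)
  (.n .z (.n (.l [M 218]) .z))) (.n (.n (.n (.l [M 131]) .z) (.n (.l [M 207]) .z)) (.n (.n (.l [M
  180]) .z) (.n (.l [P 227]) .z)))) (.n (.n .z (.n (.n (.l [P 169]) .z) .z)) (.n (.n .z (.n (.l [M
  213]) .z)) (.n (.n (.l [P 188]) .z) (.n (.l [(230, .negSucc 2)]) .z)))))) (.n (.n (.n (.n (.n
  (.n (.l [P 63]) (.l [P 232])) .z) (.n (.n (.l [P 155]) .z) (.n (.l [P 216]) .z))) (.n (.n (.n .z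
  (.l [M 237])) .z) (.n .z (.n (.l [P 226]) .z)))) (.n (.n (.n (.n (.l [P 101]) .z) .z) (.n .z (.n
  (.l [P 221]) .z))) (.n (.n (.n (.l [M 141]) .z) .z) (.n .z (.n (.l [(230, .negSucc 1)]) .z)))))
  (.n (.n .z (.n (.n .z (.n (.l [M 210]) .z)) (.n (.n (.l [M 183]) .z) .z))) (.n (.n (.n (.n (.l
  [M 115]) .z) (.n (.l [M 203]) .z)) (.n (.n (.l [M 172]) .z) (.n (.l [P 223]) .z))) (.n (.n .z
  (.n (.l [M 215]) .z)) (.n .z (.n (.l [(230, .negSucc 1)]) .z))))))) (.n (.n (.n (.n (.n (.n (.n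
  (.l [P 56]) .z) .z) .z) (.n (.n (.n (.l [M 122, M 123, M 124, M 125, M 230]) .z) .z) .z)) (.n
  (.n (.n (.n (.l [P 96]) .z) .z) (.n (.n (.l [M 167]) .z) .z)) (.n .z (.n .z (.n (.l [(230,
  .negSucc 1)]) .z))))) (.n (.n (.n .z (.n (.n (.l [P 161]) .z) .z)) (.n (.n (.n (.l [M 133]) .z)
  .z) .z)) (.n (.n (.n (.n (.l [M 111]) .z) .z) .z) (.n (.n (.n (.l [P 147]) (.l [M 240])) .z) (.n
  .z (.n (.l [(230, .ofNat 3)]) .z)))))) (.n (.n (.n (.n (.n .z (.n (.l [P 195]) .z)) .z) .z) (.n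
  (.n (.n .z (.n (.l [P 201]) .z)) (.n (.n .z (.l [P 243])) .z)) (.n .z (.n (.n (.l [M 187]) .z)
  (.n (.l [(230, .ofNat 4)]) .z))))) (.n (.n (.n (.n (.n (.l [P 90]) .z) (.n (.l [P 200]) (.l [M
  247]))) .z) (.n (.n (.n .z (.l [M 238])) .z) .z)) (.n (.n (.n (.n (.l [M 117]) .z) .z) (.n (.n
  (.l [M 176]) .z) .z)) (.n (.n (.n (.l [M 149]) .z) .z) (.n (.n .z (.l [M 246])) (.n (.l [P 230])
  .z)))))))⟩⟩

def p2_8 : Step := ⟨.conj 9 0, ⟨(.ofNat 1), .n (.n (.n (.n (.n (.n (.n (.n (.l [M 37]) .z) .z) .z) (.n (.n (.n (.l [M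
  104]) .z) .z) (.n (.n (.l [M 161]) .z) .z))) (.n (.n (.n (.n (.l [M 80]) .z) .z) .z) (.n .z (.n
  (.n (.l [M 169]) .z) (.n (.l [M 222]) .z))))) (.n (.n (.n .z (.n (.n (.l [P 145]) .z) .z)) (.n
  (.n (.n (.l [M 114]) .z) .z) .z)) (.n (.n (.n (.n (.l [P 93]) .z) .z) (.n (.n .z (.l [P 240]))
  .z)) (.n (.n (.n (.l [M 129]) .z) .z) (.n .z (.n (.l [(222, .ofNat 3)]) .z)))))) (.n (.n (.n (.n
  (.n .z (.n (.l [P 182]) .z)) .z) (.n (.n (.n (.l [M 109]) .z) (.n .z (.l [P 247]))) (.n (.n .z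
  (.l [P 242])) .z))) (.n (.n (.n (.n .z (.l [P 229])) (.n (.l [P 189]) .z)) .z) (.n (.n (.n .z
  (.l [M 235])) (.n (.l [M 201]) .z)) (.n (.n (.l [M 173]) .z) (.n (.l [(222, .ofNat 2)]) .z)))))
  (.n (.n (.n (.n .z (.n (.l [P 186]) .z)) (.n .z (.n (.l [M 211]) .z))) (.n (.n .z (.n (.l [P
  199]) .z)) (.n .z (.n (.l [P 219]) .z)))) (.n (.n (.n (.n (.l [P 100]) .z) (.n (.l [P 191]) .z))
  (.n (.n (.l [P 157]) .z) .z)) (.n (.n (.n (.l [M 134]) (.l [M 236])) .z) (.n (.n .z (.l [M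
  244])) (.n (.l [(222, .ofNat 2)]) .z))))))) (.n (.n (.n (.n (.n (.n (.n (.l [M 44]) .z) (.n (.l
  [M 181]) .z)) .z) (.n .z (.n .z (.n (.l [P 217]) .z)))) (.n (.n .z (.n (.n (.l [P 152]) .z) (.n
  (.l [P 212]) .z))) (.n (.n (.n (.l [M 121, M 123, M 124, M 125, M 126, M 222]) .z) .z) (.n .z
  (.n (.l [(222, .ofNat 2)]) .z))))) (.n (.n (.n (.n (.n (.l [M 69]) (.l [P 227])) .z) .z) (.n (.n
  (.n (.l [M 116]) .z) .z) (.n (.n (.l [M 168]) .z) .z))) (.n (.n .z (.n (.n (.l [P 156]) .z) .z))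
  (.n (.n (.n (.l [M 132]) .z) .z) (.n (.n (.l [M 177]) .z) (.n (.l [(222, .negSucc 1)]) .z))))))
  (.n (.n (.n (.n (.n (.n (.l [P 57]) (.l [P 226])) .z) (.n (.n (.l [M 142]) .z) (.n (.l [M 208])
  .z))) (.n (.n (.n .z (.l [M 233])) .z) (.n .z (.n (.l [P 218]) .z)))) (.n (.n (.n (.n (.l [P
  89]) .z) (.n .z (.l [P 246]))) .z) (.n (.n .z (.n (.l [M 202]) .z)) (.n .z (.n (.l [(222,
  .negSucc 2)]) .z))))) (.n (.n (.n (.n (.n (.l [M 75]) .z) .z) (.n (.n (.l [P 148]) (.l [P 239]))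
  .z)) .z) (.n (.n (.n (.n .z (.l [P 231])) (.n (.l [P 194]) .z)) .z) (.n (.n .z (.n (.l [M 206])
  .z)) (.n .z (.n (.l [M 222]) .z)))))))⟩⟩

def p2_9 : Step := ⟨.conj 12 0, ⟨(.ofNat 1), .n (.n (.n (.n (.n (.n (.n (.n (.l [P 25]) .z) (.n (.l [M 158]) .z)) (.n
  (.n (.l [P 113]) .z) .z)) (.n (.n .z (.n (.l [P 174]) .z)) (.n .z (.n (.l [P 203]) .z)))) (.n
  (.n .z (.n (.n .z (.l [P 232])) (.n (.l [P 195]) .z))) (.n (.n (.n (.l [M 99]) (.l [M 225])) .z)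
  (.n .z (.n (.l [P 210]) .z))))) (.n (.n (.n (.n (.n (.l [P 45]) (.l [P 214])) .z) (.n .z (.n (.l
  [M 192]) .z))) (.n (.n (.n .z (.l [M 223])) (.n (.l [P 178]) (.l [M 245]))) (.n (.n (.l [P 143])
  .z) (.n (.l [P 205]) .z)))) (.n (.n .z (.n (.n (.l [P 135]) .z) .z)) (.n .z (.n (.n (.l [M 154])
  .z) (.n (.l [(210, .negSucc 1)]) .z)))))) (.n (.n (.n (.n (.n (.n (.l [M 35]) .z) .z) (.n (.n
  (.l [P 118]) .z) (.n (.l [M 190]) .z))) (.n .z (.n .z (.n (.l [P 204]) .z)))) (.n (.n (.n (.n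
  (.l [M 65]) .z) (.n .z (.l [P 243]))) (.n (.n (.l [P 131]) .z) .z)) (.n (.n (.n (.l [M 102]) .z)
  .z) (.n (.n .z (.l [M 238])) (.n (.l [(210, .negSucc 1)]) .z))))) (.n (.n (.n (.n (.n (.l [M
  56]) (.l [P 215])) .z) .z) (.n (.n (.n (.l [M 95]) .z) .z) (.n (.n .z (.l [M 237])) .z))) (.n .z
  (.n (.n .z (.n .z (.l [P 247]))) (.n .z (.n (.l [M 210]) .z))))))) (.n (.n (.n (.n (.n (.n (.n
  .z (.l [P 213])) .z) (.n (.n (.l [P 115]) (.l [P 230])) .z)) (.n (.n (.n (.l [P 86]) (.l [M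
  221])) .z) .z)) (.n (.n (.n (.n (.l [M 61]) .z) (.n (.l [P 167]) .z)) .z) (.n (.n .z (.n (.l [M
  183]) .z)) (.n (.n (.l [M 149]) .z) (.n (.l [M 210]) .z))))) (.n (.n (.n (.n .z (.n (.l [P 163])
  .z)) (.n (.n (.l [P 121, P 123, P 124, P 125, P 126, P 127, P 210]) .z) .z)) .z) (.n (.n (.n (.n
  (.l [P 74]) .z) (.n (.l [P 172]) .z)) (.n (.n .z (.l [P 234])) (.n (.l [P 200]) .z))) (.n (.n
  (.n .z (.l [M 228])) (.n (.l [M 187]) .z)) (.n .z (.n (.l [(210, .ofNat 2)]) .z)))))) (.n (.n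
  (.n .z (.n (.n (.n (.l [M 90]) .z) .z) .z)) (.n (.n (.n .z (.n (.l [P 170]) .z)) (.n (.n (.l [P
  133]) .z) .z)) (.n .z (.n .z (.n (.l [(210, .ofNat 3)]) .z))))) (.n (.n .z (.n .z (.n (.n (.l [M
  147]) .z) .z))) (.n (.n (.n (.n (.l [P 79]) .z) .z) (.n (.n (.l [P 138]) .z) .z)) (.n .z (.n (.n
  .z (.l [M 241])) (.n (.l [P 210]) .z)))))))⟩⟩

def p2_10 : Step := ⟨.conj 11 0, ⟨(.ofNat 1), .n (.n (.n (.n (.n (.n .z (.n .z (.n (.l [M 168]) .z))) (.n (.n (.n (.l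
  [P 60]) .z) .z) (.n (.n (.l [M 112]) .z) .z))) (.n (.n (.n .z (.n .z (.l [P 236]))) .z) (.n .z
  (.n (.n (.l [M 122, M 123, M 124, M 125, M 126, M 127, M 191]) .z) (.n (.l [M 191]) .z))))) (.n
  (.n (.n .z (.n (.n (.l [P 98]) .z) .z)) .z) (.n (.n (.n (.n (.l [M 52]) .z) (.n (.l [P 148])
  .z)) (.n (.n .z (.l [P 224])) .z)) (.n (.n (.n (.l [M 84]) .z) .z) (.n .z (.n (.l [(191, .ofNat
  2)]) .z)))))) (.n (.n (.n .z (.n (.n (.n (.l [P 64]) .z) (.n .z (.l [M 241]))) (.n (.n (.l [M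
  116]) .z) .z))) (.n (.n (.n .z (.n (.l [P 146]) .z)) .z) (.n (.n .z (.n (.l [M 162]) .z)) (.n .z
  (.n (.l [(191, .ofNat 2)]) .z))))) (.n (.n (.n (.n (.n (.l [P 37]) .z) .z) (.n (.n (.l [P 100])
  .z) (.n .z (.l [M 246])))) .z) (.n .z (.n .z (.n (.n (.l [M 132]) .z) (.n (.l [P 191]) .z)))))))
  (.n (.n (.n (.n (.n (.n (.n (.l [P 17]) .z) (.n (.l [M 136]) .z)) .z) (.n (.n .z (.n (.l [P
  152]) .z)) (.n (.n (.l [M 114]) .z) (.n (.l [P 184]) .z)))) (.n (.n (.n (.n .z (.l [P 202])) .z)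
  (.n (.n .z (.l [P 222])) .z)) (.n (.n (.n (.l [M 78]) (.l [M 212])) .z) (.n .z (.n (.l [P 191])
  .z))))) (.n (.n (.n (.n (.n (.l [P 34]) (.l [P 198])) .z) (.n .z (.n (.l [M 173]) .z))) (.n (.n
  (.n .z (.l [M 211])) (.n (.l [P 157]) (.l [M 242]))) (.n .z (.n (.l [P 186]) .z)))) (.n (.n .z
  (.n (.n (.l [M 110]) .z) .z)) (.n (.n .z (.n .z (.l [P 244]))) (.n (.n (.l [M 130]) .z) (.n (.l
  [M 191]) .z)))))) (.n (.n (.n (.n (.n (.n (.l [M 26]) (.l [P 197])) (.n .z (.l [P 235]))) (.n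
  (.n (.l [P 94]) (.l [P 219])) (.n (.l [M 171]) .z))) (.n (.n (.n .z (.l [M 209])) .z) (.n .z (.n
  (.l [P 185]) .z)))) (.n (.n (.n (.n (.l [M 47]) .z) .z) .z) (.n (.n (.n (.l [M 80]) .z) .z) (.n
  (.n .z (.l [M 231])) (.n (.l [(191, .negSucc 1)]) .z))))) (.n (.n (.n (.n (.n .z (.l [P 199]))
  .z) (.n (.n .z (.l [P 220])) .z)) (.n (.n (.n (.l [M 75]) .z) .z) (.n (.n .z (.l [M 229])) .z)))
  (.n (.n (.n .z (.n (.l [P 151]) .z)) (.n .z (.n (.l [P 182]) .z))) (.n (.n .z (.n (.l [M 166])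
  .z)) (.n (.n (.l [M 134]) .z) .z))))))⟩⟩

def p2_11 : Step := ⟨.comm 0 1, ⟨(.ofNat 1), .n (.n (.n (.n (.n (.n (.n (.n (.l [P 78]) .z) .z) (.n (.n (.l [M 184])
  .z) (.n (.l [M 232]) .z))) (.n (.n (.n (.l [M 154]) .z) .z) (.n (.n (.l [M 203]) .z) .z))) (.n
  (.n .z (.n .z (.n (.l [M 235]) .z))) (.n (.n (.n (.l [M 171]) .z) .z) (.n (.n (.l [M 210]) .z)
  (.n (.l [(241, .ofNat 2)]) .z))))) (.n (.n (.n (.n (.n (.l [P 110]) .z) .z) (.n (.n (.l [M 190])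
  .z) .z)) .z) (.n (.n (.n (.n (.l [M 143]) .z) (.n (.l [M 223]) .z)) (.n (.n (.l [M 199]) .z)
  .z)) (.n (.n (.n (.l [M 178]) .z) .z) (.n .z (.n (.l [(241, .negSucc 3)]) .z)))))) (.n (.n (.n
  (.n (.n (.n (.l [P 94]) .z) .z) .z) (.n (.n (.n (.l [M 158]) .z) .z) (.n (.n (.l [M 205]) .z)
  .z))) (.n (.n (.n (.n (.l [M 136]) .z) .z) (.n (.n (.l [M 197]) .z) .z)) (.n .z (.n .z (.n (.l
  [(241, .negSucc 3)]) .z))))) (.n (.n (.n (.n (.n (.l [P 121, M 122, P 241]) .z) .z) (.n (.n (.l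
  [M 192]) .z) .z)) (.n (.n (.n (.l [M 166]) .z) .z) .z)) (.n .z (.n .z (.n (.n (.l [M 214]) .z)
  (.n (.l [(241, .negSucc 1)]) .z))))))) (.n (.n (.n (.n (.n (.n (.n (.l [P 86]) (.l [P 242])) .z)
  (.n (.n (.l [M 185]) (.l [P 246])) .z)) (.n (.n (.n .z (.l [P 244])) (.n (.l [M 225]) .z)) (.n
  (.n (.l [M 204]) .z) .z))) (.n (.n (.n (.n (.l [M 130]) (.l [P 243])) (.n (.l [M 220]) .z)) (.n
  (.n .z (.l [P 247])) .z)) (.n (.n (.n .z (.l [P 245])) (.n (.l [M 229]) .z)) (.n (.n (.l [M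
  211]) .z) (.n (.l [(241, .negSucc 1)]) .z))))) (.n (.n (.n (.n (.n (.l [P 118]) .z) (.n (.l [M
  219]) .z)) (.n (.n (.l [M 191]) .z) (.n (.l [M 234]) .z))) (.n (.n .z (.n (.l [M 228]) .z)) (.n
  .z (.n (.l [M 238]) .z)))) (.n (.n (.n (.n (.l [M 146]) .z) (.n (.l [M 224]) .z)) (.n .z (.n (.l
  [M 236]) .z))) (.n (.n .z (.n (.l [M 231]) .z)) (.n .z (.n (.l [(241, .ofNat 3)]) .z)))))) (.n
  (.n (.n (.n (.n (.n (.l [P 102]) .z) .z) .z) (.n (.n (.n (.l [M 162]) .z) .z) .z)) (.n (.n (.n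
  (.n (.l [M 138]) .z) .z) (.n (.n (.l [M 198]) .z) .z)) (.n (.n (.n (.l [M 174]) .z) .z) (.n .z
  (.n (.l [(241, .ofNat 5)]) .z))))) (.n (.n .z (.n (.n (.n (.l [M 170]) .z) .z) (.n (.n (.l [M
  209]) .z) .z))) (.n (.n (.n (.n (.l [M 151]) .z) .z) (.n .z (.n (.l [M 237]) .z))) (.n .z (.n
  (.n (.l [M 215]) .z) (.n (.l [P 241]) .z)))))))⟩⟩

def p2_12 : Step := ⟨.conj 15 1, ⟨(.ofNat 1), .n (.n (.n (.n (.n .z (.n (.n .z (.n (.l [M 128]) .z)) .z)) (.n (.n .z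
  (.n (.n (.l [M 79]) (.l [M 207])) (.n (.l [P 153]) .z))) (.n (.n (.n .z (.l [P 196])) .z) (.n .z
  (.n (.l [M 172]) .z))))) (.n (.n (.n (.n (.n (.l [P 18]) (.l [M 179])) (.n (.l [M 115]) .z)) (.n
  .z (.n (.l [P 150]) .z))) (.n (.n (.n .z (.l [P 193])) .z) (.n .z (.n (.l [M 165]) .z)))) (.n
  (.n .z (.n (.n (.l [M 85]) .z) .z)) (.n (.n (.n .z (.l [P 200])) .z) (.n (.n (.l [M 105]) .z)
  (.n (.l [P 172]) .z)))))) (.n (.n (.n (.n (.n (.n (.l [M 12]) (.l [M 178])) .z) (.n (.n (.l [M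
  70]) (.l [M 203])) .z)) (.n (.n (.n .z (.l [P 190])) (.n (.l [M 131]) .z)) (.n .z (.n (.l [M
  164]) .z)))) (.n (.n .z (.n (.n .z (.l [M 210])) .z)) (.n (.n (.n (.l [P 58]) .z) .z) (.n .z (.n
  (.l [P 172]) .z))))) (.n (.n (.n (.n (.n .z (.l [M 180])) .z) .z) (.n .z (.n (.n (.l [P 99]) (.l
  [P 216])) .z))) (.n (.n (.n (.n .z (.l [M 187])) .z) (.n .z (.n (.l [M 158]) .z))) (.n (.n .z
  (.n (.l [P 143]) (.l [M 240]))) .z))))) (.n (.n (.n (.n (.n .z (.n .z (.n (.l [P 147]) .z))) (.n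
  (.n (.n (.l [M 46]) .z) .z) (.n (.n .z (.l [M 213])) .z))) (.n (.n (.n (.n (.l [M 28]) .z) (.n
  .z (.l [M 230]))) .z) (.n (.n .z (.n (.l [M 137]) .z)) (.n (.n (.l [P 101]) .z) (.n (.l [P 172])
  .z))))) (.n (.n (.n (.n .z (.n (.l [M 117]) .z)) (.n (.n (.l [M 77]) .z) (.n .z (.l [P 243]))))
  .z) (.n (.n (.n (.n (.l [P 36]) .z) .z) .z) (.n .z (.n (.n .z (.l [P 221])) (.n (.l [M 172])
  .z)))))) (.n (.n (.n (.n (.n .z (.n (.l [M 113]) .z)) .z) (.n (.n (.n (.l [M 48]) .z) (.n (.l [M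
  133]) (.l [P 234]))) (.n (.n (.l [P 95]) .z) .z))) (.n (.n (.n .z (.n (.l [M 120, M 122, M 123,
  M 124, M 125, M 126, P 172]) .z)) (.n .z (.n .z (.l [M 245])))) (.n (.n .z (.n .z (.l [M 238])))
  (.n .z (.n (.l [(172, .negSucc 1)]) .z))))) (.n (.n (.n (.n (.n (.l [M 25]) .z) (.n .z (.l [M
  228]))) .z) (.n (.n (.n (.l [M 56]) .z) .z) (.n .z (.n (.l [M 167]) .z)))) (.n (.n .z (.n (.n
  (.l [P 91]) .z) .z)) (.n (.n (.n (.l [P 65]) .z) .z) (.n (.n .z (.l [M 224])) .z))))))⟩⟩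

def p2_13 : Step := ⟨.conj 14 0, ⟨(.ofNat 1), .n (.n (.n (.n (.n (.n (.n (.n .z (.l [P 157])) .z) .z) (.n .z (.n (.n
  (.l [M 73]) .z) .z))) (.n (.n (.n (.n (.l [P 17]) .z) (.n (.l [P 100]) (.l [P 217]))) .z) (.n
  (.n .z (.n (.l [M 116]) .z)) (.n (.n (.l [M 81]) .z) .z)))) (.n (.n .z (.n .z (.n (.n .z (.l [M
  202])) .z))) (.n (.n (.n (.n (.l [M 24]) .z) (.n (.l [P 104]) .z)) (.n (.n .z (.l [M 196])) .z))
  (.n .z (.n .z (.n (.l [P 152]) .z)))))) (.n (.n (.n .z (.n (.n (.n (.l [P 32]) .z) (.n .z (.l [M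
  225]))) .z)) (.n (.n .z (.n .z (.n .z (.l [P 242])))) (.n (.n .z (.n (.l [M 119]) .z)) (.n (.n
  (.l [P 84]) .z) (.n (.l [P 152]) .z))))) (.n (.n (.n (.n .z (.n (.l [M 98]) .z)) (.n (.n .z (.l
  [P 191])) (.n (.l [M 130]) (.l [M 239])))) (.n (.n (.n (.l [P 37]) .z) .z) (.n .z (.n (.l [P
  146]) .z)))) (.n (.n (.n .z (.n .z (.l [P 222]))) (.n (.n .z (.l [P 199])) (.n .z (.l [M
  244])))) (.n (.n (.n (.l [M 47]) (.l [P 184])) .z) .z))))) (.n (.n (.n (.n (.n (.n .z (.n (.l [P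
  92]) (.l [P 212]))) .z) .z) (.n .z (.n (.n (.n (.l [M 41]) .z) .z) (.n .z (.n (.l [P 152])
  .z))))) (.n (.n (.n (.n (.n (.l [M 13]) (.l [P 160])) .z) (.n .z (.n (.l [M 129]) .z))) (.n (.n
  (.n .z (.l [P 177])) .z) (.n .z (.n (.l [P 145]) .z)))) (.n (.n (.n (.n .z (.l [P 168])) .z) (.n
  (.n (.l [P 67]) .z) .z)) .z))) (.n (.n (.n (.n (.n (.n (.l [P 9]) (.l [P 159])) .z) (.n (.n (.l
  [M 54]) (.l [M 189])) .z)) (.n (.n (.n .z (.l [M 175])) .z) (.n (.n (.l [P 75]) .z) (.n (.l [P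
  144]) .z)))) (.n (.n (.n .z (.n .z (.l [M 220]))) .z) (.n (.n (.n (.l [P 44]) (.l [M 182])) .z)
  (.n (.n .z (.l [M 208])) (.n (.l [M 152]) .z))))) (.n (.n (.n .z (.n (.n (.l [P 60]) .z) (.n (.l
  [M 132]) .z))) (.n (.n .z (.n (.l [M 114]) (.l [M 229]))) .z)) (.n (.n (.n (.n .z (.l [M 171]))
  (.n (.l [M 106]) .z)) .z) (.n (.n .z (.n (.l [M 120, M 121, M 122, M 123, M 124, M 125, M 152])
  (.l [P 235]))) (.n (.n (.l [M 89]) .z) .z))))))⟩⟩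

def p2_14 : Step := ⟨.conj 17 0, ⟨(.ofNat 1), .n (.n (.n (.n (.n (.n (.n .z (.n (.l [P 70]) .z)) (.n (.n (.l [P 36])
  (.l [P 167])) .z)) (.n (.n .z (.n (.l [P 87]) .z)) .z)) (.n (.n (.n (.n .z (.l [P 143])) .z) (.n
  (.n .z (.l [P 176])) (.n (.l [P 111]) .z))) (.n (.n (.n .z (.l [P 159])) (.n (.l [P 95]) .z))
  (.n (.n .z (.l [P 190])) .z)))) (.n (.n (.n (.n (.n (.l [P 5]) (.l [P 139])) .z) (.n .z (.n (.l
  [P 107]) .z))) (.n (.n (.n .z (.l [P 155])) (.n (.l [P 91]) (.l [P 216]))) (.n .z (.n (.l [P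
  121, P 122, (123, .ofNat 2), P 124, P 131]) .z)))) (.n (.n (.n (.n .z (.l [P 147])) .z) (.n (.n
  (.l [P 49]) .z) (.n (.l [P 115]) (.l [P 238])))) (.n (.n (.n .z (.l [P 163])) (.n (.l [P 99])
  .z)) (.n (.n (.l [P 66]) .z) .z))))) (.n (.n (.n (.n (.n (.n .z (.l [P 138])) .z) .z) (.n .z (.n
  (.n (.l [P 56]) .z) (.n .z (.l [P 243]))))) (.n (.n (.n (.n (.l [P 12]) .z) .z) .z) (.n (.n (.n
  (.l [P 30]) .z) .z) .z))) (.n (.n (.n (.n .z (.n .z (.l [P 203]))) .z) .z) (.n (.n .z (.n .z (.n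
  (.l [P 118]) .z))) (.n (.n .z (.n .z (.l [P 226]))) .z))))) (.n (.n (.n (.n (.n (.n (.n .z (.l
  [P 137])) .z) .z) (.n (.n (.n (.l [P 20]) .z) .z) (.n (.n .z (.l [P 183])) .z))) (.n (.n (.n (.n
  (.l [P 11]) .z) .z) .z) (.n (.n .z (.n .z (.l [P 221]))) (.n (.n (.l [P 63]) .z) .z)))) (.n (.n
  (.n .z (.n (.n (.l [P 42]) (.l [P 172])) .z)) (.n (.n (.n (.l [P 25]) .z) .z) (.n (.n .z (.l [P
  187])) .z))) (.n (.n (.n .z (.n .z (.l [P 210]))) (.n (.n .z (.l [P 180])) (.n (.l [P 117])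
  .z))) (.n (.n (.n .z (.l [P 164])) .z) .z)))) (.n (.n (.n (.n (.n .z (.n (.l [P 74]) .z)) (.n .z
  (.n .z (.l [P 230])))) (.n (.n .z (.n (.l [P 90]) (.l [P 215]))) .z)) (.n (.n (.n .z (.n (.l [P
  82]) .z)) (.n (.n (.l [P 48]) .z) (.n .z (.l [P 237])))) (.n .z (.n .z (.n (.l [P 131]) .z)))))
  (.n (.n (.n (.n .z (.n (.l [P 79]) (.l [P 204]))) .z) .z) (.n .z (.n (.n (.n (.l [P 35]) .z) .z)
  (.n (.n .z (.l [P 197])) .z))))))⟩⟩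

def p2_15 : Step := ⟨.conj 16 0, ⟨(.ofNat 1), .n (.n (.n (.n (.n .z (.n .z (.n (.n (.l [P 43]) (.l [P 168])) .z))) (.n
  .z (.n (.n .z (.n .z (.l [P 212]))) (.n (.n (.l [P 50]) .z) .z)))) (.n (.n (.n .z (.n (.n (.l [P
  32]) (.l [P 157])) .z)) (.n (.n (.n (.l [P 17]) .z) .z) (.n (.n .z (.l [P 173])) .z))) (.n (.n
  (.n (.n (.l [P 10]) .z) (.n .z (.l [P 199]))) (.n (.n .z (.l [P 165])) .z)) .z))) (.n (.n (.n
  (.n (.n .z (.n (.l [P 60]) .z)) (.n .z (.n .z (.l [P 222])))) (.n (.n .z (.n (.l [P 75]) (.l [P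
  205]))) .z)) (.n (.n (.n (.n .z (.l [P 130])) (.n (.l [P 67]) .z)) (.n (.n (.l [P 37]) .z) .z))
  (.n (.n .z (.n (.l [P 83]) .z)) .z))) (.n (.n (.n (.n .z (.n (.l [P 64]) .z)) (.n .z (.n .z (.l
  [P 227])))) (.n .z (.n .z (.n (.l [P 110]) .z)))) (.n (.n .z (.n .z (.n .z (.l [P 236])))) (.n
  (.n (.n (.l [P 26]) .z) .z) (.n (.n .z (.l [P 184])) .z)))))) (.n (.n (.n (.n .z (.n .z (.n (.n
  (.l [P 44]) .z) .z))) (.n (.n (.n (.n .z (.l [P 129])) .z) .z) (.n (.n (.n (.l [P 21]) .z) .z)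
  .z))) (.n (.n (.n (.n (.n (.l [P 4]) .z) (.n .z (.l [P 191]))) .z) (.n .z (.n .z (.n (.l [P
  109]) .z)))) (.n (.n .z (.n .z (.n .z (.l [P 235])))) (.n (.n .z (.n .z (.l [P 217]))) .z))))
  (.n (.n (.n (.n (.n (.n .z (.l [P 116, P 121, P 122, (123, .ofNat 2), P 124])) .z) (.n (.n (.l
  [P 31]) (.l [P 156])) (.n (.l [P 92]) .z))) (.n (.n (.n .z (.l [P 140])) .z) (.n .z (.n (.l [P
  108]) (.l [P 242]))))) (.n (.n (.n (.n (.l [P 9]) (.l [P 132])) (.n .z (.l [P 198]))) (.n .z (.n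
  (.l [P 100]) .z))) (.n (.n (.n .z (.l [P 148])) (.n (.l [P 84]) .z)) (.n (.n .z (.l [P 181]))
  (.n (.l [P 116]) .z))))) (.n (.n (.n .z (.n (.n .z (.l [P 160])) .z)) (.n (.n .z (.n (.l [P 80])
  (.l [P 211]))) (.n (.n .z (.l [P 177])) .z))) (.n (.n (.n (.n .z (.l [P 136])) (.n (.l [P 71])
  .z)) (.n .z (.n (.l [P 104]) .z))) (.n (.n (.n .z (.l [P 152])) (.n (.l [P 88]) .z)) (.n (.n (.l
  [P 57]) .z) .z))))))⟩⟩

def p2_16 : Step := ⟨.conj 19 0, ⟨(.ofNat 1), .n (.n (.n (.n (.n (.n .z (.n (.n (.l [P 18]) (.l [P 133])) .z)) (.n (.n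
  (.n .z (.l [P 115])) (.n .z (.l [M 187]))) .z)) (.n (.n .z (.n (.n .z (.l [P 141])) (.n (.l [P
  76]) .z))) (.n (.n (.n (.l [M 12]) (.l [M 95, P 120, P 121, P 122, P 123, P 124, P 125])) .z)
  (.n (.n .z (.l [P 158])) .z)))) (.n (.n (.n (.n (.n .z (.l [M 103])) (.n .z (.l [M 172]))) (.n
  .z (.n (.l [P 72]) .z))) (.n (.n .z (.n (.l [P 58]) (.l [P 193]))) (.n .z (.n (.l [M 88]) (.l [M
  238]))))) (.n (.n .z (.n (.n (.l [P 27]) .z) .z)) (.n (.n .z (.n (.l [P 65]) (.l [M 203]))) (.n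
  (.n (.l [P 39]) .z) (.n (.l [M 95]) .z)))))) (.n (.n (.n (.n (.n (.n .z (.l [M 102])) .z) (.n .z
  (.n (.l [M 70]) .z))) (.n (.n (.n .z (.l [P 118])) .z) (.n .z (.n (.l [M 87]) (.l [P 234])))))
  (.n (.n (.n .z (.n .z (.l [M 180]))) (.n .z (.n (.l [M 79]) .z))) (.n .z (.n .z (.n (.l [M 95])
  .z))))) (.n (.n .z (.n .z (.n (.n (.l [M 35]) (.l [M 155])) .z))) (.n .z (.n (.n .z (.n .z (.l
  [P 206]))) .z))))) (.n (.n (.n (.n (.n (.n (.n .z (.l [M 101])) .z) (.n .z (.n .z (.l [M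
  210])))) (.n (.n (.n (.l [P 8]) (.l [P 117])) (.n (.l [M 56]) .z)) (.n (.n .z (.l [P 149]))
  .z))) (.n (.n (.n (.n (.l [P 3]) .z) (.n (.l [M 48]) .z)) (.n (.n (.l [M 25]) .z) .z)) (.n (.n
  .z (.n (.l [M 63]) (.l [P 200]))) (.n .z (.n (.l [M 95]) .z))))) (.n (.n (.n .z (.n (.n (.l [P
  22]) .z) (.n .z (.l [M 215])))) .z) (.n (.n (.n (.n (.l [M 5]) .z) .z) .z) (.n (.n (.n .z (.l [P
  128])) .z) (.n (.n .z (.l [M 163])) .z))))) (.n (.n (.n (.n (.n .z (.n (.l [P 45]) .z)) .z) .z)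
  (.n (.n (.n .z (.n (.l [P 51]) .z)) (.n (.n .z (.l [M 143])) (.n .z (.l [P 223])))) (.n .z (.n
  .z (.n (.l [P 95]) .z))))) (.n (.n (.n (.n .z (.n .z (.l [P 174]))) .z) (.n .z (.n .z (.n (.l [M
  90]) .z)))) (.n (.n .z (.n (.n (.l [M 30]) (.l [M 147])) (.n .z (.l [M 230])))) (.n (.n (.n .z
  (.l [P 131])) .z) (.n (.n .z (.l [P 166])) .z))))))⟩⟩

def p2_17 : Step := ⟨.conj 18 0, ⟨(.ofNat 1), .n (.n (.n (.n (.n (.n (.n (.n .z (.l [M 80])) .z) (.n .z (.n .z (.l [M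
  191])))) (.n .z (.n (.n (.l [M 19]) .z) (.n .z (.l [M 222]))))) (.n (.n (.n .z (.n .z (.l [P
  156]))) .z) (.n (.n .z (.n .z (.l [P 182]))) (.n (.n (.l [M 23]) .z) (.n (.l [M 75]) .z))))) (.n
  (.n (.n (.n .z (.n .z (.l [P 152]))) (.n (.n (.l [P 13]) (.l [M 114])) (.n .z (.l [M 199]))))
  (.n .z (.n (.n .z (.l [M 134])) .z))) (.n (.n (.n (.n (.l [M 2]) .z) .z) (.n (.n .z (.l [P 75, M
  120, M 122, M 123, M 124, M 125, M 126])) .z)) (.n (.n (.n (.l [M 9]) .z) .z) (.n .z (.n (.l [P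
  75]) .z)))))) (.n (.n (.n .z (.n (.n (.n (.l [P 4]) .z) (.n .z (.l [M 170]))) (.n (.n .z (.l [M
  130])) .z))) (.n (.n .z (.n .z (.n .z (.l [P 211])))) (.n .z (.n (.n (.l [P 26]) .z) (.n (.l [P
  75]) .z))))) (.n (.n (.n (.n .z (.n (.l [M 34]) .z)) (.n .z (.n .z (.l [M 201])))) (.n (.n (.n
  .z (.l [P 100])) .z) .z)) (.n (.n .z (.n (.n (.l [M 17]) .z) (.n .z (.l [M 219])))) (.n (.n (.n
  .z (.l [M 110])) .z) (.n (.n .z (.l [P 146])) .z)))))) (.n (.n (.n (.n (.n (.n .z (.n (.l [P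
  31]) (.l [P 148]))) .z) (.n .z (.n .z (.n (.l [M 67]) .z)))) (.n (.n (.n (.n .z (.l [M 89])) .z)
  (.n .z (.n (.l [M 60]) .z))) (.n (.n (.n (.l [M 7]) (.l [P 104])) .z) (.n .z (.n (.l [P 75])
  .z))))) (.n (.n (.n (.n (.n .z (.l [M 83])) .z) (.n (.n .z (.l [M 116])) (.n (.l [P 57]) .z)))
  (.n (.n .z (.n (.l [M 44]) (.l [M 177]))) (.n .z (.n (.l [M 69]) (.l [M 235]))))) (.n (.n (.n .z
  (.n (.l [M 37]) .z)) .z) (.n (.n .z (.n .z (.l [P 189]))) (.n .z (.n (.l [M 75]) .z)))))) (.n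
  (.n (.n (.n (.n (.n .z (.l [M 82])) .z) (.n .z (.n (.l [P 54]) .z))) (.n (.n (.n .z (.l [P 97]))
  .z) (.n (.n .z (.l [M 132])) (.n (.l [M 68]) (.l [P 229]))))) (.n (.n (.n .z (.n .z (.l [M
  162]))) .z) (.n (.n .z (.n (.l [P 47]) .z)) (.n (.n .z (.l [M 142])) (.n (.l [(75, .negSucc 1)])
  .z))))) (.n (.n (.n .z (.n (.n .z (.l [M 119])) .z)) .z) (.n (.n (.n (.n .z (.l [P 94])) (.n (.l
  [M 40]) (.l [M 168]))) .z) (.n (.n .z (.n (.l [P 51]) .z)) .z)))))⟩⟩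

def p2_18 : Step := ⟨.conj 21 0, ⟨(.ofNat 1), .n (.n (.n (.n (.n (.n (.n .z (.n (.l [P 18]) .z)) (.n .z (.n .z (.l [P
  172])))) (.n (.n .z (.n (.l [M 27]) .z)) (.n .z (.n (.l [M 48]) .z)))) (.n (.n (.n (.n .z (.l [M
  65])) .z) (.n (.n .z (.l [M 96])) .z)) (.n (.n (.n .z (.l [P 81])) .z) (.n (.n .z (.l [P 113]))
  (.n (.l [P 56]) .z))))) (.n (.n (.n (.n (.n .z (.l [M 62])) .z) (.n .z (.n (.l [P 38]) .z))) (.n
  (.n (.n .z (.l [P 76])) (.n (.l [M 28]) (.l [M 153]))) (.n (.n (.l [M 12]) .z) (.n (.l [M 50])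
  (.l [P 221]))))) (.n (.n .z (.n .z (.n .z (.l [P 200])))) (.n (.n .z (.n .z (.l [P 167]))) (.n
  (.n (.l [P 16]) .z) (.n (.l [(56, .negSucc 1)]) .z)))))) (.n (.n (.n (.n (.n (.n .z (.l [M 61]))
  .z) (.n (.n (.l [P 5]) (.l [M 90])) (.n (.l [P 36]) .z))) (.n (.n (.n .z (.l [P 74])) .z) (.n .z
  (.n (.l [M 49]) (.l [M 213]))))) (.n (.n (.n .z (.n .z (.l [P 137]))) .z) (.n (.n (.n (.l [M 3])
  .z) .z) (.n (.n .z (.l [P 117])) (.n (.l [(56, .negSucc 1)]) .z))))) (.n (.n (.n (.n (.n .z (.l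
  [M 63])) (.n .z (.l [P 133]))) (.n (.n .z (.l [M 95])) .z)) (.n .z (.n (.n .z (.l [P 111])) (.n
  .z (.l [M 230]))))) (.n (.n (.n .z (.n (.l [M 25]) .z)) (.n .z (.n (.l [M 45]) .z))) (.n (.n .z
  (.n (.l [P 35]) (.l [P 169]))) (.n .z (.n (.l [M 56]) .z))))))) (.n (.n (.n (.n .z (.n (.n (.n
  (.l [P 1]) .z) (.n .z (.l [M 147]))) (.n .z (.n .z (.l [M 210]))))) (.n .z (.n .z (.n (.n .z (.l
  [P 115])) (.n (.l [M 56]) .z))))) (.n (.n (.n (.n .z (.n .z (.l [P 131]))) (.n (.n (.l [P 6])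
  .z) (.n .z (.l [M 183])))) .z) (.n (.n .z (.n (.n .z (.l [M 101])) .z)) (.n (.n (.n .z (.l [P
  85])) .z) (.n .z (.n (.l [P 56]) .z)))))) (.n (.n (.n .z (.n (.n .z (.n .z (.l [M 149]))) .z))
  (.n (.n (.n .z (.n (.l [M 23]) .z)) (.n (.n .z (.l [M 99])) (.n .z (.l [P 195])))) (.n (.n .z
  (.n .z (.l [P 163]))) (.n .z (.n (.l [(56, .ofNat 2)]) .z))))) (.n (.n (.n (.n .z (.n .z (.l [P
  135]))) (.n .z (.n .z (.l [M 187])))) (.n (.n (.n .z (.l [P 79])) .z) .z)) (.n (.n .z (.n (.n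
  (.l [M 11]) .z) .z)) (.n .z (.n (.n .z (.l [M 56, P 122, P 123, P 124, P 125, P 126, P 127]))
  .z))))))⟩⟩

def p2_19 : Step := ⟨.conj 20 0, ⟨(.ofNat 1), .n (.n (.n (.n (.n (.n (.n .z (.n .z (.l [M 100]))) .z) .z) (.n (.n (.n
  .z (.n .z (.l [P 109]))) (.n .z (.n .z (.l [P 168])))) (.n .z (.n (.n (.l [M 6]) .z) (.n (.l [P
  37]) .z))))) (.n (.n (.n .z (.n .z (.n .z (.l [M 157])))) .z) (.n (.n (.n .z (.n .z (.l [P
  114]))) (.n (.n .z (.l [P 77])) .z)) (.n .z (.n .z (.n (.l [(37, .negSucc 1)]) .z)))))) (.n (.n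
  (.n .z (.n (.n .z (.n .z (.l [P 37, P 121, P 123, P 124, P 125, P 126, P 127]))) (.n (.n .z (.l
  [P 84])) .z))) (.n (.n (.n (.n .z (.l [P 47])) (.n (.l [P 13]) .z)) (.n (.n .z (.l [P 75])) (.n
  .z (.l [P 173])))) (.n (.n (.n .z (.l [M 60])) (.n (.l [M 19]) .z)) (.n .z (.n (.l [(37,
  .negSucc 1)]) .z))))) (.n (.n (.n .z (.n .z (.n (.l [M 26]) (.l [P 161])))) (.n (.n .z (.n (.l
  [P 17]) (.l [P 132]))) (.n .z (.n (.l [P 34]) .z)))) (.n (.n .z (.n (.n .z (.l [P 80])) (.n .z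
  (.l [M 186])))) (.n (.n (.n .z (.l [M 64])) .z) (.n (.n .z (.l [M 98])) (.n (.l [M 37])
  .z))))))) (.n (.n (.n (.n (.n (.n .z (.n (.l [M 10]) .z)) (.n .z (.n .z (.l [M 152])))) (.n .z
  (.n .z (.n (.l [P 32]) (.l [M 191]))))) (.n .z (.n (.n (.n (.l [P 0]) .z) .z) (.n .z (.n (.l [M
  37]) .z))))) (.n (.n (.n (.n (.n .z (.l [P 43])) .z) .z) (.n (.n (.n .z (.l [M 57])) (.n .z (.l
  [P 129]))) (.n .z (.n .z (.l [M 212]))))) (.n (.n (.n .z (.n .z (.l [P 116]))) (.n (.n (.l [P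
  4]) .z) (.n .z (.l [M 182])))) (.n (.n .z (.n .z (.l [M 145]))) (.n (.n (.l [M 9]) .z) (.n (.l
  [(37, .ofNat 2)]) .z)))))) (.n (.n (.n (.n (.n (.n .z (.l [P 42])) (.n .z (.l [P 104]))) (.n (.n
  (.l [M 2]) (.l [P 69])) (.n (.l [M 24]) .z))) (.n (.n (.n .z (.l [M 55])) .z) (.n .z (.n (.l [P
  33]) (.l [P 202]))))) (.n (.n (.n .z (.n .z (.l [P 112]))) .z) (.n .z (.n (.n .z (.l [M 93]))
  (.n (.l [(37, .ofNat 3)]) .z))))) (.n (.n (.n (.n (.n .z (.l [P 44])) .z) (.n (.n .z (.l [P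
  73])) .z)) (.n (.n .z (.n .z (.l [P 134]))) (.n (.n .z (.l [M 89])) (.n .z (.l [P 222]))))) (.n
  (.n (.n (.n .z (.l [P 52])) (.n (.l [P 15]) .z)) .z) (.n (.n .z (.n (.l [M 22]) (.l [M 148])))
  (.n .z (.n (.l [P 37]) .z)))))))⟩⟩

def p2_20 : Step := ⟨.conj 23 0, ⟨(.ofNat 1), .n (.n (.n (.n (.n .z (.n (.n .z (.n (.l [M 8]) (.l [M 99]))) (.n .z (.n
  .z (.l [P 172]))))) (.n (.n .z (.n (.n .z (.l [M 53])) (.n (.l [M 16]) .z))) (.n (.n (.n .z (.l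
  [P 41])) .z) (.n .z (.n (.l [P 25]) .z))))) (.n (.n (.n (.n (.n .z (.l [M 29])) .z) (.n .z (.n
  (.l [P 14]) .z))) (.n (.n (.n .z (.l [P 39])) (.n .z (.l [P 105]))) (.n .z (.n (.l [M 21]) (.l
  [M 190]))))) (.n (.n .z (.n (.n (.l [M 1]) .z) (.n .z (.l [M 158])))) (.n (.n (.n .z (.l [P
  45])) .z) (.n .z (.n (.l [(25, .negSucc 2)]) .z)))))) (.n (.n (.n (.n (.n .z (.n .z (.l [P
  79]))) (.n .z (.n .z (.l [P 131])))) (.n .z (.n .z (.n (.l [M 20]) (.l [P 178]))))) (.n (.n (.n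
  .z (.n .z (.l [M 91]))) .z) (.n (.n .z (.n .z (.l [P 115]))) (.n (.n .z (.l [P 70])) (.n (.l
  [(25, .negSucc 1)]) .z))))) (.n (.n (.n (.n (.n .z (.l [M 30])) .z) .z) (.n .z (.n (.n .z (.l [P
  66])) (.n .z (.l [P 203]))))) (.n (.n (.n (.n .z (.l [M 35])) (.n .z (.l [M 95]))) .z) (.n (.n
  .z (.n .z (.l [M 25, P 121, P 123, P 124, P 125, P 126]))) (.n .z (.n (.l [(25, .negSucc 1)])
  .z))))))) (.n (.n (.n (.n (.n (.n (.n .z (.l [M 28])) .z) (.n (.n .z (.l [M 48])) .z)) (.n (.n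
  (.n .z (.l [P 36])) .z) (.n (.n .z (.l [M 61])) .z))) (.n (.n (.n .z (.n .z (.l [M 90]))) (.n
  (.n .z (.l [M 56])) (.n .z (.l [M 147])))) (.n (.n .z (.n (.l [P 11]) (.l [P 113]))) (.n (.n (.l
  [P 3]) .z) (.n (.l [(25, .negSucc 1)]) .z))))) (.n (.n (.n (.n .z (.n (.l [M 5]) .z)) (.n (.n
  (.l [M 0]) .z) (.n .z (.l [P 138])))) (.n .z (.n (.n .z (.l [M 65])) .z))) (.n (.n .z (.n (.n .z
  (.l [M 58])) (.n (.l [M 18]) .z))) (.n (.n (.n .z (.l [P 46])) (.n (.l [P 12]) .z)) (.n (.n .z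
  (.l [P 74])) (.n (.l [(25, .ofNat 2)]) .z)))))) (.n (.n (.n (.n .z (.n .z (.n .z (.l [P 133]))))
  (.n (.n .z (.n .z (.l [M 102]))) .z)) (.n (.n (.n .z (.n (.l [M 7]) .z)) (.n .z (.n .z (.l [M
  154])))) (.n (.n .z (.n .z (.l [P 118]))) (.n .z (.n (.l [(25, .ofNat 3)]) .z))))) (.n (.n (.n
  (.n .z (.n .z (.l [P 86]))) (.n .z (.n .z (.l [P 143])))) (.n .z (.n .z (.n .z (.l [P 210])))))
  (.n (.n .z (.n .z (.n .z (.l [P 167])))) (.n .z (.n (.n .z (.l [P 78])) (.n (.l [P 25])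
  .z)))))))⟩⟩

def p2_21 : Step := ⟨.conj 22 0, ⟨(.ofNat 1), .n (.n (.n (.n (.n (.n .z (.n .z (.n (.l [P 9]) .z))) (.n .z (.n (.n (.l
  [P 0]) (.l [M 47])) (.n .z (.l [M 157]))))) (.n (.n (.n .z (.n .z (.l [P 71]))) (.n .z (.n .z
  (.l [P 130])))) (.n (.n .z (.n .z (.l [P 98]))) (.n (.n (.l [P 1]) .z) (.n (.l [M 17]) .z)))))
  (.n (.n .z (.n .z (.n (.n .z (.l [M 52])) .z))) (.n (.n (.n .z (.n (.l [M 4]) .z)) (.n (.n .z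
  (.l [M 46])) .z)) (.n .z (.n (.n .z (.l [P 60])) (.n (.l [(17, .ofNat 3)]) .z)))))) (.n (.n (.n
  (.n .z (.n .z (.n .z (.l [P 114])))) (.n (.n .z (.n .z (.l [M 86]))) .z)) (.n (.n .z (.n .z (.n
  .z (.l [P 136])))) (.n (.n .z (.n (.l [P 7]) (.l [M 100]))) (.n .z (.n (.l [(17, .ofNat 2)])
  .z))))) (.n (.n (.n .z (.n .z (.n .z (.l [M 17, P 122, P 123, P 124, P 125])))) (.n .z (.n .z
  (.n .z (.l [M 191]))))) (.n (.n (.n .z (.n .z (.l [P 80]))) (.n .z (.n .z (.l [M 151])))) (.n .z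
  (.n .z (.n (.l [(17, .ofNat 2)]) .z))))))) (.n (.n (.n (.n (.n (.n .z (.n .z (.l [P 64]))) (.n
  (.n .z (.l [P 37])) .z)) .z) (.n (.n (.n (.n .z (.l [M 24])) (.n .z (.l [P 75]))) (.n (.n .z (.l
  [P 44])) (.n .z (.l [P 132])))) (.n (.n (.n .z (.l [P 32])) .z) (.n .z (.n (.l [(17, .ofNat 2)])
  .z))))) (.n (.n (.n (.n (.n .z (.l [M 21])) .z) (.n .z (.n (.l [P 10]) .z))) (.n (.n (.n .z (.l
  [M 31])) (.n .z (.l [M 92]))) (.n .z (.n (.l [M 15]) (.l [M 184]))))) (.n (.n (.n (.n .z (.l [M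
  26])) .z) (.n .z (.n .z (.l [M 146])))) (.n (.n .z (.n .z (.l [P 106]))) (.n .z (.n (.l [(17,
  .negSucc 2)]) .z)))))) (.n (.n (.n (.n (.n (.n .z (.l [M 20])) (.n .z (.l [P 67]))) (.n (.n .z
  (.l [P 40])) (.n .z (.l [P 116])))) (.n (.n (.n .z (.l [P 29])) .z) (.n .z (.n (.l [M 14]) (.l
  [P 171]))))) (.n (.n (.n .z (.n .z (.l [M 78]))) .z) (.n (.n (.n .z (.l [P 34])) .z) (.n (.n .z
  (.l [M 59])) (.n (.l [(17, .negSucc 3)]) .z))))) (.n (.n (.n .z (.n (.n .z (.l [M 41])) .z)) (.n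
  (.n .z (.n .z (.l [M 94]))) (.n (.n .z (.l [M 54])) (.n .z (.l [M 199]))))) (.n (.n (.n .z (.n
  .z (.l [M 84]))) (.n .z (.n (.l [M 13]) (.l [M 152])))) (.n (.n .z (.n (.l [P 8]) (.l [P 110])))
  (.n (.n (.l [P 2]) .z) (.n (.l [M 17]) .z)))))))⟩⟩

def p2_22 : Step := ⟨.conj 25 0, ⟨(.ofNat 1), .n (.n (.n (.n (.n (.n .z (.n (.n .z (.l [P 28])) .z)) .z) (.n (.n .z
  (.n (.n .z (.l [P 33])) (.n (.l [P 6]) (.l [P 115])))) (.n (.n (.n .z (.l [P 24])) .z) (.n (.n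
  .z (.l [P 46])) (.n (.l [P 12]) .z))))) (.n (.n (.n (.n (.n .z (.l [M 15])) .z) .z) (.n (.n (.n
  .z (.l [M 22])) (.n .z (.l [M 77]))) (.n .z (.n (.l [M 10]) (.l [P 164]))))) (.n (.n (.n (.n .z
  (.l [M 18])) .z) (.n .z (.n .z (.l [P 128])))) (.n (.n (.n .z (.l [M 27])) (.n .z (.l [P 91])))
  (.n (.n (.l [M 0]) (.l [M 48])) (.n (.l [(12, .negSucc 3)]) .z)))))) (.n (.n (.n (.n (.n (.n .z
  (.l [M 14])) .z) (.n (.n .z (.l [P 30])) .z)) (.n (.n (.n .z (.l [P 20])) .z) (.n .z (.n .z (.l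
  [M 150]))))) (.n (.n .z (.n (.n .z (.l [P 35])) .z)) (.n (.n (.n .z (.l [P 25])) .z) (.n .z (.n
  (.l [(12, .negSucc 2)]) .z))))) (.n (.n (.n (.n .z (.n .z (.l [P 58]))) .z) (.n (.n .z (.n .z
  (.l [M 79]))) (.n (.n .z (.l [M 42])) (.n .z (.l [P 180]))))) (.n (.n .z (.n .z (.n (.l [M 8])
  .z))) (.n (.n .z (.n .z (.l [M 93]))) (.n .z (.n (.l [(12, .negSucc 1)]) .z))))))) (.n (.n (.n
  (.n (.n .z (.n .z (.n (.l [P 5]) (.l [P 99])))) (.n (.n .z (.n .z (.l [M 70]))) (.n (.n .z (.l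
  [P 38])) (.n .z (.l [M 143]))))) (.n (.n (.n .z (.n .z (.l [M 63]))) (.n .z (.n .z (.l [P
  117])))) (.n (.n .z (.n .z (.l [M 85]))) (.n .z (.n (.l [(12, .negSucc 1)]) .z))))) (.n (.n (.n
  .z (.n .z (.n .z (.l [P 107])))) (.n .z (.n .z (.n .z (.l [P 172]))))) (.n (.n (.n .z (.n .z (.l
  [P 65]))) (.n .z (.n .z (.l [P 131])))) (.n .z (.n (.n .z (.l [M 49])) (.n (.l [(12, .ofNat 3)])
  .z)))))) (.n (.n (.n (.n (.n .z (.n (.l [M 1]) (.l [M 56]))) (.n .z (.n .z (.l [M 101])))) (.n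
  (.n .z (.n (.l [M 3]) (.l [P 72]))) .z)) (.n (.n (.n .z (.n (.l [M 2]) .z)) (.n .z (.n .z (.l [M
  12, P 120, P 122, P 123, P 124])))) (.n (.n .z (.n .z (.l [M 87]))) (.n .z (.n (.l [(12, .ofNat
  4)]) .z))))) (.n (.n (.n (.n .z (.n .z (.l [P 59]))) .z) (.n .z (.n .z (.n (.l [M 11]) (.l [P
  187]))))) (.n (.n .z (.n (.n .z (.l [M 36])) (.n .z (.l [P 137])))) (.n (.n .z (.n .z (.l [M
  95]))) (.n (.n .z (.l [P 52])) (.n (.l [P 12]) .z)))))))⟩⟩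

def p2_23 : Step := ⟨.conj 24 0, ⟨(.ofNat 1), .n (.n (.n (.n (.n (.n (.n (.n .z (.l [M 10])) .z) (.n .z (.n .z (.l [P
  84])))) (.n .z (.n .z (.n .z (.l [P 129]))))) (.n (.n (.n .z (.n .z (.l [M 50]))) .z) (.n (.n .z
  (.n .z (.l [M 73]))) (.n .z (.n (.l [(9, .negSucc 1)]) .z))))) (.n (.n (.n .z (.n (.n .z (.l [M
  24])) (.n .z (.l [P 92])))) (.n .z (.n (.n .z (.l [M 33])) (.n .z (.l [M 152]))))) (.n (.n (.n
  .z (.n .z (.l [P 54]))) (.n (.n .z (.l [M 28])) (.n .z (.l [P 116])))) (.n .z (.n .z (.n (.l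
  [(9, .ofNat 4)]) .z)))))) (.n (.n (.n (.n (.n .z (.n .z (.l [M 44]))) (.n .z (.n .z (.l [M
  89])))) (.n (.n .z (.n .z (.l [P 61]))) .z)) (.n (.n .z (.n .z (.n .z (.l [P 108])))) (.n .z (.n
  (.n .z (.l [M 37])) (.n (.l [(9, .ofNat 3)]) .z))))) (.n (.n (.n (.n .z (.n (.l [P 0]) .z)) (.n
  (.n .z (.l [P 26])) (.n .z (.l [M 96])))) (.n (.n .z (.n .z (.l [P 67]))) (.n .z (.n (.l [M 7])
  (.l [M 168]))))) (.n (.n (.n .z (.n .z (.l [M 57]))) (.n (.n .z (.l [P 31])) (.n .z (.l [M 9, P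
  120, P 121, P 122, P 123])))) (.n (.n (.n .z (.l [P 21])) .z) (.n (.n .z (.l [P 41])) (.n (.l
  [(9, .ofNat 2)]) .z))))))) (.n (.n (.n (.n (.n (.n .z (.n .z (.l [M 43]))) .z) (.n (.n .z (.n .z
  (.l [P 60]))) (.n .z (.n .z (.l [P 130]))))) (.n (.n .z (.n .z (.n .z (.l [M 104])))) (.n .z (.n
  .z (.n (.l [(9, .ofNat 2)]) .z))))) (.n (.n (.n (.n .z (.n .z (.l [P 47]))) .z) (.n .z (.n .z
  (.n (.l [M 6]) (.l [M 160]))))) (.n (.n .z (.n .z (.n .z (.l [P 119])))) (.n (.n .z (.n .z (.l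
  [M 81]))) (.n .z (.n (.l [(9, .negSucc 2)]) .z)))))) (.n (.n (.n (.n (.n (.n .z (.l [M 11])) .z)
  (.n (.n .z (.l [M 23])) .z)) (.n (.n (.n .z (.l [M 16])) .z) (.n (.n .z (.l [M 32])) (.n .z (.l
  [M 144]))))) (.n (.n (.n (.n .z (.l [M 13])) (.n .z (.l [P 53]))) .z) (.n (.n (.n .z (.l [M
  19])) (.n .z (.l [P 75]))) (.n (.n .z (.l [M 38])) (.n (.l [(9, .negSucc 4)]) .z))))) (.n (.n
  (.n .z (.n .z (.n (.l [P 4]) (.l [P 100])))) (.n (.n (.n .z (.l [P 17])) (.n (.l [P 2]) (.l [P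
  68]))) (.n .z (.n .z (.l [M 177]))))) (.n (.n (.n (.n .z (.l [P 14])) (.n (.l [P 1]) .z)) .z)
  (.n (.n .z (.n (.l [P 3]) (.l [P 83]))) (.n .z (.n (.l [M 9]) .z)))))))⟩⟩

def p2_24 : Step := ⟨.conj 27 0, ⟨(.ofNat 1), .n (.n (.n (.n (.n (.n (.n .z (.n .z (.l [M 35]))) (.n (.n .z (.l [P
  16])) (.n .z (.l [M 70])))) (.n (.n (.n .z (.l [P 11])) (.n .z (.l [P 49]))) (.n .z (.n .z (.l
  [P 117]))))) (.n (.n (.n (.n .z (.l [M 8])) .z) (.n (.n .z (.l [P 19])) (.n .z (.l [M 90]))))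
  (.n (.n (.n .z (.l [P 13])) .z) (.n (.n .z (.l [M 29])) (.n (.l [(5, .ofNat 2)]) .z))))) (.n (.n
  (.n (.n .z (.n .z (.l [P 36]))) (.n .z (.n (.l [M 2]) (.l [M 79])))) (.n (.n .z (.n (.l [M 0])
  (.l [P 55]))) (.n .z (.n (.l [M 4]) (.l [P 139]))))) (.n (.n .z (.n .z (.n (.l [M 3]) (.l [M
  103])))) (.n (.n .z (.n (.l [M 1]) (.l [M 66]))) (.n .z (.n (.l [(5, .negSucc 3)]) .z)))))) (.n
  (.n (.n (.n (.n (.n .z (.l [M 7])) .z) .z) (.n .z (.n (.n .z (.l [M 25])) (.n .z (.l [M 5, P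
  121, P 122, P 123]))))) (.n (.n (.n .z (.n .z (.l [P 42]))) (.n .z (.n .z (.l [M 95])))) (.n (.n
  .z (.n .z (.l [P 63]))) (.n .z (.n (.l [(5, .negSucc 3)]) .z))))) (.n (.n (.n (.n .z (.n .z (.l
  [M 39]))) .z) (.n (.n (.n .z (.l [P 12])) .z) (.n .z (.n .z (.l [P 155]))))) (.n .z (.n (.n .z
  (.n .z (.l [P 69]))) (.n .z (.n (.l [(5, .negSucc 1)]) .z))))))) (.n (.n (.n (.n (.n (.n (.n .z
  (.l [M 6])) .z) (.n .z (.n .z (.l [M 74])))) (.n .z (.n (.n .z (.l [P 23])) (.n .z (.l [P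
  118]))))) (.n .z (.n (.n .z (.n .z (.l [P 62]))) (.n (.n .z (.l [M 30])) (.n (.l [(5, .negSucc
  2)]) .z))))) (.n (.n (.n .z (.n (.n .z (.l [P 18])) (.n .z (.l [M 82])))) (.n (.n .z (.n .z (.l
  [P 56]))) (.n (.n .z (.l [P 27])) (.n .z (.l [P 147]))))) (.n (.n (.n .z (.n .z (.l [M 45])))
  (.n (.n .z (.l [P 22])) .z)) (.n (.n (.n .z (.l [P 15])) .z) (.n .z (.n (.l [(5, .ofNat 3)])
  .z)))))) (.n (.n (.n (.n .z (.n .z (.n .z (.l [P 76])))) (.n (.n .z (.n .z (.l [M 51]))) (.n .z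
  (.n .z (.l [P 131]))))) (.n (.n .z (.n (.n .z (.l [M 20])) (.n .z (.l [M 97])))) (.n .z (.n .z
  (.n (.l [(5, .ofNat 5)]) .z))))) (.n (.n (.n (.n .z (.n .z (.l [M 40]))) (.n .z (.n .z (.l [M
  87])))) (.n .z (.n .z (.n .z (.l [P 163]))))) (.n (.n (.n .z (.n .z (.l [P 48]))) (.n .z (.n .z
  (.l [P 111])))) (.n .z (.n (.n .z (.l [M 34])) (.n (.l [P 5]) .z)))))))⟩⟩

def p2_25 : Step := ⟨.conj 26 0, ⟨(.ofNat 1), .n (.n (.n (.n (.n (.n (.n .z (.n .z (.l [P 31]))) (.n .z (.n .z (.l [P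
  64])))) (.n (.n (.n .z (.l [M 9])) (.n .z (.l [M 44]))) (.n (.n .z (.l [P 19])) (.n .z (.l [M
  109]))))) (.n (.n .z (.n .z (.n .z (.l [P 83])))) (.n (.n .z (.n .z (.l [P 55]))) (.n .z (.n (.l
  [(4, .negSucc 1)]) .z))))) (.n (.n (.n (.n .z (.n .z (.l [M 32]))) (.n (.n .z (.l [P 15])) (.n
  .z (.l [P 71])))) (.n .z (.n (.n .z (.l [P 22])) (.n .z (.l [M 132]))))) (.n (.n (.n .z (.n .z
  (.l [M 40]))) (.n (.n .z (.l [P 18])) .z)) (.n (.n .z (.n .z (.l [P 60]))) (.n .z (.n (.l [(4,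
  .ofNat 4)]) .z)))))) (.n (.n (.n (.n .z (.n .z (.n .z (.l [P 69])))) (.n (.n .z (.n .z (.l [M
  45]))) (.n (.n .z (.l [P 21])) (.n .z (.l [M 116]))))) (.n (.n (.n (.n .z (.l [M 7])) (.n .z (.l
  [M 37]))) (.n .z (.n .z (.l [P 88])))) (.n (.n .z (.n .z (.l [M 57]))) (.n .z (.n (.l [(4,
  .ofNat 4)]) .z))))) (.n (.n (.n .z (.n .z (.n .z (.l [P 76])))) (.n (.n (.n .z (.l [M 10])) .z)
  (.n .z (.n .z (.l [M 148]))))) (.n (.n .z (.n .z (.n .z (.l [M 103])))) (.n .z (.n (.n .z (.l [M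
  29])) (.n (.l [(4, .ofNat 2)]) .z))))))) (.n (.n (.n (.n (.n .z (.n .z (.n .z (.l [P 67])))) (.n
  .z (.n .z (.n .z (.l [M 110]))))) (.n (.n (.n (.n .z (.l [M 6])) .z) .z) (.n .z (.n (.n .z (.l
  [P 26])) (.n (.l [(4, .ofNat 3)]) .z))))) (.n (.n (.n (.n .z (.n .z (.l [M 34]))) (.n .z (.n .z
  (.l [P 75])))) (.n (.n .z (.n .z (.l [M 50]))) (.n .z (.n .z (.l [M 140]))))) (.n (.n .z (.n .z
  (.n .z (.l [M 97])))) (.n (.n .z (.n .z (.l [P 62]))) (.n .z (.n (.l [(4, .negSucc 2)]) .z))))))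
  (.n (.n (.n (.n (.n (.n .z (.l [M 5])) .z) (.n .z (.n (.l [M 1]) .z))) (.n .z (.n .z (.n (.l [M
  3]) (.l [P 4, M 123, M 124]))))) (.n (.n (.n .z (.n .z (.l [M 39]))) (.n (.n .z (.l [P 17])) (.n
  (.l [M 2]) .z))) (.n (.n .z (.n (.l [M 0]) .z)) (.n (.n .z (.l [P 27])) (.n (.l [(4, .negSucc
  5)]) .z))))) (.n (.n (.n .z (.n (.n .z (.l [P 16])) (.n .z (.l [P 80])))) (.n (.n .z (.n .z (.l
  [M 51]))) (.n (.n .z (.l [P 23])) (.n .z (.l [M 156]))))) (.n (.n (.n (.n .z (.l [M 8])) (.n .z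
  (.l [M 43]))) (.n .z (.n .z (.l [M 104])))) (.n (.n (.n .z (.l [P 13])) .z) (.n .z (.n (.l [M
  4]) .z)))))))⟩⟩

def p2_26 : Step := ⟨.conj 29 0, ⟨(.ofNat 1), .n (.n (.n (.n (.n (.n .z (.n .z (.n .z (.l [M 58])))) (.n (.n .z (.n .z
  (.l [P 38]))) (.n .z (.n .z (.l [P 101]))))) (.n .z (.n (.n (.n .z (.l [M 9])) (.n .z (.l [M
  48]))) (.n (.n .z (.l [P 21])) (.n (.l [(3, .ofNat 2)]) .z))))) (.n (.n (.n (.n (.n .z (.l [M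
  4])) (.n .z (.l [P 28]))) (.n (.n .z (.l [M 12])) (.n .z (.l [M 65])))) (.n (.n .z (.n .z (.l [M
  43]))) (.n .z (.n .z (.l [M 3, P 124, P 125]))))) (.n (.n (.n .z (.n .z (.l [P 35]))) (.n .z (.n
  .z (.l [P 88])))) (.n (.n .z (.n .z (.l [M 53]))) (.n .z (.n (.l [(3, .negSucc 4)]) .z)))))) (.n
  (.n (.n (.n (.n .z (.n .z (.l [P 27]))) (.n .z (.n (.l [M 0]) (.l [M 63])))) (.n (.n (.n .z (.l
  [M 7])) .z) (.n .z (.n (.l [M 2]) (.l [P 108]))))) (.n (.n (.n .z (.n .z (.l [P 33]))) (.n .z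
  (.n (.l [M 1]) .z))) (.n .z (.n (.n .z (.l [P 22])) (.n (.l [(3, .negSucc 3)]) .z))))) (.n (.n
  .z (.n (.n .z (.n .z (.l [M 45]))) (.n (.n .z (.l [P 19])) (.n .z (.l [P 141]))))) (.n (.n .z
  (.n .z (.n .z (.l [P 95])))) (.n (.n .z (.n .z (.l [M 57]))) (.n (.n .z (.l [P 25])) (.n (.l
  [(3, .negSucc 1)]) .z))))))) (.n (.n (.n (.n (.n .z (.n .z (.n .z (.l [M 61])))) (.n (.n (.n .z
  (.l [M 6])) (.n .z (.l [M 39]))) (.n .z (.n .z (.l [P 102]))))) (.n (.n .z (.n .z (.n .z (.l [P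
  76])))) (.n (.n .z (.n .z (.l [M 50]))) (.n .z (.n (.l [(3, .negSucc 2)]) .z))))) (.n (.n (.n
  (.n .z (.n .z (.l [P 30]))) (.n .z (.n .z (.l [M 68])))) (.n .z (.n .z (.n .z (.l [P 133])))))
  (.n (.n .z (.n .z (.n .z (.l [P 90])))) (.n (.n (.n .z (.l [M 10])) (.n .z (.l [M 56]))) (.n (.n
  .z (.l [P 23])) (.n (.l [(3, .ofNat 3)]) .z)))))) (.n (.n (.n .z (.n .z (.n (.n .z (.l [P 18]))
  (.n .z (.l [P 115]))))) (.n (.n (.n (.n .z (.l [M 5])) .z) (.n (.n .z (.l [M 14])) (.n .z (.l [P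
  83])))) (.n (.n .z (.n .z (.l [M 51]))) (.n .z (.n (.l [(3, .ofNat 6)]) .z))))) (.n (.n (.n (.n
  .z (.n .z (.l [P 31]))) (.n .z (.n .z (.l [M 72])))) (.n (.n (.n .z (.l [M 8])) .z) (.n .z (.n
  .z (.l [P 149]))))) (.n (.n .z (.n (.n .z (.l [P 16])) (.n .z (.l [P 96])))) (.n (.n (.n .z (.l
  [M 11])) .z) (.n (.n .z (.l [P 26])) (.n (.l [P 3]) .z)))))))⟩⟩

def p2_27 : Step := ⟨.comm 15 0, ⟨(.ofNat 1), .n (.n (.n (.n (.n (.n .z (.n (.n (.l [M 21]) .z) .z)) (.n (.n .z (.n .z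
  (.l [P 192]))) (.n .z (.n .z (.l [P 234]))))) (.n (.n .z (.n .z (.n (.l [M 83]) .z))) (.n (.n
  (.n (.l [P 14]) (.l [M 130])) (.n .z (.l [M 203]))) .z))) (.n (.n (.n (.n (.n .z (.l [P 110]))
  (.n .z (.l [P 178]))) (.n (.n (.l [M 25]) (.l [M 143])) .z)) (.n (.n .z (.n .z (.l [M 198])))
  (.n .z (.n .z (.l [P 241]))))) (.n (.n .z (.n (.n (.l [M 31]) .z) .z)) (.n .z (.n .z (.n (.l [P
  102]) .z)))))) (.n (.n (.n (.n (.n .z (.n .z (.l [P 174]))) (.n .z (.n (.l [P 78]) (.l [M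
  215])))) (.n .z (.n .z (.n (.l [P 94]) .z)))) (.n (.n (.n .z (.n .z (.l [P 185]))) (.n (.n (.l
  [M 30]) .z) (.n (.l [P 86]) .z))) (.n .z (.n (.n .z (.l [P 166])) .z)))) (.n (.n (.n (.n (.n (.l
  [P 3]) .z) .z) .z) (.n .z (.n (.n .z (.l [P 162])) .z))) (.n .z (.n (.n .z (.n .z (.l [M 211])))
  (.n (.n (.l [P 45]) .z) .z)))))) (.n (.n (.n (.n (.n (.n (.n .z (.l [P 108])) .z) (.n (.n .z (.l
  [P 141])) .z)) (.n (.n (.n .z (.l [P 102, P 121, M 122, P 124, P 125])) (.n (.l [P 61]) .z)) (.n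
  (.n (.l [M 35]) .z) .z))) (.n (.n (.n (.n .z (.l [P 115])) (.n (.l [P 53]) .z)) (.n (.n .z (.l
  [P 149])) (.n .z (.l [P 223])))) (.n (.n (.n .z (.l [P 133])) (.n (.l [P 68]) (.l [M 205]))) (.n
  .z (.n (.l [P 102]) .z))))) (.n (.n (.n (.n .z (.n (.l [P 51]) .z)) (.n (.n (.l [M 26]) .z) .z))
  (.n (.n .z (.n (.l [P 65]) .z)) (.n .z (.n (.l [M 95]) .z)))) (.n (.n (.n (.n (.l [P 7]) .z) (.n
  (.l [P 58]) .z)) (.n .z (.n (.l [M 88]) .z))) (.n (.n (.n .z (.l [M 136])) (.n (.l [P 72]) (.l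
  [M 210]))) (.n (.n .z (.l [P 170])) .z))))) (.n (.n (.n .z (.n .z (.n (.n .z (.l [P 158])) .z)))
  (.n (.n (.n (.n .z (.l [P 118])) .z) .z) (.n .z (.n .z (.n (.l [M 102]) .z))))) (.n (.n .z (.n
  .z (.n (.n (.l [P 39]) .z) .z))) (.n (.n (.n (.n (.l [P 8]) .z) .z) (.n (.n .z (.l [P 154])) (.n
  (.l [M 90]) (.l [P 232])))) (.n (.n (.n .z (.l [M 138])) .z) .z)))))⟩⟩

def p2_28 : Step := ⟨.conj 31 0, ⟨(.ofNat 1), .n (.n (.n (.n (.n (.n (.n .z (.n .z (.l [P 181]))) .z) (.n (.n (.n .z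
  (.l [P 129])) .z) (.n (.n .z (.l [M 161])) .z))) (.n (.n .z (.n .z (.n .z (.l [P 227])))) .z))
  (.n (.n (.n (.n .z (.n (.l [P 57]) .z)) .z) (.n (.n (.n (.l [M 15]) .z) .z) .z)) (.n (.n (.n .z
  (.n .z (.l [M 194]))) .z) (.n (.n .z (.n .z (.l [P 212]))) .z)))) (.n (.n (.n (.n (.n (.n .z (.l
  [P 116])) (.n (.l [M 55]) .z)) (.n (.n .z (.l [P 148])) .z)) (.n (.n (.n .z (.l [P 132])) (.n
  (.l [M 69]) (.l [M 200]))) (.n (.n .z (.l [P 165])) .z))) (.n (.n (.n (.n .z (.l [M 109, M 120,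
  P 121, M 122, P 123, P 124])) (.n (.l [M 62]) .z)) (.n (.n .z (.l [P 156])) .z)) (.n (.n (.n .z
  (.l [P 140])) (.n (.l [M 76]) .z)) (.n .z (.n (.l [P 109]) .z))))) (.n (.n (.n .z (.n .z (.n (.l
  [P 88]) .z))) (.n (.n .z (.n (.l [P 71]) .z)) (.n (.n (.l [P 44]) .z) (.n (.l [M 103]) .z))))
  (.n (.n (.n (.n (.l [P 10]) .z) (.n (.l [P 64]) .z)) .z) (.n (.n (.n (.l [M 22]) .z) (.n (.l [P
  80]) .z)) (.n (.n .z (.l [M 179])) .z)))))) (.n (.n (.n (.n (.n .z (.n .z (.n .z (.l [P 217]))))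
  (.n .z (.n .z (.n .z (.l [P 236]))))) (.n (.n .z (.n (.n (.l [P 32]) .z) .z)) (.n (.n (.n (.l [M
  18]) .z) .z) (.n (.n .z (.l [P 173])) .z)))) (.n (.n (.n (.n .z (.n .z (.l [M 186]))) (.n .z (.n
  .z (.l [P 222])))) (.n .z (.n (.n (.l [P 43]) .z) .z))) (.n (.n .z (.n .z (.n .z (.l [M 233]))))
  (.n .z (.n (.n (.l [P 50]) .z) .z))))) (.n (.n (.n (.n (.n (.n .z (.l [M 117])) .z) (.n (.n (.l
  [M 27]) .z) (.n (.l [M 85]) .z))) (.n .z (.n .z (.n (.l [M 101]) (.l [M 240]))))) (.n (.n (.n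
  (.n (.l [M 6]) .z) (.n .z (.l [M 193]))) (.n (.n .z (.l [P 157])) (.n (.l [M 93]) .z))) (.n (.n
  .z (.n (.l [M 77]) .z)) (.n .z (.n (.l [M 109]) .z))))) (.n (.n (.n (.n (.n (.l [P 4]) .z) .z)
  (.n (.n .z (.l [M 153])) .z)) (.n (.n .z (.n .z (.l [M 206]))) (.n (.n .z (.l [M 169])) (.n (.l
  [P 104]) .z)))) (.n (.n (.n (.n .z (.l [M 128])) .z) (.n (.n (.l [P 37]) .z) .z)) (.n (.n (.n .z
  (.l [M 145])) .z) .z)))))⟩⟩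

def p2_29 : Step := ⟨.conj 30 0, ⟨(.ofNat 1), .n (.n (.n (.n (.n (.n (.n (.n .z (.l [M 117])) (.n (.l [M 55]) (.l [P
  183]))) (.n .z (.n .z (.l [M 216])))) (.n (.n .z (.n (.l [M 69]) .z)) .z)) (.n (.n (.n (.n (.l
  [M 5]) (.l [M 111, P 120, M 122, M 123])) (.n (.l [M 63]) .z)) .z) (.n (.n .z (.n (.l [M 76])
  .z)) (.n (.n .z (.l [P 175])) (.n (.l [M 111]) .z))))) (.n (.n (.n .z (.n .z (.n (.l [P 89]) (.l
  [M 221])))) (.n (.n .z (.n (.l [P 73]) .z)) (.n (.n (.l [M 42]) .z) (.n (.l [P 104]) .z)))) (.n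
  (.n .z (.n .z (.n (.l [P 96]) (.l [M 233])))) (.n (.n .z (.n (.l [P 81]) .z)) .z)))) (.n (.n (.n
  (.n (.n (.n .z (.l [P 119])) .z) .z) (.n .z (.n (.n .z (.l [P 167])) (.n .z (.l [P 239]))))) (.n
  (.n (.n (.n (.l [M 6]) .z) .z) (.n .z (.n .z (.l [M 230])))) (.n (.n (.n (.l [P 19]) .z) .z) (.n
  (.n (.l [M 48]) .z) (.n (.l [P 111]) .z))))) (.n (.n (.n (.n .z (.n .z (.l [P 188]))) (.n (.n .z
  (.l [M 155])) (.n (.l [P 90]) .z))) (.n (.n (.n .z (.l [M 137])) (.n (.l [P 74]) .z)) .z)) (.n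
  (.n (.n (.n (.l [P 11]) .z) (.n (.l [P 66]) .z)) (.n (.n (.l [M 36]) (.l [M 163])) (.n (.l [P
  97]) .z))) (.n (.n (.n .z (.l [M 147])) (.n (.l [P 82]) .z)) .z))))) (.n (.n (.n (.n (.n (.n .z
  (.n (.l [M 56]) .z)) .z) (.n (.n (.n (.l [P 13]) .z) .z) (.n .z (.n .z (.l [P 237]))))) (.n .z
  (.n .z (.n (.n .z (.l [P 176])) .z)))) (.n (.n (.n .z (.n (.n .z (.l [M 153])) .z)) (.n (.n (.n
  (.l [P 16]) .z) .z) (.n (.n .z (.l [M 169])) .z))) (.n (.n (.n .z (.n .z (.l [P 195]))) (.n (.n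
  .z (.l [M 161])) .z)) (.n (.n (.n .z (.l [M 145])) .z) .z)))) (.n (.n (.n .z (.n (.n .z (.n .z
  (.l [P 201]))) .z)) (.n (.n .z (.n (.n .z (.l [P 159])) .z)) (.n .z (.n (.n (.l [M 49]) .z)
  .z)))) (.n (.n (.n (.n .z (.n (.l [M 62]) (.l [P 189]))) (.n .z (.n .z (.l [M 226])))) (.n (.n
  (.n .z (.l [M 139])) .z) .z)) (.n (.n (.n (.n .z (.l [M 131])) .z) .z) (.n (.n (.n (.l [P 23])
  .z) .z) (.n (.n .z (.l [P 182])) .z))))))⟩⟩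

def p2_30 : Step := ⟨.conj 33 0, ⟨(.ofNat 1), .n (.n (.n (.n (.n (.n (.n (.n .z (.l [P 119, (120, .negSucc 1), M
  122])) (.n (.l [M 60]) .z)) (.n .z (.n .z (.l [M 220])))) (.n (.n .z (.n (.l [M 75]) .z)) (.n .z
  (.n .z (.l [M 239]))))) (.n (.n (.n (.n (.l [M 7]) (.l [M 130])) (.n (.l [M 68]) (.l [M 195])))
  .z) (.n (.n .z (.n (.l [M 83]) .z)) (.n .z (.n (.l [M 119]) .z))))) (.n (.n (.n .z (.n (.n .z
  (.l [M 159])) (.n .z (.l [M 225])))) (.n .z (.n (.n (.l [M 47]) (.l [M 176])) .z))) (.n (.n (.n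
  (.n (.l [M 11]) .z) .z) (.n (.n .z (.l [M 167])) (.n .z (.l [M 235])))) .z))) (.n (.n (.n (.n
  (.n .z (.n .z (.l [M 189]))) .z) (.n (.n (.n (.l [M 16]) .z) .z) .z)) (.n (.n (.n (.n (.l [M 9])
  .z) .z) (.n .z (.n .z (.l [M 232])))) (.n .z (.n (.n (.l [M 53]) (.l [M 182])) .z)))) (.n (.n
  (.n (.n .z (.n (.l [M 66]) .z)) (.n (.n .z (.l [M 162])) .z)) (.n (.n (.n (.l [M 19]) (.l [M
  144])) .z) .z)) (.n (.n (.n .z (.n .z (.l [M 201]))) (.n (.n (.l [M 41]) (.l [M 170])) (.n .z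
  (.l [M 237])))) (.n (.n (.n .z (.l [M 154])) .z) .z))))) (.n (.n (.n (.n (.n (.n .z (.n (.l [M
  61]) (.l [M 188]))) .z) .z) .z) (.n (.n (.n .z (.n (.n .z (.l [M 160])) (.n (.l [M 96]) .z)))
  (.n (.n .z (.n (.l [M 81]) .z)) (.n (.n .z (.l [M 177])) (.n (.l [M 111]) .z)))) (.n (.n (.n .z
  (.n (.l [M 73]) .z)) (.n (.n .z (.l [M 168])) (.n (.l [M 104]) .z))) (.n (.n (.n .z (.l [M
  152])) (.n (.l [M 89]) .z)) .z)))) (.n (.n (.n .z (.n .z (.n (.n .z (.l [M 175])) .z))) (.n .z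
  (.n (.n (.n (.l [M 23]) .z) .z) (.n (.n (.l [M 54]) (.l [M 183])) .z)))) (.n (.n (.n (.n .z (.n
  (.l [M 67]) .z)) (.n .z (.n (.l [M 97]) (.l [M 229])))) (.n (.n (.n .z (.l [M 146])) (.n (.l [M
  82]) .z)) .z)) (.n (.n (.n (.n (.l [M 13]) (.l [M 138])) (.n (.l [M 74]) .z)) .z) (.n (.n .z (.n
  (.l [M 90]) .z)) .z)))))⟩⟩

def p2_31 : Step := ⟨.conj 32 0, ⟨(.ofNat 1), .n (.n (.n (.n (.n (.n .z (.n (.n .z (.l [M 165])) (.n (.l [M 101])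
  .z))) (.n (.n (.n (.l [M 18]) (.l [M 150])) .z) (.n (.n .z (.l [M 180])) .z))) (.n (.n .z (.n
  (.n .z (.l [M 173])) (.n (.l [M 109]) (.l [M 234])))) (.n (.n (.n .z (.l [M 157])) .z) (.n .z
  (.n (.l [M 128]) .z))))) (.n (.n (.n (.n .z (.n (.l [M 72]) .z)) .z) .z) (.n .z (.n (.n .z (.n
  .z (.l [M 224]))) (.n (.n (.l [M 64]) (.l [M 193])) .z))))) (.n (.n (.n (.n (.n (.n .z (.l [M
  136])) (.n (.l [M 70]) .z)) (.n (.n .z (.l [M 166])) .z)) (.n (.n (.n .z (.l [M 151])) (.n (.l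
  [M 87]) .z)) .z)) (.n (.n (.n (.n .z (.l [M 143])) (.n (.l [M 79]) .z)) (.n (.n .z (.l [M 174]))
  .z)) (.n (.n (.n .z (.l [M 158])) (.n (.l [M 95]) .z)) .z))) (.n (.n .z (.n .z (.n (.n (.l [M
  59]) (.l [M 186])) .z))) .z))) (.n (.n (.n (.n (.n .z (.n .z (.n (.l [M 103]) (.l [M 228]))))
  (.n (.n .z (.n (.l [M 85]) .z)) (.n (.n .z (.l [M 181])) .z))) (.n (.n (.n (.n (.l [M 10]) .z)
  (.n (.l [M 77]) (.l [M 206]))) (.n (.n (.l [M 46]) .z) .z)) (.n (.n .z (.n (.l [M 93]) .z))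
  .z))) (.n (.n (.n .z (.n .z (.n .z (.l [M 231])))) (.n .z (.n (.n (.l [M 58]) .z) .z))) (.n (.n
  (.n (.n (.l [M 15]) .z) .z) (.n .z (.n .z (.l [M 238])))) (.n .z (.n (.n (.l [M 65]) (.l [M
  194])) .z))))) (.n (.n (.n (.n (.n .z (.n (.l [M 71]) (.l [M 200]))) .z) (.n (.n (.n (.l [M 22])
  .z) (.n (.l [M 88]) .z)) .z)) (.n (.n (.n (.n (.l [M 12]) .z) (.n (.l [M 80]) .z)) (.n .z (.n .z
  (.l [M 236])))) .z)) (.n (.n (.n (.n (.n (.l [M 8]) .z) .z) (.n (.n .z (.l [M 172])) .z)) (.n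
  (.n (.n (.l [M 27]) .z) .z) (.n (.n .z (.l [M 187])) (.n (.l [(120, .negSucc 1), M 122, P 128])
  .z)))) (.n (.n .z (.n (.n (.l [M 52]) (.l [M 179])) (.n (.l [M 117]) (.l [M 240])))) (.n (.n (.n
  .z (.l [M 164])) .z) .z)))))⟩⟩

def p2_32 : Step := ⟨.quot 0 10000, ⟨(.ofNat 1), .n (.n (.n (.n (.n (.n .z (.n (.n .z (.l [P 165])) (.n (.l [P 101])
  .z))) (.n (.n (.n (.l [P 18]) (.l [P 150])) .z) (.n (.n .z (.l [P 180])) .z))) (.n (.n .z (.n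
  (.n .z (.l [P 173])) (.n (.l [P 109]) (.l [P 234])))) (.n (.n (.n .z (.l [P 157])) .z) (.n .z
  (.n (.l [P 128]) .z))))) (.n (.n (.n (.n .z (.n (.l [P 72]) .z)) .z) .z) (.n .z (.n (.n .z (.n
  .z (.l [P 224]))) (.n (.n (.l [P 64]) (.l [P 193])) .z))))) (.n (.n (.n (.n (.n (.n .z (.l [P
  136])) (.n (.l [P 70]) .z)) (.n (.n .z (.l [P 166])) .z)) (.n (.n (.n .z (.l [P 151])) (.n (.l
  [P 87]) .z)) .z)) (.n (.n (.n (.n .z (.l [P 143])) (.n (.l [P 79]) .z)) (.n (.n .z (.l [P 174]))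
  .z)) (.n (.n (.n .z (.l [P 158])) (.n (.l [P 95]) .z)) .z))) (.n (.n .z (.n .z (.n (.n (.l [P
  59]) (.l [P 186])) .z))) .z))) (.n (.n (.n (.n (.n .z (.n .z (.n (.l [P 103]) (.l [P 228]))))
  (.n (.n .z (.n (.l [P 85]) .z)) (.n (.n .z (.l [P 181])) .z))) (.n (.n (.n (.n (.l [P 10]) .z)
  (.n (.l [P 77]) (.l [P 206]))) (.n (.n (.l [P 46]) .z) .z)) (.n (.n .z (.n (.l [P 93]) .z))
  .z))) (.n (.n (.n .z (.n .z (.n .z (.l [P 231])))) (.n .z (.n (.n (.l [P 58]) .z) .z))) (.n (.n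
  (.n (.n (.l [P 15]) .z) .z) (.n .z (.n .z (.l [P 238])))) (.n .z (.n (.n (.l [P 65]) (.l [P
  194])) .z))))) (.n (.n (.n (.n (.n .z (.n (.l [P 71]) (.l [P 200]))) .z) (.n (.n (.n (.l [P 22])
  .z) (.n (.l [P 88]) .z)) .z)) (.n (.n (.n (.n (.l [P 12]) .z) (.n (.l [P 80]) .z)) (.n .z (.n .z
  (.l [P 236])))) .z)) (.n (.n (.n (.n (.n (.l [P 8]) .z) .z) (.n (.n .z (.l [P 172])) .z)) (.n
  (.n (.n (.l [P 27]) .z) .z) (.n (.n .z (.l [P 187])) (.n (.l [(120, .ofNat 2), P 122, P 128])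
  .z)))) (.n (.n .z (.n (.n (.l [P 52]) (.l [P 179])) (.n (.l [P 117]) (.l [P 240])))) (.n (.n (.n
  .z (.l [P 164])) .z) .z)))))⟩⟩

def p2_33 : Step := ⟨.comm 21 8, ⟨(.ofNat 1), .n (.n (.n (.n (.n (.n .z (.n (.n (.l [P 29]) (.l [P 154])) (.n (.l [P
  90]) .z))) (.n (.n (.n .z (.l [P 138])) (.n .z (.l [P 204]))) (.n .z (.n .z (.l [P 238]))))) (.n
  (.n .z (.n (.n .z (.l [P 162])) (.n (.l [P 97]) .z))) (.n (.n (.n (.l [P 20]) (.l [P 146])) .z)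
  .z))) (.n (.n (.n (.n .z (.n .z (.l [P 190]))) (.n .z (.n (.l [P 94]) .z))) (.n (.n .z (.n (.l
  [P 78]) (.l [P 209]))) (.n .z (.n (.l [P 110]) .z)))) (.n (.n .z (.n (.n (.l [P 40]) .z) (.n (.l
  [P 102]) .z))) (.n (.n (.n (.l [P 25]) .z) (.n (.l [P 86]) .z)) .z)))) (.n (.n (.n .z (.n .z (.n
  (.n (.l [P 45]) .z) (.n .z (.l [P 241]))))) (.n (.n (.n (.n (.l [P 8]) .z) (.n .z (.l [P 197])))
  .z) (.n (.n .z (.n .z (.l [P 215]))) .z))) (.n (.n (.n (.n (.n (.l [P 5]) .z) .z) (.n (.n (.l [P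
  35]) .z) .z)) (.n (.n (.n .z (.l [P 143])) .z) .z)) (.n .z (.n (.n .z (.n .z (.l [P 219])))
  .z))))) (.n (.n (.n (.n (.n (.n (.n .z (.l [P 118, (121, .ofNat 2), P 123])) .z) (.n (.n (.l [P
  30]) (.l [P 155])) .z)) (.n (.n (.n .z (.l [P 139])) (.n (.l [P 74]) .z)) (.n (.n .z (.l [P
  170])) .z))) (.n (.n (.n (.n (.l [P 7]) (.l [P 131])) (.n (.l [P 66]) .z)) (.n (.n .z (.l [P
  163])) .z)) (.n (.n (.n .z (.l [P 147])) (.n (.l [P 82]) (.l [P 214]))) (.n (.n (.l [P 51]) .z)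
  (.n (.l [P 118]) .z))))) (.n (.n (.n .z (.n (.n (.l [P 34]) (.l [P 158])) (.n (.l [P 95]) .z)))
  (.n (.n .z (.n (.l [P 79]) (.l [P 210]))) (.n (.n .z (.l [P 174])) .z))) (.n (.n (.n .z (.n (.l
  [P 70]) .z)) (.n (.n .z (.l [P 166])) (.n (.l [P 103]) .z))) (.n (.n (.n .z (.l [P 151])) (.n
  (.l [P 87]) .z)) .z)))) (.n (.n (.n (.n .z (.n .z (.n .z (.l [P 223])))) .z) (.n (.n .z (.n (.n
  (.l [P 39]) .z) .z)) .z)) (.n .z (.n (.n (.n .z (.n .z (.l [P 203]))) (.n .z (.n .z (.l [P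
  237])))) .z))))⟩⟩

def p2_34 : Step := ⟨.conj 37 0, ⟨(.ofNat 1), .n (.n (.n (.n .z (.n (.n (.n (.n (.l [P 10]) .z) .z) (.n (.n (.l [P
  44]) .z) .z)) .z)) (.n (.n .z (.n (.n (.n (.l [P 24]) .z) .z) .z)) (.n (.n (.n .z (.n .z (.l [P
  208]))) .z) .z))) (.n (.n (.n (.n (.n .z (.n (.l [P 73]) .z)) (.n (.n (.l [P 37]) (.l [P 168]))
  .z)) (.n (.n (.n .z (.l [P 152])) (.n (.l [P 89]) (.l [P 213]))) .z)) (.n (.n (.n (.n .z (.l [P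
  144])) (.n (.l [P 81]) .z)) (.n (.n .z (.l [P 177])) .z)) (.n (.n (.n .z (.l [P 160])) (.n (.l
  [P 96]) .z)) .z))) (.n (.n (.n (.n .z (.n (.l [P 77]) .z)) (.n (.n .z (.l [P 173])) (.n (.l [P
  108]) .z))) (.n (.n .z (.n (.l [P 92]) (.l [P 217]))) (.n .z (.n (.l [(121, .ofNat 2), P 123, P
  129]) .z)))) (.n (.n (.n .z (.n (.l [P 84]) .z)) (.n (.n .z (.l [P 181])) (.n (.l [P 116]) (.l
  [P 240])))) (.n (.n (.n (.l [P 33]) (.l [P 165])) (.n (.l [P 100]) .z)) (.n (.n .z (.l [P 196]))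
  .z)))))) (.n (.n (.n (.n (.n .z (.n .z (.n (.l [P 104]) .z))) (.n (.n .z (.n .z (.l [P 212])))
  (.n .z (.n .z (.l [P 242]))))) (.n .z (.n (.n (.n (.l [P 28]) .z) .z) (.n .z (.n (.l [P 129])
  .z))))) (.n (.n (.n (.n (.n (.l [P 6]) .z) (.n .z (.l [P 202]))) .z) .z) (.n (.n .z (.n (.n (.l
  [P 50]) .z) (.n .z (.l [P 239])))) (.n (.n (.n (.l [P 32]) .z) .z) .z)))) (.n (.n (.n (.n (.n
  (.n .z (.l [P 137])) .z) (.n (.n (.l [P 38]) (.l [P 169])) .z)) (.n (.n (.n .z (.l [P 153])) .z)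
  (.n (.n (.l [P 57]) .z) .z))) (.n (.n (.n (.n .z (.l [P 145])) (.n .z (.l [P 207]))) .z) (.n (.n
  (.n .z (.l [P 161])) (.n .z (.l [P 222]))) .z))) (.n (.n (.n (.n (.n (.l [P 9]) .z) .z) (.n (.n
  (.l [P 43]) .z) (.n (.l [P 109]) .z))) (.n (.n (.n .z (.l [P 157])) (.n (.l [P 93]) (.l [P
  218]))) .z)) (.n (.n (.n (.n .z (.l [P 150])) (.n (.l [P 85]) .z)) .z) (.n (.n .z (.n (.l [P
  101]) (.l [P 227]))) .z)))))⟩⟩

def p2_35 : Step := ⟨.comm 23 12, ⟨(.ofNat 1), .n (.n (.n (.n (.n (.n .z (.n (.n (.l [M 46]) (.l [P 178])) (.n (.l [M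
  115]) .z))) (.n (.n (.n (.l [M 25]) .z) .z) .z)) (.n (.n .z (.n (.n .z (.l [P 185])) (.n (.l [M
  120, M 121, M 123, M 124, P 143]) .z))) (.n (.n (.n .z (.l [P 171])) .z) (.n .z (.n (.l [M 143])
  .z))))) (.n (.n (.n (.n (.n (.l [M 8]) (.l [M 151])) .z) .z) (.n (.n (.n .z (.l [M 166])) (.n .z
  (.l [M 224]))) (.n .z (.n (.l [M 136]) .z)))) (.n (.n (.n (.n .z (.l [M 158])) (.n (.l [P 95])
  .z)) (.n (.n (.l [M 59]) .z) .z)) (.n (.n (.n .z (.l [M 174])) .z) (.n (.n (.l [P 78]) (.l [M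
  203])) .z))))) (.n (.n (.n .z (.n .z (.n (.n (.l [M 65]) .z) .z))) (.n .z (.n .z (.n .z (.n (.l
  [P 143]) .z))))) (.n (.n (.n (.n (.n (.l [P 12]) .z) .z) .z) (.n .z (.n (.n .z (.l [M 197]))
  .z))) (.n .z (.n (.n .z (.n .z (.l [M 231]))) (.n (.n (.l [P 79]) .z) .z)))))) (.n (.n (.n (.n
  (.n (.n (.n .z (.l [M 150])) .z) (.n (.n .z (.l [P 180])) (.n (.l [M 118]) .z))) (.n (.n (.n .z
  (.l [P 164])) (.n (.l [M 99]) .z)) (.n (.n .z (.l [P 192])) .z))) (.n (.n (.n (.n (.l [P 14])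
  .z) (.n (.l [M 91]) (.l [M 215]))) (.n (.n .z (.l [P 187])) (.n .z (.l [P 238])))) (.n (.n (.n
  .z (.l [P 172])) (.n (.l [M 107]) (.l [M 228]))) (.n (.n (.l [M 72]) .z) .z)))) (.n (.n (.n (.n
  .z (.n (.l [P 87]) .z)) (.n (.n (.l [M 52]) .z) .z)) .z) (.n (.n (.n (.n (.l [M 20]) .z) .z) (.n
  .z (.n (.l [M 128]) .z))) (.n .z (.n (.n .z (.l [M 204])) .z))))) (.n (.n (.n (.n (.n .z (.n (.l
  [P 86]) (.l [M 210]))) (.n .z (.n .z (.l [M 234])))) (.n (.n (.n (.l [M 30]) .z) (.n (.l [P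
  102]) .z)) .z)) (.n (.n (.n .z (.n (.l [P 94]) .z)) (.n (.n (.l [M 58]) .z) (.n .z (.l [P
  241])))) (.n .z (.n .z (.n (.l [M 143]) .z))))) (.n (.n .z (.n (.n (.n (.l [M 35]) .z) .z) (.n
  (.n (.l [P 70]) .z) (.n (.l [M 138]) .z)))) (.n (.n .z (.n (.n .z (.l [M 190])) (.n (.l [M 131])
  (.l [M 243])))) .z))))⟩⟩

def p2_36 : Step := ⟨.conj 37 0, ⟨(.ofNat 1), .n (.n (.n (.n (.n (.n (.n (.n .z (.l [P 136])) .z) .z) (.n .z (.n (.n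
  (.l [P 53]) .z) (.n .z (.l [P 242]))))) (.n (.n (.n .z (.n .z (.l [P 205]))) .z) (.n (.n .z (.n
  .z (.l [P 220]))) (.n (.n (.l [P 61]) .z) .z)))) (.n (.n (.n .z (.n (.n (.l [P 41]) (.l [P
  171])) .z)) (.n .z (.n (.n .z (.l [P 185])) .z))) (.n (.n (.n (.n (.l [P 14]) .z) (.n (.l [P
  83]) .z)) (.n (.n .z (.l [P 178])) .z)) .z))) (.n (.n (.n (.n (.n .z (.n .z (.l [P 199]))) (.n
  .z (.n .z (.l [P 229])))) (.n (.n (.n (.l [P 21]) .z) .z) .z)) (.n (.n .z (.n (.n (.l [P 47])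
  .z) .z)) (.n .z (.n (.n .z (.l [P 191])) (.n (.l [P 130]) .z))))) (.n (.n (.n (.n (.n (.l [P 9])
  .z) (.n (.l [P 78]) .z)) (.n .z (.n .z (.l [P 232])))) (.n (.n (.n (.l [P 26]) .z) .z) .z)) (.n
  (.n (.n .z (.n .z (.l [P 211]))) (.n .z (.n .z (.l [P 241])))) (.n .z (.n (.n (.l [P 67]) .z)
  .z)))))) (.n (.n (.n (.n (.n (.n .z (.n .z (.l [P 198]))) (.n (.n .z (.l [P 168])) .z)) (.n (.n
  (.n .z (.l [P 152])) .z) (.n (.n (.l [P 54]) .z) .z))) (.n (.n (.n (.n .z (.l [P 144])) .z) (.n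
  (.n .z (.l [P 177])) (.n .z (.l [P 235])))) (.n (.n (.n .z (.l [P 160])) .z) .z))) (.n (.n (.n
  (.n (.n (.l [P 7]) .z) (.n (.l [P 75]) .z)) (.n .z (.n (.l [P 108]) .z))) (.n (.n .z (.n (.l [P
  92]) .z)) (.n .z (.n (.l [P 120, (122, .ofNat 2), P 123, P 130]) .z)))) (.n (.n (.n .z (.n (.l
  [P 84]) .z)) (.n .z (.n (.l [P 116]) .z))) (.n (.n .z (.n (.l [P 100]) (.l [P 225]))) .z)))) (.n
  (.n (.n (.n (.n (.n .z (.l [P 138])) .z) (.n (.n .z (.l [P 170])) .z)) (.n (.n (.n .z (.l [P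
  154])) .z) (.n (.n .z (.l [P 184])) .z))) (.n (.n (.n (.n .z (.l [P 146])) .z) .z) (.n (.n (.n
  (.l [P 31]) (.l [P 162])) .z) (.n (.n .z (.l [P 192])) .z)))) (.n (.n (.n .z (.n .z (.n (.l [P
  110]) .z))) (.n (.n .z (.n (.l [P 94]) .z)) (.n (.n (.l [P 60]) .z) .z))) (.n (.n (.n (.n (.l [P
  17]) .z) (.n (.l [P 86]) .z)) (.n .z (.n (.l [P 119]) .z))) (.n (.n .z (.n (.l [P 102]) .z)) (.n
  (.n (.l [P 68]) .z) .z))))))⟩⟩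

def p2_37 : Step := ⟨.conj 40 25, ⟨(.ofNat 1), .n (.n (.n (.n (.n (.n (.n (.n (.l [M 77]) .z) .z) .z) (.n (.n (.n (.l
  [P 153]) .z) .z) .z)) (.n (.n (.n (.n (.l [M 128]) .z) .z) (.n (.n (.l [M 194]) .z) .z)) (.n .z
  (.n .z (.n (.l [(240, .negSucc 1)]) .z))))) (.n (.n (.n (.n (.n (.l [M 109]) .z) (.n (.l [M
  218]) .z)) .z) (.n (.n (.n (.l [M 164]) .z) .z) .z)) (.n .z (.n .z (.n (.n (.l [M 212]) .z) (.n
  (.l [(240, .ofNat 4)]) .z)))))) (.n (.n (.n (.n (.n (.n (.l [M 93]) (.l [M 242])) (.n (.l [M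
  216]) .z)) (.n (.n (.l [M 186]) (.l [M 246])) .z)) (.n (.n (.n .z (.l [M 244])) (.n (.l [M 226])
  .z)) .z)) (.n (.n (.n (.n .z (.l [M 243])) (.n (.l [M 221]) .z)) (.n (.n .z (.l [M 247])) .z))
  (.n (.n (.n (.l [M 173]) (.l [M 245])) (.n (.l [M 230]) .z)) (.n .z (.n (.l [(240, .ofNat 3)])
  .z))))) (.n (.n (.n .z (.n .z (.n (.l [P 234]) .z))) (.n (.n .z (.n (.l [P 228]) .z)) (.n (.n
  (.l [M 208]) .z) (.n (.l [P 238]) .z)))) (.n (.n (.n (.n (.l [M 150]) .z) (.n (.l [P 224]) .z))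
  (.n .z (.n (.l [P 236]) .z))) (.n (.n (.n (.l [M 180]) .z) (.n (.l [P 231]) .z)) (.n .z (.n (.l
  [(240, .ofNat 2)]) .z))))))) (.n (.n (.n (.n (.n (.n (.n (.l [M 85]) .z) .z) (.n .z (.n (.l [M
  233]) .z))) (.n (.n (.n (.l [M 157]) .z) .z) .z)) (.n (.n (.n (.n (.l [P 129]) .z) .z) (.n (.n
  (.l [M 196]) .z) .z)) (.n (.n (.n (.l [M 172]) .z) .z) (.n .z (.n (.l [(240, .ofNat 3)]) .z)))))
  (.n (.n (.n (.n (.n (.l [M 117]) .z) .z) .z) (.n (.n (.n (.l [M 165]) .z) .z) (.n (.n (.l [M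
  207]) .z) .z))) (.n (.n (.n (.n (.l [P 145]) .z) .z) (.n (.n (.l [M 200]) .z) .z)) (.n (.n (.n
  (.l [M 179]) .z) .z) (.n (.n (.l [M 213]) .z) (.n (.l [(240, .negSucc 2)]) .z)))))) (.n (.n (.n
  (.n (.n (.n (.l [M 101]) .z) (.n (.l [M 217]) .z)) (.n (.n (.l [M 187]) .z) .z)) (.n (.n (.n (.l
  [P 161]) .z) (.n (.l [M 227]) .z)) (.n (.n (.l [M 206]) .z) .z))) (.n (.n (.n (.n (.l [P 137])
  .z) (.n (.l [M 222]) .z)) .z) (.n .z (.n .z (.n (.l [(240, .negSucc 4)]) .z))))) (.n (.n (.n (.n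
  (.n (.l [M 120, P 121, M 122, P 240]) .z) .z) (.n (.n (.l [M 193]) .z) .z)) (.n (.n (.n (.l [P
  169]) .z) .z) (.n .z (.n (.l [M 239]) .z)))) (.n (.n .z (.n (.n (.l [M 202]) .z) .z)) (.n (.n
  (.n (.l [M 181]) .z) .z) (.n .z (.n (.l [M 240]) .z)))))))⟩⟩

def p2_38 : Step := ⟨.conj 39 0, ⟨(.ofNat 1), .n (.n (.n (.n (.n (.n (.n (.n (.l [P 73]) (.l [M 240])) (.n (.l [M
  212]) .z)) .z) (.n (.n .z (.n (.l [M 222]) .z)) .z)) (.n (.n (.n (.n (.l [P 120, P 121, M 239])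
  (.l [M 242])) (.n (.l [M 218]) .z)) (.n (.n (.l [P 189]) .z) .z)) (.n (.n .z (.n (.l [M 227])
  .z)) (.n .z (.n (.l [P 239]) .z))))) (.n (.n (.n (.n (.n (.l [P 104]) .z) .z) .z) (.n (.n (.n
  (.l [P 159]) .z) .z) (.n (.n (.l [M 202]) .z) .z))) (.n (.n (.n (.n (.l [P 137]) .z) .z) .z) (.n
  .z (.n .z (.n (.l [(239, .negSucc 3)]) .z)))))) (.n (.n (.n (.n (.n (.n (.l [P 89]) .z) .z) (.n
  (.n (.l [P 182]) .z) .z)) (.n (.n (.n (.l [P 153]) .z) .z) .z)) (.n (.n (.n (.n (.l [P 129]) .z)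
  .z) .z) (.n (.n (.n (.l [P 168]) .z) .z) (.n (.n (.l [M 207]) .z) (.n (.l [(239, .negSucc 2)])
  .z))))) (.n (.n (.n (.n .z (.n (.l [M 216]) .z)) (.n (.n .z (.l [M 246])) (.n (.l [M 232]) .z)))
  (.n (.n (.n (.l [P 161]) .z) (.n (.l [M 225]) .z)) (.n .z (.n (.l [M 237]) .z)))) (.n (.n (.n
  (.n (.l [P 144]) .z) (.n (.l [M 220]) .z)) (.n (.n (.l [M 196]) (.l [M 247])) (.n (.l [M 235])
  .z))) (.n (.n (.n (.l [P 176]) (.l [M 245])) (.n (.l [M 229]) .z)) (.n .z (.n (.l [(239,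
  .negSucc 1)]) .z))))))) (.n (.n (.n (.n (.n (.n (.n (.l [P 81]) .z) (.n (.l [M 213]) .z)) .z)
  (.n (.n (.n (.l [P 152]) .z) .z) .z)) (.n .z (.n (.n (.n (.l [P 167]) .z) .z) (.n .z (.n (.l
  [(239, .negSucc 2)]) .z))))) (.n (.n (.n (.n (.n (.l [P 111]) .z) .z) .z) (.n (.n (.n (.l [P
  160]) .z) .z) .z)) (.n (.n .z (.n (.n (.l [P 195]) .z) .z)) (.n (.n (.n (.l [P 175]) .z) .z) (.n
  .z (.n (.l [(239, .ofNat 3)]) .z)))))) (.n (.n (.n (.n (.n (.n (.l [P 96]) .z) .z) (.n (.n (.l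
  [P 183]) .z) .z)) (.n .z (.n (.n (.l [P 201]) .z) .z))) (.n .z (.n (.n (.n (.l [P 169]) .z) .z)
  (.n (.n (.l [M 208]) .z) (.n (.l [(239, .ofNat 5)]) .z))))) (.n (.n (.n (.n (.n (.l [P 119]) .z)
  (.n (.l [M 217]) .z)) (.n (.n (.l [P 188]) .z) (.n (.l [M 233]) .z))) (.n (.n (.n .z (.l [M
  244])) (.n (.l [M 226]) .z)) .z)) (.n (.n (.n (.n (.l [P 145]) (.l [M 243])) (.n (.l [M 221])
  .z)) .z) (.n (.n (.n (.l [P 177]) .z) (.n (.l [M 230]) .z)) (.n .z (.n (.l [P 239]) .z)))))))⟩⟩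

def p2_39 : Step := ⟨.conj 42 0, ⟨(.ofNat 1), .n (.n (.n (.n (.n (.n (.n (.n (.l [P 66]) (.l [M 238])) (.n (.l [M
  209]) .z)) (.n (.n (.l [M 175]) .z) .z)) (.n (.n .z (.n (.l [M 219]) .z)) .z)) (.n (.n (.n (.n
  (.l [P 118]) (.l [M 241])) (.n (.l [M 215]) .z)) .z) (.n (.n (.n (.l [M 159]) .z) (.n (.l [M
  223]) .z)) (.n .z (.n (.l [P 237]) .z))))) (.n (.n (.n (.n (.n (.l [P 97]) .z) .z) (.n .z (.n
  (.l [P 229]) .z))) (.n (.n .z (.n (.l [P 220]) .z)) (.n (.n (.l [M 197]) .z) (.n (.l [P 235])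
  .z)))) (.n (.n (.n (.n (.l [P 131]) .z) .z) (.n (.n (.l [M 189]) .z) (.n (.l [P 232]) .z))) (.n
  (.n (.n (.l [M 167]) .z) (.n (.l [P 225]) .z)) (.n .z (.n (.l [(237, .negSucc 3)]) .z)))))) (.n
  (.n (.n (.n (.n (.n (.l [P 82]) .z) .z) .z) (.n (.n (.n (.l [P 147]) .z) .z) (.n (.n (.l [M
  195]) .z) .z))) (.n (.n (.n (.n (.l [M 120, P 121, P 123, P 237]) .z) .z) .z) (.n (.n (.n (.l [P
  162]) .z) .z) (.n (.n (.l [M 203]) .z) (.n (.l [(237, .negSucc 2)]) .z))))) (.n (.n (.n (.n (.n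
  (.l [M 111]) .z) .z) (.n (.n (.l [M 183]) .z) .z)) (.n (.n (.n (.l [P 155]) (.l [P 243])) .z)
  .z)) (.n (.n (.n (.n (.l [P 138]) .z) .z) (.n (.n (.l [M 190]) .z) .z)) (.n .z (.n .z (.n (.l
  [(237, .negSucc 1)]) .z))))))) (.n (.n (.n (.n (.n (.n (.n (.l [P 74]) (.l [P 239])) (.n (.l [M
  210]) .z)) (.n (.n (.l [M 176]) .z) .z)) (.n (.n (.n (.l [P 146]) .z) .z) .z)) (.n (.n (.n (.n
  (.l [M 119]) .z) .z) .z) (.n .z (.n (.n (.l [M 201]) .z) (.n (.l [(237, .negSucc 1)]) .z)))))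
  (.n (.n (.n .z (.n (.n (.l [M 182]) (.l [P 245])) (.n (.l [P 230]) .z))) (.n (.n (.n (.l [P
  154]) .z) (.n (.l [P 221]) .z)) (.n (.n .z (.l [P 247])) .z))) (.n (.n (.n .z (.n (.l [P 216])
  .z)) (.n (.n .z (.l [P 246])) (.n (.l [P 233]) .z))) (.n (.n (.n .z (.l [P 244])) (.n (.l [P
  226]) .z)) (.n .z (.n (.l [(237, .ofNat 3)]) .z)))))) (.n (.n (.n (.n (.n (.n (.l [P 90]) .z)
  .z) .z) .z) (.n (.n .z (.n (.n (.l [M 188]) .z) .z)) (.n (.n (.n (.l [P 163]) .z) .z) (.n (.n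
  (.l [M 204]) .z) (.n (.l [(237, .ofNat 5)]) .z))))) (.n (.n (.n (.n .z (.n (.l [M 214]) .z)) .z)
  .z) (.n (.n (.n (.n (.l [P 139]) .z) .z) .z) (.n (.n (.n (.l [P 170]) .z) .z) (.n .z (.n (.l [P
  237]) .z)))))))⟩⟩

def p2_40 : Step := ⟨.conj 41 0, ⟨(.ofNat 1), .n (.n (.n (.n (.n (.n (.n (.n (.l [M 64]) .z) .z) (.n .z (.n (.l [P
  227]) .z))) (.n (.n (.n (.l [P 140]) (.l [P 242])) .z) (.n (.n (.l [M 193]) (.l [M 246])) .z)))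
  (.n .z (.n (.n (.n (.l [P 157]) .z) .z) (.n (.n (.l [M 200]) .z) (.n (.l [(236, .negSucc 1)])
  .z))))) (.n (.n (.n (.n .z (.n (.l [M 211]) .z)) (.n (.n (.l [M 179]) .z) .z)) (.n (.n (.n (.l
  [P 151]) .z) .z) .z)) (.n (.n (.n (.n (.l [M 128]) .z) .z) .z) (.n (.n (.n (.l [P 165]) .z) .z)
  (.n .z (.n (.l [(236, .ofNat 4)]) .z)))))) (.n (.n (.n (.n (.n (.n (.l [M 80]) .z) (.n (.l [P
  209]) .z)) .z) (.n (.n .z (.n (.l [P 219]) .z)) .z)) (.n (.n (.n (.n .z (.l [P 241])) (.n (.l [P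
  214]) .z)) (.n (.n (.l [M 186]) .z) .z)) (.n (.n .z (.n (.l [P 223]) .z)) (.n .z (.n (.l [(236,
  .ofNat 3)]) .z))))) (.n (.n (.n (.n (.n (.l [P 109]) .z) .z) (.n (.n (.l [P 181]) .z) .z)) (.n
  .z (.n (.n (.l [M 199]) .z) .z))) (.n (.n (.n (.n (.l [M 136]) .z) .z) .z) (.n (.n (.n (.l [P
  166]) .z) .z) (.n .z (.n (.l [(236, .ofNat 2)]) .z))))))) (.n (.n (.n (.n (.n (.n (.n (.l [M
  71]) .z) .z) (.n (.n (.l [P 173]) .z) .z)) (.n (.n .z (.n (.l [P 217]) .z)) (.n (.n (.l [M 194])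
  .z) .z))) (.n (.n (.n (.n (.l [P 116]) (.l [P 240])) (.n (.l [P 212]) .z)) (.n (.n (.l [M 184])
  .z) .z)) (.n (.n (.n (.l [P 158]) .z) (.n (.l [P 222]) .z)) (.n .z (.n (.l [(236, .ofNat 2)])
  .z))))) (.n (.n (.n (.n (.n (.l [P 103]) .z) .z) .z) (.n .z (.n (.n (.l [M 198]) .z) .z))) (.n
  (.n (.n (.n (.l [P 132]) .z) .z) .z) (.n .z (.n (.n (.l [M 205]) .z) (.n (.l [(236, .negSucc
  2)]) .z)))))) (.n (.n (.n (.n (.n (.n (.l [M 88]) (.l [P 238])) .z) (.n (.n (.l [P 174]) .z) (.n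
  (.l [P 228]) .z))) (.n (.n (.n (.l [P 148]) .z) .z) (.n .z (.n (.l [P 234]) .z)))) (.n (.n (.n
  (.n (.l [M 120, P 123, P 124, P 236]) .z) .z) (.n .z (.n (.l [P 231]) .z))) (.n (.n .z (.n (.l
  [P 224]) .z)) (.n .z (.n (.l [(236, .negSucc 3)]) .z))))) (.n (.n (.n (.n (.n (.l [P 110]) .z)
  .z) (.n (.n .z (.l [M 245])) .z)) (.n (.n (.n (.l [P 156]) .z) .z) (.n (.n .z (.l [M 247])) (.n
  (.l [M 235]) .z)))) (.n (.n .z (.n (.n (.l [M 191]) .z) (.n (.l [M 233]) .z))) (.n (.n (.n .z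
  (.l [M 244])) .z) (.n (.n (.l [M 206]) .z) (.n (.l [M 236]) .z)))))))⟩⟩

def p2_41 : Step := ⟨.conj 44 0, ⟨(.ofNat 1), .n (.n (.n (.n (.n (.n (.n (.n (.l [P 58]) .z) .z) (.n (.n (.l [P 165])
  .z) .z)) (.n (.n (.n (.l [M 133]) .z) .z) .z)) (.n (.n .z (.n (.n (.l [P 174]) .z) (.n (.l [P
  227]) .z))) (.n (.n (.n (.l [M 150]) (.l [P 242])) .z) (.n .z (.n (.l [(234, .ofNat 2)]) .z)))))
  (.n (.n (.n (.n (.n (.l [M 88]) (.l [P 236])) .z) (.n (.n (.l [P 172]) .z) .z)) (.n (.n (.n (.l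
  [M 143]) .z) .z) .z)) (.n (.n .z (.n (.n (.l [P 181]) .z) .z)) (.n .z (.n (.n (.l [M 198]) .z)
  (.n (.l [(234, .negSucc 2)]) .z)))))) (.n (.n (.n (.n (.n (.n (.l [P 72]) .z) (.n (.l [M 203])
  .z)) (.n (.n (.l [P 166]) .z) (.n (.l [P 224]) .z))) (.n (.n (.n .z (.l [P 241])) (.n (.l [M
  215]) .z)) (.n .z (.n (.l [P 231]) .z)))) (.n (.n (.n .z (.n (.l [M 210]) .z)) (.n (.n (.l [P
  180]) .z) (.n (.l [P 228]) .z))) (.n .z (.n .z (.n (.l [(234, .negSucc 2)]) .z))))) (.n (.n (.n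
  (.n (.n (.l [M 101]) .z) .z) .z) (.n .z (.n (.n (.l [P 192]) (.l [M 246])) .z))) (.n .z (.n .z
  (.n (.n (.l [M 200]) .z) (.n (.l [(234, .negSucc 1)]) .z))))))) (.n (.n (.n (.n (.n (.n (.n (.l
  [P 65]) .z) .z) (.n .z (.n (.l [P 223]) .z))) (.n (.n (.n (.l [M 136]) (.l [P 240])) (.n (.l [M
  213]) .z)) (.n (.n (.l [P 187]) .z) .z))) (.n (.n (.n (.n (.l [M 108]) .z) (.n (.l [M 207]) .z))
  (.n (.n (.l [P 178]) .z) .z)) (.n (.n .z (.n (.l [M 218]) .z)) (.n .z (.n (.l [(234, .negSucc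
  1)]) .z))))) (.n (.n (.n (.n (.n (.l [M 95]) .z) (.n (.l [M 206]) .z)) (.n (.n (.l [P 173]) .z)
  .z)) .z) (.n (.n (.n (.n (.l [M 120, M 124, M 125, M 234]) .z) .z) .z) (.n (.n (.n (.l [P 158])
  .z) .z) (.n (.n .z (.l [M 247])) (.n (.l [(234, .ofNat 3)]) .z)))))) (.n (.n (.n (.n (.n .z (.n
  (.l [M 205]) .z)) .z) (.n (.n (.n (.l [M 141]) .z) .z) .z)) (.n (.n (.n (.n (.l [M 115]) (.l [P
  238])) (.n (.l [M 211]) .z)) .z) (.n .z (.n .z (.n (.l [(234, .ofNat 4)]) .z))))) (.n (.n (.n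
  (.n (.n (.l [M 102]) .z) .z) .z) (.n (.n (.n (.l [M 149]) .z) .z) (.n (.n (.l [M 193]) .z) (.n
  (.l [P 232]) .z)))) (.n (.n (.n (.n (.l [M 128]) .z) .z) (.n (.n (.l [P 185]) (.l [M 245])) (.n
  (.l [P 230]) .z))) (.n (.n (.n .z (.l [P 243])) .z) (.n .z (.n (.l [P 234]) .z)))))))⟩⟩

def p2_42 : Step := ⟨.conj 43 0, ⟨(.ofNat 1), .n (.n (.n (.n (.n (.n (.n (.n (.l [P 47]) (.l [M 231])) (.n (.l [P
  191]) .z)) (.n (.n (.l [P 152]) .z) .z)) (.n (.n (.n (.l [P 119]) .z) .z) (.n (.n (.l [M 176])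
  .z) .z))) (.n (.n (.n (.n (.l [P 94]) .z) (.n .z (.l [M 247]))) .z) (.n (.n .z (.n (.l [M 211])
  .z)) (.n (.n (.l [M 183]) .z) (.n (.l [P 229]) .z))))) (.n (.n (.n (.n (.n (.l [M 75]) .z) .z)
  (.n (.n (.l [P 159]) .z) .z)) .z) (.n (.n (.n (.n (.l [P 107]) (.l [M 235])) (.n (.l [P 201])
  .z)) (.n (.n .z (.l [P 243])) .z)) (.n (.n (.n (.l [P 144]) .z) .z) (.n .z (.n (.l [(229,
  .negSucc 2)]) .z)))))) (.n (.n (.n .z (.n (.n (.n (.l [P 120, P 122, P 125, P 126, M 229]) .z)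
  .z) (.n (.n (.l [M 177]) .z) .z))) (.n (.n (.n (.n (.l [P 100]) .z) .z) .z) (.n .z (.n (.n (.l
  [P 185]) .z) (.n (.l [(229, .negSucc 2)]) .z))))) (.n (.n (.n (.n (.n (.l [M 89]) .z) (.n (.l [P
  197]) .z)) .z) (.n (.n (.n (.l [P 134]) .z) .z) .z)) (.n (.n .z (.n (.n (.l [M 171]) .z) .z))
  (.n (.n (.n .z (.l [P 241])) .z) (.n (.n (.l [M 189]) .z) (.n (.l [(229, .negSucc 1)]) .z)))))))
  (.n (.n (.n (.n (.n (.n (.n (.l [P 54]) .z) (.n (.l [P 192]) (.l [M 246]))) .z) (.n .z (.n .z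
  (.n (.l [M 225]) .z)))) (.n (.n .z (.n .z (.n (.l [M 220]) .z))) (.n (.n (.n (.l [P 138]) (.l [M
  239])) .z) (.n .z (.n (.l [(229, .negSucc 1)]) .z))))) (.n (.n (.n (.n (.n (.l [M 82]) (.l [M
  232])) .z) (.n (.n .z (.l [P 242])) (.n (.l [M 218]) .z))) (.n (.n (.n (.l [P 130]) .z) (.n (.l
  [P 208]) .z)) (.n .z (.n (.l [M 226]) .z)))) (.n (.n (.n .z (.n (.l [P 202]) .z)) (.n (.n (.l [M
  170]) .z) (.n (.l [M 222]) .z))) (.n (.n (.n (.l [P 146]) .z) .z) (.n .z (.n (.l [(229, .ofNat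
  2)]) .z)))))) (.n (.n (.n (.n (.n (.n (.l [M 68]) .z) .z) .z) (.n (.n (.n .z (.l [M 237])) .z)
  (.n (.n .z (.l [P 244])) .z))) (.n (.n .z (.n (.n (.l [M 168]) .z) .z)) (.n (.n (.n (.l [P 142])
  .z) .z) (.n .z (.n (.l [(229, .ofNat 4)]) .z))))) (.n (.n (.n (.n .z (.n (.l [P 199]) .z)) (.n
  (.n (.l [M 162]) .z) (.n (.l [M 219]) .z))) (.n .z (.n (.n (.l [M 182]) .z) .z))) (.n (.n (.n
  (.n (.l [P 114]) .z) (.n (.l [P 204]) .z)) .z) (.n (.n .z (.n (.l [M 215]) .z)) (.n .z (.n (.l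
  [P 229]) .z)))))))⟩⟩

def p2_43 : Step := ⟨.conj 46 0, ⟨(.ofNat 1), .n (.n (.n (.n (.n (.n (.n (.n (.l [P 36]) .z) (.n (.l [P 179]) .z)) .z)
  (.n (.n .z (.n (.l [M 194]) .z)) (.n .z (.n (.l [P 216]) .z)))) (.n (.n (.n (.n (.l [P 79]) (.l
  [P 228])) (.n (.l [M 187]) .z)) (.n (.n .z (.l [M 239])) .z)) (.n (.n .z (.n (.l [M 200]) .z))
  (.n .z (.n (.l [P 221]) .z))))) (.n (.n (.n (.n (.n (.l [M 62]) .z) (.n (.l [M 183]) .z)) (.n .z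
  (.n (.l [P 208]) .z))) (.n (.n (.n .z (.l [P 233])) (.n (.l [M 196]) .z)) (.n (.n (.l [P 164])
  .z) (.n (.l [P 217]) .z)))) (.n (.n .z (.n .z (.n (.l [P 213]) .z))) (.n .z (.n (.n (.l [P 175])
  .z) (.n (.l [(221, .negSucc 2)]) .z)))))) (.n (.n (.n (.n (.n (.n (.l [M 49]) (.l [P 225])) .z)
  (.n (.n (.l [M 139]) (.l [M 237])) .z)) .z) (.n (.n (.n (.n (.l [P 85]) .z) .z) .z) (.n (.n (.n
  (.l [M 122, M 123, M 126, M 127, M 221]) .z) .z) (.n (.n (.l [P 172]) .z) (.n (.l [(221,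
  .negSucc 1)]) .z))))) (.n (.n (.n (.n (.n .z (.l [P 226])) (.n .z (.l [P 245]))) (.n (.n .z (.l
  [M 238])) (.n (.l [P 210]) .z))) (.n (.n (.n (.l [M 117]) .z) .z) .z)) (.n (.n (.n (.n (.l [M
  99]) .z) (.n (.l [M 190]) .z)) (.n .z (.n (.l [P 214]) .z))) (.n (.n (.n (.l [M 131]) .z) (.n
  (.l [P 204]) .z)) (.n .z (.n (.l [M 221]) .z))))))) (.n (.n (.n (.n (.n .z (.n (.n (.l [M 137])
  .z) .z)) (.n (.n (.n (.l [M 106]) .z) .z) .z)) (.n (.n (.n (.n (.l [P 81]) .z) .z) .z) (.n .z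
  (.n (.n (.l [P 169]) (.l [P 243])) (.n (.l [(221, .negSucc 1)]) .z))))) (.n (.n (.n .z (.n (.n
  (.l [M 145]) .z) .z)) (.n (.n (.n (.l [M 113]) .z) .z) (.n (.n (.l [P 167]) .z) .z))) (.n (.n
  (.n (.n .z (.l [P 230])) .z) (.n (.n .z (.l [M 240])) .z)) (.n .z (.n .z (.n (.l [(221, .ofNat
  2)]) .z)))))) (.n (.n (.n (.n (.n (.n (.l [M 56]) .z) .z) .z) (.n (.n (.n (.l [M 111]) .z) (.n
  (.l [M 195]) (.l [M 247]))) (.n (.n (.l [P 163]) .z) .z))) (.n (.n (.n .z (.n (.l [M 189]) .z))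
  (.n (.n (.l [M 153]) .z) .z)) (.n .z (.n .z (.n (.l [(221, .ofNat 4)]) .z))))) (.n (.n (.n (.n
  (.n (.l [P 74]) .z) .z) (.n (.n (.l [M 147]) .z) .z)) .z) (.n (.n .z (.n (.n (.l [P 159]) .z)
  .z)) (.n (.n (.n (.l [M 135]) .z) .z) (.n (.n .z (.l [P 244])) (.n (.l [P 221]) .z)))))))⟩⟩

def p2_44 : Step := ⟨.conj 45 0, ⟨(.ofNat 1), .n (.n (.n (.n (.n (.n (.n .z (.n .z (.l [M 242]))) .z) .z) (.n (.n (.n
  (.n (.l [P 64]) .z) (.n (.l [M 173]) .z)) (.n (.n (.l [P 132]) .z) .z)) (.n .z (.n (.n (.l [M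
  153]) .z) (.n (.l [P 212]) .z))))) (.n (.n (.n (.n .z (.n (.l [M 168]) .z)) .z) (.n (.n (.n (.l
  [P 98]) .z) .z) .z)) (.n (.n (.n (.n (.l [M 77]) .z) (.n .z (.l [P 244]))) .z) (.n .z (.n .z (.n
  (.l [(212, .negSucc 2)]) .z)))))) (.n (.n (.n (.n (.n (.n (.l [M 37]) .z) .z) .z) (.n (.n .z (.n
  (.l [P 182]) (.l [P 245]))) .z)) (.n (.n (.n (.n .z (.l [M 220])) (.n (.l [P 175]) .z)) (.n (.n
  .z (.l [P 235])) .z)) (.n (.n .z (.n (.l [P 188]) .z)) (.n .z (.n (.l [(212, .negSucc 1)])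
  .z))))) (.n (.n (.n .z (.n (.n (.l [P 129]) .z) (.n (.l [P 198]) .z))) (.n (.n .z (.n (.l [P
  184]) .z)) (.n (.n (.l [M 152]) .z) (.n (.l [M 209]) .z)))) (.n (.n (.n (.n (.l [M 84]) (.l [M
  222])) .z) (.n (.n .z (.l [P 236])) .z)) (.n (.n (.n (.l [P 112]) .z) (.n (.l [P 191]) .z)) (.n
  .z (.n (.l [M 212]) .z))))))) (.n (.n (.n (.n (.n (.n (.n (.l [M 32]) .z) (.n (.l [M 165]) .z))
  .z) (.n .z (.n (.n (.l [M 145]) .z) .z))) (.n .z (.n (.n (.n (.l [P 105]) .z) .z) (.n .z (.n (.l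
  [(212, .negSucc 1)]) .z))))) (.n (.n (.n (.n (.n (.l [P 55]) .z) .z) .z) (.n (.n (.n .z (.l [M
  227])) .z) .z)) (.n (.n .z (.n (.n (.l [P 140]) .z) .z)) (.n .z (.n (.n (.l [M 160]) .z) (.n (.l
  [(212, .ofNat 2)]) .z)))))) (.n (.n (.n (.n (.n (.n (.l [M 43]) (.l [M 216])) .z) (.n (.n (.l [P
  121, P 123, P 124, P 127, M 212]) (.l [P 233])) (.n (.l [M 196]) .z))) (.n .z (.n (.n (.l [P
  148]) .z) (.n (.l [M 207]) .z)))) (.n (.n (.n (.n (.l [M 73]) .z) .z) (.n .z (.n (.l [M 202])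
  .z))) (.n (.n (.n (.l [P 109]) .z) .z) (.n (.n (.l [M 157]) (.l [M 240])) (.n (.l [(212, .ofNat
  3)]) .z))))) (.n (.n (.n (.n (.n (.l [P 60]) (.l [M 217])) .z) .z) (.n (.n (.n (.l [P 104]) .z)
  (.n (.l [P 186]) (.l [P 246]))) (.n (.n .z (.l [M 239])) .z))) (.n (.n (.n (.n .z (.l [M 224]))
  (.n (.l [P 179]) .z)) .z) (.n (.n (.n (.l [P 116]) .z) (.n (.l [P 193]) .z)) (.n (.n (.l [M
  161]) .z) .z))))))⟩⟩

def p2_45 : Step := ⟨.conj 48 0, ⟨(.ofNat 1), .n (.n (.n (.n (.n (.n .z (.n (.n (.l [P 105]) .z) .z)) (.n (.n .z (.n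
  (.l [P 166]) (.l [M 243]))) .z)) (.n (.n .z (.n (.n (.l [M 118]) .z) (.n (.l [P 188]) .z))) (.n
  (.n (.n (.l [M 91]) (.l [M 220])) .z) (.n .z (.n (.l [P 203]) .z))))) (.n (.n (.n (.n (.n (.l [P
  39]) (.l [P 209])) .z) (.n .z (.n (.l [M 185]) .z))) (.n .z (.n .z (.n (.l [P 198]) .z)))) (.n
  (.n .z (.n (.n (.l [M 121, M 123, M 124, M 125, P 127, M 203]) .z) .z)) (.n (.n (.n .z (.l [P
  223])) (.n (.l [M 178]) .z)) (.n .z (.n (.l [(203, .negSucc 1)]) .z)))))) (.n (.n (.n (.n (.n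
  (.n (.l [M 30]) .z) (.n .z (.l [P 238]))) .z) (.n .z (.n (.n (.l [M 133]) .z) (.n (.l [P 197])
  .z)))) (.n (.n (.n (.n (.l [M 58]) .z) .z) (.n .z (.n (.l [P 190]) .z))) (.n .z (.n .z (.n (.l
  [(203, .negSucc 1)]) .z))))) (.n (.n (.n (.n (.n (.l [M 48]) .z) .z) (.n (.n (.l [M 115]) .z)
  .z)) (.n .z (.n (.n (.l [M 138]) .z) .z))) (.n (.n (.n (.n .z (.l [M 215])) .z) .z) (.n (.n .z
  (.n .z (.l [P 246]))) (.n (.n (.l [P 147]) .z) (.n (.l [M 203]) .z))))))) (.n (.n (.n (.n (.n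
  (.n (.n (.l [M 25]) (.l [P 207])) .z) .z) (.n (.n (.n (.l [P 78]) (.l [M 216])) (.n (.l [M 167])
  .z)) (.n (.n (.l [M 131]) (.l [M 232])) .z))) (.n (.n (.n (.n (.l [M 53]) .z) .z) (.n (.n .z (.l
  [M 230])) .z)) (.n (.n .z (.n (.l [M 176]) (.l [P 245]))) (.n (.n (.l [M 141]) .z) (.n (.l [M
  203]) .z))))) (.n (.n (.n (.n .z (.n (.l [P 155]) .z)) (.n (.n (.l [P 112]) .z) .z)) (.n (.n .z
  (.n (.l [M 172]) .z)) (.n (.n .z (.l [M 234])) .z))) (.n (.n (.n (.n (.l [P 66]) .z) .z) (.n .z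
  (.n (.l [P 193]) .z))) (.n (.n (.n .z (.l [M 224])) (.n (.l [M 180]) .z)) (.n (.n .z (.l [P
  237])) (.n (.l [(203, .ofNat 2)]) .z)))))) (.n (.n (.n (.n (.n .z (.n (.l [P 154]) .z)) .z) .z)
  (.n (.n (.n .z (.n (.l [P 162]) .z)) .z) (.n (.n (.n (.l [P 95]) .z) .z) (.n (.n (.l [M 143])
  .z) (.n (.l [(203, .ofNat 3)]) .z))))) (.n (.n (.n (.n (.n .z (.l [M 210])) (.n (.l [P 158]) (.l
  [P 241]))) .z) (.n (.n (.n (.l [P 90]) .z) .z) .z)) (.n (.n (.n (.n (.l [P 70]) .z) .z) .z) (.n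
  (.n (.n (.l [P 102]) .z) .z) .z)))))⟩⟩

def p2_46 : Step := ⟨.conj 47 0, ⟨(.ofNat 1), .n (.n (.n (.n (.n (.n (.n (.n (.l [M 17]) .z) .z) (.n .z (.n (.l [M
  177]) .z))) (.n (.n (.n (.l [P 67]) .z) .z) (.n (.n (.l [P 122, P 123, P 124, P 125, M 127, P
  199]) (.l [P 229])) (.n (.l [M 191]) .z)))) (.n .z (.n (.n .z (.n .z (.l [M 244]))) (.n (.n (.l
  [M 135]) .z) (.n (.l [M 199]) .z))))) (.n (.n (.n .z (.n (.n (.l [P 106]) .z) .z)) (.n .z (.n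
  (.n .z (.l [P 231])) .z))) (.n (.n (.n (.n (.l [M 59]) .z) (.n (.l [P 156]) .z)) (.n (.n .z (.l
  [P 228])) .z)) (.n (.n (.n (.l [M 92]) .z) .z) (.n (.n .z (.l [M 235])) (.n (.l [(199, .ofNat
  2)]) .z)))))) (.n (.n (.n (.n (.n .z (.n (.l [M 146]) .z)) .z) (.n (.n (.n (.l [P 71]) .z) .z)
  .z)) (.n (.n .z (.n (.n (.l [P 114]) .z) .z)) (.n (.n .z (.n (.l [M 170]) .z)) (.n (.n (.l [P
  136]) .z) (.n (.l [(199, .ofNat 2)]) .z))))) (.n (.n (.n (.n (.n (.l [P 44]) .z) (.n (.l [M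
  151]) .z)) (.n .z (.n .z (.l [M 247])))) (.n (.n (.n (.l [P 80]) .z) .z) .z)) (.n .z (.n (.n (.n
  (.l [M 94]) .z) .z) (.n .z (.n (.l [P 199]) .z))))))) (.n (.n (.n (.n (.n (.n .z (.n .z (.l [M
  236]))) (.n (.n (.l [M 100]) (.l [M 222])) .z)) .z) (.n (.n (.n (.n .z (.l [P 208])) (.n (.l [M
  152]) .z)) (.n .z (.n (.l [M 184]) .z))) (.n (.n (.n (.l [M 86]) (.l [M 217])) .z) (.n .z (.n
  (.l [P 199]) .z))))) (.n (.n (.n (.n (.n (.l [P 40]) (.l [P 205])) .z) (.n .z (.n (.l [M 181])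
  .z))) (.n .z (.n (.n (.l [P 130]) .z) (.n (.l [P 194]) .z)))) (.n (.n (.n (.n .z (.l [P 211]))
  (.n (.l [M 157]) .z)) .z) (.n .z (.n .z (.n (.l [M 199]) .z)))))) (.n (.n (.n (.n (.n (.n (.l [M
  31]) (.l [P 204])) .z) .z) (.n (.n (.n (.l [P 75]) (.l [M 214])) .z) (.n .z (.n (.l [P 192])
  .z)))) (.n (.n (.n (.n (.l [M 54]) .z) (.n .z (.l [P 241]))) (.n (.n (.l [P 116]) .z) .z)) (.n
  (.n (.n .z (.l [M 219])) (.n (.l [P 171]) .z)) (.n .z (.n (.l [(199, .negSucc 1)]) .z))))) (.n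
  (.n (.n .z (.n (.n (.l [P 110]) (.l [P 225])) .z)) (.n .z (.n (.n (.l [P 132]) .z) .z))) (.n (.n
  (.n .z (.n .z (.l [P 242]))) (.n .z (.n (.l [P 189]) .z))) (.n (.n .z (.n (.l [M 174]) .z)) (.n
  (.n (.l [M 142]) .z) (.n (.l [M 199]) .z)))))))⟩⟩

def p2_47 : Step := ⟨.conj 50 0, ⟨(.ofNat 1), .n (.n (.n (.n (.n (.n (.n (.n (.l [M 12]) .z) (.n (.l [M 128]) .z)) (.n
  (.n (.l [P 85]) (.l [P 213])) .z)) (.n (.n (.n (.l [P 56]) .z) .z) (.n .z (.n (.l [M 180])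
  .z)))) (.n (.n .z (.n (.n .z (.l [P 218])) (.n (.l [P 169]) .z))) (.n (.n (.n .z (.l [P 208]))
  .z) (.n (.n .z (.l [P 228])) (.n (.l [M 187]) .z))))) (.n (.n (.n (.n (.n (.l [P 27]) (.l [M
  194])) .z) .z) (.n (.n (.n .z (.l [M 206])) (.n (.l [P 150]) (.l [M 240]))) (.n .z (.n (.l [M
  181]) .z)))) (.n (.n (.n (.n .z (.l [M 200])) .z) .z) (.n (.n .z (.n .z (.l [P 243]))) (.n (.n
  (.l [M 120, M 122, M 123, M 124, M 127, P 187]) (.l [M 230])) (.n (.l [P 187]) .z)))))) (.n (.n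
  (.n (.n (.n (.n .z (.l [M 192])) (.n (.l [M 131]) .z)) (.n (.n (.l [P 87]) (.l [P 215])) (.n (.l
  [M 164]) .z))) (.n (.n (.n .z (.l [P 204])) .z) .z)) (.n .z (.n (.n (.n (.l [M 72]) (.l [P
  210])) .z) (.n .z (.n (.l [P 187]) .z))))) (.n (.n (.n (.n .z (.n .z (.l [P 234]))) .z) (.n .z
  (.n (.n .z (.l [M 226])) .z))) (.n (.n (.n .z (.n (.l [P 143]) .z)) (.n .z (.n (.l [M 174])
  .z))) (.n .z (.n .z (.n (.l [P 187]) .z))))))) (.n (.n (.n (.n (.n .z (.n .z (.n (.l [P 163])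
  .z))) (.n (.n (.n (.l [M 59]) .z) (.n .z (.l [M 238]))) .z)) (.n (.n (.n (.n (.l [M 38]) .z) (.n
  (.l [M 137]) .z)) (.n (.n (.l [M 99]) .z) (.n (.l [M 172]) .z))) (.n .z (.n .z (.n (.l [P 187])
  .z))))) (.n (.n (.n .z (.n (.n (.l [P 93]) .z) .z)) (.n (.n (.n (.l [M 65]) .z) .z) (.n (.n (.l
  [M 115]) .z) .z))) (.n (.n (.n (.n (.l [P 49]) .z) .z) .z) (.n (.n (.n (.l [P 79]) .z) .z) (.n
  .z (.n (.l [M 187]) .z)))))) (.n (.n (.n (.n (.n .z (.n (.l [M 135]) .z)) .z) (.n (.n (.n (.l [P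
  63]) .z) (.n (.l [M 149]) .z)) .z)) (.n (.n (.n .z (.n (.l [M 142]) .z)) (.n (.n (.l [P 101])
  .z) (.n .z (.l [M 247])))) (.n .z (.n .z (.n (.l [(187, .negSucc 1)]) .z))))) (.n (.n (.n (.n
  (.n (.l [M 35]) .z) .z) (.n (.n (.l [P 95]) .z) .z)) (.n .z (.n (.n (.l [M 117]) .z) (.n (.l [M
  183]) .z)))) (.n (.n .z (.n (.n (.l [M 107]) (.l [M 221])) .z)) (.n .z (.n (.n .z (.l [P 231]))
  (.n (.l [M 187]) .z)))))))⟩⟩

def p2_48 : Step := ⟨.conj 49 0, ⟨(.ofNat 1), .n (.n (.n (.n (.n (.n (.n (.n .z (.l [M 173])) .z) .z) .z) (.n (.n (.n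
  (.n (.l [M 26]) .z) (.n .z (.l [P 227]))) (.n (.n (.l [P 75]) .z) .z)) (.n .z (.n (.n (.l [M
  96]) .z) .z)))) (.n (.n (.n .z (.n (.n (.l [P 73]) (.l [M 202])) (.n .z (.l [M 242])))) (.n (.n
  (.n (.l [M 47]) .z) .z) .z)) (.n (.n (.n (.n (.l [P 33]) .z) (.n .z (.l [M 229]))) (.n (.n .z
  (.l [M 207])) .z)) (.n .z (.n .z (.n (.l [M 168]) .z)))))) (.n (.n (.n (.n (.n .z (.n .z (.l [P
  222]))) .z) (.n (.n (.n (.l [P 43]) .z) (.n .z (.l [M 232]))) .z)) (.n (.n (.n .z (.n (.l [P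
  119]) .z)) (.n .z (.n (.l [M 152]) .z))) (.n .z (.n .z (.n (.l [M 168]) .z))))) (.n (.n (.n (.n
  .z (.n (.l [P 112]) .z)) .z) (.n (.n .z (.n (.l [P 130]) (.l [M 235]))) (.n .z (.n (.l [M 162])
  .z)))) (.n (.n .z (.n (.n (.l [M 84]) (.l [M 211])) (.n .z (.l [P 246])))) (.n (.n (.n .z (.l [P
  198])) .z) (.n (.n (.l [M 104]) (.l [P 220])) (.n (.l [M 168]) .z))))))) (.n (.n (.n (.n (.n (.n
  (.n (.l [M 9]) .z) (.n (.l [P 108]) .z)) .z) (.n .z (.n (.n (.l [M 89]) .z) (.n (.l [M 160])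
  .z)))) (.n .z (.n (.n (.n (.l [M 53]) .z) .z) (.n .z (.n (.l [M 168]) .z))))) (.n (.n (.n (.n
  (.n (.l [P 19]) .z) .z) .z) (.n (.n .z (.n (.l [P 129]) .z)) (.n .z (.n (.l [M 161]) .z)))) (.n
  (.n .z (.n (.n (.l [P 83]) .z) .z)) (.n (.n (.n (.l [M 60]) .z) (.n .z (.l [P 239]))) (.n .z (.n
  (.l [P 168]) .z)))))) (.n (.n (.n (.n (.n (.n .z (.l [M 176])) .z) (.n (.n (.l [P 68]) (.l [P
  201])) (.n (.l [M 144]) .z))) (.n (.n (.n .z (.l [M 188])) .z) (.n (.n .z (.l [M 212])) .z)))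
  (.n (.n (.n (.n .z (.l [M 182])) .z) .z) (.n (.n (.n (.l [M 57]) .z) .z) (.n (.n (.l [P 100])
  (.l [P 218])) (.n (.l [P 168]) .z))))) (.n (.n (.n (.n (.n .z (.l [M 177])) (.n (.l [P 116])
  .z)) (.n .z (.n (.l [P 148]) .z))) (.n (.n (.n .z (.l [P 191])) (.n (.l [P 134]) .z)) .z)) (.n
  (.n (.n (.n (.l [P 37]) (.l [P 185])) (.n (.l [P 120, P 121, P 122, P 123, P 126, P 127, M 168])
  .z)) .z) (.n (.n .z (.n (.l [P 141]) .z)) .z)))))⟩⟩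

def p2_49 : Step := ⟨.conj 52 0, ⟨(.ofNat 1), .n (.n (.n (.n (.n (.n (.n .z (.n .z (.l [M 210]))) .z) (.n (.n (.n .z
  (.l [M 167])) (.n (.l [M 103]) (.l [P 221]))) .z)) (.n (.n (.n (.n .z (.l [P 158])) (.n (.l [M
  95]) .z)) (.n (.n .z (.l [P 188])) .z)) (.n (.n (.n (.l [P 36]) (.l [M 175])) .z) .z))) (.n (.n
  (.n (.n .z (.n (.l [M 90]) .z)) (.n .z (.n (.l [P 121, P 122, P 123, P 125, P 126, P 147]) .z)))
  (.n (.n .z (.n (.l [P 105]) .z)) (.n (.n (.l [P 70]) .z) (.n (.l [P 140]) .z)))) (.n (.n .z (.n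
  (.n (.l [M 62]) .z) (.n (.l [P 133]) .z))) (.n (.n .z (.n (.l [P 113]) .z)) (.n .z (.n (.l [M
  147]) .z)))))) (.n (.n (.n (.n (.n (.n (.l [P 5]) (.l [P 154])) .z) .z) (.n .z (.n .z (.n (.l [P
  139]) (.l [P 245]))))) (.n (.n (.n (.n (.l [P 18]) .z) (.n .z (.l [P 216]))) .z) (.n (.n (.n (.l
  [P 39]) .z) (.n .z (.l [M 230]))) .z))) (.n (.n (.n (.n (.n .z (.l [P 155])) .z) (.n (.n (.l [M
  56]) .z) .z)) (.n (.n (.n .z (.l [M 172])) .z) (.n (.n (.l [P 74]) .z) .z))) (.n (.n (.n (.n (.l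
  [M 25]) (.l [P 163])) .z) .z) (.n (.n .z (.n (.l [P 118]) (.l [M 233]))) .z))))) (.n (.n (.n (.n
  (.n (.n (.n .z (.l [P 153])) .z) (.n (.n (.l [M 48]) .z) .z)) (.n (.n (.n (.l [M 29]) .z) .z)
  (.n (.n .z (.l [P 195])) .z))) (.n (.n (.n (.n (.l [P 16]) .z) .z) .z) (.n (.n .z (.n (.l [P
  111]) .z)) (.n (.n (.l [P 76]) (.l [M 203])) .z)))) (.n (.n (.n .z (.n (.n (.l [M 55]) .z) (.n
  .z (.l [P 237])))) (.n .z (.n (.n .z (.l [P 200])) .z))) (.n (.n .z (.n (.n .z (.l [P 193]))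
  .z)) (.n (.n (.n .z (.l [M 179])) (.n (.l [P 117]) .z)) (.n .z (.n (.l [P 147]) .z)))))) (.n (.n
  (.n .z (.n (.n .z (.n .z (.l [P 223]))) .z)) (.n (.n (.n .z (.n (.l [M 97]) .z)) (.n (.n .z (.l
  [P 190])) (.n (.l [P 131]) .z))) (.n .z (.n (.n (.l [P 79]) .z) (.n (.l [P 147]) .z))))) (.n (.n
  (.n (.n .z (.n .z (.l [M 214]))) (.n .z (.n .z (.l [P 238])))) .z) (.n (.n .z (.n (.n (.l [P
  66]) .z) .z)) (.n (.n (.n (.l [P 45]) .z) .z) (.n (.n .z (.l [M 209])) .z))))))⟩⟩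

def p2_50 : Step := ⟨.conj 51 0, ⟨(.ofNat 1), .n (.n (.n (.n (.n (.n (.n .z (.n .z (.l [M 199]))) (.n .z (.n (.l [M
  104]) .z))) (.n (.n (.n .z (.l [M 152])) .z) (.n (.n (.l [M 55]) (.l [M 182])) .z))) (.n (.n (.n
  .z (.n (.l [M 80]) .z)) (.n .z (.n .z (.l [M 235])))) (.n .z (.n (.n (.l [M 62]) .z) .z)))) (.n
  (.n (.n (.n .z (.n (.l [M 75]) .z)) .z) (.n .z (.n (.n .z (.l [M 186])) .z))) (.n (.n (.n (.n
  (.l [M 15]) .z) .z) (.n (.n .z (.l [M 179])) (.n (.l [M 116]) .z))) (.n (.n (.n (.l [M 32]) .z)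
  .z) (.n .z (.n (.l [M 132]) .z)))))) (.n (.n (.n .z (.n (.n .z (.n .z (.l [M 214]))) (.n (.n .z
  (.l [M 184])) .z))) (.n (.n (.n (.n .z (.l [M 146])) .z) (.n .z (.n .z (.l [M 236])))) (.n (.n
  .z (.n (.l [M 97]) (.l [M 222]))) (.n (.n (.l [M 64]) .z) .z)))) (.n (.n (.n .z (.n (.n (.l [M
  44]) .z) (.n (.l [M 110]) (.l [M 233])))) (.n (.n (.n .z (.l [M 157])) .z) .z)) (.n (.n (.n (.n
  (.l [M 17]) .z) .z) .z) (.n (.n (.n (.l [M 34]) .z) .z) .z))))) (.n (.n (.n (.n (.n (.n .z (.n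
  (.l [M 71]) .z)) (.n (.n (.l [M 37]) .z) .z)) .z) (.n (.n (.n (.n .z (.l [M 145])) .z) .z) (.n
  (.n (.n (.l [M 29]) .z) .z) (.n (.n .z (.l [M 191])) .z)))) (.n (.n (.n (.n (.n .z (.l [M 140]))
  .z) (.n .z (.n (.l [M 109]) .z))) (.n (.n (.n .z (.l [M 156])) (.n .z (.l [M 217]))) (.n (.n (.l
  [M 60]) .z) .z))) (.n (.n (.n (.n .z (.l [M 148])) .z) .z) (.n .z (.n (.n (.l [M 67]) .z)
  .z))))) (.n (.n (.n (.n (.n (.n (.l [M 4]) (.l [M 139])) .z) (.n (.n (.l [M 40]) .z) (.n (.l [M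
  106]) .z))) (.n .z (.n .z (.n (.l [M 123, (124, .negSucc 1), M 125, P 132]) (.l [M 244]))))) (.n
  (.n (.n (.n (.l [M 13]) .z) (.n .z (.l [M 209]))) (.n .z (.n (.l [M 114]) .z))) (.n (.n .z (.n
  (.l [M 98]) .z)) (.n (.n .z (.l [M 194])) .z)))) (.n (.n (.n .z (.n (.n .z (.l [M 175])) .z))
  (.n (.n .z (.n .z (.l [M 219]))) (.n (.n .z (.l [M 189])) .z))) (.n (.n (.n (.n .z (.l [M 151]))
  (.n .z (.l [M 212]))) .z) (.n (.n .z (.n (.l [M 103]) .z)) (.n (.n (.l [M 69]) .z) .z))))))⟩⟩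

def p2_51 : Step := ⟨.quot 0 10000, ⟨(.ofNat 1), .n (.n (.n (.n (.n (.n (.n .z (.n .z (.l [P 199]))) (.n .z (.n (.l [P
  104]) .z))) (.n (.n (.n .z (.l [P 152])) .z) (.n (.n (.l [P 55]) (.l [P 182])) .z))) (.n (.n (.n
  .z (.n (.l [P 80]) .z)) (.n .z (.n .z (.l [P 235])))) (.n .z (.n (.n (.l [P 62]) .z) .z)))) (.n
  (.n (.n (.n .z (.n (.l [P 75]) .z)) .z) (.n .z (.n (.n .z (.l [P 186])) .z))) (.n (.n (.n (.n
  (.l [P 15]) .z) .z) (.n (.n .z (.l [P 179])) (.n (.l [P 116]) .z))) (.n (.n (.n (.l [P 32]) .z)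
  .z) (.n .z (.n (.l [P 132]) .z)))))) (.n (.n (.n .z (.n (.n .z (.n .z (.l [P 214]))) (.n (.n .z
  (.l [P 184])) .z))) (.n (.n (.n (.n .z (.l [P 146])) .z) (.n .z (.n .z (.l [P 236])))) (.n (.n
  .z (.n (.l [P 97]) (.l [P 222]))) (.n (.n (.l [P 64]) .z) .z)))) (.n (.n (.n .z (.n (.n (.l [P
  44]) .z) (.n (.l [P 110]) (.l [P 233])))) (.n (.n (.n .z (.l [P 157])) .z) .z)) (.n (.n (.n (.n
  (.l [P 17]) .z) .z) .z) (.n (.n (.n (.l [P 34]) .z) .z) .z))))) (.n (.n (.n (.n (.n (.n .z (.n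
  (.l [P 71]) .z)) (.n (.n (.l [P 37]) .z) .z)) .z) (.n (.n (.n (.n .z (.l [P 145])) .z) .z) (.n
  (.n (.n (.l [P 29]) .z) .z) (.n (.n .z (.l [P 191])) .z)))) (.n (.n (.n (.n (.n .z (.l [P 140]))
  .z) (.n .z (.n (.l [P 109]) .z))) (.n (.n (.n .z (.l [P 156])) (.n .z (.l [P 217]))) (.n (.n (.l
  [P 60]) .z) .z))) (.n (.n (.n (.n .z (.l [P 148])) .z) .z) (.n .z (.n (.n (.l [P 67]) .z)
  .z))))) (.n (.n (.n (.n (.n (.n (.l [P 4]) (.l [P 139])) .z) (.n (.n (.l [P 40]) .z) (.n (.l [P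
  106]) .z))) (.n .z (.n .z (.n (.l [P 123, (124, .ofNat 2), P 125, P 132]) (.l [P 244]))))) (.n
  (.n (.n (.n (.l [P 13]) .z) (.n .z (.l [P 209]))) (.n .z (.n (.l [P 114]) .z))) (.n (.n .z (.n
  (.l [P 98]) .z)) (.n (.n .z (.l [P 194])) .z)))) (.n (.n (.n .z (.n (.n .z (.l [P 175])) .z))
  (.n (.n .z (.n .z (.l [P 219]))) (.n (.n .z (.l [P 189])) .z))) (.n (.n (.n (.n .z (.l [P 151]))
  (.n .z (.l [P 212]))) .z) (.n (.n .z (.n (.l [P 103]) .z)) (.n (.n (.l [P 69]) .z) .z))))))⟩⟩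

def p2_52 : Step := ⟨.comm 39 41, ⟨(.ofNat 1), .n (.n (.n (.n (.n (.n .z (.n .z (.n (.l [M 207]) .z))) (.n (.n (.n (.l
  [P 105]) .z) .z) .z)) (.n (.n .z (.n (.n (.l [M 151]) .z) (.n (.l [M 212]) .z))) (.n .z (.n (.n
  (.l [M 172]) .z) (.n (.l [(224, .negSucc 1)]) .z))))) (.n (.n (.n (.n (.n (.l [P 64]) .z) (.n
  (.l [M 185]) .z)) .z) .z) (.n (.n (.n .z (.n (.l [M 193]) .z)) (.n (.n (.l [M 157]) .z) .z)) (.n
  (.n (.n .z (.l [P 236])) .z) (.n .z (.n (.l [(224, .ofNat 3)]) .z)))))) (.n (.n (.n (.n (.n (.n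
  (.l [P 52]) .z) .z) .z) (.n (.n .z (.n (.l [M 197]) .z)) (.n (.n (.l [M 165]) .z) .z))) (.n (.n
  (.n .z (.n (.l [M 190]) .z)) (.n (.n .z (.l [P 241])) .z)) (.n (.n .z (.n (.l [M 203]) .z)) (.n
  .z (.n (.l [(224, .ofNat 3)]) .z))))) (.n (.n (.n (.n (.n (.l [P 77]) .z) .z) (.n (.n (.l [M
  150]) .z) .z)) (.n .z (.n (.n (.l [M 171]) .z) .z))) (.n (.n (.n (.n .z (.l [P 231])) .z) .z)
  (.n .z (.n (.n (.l [M 179]) .z) (.n (.l [P 224]) .z))))))) (.n (.n (.n (.n (.n (.n (.n (.l [P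
  46]) .z) .z) (.n .z (.n (.l [M 209]) .z))) (.n (.n .z (.n (.l [M 196]) .z)) (.n (.n (.l [M 164])
  (.l [P 242])) .z))) (.n (.n (.n (.n (.l [P 84]) .z) (.n .z (.l [P 246]))) (.n (.n .z (.l [P
  240])) .z)) (.n (.n .z (.n (.l [M 202]) .z)) (.n (.n (.l [M 173]) .z) (.n (.l [(224, .ofNat 2)])
  .z))))) (.n (.n (.n (.n (.n (.l [P 70]) .z) (.n (.l [M 186]) .z)) .z) (.n (.n (.n .z (.l [P
  234])) .z) .z)) (.n (.n (.n (.n (.l [P 98]) .z) .z) (.n (.n (.l [M 158]) .z) .z)) (.n .z (.n (.n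
  (.l [M 178]) (.l [P 244])) (.n (.l [(224, .negSucc 1)]) .z)))))) (.n (.n (.n (.n (.n (.n (.l [P
  58]) .z) (.n (.l [M 184]) (.l [P 245]))) (.n (.n (.l [M 143]) (.l [P 238])) .z)) (.n (.n (.n (.l
  [P 112]) .z) (.n (.l [M 198]) .z)) (.n (.n (.l [M 166]) .z) .z))) (.n (.n (.n (.n (.l [P 91])
  .z) (.n (.l [M 191]) .z)) .z) (.n (.n (.n (.l [M 128]) .z) .z) (.n .z (.n (.l [(224, .negSucc
  3)]) .z))))) (.n (.n (.n (.n (.n (.l [P 78]) (.l [P 228])) .z) .z) (.n (.n (.n (.l [M 120, P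
  127, P 224]) .z) .z) (.n (.n .z (.l [P 243])) (.n (.l [M 220]) .z)))) (.n (.n .z (.n .z (.n (.l
  [M 216]) .z))) (.n (.n (.n (.l [M 136]) .z) .z) (.n (.n (.l [M 180]) .z) .z))))))⟩⟩

def p2_53 : Step := ⟨.conj 54 0, ⟨(.ofNat 1), .n (.n (.n (.n (.n (.n (.n (.n (.l [P 41]) (.l [M 228])) (.n (.l [P
  184]) .z)) .z) (.n (.n .z (.n (.l [M 199]) .z)) (.n (.n (.l [M 167]) .z) (.n (.l [P 220]) .z))))
  (.n (.n (.n (.n (.l [P 86]) .z) (.n (.l [M 192]) .z)) .z) (.n (.n .z (.n (.l [M 205]) .z)) (.n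
  .z (.n (.l [P 225]) .z))))) (.n (.n (.n (.n (.n (.l [M 67]) .z) .z) .z) (.n (.n (.n .z (.l [P
  235])) .z) (.n (.n (.l [P 171]) (.l [M 243])) .z))) (.n (.n (.n (.n (.l [P 99]) .z) (.n (.l [P
  195]) .z)) .z) (.n .z (.n .z (.n (.l [(225, .negSucc 2)]) .z)))))) (.n (.n (.n (.n (.n (.n (.l
  [M 54]) .z) .z) (.n (.n (.l [M 146]) .z) .z)) (.n (.n (.n (.l [P 113]) .z) .z) .z)) (.n (.n (.n
  (.n (.l [P 92]) .z) .z) (.n (.n (.l [M 159]) .z) .z)) (.n (.n (.n (.l [M 130]) .z) .z) (.n (.n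
  (.l [P 178]) (.l [M 244])) (.n (.l [(225, .negSucc 2)]) .z))))) (.n (.n (.n (.n (.n (.l [M 81])
  (.l [P 229])) (.n (.l [P 190]) .z)) (.n (.n .z (.l [M 241])) .z)) (.n (.n (.n (.l [M 120, M 122,
  P 126, P 127, P 225]) .z) .z) .z)) (.n (.n (.n .z (.n .z (.l [P 247]))) .z) (.n (.n (.n (.l [M
  138]) .z) .z) (.n .z (.n (.l [M 225]) .z))))))) (.n (.n (.n (.n (.n (.n .z (.n .z (.l [M 245])))
  (.n (.n (.l [M 144]) (.l [P 239])) .z)) .z) (.n .z (.n .z (.n (.n (.l [P 177]) .z) (.n (.l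
  [(225, .negSucc 1)]) .z))))) (.n (.n (.n (.n (.n (.l [M 74]) .z) (.n (.l [P 189]) .z)) (.n (.n
  (.l [M 152]) .z) (.n (.l [M 213]) .z))) (.n .z (.n .z (.n (.l [M 221]) .z)))) (.n (.n (.n (.n .z
  (.l [P 232])) (.n (.l [P 196]) .z)) (.n (.n .z (.l [M 242])) (.n (.l [M 217]) .z))) (.n (.n .z
  (.n (.l [M 208]) .z)) (.n .z (.n (.l [(225, .ofNat 2)]) .z)))))) (.n (.n (.n (.n (.n (.n (.l [M
  61]) .z) .z) .z) (.n (.n (.n (.l [M 119]) .z) .z) (.n (.n (.l [P 170]) .z) .z))) (.n (.n .z (.n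
  (.n (.l [M 160]) .z) .z)) (.n (.n (.n (.l [P 135]) (.l [P 237])) .z) (.n .z (.n (.l [(225,
  .ofNat 4)]) .z))))) (.n (.n (.n .z (.n (.n (.l [M 154]) .z) (.n (.l [M 214]) .z))) (.n (.n .z
  (.n (.l [M 204]) .z)) (.n (.n (.l [M 175]) .z) .z))) (.n (.n (.n (.n (.l [P 106]) .z) .z) .z)
  (.n (.n .z (.n (.l [M 210]) .z)) (.n (.n (.l [P 183]) .z) (.n (.l [P 225]) .z)))))))⟩⟩

def p2_54 : Step := ⟨.conj 57 0, ⟨(.ofNat 1), .n (.n (.n (.n (.n (.n (.n (.n (.l [P 42]) .z) (.n (.l [P 186]) .z)) (.n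
  (.n (.l [P 145]) (.l [P 239])) .z)) (.n (.n (.n (.l [P 111]) .z) .z) .z)) (.n (.n (.n (.n (.l [P
  87]) (.l [P 231])) .z) .z) (.n (.n .z (.n (.l [M 206]) .z)) (.n (.n .z (.l [M 244])) (.n (.l [P
  226]) .z))))) (.n (.n (.n (.n (.n (.l [M 69]) .z) .z) .z) (.n (.n .z (.n (.l [M 202]) .z)) (.n
  .z (.n (.l [P 222]) .z)))) (.n (.n (.n (.n .z (.l [M 233])) .z) (.n .z (.n (.l [P 218]) .z)))
  (.n (.n (.n (.l [P 137]) .z) (.n (.l [M 208]) .z)) (.n (.n (.l [P 182]) .z) (.n (.l [(226,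
  .negSucc 2)]) .z)))))) (.n (.n (.n (.n (.n (.n .z (.l [P 229])) .z) .z) (.n (.n (.n (.l [P 117])
  .z) .z) (.n (.n (.l [M 169]) (.l [M 243])) .z))) (.n (.n (.n (.n (.l [P 93]) .z) .z) .z) (.n (.n
  (.n (.l [M 134]) (.l [P 237])) .z) (.n (.n (.l [P 180]) .z) (.n (.l [(226, .negSucc 1)]) .z)))))
  (.n (.n (.n (.n .z (.n .z (.l [P 246]))) (.n .z (.n (.l [P 215]) .z))) (.n (.n .z (.n (.l [M
  204]) .z)) .z)) (.n (.n (.n (.n (.l [M 107]) .z) (.n (.l [M 197]) .z)) (.n (.n (.l [M 164]) .z)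
  (.n (.l [P 219]) .z))) (.n (.n (.n .z (.l [P 238])) .z) (.n .z (.n (.l [(226, .negSucc 1)])
  .z))))))) (.n (.n (.n (.n (.n (.n (.n (.l [P 49]) .z) (.n (.l [P 187]) .z)) .z) (.n (.n (.n (.l
  [M 114]) .z) .z) (.n .z (.n (.l [M 221]) .z)))) (.n (.n (.n (.n (.l [P 89]) .z) .z) (.n (.n (.l
  [M 159]) .z) (.n (.l [M 216]) .z))) (.n (.n (.n (.l [P 131]) .z) .z) (.n .z (.n (.l [(226,
  .negSucc 1)]) .z))))) (.n (.n (.n (.n (.n .z (.l [M 230])) .z) (.n (.n .z (.l [P 240])) .z)) (.n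
  (.n (.n (.l [P 122, P 123, M 125, M 126, P 226]) .z) .z) (.n (.n (.l [P 176]) .z) .z))) (.n (.n
  (.n .z (.n .z (.l [P 247]))) (.n (.n (.l [M 163]) .z) .z)) (.n (.n (.n (.l [P 139]) .z) .z) (.n
  (.n (.l [P 183]) .z) (.n (.l [(226, .ofNat 2)]) .z)))))) (.n (.n (.n (.n (.n (.n (.l [M 63]) .z)
  (.n (.l [P 189]) .z)) .z) (.n (.n .z (.n (.l [M 201]) .z)) .z)) (.n (.n .z (.n (.n (.l [M 161])
  .z) .z)) (.n .z (.n .z (.n (.l [(226, .ofNat 4)]) .z))))) (.n (.n (.n (.n (.n (.l [P 82]) .z)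
  (.n (.l [P 194]) .z)) (.n (.n (.l [M 155]) .z) .z)) .z) (.n .z (.n (.n (.n (.l [M 142]) .z) .z)
  (.n .z (.n (.l [P 226]) .z)))))))⟩⟩

def p2_55 : Step := ⟨.conj 56 0, ⟨(.ofNat 1), .n (.n (.n (.n (.n (.n (.n (.n (.l [M 43]) .z) .z) .z) .z) (.n (.n (.n
  (.n (.l [M 88]) .z) .z) (.n (.n (.l [M 156]) .z) .z)) (.n (.n (.n (.l [P 129]) .z) .z) (.n .z
  (.n (.l [M 227]) .z))))) (.n (.n (.n .z (.n (.n (.l [P 153]) (.l [M 240])) .z)) (.n (.n (.n (.l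
  [P 121, P 123, M 125, P 227]) .z) .z) (.n (.n (.l [P 173]) .z) .z))) (.n (.n (.n (.n (.l [P
  101]) .z) (.n .z (.l [M 247]))) .z) (.n .z (.n .z (.n (.l [(227, .ofNat 3)]) .z)))))) (.n (.n
  (.n (.n (.n (.n (.l [M 57]) .z) (.n (.l [P 188]) .z)) (.n (.n (.l [M 148]) .z) (.n (.l [M 212])
  .z))) (.n (.n (.n .z (.l [P 235])) (.n (.l [P 201]) .z)) (.n .z (.n (.l [M 222]) .z)))) (.n (.n
  (.n (.n .z (.l [P 232])) (.n (.l [P 195]) .z)) (.n (.n (.l [P 161]) .z) (.n (.l [M 217]) .z)))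
  (.n .z (.n .z (.n (.l [(227, .ofNat 2)]) .z))))) (.n (.n (.n (.n .z (.n (.l [P 193]) .z)) .z)
  (.n (.n .z (.n (.l [P 205]) .z)) (.n (.n (.l [P 177]) .z) (.n (.l [P 223]) .z)))) (.n (.n (.n
  (.n (.l [P 108]) .z) (.n (.l [P 198]) .z)) (.n (.n (.l [P 165]) .z) .z)) (.n (.n (.n (.l [M
  141]) .z) (.n (.l [P 211]) .z)) (.n (.n .z (.l [M 245])) (.n (.l [(227, .ofNat 2)]) .z)))))))
  (.n (.n (.n (.n (.n (.n (.n (.l [M 50]) .z) .z) .z) (.n (.n (.n (.l [P 116]) .z) .z) (.n (.n (.l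
  [P 169]) .z) .z))) (.n (.n .z (.n (.n (.l [P 160]) .z) .z)) (.n (.n (.n (.l [M 133]) .z) .z) (.n
  .z (.n (.l [(227, .ofNat 2)]) .z))))) (.n (.n (.n (.n (.n (.l [M 76]) .z) (.n .z (.l [M 246])))
  .z) .z) (.n (.n (.n (.n (.l [P 104]) .z) .z) .z) (.n (.n (.n (.l [M 140]) .z) .z) (.n .z (.n (.l
  [(227, .negSucc 2)]) .z)))))) (.n (.n (.n (.n (.n (.n .z (.l [P 230])) .z) (.n (.n (.l [M 149])
  .z) (.n (.l [M 213]) .z))) .z) (.n (.n (.n (.n (.l [P 96]) (.l [P 233])) .z) (.n (.n .z (.l [M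
  242])) (.n (.l [M 218]) .z))) (.n (.n .z (.n (.l [M 207]) .z)) (.n (.n (.l [P 181]) .z) (.n (.l
  [(227, .negSucc 2)]) .z))))) (.n (.n (.n (.n (.n (.l [M 83]) .z) .z) .z) (.n (.n (.n .z (.l [P
  236])) (.n (.l [P 206]) .z)) .z)) (.n (.n (.n (.n (.l [P 109]) (.l [P 234])) (.n (.l [P 200])
  .z)) (.n (.n (.l [P 168]) .z) .z)) (.n (.n (.n .z (.l [M 239])) .z) (.n .z (.n (.l [M 227])
  .z)))))))⟩⟩

def p2_56 : Step := ⟨.conj 59 0, ⟨(.ofNat 1), .n (.n (.n (.n (.n (.n (.n (.n (.l [P 39]) .z) .z) (.n (.n (.l [M 140])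
  .z) .z)) (.n (.n (.n .z (.l [P 232])) (.n .z (.l [M 247]))) .z)) (.n .z (.n (.n (.n (.l [M 121,
  M 125, M 223]) (.l [P 235])) .z) (.n .z (.n (.l [P 223]) .z))))) (.n (.n (.n (.n .z (.n .z (.l
  [M 245]))) (.n (.n (.l [M 147]) (.l [P 238])) (.n (.l [P 211]) .z))) (.n (.n (.n (.l [M 118])
  .z) (.n (.l [P 198]) .z)) (.n (.n (.l [M 166]) .z) .z))) (.n (.n (.n (.n (.l [M 95]) .z) .z) (.n
  (.n (.l [M 156]) .z) .z)) (.n (.n (.n (.l [M 133]) .z) (.n (.l [P 205]) .z)) (.n .z (.n (.l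
  [(223, .negSucc 2)]) .z)))))) (.n (.n (.n (.n (.n (.n (.l [P 51]) .z) .z) (.n .z (.n (.l [P
  209]) .z))) (.n .z (.n .z (.n (.l [P 219]) .z)))) (.n (.n (.n (.n (.l [M 88]) .z) (.n .z (.l [M
  246]))) (.n (.n (.l [M 155]) .z) (.n (.l [P 214]) .z))) (.n .z (.n .z (.n (.l [(223, .negSucc
  1)]) .z))))) (.n (.n (.n (.n (.n (.l [M 76]) .z) .z) (.n (.n (.l [M 149]) .z) .z)) (.n (.n (.n
  .z (.l [P 234])) .z) (.n (.n (.l [M 170]) .z) .z))) (.n (.n (.n (.n (.l [M 102]) .z) .z) (.n (.n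
  (.l [M 158]) .z) .z)) (.n .z (.n .z (.n (.l [(223, .negSucc 1)]) .z))))))) (.n (.n (.n (.n (.n
  (.n (.n (.l [P 45]) (.l [P 227])) .z) (.n (.n (.l [M 141]) .z) .z)) (.n (.n (.n (.l [M 110]) (.l
  [P 233])) (.n (.l [P 195]) .z)) (.n (.n (.l [M 163]) .z) .z))) (.n (.n (.n (.n (.l [M 83]) (.l
  [P 230])) (.n (.l [P 188]) .z)) (.n (.n (.l [M 154]) .z) .z)) (.n (.n .z (.n (.l [P 201]) .z))
  (.n .z (.n (.l [M 223]) .z))))) (.n (.n (.n .z (.n (.n (.l [M 148]) .z) .z)) (.n (.n .z (.n (.l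
  [P 200]) .z)) .z)) (.n (.n (.n (.n (.l [M 97]) .z) (.n (.l [P 193]) .z)) .z) (.n (.n (.n .z (.l
  [P 236])) (.n (.l [P 206]) .z)) (.n .z (.n (.l [(223, .ofNat 3)]) .z)))))) (.n (.n (.n (.n .z
  (.n .z (.n (.l [P 210]) .z))) .z) (.n (.n (.n (.n (.l [M 90]) .z) .z) (.n (.n .z (.l [P 241]))
  (.n (.l [P 215]) .z))) (.n (.n .z (.n (.l [P 203]) .z)) (.n (.n (.l [M 174]) .z) (.n (.l [(223,
  .ofNat 3)]) .z))))) (.n .z (.n (.n (.n (.n (.l [M 103]) .z) .z) (.n (.n (.l [M 162]) .z) .z))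
  (.n (.n (.n .z (.l [P 237])) .z) (.n .z (.n (.l [P 223]) .z)))))))⟩⟩

def p2_57 : Step := ⟨.conj 58 0, ⟨(.ofNat 1), .n (.n (.n (.n (.n (.n (.n (.n (.l [P 34]) .z) .z) (.n (.n (.l [M 132])
  (.l [M 235])) (.n (.l [M 201]) .z))) (.n (.n (.n (.l [P 97]) (.l [P 229])) .z) (.n (.n (.l [P
  155]) .z) .z))) (.n .z (.n (.n (.n (.l [M 114]) .z) .z) (.n (.n (.l [P 163]) .z) (.n (.l [P
  219]) .z))))) (.n (.n (.n (.n .z (.n .z (.l [M 244]))) (.n (.n (.l [M 139]) .z) .z)) (.n (.n .z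
  (.n (.l [P 191]) .z)) .z)) (.n (.n (.n (.n (.l [M 87]) .z) .z) (.n (.n .z (.l [M 238])) (.n (.l
  [M 211]) .z))) (.n (.n (.n (.l [P 121, M 124, M 125, M 126, P 219]) .z) (.n (.l [P 199]) .z))
  (.n .z (.n (.l [(219, .negSucc 2)]) .z)))))) (.n (.n (.n .z (.n (.n (.n (.l [P 103]) .z) .z) (.n
  (.n (.l [P 156]) (.l [M 241])) .z))) (.n (.n (.n (.n (.l [M 80]) .z) .z) .z) (.n .z (.n (.n (.l
  [P 166]) .z) (.n (.l [(219, .negSucc 1)]) .z))))) (.n (.n (.n (.n (.n (.l [M 69]) .z) .z) (.n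
  (.n (.l [M 142]) .z) .z)) (.n (.n (.n .z (.l [P 231])) .z) .z)) (.n (.n (.n (.n (.l [M 94]) .z)
  .z) (.n (.n (.l [M 151]) .z) .z)) (.n .z (.n .z (.n (.l [(219, .negSucc 1)]) .z))))))) (.n (.n
  (.n (.n (.n (.n (.n (.l [P 40]) (.l [P 222])) (.n (.l [P 174]) .z)) (.n (.n (.l [M 134]) .z)
  .z)) (.n (.n .z (.n (.l [P 189]) .z)) (.n .z (.n (.l [M 214]) .z)))) (.n (.n (.n (.n (.l [M 75])
  (.l [P 226])) (.n (.l [P 182]) .z)) (.n (.n (.l [M 146]) .z) (.n (.l [M 209]) .z))) (.n (.n (.n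
  (.l [P 118]) (.l [M 233])) .z) (.n .z (.n (.l [M 219]) .z))))) (.n (.n (.n (.n (.n .z (.l [M
  223])) .z) (.n (.n .z (.l [M 236])) (.n (.l [M 206]) .z))) (.n (.n (.n (.l [P 110]) .z) (.n (.l
  [P 194]) (.l [P 247]))) (.n (.n (.l [P 162]) .z) .z))) (.n (.n (.n .z (.n (.l [P 186]) .z)) .z)
  (.n .z (.n (.n (.l [P 170]) .z) (.n (.l [(219, .ofNat 2)]) .z)))))) (.n (.n (.n (.n (.n (.n (.l
  [M 51]) .z) .z) (.n .z (.n (.l [P 204]) .z))) (.n .z (.n .z (.n (.l [M 215]) .z)))) (.n (.n (.n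
  (.n (.l [M 82]) .z) .z) (.n (.n (.l [P 148]) .z) .z)) (.n (.n .z (.n (.l [P 197]) .z)) (.n .z
  (.n (.l [(219, .ofNat 3)]) .z))))) (.n (.n (.n .z (.n (.n .z (.l [M 237])) .z)) .z) (.n (.n (.n
  .z (.n .z (.l [P 246]))) .z) (.n .z (.n .z (.n (.l [P 219]) .z)))))))⟩⟩

def p2_58 : Step := ⟨.conj 61 0, ⟨(.ofNat 1), .n (.n (.n (.n (.n (.n (.n (.n (.l [M 28]) .z) (.n (.l [P 165]) .z)) .z)
  (.n (.n .z (.n (.l [M 181]) .z)) (.n .z (.n (.l [M 207]) .z)))) (.n (.n (.n (.n (.l [M 65]) .z)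
  .z) (.n (.n (.l [P 135]) .z) .z)) (.n .z (.n .z (.n (.l [M 213]) .z))))) (.n (.n (.n (.n (.n (.l
  [M 50]) (.l [M 217])) .z) .z) (.n (.n (.n (.l [M 99]) (.l [P 227])) .z) (.n (.n (.l [M 150]) .z)
  .z))) (.n .z (.n .z (.n (.n (.l [P 160]) .z) (.n (.l [(213, .ofNat 2)]) .z)))))) (.n (.n (.n (.n
  (.n (.n (.l [P 38]) .z) (.n (.l [P 167]) .z)) (.n (.n (.l [M 121, P 124, P 125, P 126, P 127, M
  213]) (.l [P 232])) (.n (.l [P 196]) .z))) (.n (.n (.n .z (.l [M 225])) (.n (.l [M 183]) .z))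
  (.n .z (.n (.l [M 208]) .z)))) (.n (.n .z (.n (.n (.l [M 137]) .z) .z)) (.n (.n (.n (.l [P 108])
  .z) .z) (.n (.n .z (.l [P 240])) (.n (.l [(213, .ofNat 2)]) .z))))) (.n (.n (.n (.n (.n .z (.l
  [M 218])) (.n (.l [P 172]) .z)) (.n (.n .z (.l [P 234])) .z)) (.n (.n (.n (.l [P 101]) .z) .z)
  (.n (.n .z (.l [P 239])) (.n (.l [P 210]) .z)))) (.n (.n (.n .z (.n (.l [P 178]) .z)) (.n .z (.n
  (.l [P 205]) .z))) (.n (.n (.n (.l [P 115]) .z) (.n (.l [M 192]) .z)) (.n .z (.n (.l [P 213])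
  .z))))))) (.n (.n (.n (.n (.n .z (.n .z (.n (.l [P 195]) .z))) (.n (.n (.n (.l [M 92]) .z) (.n
  .z (.l [M 245]))) .z)) (.n .z (.n .z (.n .z (.n (.l [(213, .ofNat 2)]) .z))))) (.n (.n (.n (.n
  (.n (.l [M 56]) .z) (.n (.l [M 169]) (.l [P 243]))) (.n (.n (.l [M 129]) .z) .z)) .z) (.n (.n
  (.n (.n (.l [M 81]) .z) .z) .z) (.n (.n (.n (.l [P 113]) .z) .z) (.n .z (.n (.l [(213, .negSucc
  1)]) .z)))))) (.n (.n (.n .z (.n (.n (.n (.l [P 96]) .z) .z) (.n (.n (.l [M 149]) .z) .z))) (.n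
  (.n (.n (.n .z (.l [M 221])) (.n (.l [M 177]) .z)) .z) (.n (.n (.n .z (.l [P 230])) (.n .z (.l
  [P 247]))) (.n .z (.n (.l [(213, .negSucc 2)]) .z))))) (.n (.n (.n (.n (.n (.l [M 61]) .z) .z)
  (.n (.n (.l [P 133]) .z) (.n (.l [P 200]) .z))) (.n (.n (.n .z (.l [M 228])) (.n (.l [M 187])
  .z)) (.n (.n (.l [P 153]) .z) .z))) (.n (.n (.n (.n (.l [M 85]) .z) .z) (.n (.n (.l [M 144]) .z)
  .z)) (.n .z (.n (.n .z (.l [P 242])) (.n (.l [M 213]) .z)))))))⟩⟩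

def p2_59 : Step := ⟨.conj 60 0, ⟨(.ofNat 1), .n (.n (.n (.n (.n .z (.n (.n (.n (.l [M 73]) .z) .z) .z)) (.n (.n (.n
  (.n (.l [P 52]) .z) (.n .z (.l [M 240]))) (.n (.n (.l [P 114]) .z) .z)) (.n (.n .z (.n (.l [M
  173]) .z)) (.n (.n (.l [P 137]) .z) (.n (.l [P 202]) .z))))) (.n (.n (.n (.n (.n (.l [P 37]) .z)
  .z) .z) .z) (.n (.n (.n (.n .z (.l [M 212])) (.n (.l [M 161]) .z)) .z) (.n (.n (.n .z (.l [P
  222])) .z) (.n .z (.n (.l [(202, .negSucc 1)]) .z)))))) (.n (.n (.n .z (.n (.n (.n (.l [M 77])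
  .z) (.n .z (.l [M 243]))) (.n (.n (.l [P 129]) .z) .z))) (.n (.n (.n .z (.n (.l [P 159]) .z))
  (.n (.n .z (.l [P 229])) .z)) (.n (.n (.n .z (.l [M 220])) (.n (.l [M 176]) .z)) (.n .z (.n (.l
  [(202, .negSucc 1)]) .z))))) (.n (.n (.n .z (.n .z (.n (.l [M 185]) .z))) (.n (.n .z (.n (.l [P
  171]) (.l [M 244]))) (.n .z (.n (.l [M 197]) .z)))) (.n (.n .z (.n (.n .z (.l [P 231])) (.n (.l
  [M 191]) .z))) (.n (.n (.n .z (.l [M 224])) .z) (.n (.n (.l [P 145]) .z) (.n (.l [M 202])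
  .z))))))) (.n (.n (.n (.n (.n (.n (.n (.l [M 24]) .z) (.n (.l [P 150]) .z)) (.n .z (.n (.l [M
  182]) .z))) (.n .z (.n .z (.n (.l [M 196]) .z)))) (.n .z (.n (.n (.n (.l [M 91]) .z) .z) (.n .z
  (.n (.l [(202, .negSucc 1)]) .z))))) (.n (.n (.n (.n (.n (.l [P 42]) (.l [M 207])) .z) .z) (.n
  (.n (.n (.l [M 84]) (.l [P 218])) .z) .z)) (.n (.n (.n .z (.n .z (.l [M 242]))) (.n (.n (.l [P
  121, P 125, P 126, P 127, M 202]) .z) .z)) (.n (.n (.n (.l [M 98]) .z) .z) (.n (.n (.l [P 144])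
  .z) (.n (.l [P 202]) .z)))))) (.n (.n (.n (.n (.n (.n (.l [P 33]) .z) (.n (.l [P 152]) (.l [M
  239]))) (.n (.n (.l [P 107]) (.l [P 226])) .z)) (.n (.n (.n .z (.l [M 216])) (.n (.l [M 168])
  .z)) (.n (.n (.l [P 134]) .z) .z))) (.n .z (.n (.n (.n (.l [P 93]) .z) .z) (.n .z (.n (.l [(202,
  .ofNat 3)]) .z))))) (.n (.n (.n (.n (.n (.l [P 47]) (.l [M 208])) (.n (.l [P 157]) .z)) (.n (.n
  (.l [P 112]) .z) (.n (.l [M 186]) .z))) (.n (.n (.n (.l [P 89]) .z) .z) .z)) (.n (.n (.n .z (.n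
  (.l [P 164]) .z)) .z) (.n (.n (.n (.l [P 100]) .z) (.n (.l [M 180]) (.l [P 246]))) .z)))))⟩⟩

def p2_60 : Step := ⟨.conj 63 0, ⟨(.ofNat 1), .n (.n (.n (.n (.n (.n .z (.n .z (.n (.l [M 167]) .z))) (.n (.n .z (.n
  (.l [P 151]) .z)) .z)) (.n (.n (.n .z (.n (.l [P 143]) .z)) (.n (.n .z (.l [P 220])) (.n (.l [M
  175]) .z))) (.n (.n .z (.n (.l [P 158]) .z)) (.n .z (.n (.l [M 190]) .z))))) (.n (.n (.n (.n (.n
  (.l [M 29]) .z) (.n (.l [P 138]) .z)) (.n .z (.n (.l [M 171]) .z))) (.n (.n (.n .z (.l [M 209]))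
  .z) (.n .z (.n (.l [M 184]) .z)))) (.n (.n (.n .z (.n (.l [P 147]) .z)) (.n (.n (.l [P 106]) .z)
  (.n (.l [M 178]) .z))) (.n (.n (.n .z (.l [M 214])) .z) (.n .z (.n (.l [(190, .ofNat 2)])
  .z)))))) (.n (.n (.n (.n (.n (.n (.l [M 20]) .z) .z) .z) (.n .z (.n (.n (.l [P 113]) .z) .z)))
  (.n (.n (.n (.n (.l [P 46]) .z) .z) .z) (.n (.n (.n (.l [M 78]) .z) (.n .z (.l [P 243]))) (.n .z
  (.n (.l [(190, .ofNat 2)]) .z))))) (.n (.n (.n (.n (.n (.l [P 36]) (.l [M 197])) .z) (.n (.n (.l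
  [P 99]) .z) .z)) (.n (.n (.n (.l [M 70]) .z) .z) .z)) (.n (.n (.n (.n .z (.l [M 204])) (.n .z
  (.l [M 238]))) .z) (.n (.n .z (.n .z (.l [P 244]))) .z))))) (.n (.n (.n (.n (.n (.n (.n .z (.l
  [M 196])) .z) (.n (.n (.l [P 91]) (.l [P 216])) .z)) (.n .z (.n (.n .z (.l [P 225])) .z))) (.n
  (.n (.n (.n (.l [P 41]) .z) (.n .z (.l [M 237]))) (.n (.n .z (.l [P 221])) .z)) (.n (.n .z (.n
  (.l [M 159]) .z)) (.n (.n (.l [P 121, P 123, P 126, M 190]) .z) (.n (.l [P 190]) .z))))) (.n (.n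
  (.n (.n .z (.n (.l [P 139]) .z)) (.n (.n (.l [P 98]) .z) (.n (.l [M 172]) .z))) (.n (.n (.n .z
  (.l [M 210])) .z) (.n (.n .z (.l [P 228])) .z))) (.n (.n (.n (.n .z (.l [M 203])) .z) (.n (.n .z
  (.l [P 224])) (.n (.l [M 179]) .z))) (.n (.n .z (.n (.l [M 164]) .z)) (.n .z (.n (.l [M 190])
  .z)))))) (.n (.n (.n (.n (.n (.n (.l [M 25]) .z) .z) (.n .z (.n .z (.l [P 245])))) (.n (.n (.n
  (.l [M 66]) .z) (.n (.l [P 154]) (.l [M 241]))) (.n (.n (.l [P 118]) .z) .z))) (.n (.n (.n .z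
  (.n (.l [P 146]) .z)) (.n (.n (.l [P 105]) .z) .z)) (.n (.n (.n (.l [M 79]) .z) .z) (.n .z (.n
  (.l [(190, .negSucc 2)]) .z))))) (.n (.n .z (.n (.n (.n (.l [M 74]) .z) .z) .z)) (.n .z (.n (.n
  (.n (.l [M 86]) .z) .z) (.n (.n (.l [P 131]) .z) .z))))))⟩⟩

def p2_61 : Step := ⟨.conj 62 0, ⟨(.ofNat 1), .n (.n (.n (.n (.n (.n .z (.n .z (.n (.l [P 160]) .z))) (.n .z (.n (.n
  (.l [P 105]) (.l [P 220])) .z))) (.n (.n (.n .z (.n (.l [M 136]) .z)) .z) (.n .z (.n (.n (.l [P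
  113]) .z) (.n (.l [P 184]) .z))))) (.n (.n (.n (.n .z (.n (.l [M 130]) .z)) .z) (.n .z (.n (.n
  .z (.l [P 224])) .z))) (.n (.n (.n (.n (.l [P 46]) .z) (.n (.l [M 140]) .z)) .z) (.n .z (.n .z
  (.n (.l [(184, .negSucc 1)]) .z)))))) (.n (.n (.n (.n (.n (.n (.l [P 17]) .z) .z) (.n .z (.n .z
  (.l [P 244])))) (.n (.n .z (.n (.l [P 146]) .z)) .z)) (.n (.n .z (.n (.n (.l [P 98]) .z) .z))
  (.n (.n .z (.n (.l [P 154]) (.l [M 242]))) (.n .z (.n (.l [(184, .negSucc 1)]) .z))))) (.n (.n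
  (.n (.n (.n (.l [M 32]) (.l [P 191])) .z) (.n (.n (.l [M 92]) .z) (.n .z (.l [P 245])))) (.n (.n
  (.n (.l [P 64]) .z) .z) .z)) (.n (.n (.n (.n .z (.l [P 199])) (.n .z (.l [P 236]))) .z) (.n (.n
  (.n (.l [M 78]) .z) .z) .z))))) (.n (.n (.n (.n (.n .z (.n (.n (.l [M 84]) (.l [M 212])) .z))
  (.n .z (.n (.n (.l [P 106]) .z) .z))) (.n (.n (.n (.n .z (.l [M 196])) (.n .z (.l [P 235]))) (.n
  (.n .z (.l [M 217])) .z)) (.n (.n .z (.n (.l [P 152]) .z)) (.n (.n (.l [M 116]) .z) (.n (.l [M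
  184]) .z))))) (.n (.n (.n (.n (.n (.l [M 29]) .z) (.n (.l [M 132]) .z)) (.n .z (.n (.l [P 165])
  .z))) (.n (.n (.n .z (.l [P 205])) .z) (.n .z (.n (.l [M 179]) .z)))) (.n (.n (.n (.n .z (.l [P
  198])) .z) .z) (.n (.n .z (.n (.l [P 157]) .z)) (.n .z (.n (.l [P 184]) .z)))))) (.n (.n (.n (.n
  (.n (.n (.l [P 21]) (.l [M 190])) .z) (.n (.n (.l [M 86]) (.l [M 214])) .z)) (.n (.n (.n (.l [P
  60]) .z) .z) (.n (.n (.l [M 110]) .z) (.n (.l [M 178]) .z)))) (.n (.n (.n (.n (.l [P 41]) .z)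
  .z) (.n .z (.n (.l [M 171]) .z))) (.n (.n (.n (.l [P 71]) (.l [M 209])) .z) (.n (.n .z (.l [P
  228])) (.n (.l [(184, .ofNat 2)]) .z))))) (.n (.n .z (.n (.n (.n (.l [P 67]) .z) (.n (.l [P
  151]) (.l [M 241]))) (.n (.n .z (.l [P 225])) .z))) (.n (.n .z (.n .z (.n (.l [M 175]) .z))) (.n
  (.n .z (.n (.l [P 158]) .z)) (.n (.n (.l [M 122, M 123, M 124, P 126, P 184]) .z) .z))))))⟩⟩

def p2_62 : Step := ⟨.conj 65 0, ⟨(.ofNat 1), .n (.n (.n (.n (.n (.n .z (.n (.n (.l [M 77]) (.l [M 207])) .z)) (.n (.n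
  (.n (.l [M 48]) .z) .z) .z)) (.n (.n .z (.n (.n (.l [P 87]) .z) (.n (.l [M 161]) .z))) (.n (.n
  (.n .z (.l [M 202])) .z) (.n (.n .z (.l [M 224])) (.n (.l [P 180]) .z))))) (.n (.n (.n (.n (.n
  (.l [M 22]) (.l [P 186])) .z) .z) (.n .z (.n .z (.n (.l [P 173]) .z)))) (.n (.n (.n (.n .z (.l
  [P 193])) .z) (.n (.n (.l [P 93]) .z) .z)) (.n (.n (.n .z (.l [M 206])) (.n (.l [P 150]) .z))
  (.n (.n (.l [P 112]) .z) (.n (.l [M 180]) .z)))))) (.n (.n (.n (.n (.n (.n .z (.l [P 185])) .z)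
  .z) (.n (.n (.n .z (.l [M 197])) .z) (.n (.n (.l [P 101]) .z) .z))) (.n (.n (.n .z (.n (.l [M
  131]) .z)) (.n (.n .z (.l [P 215])) (.n (.l [M 164]) .z))) (.n (.n (.n .z (.l [M 203])) .z) (.n
  .z (.n (.l [M 180]) .z))))) (.n (.n .z (.n (.n .z (.n (.l [P 143]) (.l [M 238]))) (.n (.n (.l [M
  107]) .z) .z))) (.n (.n .z (.n .z (.n (.l [P 166]) .z))) (.n .z (.n (.n (.l [M 117]) .z) (.n (.l
  [M 180]) .z))))))) (.n (.n (.n (.n (.n (.n (.n (.l [M 12]) .z) .z) (.n .z (.n (.l [M 155]) (.l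
  [P 243])))) (.n (.n (.n (.l [P 52]) .z) (.n (.l [M 137]) .z)) (.n (.n .z (.l [P 218])) (.n (.l
  [M 172]) .z)))) (.n (.n (.n (.n (.l [P 33]) .z) .z) (.n (.n (.l [P 91]) .z) .z)) (.n (.n .z (.n
  .z (.l [M 240]))) (.n .z (.n (.l [M 180]) .z))))) (.n (.n .z (.n (.n (.n (.l [P 58]) .z) .z)
  .z)) (.n (.n (.n (.n (.l [M 42]) .z) (.n .z (.l [P 234]))) (.n (.n (.l [P 95]) .z) .z)) (.n (.n
  (.n (.l [M 70]) .z) .z) (.n (.n (.l [M 115]) (.l [M 226])) (.n (.l [P 180]) .z)))))) (.n (.n (.n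
  (.n (.n .z (.n (.l [M 120, M 122, M 123, M 124, P 126, P 127, M 180]) (.l [M 230]))) .z) (.n (.n
  .z (.n (.l [P 141]) .z)) .z)) (.n (.n (.n .z (.n (.l [P 134]) .z)) (.n .z (.n .z (.l [P 246]))))
  (.n .z (.n .z (.n (.l [(180, .ofNat 2)]) .z))))) (.n (.n (.n (.n (.n (.l [P 30]) (.l [M 187]))
  (.n (.l [M 128]) (.l [P 231]))) .z) (.n (.n (.n (.l [P 63]) .z) .z) (.n .z (.n (.l [P 176])
  .z)))) (.n (.n .z (.n (.n .z (.l [P 216])) .z)) (.n (.n (.n (.l [M 72]) .z) .z) .z)))))⟩⟩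

def p2_63 : Step := ⟨.conj 64 0, ⟨(.ofNat 1), .n (.n (.n (.n (.n (.n (.n (.n (.l [M 9]) (.l [P 181])) (.n (.l [P 116])
  .z)) (.n .z (.n .z (.l [M 242])))) (.n .z (.n (.n (.l [M 96]) .z) (.n (.l [M 168]) .z)))) (.n
  (.n (.n (.n (.l [P 31]) .z) .z) .z) (.n (.n .z (.n .z (.l [P 239]))) .z))) (.n (.n (.n .z (.n
  (.n (.l [M 81]) (.l [P 208])) .z)) (.n (.n (.n (.l [P 54]) .z) .z) (.n (.n (.l [P 100]) (.l [P
  218])) .z))) (.n (.n (.n (.n (.l [M 38]) .z) .z) (.n (.n .z (.l [P 213])) .z)) (.n .z (.n .z (.n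
  (.l [P 177]) .z)))))) (.n (.n (.n (.n (.n .z (.n (.l [P 119]) .z)) (.n (.n (.l [P 75]) .z) (.n
  (.l [M 152]) .z))) (.n (.n (.n (.l [M 50]) .z) .z) .z)) (.n (.n .z (.n (.n (.l [M 89]) .z) .z))
  (.n .z (.n (.n (.l [P 108]) (.l [P 222])) (.n (.l [P 177]) .z))))) (.n (.n (.n (.n .z (.n (.l [P
  120, P 121, P 122, P 123, M 127, P 177]) .z)) (.n (.n .z (.l [M 211])) .z)) (.n (.n (.n (.l [M
  57]) .z) .z) (.n .z (.n (.l [P 170]) .z)))) (.n (.n (.n .z (.n (.l [P 130]) .z)) (.n (.n (.l [P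
  92]) .z) (.n .z (.l [M 247])))) (.n (.n (.n (.l [P 68]) (.l [M 205])) .z) (.n (.n .z (.l [M
  225])) (.n (.l [P 177]) .z))))))) (.n (.n (.n (.n (.n (.n .z (.n .z (.l [P 227]))) .z) (.n (.n
  .z (.n .z (.l [M 235]))) .z)) (.n (.n .z (.n .z (.n (.l [M 160]) .z))) (.n (.n (.n (.l [P 61])
  .z) .z) (.n .z (.n (.l [P 177]) .z))))) (.n (.n (.n (.n (.n (.l [M 23]) .z) (.n .z (.l [M
  229]))) .z) (.n .z (.n .z (.n (.l [P 169]) .z)))) (.n (.n (.n .z (.n (.l [P 129]) .z)) .z) (.n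
  (.n (.n (.l [P 67]) .z) .z) (.n .z (.n (.l [M 177]) .z)))))) (.n (.n (.n (.n (.n (.n .z (.l [P
  183])) .z) .z) (.n (.n (.n .z (.l [P 195])) .z) (.n (.n .z (.l [P 217])) .z))) (.n (.n (.n (.n
  .z (.l [P 189])) (.n .z (.l [M 232]))) .z) (.n (.n (.n .z (.l [P 201])) (.n (.l [M 144]) .z))
  (.n .z (.n (.l [M 177]) .z))))) (.n (.n (.n .z (.n (.n (.l [P 83]) .z) (.n (.l [M 156]) .z)))
  (.n (.n (.n .z (.l [M 199])) (.n (.l [M 142]) .z)) (.n (.n (.l [M 104]) .z) .z))) (.n (.n (.n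
  (.n (.l [M 44]) (.l [M 192])) (.n (.l [M 135]) .z)) .z) (.n (.n .z (.n (.l [M 149]) .z)) (.n .z
  (.n (.l [M 177]) .z)))))))⟩⟩

def p2_64 : Step := ⟨.conj 67 0, ⟨(.ofNat 1), .n (.n (.n (.n (.n (.n (.n (.n (.l [M 5]) .z) (.n (.l [P 103]) .z)) (.n
  (.n (.l [M 62]) (.l [P 195])) (.n .z (.l [M 238])))) (.n (.n (.n .z (.l [P 183])) .z) (.n .z (.n
  (.l [M 155]) .z)))) (.n (.n (.n (.n .z (.l [M 174])) .z) (.n (.n .z (.l [P 201])) .z)) (.n (.n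
  (.n (.l [M 49]) (.l [P 189])) .z) (.n (.n .z (.l [M 214])) .z)))) (.n (.n (.n (.n .z (.n .z (.l
  [P 221]))) (.n .z (.n (.l [M 142]) .z))) (.n (.n .z (.n (.l [M 121, M 122, M 123, M 127, P 163])
  (.l [P 233]))) (.n (.n (.l [P 87]) .z) (.n (.l [M 156]) .z)))) (.n (.n .z (.n .z (.n (.l [M
  149]) .z))) (.n (.n (.n (.l [M 56]) .z) (.n (.l [M 135]) (.l [M 237]))) (.n (.n (.l [P 97]) .z)
  (.n (.l [P 163]) .z)))))) (.n (.n (.n (.n (.n (.n .z (.l [M 170])) .z) (.n .z (.n (.l [M 139])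
  .z))) (.n .z (.n (.n .z (.l [M 210])) (.n .z (.l [M 247]))))) (.n (.n (.n (.n (.l [M 27]) .z)
  (.n .z (.l [P 226]))) .z) (.n (.n (.n (.l [P 51]) .z) .z) (.n (.n (.l [P 95]) .z) .z)))) (.n (.n
  (.n (.n .z (.n .z (.l [M 223]))) .z) (.n (.n (.n .z (.l [P 187])) .z) .z)) (.n (.n (.n (.n (.l
  [P 35]) .z) (.n (.l [M 118]) .z)) (.n (.n (.l [P 79]) .z) .z)) (.n .z (.n .z (.n (.l [P 163])
  .z))))))) (.n (.n (.n (.n (.n (.n (.n .z (.l [M 169])) .z) (.n (.n (.l [M 63]) .z) .z)) (.n (.n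
  (.n (.l [P 40]) .z) .z) .z)) (.n (.n (.n (.n (.l [M 23]) .z) (.n (.l [M 111]) .z)) (.n (.n (.l
  [P 74]) .z) (.n (.l [M 147]) .z))) (.n .z (.n (.n .z (.l [M 215])) .z)))) (.n (.n (.n .z (.n (.n
  (.l [M 69]) (.l [P 200])) .z)) (.n (.n (.n (.l [P 45]) .z) .z) (.n (.n (.l [P 90]) .z) .z))) (.n
  (.n (.n .z (.n (.l [M 117]) .z)) (.n (.n .z (.l [P 206])) .z)) (.n (.n (.n .z (.l [P 194])) .z)
  (.n .z (.n (.l [M 163]) .z)))))) (.n (.n .z (.n (.n .z (.n (.n (.l [M 76]) (.l [M 204])) .z))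
  (.n (.n .z (.n (.l [M 131]) .z)) (.n .z (.n (.l [M 163]) .z))))) (.n .z (.n (.n (.n .z (.n .z
  (.l [P 230]))) (.n (.n (.l [P 82]) .z) .z)) (.n .z (.n (.n .z (.l [M 219])) (.n (.l [M 163])
  .z)))))))⟩⟩

def p2_65 : Step := ⟨.conj 66 0, ⟨(.ofNat 1), .n (.n (.n (.n (.n (.n (.n .z (.n .z (.l [M 211]))) .z) (.n (.n (.n .z
  (.l [M 168])) (.n .z (.l [P 222]))) .z)) (.n .z (.n (.n (.n (.l [P 37]) .z) .z) (.n (.n (.l [P
  76]) .z) .z)))) (.n (.n (.n (.n .z (.n .z (.l [M 212]))) (.n (.n (.l [M 55]) (.l [P 186])) (.n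
  .z (.l [M 236])))) (.n (.n (.n (.l [P 34]) .z) .z) .z)) (.n (.n (.n (.n (.l [M 22]) .z) (.n .z
  (.l [P 219]))) (.n (.n .z (.l [P 193])) .z)) (.n (.n (.n (.l [P 43]) .z) (.n (.l [M 116]) .z))
  (.n .z (.n (.l [M 148]) .z)))))) (.n (.n (.n .z (.n (.n .z (.n .z (.l [P 223]))) (.n (.n .z (.l
  [P 198])) .z))) (.n (.n (.n (.n .z (.l [M 162])) (.n (.l [M 97]) .z)) (.n .z (.n (.l [M 132])
  .z))) .z)) (.n (.n (.n .z (.n (.n (.l [M 57]) .z) .z)) (.n (.n (.n .z (.l [M 173])) (.n (.l [M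
  110]) .z)) (.n (.n (.l [P 75]) .z) .z))) (.n (.n (.n (.n (.l [M 26]) .z) .z) (.n (.n (.l [M 64])
  .z) .z)) (.n .z (.n (.n .z (.l [M 209])) (.n (.l [M 148]) .z))))))) (.n (.n (.n (.n (.n (.n (.n
  (.l [M 4]) .z) (.n (.l [P 88]) .z)) (.n .z (.n .z (.l [M 235])))) (.n (.n .z (.n (.l [M 104])
  .z)) (.n (.n (.l [P 69]) .z) (.n (.l [M 140]) .z)))) (.n (.n (.n (.n .z (.l [M 161])) .z) (.n
  (.n (.l [M 60]) .z) .z)) (.n (.n (.n (.l [P 39]) .z) .z) .z))) (.n (.n .z (.n (.n .z (.n (.l [M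
  109]) (.l [P 227]))) .z)) (.n .z (.n (.n .z (.n .z (.l [M 233]))) (.n (.n (.l [P 83]) .z) (.n
  (.l [P 148]) .z)))))) (.n (.n (.n (.n (.n (.n .z (.l [M 155])) .z) (.n (.n (.l [M 51]) .z) (.n
  (.l [M 123, M 124, M 126, M 127, P 148]) .z))) (.n .z (.n .z (.n (.l [M 141]) (.l [M 246])))))
  (.n (.n (.n (.n (.l [M 19]) .z) .z) (.n (.n .z (.l [P 191])) (.n (.l [M 134]) .z))) (.n (.n .z
  (.n (.l [M 112]) .z)) (.n (.n (.l [P 80]) (.l [M 206])) .z)))) (.n (.n (.n (.n (.n .z (.l [M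
  156])) .z) (.n (.n .z (.l [P 188])) .z)) (.n .z (.n (.n .z (.l [M 201])) .z))) (.n (.n (.n (.n
  .z (.l [M 166])) (.n (.l [M 103]) .z)) .z) (.n (.n (.n .z (.l [P 182])) .z) .z)))))⟩⟩

def p2_66 : Step := ⟨.conj 69 0, ⟨(.ofNat 1), .n (.n (.n (.n (.n .z (.n (.n .z (.n (.l [P 88]) (.l [P 213]))) .z)) (.n
  (.n .z (.n (.n (.l [P 45]) .z) .z)) (.n (.n (.n (.l [P 28]) (.l [P 160])) .z) .z))) (.n (.n (.n
  (.n (.n .z (.l [P 140])) .z) (.n (.n .z (.l [P 172])) (.n (.l [P 108]) .z))) (.n (.n (.n (.l [P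
  25]) .z) .z) (.n (.n (.l [P 58]) .z) (.n .z (.l [P 245]))))) (.n (.n (.n .z (.n .z (.l [P
  210]))) (.n (.n (.l [P 50]) .z) .z)) .z))) (.n (.n (.n (.n (.n (.n (.l [P 3]) .z) (.n .z (.l [P
  200]))) (.n (.n (.l [P 39]) .z) (.n (.l [P 105]) (.l [P 230])))) (.n (.n (.n .z (.l [P 154]))
  (.n (.l [P 90]) .z)) (.n .z (.n (.l [P 124, (125, .ofNat 2), P 126, P 133]) .z)))) (.n (.n (.n
  .z (.n .z (.l [P 207]))) (.n (.n (.l [P 48]) .z) (.n (.l [P 113]) .z))) (.n .z (.n (.n .z (.l [P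
  193])) .z)))) (.n (.n (.n (.n (.n .z (.l [P 141])) .z) .z) (.n .z (.n (.n (.l [P 61]) (.l [P
  188])) .z))) (.n (.n (.n (.n .z (.l [P 149])) .z) .z) (.n (.n .z (.n (.l [P 102]) (.l [P 227])))
  .z))))) (.n (.n (.n (.n .z (.n (.n (.n (.l [P 21]) (.l [P 153])) .z) (.n (.n (.l [P 56]) .z)
  .z))) (.n .z (.n (.n .z (.n (.l [P 96]) .z)) .z))) (.n (.n (.n (.n .z (.n (.l [P 76]) (.l [P
  203]))) (.n (.n (.l [P 43]) .z) (.n .z (.l [P 232])))) .z) (.n (.n (.n (.n (.l [P 16]) .z) .z)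
  .z) (.n (.n (.n .z (.l [P 165])) (.n (.l [P 101]) .z)) (.n (.n .z (.l [P 195])) (.n (.l [P 133])
  .z)))))) (.n (.n .z (.n (.n (.n (.n .z (.l [P 147])) (.n (.l [P 83]) .z)) (.n (.n .z (.l [P
  178])) (.n (.l [P 115]) .z))) (.n (.n .z (.n .z (.l [P 223]))) (.n (.n (.l [P 65]) .z) .z))))
  (.n (.n (.n (.n .z (.n .z (.l [P 205]))) (.n .z (.n .z (.l [P 234])))) (.n (.n (.n .z (.l [P
  158])) (.n (.l [P 95]) .z)) .z)) (.n (.n (.n (.n (.l [P 18]) .z) .z) (.n (.n (.l [P 53]) .z)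
  .z)) (.n (.n (.n .z (.l [P 167])) .z) (.n (.n .z (.l [P 198])) .z))))))⟩⟩

def p2_67 : Step := ⟨.comm 53 54, ⟨(.ofNat 1), .n (.n (.n (.n (.n .z (.n (.n .z (.n (.l [P 157]) .z)) .z)) (.n (.n (.n
  (.n (.l [M 46]) .z) (.n (.l [P 150]) .z)) (.n (.n (.l [M 106]) .z) .z)) (.n (.n .z (.n (.l [P
  165]) .z)) (.n .z (.n (.l [M 196]) .z))))) (.n (.n (.n (.n (.n (.l [M 32]) .z) (.n (.l [P 144])
  .z)) .z) (.n (.n (.n .z (.l [M 212])) .z) .z)) (.n (.n (.n .z (.n (.l [P 153]) .z)) .z) (.n (.n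
  (.n .z (.l [M 217])) .z) (.n .z (.n (.l [(196, .ofNat 2)]) .z)))))) (.n (.n (.n (.n (.n (.n (.l
  [M 24]) .z) .z) (.n (.n (.l [M 98]) (.l [M 220])) .z)) (.n (.n .z (.n (.l [P 159]) .z)) .z)) (.n
  (.n .z (.n (.n .z (.l [M 225])) .z)) (.n (.n (.n (.l [M 84]) .z) (.n (.l [P 167]) .z)) (.n .z
  (.n (.l [(196, .ofNat 2)]) .z))))) (.n (.n (.n (.n (.n .z (.l [M 202])) .z) (.n (.n .z (.l [M
  224])) (.n (.l [P 178]) .z))) (.n (.n (.n (.l [M 77]) .z) .z) (.n .z (.n (.l [P 190]) .z)))) (.n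
  (.n (.n (.n .z (.l [M 208])) (.n .z (.l [M 240]))) (.n (.n .z (.l [M 228])) (.n (.l [P 184])
  .z))) (.n (.n (.n (.l [M 91]) .z) (.n (.l [P 171]) .z)) .z))))) (.n (.n (.n (.n (.n .z (.n .z
  (.n (.l [P 175]) .z))) .z) (.n (.n (.n .z (.n .z (.l [M 239]))) .z) (.n .z (.n (.n (.l [P 129])
  .z) (.n (.l [(196, .ofNat 2)]) .z))))) (.n (.n (.n (.n (.n (.l [M 36]) .z) (.n (.l [P 145]) .z))
  .z) (.n (.n (.n .z (.l [M 213])) .z) .z)) (.n (.n (.n (.n .z (.l [M 207])) .z) (.n (.n (.l [M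
  113]) .z) .z)) (.n .z (.n .z (.n (.l [M 196]) .z)))))) (.n (.n (.n (.n (.n (.n (.l [M 28]) .z)
  .z) (.n (.n (.l [M 99]) (.l [M 221])) .z)) (.n (.n (.n (.l [M 73]) .z) (.n (.l [P 160]) (.l [M
  242]))) (.n (.n (.l [P 121, M 126, P 196]) .z) .z))) (.n (.n (.n .z (.n (.l [P 152]) .z)) .z)
  (.n (.n (.n (.l [M 85]) (.l [M 216])) (.n .z (.l [M 244]))) (.n .z (.n (.l [(196, .negSucc 2)])
  .z))))) (.n (.n (.n (.n (.n (.l [M 41]) .z) .z) (.n (.n (.l [M 105]) .z) (.n (.l [P 179]) .z)))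
  (.n (.n (.n (.l [M 81]) .z) (.n (.l [P 164]) (.l [M 243]))) .z)) (.n .z (.n (.n (.n (.l [M 92])
  .z) (.n (.l [P 172]) (.l [M 245]))) (.n (.n (.l [P 137]) .z) .z))))))⟩⟩

def p2_68 : Step := ⟨.conj 71 0, ⟨(.ofNat 1), .n (.n (.n (.n (.n (.n .z (.n (.n (.l [P 98]) (.l [P 220])) (.n (.l [P
  176]) .z))) (.n (.n (.n (.l [M 66]) .z) .z) .z)) (.n (.n (.n .z (.n .z (.l [M 238]))) (.n .z (.n
  (.l [P 182]) .z))) (.n (.n .z (.n (.l [M 166]) .z)) (.n (.n (.l [P 131]) .z) (.n (.l [P 197])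
  .z))))) (.n (.n (.n (.n (.n (.l [P 34]) .z) .z) .z) (.n .z (.n .z (.n (.l [P 191]) .z)))) (.n
  (.n (.n (.n .z (.l [M 209])) (.n (.l [M 155]) .z)) (.n (.n (.l [M 114]) .z) (.n (.l [P 185])
  .z))) (.n (.n (.n (.l [P 91]) (.l [P 219])) (.n (.l [M 171]) .z)) (.n .z (.n (.l [(197, .negSucc
  1)]) .z)))))) (.n (.n (.n .z (.n (.n (.n (.l [M 70]) .z) .z) (.n (.n (.l [P 121, P 123, M 125, M
  126, M 127, P 197]) .z) .z))) (.n (.n (.n (.n (.l [M 52]) .z) .z) .z) (.n .z (.n .z (.n (.l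
  [(197, .negSucc 1)]) .z))))) (.n (.n (.n (.n (.n (.l [M 42]) .z) .z) (.n (.n (.l [M 107]) .z)
  .z)) .z) (.n .z (.n .z (.n (.n (.l [P 139]) .z) (.n (.l [M 197]) .z))))))) (.n (.n (.n (.n (.n
  (.n (.n (.l [M 20]) (.l [P 202])) (.n (.l [P 143]) .z)) .z) (.n (.n .z (.n (.l [M 159]) .z)) (.n
  (.n .z (.l [M 229])) (.n (.l [M 190]) .z)))) (.n (.n (.n (.n (.l [M 47]) .z) .z) (.n (.n .z (.l
  [M 226])) .z)) (.n (.n (.n .z (.l [P 216])) (.n .z (.l [P 244]))) (.n (.n (.l [M 134]) .z) (.n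
  (.l [M 197]) .z))))) (.n (.n (.n (.n (.n .z (.l [M 203])) .z) (.n (.n .z (.l [P 224])) (.n (.l
  [P 180]) .z))) (.n (.n (.n (.l [M 78]) (.l [P 215])) (.n (.l [M 164]) (.l [P 243]))) (.n (.n .z
  (.l [M 231])) .z))) (.n (.n (.n .z (.n .z (.l [M 241]))) (.n (.n (.l [P 118]) .z) (.n (.l [P
  186]) .z))) (.n .z (.n (.n (.l [P 138]) .z) (.n (.l [P 197]) .z)))))) (.n (.n (.n (.n (.n (.n
  (.l [P 30]) .z) (.n (.l [P 146]) (.l [M 237]))) (.n .z (.n .z (.l [M 246])))) (.n (.n .z (.n (.l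
  [M 162]) .z)) .z)) (.n (.n .z (.n (.n (.l [M 112]) .z) .z)) (.n (.n (.n (.l [P 87]) .z) .z) (.n
  .z (.n (.l [(197, .ofNat 3)]) .z))))) (.n (.n (.n (.n (.n .z (.l [M 204])) (.n (.l [P 151]) .z))
  .z) (.n (.n (.n (.l [P 82]) .z) .z) .z)) (.n .z (.n (.n (.n (.l [P 94]) .z) .z) .z)))))⟩⟩

def p2_69 : Step := ⟨.conj 70 0, ⟨(.ofNat 1), .n (.n (.n (.n (.n (.n (.n (.n (.l [M 21]) .z) .z) .z) (.n .z (.n (.n
  (.l [P 133]) (.l [P 232])) (.n (.l [M 198]) .z)))) (.n .z (.n (.n (.n (.l [P 92]) .z) (.n .z (.l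
  [M 245]))) (.n .z (.n (.l [M 205]) .z))))) (.n (.n (.n .z (.n (.n (.l [P 113]) (.l [M 228]))
  .z)) (.n (.n (.n (.l [P 86]) .z) .z) (.n (.n (.l [M 136]) (.l [P 234])) .z))) (.n (.n (.n (.n
  (.l [M 65]) .z) .z) .z) (.n .z (.n .z (.n (.l [(205, .ofNat 2)]) .z)))))) (.n (.n (.n (.n (.n
  (.n (.l [P 31]) .z) (.n (.l [M 154]) .z)) (.n (.n (.l [M 110]) .z) (.n (.l [P 184]) (.l [P
  247])))) (.n (.n .z (.n (.l [P 170]) .z)) (.n .z (.n (.l [M 199]) .z)))) (.n (.n (.n .z (.n .z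
  (.l [M 242]))) (.n (.n (.l [M 122, M 123, P 125, P 126, P 127, M 205]) .z) .z)) (.n .z (.n (.n
  .z (.l [P 236])) (.n (.l [(205, .ofNat 2)]) .z))))) (.n (.n (.n (.n (.n (.l [P 50]) (.l [M
  211])) (.n (.l [M 158]) .z)) .z) (.n (.n (.n (.l [P 88]) .z) .z) (.n (.n .z (.l [P 235])) .z)))
  (.n .z (.n (.n (.n (.l [M 102]) .z) .z) (.n .z (.n (.l [P 205]) .z))))))) (.n (.n (.n (.n (.n .z
  (.n (.n (.l [M 108]) (.l [M 227])) .z)) (.n (.n (.n .z (.l [P 217])) .z) (.n (.n (.l [P 135])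
  .z) .z))) (.n (.n (.n (.n .z (.l [P 213])) (.n (.l [M 160]) .z)) .z) (.n (.n .z (.n (.l [P 177])
  .z)) (.n .z (.n (.l [P 205]) .z))))) (.n (.n (.n (.n (.n (.l [P 45]) .z) (.n (.l [M 156]) (.l [M
  241]))) (.n (.n (.l [M 116]) .z) .z)) (.n .z (.n .z (.n (.l [P 200]) .z)))) (.n (.n (.n (.n (.l
  [M 67]) .z) (.n (.l [M 165]) .z)) .z) (.n (.n .z (.n (.l [P 181]) .z)) (.n .z (.n (.l [(205,
  .negSucc 1)]) .z)))))) (.n (.n (.n (.n (.n (.n .z (.l [P 210])) .z) .z) (.n (.n (.n (.l [P 83])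
  .z) .z) .z)) (.n (.n (.n (.n (.l [M 61]) (.l [P 214])) .z) (.n .z (.n (.l [M 192]) .z))) (.n (.n
  (.n .z (.l [M 223])) (.n (.l [P 178]) .z)) (.n .z (.n (.l [(205, .negSucc 1)]) .z))))) (.n (.n
  .z (.n (.n .z (.n (.l [P 174]) .z)) (.n (.n (.l [P 140]) .z) .z))) (.n (.n (.n (.n (.l [M 71])
  .z) .z) (.n (.n (.l [M 130]) .z) (.n (.l [P 195]) .z))) (.n (.n (.n .z (.l [M 225])) .z) (.n (.n
  (.l [M 149]) .z) (.n (.l [M 205]) .z)))))))⟩⟩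

def p2_70 : Step := ⟨.conj 73 0, ⟨(.ofNat 1), .n (.n (.n (.n (.n (.n (.n (.n (.l [P 22]) .z) .z) (.n (.n (.l [M 109])
  (.l [P 227])) .z)) (.n (.n (.n (.l [P 76]) (.l [P 218])) .z) .z)) (.n .z (.n (.n (.n (.l [M 93])
  (.l [P 222])) .z) (.n (.n .z (.l [M 236])) (.n (.l [P 206]) .z))))) (.n (.n (.n (.n .z (.n .z
  (.l [M 240]))) (.n (.n (.l [M 117]) .z) .z)) (.n (.n (.n (.l [M 87]) .z) (.n (.l [M 173]) .z))
  .z)) (.n .z (.n (.n (.n (.l [M 101]) .z) (.n (.l [M 181]) (.l [M 246]))) (.n (.n (.l [P 148])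
  .z) (.n (.l [(206, .negSucc 1)]) .z)))))) (.n (.n (.n (.n (.n (.n .z (.l [P 211])) (.n (.l [P
  155]) .z)) (.n .z (.n (.l [M 186]) .z))) (.n (.n (.n .z (.l [P 219])) .z) (.n (.n .z (.l [M
  234])) .z))) (.n (.n (.n (.n .z (.l [P 215])) (.n (.l [P 163]) .z)) (.n .z (.n (.l [M 194])
  .z))) (.n (.n (.n .z (.l [P 223])) .z) (.n .z (.n (.l [M 206]) .z))))) (.n (.n .z (.n (.n .z (.n
  (.l [M 174]) .z)) (.n (.n (.l [P 142]) .z) .z))) (.n (.n (.n (.n (.l [M 72]) .z) (.n (.l [M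
  166]) .z)) (.n (.n (.l [M 128]) .z) .z)) (.n .z (.n (.n .z (.l [M 238])) (.n (.l [(206, .negSucc
  1)]) .z))))))) (.n (.n (.n (.n (.n (.n (.n (.l [P 27]) .z) .z) (.n .z (.n .z (.l [M 247])))) (.n
  (.n (.n (.l [M 80]) .z) (.n (.l [P 169]) .z)) (.n .z (.n (.l [M 200]) .z)))) (.n (.n (.n (.n (.l
  [P 57]) .z) (.n (.l [P 161]) .z)) (.n (.n (.l [M 120, M 122, P 126, M 206]) .z) (.n (.l [M 193])
  .z))) (.n (.n (.n (.l [M 95]) .z) .z) (.n .z (.n (.l [M 206]) .z))))) (.n (.n .z (.n (.n (.n (.l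
  [M 88]) .z) .z) (.n (.n (.l [P 141]) .z) .z))) (.n (.n (.n (.n (.l [P 69]) .z) .z) .z) (.n (.n
  (.n (.l [M 103]) .z) .z) (.n (.n (.l [P 149]) .z) (.n (.l [(206, .ofNat 2)]) .z)))))) (.n (.n
  (.n (.n (.n .z (.n (.l [P 156]) .z)) (.n .z (.n (.l [M 187]) .z))) .z) (.n (.n (.n (.n (.l [P
  63]) .z) .z) (.n (.n .z (.l [M 231])) .z)) (.n (.n .z (.n (.l [M 180]) .z)) (.n .z (.n (.l
  [(206, .ofNat 2)]) .z))))) (.n (.n (.n (.n (.n (.l [P 51]) .z) .z) (.n (.n .z (.l [P 230])) .z))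
  (.n .z (.n .z (.n (.l [P 201]) .z)))) (.n (.n .z (.n (.n (.l [P 134]) (.l [P 233])) .z)) (.n (.n
  (.n .z (.l [P 226])) .z) (.n .z (.n (.l [P 206]) .z)))))))⟩⟩

def p2_71 : Step := ⟨.conj 72 0, ⟨(.ofNat 1), .n (.n (.n (.n (.n (.n (.n (.n (.l [P 19]) (.l [M 206])) (.n (.l [M
  148]) .z)) (.n (.n (.l [M 104]) .z) (.n .z (.l [P 246])))) .z) (.n (.n (.n (.n (.l [M 51]) (.l
  [M 211])) .z) .z) (.n (.n (.n (.l [M 89]) .z) .z) (.n (.n .z (.l [M 235])) .z)))) (.n (.n (.n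
  (.n .z (.n .z (.l [M 239]))) (.n (.n (.l [M 111]) (.l [M 226])) (.n .z (.l [P 247])))) (.n (.n
  (.n (.l [M 82]) .z) (.n (.l [M 168]) .z)) (.n (.n (.l [M 134]) .z) .z))) (.n (.n (.n (.n (.l [M
  63]) .z) .z) (.n (.n .z (.l [M 230])) .z)) (.n (.n (.n (.l [M 96]) .z) (.n (.l [M 177]) .z)) (.n
  .z (.n (.l [(201, .negSucc 1)]) .z)))))) (.n (.n (.n (.n .z (.n .z (.n (.l [M 182]) .z))) (.n
  (.n (.n (.l [M 76]) .z) .z) (.n (.n .z (.l [M 232])) .z))) (.n (.n (.n (.n (.l [M 57]) .z) .z)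
  (.n .z (.n (.l [M 189]) .z))) (.n .z (.n (.n (.l [M 141]) .z) (.n (.l [M 201]) .z))))) (.n (.n
  (.n (.n .z (.n (.l [M 155]) .z)) .z) (.n (.n (.n .z (.l [M 218])) (.n (.l [M 170]) .z)) .z)) (.n
  (.n (.n (.n (.l [M 68]) .z) (.n (.l [M 162]) .z)) (.n (.n (.l [M 120, M 126, P 201]) .z) .z))
  (.n (.n (.n .z (.l [M 223])) .z) (.n (.n .z (.l [M 237])) (.n (.l [(201, .negSucc 1)]) .z)))))))
  (.n (.n (.n (.n (.n (.n (.n (.l [P 23]) .z) (.n (.l [M 149]) .z)) .z) (.n (.n (.n (.l [M 75])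
  .z) .z) (.n .z (.n (.l [M 195]) .z)))) (.n (.n .z (.n (.n (.l [M 119]) .z) (.n (.l [M 188])
  .z))) (.n (.n (.n (.l [M 90]) .z) .z) (.n .z (.n (.l [M 201]) .z))))) (.n (.n (.n .z (.n (.n .z
  (.l [M 227])) .z)) (.n (.n (.n (.l [M 83]) .z) (.n (.l [M 169]) .z)) .z)) (.n (.n (.n .z (.n (.l
  [M 161]) .z)) .z) (.n (.n (.n (.l [M 97]) (.l [M 222])) .z) (.n .z (.n (.l [(201, .ofNat 2)])
  .z)))))) (.n (.n (.n (.n .z (.n .z (.n (.l [M 183]) .z))) (.n .z (.n (.n .z (.l [M 233])) .z)))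
  (.n (.n .z (.n (.n .z (.l [M 229])) .z)) (.n (.n .z (.n (.l [M 176]) .z)) (.n (.n (.l [M 142])
  .z) (.n (.l [(201, .ofNat 2)]) .z))))) (.n (.n (.n (.n .z (.n (.l [M 156]) .z)) .z) (.n (.n (.n
  .z (.l [M 219])) .z) .z)) (.n (.n (.n (.n (.l [M 69]) (.l [M 215])) (.n (.l [M 163]) .z)) .z)
  (.n .z (.n .z (.n (.l [P 201]) .z)))))))⟩⟩

def p2_72 : Step := ⟨.conj 75 0, ⟨(.ofNat 1), .n (.n (.n (.n (.n (.n (.n (.n (.l [P 16]) (.l [M 200])) (.n (.l [M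
  140]) .z)) (.n .z (.n .z (.l [P 245])))) (.n (.n .z (.n (.l [P 156]) .z)) (.n .z (.n (.l [P
  188]) .z)))) (.n (.n (.n (.n (.l [M 45]) (.l [M 205])) (.n (.l [P 149]) .z)) .z) (.n (.n (.n (.l
  [M 81]) .z) .z) .z))) (.n (.n (.n .z (.n (.n .z (.l [M 221])) (.n (.l [P 177]) .z))) (.n (.n (.n
  (.l [M 74]) .z) (.n (.l [M 160]) .z)) (.n (.n (.l [P 120, M 125, M 126, M 127, M 195]) (.l [P
  230])) .z))) (.n (.n (.n (.n (.l [M 56]) .z) .z) .z) (.n .z (.n .z (.n (.l [(195, .negSucc 1)])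
  .z)))))) (.n (.n (.n (.n (.n (.n (.l [M 23]) .z) .z) (.n (.n (.l [P 97]) .z) (.n (.l [M 175])
  .z))) (.n .z (.n .z (.n (.l [P 189]) .z)))) (.n (.n (.n (.n (.l [M 50]) .z) (.n .z (.l [P
  239]))) (.n (.n (.l [P 111]) .z) .z)) (.n (.n (.n (.l [P 83]) .z) .z) (.n (.n (.l [M 133]) (.l
  [P 233])) (.n (.l [M 195]) .z))))) (.n (.n (.n (.n (.n .z (.l [P 201])) (.n (.l [M 147]) .z))
  (.n (.n .z (.l [P 223])) .z)) (.n (.n (.n (.l [P 76]) (.l [M 213])) .z) .z)) (.n (.n (.n (.n (.l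
  [M 61]) .z) (.n (.l [M 154]) .z)) (.n (.n (.l [M 113]) .z) .z)) (.n (.n (.n (.l [P 90]) .z) (.n
  (.l [P 170]) .z)) (.n .z (.n (.l [M 195]) .z))))))) (.n (.n (.n (.n (.n .z (.n (.n (.l [P 96])
  .z) .z)) (.n (.n (.n (.l [M 67]) .z) .z) .z)) (.n .z (.n .z (.n (.n .z (.l [P 232])) (.n (.l [M
  195]) .z))))) (.n (.n (.n (.n .z (.n .z (.l [P 237]))) (.n (.n (.l [P 104]) .z) .z)) .z) (.n (.n
  (.n .z (.n (.l [M 153]) .z)) (.n (.n .z (.l [P 227])) .z)) (.n (.n (.n .z (.l [M 217])) (.n (.l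
  [P 169]) .z)) (.n .z (.n (.l [(195, .ofNat 2)]) .z)))))) (.n (.n .z (.n (.n .z (.n (.n .z (.l [M
  225])) (.n (.l [P 183]) .z))) (.n (.n .z (.n (.l [M 167]) .z)) (.n (.n (.l [M 135]) .z) (.n (.l
  [(195, .ofNat 2)]) .z))))) (.n (.n (.n .z (.n .z (.n .z (.l [M 247])))) (.n (.n (.n .z (.l [M
  214])) (.n (.l [P 163]) .z)) .z)) (.n (.n (.n (.n (.l [M 62]) (.l [M 210])) .z) (.n (.n (.l [P
  119]) .z) .z)) (.n .z (.n (.n .z (.l [P 235])) (.n (.l [P 195]) .z)))))))⟩⟩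

def p2_73 : Step := ⟨.conj 74 0, ⟨(.ofNat 1), .n (.n (.n (.n (.n (.n (.n .z (.n .z (.l [M 231]))) (.n (.n .z (.l [M
  212])) (.n (.l [P 161]) .z))) (.n (.n (.n (.l [M 55]) (.l [P 202])) .z) .z)) (.n (.n .z (.n .z
  (.n .z (.l [M 246])))) (.n .z (.n (.n (.l [P 117]) .z) (.n (.l [P 186]) .z))))) (.n (.n (.n (.n
  .z (.n (.l [M 134]) .z)) .z) .z) (.n (.n .z (.n .z (.n (.l [M 173]) .z))) (.n (.n (.n (.l [P
  77]) .z) (.n (.l [P 157]) .z)) (.n .z (.n (.l [(186, .negSucc 1)]) .z)))))) (.n (.n (.n (.n (.n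
  (.n .z (.l [P 191])) .z) .z) (.n (.n .z (.n .z (.l [P 238]))) (.n (.n (.l [P 109]) (.l [P 224]))
  .z))) (.n (.n (.n (.n .z (.l [P 197])) (.n (.l [M 139]) .z)) (.n (.n .z (.l [P 219])) .z)) (.n
  (.n (.n .z (.l [M 209])) (.n (.l [P 155]) .z)) (.n .z (.n (.l [M 186]) .z))))) (.n (.n (.n .z
  (.n (.n (.l [M 93]) .z) (.n (.l [M 166]) .z))) (.n (.n .z (.n (.l [P 151]) .z)) (.n (.n (.l [M
  114]) .z) .z))) (.n (.n (.n (.n (.l [M 52]) .z) .z) .z) (.n .z (.n .z (.n (.l [M 186]) .z)))))))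
  (.n (.n (.n (.n (.n (.n (.n (.l [M 15]) .z) (.n (.l [P 128]) .z)) (.n .z (.n .z (.l [P 244]))))
  (.n (.n .z (.n (.l [M 145]) .z)) (.n (.n .z (.l [P 222])) (.n (.l [M 179]) .z)))) (.n (.n (.n
  (.n (.l [P 37]) .z) .z) (.n (.n (.l [P 98]) .z) .z)) (.n (.n (.n (.l [P 70]) .z) .z) (.n .z (.n
  (.l [M 186]) .z))))) (.n (.n (.n (.n (.n .z (.l [M 193])) .z) .z) (.n (.n (.n (.l [P 64]) (.l [P
  206])) (.n .z (.l [P 240]))) (.n (.n (.l [M 112]) .z) .z))) (.n (.n (.n .z (.n .z (.l [P 236])))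
  (.n (.n (.l [P 103]) .z) .z)) (.n .z (.n (.n (.l [P 120, P 122, M 124, M 125, M 126, M 127, P
  186]) .z) (.n (.l [P 186]) .z)))))) (.n (.n (.n (.n (.n (.n (.l [P 22]) .z) (.n (.l [M 132]) (.l
  [M 233]))) (.n (.n (.l [M 87]) .z) (.n (.l [P 164]) .z))) (.n (.n .z (.n (.l [P 148]) .z)) (.n
  .z (.n (.l [M 180]) .z)))) (.n (.n (.n (.n (.l [P 42]) .z) .z) .z) (.n .z (.n .z (.n (.l [(186,
  .ofNat 2)]) .z))))) (.n (.n (.n (.n (.n (.l [P 34]) (.l [M 194])) .z) (.n (.n .z (.l [M 216]))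
  .z)) (.n (.n (.n (.l [P 69]) .z) .z) (.n (.n .z (.l [P 226])) (.n (.l [P 182]) .z)))) (.n .z (.n
  (.n (.n (.l [M 80]) .z) .z) .z)))))⟩⟩

def p2_74 : Step := ⟨.conj 77 0, ⟨(.ofNat 1), .n (.n (.n (.n (.n .z (.n (.n .z (.n (.l [P 136]) .z)) .z)) (.n (.n .z
  (.n (.n (.l [P 86]) .z) (.n (.l [M 160]) .z))) (.n .z (.n .z (.n (.l [P 178]) .z))))) (.n (.n
  (.n (.n (.n (.l [M 21]) (.l [P 184])) .z) .z) (.n (.n (.n .z (.l [M 198])) .z) .z)) (.n (.n (.n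
  .z (.n (.l [M 133]) .z)) (.n (.n (.l [P 92]) .z) .z)) (.n (.n (.n .z (.l [M 205])) .z) (.n .z
  (.n (.l [M 178]) .z)))))) (.n (.n (.n (.n (.n (.n (.l [P 14]) .z) (.n .z (.l [M 228]))) (.n (.n
  (.l [P 78]) .z) (.n .z (.l [P 243])))) (.n (.n .z (.n (.l [P 138]) .z)) (.n .z (.n (.l [P 171])
  .z)))) (.n (.n .z (.n (.n (.l [P 91]) .z) .z)) (.n .z (.n (.n .z (.l [M 224])) (.n (.l [(178,
  .negSucc 1)]) .z))))) (.n (.n (.n (.n (.n (.l [M 28]) (.l [P 185])) .z) .z) (.n (.n (.n (.l [P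
  58]) .z) .z) (.n (.n .z (.l [M 220])) .z))) (.n (.n (.n (.n .z (.l [P 192])) (.n .z (.l [P
  234]))) .z) (.n (.n .z (.n .z (.l [P 242]))) (.n (.n (.l [M 113]) .z) .z)))))) (.n (.n (.n (.n
  (.n .z (.n (.n .z (.l [M 207])) (.n (.l [M 154]) .z))) (.n (.n (.n .z (.l [P 196])) .z) (.n (.n
  (.l [P 99]) .z) .z))) (.n (.n (.n .z (.n .z (.l [P 232]))) (.n (.n .z (.l [M 213])) (.n .z (.l
  [M 245])))) (.n (.n .z (.n (.l [P 144]) .z)) (.n (.n (.l [M 108]) .z) (.n (.l [M 178]) .z)))))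
  (.n (.n (.n (.n (.n (.l [M 25]) .z) (.n (.l [P 122, M 124, M 125, M 126, M 178]) .z)) (.n (.n
  (.l [P 84]) .z) .z)) (.n .z (.n .z (.n (.l [M 172]) .z)))) (.n (.n (.n (.n (.l [M 41]) .z) .z)
  (.n .z (.n (.l [M 165]) .z))) (.n (.n .z (.n (.l [P 150]) .z)) (.n (.n .z (.l [M 225])) (.n (.l
  [P 178]) .z)))))) (.n (.n (.n (.n .z (.n (.n .z (.l [M 210])) .z)) (.n (.n (.n (.l [P 53]) .z)
  .z) (.n (.n (.l [M 102]) .z) .z))) (.n (.n (.n (.n .z (.l [P 190])) (.n (.l [P 130]) .z)) .z)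
  (.n (.n (.n (.l [P 65]) (.l [M 203])) (.n .z (.l [P 241]))) (.n .z (.n (.l [(178, .ofNat 2)])
  .z))))) (.n (.n (.n .z (.n .z (.n (.l [M 158]) .z))) (.n (.n (.n (.l [P 61]) .z) (.n (.l [P
  143]) .z)) (.n (.n (.l [M 105]) .z) .z))) (.n (.n (.n (.n (.l [M 46]) .z) .z) (.n .z (.n (.l [M
  167]) .z))) (.n .z (.n (.n (.l [M 115]) .z) .z))))))⟩⟩

def p2_75 : Step := ⟨.conj 76 0, ⟨(.ofNat 1), .n (.n (.n (.n (.n (.n .z (.n .z (.n (.l [M 144]) .z))) (.n (.n (.n (.l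
  [P 41]) .z) .z) (.n (.n (.l [M 91]) .z) .z))) (.n (.n (.n .z (.n .z (.l [P 228]))) (.n .z (.n
  (.l [M 152]) .z))) (.n (.n .z (.n (.l [M 136]) .z)) (.n (.n (.l [M 99]) .z) (.n (.l [P 171])
  .z))))) (.n (.n (.n (.n (.n (.l [M 17]) .z) .z) .z) (.n (.n (.n .z (.l [M 191])) .z) .z)) (.n
  (.n (.n (.n .z (.l [M 184])) (.n (.l [M 122, M 125, P 171]) .z)) .z) (.n (.n (.n .z (.l [M
  199])) .z) (.n (.n .z (.l [P 220])) (.n (.l [M 171]) .z)))))) (.n (.n (.n .z (.n (.n (.n (.l [P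
  46]) .z) .z) (.n (.n (.l [M 92]) .z) .z))) (.n .z (.n (.n .z (.n (.l [M 138]) .z)) (.n .z (.n
  (.l [(171, .negSucc 1)]) .z))))) (.n (.n (.n (.n (.n (.l [M 24]) .z) .z) (.n .z (.n .z (.l [M
  243])))) (.n (.n (.n (.l [P 52]) .z) .z) .z)) (.n (.n (.n .z (.n .z (.l [P 231]))) .z) (.n .z
  (.n (.n (.l [M 106]) .z) .z)))))) (.n (.n (.n (.n (.n (.n .z (.n .z (.l [P 224]))) (.n (.n .z
  (.l [M 202])) (.n (.l [M 146]) .z))) .z) (.n (.n (.n .z (.n .z (.l [P 229]))) (.n (.n .z (.l [M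
  208])) (.n .z (.l [M 244])))) (.n (.n (.n .z (.l [M 196])) .z) (.n (.n (.l [M 100]) .z) (.n (.l
  [M 171]) .z))))) (.n (.n (.n (.n (.n (.l [M 20]) (.l [M 178])) (.n (.l [M 114]) .z)) (.n .z (.n
  (.l [M 150]) .z))) (.n (.n (.n .z (.l [M 192])) .z) (.n .z (.n (.l [M 164]) .z)))) (.n (.n (.n
  (.n .z (.l [M 185])) .z) (.n (.n (.l [M 86]) .z) (.n (.l [M 157]) .z))) .z))) (.n (.n (.n (.n
  (.n (.n (.l [M 14]) .z) (.n .z (.l [P 225]))) (.n (.n .z (.l [M 204])) (.n .z (.l [M 242]))))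
  (.n (.n (.n (.l [P 47]) (.l [M 190])) (.n (.l [M 130]) .z)) (.n (.n (.l [M 94]) .z) .z))) (.n
  (.n .z (.n (.n (.l [M 84]) .z) .z)) (.n (.n (.n (.l [P 59]) (.l [M 197])) .z) (.n .z (.n (.l
  [(171, .ofNat 2)]) .z))))) (.n (.n (.n .z (.n (.n (.l [M 78]) .z) (.n (.l [M 151]) .z))) (.n (.n
  (.n (.l [P 54]) .z) .z) (.n (.n (.l [M 98]) .z) .z))) (.n (.n .z (.n .z (.n (.l [M 159]) .z)))
  (.n (.n .z (.n (.l [M 143]) (.l [M 241]))) (.n (.n (.l [M 107]) .z) .z))))))⟩⟩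

def p2_76 : Step := ⟨.conj 79 0, ⟨(.ofNat 1), .n (.n (.n (.n (.n (.n .z (.n (.n .z (.l [P 196])) (.n (.l [M 137])
  .z))) (.n (.n (.n (.l [P 36]) .z) .z) .z)) (.n (.n .z (.n (.n .z (.l [P 202])) (.n (.l [M 145])
  (.l [P 243])))) (.n (.n .z (.n (.l [M 128]) .z)) (.n .z (.n (.l [P 164]) .z))))) (.n (.n (.n (.n
  (.n (.l [M 15]) .z) (.n (.l [P 107]) .z)) .z) (.n (.n (.n .z (.l [M 186])) .z) (.n .z (.n (.l [P
  157]) .z)))) (.n (.n (.n (.n .z (.l [M 179])) (.n (.l [M 117]) .z)) (.n .z (.n (.l [P 150])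
  .z))) (.n (.n (.n .z (.l [M 194])) .z) (.n (.n (.l [P 98]) (.l [P 216])) (.n (.l [M 164])
  .z)))))) (.n (.n (.n (.n (.n (.n .z (.l [P 171])) .z) (.n (.n .z (.l [P 197])) .z)) (.n .z (.n
  (.n (.l [M 85]) .z) .z))) (.n (.n .z (.n (.n .z (.l [P 204])) .z)) (.n (.n (.n (.l [M 52]) (.l
  [P 190])) (.n (.l [M 131]) .z)) (.n .z (.n (.l [M 164]) .z))))) (.n (.n (.n (.n .z (.n .z (.l [M
  224]))) (.n .z (.n (.l [P 143]) .z))) .z) (.n (.n .z (.n .z (.n (.l [P 151]) .z))) .z)))) (.n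
  (.n (.n (.n (.n .z (.n .z (.n (.l [M 139]) .z))) (.n .z (.n (.n .z (.l [P 208])) .z))) (.n (.n
  (.n (.n (.l [P 24]) .z) (.n .z (.l [P 226]))) .z) (.n .z (.n (.n (.l [M 93]) .z) (.n (.l [M
  164]) .z))))) (.n (.n (.n (.n (.n .z (.l [M 172])) .z) .z) (.n (.n (.n (.l [M 46]) (.l [M 187]))
  .z) (.n (.n (.l [P 91]) .z) .z))) (.n (.n (.n (.n .z (.l [M 180])) (.n .z (.l [M 228]))) (.n (.n
  (.l [M 79]) .z) .z)) (.n .z (.n (.n (.l [P 99]) .z) .z))))) (.n (.n (.n (.n (.n (.n (.l [M 12])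
  .z) (.n (.l [P 106]) (.l [P 221]))) (.n .z (.n .z (.l [M 240])))) (.n (.n (.n (.l [P 42]) .z)
  (.n (.l [M 120, M 122, M 123, P 125, M 164]) (.l [M 231]))) (.n (.n (.l [M 87]) .z) .z))) (.n
  (.n (.n .z (.n (.l [P 114]) .z)) (.n (.n (.l [M 77]) .z) (.n .z (.l [P 244])))) (.n .z (.n .z
  (.n (.l [(164, .ofNat 2)]) .z))))) (.n (.n (.n (.n (.n (.l [P 20]) .z) .z) (.n (.n (.l [M 70])
  .z) .z)) (.n (.n (.n (.l [P 49]) .z) .z) (.n .z (.n (.l [P 159]) .z)))) (.n .z (.n (.n (.n (.l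
  [M 59]) .z) (.n .z (.l [M 238]))) .z)))))⟩⟩

def p2_77 : Step := ⟨.conj 78 0, ⟨(.ofNat 1), .n (.n (.n (.n (.n (.n (.n (.n .z (.l [M 165])) .z) .z) (.n (.n .z (.n
  (.l [M 116]) .z)) .z)) (.n (.n (.n (.n (.l [M 21]) .z) (.n (.l [M 108]) .z)) (.n (.n (.l [P 67])
  .z) .z)) .z)) (.n (.n (.n .z (.n (.n .z (.l [M 196])) .z)) (.n (.n (.n (.l [M 41]) .z) .z) (.n
  (.n (.l [P 84]) (.l [P 207])) .z))) (.n (.n (.n (.n (.l [P 28]) .z) (.n .z (.l [M 225]))) .z)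
  (.n .z (.n .z (.n (.l [M 160]) .z)))))) (.n (.n (.n (.n (.n (.n (.l [P 9]) .z) (.n .z (.l [P
  217]))) (.n (.n (.l [P 60]) .z) (.n .z (.l [M 239])))) (.n (.n .z (.n (.l [M 119]) .z)) (.n .z
  (.n (.l [P 152]) .z)))) (.n (.n .z (.n (.n (.l [M 73]) .z) .z)) (.n .z (.n (.n .z (.l [P 212]))
  (.n (.l [M 160]) .z))))) (.n (.n (.n (.n (.n .z (.l [P 168])) (.n (.l [P 105]) .z)) (.n (.n .z
  (.l [M 198])) .z)) (.n (.n (.n (.l [M 43]) .z) .z) (.n .z (.n (.l [M 154]) .z)))) (.n (.n (.n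
  (.n .z (.l [P 177])) (.n .z (.l [M 227]))) (.n (.n .z (.l [M 205])) (.n .z (.l [P 245])))) (.n
  (.n (.n (.l [P 53]) .z) (.n (.l [M 130]) .z)) .z))))) (.n (.n (.n (.n .z (.n .z (.n (.n (.l [M
  81]) .z) .z))) (.n .z (.n .z (.n .z (.n (.l [M 160]) .z))))) (.n (.n (.n (.n (.n (.l [P 16]) .z)
  (.n (.l [P 104]) (.l [M 220]))) .z) (.n .z (.n .z (.n (.l [M 153]) .z)))) (.n .z (.n (.n .z (.n
  (.l [M 129]) .z)) (.n .z (.n (.l [P 160]) .z)))))) (.n (.n (.n (.n (.n (.n .z (.l [M 167])) .z)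
  (.n (.n (.l [P 61]) (.l [P 195])) .z)) (.n .z (.n (.n (.l [M 83]) .z) .z))) (.n (.n (.n (.n .z
  (.l [M 175])) .z) (.n .z (.n (.l [P 144]) .z))) (.n (.n (.n (.l [M 50]) (.l [P 188])) (.n .z (.l
  [P 235]))) (.n (.n (.l [P 92]) (.l [P 213])) (.n (.l [P 160]) .z))))) (.n (.n (.n .z (.n .z (.n
  (.l [P 140]) (.l [P 242])))) (.n (.n (.n .z (.l [P 184])) (.n (.l [M 120, M 121, M 122, M 123, P
  125, P 126, P 160]) (.l [P 232]))) .z)) (.n (.n (.n (.n (.l [P 32]) (.l [P 178])) (.n (.l [P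
  113]) .z)) .z) (.n (.n .z (.n (.l [P 133]) .z)) (.n (.n (.l [P 96]) .z) .z))))))⟩⟩

def p2_78 : Step := ⟨.conj 81 0, ⟨(.ofNat 1), .n (.n (.n (.n (.n (.n (.n .z (.n .z (.l [M 215]))) (.n (.n (.l [P 55])
  (.l [M 188])) .z)) (.n (.n (.n .z (.l [M 176])) (.n .z (.l [P 226]))) .z)) (.n (.n (.n (.n .z
  (.l [P 166])) .z) .z) (.n (.n (.n (.l [P 42]) (.l [M 182])) .z) (.n (.n .z (.l [P 209])) .z))))
  (.n (.n (.n (.n .z (.n .z (.l [M 216]))) (.n .z (.n (.l [P 134]) (.l [M 238])))) (.n (.n .z (.n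
  (.l [P 112]) .z)) (.n .z (.n (.l [P 148]) .z)))) (.n (.n .z (.n (.n (.l [M 69]) .z) (.n (.l [P
  141]) .z))) (.n (.n (.n (.l [P 48]) .z) (.n (.l [M 121, M 122, M 123, P 126, P 127, M 155]) .z))
  (.n .z (.n (.l [M 155]) .z)))))) (.n (.n (.n (.n (.n (.n .z (.l [P 162])) .z) .z) (.n .z (.n (.n
  (.l [M 76]) (.l [P 203])) (.n .z (.l [P 246]))))) (.n (.n (.n (.n (.l [P 22]) .z) .z) (.n .z (.n
  (.l [M 139]) .z))) .z)) (.n (.n (.n .z (.n (.n (.l [M 63]) .z) .z)) (.n (.n (.n .z (.l [M 180]))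
  (.n (.l [M 118]) .z)) (.n (.n (.l [P 82]) .z) .z))) (.n (.n (.n (.n (.l [M 30]) .z) .z) (.n (.n
  (.l [M 70]) .z) .z)) (.n .z (.n .z (.n (.l [M 155]) .z))))))) (.n (.n (.n (.n (.n (.n (.n (.l [M
  5]) (.l [P 161])) (.n (.l [P 95]) .z)) (.n .z (.n .z (.l [M 237])))) (.n (.n (.n (.l [M 34]) .z)
  (.n (.l [M 111]) .z)) (.n (.n .z (.l [P 201])) (.n (.l [M 147]) .z)))) (.n (.n (.n (.n (.l [P
  19]) .z) .z) (.n (.n (.l [M 66]) .z) .z)) (.n (.n .z (.n .z (.l [P 233]))) .z))) (.n (.n (.n .z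
  (.n (.n .z (.l [M 193])) .z)) (.n (.n (.n (.l [M 39]) .z) (.n (.l [M 117]) (.l [P 230]))) (.n
  (.n .z (.l [P 206])) .z))) (.n (.n (.n .z (.n .z (.l [M 223]))) .z) (.n (.n (.n .z (.l [M 186]))
  .z) (.n (.n (.l [P 90]) .z) (.n (.l [P 155]) .z)))))) (.n (.n (.n (.n (.n .z (.n (.l [P 97])
  .z)) (.n .z (.n (.l [M 131]) .z))) .z) (.n (.n .z (.n (.n .z (.l [P 197])) .z)) (.n .z (.n (.n
  (.l [P 87]) .z) (.n (.l [P 155]) .z))))) (.n (.n (.n (.n (.n .z (.l [M 163])) (.n (.l [P 103])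
  (.l [M 219]))) .z) .z) (.n .z (.n (.n (.n (.l [P 51]) .z) .z) .z)))))⟩⟩

def p2_79 : Step := ⟨.conj 80 0, ⟨(.ofNat 1), .n (.n (.n (.n (.n (.n (.n (.n (.l [M 4]) .z) .z) (.n .z (.n .z (.l [M
  236])))) (.n (.n (.n .z (.l [P 177])) .z) (.n (.n (.l [P 76]) (.l [M 201])) (.n (.l [M 148])
  .z)))) (.n .z (.n (.n (.n (.l [M 44]) .z) (.n .z (.l [M 233]))) .z))) (.n (.n (.n (.n .z (.n .z
  (.l [P 217]))) (.n (.n (.l [P 62]) (.l [M 194])) .z)) (.n (.n (.n (.l [M 40]) .z) (.n (.l [M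
  116]) .z)) (.n (.n (.l [P 80]) (.l [M 206])) .z))) (.n (.n (.n (.n (.l [P 27]) .z) .z) (.n (.n
  .z (.l [M 200])) .z)) (.n (.n (.n (.l [M 50]) .z) (.n .z (.l [M 235]))) (.n .z (.n (.l [P 156])
  .z)))))) (.n (.n (.n (.n (.n .z (.n (.l [M 97]) .z)) (.n .z (.n (.l [M 132]) .z))) (.n .z (.n
  (.n .z (.l [M 205])) .z))) (.n (.n (.n (.n .z (.l [P 170])) (.n .z (.l [P 222]))) (.n (.n (.l [P
  69]) .z) .z)) (.n .z (.n (.n (.l [P 88]) .z) .z)))) (.n (.n (.n (.n .z (.n (.l [M 103]) .z)) .z)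
  (.n (.n (.n .z (.l [P 181])) .z) .z)) (.n (.n (.n (.n (.l [P 31]) .z) (.n (.l [M 110]) .z)) (.n
  (.n (.l [P 71]) .z) .z)) (.n (.n (.n (.l [M 51]) .z) .z) (.n (.n .z (.l [P 214])) (.n (.l [P
  156]) .z))))))) (.n (.n (.n (.n (.n .z (.n (.n (.l [M 57]) .z) .z)) .z) (.n (.n (.n (.n .z (.l
  [P 169])) (.n (.l [M 104]) .z)) (.n (.n (.l [P 67]) .z) (.n (.l [M 140]) .z))) (.n (.n (.n (.l
  [M 45]) .z) .z) (.n (.n .z (.l [M 211])) .z)))) (.n (.n (.n (.n .z (.n .z (.l [P 219]))) .z) (.n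
  .z (.n (.n (.l [P 83]) .z) .z))) (.n (.n (.n .z (.n (.l [M 109]) .z)) .z) (.n .z (.n .z (.n (.l
  [M 156]) .z)))))) (.n (.n (.n (.n (.n (.n .z (.l [P 163])) .z) (.n .z (.n (.l [P 135]) .z))) (.n
  .z (.n .z (.n (.l [P 149]) (.l [P 247]))))) (.n (.n (.n (.n (.l [P 23]) .z) (.n .z (.l [P
  223]))) (.n (.n .z (.l [M 199])) (.n (.l [P 142]) .z))) (.n (.n .z (.n (.l [M 123, M 124, P 127,
  M 156]) .z)) .z))) (.n (.n (.n .z (.n (.n .z (.l [M 195])) .z)) .z) (.n (.n (.n (.n .z (.l [P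
  174])) (.n .z (.l [P 227]))) (.n (.n (.l [P 75]) .z) .z)) (.n (.n (.n .z (.l [M 189])) .z) (.n
  .z (.n (.l [M 156]) .z)))))))⟩⟩

def p2_80 : Step := ⟨.conj 83 0, ⟨(.ofNat 1), .n (.n (.n (.n (.n (.n (.n (.n (.l [M 3]) .z) (.n (.l [M 88]) .z)) (.n
  (.n (.l [P 50]) .z) (.n .z (.l [M 234])))) (.n .z (.n .z (.n (.l [M 141]) .z)))) (.n .z (.n (.n
  (.n (.l [M 38]) (.l [M 177])) (.n .z (.l [M 230]))) (.n (.n .z (.l [P 205])) .z)))) (.n (.n (.n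
  (.n (.n .z (.l [M 156])) (.n .z (.l [P 213]))) (.n (.n (.l [P 56]) (.l [M 187])) .z)) (.n (.n
  (.n (.l [M 35]) .z) (.n (.l [M 108]) (.l [M 227]))) (.n (.n (.l [P 72]) .z) (.n .z (.l [M
  247]))))) (.n .z (.n (.n .z (.n .z (.l [M 232]))) (.n (.n (.l [M 83]) .z) .z))))) (.n (.n (.n
  (.n (.n .z (.n (.l [M 90]) .z)) (.n (.n (.l [P 51]) .z) (.n (.l [M 124, M 125, M 127, P 149])
  .z))) (.n (.n (.n .z (.l [M 170])) .z) (.n .z (.n (.l [M 142]) .z)))) (.n (.n (.n .z (.n .z (.l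
  [P 218]))) (.n (.n (.l [P 63]) .z) (.n (.l [M 135]) .z))) (.n .z (.n (.n .z (.l [P 206])) .z))))
  (.n (.n (.n (.n .z (.n (.l [M 95]) .z)) .z) (.n .z (.n (.n .z (.l [P 201])) .z))) (.n (.n (.n .z
  (.n (.l [M 102]) .z)) (.n (.n (.l [P 65]) .z) .z)) (.n .z (.n (.n .z (.l [P 210])) (.n (.l [P
  149]) .z))))))) (.n (.n (.n (.n .z (.n (.n (.n (.l [M 31]) (.l [M 169])) (.n .z (.l [M 223])))
  .z)) (.n (.n (.n .z (.n (.l [M 96]) .z)) (.n (.n (.l [P 61]) .z) (.n (.l [M 133]) .z))) .z)) (.n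
  (.n (.n (.n .z (.n .z (.l [P 215]))) (.n (.n (.l [P 57]) .z) .z)) .z) (.n (.n (.n (.n (.l [M
  23]) .z) (.n (.l [M 101]) .z)) .z) (.n (.n (.n (.l [P 45]) (.l [M 181])) .z) (.n .z (.n (.l [M
  149]) .z)))))) (.n (.n (.n .z (.n .z (.n (.n .z (.l [P 200])) .z))) (.n (.n (.n (.n .z (.l [M
  163])) .z) (.n (.n .z (.l [M 192])) .z)) (.n (.n .z (.n (.l [M 115]) .z)) .z))) (.n (.n .z (.n
  (.n (.n .z (.l [M 174])) .z) (.n (.n (.l [M 76]) .z) .z))) (.n (.n (.n (.n (.l [M 27]) .z) .z)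
  (.n (.n (.l [P 68]) (.l [P 195])) .z)) (.n (.n (.n .z (.l [M 183])) .z) (.n (.n .z (.l [P 211]))
  (.n (.l [M 149]) .z)))))))⟩⟩

def p2_81 : Step := ⟨.conj 82 0, ⟨(.ofNat 1), .n (.n (.n (.n (.n (.n .z (.n (.n (.l [P 37]) (.l [P 168])) .z)) (.n (.n
  (.n (.l [P 19]) .z) .z) .z)) (.n (.n (.n .z (.n .z (.l [P 206]))) .z) (.n .z (.n (.n (.l [P 63])
  (.l [P 191])) .z)))) (.n (.n (.n (.n .z (.n .z (.l [P 202]))) (.n (.n (.l [P 42]) .z) (.n .z (.l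
  [P 231])))) .z) (.n (.n (.n (.n .z (.l [P 148])) .z) (.n (.n .z (.l [P 180])) .z)) (.n (.n (.n
  (.l [P 33]) .z) (.n (.l [P 100]) .z)) .z)))) (.n (.n (.n .z (.n (.n (.n (.l [P 22]) .z) (.n .z
  (.l [P 215]))) (.n (.n (.l [P 57]) (.l [P 185])) .z))) (.n (.n (.n .z (.n (.l [P 82]) .z)) (.n
  .z (.n (.l [P 114]) .z))) (.n (.n (.n .z (.l [P 162])) .z) .z))) (.n (.n .z (.n (.n .z (.n (.l
  [P 94]) (.l [P 219]))) .z)) (.n (.n .z (.n (.n (.l [P 52]) .z) .z)) (.n (.n (.n .z (.l [P 166]))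
  .z) (.n (.n (.l [P 69]) (.l [P 197])) (.n (.l [P 134]) .z))))))) (.n (.n (.n (.n (.n (.n (.n (.l
  [P 2]) .z) (.n (.l [P 72]) .z)) (.n .z (.n .z (.l [P 229])))) (.n (.n .z (.n (.l [P 89]) .z))
  (.n .z (.n (.l [P 125, (126, .ofNat 2), P 127, P 134]) .z)))) (.n (.n .z (.n (.n (.l [P 47]) .z)
  (.n (.l [P 112]) .z))) (.n (.n (.n (.l [P 30]) (.l [P 161])) (.n .z (.l [P 222]))) .z))) (.n (.n
  (.n (.n (.n .z (.l [P 141])) .z) (.n (.n .z (.l [P 173])) .z)) (.n (.n (.n (.l [P 26]) .z) (.n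
  (.l [P 93]) (.l [P 218]))) (.n .z (.n .z (.l [P 246]))))) (.n (.n (.n .z (.n .z (.l [P 211])))
  (.n (.n (.l [P 51]) .z) .z)) (.n (.n (.n (.l [P 34]) .z) (.n .z (.l [P 226]))) (.n (.n (.l [P
  68]) .z) .z))))) (.n (.n (.n (.n (.n .z (.n (.l [P 75]) (.l [P 201]))) (.n .z (.n (.l [P 107])
  .z))) (.n (.n (.n .z (.l [P 155])) .z) (.n (.n .z (.l [P 186])) .z))) .z) (.n (.n (.n (.n (.n .z
  (.l [P 142])) (.n (.l [P 80]) .z)) (.n (.n .z (.l [P 176])) .z)) .z) (.n (.n (.n .z (.n (.l [P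
  87]) .z)) (.n (.n .z (.l [P 182])) .z)) .z))))⟩⟩

def p2_82 : Step := ⟨.comm 67 68, ⟨(.ofNat 1), .n (.n (.n (.n (.n (.n (.n (.n .z (.l [M 164])) (.n (.l [M 98]) .z))
  .z) (.n (.n .z (.n (.l [M 114]) .z)) .z)) (.n (.n (.n (.n (.l [M 20]) (.l [M 171])) (.n (.l [M
  107]) (.l [M 221]))) .z) (.n (.n .z (.n (.l [M 120, P 123, M 125, P 159]) .z)) .z))) (.n (.n (.n
  (.n (.n (.l [M 13]) .z) .z) .z) (.n (.n (.n .z (.l [M 182])) .z) (.n .z (.n (.l [P 152]) .z))))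
  (.n (.n (.n (.n .z (.l [M 175])) (.n (.l [M 111]) .z)) (.n .z (.n (.l [P 144]) (.l [M 244]))))
  (.n (.n (.n .z (.l [M 189])) .z) (.n .z (.n (.l [M 159]) .z)))))) (.n (.n (.n .z (.n (.n (.n (.l
  [M 36]) .z) .z) (.n (.n (.l [M 81]) .z) .z))) (.n (.n (.n (.n (.l [M 24]) .z) .z) (.n .z (.n .z
  (.l [M 243])))) (.n (.n (.n (.l [M 47]) .z) .z) (.n (.n (.l [M 91]) .z) (.n (.l [M 159]) .z)))))
  (.n (.n (.n (.n .z (.n .z (.l [M 220]))) (.n (.n .z (.l [M 197])) (.n (.l [P 138]) .z))) (.n (.n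
  (.n (.l [M 42]) .z) .z) .z)) (.n (.n (.n .z (.n .z (.l [M 226]))) (.n (.n .z (.l [M 204])) (.n
  (.l [P 146]) .z))) (.n (.n (.n .z (.l [M 190])) .z) .z))))) (.n (.n (.n (.n (.n (.n .z (.n (.l
  [M 99]) (.l [M 216]))) .z) .z) (.n .z (.n .z (.n (.n (.l [M 89]) .z) (.n (.l [M 159]) .z)))))
  (.n (.n (.n (.n (.n .z (.l [M 167])) .z) (.n (.n .z (.l [M 196])) (.n (.l [P 137]) .z))) (.n (.n
  (.n (.l [M 41]) (.l [M 183])) .z) (.n (.n .z (.l [M 208])) .z))) (.n (.n (.n (.n .z (.l [M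
  176])) (.n .z (.l [M 225]))) (.n (.n (.l [M 74]) (.l [M 202])) (.n (.l [P 145]) .z))) .z))) (.n
  (.n (.n (.n (.n (.n (.l [M 11]) .z) .z) (.n .z (.n .z (.l [M 239])))) (.n (.n .z (.n (.l [M
  119]) (.l [M 229]))) (.n (.n (.l [M 82]) .z) .z))) (.n (.n .z (.n (.n (.l [M 73]) .z) .z)) (.n
  (.n (.n (.l [M 49]) .z) .z) (.n .z (.n (.l [(159, .ofNat 2)]) .z))))) (.n (.n (.n (.n .z (.n (.l
  [M 106]) .z)) (.n (.n (.l [M 66]) .z) (.n (.l [P 139]) .z))) .z) (.n .z (.n (.n (.n (.l [M 54])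
  .z) (.n (.l [P 131]) (.l [M 237]))) .z)))))⟩⟩

def p2_83 : Step := ⟨.conj 84 0, ⟨(.ofNat 1), .n (.n (.n (.n (.n .z (.n .z (.n (.n .z (.l [M 207])) .z))) (.n (.n .z
  (.n (.n (.l [P 71]) .z) .z)) (.n .z (.n .z (.n (.l [P 165]) .z))))) (.n (.n (.n (.n .z (.n (.l
  [P 108]) .z)) .z) (.n (.n (.n (.l [M 46]) .z) .z) .z)) (.n (.n (.n .z (.n .z (.l [M 228]))) .z)
  (.n .z (.n .z (.n (.l [M 165]) .z)))))) (.n (.n (.n (.n (.n (.n (.l [P 10]) .z) (.n (.l [M 105])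
  .z)) (.n (.n (.l [P 64]) (.l [P 198])) (.n .z (.l [M 240])))) (.n (.n (.n .z (.l [M 184])) (.n
  (.l [M 120, P 121, P 123, M 125, M 126, M 165]) .z)) (.n .z (.n (.l [P 157]) .z)))) (.n (.n (.n
  (.n .z (.l [M 178])) (.n (.l [M 113]) .z)) (.n (.n (.l [M 77]) (.l [P 205])) .z)) (.n (.n .z (.n
  (.l [M 133]) .z)) (.n .z (.n (.l [M 165]) .z))))) (.n (.n (.n (.n (.n .z (.l [P 173])) .z) .z)
  (.n .z (.n (.n (.l [M 92]) (.l [M 212])) (.n (.l [M 158]) .z)))) (.n (.n (.n (.n .z (.l [P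
  181])) .z) .z) (.n (.n (.n (.l [P 58]) .z) (.n (.l [M 136]) .z)) .z))))) (.n (.n (.n (.n (.n .z
  (.n .z (.n (.l [M 140]) .z))) (.n .z (.n (.n (.l [M 85]) .z) .z))) (.n (.n (.n .z (.n .z (.l [P
  227]))) .z) (.n (.n .z (.n (.l [P 129]) .z)) (.n .z (.n (.l [M 165]) .z))))) (.n (.n (.n (.n (.n
  (.l [P 18]) .z) (.n (.l [P 109]) (.l [M 224]))) (.n .z (.n .z (.l [M 242])))) .z) (.n (.n (.n
  (.n (.l [M 32]) .z) .z) (.n .z (.n .z (.l [M 245])))) (.n .z (.n (.n .z (.l [M 217])) (.n (.l [P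
  165]) .z)))))) (.n (.n (.n (.n (.n (.n .z (.l [M 172])) .z) (.n (.n (.l [P 65]) (.l [P 200]))
  .z)) (.n (.n (.n (.l [P 43]) .z) .z) (.n (.n (.l [M 88]) .z) .z))) (.n (.n (.n (.n (.l [M 28])
  (.l [M 179])) (.n (.l [P 116]) .z)) (.n .z (.n (.l [P 150]) .z))) (.n (.n (.n .z (.l [P 193]))
  (.n .z (.l [P 236]))) (.n .z (.n (.l [P 165]) .z))))) (.n (.n (.n (.n (.n (.l [P 21]) .z) .z)
  .z) (.n (.n (.n (.l [P 50]) .z) (.n (.l [M 128]) (.l [P 234]))) (.n (.n .z (.l [M 213])) (.n (.l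
  [P 160]) .z)))) (.n (.n .z (.n (.n (.l [M 84]) .z) (.n (.l [P 153]) .z))) (.n (.n (.n .z (.l [P
  196])) .z) (.n (.n (.l [P 101]) .z) .z))))))⟩⟩

def p2_84 : Step := ⟨.conj 87 0, ⟨(.ofNat 1), .n (.n (.n (.n (.n (.n .z (.n (.n (.l [P 64]) (.l [P 198])) (.n (.l [P
  141]) .z))) (.n (.n (.n (.l [M 39]) (.l [P 185])) (.n .z (.l [P 231]))) .z)) (.n (.n .z (.n .z
  (.n (.l [P 148]) .z))) (.n (.n (.n (.l [P 52]) (.l [P 191])) .z) (.n (.n (.l [M 95]) .z) (.n (.l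
  [P 166]) .z))))) (.n (.n (.n (.n .z (.n .z (.l [M 224]))) (.n (.n (.l [P 70]) .z) .z)) .z) (.n
  (.n .z (.n (.n (.l [M 80]) .z) .z)) (.n (.n (.n (.l [P 58]) .z) (.n (.l [M 136]) .z)) (.n .z (.n
  (.l [M 166]) .z)))))) (.n (.n (.n .z (.n .z (.n (.n (.l [M 88]) .z) .z))) (.n (.n (.n .z (.n (.l
  [M 118]) .z)) (.n .z (.n (.l [M 151]) .z))) (.n .z (.n .z (.n (.l [M 166]) .z))))) (.n (.n (.n
  (.n (.n (.l [M 22]) .z) .z) (.n (.n (.l [M 72]) .z) .z)) (.n .z (.n (.n (.l [M 94]) .z) .z)))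
  (.n .z (.n .z (.n (.n (.l [M 103]) .z) (.n (.l [M 166]) .z))))))) (.n (.n (.n (.n (.n (.n (.n
  (.l [M 8]) (.l [P 173])) .z) (.n .z (.n .z (.l [P 241])))) (.n (.n (.n .z (.l [P 186])) (.n (.l
  [M 120, M 121, P 126, P 127, M 166]) .z)) (.n (.n (.l [M 87]) (.l [M 211])) (.n (.l [M 158])
  .z)))) (.n (.n (.n (.n (.l [M 26]) (.l [P 180])) (.n (.l [P 112]) .z)) (.n (.n (.l [P 78]) (.l
  [M 206])) .z)) (.n (.n (.n .z (.l [P 193])) (.n (.l [P 134]) (.l [P 236]))) .z))) (.n (.n .z (.n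
  (.n .z (.n (.l [M 128]) (.l [P 234]))) .z)) (.n (.n (.n (.n (.l [M 34]) .z) .z) .z) (.n (.n .z
  (.n .z (.l [P 238]))) (.n (.n (.l [M 102]) (.l [M 219])) (.n (.l [P 166]) .z)))))) (.n (.n (.n
  (.n (.n .z (.n (.l [M 110]) (.l [M 223]))) (.n .z (.n (.l [M 143]) .z))) .z) (.n (.n (.n (.n (.l
  [M 30]) .z) .z) .z) (.n .z (.n .z (.n (.l [P 166]) .z))))) (.n (.n (.n (.n (.n .z (.l [M 174]))
  .z) (.n (.n .z (.l [P 203])) .z)) (.n (.n (.n (.l [P 51]) .z) .z) (.n (.n .z (.l [M 215])) (.n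
  (.l [P 162]) .z)))) (.n (.n .z (.n (.n .z (.l [P 209])) (.n (.l [P 155]) (.l [P 246])))) (.n (.n
  (.n .z (.l [P 197])) .z) .z)))))⟩⟩

def p2_85 : Step := ⟨.conj 86 0, ⟨(.ofNat 1), .n (.n (.n (.n (.n (.n (.n (.n (.l [P 7]) (.l [M 174])) (.n (.l [M 110])
  .z)) (.n (.n (.l [P 67]) .z) (.n .z (.l [P 241])))) (.n .z (.n (.n (.l [P 90]) .z) (.n (.l [P
  162]) (.l [M 247]))))) (.n .z (.n (.n (.n (.l [P 54]) .z) (.n .z (.l [M 237]))) .z))) (.n (.n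
  (.n (.n .z (.n .z (.l [M 225]))) (.n (.n (.l [P 74]) (.l [M 204])) .z)) (.n (.n .z (.n (.l [P
  130]) (.l [M 235]))) (.n (.n (.l [M 94]) (.l [M 215])) .z))) (.n (.n (.n (.n (.l [P 35]) .z) .z)
  (.n (.n .z (.l [M 210])) .z)) (.n (.n (.n (.l [P 61]) .z) .z) (.n .z (.n (.l [M 170]) .z))))))
  (.n (.n (.n (.n .z (.n .z (.n (.l [P 146]) .z))) (.n (.n (.n (.l [P 45]) .z) .z) .z)) (.n (.n
  (.n (.n (.l [P 31]) .z) (.n .z (.l [M 229]))) (.n (.n (.l [P 82]) .z) .z)) (.n .z (.n (.n (.l [M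
  102]) (.l [M 219])) (.n (.l [M 170]) .z))))) (.n (.n (.n (.n (.n (.l [M 23]) .z) (.n (.l [M
  118]) .z)) .z) (.n (.n (.n (.l [P 51]) (.l [M 192])) .z) .z)) (.n (.n .z (.n (.n (.l [M 86]) .z)
  .z)) (.n .z (.n .z (.n (.l [M 170]) .z))))))) (.n (.n (.n (.n (.n (.n (.n .z (.l [P 177])) (.n
  .z (.l [M 223]))) (.n (.n (.l [P 68]) (.l [P 201])) .z)) (.n (.n (.n .z (.l [P 189])) .z) .z))
  (.n (.n (.n (.n .z (.l [P 183])) (.n (.l [P 119]) .z)) (.n .z (.n (.l [P 154]) .z))) (.n (.n (.n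
  .z (.l [P 195])) .z) .z))) (.n (.n (.n .z (.n (.n (.l [P 75]) (.l [M 205])) (.n (.l [M 149])
  .z))) (.n (.n .z (.n (.l [M 135]) .z)) (.n .z (.n (.l [M 163]) .z)))) (.n (.n (.n .z (.n (.l [P
  120, M 121, P 122, M 127, M 170]) .z)) (.n (.n .z (.l [M 211])) (.n (.l [M 156]) .z))) (.n (.n
  (.n .z (.l [M 199])) (.n (.l [M 142]) .z)) (.n .z (.n (.l [P 170]) .z)))))) (.n (.n (.n .z (.n
  .z (.n (.n .z (.l [M 214])) .z))) (.n (.n .z (.n (.n (.l [P 83]) .z) .z)) (.n (.n .z (.n (.l [P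
  138]) .z)) (.n .z (.n (.l [P 170]) .z))))) (.n (.n .z (.n .z (.n (.n (.l [P 97]) .z) .z))) (.n
  (.n (.n (.n (.l [P 40]) .z) (.n .z (.l [M 232]))) .z) (.n .z (.n .z (.n (.l [P 170]) .z)))))))⟩⟩

def p2_86 : Step := ⟨.conj 89 0, ⟨(.ofNat 1), .n (.n (.n (.n (.n (.n (.n (.n (.l [P 6]) .z) (.n (.l [M 109]) .z)) (.n
  .z (.n .z (.l [P 240])))) (.n .z (.n .z (.n (.l [P 161]) .z)))) (.n (.n (.n (.n (.l [M 27]) (.l
  [P 181])) .z) .z) (.n .z (.n (.n .z (.l [P 217])) .z)))) (.n (.n .z (.n (.n (.n (.l [M 49]) .z)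
  (.n (.l [P 129]) .z)) (.n (.n (.l [M 93]) .z) .z))) (.n .z (.n (.n .z (.n .z (.l [P 239]))) (.n
  (.n (.l [M 104]) .z) (.n (.l [M 169]) .z)))))) (.n (.n (.n (.n (.n (.n .z (.l [P 177])) (.n (.l
  [M 111]) .z)) (.n (.n (.l [M 69]) (.l [P 201])) (.n (.l [P 145]) .z))) (.n (.n (.n .z (.l [P
  189])) .z) (.n (.n .z (.l [P 213])) .z))) (.n (.n (.n (.n .z (.l [P 183])) .z) .z) (.n (.n (.n
  (.l [M 57]) (.l [P 195])) .z) (.n (.n (.l [M 101]) .z) .z)))) (.n (.n (.n (.n .z (.n (.l [M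
  117]) (.l [P 227]))) (.n (.n .z (.l [P 206])) (.n (.l [M 149]) .z))) (.n (.n .z (.n (.l [M 135])
  .z)) (.n .z (.n (.l [M 163]) .z)))) (.n (.n (.n (.n (.l [M 38]) .z) (.n (.l [P 121, M 122, M
  127, M 169]) .z)) (.n (.n (.l [M 85]) .z) (.n (.l [M 156]) .z))) (.n (.n (.n (.l [M 63]) (.l [P
  200])) (.n (.l [M 142]) .z)) (.n (.n .z (.l [P 221])) (.n (.l [M 169]) .z))))))) (.n (.n (.n (.n
  .z (.n (.n (.n (.l [M 44]) .z) (.n .z (.l [P 233]))) (.n .z (.n .z (.l [M 247]))))) (.n (.n .z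
  (.n (.n (.l [M 81]) .z) (.n (.l [P 153]) .z))) (.n (.n (.n (.l [M 56]) .z) .z) (.n (.n .z (.l [P
  218])) (.n (.l [M 169]) .z))))) (.n (.n (.n (.n .z (.n .z (.l [P 226]))) .z) (.n (.n (.n (.l [M
  50]) .z) .z) (.n (.n (.l [M 96]) .z) .z))) (.n .z (.n (.n (.n (.l [M 62]) .z) .z) (.n .z (.n (.l
  [P 169]) .z)))))) (.n (.n .z (.n (.n (.n .z (.n .z (.l [P 230]))) (.n (.n .z (.l [P 208])) .z))
  (.n (.n .z (.n (.l [P 137]) .z)) (.n .z (.n (.l [P 169]) .z))))) (.n (.n (.n (.n (.n (.l [M 23])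
  .z) .z) (.n (.n (.l [M 76]) .z) .z)) (.n (.n (.n .z (.l [P 194])) .z) .z)) (.n (.n (.n (.n .z
  (.l [P 187])) .z) (.n (.n (.l [M 89]) .z) .z)) (.n .z (.n (.n .z (.l [P 222])) (.n (.l [P 169])
  .z)))))))⟩⟩

def p2_87 : Step := ⟨.conj 88 0, ⟨(.ofNat 1), .n (.n (.n (.n (.n (.n (.n .z (.n .z (.l [P 218]))) .z) .z) (.n (.n (.n
  (.n (.l [P 22]) (.l [M 173])) .z) (.n (.n (.l [M 69]) .z) .z)) (.n .z (.n (.n .z (.l [M 212]))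
  .z)))) (.n (.n (.n .z (.n .z (.n .z (.l [P 240])))) (.n (.n (.n (.l [P 42]) .z) .z) .z)) (.n (.n
  (.n .z (.n .z (.l [P 226]))) .z) (.n (.n .z (.n (.l [P 129]) .z)) (.n .z (.n (.l [P 161])
  .z)))))) (.n (.n (.n (.n (.n (.n .z (.l [M 168])) .z) .z) (.n (.n (.n .z (.l [M 182])) (.n .z
  (.l [P 230]))) (.n (.n .z (.l [M 207])) .z))) (.n (.n (.n (.n .z (.l [M 176])) (.n (.l [M 111])
  .z)) (.n (.n .z (.l [P 201])) (.n (.l [P 145]) .z))) (.n (.n (.n .z (.l [M 188])) .z) .z))) (.n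
  (.n (.n .z (.n .z (.n (.l [P 141]) .z))) (.n (.n .z (.n (.l [P 121, M 122, P 126, P 127, P 161])
  (.l [P 233]))) (.n (.n (.l [M 89]) .z) (.n (.l [P 155]) .z)))) (.n (.n (.n (.n (.l [P 33]) .z)
  (.n (.l [P 112]) .z)) (.n (.n (.l [P 77]) (.l [P 206])) (.n (.l [P 148]) .z))) (.n (.n (.n .z
  (.l [M 193])) (.n (.l [P 134]) .z)) (.n (.n .z (.l [M 216])) (.n (.l [P 161]) .z))))))) (.n (.n
  (.n (.n (.n (.n (.n (.l [P 6]) .z) (.n (.l [M 101]) .z)) (.n .z (.n .z (.l [P 239])))) (.n (.n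
  (.n (.l [P 37]) .z) .z) (.n .z (.n (.l [P 153]) (.l [P 246]))))) (.n (.n .z (.n (.n (.l [P 73])
  .z) .z)) (.n (.n (.n (.l [P 48]) .z) .z) (.n .z (.n (.l [P 161]) .z))))) (.n (.n .z (.n (.n (.n
  (.l [P 43]) .z) .z) .z)) (.n (.n (.n .z (.n .z (.l [P 227]))) (.n (.n (.l [M 76]) .z) .z)) (.n
  (.n (.n (.l [P 55]) .z) .z) (.n (.n (.l [M 96]) .z) (.n (.l [M 161]) .z)))))) (.n (.n (.n (.n
  (.n .z (.n (.l [M 104]) .z)) (.n (.n (.l [M 63]) .z) (.n (.l [P 137]) .z))) .z) (.n (.n .z (.n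
  (.n .z (.l [M 202])) .z)) (.n .z (.n (.n (.l [M 93]) .z) (.n (.l [M 161]) .z))))) (.n (.n (.n
  (.n (.n (.l [P 19]) (.l [P 169])) (.n (.l [M 109]) (.l [P 222]))) .z) (.n (.n (.n .z (.l [M
  186])) .z) .z)) (.n (.n (.n (.n .z (.l [M 180])) (.n (.l [M 117]) .z)) .z) (.n (.n (.n (.l [M
  57]) .z) .z) .z)))))⟩⟩

def p2_88 : Step := ⟨.conj 91 0, ⟨(.ofNat 1), .n (.n (.n (.n (.n (.n (.n (.n .z (.l [P 158])) .z) .z) (.n (.n .z (.n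
  (.l [P 110]) (.l [M 225]))) (.n .z (.n .z (.l [P 245]))))) (.n (.n (.n .z (.n (.l [P 102]) .z))
  .z) (.n (.n (.n (.l [M 41]) .z) .z) .z))) (.n (.n (.n .z (.n (.n .z (.l [P 190])) (.n (.l [M
  130]) .z))) (.n .z (.n (.n (.l [M 78]) (.l [M 203])) .z))) (.n (.n (.n (.n (.l [M 25]) .z) .z)
  (.n (.n (.l [P 67]) .z) .z)) (.n .z (.n .z (.n (.l [P 154]) .z)))))) (.n (.n (.n (.n (.n (.n (.l
  [M 7]) .z) (.n .z (.l [M 214]))) (.n .z (.n .z (.l [P 237])))) (.n .z (.n .z (.n (.l [M 146])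
  .z)))) (.n (.n (.n (.n (.l [M 21]) .z) (.n .z (.l [M 220]))) (.n (.n (.l [P 66]) .z) .z)) (.n
  (.n .z (.n .z (.l [P 232]))) (.n (.n .z (.l [M 209])) (.n (.l [P 154]) .z))))) (.n (.n (.n (.n
  (.n (.l [P 16]) (.l [M 162])) .z) (.n (.n (.l [P 61]) .z) .z)) (.n (.n (.n (.l [P 39]) (.l [P
  178])) .z) .z)) (.n (.n (.n (.n .z (.l [M 170])) (.n .z (.l [P 223]))) .z) (.n (.n .z (.n .z (.l
  [P 235]))) .z))))) (.n (.n (.n (.n (.n (.n (.n .z (.l [M 160])) .z) (.n (.n (.l [P 53]) (.l [P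
  188])) .z)) (.n (.n (.n .z (.l [M 175])) .z) (.n (.n (.l [P 74]) .z) .z))) (.n (.n (.n (.n .z
  (.l [M 167])) .z) (.n (.n .z (.l [P 195])) .z)) (.n (.n .z (.n (.l [M 119]) .z)) (.n (.n (.l [M
  83]) .z) .z)))) (.n (.n (.n (.n .z (.n (.l [M 97]) .z)) (.n (.n (.l [P 60]) .z) (.n (.l [P 133])
  .z))) (.n (.n .z (.n (.l [P 113]) .z)) (.n (.n .z (.l [M 205])) (.n (.l [P 147]) .z)))) (.n (.n
  (.n .z (.n (.l [P 105]) .z)) (.n (.n .z (.l [M 198])) (.n (.l [P 140]) .z))) (.n (.n (.n .z (.l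
  [P 184])) (.n (.l [M 120, P 121, M 122, P 125, P 126, M 154]) .z)) (.n .z (.n (.l [M 154])
  .z)))))) (.n (.n .z (.n (.n .z (.n .z (.n (.l [M 138]) .z))) (.n (.n (.n (.l [P 45]) .z) .z) (.n
  (.n (.l [M 86]) (.l [M 210])) (.n (.l [M 154]) .z))))) (.n (.n (.n .z (.n .z (.n .z (.l [M
  241])))) (.n (.n .z (.n (.l [P 118]) .z)) .z)) (.n (.n (.n (.n (.l [M 29]) .z) .z) .z) (.n .z
  (.n (.n (.l [M 90]) .z) .z))))))⟩⟩

def p2_89 : Step := ⟨.conj 90 0, ⟨(.ofNat 1), .n (.n (.n (.n (.n (.n .z (.n (.n .z (.l [M 184])) (.n (.l [M 120, M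
  121, P 124, P 125, M 151]) .z))) (.n (.n (.n (.l [P 29]) (.l [P 171])) .z) (.n (.n (.l [P 70])
  (.l [M 197])) .z))) (.n (.n .z (.n (.n .z (.l [M 191])) (.n (.l [P 132]) (.l [P 241])))) (.n .z
  (.n (.n (.l [P 79]) .z) (.n (.l [P 151]) .z))))) (.n (.n (.n (.n .z (.n (.l [P 94]) .z)) .z) .z)
  (.n (.n (.n .z (.n (.l [M 103]) .z)) (.n .z (.n (.l [M 136]) .z))) (.n (.n (.n (.l [M 46]) .z)
  .z) (.n (.n .z (.l [P 209])) (.n (.l [M 151]) .z)))))) (.n (.n (.n .z (.n .z (.n (.n (.l [P 71])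
  .z) .z))) (.n .z (.n (.n .z (.n (.l [M 118]) (.l [M 231]))) (.n .z (.n (.l [M 151]) .z))))) (.n
  (.n (.n (.n (.n (.l [M 15]) .z) .z) (.n (.n (.l [M 59]) .z) (.n .z (.l [P 238])))) .z) .z))) (.n
  (.n (.n (.n (.n (.n (.n .z (.l [P 157])) .z) (.n (.n (.l [M 52]) (.l [M 186])) .z)) (.n (.n .z
  (.n (.l [P 106]) .z)) (.n (.n .z (.l [M 199])) .z))) (.n (.n (.n (.n (.l [M 17]) (.l [P 164]))
  (.n (.l [P 98]) (.l [P 219]))) (.n (.n .z (.l [M 194])) .z)) (.n (.n (.n .z (.l [M 179])) (.n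
  (.l [P 114]) .z)) (.n (.n (.l [P 80]) .z) .z)))) (.n (.n (.n (.n (.n .z (.l [M 158])) .z) (.n .z
  (.n (.l [M 128]) .z))) (.n (.n (.n .z (.l [M 174])) (.n .z (.l [M 228]))) (.n (.n (.l [P 78])
  .z) .z))) (.n (.n (.n (.n .z (.l [M 166])) .z) .z) (.n .z (.n (.n (.l [P 86]) .z) .z))))) (.n
  (.n (.n (.n (.n (.n (.l [M 8]) .z) (.n .z (.l [P 214]))) (.n .z (.n .z (.l [P 236])))) (.n (.n
  (.n (.l [P 34]) .z) (.n (.l [M 110]) .z)) (.n .z (.n (.l [M 143]) .z)))) (.n (.n (.n (.n (.l [M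
  20]) .z) .z) (.n (.n (.l [P 64]) .z) .z)) (.n .z (.n .z (.n (.l [P 151]) .z))))) (.n (.n (.n .z
  (.n (.n .z (.l [M 190])) .z)) (.n (.n (.n (.l [P 40]) .z) .z) (.n (.n .z (.l [M 204])) (.n (.l
  [P 146]) .z)))) (.n (.n (.n .z (.n .z (.l [M 224]))) (.n .z (.n (.l [P 139]) (.l [P 244])))) (.n
  .z (.n (.n (.l [P 87]) .z) .z))))))⟩⟩

def p2_90 : Step := ⟨.conj 93 0, ⟨(.ofNat 1), .n (.n (.n (.n (.n .z (.n (.n (.n (.l [M 28]) .z) .z) .z)) (.n (.n .z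
  (.n (.n (.l [P 59]) .z) (.n (.l [M 129]) .z))) (.n .z (.n .z (.n (.l [M 150]) .z))))) (.n (.n
  (.n (.n (.n (.l [M 10]) (.l [M 157])) .z) .z) (.n (.n (.n .z (.l [M 173])) .z) .z)) (.n (.n (.n
  (.n .z (.l [M 165])) (.n (.l [P 101]) .z)) .z) (.n (.n (.n .z (.l [M 181])) .z) (.n (.n (.l [P
  84]) (.l [M 207])) .z))))) (.n (.n (.n (.n (.n .z (.n (.l [P 91]) .z)) (.n (.n (.l [P 52]) (.l
  [M 185])) .z)) (.n (.n (.n .z (.l [M 171])) (.n (.l [P 107]) .z)) .z)) (.n (.n (.n .z (.n (.l [P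
  99]) .z)) (.n (.n .z (.l [M 192])) .z)) (.n (.n (.n .z (.l [M 178])) (.n (.l [P 115]) .z)) (.n
  .z (.n (.l [P 150]) .z))))) (.n (.n .z (.n (.n .z (.n .z (.l [P 228]))) (.n (.n .z (.l [M 202]))
  (.n (.l [P 143]) .z)))) (.n (.n .z (.n .z (.n (.l [P 136]) .z))) (.n .z (.n (.n (.l [P 85]) .z)
  .z)))))) (.n (.n (.n (.n (.n .z (.n .z (.n (.l [P 120, M 121, P 124, M 150]) .z))) (.n (.n .z
  (.n .z (.l [P 224]))) .z)) (.n (.n (.n .z (.n .z (.l [M 218]))) (.n .z (.n .z (.l [P 240]))))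
  (.n .z (.n .z (.n (.l [P 150]) .z))))) (.n (.n (.n (.n (.n (.l [M 12]) .z) (.n (.l [P 93]) .z))
  .z) .z) (.n (.n (.n (.n (.l [M 24]) .z) .z) (.n (.n (.l [P 65]) .z) (.n .z (.l [P 243])))) (.n
  (.n (.n (.l [P 46]) .z) .z) (.n (.n .z (.l [M 208])) .z))))) (.n (.n (.n (.n (.n .z (.n (.l [P
  92]) (.l [M 213]))) (.n (.n .z (.l [M 187])) .z)) (.n (.n (.n (.l [M 33]) (.l [M 172])) (.n (.l
  [P 108]) .z)) (.n (.n (.l [P 72]) .z) .z))) (.n (.n (.n (.n .z (.l [M 164])) (.n (.l [P 100])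
  .z)) (.n .z (.n .z (.l [P 242])))) (.n (.n (.n .z (.l [M 180])) (.n .z (.l [P 231]))) (.n .z (.n
  (.l [M 150]) .z))))) (.n (.n (.n (.n (.n (.l [M 14]) .z) .z) (.n (.n (.l [P 58]) .z) (.n (.l [P
  128]) .z))) (.n (.n (.n (.l [M 38]) .z) .z) (.n (.n (.l [P 77]) .z) (.n (.l [M 144]) .z)))) (.n
  (.n .z (.n (.n .z (.l [M 196])) (.n (.l [M 137]) .z))) (.n (.n .z (.n .z (.l [P 234])))
  .z)))))⟩⟩

def p2_91 : Step := ⟨.conj 92 0, ⟨(.ofNat 1), .n (.n (.n (.n (.n (.n (.n (.n .z (.l [P 150])) (.n (.l [M 84]) .z)) .z)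
  (.n (.n .z (.n (.l [M 100]) .z)) .z)) (.n (.n (.n (.n (.l [P 14]) .z) (.n .z (.l [P 213]))) (.n
  (.n (.l [P 54]) .z) .z)) (.n (.n .z (.n (.l [M 108]) .z)) .z))) (.n (.n (.n (.n (.n (.l [M 9])
  (.l [M 152])) .z) .z) (.n (.n (.n .z (.l [M 168])) .z) .z)) (.n (.n (.n (.n .z (.l [M 160])) (.n
  (.l [P 96]) .z)) (.n .z (.n .z (.l [M 242])))) (.n (.n (.n .z (.l [M 177])) .z) .z)))) (.n (.n
  (.n (.n (.n .z (.n .z (.l [P 208]))) (.n (.n (.l [P 47]) .z) .z)) (.n (.n (.n (.l [P 28]) .z)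
  .z) .z)) (.n .z (.n .z (.n (.n .z (.l [P 202])) (.n (.l [P 144]) .z))))) (.n (.n (.n (.n .z (.n
  (.l [M 91]) .z)) (.n (.n .z (.l [P 185])) .z)) (.n (.n (.n (.l [P 33]) .z) (.n .z (.l [P 225])))
  (.n .z (.n (.l [P 138]) .z)))) (.n (.n (.n .z (.n .z (.l [P 218]))) (.n (.n .z (.l [P 192])) (.n
  (.l [P 130]) (.l [M 243])))) (.n (.n (.n .z (.l [P 178])) .z) (.n (.n (.l [P 81]) .z) .z))))))
  (.n (.n (.n (.n (.n (.n .z (.n .z (.l [P 207]))) (.n .z (.n (.l [P 119]) .z))) (.n (.n .z (.n .z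
  (.l [P 220]))) .z)) (.n (.n .z (.n .z (.n .z (.l [P 239])))) (.n .z (.n .z (.n (.l [P 144])
  .z))))) (.n (.n (.n (.n (.n (.l [M 11]) .z) (.n (.l [P 89]) .z)) .z) (.n .z (.n .z (.n (.l [P
  137]) .z)))) (.n (.n .z (.n (.n (.l [P 61]) .z) (.n (.l [P 129]) .z))) (.n (.n (.n (.l [P 41])
  .z) .z) .z)))) (.n (.n (.n (.n .z (.n (.n .z (.l [M 183])) .z)) (.n (.n (.n .z (.l [M 167])) .z)
  (.n (.n (.l [P 68]) (.l [P 196])) .z))) (.n (.n (.n (.n .z (.l [M 159])) .z) .z) (.n (.n (.n (.l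
  [P 38]) (.l [M 176])) (.n .z (.l [P 229]))) (.n .z (.n (.l [M 144]) .z))))) (.n (.n (.n (.n .z
  (.n (.l [M 92]) .z)) (.n (.n (.l [P 53]) .z) (.n (.l [P 120, P 121, P 122, M 124, P 144]) .z)))
  (.n (.n (.n .z (.l [P 171])) (.n (.l [M 107]) .z)) (.n (.n (.l [P 73]) .z) .z))) (.n (.n (.n (.n
  (.l [P 24]) .z) (.n (.l [M 99]) .z)) .z) (.n (.n .z (.n (.l [M 115]) (.l [P 232]))) .z)))))⟩⟩

def p2_92 : Step := ⟨.conj 95 0, ⟨(.ofNat 1), .n (.n (.n (.n (.n (.n (.n .z (.n .z (.l [M 204]))) (.n (.n .z (.l [P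
  175])) (.n (.l [M 111]) .z))) (.n (.n (.n .z (.l [M 159])) .z) .z)) (.n (.n (.n (.n .z (.l [P
  151])) (.n (.l [M 87]) .z)) (.n (.n .z (.l [P 182])) (.n .z (.l [M 237])))) (.n (.n .z (.n (.l
  [P 103]) .z)) .z))) (.n (.n (.n (.n .z (.n (.l [M 82]) .z)) (.n .z (.n (.l [P 114]) .z))) (.n
  (.n .z (.n (.l [P 98]) .z)) (.n .z (.n (.l [P 132]) .z)))) (.n (.n .z (.n .z (.n (.l [M 121, M
  122, M 123, P 124, P 125, M 139]) .z))) (.n (.n (.n (.l [M 36]) .z) (.n (.l [P 106]) .z)) (.n .z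
  (.n (.l [M 139]) .z)))))) (.n (.n (.n (.n (.n (.n .z (.l [P 146])) .z) .z) (.n .z (.n (.n (.l [P
  62]) (.l [M 190])) (.n .z (.l [P 244]))))) (.n (.n (.n (.n (.l [P 15]) .z) .z) (.n .z (.n .z (.l
  [M 238])))) (.n (.n (.n (.l [P 34]) .z) (.n .z (.l [M 226]))) (.n (.n (.l [M 70]) .z) .z)))) (.n
  (.n (.n (.n .z (.n .z (.l [P 209]))) (.n (.n (.l [M 49]) .z) (.n (.l [M 118]) .z))) (.n (.n (.n
  .z (.l [M 164])) .z) .z)) (.n (.n (.n (.n (.l [M 20]) .z) .z) .z) .z)))) (.n (.n (.n (.n (.n (.n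
  (.n .z (.l [P 145])) (.n (.l [M 79]) .z)) (.n (.n (.l [M 42]) .z) .z)) (.n .z (.n (.n .z (.l [P
  189])) .z))) (.n (.n (.n (.n (.l [P 13]) .z) .z) .z) (.n .z (.n (.n (.l [P 69]) (.l [M 197]))
  .z)))) (.n (.n (.n (.n (.n .z (.l [M 147])) .z) (.n (.n .z (.l [P 179])) (.n (.l [M 117]) .z)))
  (.n (.n (.n (.l [P 29]) (.l [M 163])) (.n .z (.l [M 221]))) (.n (.n (.l [M 66]) (.l [P 194]))
  .z))) (.n (.n (.n (.n .z (.l [M 155])) (.n .z (.l [P 214]))) (.n (.n .z (.l [P 186])) .z)) (.n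
  .z (.n (.n (.l [M 74]) .z) .z))))) (.n (.n (.n (.n (.n (.n (.l [M 5]) .z) .z) (.n .z (.n .z (.l
  [P 233])))) (.n (.n .z (.n (.l [P 97]) (.l [P 219]))) (.n .z (.n (.l [M 131]) .z)))) (.n (.n .z
  (.n (.n (.l [P 55]) .z) .z)) (.n .z (.n .z (.n (.l [P 139]) .z))))) (.n .z (.n (.n (.n .z (.n .z
  (.l [M 216]))) .z) (.n (.n (.n (.l [P 40]) .z) .z) .z)))))⟩⟩

def p2_93 : Step := ⟨.conj 94 0, ⟨(.ofNat 1), .n (.n (.n (.n (.n (.n (.n .z (.n .z (.l [M 205]))) .z) (.n (.n (.n .z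
  (.l [M 160])) (.n .z (.l [P 217]))) (.n (.n .z (.l [M 188])) .z))) (.n (.n (.n .z (.n (.l [M
  88]) .z)) .z) (.n (.n (.n (.l [P 32]) .z) .z) .z))) (.n (.n (.n (.n .z (.n (.l [M 83]) .z)) (.n
  (.n .z (.l [P 179])) (.n (.l [P 116]) .z))) (.n (.n (.n (.l [P 29]) .z) .z) (.n (.n (.l [P 64])
  (.l [M 193])) .z))) (.n (.n (.n (.n (.l [M 18]) .z) (.n .z (.l [P 214]))) .z) (.n .z (.n .z (.n
  (.l [M 140]) .z)))))) (.n (.n (.n (.n (.n (.n (.l [P 4]) .z) .z) (.n .z (.n .z (.l [P 233]))))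
  (.n (.n .z (.n (.l [P 97]) .z)) (.n .z (.n (.l [P 132]) .z)))) (.n (.n (.n (.n .z (.l [M 154]))
  (.n .z (.l [P 212]))) (.n (.n (.l [P 55]) .z) .z)) (.n (.n .z (.n .z (.l [M 227]))) .z))) (.n
  (.n (.n (.n (.n .z (.l [P 148])) .z) (.n (.n (.l [M 50]) .z) .z)) (.n (.n (.n .z (.l [M 165]))
  .z) (.n (.n (.l [P 67]) .z) .z))) (.n (.n (.n (.n (.l [M 21]) (.l [P 156])) .z) .z) (.n (.n (.n
  (.l [M 39]) .z) (.n (.l [P 110]) .z)) .z))))) (.n (.n (.n (.n (.n .z (.n (.n (.l [M 43]) .z)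
  .z)) (.n .z (.n (.n (.l [P 62]) .z) .z))) (.n (.n (.n (.n .z (.l [M 153])) .z) .z) (.n (.n .z
  (.n (.l [P 104]) .z)) (.n (.n .z (.l [M 198])) .z)))) (.n (.n (.n (.n .z (.n .z (.l [P 209])))
  (.n .z (.n .z (.l [P 235])))) .z) (.n .z (.n (.n .z (.n (.l [P 109]) .z)) (.n .z (.n (.l [P
  140]) .z)))))) (.n (.n (.n (.n (.n (.n .z (.l [M 147])) .z) (.n (.n (.l [M 45]) .z) (.n (.l [M
  113]) .z))) (.n .z (.n .z (.n (.l [M 133]) (.l [M 245]))))) (.n (.n (.n (.n (.l [M 16]) .z) .z)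
  (.n (.n .z (.l [P 184])) (.n (.l [P 123, P 124, M 125, M 126, M 140]) .z))) (.n (.n .z (.n (.l
  [M 105]) .z)) (.n (.n (.l [P 71]) (.l [M 200])) .z)))) (.n (.n (.n .z (.n .z (.n .z (.l [P
  236])))) (.n (.n .z (.n (.l [P 103]) (.l [M 223]))) (.n (.n .z (.l [M 195])) .z))) (.n (.n (.n
  (.n .z (.l [M 158])) .z) (.n (.n (.l [P 60]) .z) .z)) (.n (.n (.n .z (.l [P 175])) .z) (.n (.n
  (.l [M 76]) .z) .z))))))⟩⟩

def p2_94 : Step := ⟨.conj 97 0, ⟨(.ofNat 1), .n (.n (.n (.n (.n (.n .z (.n (.n (.l [M 43]) .z) .z)) (.n (.n .z (.n .z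
  (.l [P 218]))) .z)) (.n (.n .z (.n (.n (.l [P 51]) .z) .z)) (.n (.n (.n (.l [P 33]) (.l [P
  168])) .z) (.n (.n .z (.l [M 198])) .z)))) (.n (.n (.n (.n (.n .z (.l [P 148])) (.n .z (.l [M
  207]))) (.n (.n (.l [M 48]) (.l [P 180])) (.n .z (.l [M 234])))) (.n (.n (.n (.l [P 30]) .z) .z)
  (.n .z (.n .z (.l [P 246]))))) (.n (.n (.n .z (.n .z (.l [P 215]))) (.n (.n (.l [P 57]) .z) .z))
  (.n (.n .z (.n (.l [M 108]) .z)) .z)))) (.n (.n (.n (.n (.n .z (.n .z (.l [P 206]))) (.n .z (.n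
  (.l [P 112]) .z))) (.n (.n (.n .z (.l [P 162])) .z) (.n .z (.n (.l [P 134]) .z)))) (.n (.n (.n
  .z (.n (.l [M 90]) .z)) (.n .z (.n (.l [M 124, M 125, P 126, P 127, M 141]) .z))) .z)) (.n (.n
  .z (.n (.n .z (.n (.l [M 102]) (.l [M 223]))) (.n (.n (.l [P 68]) .z) .z))) (.n (.n .z (.n (.n
  (.l [M 58]) .z) .z)) (.n .z (.n (.n (.l [M 76]) (.l [M 203])) (.n (.l [M 141]) .z))))))) (.n (.n
  (.n (.n (.n (.n (.n (.l [M 3]) .z) .z) (.n .z (.n .z (.l [M 232])))) (.n (.n (.n (.l [P 26]) (.l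
  [P 161])) (.n (.l [M 96]) .z)) (.n (.n (.l [P 63]) .z) (.n (.l [M 133]) .z)))) (.n (.n .z (.n
  (.n (.l [M 53]) .z) .z)) (.n (.n .z (.n .z (.l [M 227]))) .z))) (.n (.n .z (.n (.n .z (.n (.l [M
  101]) .z)) .z)) (.n (.n (.n (.n (.l [P 19]) .z) .z) .z) (.n (.n (.n (.l [M 39]) (.l [P 173]))
  (.n .z (.l [M 230]))) (.n (.n .z (.l [P 201])) (.n (.l [P 141]) .z)))))) (.n (.n (.n (.n (.n .z
  (.n (.l [M 83]) .z)) (.n .z (.n (.l [M 115]) .z))) (.n .z (.n (.n .z (.l [M 193])) .z))) (.n (.n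
  (.n (.n .z (.l [P 155])) .z) (.n (.n .z (.l [P 185])) .z)) (.n .z (.n (.n (.l [P 72]) .z) .z))))
  (.n (.n (.n (.n (.n .z (.l [M 149])) (.n (.l [M 88]) (.l [P 211]))) .z) (.n (.n (.n .z (.l [P
  166])) .z) .z)) (.n (.n (.n (.n (.l [P 22]) .z) (.n (.l [M 95]) .z)) (.n (.n .z (.l [M 188]))
  .z)) (.n (.n (.n .z (.l [P 176])) .z) .z)))))⟩⟩

def p2_95 : Step := ⟨.conj 96 0, ⟨(.ofNat 1), .n (.n (.n (.n (.n (.n (.n (.n (.l [P 2]) .z) (.n (.l [P 80]) .z)) (.n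
  (.n (.l [M 44]) (.l [M 177])) (.n .z (.l [P 231])))) (.n (.n (.n (.l [M 23]) .z) .z) (.n (.n (.l
  [P 63]) .z) (.n (.l [P 134]) .z)))) (.n .z (.n (.n .z (.n .z (.l [P 226]))) (.n (.n .z (.l [M
  199])) .z)))) (.n (.n (.n (.n .z (.n .z (.l [M 208]))) (.n (.n (.l [M 49]) .z) .z)) (.n (.n .z
  (.n (.l [P 100]) (.l [P 222]))) .z)) (.n (.n (.n (.n .z (.l [M 156])) .z) (.n (.n .z (.l [M
  187])) .z)) (.n (.n (.n (.l [M 38]) .z) (.n .z (.l [P 229]))) (.n (.n (.l [P 75]) (.l [P 201]))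
  .z))))) (.n (.n (.n (.n (.n .z (.n (.l [P 82]) .z)) (.n .z (.n (.l [P 114]) .z))) (.n (.n (.n
  (.l [M 27]) .z) .z) (.n (.n .z (.l [M 192])) .z))) (.n .z (.n (.n (.n .z (.l [M 170])) .z) (.n
  (.n (.l [P 72]) .z) .z)))) (.n (.n (.n (.n .z (.n (.l [P 87]) (.l [P 211]))) .z) .z) (.n (.n (.n
  .z (.n (.l [P 94]) .z)) (.n (.n (.l [M 59]) .z) .z)) (.n (.n (.n .z (.l [M 174])) .z) (.n (.n .z
  (.l [M 204])) (.n (.l [M 142]) .z))))))) (.n (.n (.n (.n (.n (.n .z (.n .z (.l [P 206]))) .z)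
  (.n (.n .z (.n .z (.l [P 219]))) (.n .z (.n (.l [M 135]) .z)))) (.n (.n (.n .z (.n (.l [P 89])
  .z)) (.n (.n (.l [M 54]) .z) (.n (.l [P 125, P 126, M 127, M 142]) .z))) (.n (.n (.n (.l [M 35])
  (.l [M 169])) .z) .z))) (.n (.n (.n (.n (.n .z (.l [M 149])) .z) (.n (.n .z (.l [M 181])) .z))
  (.n (.n (.n (.l [M 31]) .z) .z) (.n (.n (.l [P 68]) .z) (.n .z (.l [M 247]))))) (.n (.n (.n .z
  (.n (.l [P 93]) .z)) .z) (.n (.n (.n (.l [M 40]) .z) .z) .z)))) (.n (.n (.n .z (.n (.n (.n .z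
  (.l [M 163])) .z) (.n (.n .z (.l [M 194])) .z))) (.n (.n (.n .z (.n .z (.l [P 215]))) (.n (.n
  (.l [P 57]) .z) .z)) (.n (.n .z (.n (.l [P 107]) .z)) .z))) (.n (.n (.n .z (.n (.n (.l [P 51])
  (.l [M 183])) .z)) (.n .z (.n (.n (.l [P 69]) .z) .z))) (.n (.n (.n .z (.n .z (.l [P 218]))) (.n
  (.n .z (.l [M 189])) .z)) (.n .z (.n .z (.n (.l [P 142]) .z)))))))⟩⟩

def p2_96 : Step := ⟨.conj 99 0, ⟨(.ofNat 1), .n (.n (.n (.n (.n (.n (.n (.n (.l [M 1]) .z) (.n (.l [M 71]) .z)) (.n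
  .z (.n .z (.l [M 228])))) (.n .z (.n (.n (.l [M 56]) (.l [M 183])) (.n (.l [M 126, (127,
  .negSucc 1), P 135]) .z)))) (.n (.n .z (.n (.n .z (.l [M 177])) .z)) (.n (.n .z (.n .z (.l [M
  221]))) .z))) (.n (.n .z (.n (.n (.n .z (.l [M 156])) (.n (.l [M 92]) (.l [M 217]))) (.n (.n (.l
  [M 59]) (.l [M 187])) .z))) (.n .z (.n (.n .z (.n .z (.l [M 225]))) (.n (.n (.l [M 67]) (.l [M
  195])) .z))))) (.n (.n (.n (.n (.n .z (.n (.l [M 74]) .z)) (.n (.n (.l [M 40]) (.l [M 170])) (.n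
  (.l [M 106]) .z))) .z) (.n (.n (.n .z (.n .z (.l [M 208]))) (.n (.n (.l [M 49]) .z) .z)) (.n (.n
  (.n (.l [M 31]) .z) .z) (.n (.n (.l [M 65]) (.l [M 194])) .z)))) (.n (.n (.n (.n (.n .z (.l [M
  142])) (.n (.l [M 79]) (.l [M 205]))) (.n (.n .z (.l [M 174])) .z)) (.n (.n (.n (.l [M 27]) .z)
  .z) (.n (.n .z (.l [M 189])) (.n .z (.l [M 247]))))) (.n (.n (.n .z (.n (.l [M 86]) .z)) .z) (.n
  (.n (.n (.l [M 35]) .z) .z) .z))))) (.n (.n (.n (.n (.n (.n .z (.n .z (.l [M 200]))) (.n (.n (.l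
  [M 38]) (.l [M 169])) .z)) (.n (.n .z (.n .z (.l [M 214]))) .z)) (.n (.n (.n .z (.n (.l [M 81])
  .z)) (.n .z (.n (.l [M 113]) .z))) (.n .z (.n (.n .z (.l [M 192])) .z)))) (.n (.n (.n (.n .z (.n
  .z (.l [M 204]))) (.n (.n (.l [M 44]) .z) .z)) (.n .z (.n (.n (.l [M 61]) .z) .z))) (.n (.n (.n
  (.n .z (.l [M 149])) (.n (.l [M 85]) .z)) (.n (.n .z (.l [M 181])) .z)) .z))) (.n (.n (.n .z (.n
  (.n (.n (.l [M 23]) .z) .z) .z)) (.n (.n (.n .z (.n .z (.l [M 210]))) (.n (.n (.l [M 50]) .z)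
  .z)) (.n (.n (.n .z (.l [M 163])) (.n (.l [M 99]) .z)) .z))) (.n (.n (.n .z (.n (.n (.l [M 45])
  .z) .z)) (.n .z (.n (.n (.l [M 62]) .z) .z))) (.n (.n (.n .z (.n .z (.l [M 213]))) (.n (.n (.l
  [M 54]) .z) .z)) (.n .z (.n (.n .z (.l [M 199])) (.n (.l [M 135]) .z)))))))⟩⟩

def p2_97 : Step := ⟨.quot 0 10000, ⟨(.ofNat 1), .n (.n (.n (.n (.n (.n (.n (.n (.l [P 1]) .z) (.n (.l [P 71]) .z))
  (.n .z (.n .z (.l [P 228])))) (.n .z (.n (.n (.l [P 56]) (.l [P 183])) (.n (.l [P 126, (127,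
  .ofNat 2), P 135]) .z)))) (.n (.n .z (.n (.n .z (.l [P 177])) .z)) (.n (.n .z (.n .z (.l [P
  221]))) .z))) (.n (.n .z (.n (.n (.n .z (.l [P 156])) (.n (.l [P 92]) (.l [P 217]))) (.n (.n (.l
  [P 59]) (.l [P 187])) .z))) (.n .z (.n (.n .z (.n .z (.l [P 225]))) (.n (.n (.l [P 67]) (.l [P
  195])) .z))))) (.n (.n (.n (.n (.n .z (.n (.l [P 74]) .z)) (.n (.n (.l [P 40]) (.l [P 170])) (.n
  (.l [P 106]) .z))) .z) (.n (.n (.n .z (.n .z (.l [P 208]))) (.n (.n (.l [P 49]) .z) .z)) (.n (.n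
  (.n (.l [P 31]) .z) .z) (.n (.n (.l [P 65]) (.l [P 194])) .z)))) (.n (.n (.n (.n (.n .z (.l [P
  142])) (.n (.l [P 79]) (.l [P 205]))) (.n (.n .z (.l [P 174])) .z)) (.n (.n (.n (.l [P 27]) .z)
  .z) (.n (.n .z (.l [P 189])) (.n .z (.l [P 247]))))) (.n (.n (.n .z (.n (.l [P 86]) .z)) .z) (.n
  (.n (.n (.l [P 35]) .z) .z) .z))))) (.n (.n (.n (.n (.n (.n .z (.n .z (.l [P 200]))) (.n (.n (.l
  [P 38]) (.l [P 169])) .z)) (.n (.n .z (.n .z (.l [P 214]))) .z)) (.n (.n (.n .z (.n (.l [P 81])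
  .z)) (.n .z (.n (.l [P 113]) .z))) (.n .z (.n (.n .z (.l [P 192])) .z)))) (.n (.n (.n (.n .z (.n
  .z (.l [P 204]))) (.n (.n (.l [P 44]) .z) .z)) (.n .z (.n (.n (.l [P 61]) .z) .z))) (.n (.n (.n
  (.n .z (.l [P 149])) (.n (.l [P 85]) .z)) (.n (.n .z (.l [P 181])) .z)) .z))) (.n (.n (.n .z (.n
  (.n (.n (.l [P 23]) .z) .z) .z)) (.n (.n (.n .z (.n .z (.l [P 210]))) (.n (.n (.l [P 50]) .z)
  .z)) (.n (.n (.n .z (.l [P 163])) (.n (.l [P 99]) .z)) .z))) (.n (.n (.n .z (.n (.n (.l [P 45])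
  .z) .z)) (.n .z (.n (.n (.l [P 62]) .z) .z))) (.n (.n (.n .z (.n .z (.l [P 213]))) (.n (.n (.l
  [P 54]) .z) .z)) (.n .z (.n (.n .z (.l [P 199])) (.n (.l [P 135]) .z)))))))⟩⟩

def p2_98 : Step := ⟨.quot 67 10000, ⟨(.ofNat 1), .n (.n (.n (.n (.n (.n (.n (.n .z (.l [P 119, (120, .ofNat 2), P
  122])) (.n (.l [P 60]) .z)) (.n .z (.n .z (.l [P 220])))) (.n (.n .z (.n (.l [P 75]) .z)) (.n .z
  (.n .z (.l [P 239]))))) (.n (.n (.n (.n (.l [P 7]) (.l [P 130])) (.n (.l [P 68]) (.l [P 195])))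
  .z) (.n (.n .z (.n (.l [P 83]) .z)) (.n .z (.n (.l [P 119]) .z))))) (.n (.n (.n .z (.n (.n .z
  (.l [P 159])) (.n .z (.l [P 225])))) (.n .z (.n (.n (.l [P 47]) (.l [P 176])) .z))) (.n (.n (.n
  (.n (.l [P 11]) .z) .z) (.n (.n .z (.l [P 167])) (.n .z (.l [P 235])))) .z))) (.n (.n (.n (.n
  (.n .z (.n .z (.l [P 189]))) .z) (.n (.n (.n (.l [P 16]) .z) .z) .z)) (.n (.n (.n (.n (.l [P 9])
  .z) .z) (.n .z (.n .z (.l [P 232])))) (.n .z (.n (.n (.l [P 53]) (.l [P 182])) .z)))) (.n (.n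
  (.n (.n .z (.n (.l [P 66]) .z)) (.n (.n .z (.l [P 162])) .z)) (.n (.n (.n (.l [P 19]) (.l [P
  144])) .z) .z)) (.n (.n (.n .z (.n .z (.l [P 201]))) (.n (.n (.l [P 41]) (.l [P 170])) (.n .z
  (.l [P 237])))) (.n (.n (.n .z (.l [P 154])) .z) .z))))) (.n (.n (.n (.n (.n (.n .z (.n (.l [P
  61]) (.l [P 188]))) .z) .z) .z) (.n (.n (.n .z (.n (.n .z (.l [P 160])) (.n (.l [P 96]) .z)))
  (.n (.n .z (.n (.l [P 81]) .z)) (.n (.n .z (.l [P 177])) (.n (.l [P 111]) .z)))) (.n (.n (.n .z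
  (.n (.l [P 73]) .z)) (.n (.n .z (.l [P 168])) (.n (.l [P 104]) .z))) (.n (.n (.n .z (.l [P
  152])) (.n (.l [P 89]) .z)) .z)))) (.n (.n (.n .z (.n .z (.n (.n .z (.l [P 175])) .z))) (.n .z
  (.n (.n (.n (.l [P 23]) .z) .z) (.n (.n (.l [P 54]) (.l [P 183])) .z)))) (.n (.n (.n (.n .z (.n
  (.l [P 67]) .z)) (.n .z (.n (.l [P 97]) (.l [P 229])))) (.n (.n (.n .z (.l [P 146])) (.n (.l [P
  82]) .z)) .z)) (.n (.n (.n (.n (.l [P 13]) (.l [P 138])) (.n (.l [P 74]) .z)) .z) (.n (.n .z (.n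
  (.l [P 90]) .z)) .z)))))⟩⟩

def p2_99 : Step := ⟨.conj 102 62, ⟨(.ofNat 1), .n (.n (.n (.n (.n (.n (.n .z (.n .z (.l [P 187]))) (.n (.n .z (.l [P
  153])) .z)) (.n (.n (.n .z (.l [P 137])) .z) .z)) (.n (.n (.n (.n .z (.l [P 128])) .z) (.n (.n
  .z (.l [P 161])) (.n .z (.l [P 230])))) (.n (.n (.n .z (.l [P 145])) .z) (.n (.n .z (.l [P
  179])) .z)))) (.n (.n (.n (.n .z (.n (.l [P 63]) .z)) (.n .z (.n (.l [P 93]) .z))) (.n (.n .z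
  (.n (.l [P 77]) .z)) (.n .z (.n (.l [P 109]) .z)))) (.n (.n .z (.n .z (.n (.l [P 101]) .z))) (.n
  (.n .z (.n (.l [P 85]) (.l [P 216]))) (.n (.n (.l [P 55]) .z) .z))))) (.n (.n (.n (.n (.n (.n .z
  (.l [P 117, P 120, (122, .ofNat 2), P 123])) .z) (.n (.n .z (.l [P 155])) .z)) (.n (.n (.n .z
  (.l [P 139])) .z) (.n (.n .z (.l [P 172])) (.n .z (.l [P 240]))))) (.n (.n (.n (.n .z (.l [P
  131])) .z) (.n (.n .z (.l [P 163])) .z)) (.n (.n (.n (.l [P 22]) (.l [P 147])) .z) (.n .z (.n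
  (.l [P 117]) .z))))) (.n (.n (.n (.n .z (.n .z (.l [P 193]))) (.n .z (.n (.l [P 95]) .z))) (.n
  (.n .z (.n (.l [P 79]) .z)) (.n (.n (.l [P 49]) .z) .z))) (.n (.n (.n (.n (.l [P 12]) .z) (.n
  (.l [P 70]) .z)) (.n .z (.n (.l [P 103]) .z))) (.n (.n .z (.n (.l [P 87]) .z)) .z))))) (.n (.n
  (.n (.n (.n .z (.n .z (.n .z (.l [P 221])))) (.n (.n (.n (.l [P 15]) .z) .z) (.n (.n .z (.l [P
  169])) (.n .z (.l [P 238]))))) (.n (.n (.n (.n (.l [P 6]) .z) .z) (.n (.n (.l [P 36]) .z) .z))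
  (.n .z (.n (.n .z (.l [P 180])) .z)))) (.n (.n (.n .z (.n .z (.n .z (.l [P 226])))) (.n (.n (.n
  (.l [P 18]) .z) .z) (.n (.n (.l [P 48]) .z) .z))) (.n (.n (.n .z (.n .z (.l [P 200]))) .z) (.n
  .z (.n (.n (.l [P 56]) .z) .z))))) (.n (.n (.n (.n (.n .z (.n (.l [P 62]) .z)) .z) (.n (.n .z
  (.n (.l [P 76]) (.l [P 206]))) .z)) (.n (.n (.n .z (.n (.l [P 69]) .z)) (.n (.n .z (.l [P 164]))
  (.n .z (.l [P 233])))) .z)) (.n (.n (.n (.n (.n (.l [P 5]) .z) (.n .z (.l [P 194]))) .z) (.n .z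
  (.n .z (.n (.l [P 111]) .z)))) (.n (.n .z (.n (.n (.l [P 42]) .z) .z)) (.n (.n (.n (.l [P 27])
  .z) .z) (.n (.n .z (.l [P 186])) .z))))))⟩⟩

def p2_100 : Step := ⟨.conj 103 49, ⟨(.ofNat 1), .n (.n (.n (.n (.n (.n (.n .z (.n (.l [M 58]) .z)) (.n (.n (.l [M 28])
  .z) .z)) (.n (.n .z (.n (.l [M 72]) .z)) .z)) (.n (.n .z (.n (.n (.l [M 35]) .z) (.n (.l [M 96])
  .z))) (.n (.n (.n .z (.l [M 144])) .z) (.n (.n .z (.l [M 178])) .z)))) (.n (.n (.n (.n (.n (.l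
  [M 3]) (.l [P 115, M 123, (124, .negSucc 1), M 125])) .z) .z) (.n (.n (.n .z (.l [M 141])) (.n
  .z (.l [M 207]))) (.n .z (.n (.l [M 108]) (.l [M 243]))))) (.n (.n (.n (.n .z (.l [M 133])) .z)
  (.n (.n (.l [M 38]) .z) (.n .z (.l [M 234])))) (.n (.n (.n .z (.l [M 149])) .z) (.n (.n (.l [M
  53]) .z) (.n (.l [M 115]) .z)))))) (.n (.n (.n (.n (.n .z (.n .z (.l [M 187]))) (.n (.n (.l [M
  30]) .z) (.n (.l [M 91]) .z))) (.n (.n (.n .z (.l [M 138])) .z) (.n .z (.n (.l [M 107]) .z))))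
  (.n (.n .z (.n .z (.n (.l [M 99]) .z))) (.n .z (.n (.n .z (.l [M 180])) .z)))) (.n (.n .z (.n
  (.n .z (.n .z (.l [M 210]))) (.n (.n .z (.l [M 176])) .z))) (.n (.n .z (.n .z (.n (.l [M 102])
  .z))) (.n (.n .z (.n .z (.l [M 218]))) (.n (.n (.l [M 56]) .z) .z)))))) (.n (.n (.n (.n (.n .z
  (.n .z (.n (.l [M 90]) .z))) (.n (.n (.n (.l [M 14]) (.l [M 137])) (.n .z (.l [M 203]))) .z))
  (.n (.n .z (.n .z (.n .z (.l [M 230])))) (.n (.n .z (.n .z (.l [M 213]))) .z))) (.n (.n (.n (.n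
  .z (.n (.l [M 63]) .z)) (.n (.n (.l [M 33]) .z) .z)) .z) (.n (.n (.n (.n (.l [M 11]) .z) .z) (.n
  .z (.n (.l [M 101]) .z))) (.n (.n (.n (.l [M 25]) (.l [M 150])) .z) (.n (.n .z (.l [M 183]))
  .z))))) (.n (.n (.n (.n (.n .z (.n (.l [M 61]) .z)) .z) (.n .z (.n (.n .z (.l [M 172])) .z)))
  (.n (.n (.n (.n .z (.l [M 131])) (.n (.l [M 68]) .z)) (.n .z (.n .z (.l [M 232])))) (.n (.n .z
  (.n .z (.l [M 215]))) .z))) (.n (.n (.n (.n .z (.n (.l [M 65]) (.l [M 192]))) (.n .z (.n (.l [M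
  95]) .z))) (.n (.n (.n .z (.l [M 143])) .z) (.n (.n (.l [M 48]) .z) .z))) (.n (.n (.n (.n (.l [M
  12]) .z) .z) (.n (.n .z (.l [M 167])) .z)) (.n .z (.n (.n .z (.l [M 185])) .z))))))⟩⟩

def p2_101 : Step := ⟨.quot 0 10000, ⟨(.ofNat 1), .n (.n (.n (.n (.n (.n (.n .z (.n (.l [P 58]) .z)) (.n (.n (.l [P
  28]) .z) .z)) (.n (.n .z (.n (.l [P 72]) .z)) .z)) (.n (.n .z (.n (.n (.l [P 35]) .z) (.n (.l [P
  96]) .z))) (.n (.n (.n .z (.l [P 144])) .z) (.n (.n .z (.l [P 178])) .z)))) (.n (.n (.n (.n (.n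
  (.l [P 3]) (.l [P 115, P 123, (124, .ofNat 2), P 125])) .z) .z) (.n (.n (.n .z (.l [P 141])) (.n
  .z (.l [P 207]))) (.n .z (.n (.l [P 108]) (.l [P 243]))))) (.n (.n (.n (.n .z (.l [P 133])) .z)
  (.n (.n (.l [P 38]) .z) (.n .z (.l [P 234])))) (.n (.n (.n .z (.l [P 149])) .z) (.n (.n (.l [P
  53]) .z) (.n (.l [P 115]) .z)))))) (.n (.n (.n (.n (.n .z (.n .z (.l [P 187]))) (.n (.n (.l [P
  30]) .z) (.n (.l [P 91]) .z))) (.n (.n (.n .z (.l [P 138])) .z) (.n .z (.n (.l [P 107]) .z))))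
  (.n (.n .z (.n .z (.n (.l [P 99]) .z))) (.n .z (.n (.n .z (.l [P 180])) .z)))) (.n (.n .z (.n
  (.n .z (.n .z (.l [P 210]))) (.n (.n .z (.l [P 176])) .z))) (.n (.n .z (.n .z (.n (.l [P 102])
  .z))) (.n (.n .z (.n .z (.l [P 218]))) (.n (.n (.l [P 56]) .z) .z)))))) (.n (.n (.n (.n (.n .z
  (.n .z (.n (.l [P 90]) .z))) (.n (.n (.n (.l [P 14]) (.l [P 137])) (.n .z (.l [P 203]))) .z))
  (.n (.n .z (.n .z (.n .z (.l [P 230])))) (.n (.n .z (.n .z (.l [P 213]))) .z))) (.n (.n (.n (.n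
  .z (.n (.l [P 63]) .z)) (.n (.n (.l [P 33]) .z) .z)) .z) (.n (.n (.n (.n (.l [P 11]) .z) .z) (.n
  .z (.n (.l [P 101]) .z))) (.n (.n (.n (.l [P 25]) (.l [P 150])) .z) (.n (.n .z (.l [P 183]))
  .z))))) (.n (.n (.n (.n (.n .z (.n (.l [P 61]) .z)) .z) (.n .z (.n (.n .z (.l [P 172])) .z)))
  (.n (.n (.n (.n .z (.l [P 131])) (.n (.l [P 68]) .z)) (.n .z (.n .z (.l [P 232])))) (.n (.n .z
  (.n .z (.l [P 215]))) .z))) (.n (.n (.n (.n .z (.n (.l [P 65]) (.l [P 192]))) (.n .z (.n (.l [P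
  95]) .z))) (.n (.n (.n .z (.l [P 143])) .z) (.n (.n (.l [P 48]) .z) .z))) (.n (.n (.n (.n (.l [P
  12]) .z) .z) (.n (.n .z (.l [P 167])) .z)) (.n .z (.n (.n .z (.l [P 185])) .z))))))⟩⟩

def p2_102 : Step := ⟨.conj 103 35, ⟨(.ofNat 1), .n (.n (.n (.n (.n (.n .z (.n (.n .z (.l [P 152])) (.n (.l [P 89])
  .z))) (.n (.n (.n (.l [P 13]) .z) .z) (.n (.n (.l [P 42]) .z) .z))) (.n (.n (.n .z (.n .z (.l [P
  194]))) (.n .z (.n .z (.l [P 229])))) (.n (.n .z (.n (.l [P 80]) .z)) (.n (.n (.l [P 49]) .z)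
  .z)))) (.n .z (.n (.n (.n (.n .z (.l [P 132])) (.n (.l [P 69]) .z)) (.n (.n .z (.l [P 164])) (.n
  (.l [P 100]) .z))) (.n (.n (.n (.l [P 24]) .z) .z) (.n (.n .z (.l [P 182])) .z))))) (.n (.n (.n
  .z (.n (.n (.n (.l [P 15]) .z) (.n .z (.l [P 204]))) (.n (.n (.l [P 44]) (.l [P 171])) .z))) (.n
  (.n .z (.n .z (.n .z (.l [P 231])))) (.n (.n (.n .z (.l [P 146])) (.n (.l [P 82]) .z)) (.n (.n
  (.l [P 52]) .z) .z)))) (.n (.n (.n (.n .z (.n .z (.l [P 191]))) (.n .z (.n (.l [P 94]) (.l [P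
  226])))) .z) (.n .z (.n (.n (.n .z (.l [P 151])) .z) .z))))) (.n (.n (.n (.n (.n (.n .z (.n (.l
  [P 59]) (.l [P 186]))) .z) (.n .z (.n .z (.n (.l [P 106]) .z)))) (.n (.n .z (.n .z (.n (.l [P
  98]) .z))) (.n (.n (.n (.l [P 20]) (.l [P 145])) .z) .z))) (.n (.n (.n (.n (.n .z (.l [P 114, P
  124, (125, .ofNat 2), P 126])) .z) (.n (.n .z (.l [P 157])) (.n (.l [P 93]) .z))) (.n (.n (.n
  (.l [P 17]) (.l [P 142])) (.n .z (.l [P 208]))) (.n (.n (.l [P 47]) .z) (.n .z (.l [P 244])))))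
  (.n (.n (.n (.n .z (.l [P 134])) (.n .z (.l [P 199]))) (.n (.n (.l [P 40]) .z) .z)) (.n .z (.n
  (.n (.l [P 54]) .z) (.n (.l [P 114]) .z)))))) (.n (.n (.n (.n (.n (.n (.l [P 2]) .z) (.n .z (.l
  [P 189]))) (.n .z (.n .z (.l [P 222])))) (.n (.n (.n .z (.l [P 139])) (.n (.l [P 75]) .z)) (.n
  .z (.n (.l [P 107]) .z)))) (.n (.n (.n .z (.n .z (.l [P 197]))) (.n (.n (.l [P 37]) .z) .z))
  .z)) (.n (.n (.n .z (.n (.n (.l [P 34]) (.l [P 159])) .z)) .z) (.n (.n (.n .z (.n .z (.l [P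
  202]))) .z) (.n (.n .z (.n (.l [P 87]) (.l [P 219]))) .z)))))⟩⟩

def p2_103 : Step := ⟨.conj 106 21, ⟨(.ofNat 1), .n (.n (.n (.n (.n .z (.n (.n .z (.n (.l [P 71]) .z)) (.n (.n .z (.l
  [P 167])) (.n (.l [P 105]) .z)))) (.n (.n (.n .z (.n (.l [P 65]) .z)) (.n (.n .z (.l [P 160]))
  .z)) .z)) (.n (.n (.n (.n .z (.n (.l [P 61]) .z)) (.n .z (.n (.l [P 92]) .z))) (.n (.n (.n .z
  (.l [P 140])) .z) (.n (.n (.l [P 46]) (.l [P 172])) .z))) .z)) (.n (.n (.n (.n (.n (.n (.l [P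
  1]) .z) .z) (.n (.n (.l [P 29]) (.l [P 154])) (.n .z (.l [P 221])))) (.n (.n .z (.n (.l [P 74])
  .z)) (.n .z (.n (.l [P 106]) .z)))) (.n (.n (.n .z (.n .z (.l [P 196]))) (.n (.n (.l [P 36]) .z)
  .z)) (.n (.n (.n (.l [P 21]) .z) (.n .z (.l [P 213]))) (.n (.n .z (.l [P 179])) .z)))) (.n (.n
  (.n (.n (.n .z (.l [P 113, P 125, (126, .ofNat 2), P 127])) .z) (.n (.n .z (.l [P 158])) .z))
  (.n (.n (.n (.l [P 18]) .z) .z) (.n (.n .z (.l [P 175])) (.n .z (.l [P 245]))))) (.n (.n (.n (.n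
  .z (.l [P 135])) (.n .z (.l [P 200]))) .z) (.n (.n (.n (.l [P 25]) .z) (.n (.l [P 86]) (.l [P
  217]))) (.n .z (.n (.l [P 113]) .z))))))) (.n (.n (.n (.n (.n .z (.n (.n (.l [P 28]) (.l [P
  153])) .z)) .z) (.n (.n (.n .z (.n .z (.l [P 195]))) .z) (.n (.n .z (.n (.l [P 81]) .z)) (.n (.n
  (.l [P 50]) (.l [P 178])) .z)))) (.n (.n (.n (.n .z (.n (.l [P 62]) (.l [P 190]))) (.n (.n (.l
  [P 32]) .z) (.n .z (.l [P 225])))) .z) (.n (.n (.n (.n .z (.l [P 133])) .z) (.n (.n .z (.l [P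
  165])) .z)) (.n (.n .z (.n (.l [P 85]) .z)) .z)))) (.n (.n (.n .z (.n (.n (.n (.l [P 16]) .z)
  (.n .z (.l [P 205]))) (.n (.n (.l [P 45]) .z) .z))) (.n (.n (.n .z (.n (.l [P 67]) .z)) (.n .z
  (.n (.l [P 99]) .z))) (.n (.n (.n .z (.l [P 147])) (.n .z (.l [P 214]))) .z))) (.n (.n (.n .z
  (.n .z (.n .z (.l [P 228])))) (.n (.n .z (.n (.l [P 79]) (.l [P 210]))) .z)) (.n (.n .z (.n (.n
  (.l [P 41]) .z) .z)) (.n .z (.n (.n (.l [P 56]) (.l [P 184])) .z))))))⟩⟩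

def p2_104 : Step := ⟨.conj 105 7, ⟨(.ofNat 1), .n (.n (.n (.n (.n (.n (.n .z (.n .z (.l [M 185]))) .z) (.n (.n .z (.n
  .z (.l [M 202]))) .z)) (.n (.n (.n .z (.n .z (.l [M 193]))) (.n (.n (.l [M 34]) .z) .z)) (.n .z
  (.n (.n (.l [M 48]) .z) .z)))) (.n (.n (.n .z (.n .z (.n .z (.l [M 224])))) .z) (.n (.n (.n .z
  (.n .z (.l [M 197]))) (.n (.n (.l [M 37]) .z) .z)) (.n (.n (.n .z (.l [M 148])) (.n (.l [M 84])
  .z)) .z)))) (.n (.n (.n (.n (.n .z (.n .z (.l [M 186]))) .z) (.n (.n .z (.n .z (.l [M 203])))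
  (.n (.n (.l [M 43]) .z) .z))) (.n (.n (.n .z (.n (.l [M 66]) .z)) (.n (.n .z (.l [M 162])) (.n
  (.l [M 98]) .z))) .z)) (.n (.n (.n .z (.n (.n (.l [M 33]) .z) .z)) (.n (.n .z (.n (.l [M 78])
  (.l [M 209]))) (.n (.n (.l [M 47]) .z) .z))) (.n (.n (.n (.n .z (.l [M 134])) .z) (.n (.n .z (.l
  [M 166])) .z)) (.n .z (.n (.n (.l [M 55]) .z) .z)))))) (.n (.n (.n (.n (.n (.n (.n (.l [M 0])
  .z) (.n (.l [M 58]) .z)) (.n .z (.n .z (.l [M 220])))) (.n (.n .z (.n (.l [M 73]) .z)) (.n (.n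
  (.l [M 42]) (.l [M 168])) (.n (.l [M 105]) .z)))) (.n (.n .z (.n (.n .z (.l [M 161])) .z)) (.n
  (.n .z (.n .z (.l [M 212]))) .z))) (.n (.n .z (.n (.n (.n .z (.l [M 141])) (.n (.l [M 77]) (.l
  [M 207]))) (.n (.n .z (.l [M 173])) .z))) (.n (.n (.n .z (.n .z (.l [M 198]))) (.n (.n (.l [M
  39]) .z) .z)) (.n (.n .z (.n .z (.l [M 216]))) (.n (.n (.l [M 53]) (.l [M 182])) .z))))) (.n (.n
  (.n (.n (.n .z (.n (.l [M 60]) (.l [M 188]))) (.n (.n (.l [M 30]) (.l [M 155])) (.n (.l [M 91])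
  .z))) .z) (.n .z (.n (.n (.n (.l [M 22]) .z) .z) (.n (.n (.l [M 52]) (.l [M 180])) .z)))) (.n
  (.n (.n (.n (.n .z (.l [P 112, M 126, (127, .negSucc 1)])) (.n (.l [M 64]) (.l [M 191]))) .z)
  (.n (.n (.n (.l [M 19]) .z) .z) (.n (.n .z (.l [M 176])) (.n .z (.l [M 246]))))) (.n (.n (.n .z
  (.n (.l [M 70]) .z)) .z) (.n (.n (.n (.l [M 26]) .z) .z) (.n .z (.n (.l [M 112]) .z)))))))⟩⟩

def p2_105 : Step := ⟨.quot 0 10000, ⟨(.ofNat 1), .n (.n (.n (.n (.n (.n (.n .z (.n .z (.l [P 185]))) .z) (.n (.n .z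
  (.n .z (.l [P 202]))) .z)) (.n (.n (.n .z (.n .z (.l [P 193]))) (.n (.n (.l [P 34]) .z) .z)) (.n
  .z (.n (.n (.l [P 48]) .z) .z)))) (.n (.n (.n .z (.n .z (.n .z (.l [P 224])))) .z) (.n (.n (.n
  .z (.n .z (.l [P 197]))) (.n (.n (.l [P 37]) .z) .z)) (.n (.n (.n .z (.l [P 148])) (.n (.l [P
  84]) .z)) .z)))) (.n (.n (.n (.n (.n .z (.n .z (.l [P 186]))) .z) (.n (.n .z (.n .z (.l [P
  203]))) (.n (.n (.l [P 43]) .z) .z))) (.n (.n (.n .z (.n (.l [P 66]) .z)) (.n (.n .z (.l [P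
  162])) (.n (.l [P 98]) .z))) .z)) (.n (.n (.n .z (.n (.n (.l [P 33]) .z) .z)) (.n (.n .z (.n (.l
  [P 78]) (.l [P 209]))) (.n (.n (.l [P 47]) .z) .z))) (.n (.n (.n (.n .z (.l [P 134])) .z) (.n
  (.n .z (.l [P 166])) .z)) (.n .z (.n (.n (.l [P 55]) .z) .z)))))) (.n (.n (.n (.n (.n (.n (.n
  (.l [P 0]) .z) (.n (.l [P 58]) .z)) (.n .z (.n .z (.l [P 220])))) (.n (.n .z (.n (.l [P 73])
  .z)) (.n (.n (.l [P 42]) (.l [P 168])) (.n (.l [P 105]) .z)))) (.n (.n .z (.n (.n .z (.l [P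
  161])) .z)) (.n (.n .z (.n .z (.l [P 212]))) .z))) (.n (.n .z (.n (.n (.n .z (.l [P 141])) (.n
  (.l [P 77]) (.l [P 207]))) (.n (.n .z (.l [P 173])) .z))) (.n (.n (.n .z (.n .z (.l [P 198])))
  (.n (.n (.l [P 39]) .z) .z)) (.n (.n .z (.n .z (.l [P 216]))) (.n (.n (.l [P 53]) (.l [P 182]))
  .z))))) (.n (.n (.n (.n (.n .z (.n (.l [P 60]) (.l [P 188]))) (.n (.n (.l [P 30]) (.l [P 155]))
  (.n (.l [P 91]) .z))) .z) (.n .z (.n (.n (.n (.l [P 22]) .z) .z) (.n (.n (.l [P 52]) (.l [P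
  180])) .z)))) (.n (.n (.n (.n (.n .z (.l [P 112, P 126, (127, .ofNat 2)])) (.n (.l [P 64]) (.l
  [P 191]))) .z) (.n (.n (.n (.l [P 19]) .z) .z) (.n (.n .z (.l [P 176])) (.n .z (.l [P 246])))))
  (.n (.n (.n .z (.n (.l [P 70]) .z)) .z) (.n (.n (.n (.l [P 26]) .z) .z) (.n .z (.n (.l [P 112])
  .z)))))))⟩⟩

def p2 : List Step := [p2_0, p2_1, p2_2, p2_3, p2_4, p2_5, p2_6, p2_7, p2_8, p2_9, p2_10, p2_11, p2_12, p2_13, p2_14,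
  p2_15, p2_16, p2_17, p2_18, p2_19, p2_20, p2_21, p2_22, p2_23, p2_24, p2_25, p2_26, p2_27,
  p2_28, p2_29, p2_30, p2_31, p2_32, p2_33, p2_34, p2_35, p2_36, p2_37, p2_38, p2_39, p2_40,
  p2_41, p2_42, p2_43, p2_44, p2_45, p2_46, p2_47, p2_48, p2_49, p2_50, p2_51, p2_52, p2_53,
  p2_54, p2_55, p2_56, p2_57, p2_58, p2_59, p2_60, p2_61, p2_62, p2_63, p2_64, p2_65, p2_66,
  p2_67, p2_68, p2_69, p2_70, p2_71, p2_72, p2_73, p2_74, p2_75, p2_76, p2_77, p2_78, p2_79,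
  p2_80, p2_81, p2_82, p2_83, p2_84, p2_85, p2_86, p2_87, p2_88, p2_89, p2_90, p2_91, p2_92,
  p2_93, p2_94, p2_95, p2_96, p2_97, p2_98, p2_99, p2_100, p2_101, p2_102, p2_103, p2_104, p2_105]

/-- the triple -/
def trip : TripData where
  a := aA
  b := bA
  c := cA
  sa := 1
  sb := 1
  sc := 1
  sab := 1
  p1 := p1
  ta := 18
  tb := 0
  tc := 16
  p2 := p2
  tX := [73, 71, 69, 91, 54, 39, 24, 8]
  tY := [7, 72, 6, 90, 4, 3, 2, 0]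

theorem chk_model : checkModel rep = true := by decide +kernel

theorem chk_rel : checkRel rep trip = true := by decide +kernel

theorem chk_one : check1 rep trip = true := by decide +kernel

theorem chk_two : check2 rep trip = true := by decide +kernel

theorem chk_cart : ∀ i j : Fin 8, (CartanMatrix.E₈ : Matrix (Fin 8) (Fin 8) ℤ) i j = rep.A i j := by
  intro i j
  fin_cases i <;> fin_cases j <;> rfl

end E8

end Sp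

theorem goodModel_E8 : GoodModel CartanMatrix.E₈ :=
  Sp.goodModel_of_check Sp.E8.rep Sp.E8.trip _ Sp.E8.chk_cart Sp.E8.chk_model
    Sp.E8.chk_rel Sp.E8.chk_one Sp.E8.chk_two

end MP9bf44d
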