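import Pool.Agent.Lib.H74.Chev.Model

/-! # Sparse integral model of type F4 with a generating triple -/

namespace MP9bf44d

namespace Sp

namespace F4

def e0 : T :=
.n (.n (.n (.n (.n .z (.l [P 18])) .z) .z) .z) (.n (.n .z (.n (.n (.l [P 6]) (.l [P 22])) .z)) (.n
  (.n (.n (.l [P 4]) (.l [P 20])) .z) (.n (.n (.l [P 9]) .z) .z)))

def f0 : T :=
.n (.n (.n .z (.n (.n (.l [P 3]) (.l [P 19])) .z)) (.n (.n (.n .z (.l [P 16])) .z) (.n (.n (.l [P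
  5]) (.l [P 21])) .z))) (.n (.n (.n .z (.n (.l [P 7]) .z)) .z) .z)

def h0 : T :=
.n (.n (.n (.n (.n .z (.l [P 16])) .z) (.n (.n (.l [M 4]) (.l [M 20])) .z)) (.n (.n (.n .z (.l [M
  18])) .z) (.n (.n (.l [M 6]) (.l [M 22])) .z))) (.n (.n (.n .z (.n (.l [M 9]) .z)) (.n (.n (.l
  [P 5]) (.l [P 21])) .z)) (.n (.n (.n (.l [P 3]) (.l [P 19])) .z) (.n (.n (.l [P 7]) .z) .z)))

def x0 : T :=
.n (.n (.n (.n (.n .z (.l [P 18])) .z) .z) .z) (.n (.n .z (.n (.n (.l [P 6]) (.l [P 22])) .z)) (.n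
  (.n (.n (.l [P 4]) (.l [P 20])) .z) (.n (.n (.l [P 9]) .z) .z)))

def u0 : T :=
.n (.n (.n (.n (.n .z (.l [M 18])) .z) .z) .z) (.n (.n .z (.n (.n (.l [M 6]) (.l [M 22])) .z)) (.n
  (.n (.n (.l [M 4]) (.l [M 20])) .z) (.n (.n (.l [M 9]) .z) .z)))

def y0 : T :=
.n (.n (.n .z (.n (.n (.l [P 3]) (.l [P 19])) .z)) (.n (.n (.n .z (.l [P 16])) .z) (.n (.n (.l [P
  5]) (.l [P 21])) .z))) (.n (.n (.n .z (.n (.l [P 7]) .z)) .z) .z)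

def v0 : T :=
.n (.n (.n .z (.n (.n (.l [M 3]) (.l [M 19])) .z)) (.n (.n (.n .z (.l [M 16])) .z) (.n (.n (.l [M
  5]) (.l [M 21])) .z))) (.n (.n (.n .z (.n (.l [M 7]) .z)) .z) .z)

def e1 : T :=
.n (.n .z (.n (.n (.n (.l [P 3]) .z) .z) (.n (.n (.l [P 8]) (.l [P 23])) (.n (.l [P 16]) .z))))
  (.n (.n (.n (.n .z (.l [P 19])) (.n (.l [P 11]) .z)) .z) .z)

def f1 : T :=
.n (.n (.n (.n (.n .z (.l [P 14])) (.n (.l [P 6]) .z)) .z) .z) (.n .z (.n (.n (.n (.l [P 2]) (.l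
  [P 17])) (.n (.l [P 9]) .z)) (.n (.n .z (.l [P 22])) .z)))

def h1 : T :=
.n (.n (.n (.n (.n .z (.l [M 16])) (.n (.l [M 8]) .z)) .z) (.n (.n (.n (.l [P 2]) .z) .z) (.n (.n
  (.l [P 6]) (.l [P 22])) (.n (.l [P 14]) .z)))) (.n (.n (.n (.n .z (.l [P 17])) (.n (.l [P 9])
  .z)) .z) (.n (.n (.n (.l [M 3]) (.l [M 19])) (.n (.l [M 11]) .z)) (.n (.n .z (.l [M 23])) .z)))

def x1 : T :=
.n (.n .z (.n (.n (.n (.l [P 3]) .z) .z) (.n (.n (.l [P 8]) (.l [P 23])) (.n (.l [P 16]) .z))))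
  (.n (.n (.n (.n .z (.l [P 19])) (.n (.l [P 11]) .z)) .z) .z)

def u1 : T :=
.n (.n .z (.n (.n (.n (.l [M 3]) .z) .z) (.n (.n (.l [M 8]) (.l [M 23])) (.n (.l [M 16]) .z))))
  (.n (.n (.n (.n .z (.l [M 19])) (.n (.l [M 11]) .z)) .z) .z)

def y1 : T :=
.n (.n (.n (.n (.n .z (.l [P 14])) (.n (.l [P 6]) .z)) .z) .z) (.n .z (.n (.n (.n (.l [P 2]) (.l
  [P 17])) (.n (.l [P 9]) .z)) (.n (.n .z (.l [P 22])) .z)))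

def v1 : T :=
.n (.n (.n (.n (.n .z (.l [M 14])) (.n (.l [M 6]) .z)) .z) .z) (.n .z (.n (.n (.n (.l [M 2]) (.l
  [M 17])) (.n (.l [M 9]) .z)) (.n (.n .z (.l [M 22])) .z)))

def e2 : T :=
.n (.n (.n (.n .z (.n (.l [P 10]) .z)) (.n (.n (.l [P 6]) (.l [P 22])) (.n (.l [P 14]) .z))) .z)
  (.n (.n (.n (.n (.l [P 2]) .z) .z) .z) (.n (.n (.n (.l [P 5]) (.l [P 21])) (.n (.l [(12, .ofNat
  2), P 13]) .z)) (.n (.n .z (.l [P 24])) (.n (.l [P 17]) .z))))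

def f2 : T :=
.n (.n (.n (.n .z (.n .z (.l [P 23]))) (.n .z (.n (.l [P 11]) .z))) (.n (.n (.n (.l [P 1]) .z) (.n
  (.l [P 8]) .z)) (.n (.n (.l [P 4]) (.l [P 20])) (.n (.l [(12, .ofNat 2), P 13]) .z)))) (.n (.n
  (.n (.n .z (.l [P 15])) .z) (.n (.n (.l [P 3]) (.l [P 19])) .z)) .z)

def h2 : T :=
.n (.n (.n (.n .z (.n (.l [P 8]) (.l [M 24]))) (.n (.n (.l [P 4]) (.l [P 20])) .z)) (.n (.n (.n
  (.l [M 2]) .z) (.n (.l [M 10]) .z)) (.n (.n (.l [M 6]) (.l [M 22])) (.n (.l [(14, .negSucc 1)])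
  .z)))) (.n (.n (.n (.n (.l [P 1]) (.l [M 17])) .z) (.n (.n (.l [M 5]) (.l [M 21])) .z)) (.n (.n
  (.n (.l [P 3]) (.l [P 19])) (.n (.l [(11, .ofNat 2)]) .z)) (.n (.n .z (.l [P 23])) (.n (.l [P
  15]) .z))))

def x2 : T :=
.n (.n (.n (.n .z (.n (.l [P 10]) .z)) (.n (.n (.l [P 6]) (.l [P 22])) (.n (.l [P 14]) .z))) .z)
  (.n (.n (.n (.n (.l [P 2]) .z) .z) .z) (.n (.n (.n (.l [P 5]) (.l [P 21])) (.n (.l [(12, .ofNat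
  2), P 13, P 14]) .z)) (.n (.n .z (.l [P 24])) (.n (.l [P 17]) .z))))

def u2 : T :=
.n (.n (.n (.n .z (.n (.l [M 10]) .z)) (.n (.n (.l [M 6]) (.l [M 22])) (.n (.l [M 14]) .z))) .z)
  (.n (.n (.n (.n (.l [M 2]) .z) .z) .z) (.n (.n (.n (.l [M 5]) (.l [M 21])) (.n (.l [(12,
  .negSucc 1), M 13, P 14]) .z)) (.n (.n .z (.l [M 24])) (.n (.l [M 17]) .z))))

def y2 : T :=
.n (.n (.n (.n .z (.n .z (.l [P 23]))) (.n .z (.n (.l [P 11]) .z))) (.n (.n (.n (.l [P 1]) .z) (.n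
  (.l [P 8]) .z)) (.n (.n (.l [P 4]) (.l [P 20])) (.n (.l [P 11, (12, .ofNat 2), P 13]) .z)))) (.n
  (.n (.n (.n .z (.l [P 15])) .z) (.n (.n (.l [P 3]) (.l [P 19])) .z)) .z)

def v2 : T :=
.n (.n (.n (.n .z (.n .z (.l [M 23]))) (.n .z (.n (.l [M 11]) .z))) (.n (.n (.n (.l [M 1]) .z) (.n
  (.l [M 8]) .z)) (.n (.n (.l [M 4]) (.l [M 20])) (.n (.l [P 11, (12, .negSucc 1), M 13]) .z))))
  (.n (.n (.n (.n .z (.l [M 15])) .z) (.n (.n (.l [M 3]) (.l [M 19])) .z)) .z)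

def e3 : T :=
.n (.n (.n (.n (.n (.l [P 1]) (.l [P 19])) (.n (.l [P 11]) (.l [P 25]))) .z) (.n (.n (.n .z (.l [P
  20])) (.n (.l [P 12, (13, .ofNat 2)]) .z)) (.n (.n (.l [P 9]) .z) (.n (.l [P 17]) .z)))) (.n (.n
  .z (.n (.n (.l [P 7]) .z) (.n (.l [P 15]) .z))) .z)

def f3 : T :=
.n (.n (.n .z (.n (.n .z (.l [P 18])) .z)) .z) (.n (.n (.n (.n (.l [P 0]) (.l [P 14])) (.n (.l [P
  6]) (.l [P 24]))) (.n .z (.n (.l [P 10]) .z))) (.n (.n (.n .z (.l [P 16])) (.n (.l [P 8]) .z))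
  (.n (.n (.l [P 5]) .z) (.n (.l [P 12, (13, .ofNat 2)]) .z))))

def h3 : T :=
.n (.n (.n (.n (.n (.l [P 0]) (.l [P 16])) (.n (.l [P 8]) (.l [P 24]))) (.n (.n .z (.l [M 20]))
  .z)) (.n (.n (.n .z (.l [P 18])) (.n (.l [(10, .ofNat 2)]) .z)) (.n (.n (.l [P 6]) .z) (.n (.l
  [P 14]) .z)))) (.n (.n (.n (.n (.l [M 1]) (.l [M 17])) (.n (.l [M 9]) (.l [M 25]))) (.n (.n (.l
  [P 5]) .z) .z)) (.n (.n (.n .z (.l [M 19])) (.n (.l [M 11]) .z)) (.n (.n (.l [M 7]) .z) (.n (.l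
  [(15, .negSucc 1)]) .z))))

def x3 : T :=
.n (.n (.n (.n (.n (.l [P 1]) (.l [P 19])) (.n (.l [P 11]) (.l [P 25]))) .z) (.n (.n (.n .z (.l [P
  20])) (.n (.l [P 12, (13, .ofNat 2), P 15]) .z)) (.n (.n (.l [P 9]) .z) (.n (.l [P 17]) .z))))
  (.n (.n .z (.n (.n (.l [P 7]) .z) (.n (.l [P 15]) .z))) .z)

def u3 : T :=
.n (.n (.n (.n (.n (.l [M 1]) (.l [M 19])) (.n (.l [M 11]) (.l [M 25]))) .z) (.n (.n (.n .z (.l [M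
  20])) (.n (.l [M 12, (13, .negSucc 1), P 15]) .z)) (.n (.n (.l [M 9]) .z) (.n (.l [M 17]) .z))))
  (.n (.n .z (.n (.n (.l [M 7]) .z) (.n (.l [M 15]) .z))) .z)

def y3 : T :=
.n (.n (.n .z (.n (.n .z (.l [P 18])) .z)) .z) (.n (.n (.n (.n (.l [P 0]) (.l [P 14])) (.n (.l [P
  6]) (.l [P 24]))) (.n .z (.n (.l [P 10]) .z))) (.n (.n (.n .z (.l [P 16])) (.n (.l [P 8]) .z))
  (.n (.n (.l [P 5]) .z) (.n (.l [P 10, P 12, (13, .ofNat 2)]) .z))))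

def v3 : T :=
.n (.n (.n .z (.n (.n .z (.l [M 18])) .z)) .z) (.n (.n (.n (.n (.l [M 0]) (.l [M 14])) (.n (.l [M
  6]) (.l [M 24]))) (.n .z (.n (.l [M 10]) .z))) (.n (.n (.n .z (.l [M 16])) (.n (.l [M 8]) .z))
  (.n (.n (.l [M 5]) .z) (.n (.l [P 10, M 12, (13, .negSucc 1)]) .z))))

def idT : T :=
.n (.n (.n (.n (.n (.l [P 0]) (.l [P 16])) (.n (.l [P 8]) (.l [P 24]))) (.n (.n (.l [P 4]) (.l [P
  20])) (.n (.l [P 12]) .z))) (.n (.n (.n (.l [P 2]) (.l [P 18])) (.n (.l [P 10]) .z)) (.n (.n (.l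
  [P 6]) (.l [P 22])) (.n (.l [P 14]) .z)))) (.n (.n (.n (.n (.l [P 1]) (.l [P 17])) (.n (.l [P
  9]) (.l [P 25]))) (.n (.n (.l [P 5]) (.l [P 21])) (.n (.l [P 13]) .z))) (.n (.n (.n (.l [P 3])
  (.l [P 19])) (.n (.l [P 11]) .z)) (.n (.n (.l [P 7]) (.l [P 23])) (.n (.l [P 15]) .z))))

/-- the representation -/
def rep : RepData where
  n := 26
  d := 5
  l := 4
  cart := [[2, -1, 0, 0], [-1, 2, -2, 0], [0, -1, 2, -1], [0, 0, -1, 2]]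
  e := [e0, e1, e2, e3]
  f := [f0, f1, f2, f3]
  h := [h0, h1, h2, h3]
  x := [x0, x1, x2, x3]
  x' := [u0, u1, u2, u3]
  y := [y0, y1, y2, y3]
  y' := [v0, v1, v2, v3]
  w := [(3, 4), (2, 3), (1, 2), (0, 1)]
  I := idT

def aA : Aff := ⟨(.ofNat 0),
.n (.n (.n (.n (.n (.l [P 0]) (.l [M 9])) (.n (.l [M 6]) (.l [P 20]))) (.n (.n (.l [P 10]) (.l [P
  24])) (.n (.l [P 12]) .z))) (.n (.n (.n (.l [P 3]) (.l [M 18])) (.n (.l [P 4]) .z)) (.n (.n (.l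
  [M 8]) (.l [M 23])) (.n (.l [M 11]) .z)))) (.n (.n (.n (.n (.l [M 5]) (.l [P 19])) (.n (.l [M
  16]) (.l [P 25]))) (.n (.n (.l [M 1]) (.l [M 15])) (.n (.l [P 13]) .z))) (.n (.n (.n (.l [P 2])
  (.l [P 17])) (.n (.l [M 14]) .z)) (.n (.n (.l [M 7]) (.l [M 22])) (.n (.l [M 21]) .z))))⟩

def bA : Aff := ⟨(.ofNat 1),
.n (.n (.n (.n (.n (.l [(0, .negSucc 1)]) .z) (.n .z (.l [P 8, M 10, (24, .negSucc 1)]))) (.n (.n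
  .z (.l [M 4, M 6, (20, .negSucc 1)])) (.n (.l [M 0]) .z))) (.n (.n (.n (.l [(2, .negSucc 1)])
  (.l [(18, .negSucc 1)])) .z) (.n (.n .z (.l [M 4, P 6, (22, .negSucc 1)])) (.n (.l [M 0]) .z))))
  (.n (.n (.n (.n (.l [(1, .negSucc 1)]) (.l [M 1, P 2])) (.n .z (.l [(0, .ofNat 2), P 11, (12,
  .negSucc 1), M 13, M 14, (25, .negSucc 1)]))) (.n (.n (.l [(5, .negSucc 1)]) (.l [P 3, M 5]))
  .z)) (.n (.n (.n (.l [(3, .negSucc 1)]) (.l [P 3, P 5])) (.n (.l [P 0]) .z)) (.n (.n (.l [(7,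
  .negSucc 1)]) (.l [P 8, P 10, (23, .negSucc 1)])) (.n (.l [M 1, M 2]) .z))))⟩

def cA : Aff := ⟨(.ofNat 0),
.n (.n (.n (.n (.n (.l [M 21]) (.l [M 2])) (.n (.l [P 17]) (.l [M 6]))) (.n (.n (.l [M 25]) (.l [P
  20])) (.n (.l [P 13]) .z))) (.n (.n (.n (.l [M 16]) (.l [P 22])) (.n (.l [P 14]) .z)) (.n (.n
  (.l [M 24]) (.l [P 18])) (.n (.l [P 10]) .z)))) (.n (.n (.n (.n (.l [M 19]) (.l [P 8])) (.n (.l
  [M 23]) (.l [M 4]))) (.n (.n (.l [P 5]) (.l [M 0])) (.n (.l [P 12]) .z))) (.n (.n (.n (.l [P 7])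
  (.l [M 1])) (.n (.l [P 15]) .z)) (.n (.n (.l [P 3]) (.l [M 9])) (.n (.l [P 11]) .z))))⟩

def p1_0 : Step := ⟨.word [1, 13, 1], ⟨(.ofNat 1), .n (.n (.n (.n (.n .z (.l [M 16, P 18])) .z) (.n (.n (.l [M 3, M
  4]) (.l [M 19, M 20])) .z)) (.n (.n (.n .z (.l [M 16, M 18])) .z) (.n (.n (.l [M 5, M 6]) (.l [M
  21, M 22])) .z))) (.n (.n (.n .z (.n (.l [M 7, M 9]) .z)) (.n (.n (.l [M 5, P 6]) (.l [M 21, P
  22])) .z)) (.n (.n (.n (.l [M 3, P 4]) (.l [M 19, P 20])) .z) (.n (.n (.l [M 7, P 9]) .z)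
  .z)))⟩⟩

def p1_1 : Step := ⟨.word [3, 15, 3], ⟨(.ofNat 1), .n (.n (.n (.n (.n .z (.l [M 14, M 16])) (.n (.l [M 6, M 8]) .z))
  .z) (.n (.n (.n (.l [M 2, P 3]) .z) .z) (.n (.n (.l [M 6, P 8]) (.l [M 22, P 23])) (.n (.l [M
  14, P 16]) .z)))) (.n (.n (.n (.n .z (.l [M 17, P 19])) (.n (.l [M 9, P 11]) .z)) .z) (.n (.n
  (.n (.l [M 2, M 3]) (.l [M 17, M 19])) (.n (.l [M 9, M 11]) .z)) (.n (.n .z (.l [M 22, M 23]))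
  .z)))⟩⟩

def p1_2 : Step := ⟨.word [5, 17, 5], ⟨(.ofNat 0), .n (.n (.n (.n (.n (.l [P 0]) (.l [P 16])) (.n (.l [P 10]) (.l [M
  23]))) (.n (.n (.l [P 6]) (.l [P 22])) (.n (.l [M 12, M 13]) .z))) (.n (.n (.n (.l [M 1]) (.l [P
  18])) (.n (.l [M 8]) .z)) (.n (.n (.l [M 4]) (.l [M 20])) (.n (.l [P 11]) .z)))) (.n (.n (.n (.n
  (.l [P 2]) (.l [M 15])) (.n (.l [P 9]) (.l [P 25]))) (.n (.n (.l [M 3]) (.l [M 19])) (.n (.l [P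
  13]) .z))) (.n (.n (.n (.l [P 5]) (.l [P 21])) (.n (.l [P 14]) .z)) (.n (.n (.l [P 7]) (.l [P
  24])) (.n (.l [P 17]) .z))))⟩⟩

def p1_3 : Step := ⟨.word [7, 19, 7], ⟨(.ofNat 0), .n (.n (.n (.n (.n (.l [P 1]) (.l [P 19])) (.n (.l [P 11]) (.l [P
  25]))) (.n (.n (.l [P 4]) (.l [M 18])) (.n (.l [P 12]) .z))) (.n (.n (.n (.l [P 2]) (.l [P 20]))
  (.n (.l [P 15]) .z)) (.n (.n (.l [P 9]) (.l [P 22])) (.n (.l [P 17]) .z)))) (.n (.n (.n (.n (.l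
  [M 0]) (.l [M 14])) (.n (.l [M 6]) (.l [M 24]))) (.n (.n (.l [P 7]) (.l [P 21])) (.n (.l [M 12,
  M 13]) .z))) (.n (.n (.n (.l [P 3]) (.l [M 16])) (.n (.l [M 8]) .z)) (.n (.n (.l [M 5]) (.l [P
  23])) (.n (.l [P 10]) .z))))⟩⟩

def p1_4 : Step := ⟨.word [1, 2, 1, 2, 3, 3], ⟨(.ofNat 0), .n (.n (.n (.n (.n (.l [P 0]) (.l [M 9])) (.n (.l [M 6])
  (.l [P 20]))) (.n (.n (.l [P 10]) (.l [P 24])) (.n (.l [P 12]) .z))) (.n (.n (.n (.l [P 3]) (.l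
  [M 18])) (.n (.l [P 4]) .z)) (.n (.n (.l [M 8]) (.l [M 23])) (.n (.l [M 11]) .z)))) (.n (.n (.n
  (.n (.l [M 5]) (.l [P 19])) (.n (.l [M 16]) (.l [P 25]))) (.n (.n (.l [M 1]) (.l [M 15])) (.n
  (.l [P 13]) .z))) (.n (.n (.n (.l [P 2]) (.l [P 17])) (.n (.l [M 14]) .z)) (.n (.n (.l [M 7])
  (.l [M 22])) (.n (.l [M 21]) .z))))⟩⟩

def p1_5 : Step := ⟨.word [2, 3, 2, 1, 2], ⟨(.ofNat 0), .n (.n (.n (.n (.n (.l [P 2]) (.l [P 10])) (.n (.l [M 14])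
  (.l [P 18]))) (.n (.n (.l [P 17]) (.l [P 25])) (.n (.l [M 12, M 13]) .z))) (.n (.n (.n (.l [P
  1]) (.l [P 22])) (.n (.l [M 6]) .z)) (.n (.n (.l [M 9]) (.l [P 20])) (.n (.l [M 4]) .z)))) (.n
  (.n (.n (.n (.l [P 7]) (.l [P 11])) (.n (.l [M 15]) (.l [P 23]))) (.n (.n (.l [P 0]) (.l [P 8]))
  (.n (.l [P 12]) .z))) (.n (.n (.n (.l [M 5]) (.l [P 16])) (.n (.l [P 21]) .z)) (.n (.n (.l [P
  3]) (.l [M 24])) (.n (.l [M 19]) .z))))⟩⟩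

def p1_6 : Step := ⟨.word [3, 3, 4, 3, 5], ⟨(.ofNat 0), .n (.n (.n (.n (.n (.l [P 0]) (.l [M 11])) (.n (.l [P 3]) (.l
  [P 23]))) (.n (.n (.l [P 5]) (.l [P 21])) (.n (.l [M 12, M 13]) .z))) (.n (.n (.n (.l [M 6]) (.l
  [M 16])) (.n (.l [P 8]) .z)) (.n (.n (.l [M 10]) (.l [M 24])) (.n (.l [P 18]) .z)))) (.n (.n (.n
  (.n (.l [M 2]) (.l [M 22])) (.n (.l [P 14]) (.l [P 25]))) (.n (.n (.l [P 4]) (.l [P 20])) (.n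
  (.l [P 13]) .z))) (.n (.n (.n (.l [M 1]) (.l [M 15])) (.n (.l [P 7]) .z)) (.n (.n (.l [P 9]) (.l
  [P 19])) (.n (.l [M 17]) .z))))⟩⟩

def p1_7 : Step := ⟨.word [5, 4, 3, 4, 6], ⟨(.ofNat 0), .n (.n (.n (.n (.n (.l [P 2]) (.l [P 10])) (.n (.l [M 5]) (.l
  [M 24]))) (.n (.n (.l [M 7]) (.l [P 19])) (.n (.l [P 13]) .z))) (.n (.n (.n (.l [P 9]) (.l [M
  21])) (.n (.l [M 14]) .z)) (.n (.n (.l [P 17]) (.l [P 25])) (.n (.l [P 22]) .z)))) (.n (.n (.n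
  (.n (.l [M 1]) (.l [M 20])) (.n (.l [M 15]) (.l [P 23]))) (.n (.n (.l [M 6]) (.l [P 18])) (.n
  (.l [P 12]) .z))) (.n (.n (.n (.l [M 0]) (.l [M 8])) (.n (.l [P 3]) .z)) (.n (.n (.l [P 4]) (.l
  [P 16])) (.n (.l [M 11]) .z))))⟩⟩

def p1_8 : Step := ⟨.word [6, 5, 6], ⟨(.ofNat 0), .n (.n (.n (.n (.n (.l [P 0]) (.l [P 9])) (.n (.l [P 4]) (.l [P
  22]))) (.n (.n (.l [P 8]) (.l [P 23])) (.n (.l [M 12, M 13]) .z))) (.n (.n (.n (.l [P 5]) (.l [P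
  18])) (.n (.l [P 6]) .z)) (.n (.n (.l [P 10]) (.l [P 24])) (.n (.l [M 14]) .z)))) (.n (.n (.n
  (.n (.l [P 3]) (.l [P 21])) (.n (.l [P 16]) (.l [P 25]))) (.n (.n (.l [P 2]) (.l [P 17])) (.n
  (.l [P 13]) .z))) (.n (.n (.n (.l [P 1]) (.l [P 15])) (.n (.l [M 11]) .z)) (.n (.n (.l [P 7])
  (.l [P 20])) (.n (.l [P 19]) .z))))⟩⟩

def p1_9 : Step := ⟨.word [3, 2, 1, 0], ⟨(.ofNat 0), .n (.n (.n (.n (.n (.l [M 21]) (.l [M 2])) (.n (.l [P 17]) (.l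
  [M 6]))) (.n (.n (.l [M 25]) (.l [P 20])) (.n (.l [P 13]) .z))) (.n (.n (.n (.l [M 16]) (.l [P
  22])) (.n (.l [P 14]) .z)) (.n (.n (.l [M 24]) (.l [P 18])) (.n (.l [P 10]) .z)))) (.n (.n (.n
  (.n (.l [M 19]) (.l [P 8])) (.n (.l [M 23]) (.l [M 4]))) (.n (.n (.l [P 5]) (.l [M 0])) (.n (.l
  [P 12]) .z))) (.n (.n (.n (.l [P 7]) (.l [M 1])) (.n (.l [P 15]) .z)) (.n (.n (.l [P 3]) (.l [M
  9])) (.n (.l [P 11]) .z))))⟩⟩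

def p1_10 : Step := ⟨.word [6, 6, 8, 8], ⟨(.ofNat 1), .n (.n (.n (.n (.n (.l [(0, .negSucc 1)]) .z) (.n .z (.l [(24,
  .negSucc 1)]))) (.n (.n .z (.l [(20, .negSucc 1)])) .z)) (.n (.n (.n (.l [(2, .negSucc 1)]) (.l
  [(18, .negSucc 1)])) .z) (.n (.n .z (.l [(22, .negSucc 1)])) .z))) (.n (.n (.n (.n (.l [(1,
  .negSucc 1)]) .z) (.n .z (.l [(25, .negSucc 1)]))) (.n (.n (.l [(5, .negSucc 1)]) .z) .z)) (.n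
  (.n (.n (.l [(3, .negSucc 1)]) .z) .z) (.n (.n (.l [(7, .negSucc 1)]) (.l [(23, .negSucc 1)]))
  .z)))⟩⟩

def p1_11 : Step := ⟨.conj 6 20, ⟨(.ofNat 1), .n (.n (.n (.n (.n .z (.l [P 7])) (.n (.l [P 1]) (.l [P 17]))) .z) (.n
  (.n (.n .z (.l [P 9])) (.n (.l [P 2]) .z)) .z)) (.n .z (.n .z (.n (.n .z (.l [P 15])) .z)))⟩⟩

def p1_12 : Step := ⟨.conj 8 0, ⟨(.ofNat 1), .n (.n (.n .z (.n (.n .z (.l [M 6])) .z)) .z) (.n (.n (.n .z (.n .z (.l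
  [M 14]))) .z) (.n (.n (.n .z (.l [M 5])) (.n (.l [M 0]) .z)) (.n (.n .z (.l [P 10])) (.n (.l [P
  2]) .z))))⟩⟩

def p1_13 : Step := ⟨.conj 8 0, ⟨(.ofNat 1), .n (.n (.n (.n .z (.n .z (.l [P 8]))) .z) (.n .z (.n (.n .z (.l [M 4]))
  (.n (.l [P 0]) .z)))) (.n (.n (.n (.n .z (.l [P 1])) (.n .z (.l [P 11]))) (.n (.n .z (.l [M 3]))
  .z)) .z)⟩⟩

def p1_14 : Step := ⟨.conj 9 18, ⟨(.ofNat 1), .n (.n (.n (.n (.n (.l [M 5]) .z) (.n (.l [P 16]) .z)) (.n (.n (.l [P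
  12, (13, .ofNat 2), M 21]) (.l [P 25])) .z)) (.n (.n (.n .z (.l [M 24])) .z) (.n (.n (.l [P 14])
  .z) .z))) (.n (.n (.n (.n (.l [P 7]) .z) (.n (.l [M 17]) .z)) (.n .z (.n (.l [M 21]) .z))) (.n
  (.n .z (.n (.l [M 19]) .z)) .z))⟩⟩

def p1_15 : Step := ⟨.conj 5 0, ⟨(.ofNat 1), .n (.n (.n (.n .z (.n .z (.l [M 10]))) (.n (.n .z (.l [M 4])) (.n (.l [P
  0]) .z))) (.n .z (.n (.n .z (.l [P 6])) .z))) (.n (.n (.n (.n .z (.l [M 2])) (.n .z (.l [M 0,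
  (12, .negSucc 1), M 13]))) (.n (.n .z (.l [P 5])) .z)) (.n (.n (.n .z (.l [M 3])) .z) (.n (.n .z
  (.l [P 8])) (.n (.l [P 1]) .z))))⟩⟩

def p1_16 : Step := ⟨.word [3, 2, 0, 5], ⟨(.ofNat 1), .n (.n (.n (.n (.n (.l [(0, .negSucc 1)]) .z) (.n .z (.l [P 8, M
  10, (24, .negSucc 1)]))) (.n (.n .z (.l [M 4, M 6, (20, .negSucc 1)])) (.n (.l [M 0]) .z))) (.n
  (.n (.n (.l [(2, .negSucc 1)]) (.l [(18, .negSucc 1)])) .z) (.n (.n .z (.l [M 4, P 6, (22,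
  .negSucc 1)])) (.n (.l [M 0]) .z)))) (.n (.n (.n (.n (.l [(1, .negSucc 1)]) (.l [M 1, P 2])) (.n
  .z (.l [(0, .ofNat 2), P 11, (12, .negSucc 1), M 13, M 14, (25, .negSucc 1)]))) (.n (.n (.l [(5,
  .negSucc 1)]) (.l [P 3, M 5])) .z)) (.n (.n (.n (.l [(3, .negSucc 1)]) (.l [P 3, P 5])) (.n (.l
  [P 0]) .z)) (.n (.n (.l [(7, .negSucc 1)]) (.l [P 8, P 10, (23, .negSucc 1)])) (.n (.l [M 1, M
  2]) .z))))⟩⟩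

def p1 : List Step := [p1_0, p1_1, p1_2, p1_3, p1_4, p1_5, p1_6, p1_7, p1_8, p1_9, p1_10, p1_11, p1_12, p1_13, p1_14,
  p1_15, p1_16]

def p2_0 : Step := ⟨.word [3, 1, 3, 1, 3], ⟨(.ofNat 0), .n (.n (.n (.n (.n (.l [M 10]) (.l [P 3])) (.n (.l [P 5]) (.l
  [M 1]))) (.n (.n (.l [P 14]) (.l [P 17])) (.n (.l [P 13]) .z))) (.n (.n (.n (.l [P 18]) (.l [P
  2])) (.n (.l [M 0]) .z)) (.n (.n (.l [P 6]) (.l [M 9])) (.n (.l [P 4]) .z)))) (.n (.n (.n (.n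
  (.l [M 24]) (.l [P 20])) (.n (.l [M 22]) (.l [P 15]))) (.n (.n (.l [P 8]) (.l [M 11])) (.n (.l
  [P 12]) .z))) (.n (.n (.n (.l [P 16]) (.l [P 19])) (.n (.l [M 21]) .z)) (.n (.n (.l [M 23]) (.l
  [M 7])) (.n (.l [P 25]) .z))))⟩⟩

def p2_1 : Step := ⟨.conj 0 3, ⟨(.ofNat 1), .n (.n (.n (.n (.n .z (.l [(16, .negSucc 1)])) (.n (.l [(8, .negSucc 1)])
  (.l [(24, .negSucc 1)]))) (.n (.n (.l [P 10]) (.l [P 18, P 24])) .z)) (.n (.n (.n (.l [(2,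
  .negSucc 1)]) (.l [(18, .negSucc 1)])) (.n (.l [(10, .negSucc 1)]) .z)) .z)) (.n (.n (.n (.n (.l
  [M 0, (1, .negSucc 1), M 5]) (.l [M 6, M 14, (17, .negSucc 1)])) (.n (.l [M 6, (9, .negSucc 1),
  P 14]) (.l [M 18, P 24]))) (.n (.n .z (.l [P 10])) (.n (.l [P 10]) .z))) (.n (.n (.n .z (.l [P
  8, P 16])) (.n (.l [P 8, M 16]) .z)) (.n (.n (.l [P 0, M 5, (7, .negSucc 1)]) (.l [(23, .negSucc
  1)])) (.n (.l [M 4, (10, .negSucc 1), M 12, (13, .negSucc 1), (15, .negSucc 1), M 21]) .z))))⟩⟩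

def p2_2 : Step := ⟨.word [4, 0], ⟨(.ofNat 1), .n (.n (.n (.n (.n (.l [(0, .negSucc 1)]) (.l [(16, .negSucc 1)])) (.n
  (.l [(8, .negSucc 1)]) (.l [M 8, P 10]))) (.n (.n (.l [P 10]) (.l [M 4, M 6, M 10, M 18, (20,
  .negSucc 1), M 24])) (.n (.l [M 0]) .z))) (.n (.n .z (.n (.l [(10, .negSucc 1)]) .z)) (.n (.n .z
  (.l [M 4, P 6, M 10, (22, .negSucc 1)])) (.n (.l [M 0]) .z)))) (.n (.n (.n (.n (.l [P 0, P 5])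
  (.l [P 0, P 1, M 2, P 5, M 6, M 14, (17, .negSucc 1)])) (.n (.l [M 6, (9, .negSucc 1), P 14])
  (.l [(0, .ofNat 2), P 8, M 10, P 11, (12, .negSucc 1), M 13, M 14, M 16, P 18, M 24, (25,
  .negSucc 1)]))) (.n (.n (.l [(5, .negSucc 1)]) (.l [P 3, M 5, P 10])) (.n (.l [P 10]) .z))) (.n
  (.n (.n (.l [(3, .negSucc 1)]) (.l [P 3, P 5, P 8, P 16])) (.n (.l [P 0, P 8, M 16]) .z)) (.n
  (.n (.l [M 0, P 5]) (.l [M 8, M 10])) (.n (.l [P 0, P 1, P 2, M 4, P 5, (10, .negSucc 1), M 12,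
  (13, .negSucc 1), (15, .negSucc 1), M 21]) .z))))⟩⟩

def p2_3 : Step := ⟨.word [0, 0], ⟨(.ofNat 1), .n (.n (.n .z (.n (.n .z (.l [P 8])) .z)) (.n .z (.n (.n .z (.l [P
  10])) .z))) (.n (.n (.n (.n .z (.l [M 5])) (.n (.l [M 0]) (.l [P 16]))) .z) (.n .z (.n .z (.n
  (.l [M 3]) .z))))⟩⟩

def p2_4 : Step := ⟨.conj 7 0, ⟨(.ofNat 1), .n (.n (.n (.n .z (.n (.l [M 5]) .z)) (.n (.n (.l [P 2]) (.l [P 17]))
  .z)) (.n (.n (.n .z (.l [P 14])) .z) .z)) (.n .z (.n (.n .z (.n (.l [M 7]) .z)) (.n (.n .z (.l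
  [M 21])) .z)))⟩⟩

def p2_5 : Step := ⟨.conj 7 0, ⟨(.ofNat 1), .n (.n (.n (.n .z (.n (.l [P 5]) (.l [P 5]))) (.n (.n (.l [M 2]) (.l [P
  1, M 17])) .z)) (.n (.n (.n .z (.l [P 0, M 14])) .z) (.n (.n .z (.l [P 2])) .z))) (.n (.n (.n .z
  (.n .z (.l [P 7]))) .z) (.n (.n .z (.n (.l [P 7]) .z)) (.n (.n .z (.l [P 3, P 21])) .z)))⟩⟩

def p2_6 : Step := ⟨.word [0, 1], ⟨(.ofNat 1), .n (.n (.n (.n .z (.n .z (.l [P 5]))) (.n (.n .z (.l [P 1])) .z)) (.n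
  (.n (.n .z (.l [P 0])) .z) (.n (.n .z (.l [P 2])) .z))) (.n (.n (.n .z (.n .z (.l [P 7]))) .z)
  (.n .z (.n (.n .z (.l [P 3])) .z)))⟩⟩

def p2_7 : Step := ⟨.conj 10 0, ⟨(.ofNat 1), .n (.n (.n .z (.n (.n (.l [M 3]) (.l [M 19])) .z)) (.n (.n (.n .z (.l [M
  16])) .z) (.n (.n (.l [M 5]) (.l [M 21])) .z))) (.n (.n (.n .z (.n (.l [M 7]) .z)) .z) .z)⟩⟩

def p2_8 : Step := ⟨.conj 9 0, ⟨(.ofNat 1), .n (.n (.n (.n (.n .z (.l [M 7])) (.n (.l [M 1]) (.l [M 17]))) .z) (.n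
  (.n (.n .z (.l [M 9])) (.n (.l [M 2]) .z)) .z)) (.n .z (.n .z (.n (.n .z (.l [M 15])) .z)))⟩⟩

def p2_9 : Step := ⟨.conj 12 0, ⟨(.ofNat 1), .n (.n .z (.n (.n (.n (.l [P 3]) .z) .z) (.n (.n (.l [P 8]) (.l [P 23]))
  (.n (.l [P 16]) .z)))) (.n (.n (.n (.n .z (.l [P 19])) (.n (.l [P 11]) .z)) .z) .z)⟩⟩

def p2_10 : Step := ⟨.conj 11 0, ⟨(.ofNat 1), .n (.n (.n (.n (.n .z (.l [P 14])) (.n (.l [P 6]) .z)) .z) .z) (.n .z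
  (.n (.n (.n (.l [P 2]) (.l [P 17])) (.n (.l [P 9]) .z)) (.n (.n .z (.l [P 22])) .z)))⟩⟩

def p2_11 : Step := ⟨.conj 14 0, ⟨(.ofNat 1), .n (.n .z (.n (.n (.n (.l [M 10]) .z) .z) .z)) (.n (.n (.n (.n (.l [M
  8]) (.l [M 24])) (.n (.l [M 18]) .z)) .z) (.n .z (.n (.n (.l [M 16]) .z) (.n (.l [M 23])
  .z))))⟩⟩

def p2_12 : Step := ⟨.conj 13 0, ⟨(.ofNat 1), .n (.n (.n (.n (.n .z (.l [M 18])) .z) .z) .z) (.n (.n .z (.n (.n (.l [M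
  6]) (.l [M 22])) .z)) (.n (.n (.n (.l [M 4]) (.l [M 20])) .z) (.n (.n (.l [M 9]) .z) .z)))⟩⟩

def p2_13 : Step := ⟨.conj 16 0, ⟨(.ofNat 1), .n (.n (.n (.n (.n (.l [P 18]) .z) .z) .z) (.n (.n (.n (.l [P 22]) .z)
  .z) .z)) (.n (.n (.n (.n (.l [P 20]) .z) .z) (.n (.n (.l [P 24]) .z) .z)) (.n (.n (.n (.l [P
  23]) .z) .z) (.n (.n (.l [P 25]) .z) .z)))⟩⟩

def p2_14 : Step := ⟨.quot 0 10000, ⟨(.ofNat 1), .n (.n (.n (.n (.n (.l [M 18]) .z) .z) .z) (.n (.n (.n (.l [M 22])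
  .z) .z) .z)) (.n (.n (.n (.n (.l [M 20]) .z) .z) (.n (.n (.l [M 24]) .z) .z)) (.n (.n (.n (.l [M
  23]) .z) .z) (.n (.n (.l [M 25]) .z) .z)))⟩⟩

def p2_15 : Step := ⟨.word [8, 0, 8], ⟨(.ofNat 1), .n (.n (.n (.n (.n (.l [M 0, M 18]) .z) (.n .z (.l [P 5, M 24])))
  (.n (.n .z (.l [P 1, M 20])) .z)) (.n (.n (.n (.l [M 2, M 22]) (.l [P 0, M 18])) .z) (.n (.n .z
  (.l [P 2, M 22])) .z))) (.n (.n (.n (.n (.l [M 1, M 20]) .z) (.n .z (.l [P 7, M 25]))) (.n (.n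
  (.l [M 5, M 24]) .z) .z)) (.n (.n (.n (.l [M 3, M 23]) .z) .z) (.n (.n (.l [M 7, M 25]) (.l [P
  3, M 23])) .z)))⟩⟩

def p2_16 : Step := ⟨.word [0, 0], ⟨(.ofNat 1), .n (.n (.n (.n (.n (.l [(0, .negSucc 1)]) .z) (.n .z (.l [(24,
  .negSucc 1)]))) (.n (.n .z (.l [(20, .negSucc 1)])) .z)) (.n (.n (.n (.l [(2, .negSucc 1)]) (.l
  [(18, .negSucc 1)])) .z) (.n (.n .z (.l [(22, .negSucc 1)])) .z))) (.n (.n (.n (.n (.l [(1,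
  .negSucc 1)]) .z) (.n .z (.l [(25, .negSucc 1)]))) (.n (.n (.l [(5, .negSucc 1)]) .z) .z)) (.n
  (.n (.n (.l [(3, .negSucc 1)]) .z) .z) (.n (.n (.l [(7, .negSucc 1)]) (.l [(23, .negSucc 1)]))
  .z)))⟩⟩

def p2_17 : Step := ⟨.conj 18 13, ⟨(.ofNat 1), .n (.n (.n (.n (.n .z (.l [P 0])) (.n .z (.l [M 6]))) .z) .z) (.n (.n
  (.n .z (.n .z (.l [M 9]))) (.n (.n .z (.l [P 2])) .z)) (.n (.n (.n .z (.l [P 1])) .z) (.n (.n .z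
  (.l [M 4])) .z)))⟩⟩

def p2_18 : Step := ⟨.conj 21 0, ⟨(.ofNat 1), .n (.n (.n (.n (.n (.l [P 16]) .z) .z) (.n (.n (.l [M 23]) .z) .z)) (.n
  (.n (.n (.l [P 21]) .z) .z) (.n (.n (.l [M 24]) .z) .z))) (.n (.n (.n (.n (.l [P 19]) .z) (.n
  (.l [M 25]) .z)) .z) .z)⟩⟩

def p2_19 : Step := ⟨.conj 20 0, ⟨(.ofNat 1), .n (.n (.n (.n (.n (.l [M 9]) (.l [P 25])) (.n (.l [P 20]) .z)) .z) (.n
  (.n .z (.n (.l [P 22]) .z)) .z)) (.n (.n .z (.n (.n (.l [M 17]) .z) .z)) (.n (.n (.n (.l [M 15])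
  .z) .z) .z))⟩⟩

def p2_20 : Step := ⟨.conj 23 0, ⟨(.ofNat 1), .n (.n .z (.n (.n (.n (.l [P 4]) .z) .z) (.n .z (.n (.l [P 18]) .z))))
  (.n (.n (.n (.n .z (.l [P 20])) .z) (.n (.n (.l [M 8]) (.l [M 23])) .z)) (.n .z (.n (.n (.l [M
  11]) .z) .z)))⟩⟩

def p2_21 : Step := ⟨.comm 14 0, ⟨(.ofNat 1), .n (.n (.n (.n .z (.n .z (.l [M 8]))) .z) (.n .z (.n (.n .z (.l [P 4]))
  (.n (.l [M 0]) .z)))) (.n (.n (.n (.n .z (.l [M 1])) (.n .z (.l [M 11]))) (.n (.n .z (.l [P 3]))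
  .z)) .z)⟩⟩

def p2_22 : Step := ⟨.conj 23 0, ⟨(.ofNat 1), .n (.n (.n .z (.n (.n .z (.l [P 6])) .z)) .z) (.n (.n (.n .z (.n .z (.l
  [P 14]))) .z) (.n (.n (.n .z (.l [P 5])) (.n (.l [P 0]) .z)) (.n (.n .z (.l [M 10])) (.n (.l [M
  2]) .z))))⟩⟩

def p2_23 : Step := ⟨.word [0, 1, 25, 6], ⟨(.ofNat 1), .n (.n (.n (.n .z (.n .z (.l [M 10]))) (.n (.n .z (.l [M 4]))
  (.n (.l [P 0]) .z))) (.n .z (.n (.n .z (.l [P 6])) .z))) (.n (.n (.n (.n .z (.l [M 2])) (.n .z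
  (.l [M 0, (12, .negSucc 1), M 13]))) (.n (.n .z (.l [P 5])) .z)) (.n (.n (.n .z (.l [M 3])) .z)
  (.n (.n .z (.l [P 8])) (.n (.l [P 1]) .z))))⟩⟩

def p2_24 : Step := ⟨.quot 11 10000, ⟨(.ofNat 1), .n (.n (.n (.n (.n .z (.l [P 18])) .z) .z) .z) (.n (.n .z (.n (.n
  (.l [P 6]) (.l [P 22])) .z)) (.n (.n (.n (.l [P 4]) (.l [P 20])) .z) (.n (.n (.l [P 9]) .z)
  .z)))⟩⟩

def p2_25 : Step := ⟨.conj 28 1, ⟨(.ofNat 1), .n (.n (.n (.n (.n (.l [M 5]) .z) (.n (.l [P 16]) .z)) (.n (.n (.l [P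
  12, (13, .ofNat 2), M 21]) (.l [P 25])) .z)) (.n (.n (.n .z (.l [M 24])) .z) (.n (.n (.l [P 14])
  .z) .z))) (.n (.n (.n (.n (.l [P 7]) .z) (.n (.l [M 17]) .z)) (.n .z (.n (.l [M 21]) .z))) (.n
  (.n .z (.n (.l [M 19]) .z)) .z))⟩⟩

def p2_26 : Step := ⟨.conj 27 0, ⟨(.ofNat 1), .n (.n (.n (.n (.n (.l [P 1]) (.l [P 19])) (.n (.l [P 11]) (.l [P 25])))
  .z) (.n (.n (.n .z (.l [P 20])) (.n (.l [P 12, (13, .ofNat 2), P 15]) .z)) (.n (.n (.l [P 9])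
  .z) (.n (.l [P 17]) .z)))) (.n (.n .z (.n (.n (.l [P 7]) .z) (.n (.l [P 15]) .z))) .z)⟩⟩

def p2_27 : Step := ⟨.conj 30 0, ⟨(.ofNat 1), .n (.n (.n (.n .z (.n .z (.l [P 23]))) (.n .z (.n (.l [P 11]) .z))) (.n
  (.n (.n (.l [P 1]) .z) (.n (.l [P 8]) .z)) (.n (.n (.l [P 4]) (.l [P 20])) (.n (.l [P 11, (12,
  .ofNat 2), P 13]) .z)))) (.n (.n (.n (.n .z (.l [P 15])) .z) (.n (.n (.l [P 3]) (.l [P 19]))
  .z)) .z)⟩⟩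

def p2_28 : Step := ⟨.conj 29 0, ⟨(.ofNat 1), .n (.n (.n (.n .z (.n (.l [M 10]) .z)) (.n (.n (.l [M 6]) (.l [M 22]))
  (.n (.l [M 14]) .z))) .z) (.n (.n (.n (.n (.l [M 2]) .z) .z) .z) (.n (.n (.n (.l [M 5]) (.l [M
  21])) (.n (.l [(12, .negSucc 1), M 13, P 14]) .z)) (.n (.n .z (.l [M 24])) (.n (.l [M 17])
  .z))))⟩⟩

def p2_29 : Step := ⟨.quot 0 10000, ⟨(.ofNat 1), .n (.n (.n (.n .z (.n (.l [P 10]) .z)) (.n (.n (.l [P 6]) (.l [P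
  22])) (.n (.l [P 14]) .z))) .z) (.n (.n (.n (.n (.l [P 2]) .z) .z) .z) (.n (.n (.n (.l [P 5])
  (.l [P 21])) (.n (.l [(12, .ofNat 2), P 13, P 14]) .z)) (.n (.n .z (.l [P 24])) (.n (.l [P 17])
  .z))))⟩⟩

def p2_30 : Step := ⟨.quot 22 10000, ⟨(.ofNat 1), .n (.n (.n .z (.n (.n (.l [P 3]) (.l [P 19])) .z)) (.n (.n (.n .z
  (.l [P 16])) .z) (.n (.n (.l [P 5]) (.l [P 21])) .z))) (.n (.n (.n .z (.n (.l [P 7]) .z)) .z)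
  .z)⟩⟩

def p2_31 : Step := ⟨.conj 34 2, ⟨(.ofNat 1), .n (.n (.n .z (.n (.n .z (.l [M 18])) .z)) .z) (.n (.n (.n (.n (.l [M
  0]) (.l [M 14])) (.n (.l [M 6]) (.l [M 24]))) (.n .z (.n (.l [M 10]) .z))) (.n (.n (.n .z (.l [M
  16])) (.n (.l [M 8]) .z)) (.n (.n (.l [M 5]) .z) (.n (.l [P 10, M 12, (13, .negSucc 1)])
  .z))))⟩⟩

def p2_32 : Step := ⟨.quot 0 10000, ⟨(.ofNat 1), .n (.n (.n .z (.n (.n .z (.l [P 18])) .z)) .z) (.n (.n (.n (.n (.l [P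
  0]) (.l [P 14])) (.n (.l [P 6]) (.l [P 24]))) (.n .z (.n (.l [P 10]) .z))) (.n (.n (.n .z (.l [P
  16])) (.n (.l [P 8]) .z)) (.n (.n (.l [P 5]) .z) (.n (.l [P 10, P 12, (13, .ofNat 2)]) .z))))⟩⟩

def p2 : List Step := [p2_0, p2_1, p2_2, p2_3, p2_4, p2_5, p2_6, p2_7, p2_8, p2_9, p2_10, p2_11, p2_12, p2_13, p2_14,
  p2_15, p2_16, p2_17, p2_18, p2_19, p2_20, p2_21, p2_22, p2_23, p2_24, p2_25, p2_26, p2_27,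
  p2_28, p2_29, p2_30, p2_31, p2_32]

/-- the triple -/
def trip : TripData where
  a := aA
  b := bA
  c := cA
  sa := 1
  sb := 1
  sc := 1
  sab := 1
  p1 := p1
  ta := 12
  tb := 0
  tc := 7
  p2 := p2
  tX := [8, 23, 3, 6]
  tY := [2, 22, 5, 0]

theorem chk_model : checkModel rep = true := by decide +kernel

theorem chk_rel : checkRel rep trip = true := by decide +kernel

theorem chk_one : check1 rep trip = true := by decide +kernel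

theorem chk_two : check2 rep trip = true := by decide +kernel

theorem chk_cart : ∀ i j : Fin 4, (CartanMatrix.F₄ : Matrix (Fin 4) (Fin 4) ℤ) i j = rep.A i j := by
  intro i j
  fin_cases i <;> fin_cases j <;> rfl

end F4

end Sp

theorem goodModel_F4 : GoodModel CartanMatrix.F₄ :=
  Sp.goodModel_of_check Sp.F4.rep Sp.F4.trip _ Sp.F4.chk_cart Sp.F4.chk_model
    Sp.F4.chk_rel Sp.F4.chk_one Sp.F4.chk_two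

end MP9bf44d
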