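import Pool.Agent.Lib.H74.Chev.G2
import Pool.Agent.Lib.H74.Chev.F4
import Pool.Agent.Lib.H74.Chev.E6
import Pool.Agent.Lib.H74.Chev.E7
import Pool.Agent.Lib.H74.Chev.E8

/-! # Exceptional types: the adjoint Chevalley groups over the integers are generated by three
involutions two of which commute -/

namespace MP9bf44d

lemma IsModel.reindex {ι ι' n : Type*} [Fintype n] [DecidableEq n] (σ : ι' ≃ ι)
    {A : Matrix ι ι ℤ} {e f : ι → Matrix n n ℤ} {X Y : ι → (Matrix n n ℤ)ˣ}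
    (h : IsModel A e f X Y) :
    IsModel (A.submatrix σ σ) (e ∘ σ) (f ∘ σ) (X ∘ σ) (Y ∘ σ) where
  e_cube i := h.e_cube (σ i)
  f_cube i := h.f_cube (σ i)
  X_eq i := h.X_eq (σ i)
  Y_eq i := h.Y_eq (σ i)
  e_ne_zero i := h.e_ne_zero (σ i)
  lie_e_f_ne i j hij := h.lie_e_f_ne (σ i) (σ j) (fun h' => hij (σ.injective h'))
  lie_h_e i j := h.lie_h_e (σ i) (σ j)
  lie_h_f i j := h.lie_h_f (σ i) (σ j)
  lie_h_h i j := h.lie_h_h (σ i) (σ j)

/-- Good models can be reindexed. -/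
lemma GoodModel.reindex {ι ι' : Type*} (σ : ι' ≃ ι) {A : Matrix ι ι ℤ} (h : GoodModel A) :
    GoodModel (A.submatrix σ σ) := by
  obtain ⟨n, e, f, X, Y, hM, a, b, c, ha, hb, hc, hab, hma, hmb, hmc, hX, hY⟩ := h
  refine ⟨n, e ∘ σ, f ∘ σ, X ∘ σ, Y ∘ σ, hM.reindex σ, a, b, c, ha, hb, hc, hab, ?_, ?_, ?_,
    fun i => hX (σ i), fun i => hY (σ i)⟩
  · rwa [σ.surjective.range_comp, σ.surjective.range_comp]
  · rwa [σ.surjective.range_comp, σ.surjective.range_comp]
  · rwa [σ.surjective.range_comp, σ.surjective.range_comp]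

section

variable {ι K L : Type*} [Finite ι] [Nonempty ι] [Field K] [CharZero K] [LieRing L]
  [LieAlgebra K L] [LieAlgebra.IsSimple K L] {H : LieSubalgebra K L} (B : LieAlgebra.Basis ι H)

theorem threeInvolutions_G2 (σ : ι ≃ Fin 2) (h : B.A = CartanMatrix.G₂.submatrix σ σ) :
    ThreeInvolutions (Gad B) :=
  threeInvolutions_of_goodModel B (h ▸ goodModel_G2.reindex σ)

theorem threeInvolutions_F4 (σ : ι ≃ Fin 4) (h : B.A = CartanMatrix.F₄.submatrix σ σ) :
    ThreeInvolutions (Gad B) :=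
  threeInvolutions_of_goodModel B (h ▸ goodModel_F4.reindex σ)

theorem threeInvolutions_E6 (σ : ι ≃ Fin 6) (h : B.A = CartanMatrix.E₆.submatrix σ σ) :
    ThreeInvolutions (Gad B) :=
  threeInvolutions_of_goodModel B (h ▸ goodModel_E6.reindex σ)

theorem threeInvolutions_E7 (σ : ι ≃ Fin 7) (h : B.A = CartanMatrix.E₇.submatrix σ σ) :
    ThreeInvolutions (Gad B) :=
  threeInvolutions_of_goodModel B (h ▸ goodModel_E7.reindex σ)

theorem threeInvolutions_E8 (σ : ι ≃ Fin 8) (h : B.A = CartanMatrix.E₈.submatrix σ σ) :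
    ThreeInvolutions (Gad B) :=
  threeInvolutions_of_goodModel B (h ▸ goodModel_E8.reindex σ)

end

end MP9bf44d
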