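import Pool.Agent.Lib.H74.Chev.Model

/-! # Sparse integral model of type G2 with a generating triple -/

namespace MP9bf44d

namespace Sp

namespace G2

def e0 : T :=
.n (.n (.n .z (.l [P 5])) .z) (.n (.n (.l [P 2]) .z) .z)

def f0 : T :=
.n (.n .z (.n (.l [P 1]) .z)) (.n (.n .z (.l [P 4])) .z)

def h0 : T :=
.n (.n (.n .z (.l [P 4])) (.n (.l [M 2]) .z)) (.n (.n (.l [P 1]) (.l [M 5])) .z)

def x0 : T :=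
.n (.n (.n .z (.l [P 5])) .z) (.n (.n (.l [P 2]) .z) .z)

def u0 : T :=
.n (.n (.n .z (.l [M 5])) .z) (.n (.n (.l [M 2]) .z) .z)

def y0 : T :=
.n (.n .z (.n (.l [P 1]) .z)) (.n (.n .z (.l [P 4])) .z)

def v0 : T :=
.n (.n .z (.n (.l [M 1]) .z)) (.n (.n .z (.l [M 4])) .z)

def e1 : T :=
.n (.n (.n (.l [P 1]) .z) (.n (.l [(3, .ofNat 2)]) .z)) (.n (.n .z (.l [P 6])) (.n (.l [P 4]) .z))

def f1 : T :=
.n (.n (.n .z (.l [(3, .ofNat 2)])) (.n .z (.l [P 5]))) (.n (.n (.l [P 0]) .z) (.n (.l [P 2]) .z))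

def h1 : T :=
.n (.n (.n (.l [P 0]) (.l [(4, .negSucc 1)])) (.n (.l [(2, .ofNat 2)]) (.l [M 6]))) (.n (.n (.l [M
  1]) (.l [P 5])) .z)

def x1 : T :=
.n (.n (.n (.l [P 1]) .z) (.n (.l [(3, .ofNat 2), P 4]) .z)) (.n (.n .z (.l [P 6])) (.n (.l [P 4])
  .z))

def u1 : T :=
.n (.n (.n (.l [M 1]) .z) (.n (.l [(3, .negSucc 1), P 4]) .z)) (.n (.n .z (.l [M 6])) (.n (.l [M
  4]) .z))

def y1 : T :=
.n (.n (.n .z (.l [P 2, (3, .ofNat 2)])) (.n .z (.l [P 5]))) (.n (.n (.l [P 0]) .z) (.n (.l [P 2])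
  .z))

def v1 : T :=
.n (.n (.n .z (.l [P 2, (3, .negSucc 1)])) (.n .z (.l [M 5]))) (.n (.n (.l [M 0]) .z) (.n (.l [M
  2]) .z))

def idT : T :=
.n (.n (.n (.l [P 0]) (.l [P 4])) (.n (.l [P 2]) (.l [P 6]))) (.n (.n (.l [P 1]) (.l [P 5])) (.n
  (.l [P 3]) .z))

/-- the representation -/
def rep : RepData where
  n := 7
  d := 3
  l := 2
  cart := [[2, -3], [-1, 2]]
  e := [e0, e1]
  f := [f0, f1]
  h := [h0, h1]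
  x := [x0, x1]
  x' := [u0, u1]
  y := [y0, y1]
  y' := [v0, v1]
  w := [(1, 2), (0, 1)]
  I := idT

def aA : Aff := ⟨(.ofNat 0),
.n (.n (.n (.l [M 0]) (.l [M 5])) (.n (.l [P 1]) (.l [M 6]))) (.n (.n (.l [P 2]) (.l [M 4])) (.n
  (.l [P 3]) .z))⟩

def bA : Aff := ⟨(.ofNat 0),
.n (.n (.n (.l [M 6]) (.l [M 1])) (.n (.l [P 5]) (.l [M 0]))) (.n (.n (.l [M 4]) (.l [P 2])) (.n
  (.l [M 3]) .z))⟩

def cA : Aff := ⟨(.negSucc 0),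
.n (.n (.n .z (.l [(4, .ofNat 2)])) (.n (.l [P 0, M 1, (2, .ofNat 2)]) (.l [P 4]))) (.n (.n .z (.l
  [P 1, (3, .negSucc 1), P 4])) (.n (.l [M 1, (3, .ofNat 2)]) .z))⟩

def p1_0 : Step := ⟨.word [2, 8, 2], ⟨(.ofNat 0), .n (.n (.n (.l [P 1]) (.l [P 2])) (.n (.l [P 4]) (.l [M 5]))) (.n
  (.n (.l [M 0]) (.l [P 6])) (.n (.l [M 3]) .z))⟩⟩

def p1_1 : Step := ⟨.word [2, 8, 2], ⟨(.ofNat 0), .n (.n (.n (.l [P 0]) (.l [P 5])) (.n (.l [M 1]) (.l [P 6]))) (.n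
  (.n (.l [P 2]) (.l [M 4])) (.n (.l [P 3]) .z))⟩⟩

def p1_2 : Step := ⟨.word [0, 1, 1], ⟨(.ofNat 0), .n (.n (.n (.l [M 0]) (.l [M 5])) (.n (.l [P 1]) (.l [M 6]))) (.n
  (.n (.l [P 2]) (.l [M 4])) (.n (.l [P 3]) .z))⟩⟩

def p1_3 : Step := ⟨.word [2, 1, 2, 1, 2, 2, 2], ⟨(.ofNat 0), .n (.n (.n (.l [M 6]) (.l [M 1])) (.n (.l [P 5]) (.l [M
  0]))) (.n (.n (.l [M 4]) (.l [P 2])) (.n (.l [M 3]) .z))⟩⟩

def p1_4 : Step := ⟨.word [2, 2, 3], ⟨(.ofNat 0), .n (.n (.n (.l [P 1]) (.l [M 2])) (.n (.l [M 4]) (.l [M 5]))) (.n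
  (.n (.l [P 0]) (.l [M 6])) (.n (.l [M 3]) .z))⟩⟩

def p1_5 : Step := ⟨.word [7, 8, 10, 9, 0, 7, 12, 6, 9], ⟨(.negSucc 0), .n (.n (.n .z (.l [(4, .ofNat 2)])) (.n (.l
  [P 0, M 1, (2, .ofNat 2)]) (.l [P 4]))) (.n (.n .z (.l [P 1, (3, .negSucc 1), P 4])) (.n (.l [M
  1, (3, .ofNat 2)]) .z))⟩⟩

def p1 : List Step := [p1_0, p1_1, p1_2, p1_3, p1_4, p1_5]

def p2_0 : Step := ⟨.word [1, 3, 2, 3, 2, 3, 2, 3], ⟨(.ofNat 0), .n (.n (.n (.l [P 6]) (.l [P 1, M 2])) (.n (.l [M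
  4]) (.l [P 0]))) (.n (.n (.l [M 4, P 5]) (.l [P 1])) (.n (.l [M 3]) .z))⟩⟩

def p2_1 : Step := ⟨.word [3, 2], ⟨(.ofNat 0), .n (.n (.n (.l [P 6]) (.l [M 2])) (.n (.l [M 4]) (.l [P 0]))) (.n (.n
  (.l [P 5]) (.l [P 1])) (.n (.l [M 3]) .z))⟩⟩

def p2_2 : Step := ⟨.word [1, 0], ⟨(.ofNat 1), .n (.n (.n .z (.l [P 5])) .z) (.n (.n (.l [P 2]) .z) .z)⟩⟩

def p2_3 : Step := ⟨.word [6, 5, 6, 5, 4, 6, 5, 6], ⟨(.negSucc 0), .n (.n (.n (.l [P 0, M 1, (3, .ofNat 2), (4,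
  .negSucc 1), P 5]) (.l [M 0, M 2, (3, .ofNat 2)])) (.n (.l [M 0, P 1, (3, .ofNat 2), P 5, (6,
  .negSucc 1)]) (.l [M 1, M 2, (3, .ofNat 2), M 4, P 6]))) (.n (.n (.l [(3, .ofNat 2), M 4, P 5, M
  6]) (.l [P 0, M 1, M 4, P 6])) (.n (.l [M 0, M 2, (3, .ofNat 4), M 4, P 5, M 6]) .z))⟩⟩

def p2_4 : Step := ⟨.word [6, 7, 6, 7, 5, 7, 6, 7], ⟨(.negSucc 0), .n (.n (.n (.l [P 0, M 1, (3, .ofNat 2), (4,
  .negSucc 1), P 5]) (.l [M 0, M 2, (3, .ofNat 2)])) (.n (.l [M 0, (1, .ofNat 2), P 4, M 6]) (.l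
  [M 1, M 2, (3, .ofNat 2), M 4, P 6]))) (.n (.n (.l [(3, .ofNat 2), M 4, P 5, M 6]) (.l [(0,
  .ofNat 2), M 1, P 2, (3, .negSucc 1), P 6])) (.n (.l [M 0, M 2, (3, .ofNat 4), M 4, P 5, M 6])
  .z))⟩⟩

def p2_5 : Step := ⟨.word [7, 8, 7, 8, 6, 7, 8, 7], ⟨(.ofNat 1), .n (.n (.n (.l [P 2, (3, .negSucc 1), P 4]) (.l [P
  5, M 6])) (.n (.l [M 0, M 2, (3, .ofNat 2), M 4, P 5, M 6]) (.l [P 4, P 5, M 6]))) (.n (.n (.l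
  [P 2, (3, .negSucc 1), P 4]) (.l [M 1, M 2, M 4, (5, .negSucc 1), (6, .ofNat 2)])) (.n (.l [P 1,
  P 2, (3, .negSucc 1), P 4, P 5, M 6]) .z))⟩⟩

def p2_6 : Step := ⟨.word [9, 8, 9, 8], ⟨(.negSucc 0), .n (.n (.n (.l [(0, .ofNat 2), M 1]) .z) (.n (.l [M 0, M 1,
  (3, .ofNat 2), M 4]) (.l [M 4, (6, .ofNat 2)]))) (.n (.n .z (.l [P 1, (3, .negSucc 1), P 6]))
  (.n (.l [M 1, (3, .ofNat 2), M 4]) .z))⟩⟩

def p2_7 : Step := ⟨.word [3, 2, 1, 0], ⟨(.ofNat 1), .n (.n (.n (.l [P 1]) .z) (.n (.l [(3, .ofNat 2), P 4]) .z)) (.n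
  (.n .z (.l [P 6])) (.n (.l [P 4]) .z))⟩⟩

def p2_8 : Step := ⟨.word [11, 10, 11, 10, 11, 10, 11, 10], ⟨(.ofNat 1), .n (.n .z (.n (.l [P 1]) .z)) (.n (.n .z (.l
  [P 4])) .z)⟩⟩

def p2_9 : Step := ⟨.word [11, 10, 12, 11, 12, 11, 10, 12], ⟨(.ofNat 0), .n (.n (.n (.l [P 1, (3, .negSucc 1), M 5, P
  6]) (.l [(0, .ofNat 2), M 1, P 2, M 4, P 5])) (.n (.l [M 1, (3, .ofNat 2), M 4, P 5]) (.l [P 1,
  M 2]))) (.n (.n (.l [P 0, P 1, P 2, (3, .negSucc 1), P 6]) (.l [M 0, P 1, M 2])) (.n (.l [P 0, M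
  1, P 2, P 3, M 4, P 5]) .z))⟩⟩

def p2_10 : Step := ⟨.word [12, 13, 12, 13, 12, 13, 11, 13], ⟨(.ofNat 0), .n (.n (.n (.l [M 4, P 6]) (.l [M 0, P 1, M
  2])) (.n (.l [M 6]) (.l [P 1, M 2]))) (.n (.n (.l [M 1, (3, .ofNat 2), M 4, P 5]) (.l [P 4, M
  5])) (.n (.l [P 3, M 4, P 5]) .z))⟩⟩

def p2_11 : Step := ⟨.word [13, 14, 13, 14, 13, 14, 12, 13], ⟨(.ofNat 0), .n (.n (.n (.l [P 0]) (.l [M 5])) (.n (.l [M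
  0, P 1]) (.l [M 5, P 6]))) (.n (.n (.l [M 2]) (.l [P 2, (3, .negSucc 1), P 4])) (.n (.l [M 2, P
  3]) .z))⟩⟩

def p2_12 : Step := ⟨.word [15, 14, 15, 14, 15, 13], ⟨(.ofNat 0), .n (.n (.n (.l [P 0, P 2]) (.l [P 5])) (.n (.l [M 1,
  (3, .ofNat 2), P 5]) (.l [P 6]))) (.n (.n (.l [P 2]) (.l [M 4, P 6])) (.n (.l [P 3, P 5]) .z))⟩⟩

def p2_13 : Step := ⟨.word [3, 2, 1, 0], ⟨(.ofNat 1), .n (.n (.n .z (.l [P 2, (3, .ofNat 2)])) (.n .z (.l [P 5]))) (.n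
  (.n (.l [P 0]) .z) (.n (.l [P 2]) .z))⟩⟩

def p2 : List Step := [p2_0, p2_1, p2_2, p2_3, p2_4, p2_5, p2_6, p2_7, p2_8, p2_9, p2_10, p2_11, p2_12, p2_13]

/-- the triple -/
def trip : TripData where
  a := aA
  b := bA
  c := cA
  sa := 1
  sb := 1
  sc := 1
  sab := 1
  p1 := p1
  ta := 3
  tb := 2
  tc := 0
  p2 := p2
  tX := [11, 6]
  tY := [5, 0]

theorem chk_model : checkModel rep = true := by decide +kernel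

theorem chk_rel : checkRel rep trip = true := by decide +kernel

theorem chk_one : check1 rep trip = true := by decide +kernel

theorem chk_two : check2 rep trip = true := by decide +kernel

theorem chk_cart : ∀ i j : Fin 2, (CartanMatrix.G₂ : Matrix (Fin 2) (Fin 2) ℤ) i j = rep.A i j := by
  intro i j
  fin_cases i <;> fin_cases j <;> rfl

end G2

end Sp

theorem goodModel_G2 : GoodModel CartanMatrix.G₂ :=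
  Sp.goodModel_of_check Sp.G2.rep Sp.G2.trip _ Sp.G2.chk_cart Sp.G2.chk_model
    Sp.G2.chk_rel Sp.G2.chk_one Sp.G2.chk_two

end MP9bf44d
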