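import Pool.Agent.Lib.H74.Chev.Slp
import Pool.Agent.Lib.H68.Transfer5

/-! # From sparse data to integral models with a generating triple -/

namespace MP9bf44d

open Subgroup Set

/-- `A` has an integral matrix model together with a triple `a, b, c` of involutions modulo
`±1`, the first two commuting modulo `±1`, which generates the same group modulo `±1`. -/
def GoodModel {ι : Type*} (A : Matrix ι ι ℤ) : Prop :=
  ∃ (n : ℕ) (e f : ι → Matrix (Fin n) (Fin n) ℤ) (X Y : ι → (Matrix (Fin n) (Fin n) ℤ)ˣ),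
    IsModel A e f X Y ∧ ∃ a b c : (Matrix (Fin n) (Fin n) ℤ)ˣ,
      (a * a = 1 ∨ a * a = -1) ∧ (b * b = 1 ∨ b * b = -1) ∧ (c * c = 1 ∨ c * c = -1) ∧
      (a * b = b * a ∨ a * b = -(b * a)) ∧
      a ∈ Subgroup.closure (range X ∪ range Y ∪ {-1}) ∧
      b ∈ Subgroup.closure (range X ∪ range Y ∪ {-1}) ∧
      c ∈ Subgroup.closure (range X ∪ range Y ∪ {-1}) ∧
      (∀ i, X i ∈ Subgroup.closure {a, b, c, -1}) ∧ (∀ i, Y i ∈ Subgroup.closure {a, b, c, -1})

theorem threeInvolutions_of_goodModel {ι K L : Type*} [Finite ι] [Field K] [CharZero K]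
    [LieRing L] [LieAlgebra K L] {H : LieSubalgebra K L} (B : LieAlgebra.Basis ι H) [Nonempty ι]
    [LieAlgebra.IsSimple K L] (h : GoodModel B.A) : ThreeInvolutions (Gad B) := by
  obtain ⟨n, e, f, X, Y, hM, a, b, c, ha, hb, hc, hab, hma, hmb, hmc, hX, hY⟩ := h
  exact threeInvolutions_of_model B hM a b c ha hb hc hab hma hmb hmc hX hY

namespace Sp

/-- Data of a sparse integral representation. -/
structure RepData where
  n : ℕ
  d : ℕ
  l : ℕ
  cart : List (List ℤ)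
  e : List T
  f : List T
  h : List T
  x : List T
  x' : List T
  y : List T
  y' : List T
  w : List (ℕ × ℕ)
  I : T

/-- lookup -/
def tg (L : List T) (i : ℕ) : T := L.getD i T.z

/-- Cartan matrix entry -/
def RepData.A (D : RepData) (i j : ℕ) : ℤ := (D.cart.getD i []).getD j 0

/-- checks for one index -/
noncomputable def checkOne (D : RepData) (i : ℕ) : Bool :=
  ok D.n (tg D.e i) D.d && (ok D.n (tg D.f i) D.d && (ok D.n (tg D.h i) D.d &&
  (ok D.n (tg D.x i) D.d && (ok D.n (tg D.x' i) D.d && (ok D.n (tg D.y i) D.d &&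
  (ok D.n (tg D.y' i) D.d &&
  (eqT (mul (tg D.e i) (mul (tg D.e i) (tg D.e i))) T.z &&
  (eqT (mul (tg D.f i) (mul (tg D.f i) (tg D.f i))) T.z &&
  (eqT (smulT 2 (tg D.x i)) (addT (smulT 2 (tg D.e i)) (mul (tg D.e i) (tg D.e i))) &&
  (eqT (smulT 2 (tg D.y i)) (addT (smulT 2 (tg D.f i)) (mul (tg D.f i) (tg D.f i))) &&
  (eqA (mulA ⟨1, tg D.x i⟩ ⟨1, tg D.x' i⟩) oneA &&
  (eqA (mulA ⟨1, tg D.y i⟩ ⟨1, tg D.y' i⟩) oneA &&
  (eqT (mul (tg D.e i) (tg D.f i)) (addT (tg D.h i) (mul (tg D.f i) (tg D.e i))) &&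
  (Nat.blt (D.w.getD i (0, 0)).1 D.n && (Nat.blt (D.w.getD i (0, 0)).2 D.n &&
   zeq (rval (get (tg D.e i) (D.w.getD i (0, 0)).1) (D.w.getD i (0, 0)).2) 1)))))))))))))))

/-- checks for a pair of indices -/
noncomputable def checkPair (D : RepData) (i j : ℕ) : Bool :=
  eqT (mul (tg D.h j) (tg D.e i)) (addT (smulT (D.A i j) (tg D.e i)) (mul (tg D.e i) (tg D.h j))) &&
  (eqT (addT (mul (tg D.h j) (tg D.f i)) (smulT (D.A i j) (tg D.f i)))
    (mul (tg D.f i) (tg D.h j)) &&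
  (Nat.beq i j || eqT (mul (tg D.e i) (tg D.f j)) (mul (tg D.f j) (tg D.e i))))

/-- checks of the model -/
noncomputable def checkModel (D : RepData) : Bool :=
  (List.range D.l).all fun i => checkOne D i && (List.range D.l).all fun j => checkPair D i j

/-- Unit with given value and inverse (junk value `1`). -/
noncomputable def mkU (n : ℕ) (x x' : Aff) : (Matrix (Fin n) (Fin n) ℤ)ˣ :=
  open Classical in
  if h : affM n x * affM n x' = 1 ∧ affM n x' * affM n x = 1 then ⟨_, _, h.1, h.2⟩ else 1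

lemma mkU_val {n : ℕ} {x x' : Aff} (h : affM n x * affM n x' = 1) :
    ((mkU n x x' : (Matrix (Fin n) (Fin n) ℤ)ˣ) : Matrix (Fin n) (Fin n) ℤ) = affM n x := by
  have h' : affM n x * affM n x' = 1 ∧ affM n x' * affM n x = 1 :=
    ⟨h, mul_eq_one_comm.mp h⟩
  unfold mkU
  rw [dif_pos h']

lemma mkU_inv {n : ℕ} {x x' : Aff} (h : affM n x * affM n x' = 1) :
    (((mkU n x x')⁻¹ : (Matrix (Fin n) (Fin n) ℤ)ˣ) : Matrix (Fin n) (Fin n) ℤ) = affM n x' := by
  have h' : affM n x * affM n x' = 1 ∧ affM n x' * affM n x = 1 :=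
    ⟨h, mul_eq_one_comm.mp h⟩
  unfold mkU
  rw [dif_pos h']
  rfl

/-- the matrices `e i` of the model -/
noncomputable def RepData.eM (D : RepData) (i : Fin D.l) : Matrix (Fin D.n) (Fin D.n) ℤ :=
  toM D.n (tg D.e i)

/-- the matrices `f i` of the model -/
noncomputable def RepData.fM (D : RepData) (i : Fin D.l) : Matrix (Fin D.n) (Fin D.n) ℤ :=
  toM D.n (tg D.f i)

/-- the matrices `X i` of the model -/
noncomputable def RepData.X (D : RepData) (i : Fin D.l) : (Matrix (Fin D.n) (Fin D.n) ℤ)ˣ :=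
  mkU D.n ⟨1, tg D.x i⟩ ⟨1, tg D.x' i⟩

/-- the matrices `Y i` of the model -/
noncomputable def RepData.Y (D : RepData) (i : Fin D.l) : (Matrix (Fin D.n) (Fin D.n) ℤ)ˣ :=
  mkU D.n ⟨1, tg D.y i⟩ ⟨1, tg D.y' i⟩

/-- what `checkOne` gives -/
structure OneFacts (D : RepData) (i : ℕ) : Prop where
  oke : ok D.n (tg D.e i) D.d = true
  okf : ok D.n (tg D.f i) D.d = true
  okh : ok D.n (tg D.h i) D.d = true
  okx : ok D.n (tg D.x i) D.d = true
  okx' : ok D.n (tg D.x' i) D.d = true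
  oky : ok D.n (tg D.y i) D.d = true
  oky' : ok D.n (tg D.y' i) D.d = true
  e3 : toM D.n (tg D.e i) * toM D.n (tg D.e i) * toM D.n (tg D.e i) = 0
  f3 : toM D.n (tg D.f i) * toM D.n (tg D.f i) * toM D.n (tg D.f i) = 0
  xe : (2 : ℤ) • toM D.n (tg D.x i) =
    (2 : ℤ) • toM D.n (tg D.e i) + toM D.n (tg D.e i) * toM D.n (tg D.e i)
  yf : (2 : ℤ) • toM D.n (tg D.y i) =
    (2 : ℤ) • toM D.n (tg D.f i) + toM D.n (tg D.f i) * toM D.n (tg D.f i)
  xx : affM D.n ⟨1, tg D.x i⟩ * affM D.n ⟨1, tg D.x' i⟩ = 1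
  yy : affM D.n ⟨1, tg D.y i⟩ * affM D.n ⟨1, tg D.y' i⟩ = 1
  hh : toM D.n (tg D.e i) * toM D.n (tg D.f i) =
    toM D.n (tg D.h i) + toM D.n (tg D.f i) * toM D.n (tg D.e i)
  ne : toM D.n (tg D.e i) ≠ 0

lemma oneFacts {D : RepData} {i : ℕ} (hc : checkOne D i = true) : OneFacts D i := by
  unfold checkOne at hc
  simp only [Bool.and_eq_true] at hc
  obtain ⟨h1, h2, h3, h4, h5, h6, h7, h8, h9, h10, h11, h12, h13, h14, h15, h16, h17⟩ := hc
  have g8 := eqT_toM h8 D.n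
  have g9 := eqT_toM h9 D.n
  have g10 := eqT_toM h10 D.n
  have g11 := eqT_toM h11 D.n
  have g12 := eqA_affM h12 D.n
  have g13 := eqA_affM h13 D.n
  have g14 := eqT_toM h14 D.n
  rw [toM_mul h1, toM_mul h1, toM_z] at g8
  rw [toM_mul h2, toM_mul h2, toM_z] at g9
  rw [toM_smulT, toM_add (smulT_ok _ h1) (mul_ok h1 h1), toM_smulT, toM_mul h1] at g10
  rw [toM_smulT, toM_add (smulT_ok _ h2) (mul_ok h2 h2), toM_smulT, toM_mul h2] at g11
  have k4 : okA D.n D.d ⟨1, tg D.x i⟩ = true := h4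
  have k5 : okA D.n D.d ⟨1, tg D.x' i⟩ = true := h5
  have k6 : okA D.n D.d ⟨1, tg D.y i⟩ = true := h6
  have k7 : okA D.n D.d ⟨1, tg D.y' i⟩ = true := h7
  rw [affM_mulA k4 k5, affM_oneA] at g12
  rw [affM_mulA k6 k7, affM_oneA] at g13
  rw [toM_mul h1, toM_add h3 (mul_ok h2 h1), toM_mul h2] at g14
  refine ⟨h1, h2, h3, h4, h5, h6, h7, by rw [mul_assoc]; exact g8, by rw [mul_assoc]; exact g9,
    g10, g11, g12, g13, g14, ?_⟩
  intro h0
  have h15' : (D.w.getD i (0, 0)).1 < D.n := Nat.le_of_ble_eq_true h15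
  have h16' : (D.w.getD i (0, 0)).2 < D.n := Nat.le_of_ble_eq_true h16
  have h18 := congrFun (congrFun h0 ⟨_, h15'⟩) ⟨_, h16'⟩
  have h19 := zeq_eq h17
  simp only [toM, Matrix.zero_apply] at h18
  rw [h18] at h19
  exact absurd h19 (by decide)

/-- what `checkPair` gives -/
lemma pairFacts {D : RepData} {i j : ℕ} (hc : checkPair D i j = true) (hi : OneFacts D i)
    (hj : OneFacts D j) :
    toM D.n (tg D.h j) * toM D.n (tg D.e i) =
      D.A i j • toM D.n (tg D.e i) + toM D.n (tg D.e i) * toM D.n (tg D.h j) ∧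
    toM D.n (tg D.h j) * toM D.n (tg D.f i) + D.A i j • toM D.n (tg D.f i) =
      toM D.n (tg D.f i) * toM D.n (tg D.h j) ∧
    (i ≠ j → toM D.n (tg D.e i) * toM D.n (tg D.f j) =
      toM D.n (tg D.f j) * toM D.n (tg D.e i)) := by
  unfold checkPair at hc
  simp only [Bool.and_eq_true, Bool.or_eq_true] at hc
  obtain ⟨h1, h2, h3⟩ := hc
  have g1 := eqT_toM h1 D.n
  have g2 := eqT_toM h2 D.n
  rw [toM_mul hj.okh, toM_add (smulT_ok _ hi.oke) (mul_ok hi.oke hj.okh), toM_smulT,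
    toM_mul hi.oke] at g1
  rw [toM_add (mul_ok hj.okh hi.okf) (smulT_ok _ hi.okf), toM_smulT, toM_mul hj.okh,
    toM_mul hi.okf] at g2
  refine ⟨g1, g2, ?_⟩
  intro hij
  rcases h3 with h3 | h3
  · exact absurd (Nat.eq_of_beq_eq_true h3) hij
  · have g3 := eqT_toM h3 D.n
    rwa [toM_mul hi.oke, toM_mul hj.okf] at g3

lemma smul_two_iff {n : ℕ} (x : Matrix (Fin n) (Fin n) ℤ) : (2 : ℕ) • x = (2 : ℤ) • x := by
  rw [← natCast_zsmul]; rfl

theorem isModel_of_check (D : RepData) (A : Matrix (Fin D.l) (Fin D.l) ℤ)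
    (hA : ∀ i j : Fin D.l, A i j = D.A i j) (hc : checkModel D = true) :
    IsModel A D.eM D.fM D.X D.Y := by
  unfold checkModel at hc
  rw [List.all_eq_true] at hc
  have one : ∀ i : Fin D.l, OneFacts D i := fun i => by
    have := hc i (List.mem_range.mpr i.2)
    rw [Bool.and_eq_true] at this
    exact oneFacts this.1
  have pair : ∀ i j : Fin D.l, checkPair D i j = true := fun i j => by
    have := hc i (List.mem_range.mpr i.2)
    rw [Bool.and_eq_true, List.all_eq_true] at this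
    exact this.2 j (List.mem_range.mpr j.2)
  have hh : ∀ j : Fin D.l, ⁅D.eM j, D.fM j⁆ = toM D.n (tg D.h j) := fun j => by
    rw [Ring.lie_def]
    unfold RepData.eM RepData.fM
    rw [(one j).hh, add_sub_cancel_right]
  have he : ∀ i j : Fin D.l, ⁅⁅D.eM j, D.fM j⁆, D.eM i⁆ = A i j • D.eM i := fun i j => by
    have := (pairFacts (pair i j) (one i) (one j)).1
    rw [hh, Ring.lie_def, hA]
    unfold RepData.eM
    rw [this, add_sub_cancel_right]
  have hf : ∀ i j : Fin D.l, ⁅⁅D.eM j, D.fM j⁆, D.fM i⁆ = -(A i j • D.fM i) := fun i j => by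
    have := (pairFacts (pair i j) (one i) (one j)).2.1
    rw [hh, Ring.lie_def, hA]
    unfold RepData.fM
    rw [← this]; abel
  refine ⟨fun i => (one i).e3, fun i => (one i).f3, fun i => ?_, fun i => ?_,
    fun i => (one i).ne, fun i j hij => ?_, he, hf, fun i j => ?_⟩
  · unfold RepData.X RepData.eM
    rw [mkU_val (one i).xx, smul_two_iff, smul_two_iff, smul_two_iff]
    unfold affM
    rw [smul_add, (one i).xe]
    simp only [one_smul]
    abel
  · unfold RepData.Y RepData.fM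
    rw [mkU_val (one i).yy, smul_two_iff, smul_two_iff, smul_two_iff]
    unfold affM
    rw [smul_add, (one i).yf]
    simp only [one_smul]
    abel
  · rw [Ring.lie_def]
    unfold RepData.eM RepData.fM
    rw [(pairFacts (pair i j) (one i) (one j)).2.2 (fun h => hij (Fin.ext h)), sub_self]
  · -- `[h_i, h_j] = 0` by the Jacobi identity
    have key : ∀ h e f : Matrix (Fin D.n) (Fin D.n) ℤ, ⁅h, ⁅e, f⁆⁆ =
        ⁅h, e⁆ * f + e * ⁅h, f⁆ - (⁅h, f⁆ * e + f * ⁅h, e⁆) := fun h e f => by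
      simp only [Ring.lie_def]; noncomm_ring
    rw [key, he j i, hf j i]
    simp only [smul_mul_assoc, mul_smul_comm, mul_neg, neg_mul]
    abel

/-- Data of a triple. -/
structure TripData where
  a : Aff
  b : Aff
  c : Aff
  sa : ℤ
  sb : ℤ
  sc : ℤ
  sab : ℤ
  p1 : List Step
  ta : ℕ
  tb : ℕ
  tc : ℕ
  p2 : List Step
  tX : List ℕ
  tY : List ℕ

/-- sign test -/
noncomputable def isSign (s : ℤ) : Bool := zeq s 1 || zeq s (-1)

/-- checks of the relations of the triple -/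
noncomputable def checkRel (D : RepData) (S : TripData) : Bool :=
  okA D.n D.d S.a && (okA D.n D.d S.b && (okA D.n D.d S.c &&
  (checkI D.n D.d D.I &&
  (isSign S.sa && (isSign S.sb && (isSign S.sc && (isSign S.sab &&
  (eqI D.I (mulA S.a S.a) ⟨S.sa, T.z⟩ &&
  (eqI D.I (mulA S.b S.b) ⟨S.sb, T.z⟩ &&
  (eqI D.I (mulA S.c S.c) ⟨S.sc, T.z⟩ &&
   eqI D.I (mulA S.a S.b) (mulA ⟨S.sab, T.z⟩ (mulA S.b S.a))))))))))))

/-- starting state for the first program -/
def st1 (D : RepData) : List Aff :=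
  ⟨-1, T.z⟩ :: ((List.range D.l).map (fun i => (⟨1, tg D.x i⟩ : Aff)) ++
    (List.range D.l).map (fun i => (⟨1, tg D.x' i⟩ : Aff)) ++
    (List.range D.l).map (fun i => (⟨1, tg D.y i⟩ : Aff)) ++
    (List.range D.l).map (fun i => (⟨1, tg D.y' i⟩ : Aff)))

/-- the triple lies in the group of the model -/
noncomputable def check1 (D : RepData) (S : TripData) : Bool :=
  check D.n D.d D.I [(S.ta, S.a), (S.tb, S.b), (S.tc, S.c)] (st1 D) S.p1

/-- the model lies in the group of the triple -/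
noncomputable def check2 (D : RepData) (S : TripData) : Bool :=
  check D.n D.d D.I ((List.range D.l).map (fun i => (S.tX.getD i 0, (⟨1, tg D.x i⟩ : Aff))) ++
    (List.range D.l).map (fun i => (S.tY.getD i 0, (⟨1, tg D.y i⟩ : Aff))))
    [⟨-1, T.z⟩, S.a, S.b, S.c] S.p2

lemma affM_scal (n : ℕ) (s : ℤ) : affM n ⟨s, T.z⟩ = s • 1 := by
  simp [affM, toM_z]

lemma okA_scal (n d : ℕ) (s : ℤ) : okA n d ⟨s, T.z⟩ = true := rfl

lemma isSign_iff {s : ℤ} (h : isSign s = true) : s = 1 ∨ s = -1 := by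
  unfold isSign at h
  rw [Bool.or_eq_true] at h
  rcases h with h | h
  · exact Or.inl (zeq_eq h)
  · exact Or.inr (zeq_eq h)

lemma sq_unit {n d : ℕ} {a : Aff} {s : ℤ} {I : T} (ha : okA n d a = true)
    (hI : checkI n d I = true) (hs : isSign s = true)
    (h : eqI I (mulA a a) ⟨s, T.z⟩ = true) :
    ∃ u : (Matrix (Fin n) (Fin n) ℤ)ˣ, (u : Matrix (Fin n) (Fin n) ℤ) = affM n a ∧
      (u * u = 1 ∨ u * u = -1) := by
  have h1 := eqI_affM hI (mulA_ok ha ha) h
  rw [affM_mulA ha ha, affM_scal] at h1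
  rcases isSign_iff hs with rfl | rfl
  · rw [one_smul] at h1
    exact ⟨⟨affM n a, affM n a, h1, h1⟩, rfl, Or.inl (Units.ext h1)⟩
  · rw [neg_one_smul] at h1
    have h3 : affM n a * -affM n a = 1 := by rw [mul_neg, h1, neg_neg]
    have h4 : -affM n a * affM n a = 1 := by rw [neg_mul, h1, neg_neg]
    exact ⟨⟨affM n a, -affM n a, h3, h4⟩, rfl, Or.inr (Units.ext h1)⟩

lemma mem_of_Mem {n : ℕ} {H : Subgroup (Matrix (Fin n) (Fin n) ℤ)ˣ}
    {u : (Matrix (Fin n) (Fin n) ℤ)ˣ} (h : Mem H (u : Matrix (Fin n) (Fin n) ℤ)) : u ∈ H := by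
  obtain ⟨v, hv, h⟩ := h
  rw [← Units.ext h]
  exact hv

theorem goodModel_of_check (D : RepData) (S : TripData) (A : Matrix (Fin D.l) (Fin D.l) ℤ)
    (hA : ∀ i j : Fin D.l, A i j = D.A i j) (hM : checkModel D = true)
    (hR : checkRel D S = true) (h1 : check1 D S = true) (h2 : check2 D S = true) :
    GoodModel A := by
  refine ⟨D.n, D.eM, D.fM, D.X, D.Y, isModel_of_check D A hA hM, ?_⟩
  unfold checkModel at hM
  rw [List.all_eq_true] at hM
  have one : ∀ i < D.l, OneFacts D i := fun i hi => by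
    have := hM i (List.mem_range.mpr hi)
    rw [Bool.and_eq_true] at this
    exact oneFacts this.1
  unfold checkRel at hR
  simp only [Bool.and_eq_true] at hR
  obtain ⟨oka, okb, okc, hI, hsa, hsb, hsc, hsab, ha, hb, hc, hab⟩ := hR
  obtain ⟨ua, ea, qa⟩ := sq_unit oka hI hsa ha
  obtain ⟨ub, eb, qb⟩ := sq_unit okb hI hsb hb
  obtain ⟨uc, ec, qc⟩ := sq_unit okc hI hsc hc
  have comm : ua * ub = ub * ua ∨ ua * ub = -(ub * ua) := by
    have h3 := eqI_affM hI (mulA_ok oka okb) hab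
    rw [affM_mulA oka okb, affM_mulA (okA_scal _ _ _) (mulA_ok okb oka), affM_mulA okb oka,
      affM_scal] at h3
    rcases isSign_iff hsab with hs | hs
    · left
      apply Units.ext
      rw [Units.val_mul, Units.val_mul, ea, eb, h3, hs]; simp
    · right
      apply Units.ext
      rw [Units.val_mul, Units.val_neg, Units.val_mul, ea, eb, h3, hs]; simp
  -- the first program
  have good1 : ∀ x ∈ st1 D, Good D.n D.d
      (Subgroup.closure (range D.X ∪ range D.Y ∪ {-1})) x := by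
    intro x hx
    unfold st1 at hx
    simp only [List.mem_cons, List.mem_append, List.mem_map, List.mem_range] at hx
    rcases hx with rfl | ((⟨i, hi, rfl⟩ | ⟨i, hi, rfl⟩) | ⟨i, hi, rfl⟩) | ⟨i, hi, rfl⟩
    · refine ⟨okA_scal _ _ _, -1, subset_closure (by simp), ?_⟩
      rw [affM_scal]; simp
    · exact ⟨(one i hi).okx, D.X ⟨i, hi⟩, subset_closure (Or.inl (Or.inl ⟨_, rfl⟩)),
        mkU_val (one i hi).xx⟩
    · exact ⟨(one i hi).okx', (D.X ⟨i, hi⟩)⁻¹,
        inv_mem (subset_closure (Or.inl (Or.inl ⟨_, rfl⟩))), mkU_inv (one i hi).xx⟩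
    · exact ⟨(one i hi).oky, D.Y ⟨i, hi⟩, subset_closure (Or.inl (Or.inr ⟨_, rfl⟩)),
        mkU_val (one i hi).yy⟩
    · exact ⟨(one i hi).oky', (D.Y ⟨i, hi⟩)⁻¹,
        inv_mem (subset_closure (Or.inl (Or.inr ⟨_, rfl⟩))), mkU_inv (one i hi).yy⟩
  have s1 := check_sound hI S.p1 (st1 D) good1 h1
  have ma : ua ∈ Subgroup.closure (range D.X ∪ range D.Y ∪ {-1}) := by
    apply mem_of_Mem; rw [ea]; exact s1 (S.ta, S.a) (by simp)
  have mb : ub ∈ Subgroup.closure (range D.X ∪ range D.Y ∪ {-1}) := by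
    apply mem_of_Mem; rw [eb]; exact s1 (S.tb, S.b) (by simp)
  have mc : uc ∈ Subgroup.closure (range D.X ∪ range D.Y ∪ {-1}) := by
    apply mem_of_Mem; rw [ec]; exact s1 (S.tc, S.c) (by simp)
  -- the second program
  have good2 : ∀ x ∈ [⟨-1, T.z⟩, S.a, S.b, S.c], Good D.n D.d (Subgroup.closure {ua, ub, uc, -1}) x := by
    intro x hx
    simp only [List.mem_cons, List.not_mem_nil, or_false] at hx
    rcases hx with rfl | rfl | rfl | rfl
    · refine ⟨okA_scal _ _ _, -1, subset_closure (by simp), ?_⟩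
      rw [affM_scal]; simp
    · exact ⟨oka, ua, subset_closure (by simp), ea⟩
    · exact ⟨okb, ub, subset_closure (by simp), eb⟩
    · exact ⟨okc, uc, subset_closure (by simp), ec⟩
  have s2 := check_sound hI S.p2 _ good2 h2
  refine ⟨ua, ub, uc, qa, qb, qc, comm, ma, mb, mc, fun i => ?_, fun i => ?_⟩
  · apply mem_of_Mem
    have h3 : ((D.X i : (Matrix (Fin D.n) (Fin D.n) ℤ)ˣ) : Matrix (Fin D.n) (Fin D.n) ℤ) =
      affM D.n ⟨1, tg D.x i⟩ := mkU_val (one i i.2).xx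
    rw [h3]
    refine s2 (S.tX.getD i 0, (⟨1, tg D.x i⟩ : Aff)) ?_
    rw [List.mem_append]
    left
    exact List.mem_map.mpr ⟨i, List.mem_range.mpr i.2, rfl⟩
  · apply mem_of_Mem
    have h3 : ((D.Y i : (Matrix (Fin D.n) (Fin D.n) ℤ)ˣ) : Matrix (Fin D.n) (Fin D.n) ℤ) =
      affM D.n ⟨1, tg D.y i⟩ := mkU_val (one i i.2).yy
    rw [h3]
    refine s2 (S.tY.getD i 0, (⟨1, tg D.y i⟩ : Aff)) ?_
    rw [List.mem_append]
    right
    exact List.mem_map.mpr ⟨i, List.mem_range.mpr i.2, rfl⟩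

end Sp

end MP9bf44d
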