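import Pool.Agent.Lib.H74.Chev.Sparse

/-! # Straight-line programs over sparse matrices -/

namespace MP9bf44d

namespace Sp

/-- Rules of a straight-line program; indices count back from the most recent element. -/
inductive Rule where
  | word : List ℕ → Rule
  | conj : ℕ → ℕ → Rule
  | comm : ℕ → ℕ → Rule
  | quot : ℕ → ℕ → Rule

/-- One step: a rule and the claimed result. -/
structure Step where
  rule : Rule
  res : Aff

/-- identity -/
def oneA : Aff := ⟨1, T.z⟩

/-- lookup -/
def st! (st : List Aff) (i : ℕ) : Aff := st.getD i oneA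

/-- evaluating a word -/
noncomputable def evalW (st : List Aff) : List ℕ → Aff
  | [] => oneA
  | [i] => st! st i
  | i :: j :: w => mulA (st! st i) (evalW st (j :: w))

/-- Equality test of affine matrices, possibly with different scalar parts; `I` is the identity. -/
noncomputable def eqI (I : T) (x y : Aff) : Bool :=
  Bool.rec (eqT (addT (smulT (x.c - y.c) I) x.N) y.N) (eqT x.N y.N) (zeq x.c y.c)

/-- The identity as a trie. -/
noncomputable def checkI (n d : ℕ) (I : T) : Bool :=
  ok n I d && (List.range n).all (fun i => rowEq (get I i) [(i, 1)])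

/-- checking a rule -/
noncomputable def checkRule (I : T) (st : List Aff) (m : Aff) : Rule → Bool
  | .word w => eqI I (evalW st w) m
  | .conj g x => zeq m.c (st! st x).c && eqT (mulNA m.N (st! st g)) (mulAN (st! st g) (st! st x).N)
  | .comm x y => eqI I (mulA m (mulA (st! st y) (st! st x))) (mulA (st! st x) (st! st y))
  | .quot x y => eqI I (mulA m (st! st x)) (st! st y)

/-- checking a program, and the targets at the end -/
noncomputable def check (n d : ℕ) (I : T) (targets : List (ℕ × Aff)) : List Aff → List Step → Bool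
  | st, [] => targets.all fun t => eqI I (st! st t.1) t.2
  | st, s :: ss =>
    okA n d s.res && (checkRule I st s.res s.rule && check n d I targets (s.res :: st) ss)

/-- membership of a matrix in a group of units -/
def Mem {n : ℕ} (H : Subgroup (Matrix (Fin n) (Fin n) ℤ)ˣ) (x : Matrix (Fin n) (Fin n) ℤ) : Prop :=
  ∃ u ∈ H, (u : Matrix (Fin n) (Fin n) ℤ) = x

section

variable {n d : ℕ} {H : Subgroup (Matrix (Fin n) (Fin n) ℤ)ˣ}

lemma Mem.one : Mem H 1 := ⟨1, one_mem _, rfl⟩

lemma Mem.mul {x y : Matrix (Fin n) (Fin n) ℤ} (hx : Mem H x) (hy : Mem H y) :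
    Mem H (x * y) := by
  obtain ⟨u, hu, rfl⟩ := hx
  obtain ⟨v, hv, rfl⟩ := hy
  exact ⟨u * v, mul_mem hu hv, rfl⟩

lemma Mem.quot {m x y : Matrix (Fin n) (Fin n) ℤ} (hx : Mem H x) (hy : Mem H y)
    (h : m * x = y) : Mem H m := by
  obtain ⟨u, hu, rfl⟩ := hx
  obtain ⟨v, hv, rfl⟩ := hy
  refine ⟨v * u⁻¹, mul_mem hv (inv_mem hu), ?_⟩
  rw [Units.val_mul, ← h, mul_assoc, Units.mul_inv, mul_one]

lemma affM_oneA : affM n oneA = 1 := by
  simp [affM, oneA, toM_z]

lemma okA_oneA : okA n d oneA = true := rfl

lemma toM_I {I : T} (h : checkI n d I = true) : ok n I d = true ∧ toM n I = 1 := by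
  unfold checkI at h
  rw [Bool.and_eq_true, List.all_eq_true] at h
  refine ⟨h.1, ?_⟩
  ext i j
  have h1 := rowEq_eq (h.2 i (List.mem_range.mpr i.2))
  simp only [toM, h1, Matrix.one_apply, rval, List.map_cons, List.map_nil, List.sum_cons,
    List.sum_nil, add_zero, Fin.ext_iff]

lemma eqI_affM {I : T} (hI : checkI n d I = true) {x y : Aff} (hx : okA n d x = true)
    (h : eqI I x y = true) : affM n x = affM n y := by
  unfold eqI at h
  cases h1 : zeq x.c y.c with
  | true =>
    rw [h1] at h
    unfold affM
    rw [zeq_eq h1, eqT_toM h n]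
  | false =>
    rw [h1] at h
    have h2 : eqT (addT (smulT (x.c - y.c) I) x.N) y.N = true := h
    have h3 := eqT_toM h2 n
    rw [toM_add (smulT_ok _ (toM_I hI).1) hx, toM_smulT, (toM_I hI).2] at h3
    unfold affM
    rw [← h3, sub_smul]
    abel

/-- invariant -/
def Good (n d : ℕ) (H : Subgroup (Matrix (Fin n) (Fin n) ℤ)ˣ) (x : Aff) : Prop :=
  okA n d x = true ∧ Mem H (affM n x)

lemma Good.one : Good n d H oneA := ⟨okA_oneA, by rw [affM_oneA]; exact Mem.one⟩

lemma st!_good {st : List Aff} (h : ∀ x ∈ st, Good n d H x) (i : ℕ) : Good n d H (st! st i) := by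
  unfold st!
  rcases lt_or_ge i st.length with hi | hi
  · rw [List.getD_eq_getElem _ _ hi]
    exact h _ (List.getElem_mem hi)
  · rw [List.getD_eq_default _ _ hi]
    exact Good.one

lemma Good.mul {x y : Aff} (hx : Good n d H x) (hy : Good n d H y) : Good n d H (mulA x y) :=
  ⟨mulA_ok hx.1 hy.1, by rw [affM_mulA hx.1 hy.1]; exact hx.2.mul hy.2⟩

lemma evalW_good {st : List Aff} (h : ∀ x ∈ st, Good n d H x) :
    ∀ w : List ℕ, Good n d H (evalW st w)
  | [] => Good.one
  | [i] => st!_good h i
  | i :: j :: w => by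
    rw [evalW]
    exact (st!_good h i).mul (evalW_good h (j :: w))

lemma checkRule_good {I : T} (hI : checkI n d I = true) {st : List Aff}
    (h : ∀ x ∈ st, Good n d H x) {m : Aff}
    (hm : okA n d m = true) : ∀ {r : Rule}, checkRule I st m r = true → Mem H (affM n m)
  | .word w, hr => by
    have h1 : eqI I (evalW st w) m = true := hr
    rw [← eqI_affM hI (evalW_good h w).1 h1]
    exact (evalW_good h w).2
  | .conj g x, hr => by
    have h1 : (zeq m.c (st! st x).c &&
      eqT (mulNA m.N (st! st g)) (mulAN (st! st g) (st! st x).N)) = true := hr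
    rw [Bool.and_eq_true] at h1
    have hc := zeq_eq h1.1
    have hE := eqT_toM h1.2 n
    have hg := st!_good h g
    have hx := st!_good h x
    rw [toM_mulNA hm hg.1, toM_mulAN hg.1 hx.1] at hE
    refine Mem.quot hg.2 (hg.2.mul hx.2) ?_
    have e1 : affM n m = (st! st x).c • 1 + toM n m.N := by rw [← hc]; rfl
    have e2 : affM n (st! st x) = (st! st x).c • 1 + toM n (st! st x).N := rfl
    rw [e1, e2, add_mul, mul_add, smul_mul_assoc, mul_smul_comm, one_mul, mul_one, hE]
  | .comm x y, hr => by
    have h1 : eqI I (mulA m (mulA (st! st y) (st! st x))) (mulA (st! st x) (st! st y)) = true :=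
      hr
    have hx := st!_good h x
    have hy := st!_good h y
    have h2 := eqI_affM hI (mulA_ok hm (hy.mul hx).1) h1
    rw [affM_mulA hm (hy.mul hx).1, affM_mulA hx.1 hy.1] at h2
    exact Mem.quot (hy.mul hx).2 (hx.2.mul hy.2) h2
  | .quot x y, hr => by
    have h1 : eqI I (mulA m (st! st x)) (st! st y) = true := hr
    have hx := st!_good h x
    have hy := st!_good h y
    have h2 := eqI_affM hI (mulA_ok hm hx.1) h1
    rw [affM_mulA hm hx.1] at h2
    exact Mem.quot hx.2 hy.2 h2

theorem check_sound {I : T} (hI : checkI n d I = true) {targets : List (ℕ × Aff)} :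
    ∀ (steps : List Step) (st : List Aff),
    (∀ x ∈ st, Good n d H x) → check n d I targets st steps = true →
    ∀ t ∈ targets, Mem H (affM n t.2)
  | [], st, h, hc, t, ht => by
    have h1 : (targets.all fun t => eqI I (st! st t.1) t.2) = true := hc
    rw [List.all_eq_true] at h1
    rw [← eqI_affM hI (st!_good h t.1).1 (h1 t ht)]
    exact (st!_good h t.1).2
  | s :: ss, st, h, hc, t, ht => by
    have h1 : (okA n d s.res && (checkRule I st s.res s.rule &&
      check n d I targets (s.res :: st) ss)) = true := hc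
    rw [Bool.and_eq_true, Bool.and_eq_true] at h1
    refine check_sound hI ss (s.res :: st) ?_ h1.2.2 t ht
    intro x hx
    rcases List.mem_cons.mp hx with rfl | hx
    · exact ⟨h1.1, checkRule_good hI h h1.1 h1.2.1⟩
    · exact h x hx

end

end Sp

end MP9bf44d
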