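import Mathlib

/-! # Sparse integer matrices as binary tries of sparse rows, for kernel evaluation

The functions are written with recursors directly, which makes kernel evaluation faster. -/

namespace MP9bf44d

namespace Sp

/-- Sparse row: list of (column, value). -/
abbrev Row := List (ℕ × ℤ)

/-- Entry `1` in column `k`. -/
abbrev P (k : ℕ) : ℕ × ℤ := (k, Int.ofNat 1)

/-- Entry `-1` in column `k`. -/
abbrev M (k : ℕ) : ℕ × ℤ := (k, Int.negSucc 0)

/-- Binary tries of rows, least significant bit of the row index first. -/
inductive T where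
  | z : T
  | l : Row → T
  | n : T → T → T

/-- Value of a sparse row in column `j`. -/
def rval (r : Row) (j : ℕ) : ℤ := (r.map fun p => if p.1 = j then p.2 else 0).sum

/-- Row of index `k`. -/
noncomputable def get (t : T) : ℕ → Row :=
  T.rec (motive := fun _ => ℕ → Row) (fun _ => []) (fun r _ => r)
    (fun _ _ iha ihb k => Nat.rec (iha (k / 2)) (fun _ _ => ihb (k / 2)) (k % 2)) t

/-- Scaling a row. -/
noncomputable def smulR (a : ℤ) (r : Row) : Row :=
  List.rec (motive := fun _ => Row) [] (fun x _ ih => (x.1, a * x.2) :: ih) r

/-- Inserting one entry, then continuing with `cont`. -/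
noncomputable def ins (k : ℕ) (v : ℤ) (cont : Row → Row) (ys : Row) : Row :=
  List.rec (motive := fun _ => Row) ((k, v) :: cont [])
    (fun y ys ih => Bool.rec
      (Bool.rec (y :: ih)
        (Int.rec (fun m => Nat.rec (cont ys) (fun m' _ => (k, Int.ofNat (m' + 1)) :: cont ys) m)
          (fun m => (k, Int.negSucc m) :: cont ys) (v + y.2))
        (Nat.beq k y.1))
      ((k, v) :: cont (y :: ys)) (Nat.blt k y.1)) ys

/-- Sum of two sorted rows. -/
noncomputable def addR (xs : Row) : Row → Row :=
  List.rec (motive := fun _ => Row → Row) (fun ys => ys) (fun x _ ih => ins x.1 x.2 ih) xs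

/-- Linear combination of the rows of `B` with the coefficients in a row. -/
noncomputable def combine (B : T) (r : Row) : Row :=
  List.rec (motive := fun _ => Row) []
    (fun x xs ih => List.rec (motive := fun _ => Row) (smulR x.2 (get B x.1))
      (fun _ _ _ => addR (smulR x.2 (get B x.1)) ih) xs) r

/-- Applying a map to all rows. -/
noncomputable def mapT (f : Row → Row) (t : T) : T :=
  T.rec (motive := fun _ => T) T.z (fun r => T.l (f r)) (fun _ _ iha ihb => T.n iha ihb) t

/-- Product. -/
noncomputable def mul (A B : T) : T := mapT (combine B) A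

/-- Sum. -/
noncomputable def addT (t : T) : T → T :=
  T.rec (motive := fun _ => T → T) (fun y => y)
    (fun r y => T.rec (motive := fun _ => T) (T.l r) (fun s => T.l (addR r s))
      (fun _ _ _ _ => T.z) y)
    (fun a b iha ihb y => T.rec (motive := fun _ => T) (T.n a b) (fun _ => T.z)
      (fun c d _ _ => T.n (iha c) (ihb d)) y) t

/-- Scaling. -/
noncomputable def smulT (a : ℤ) (A : T) : T :=
  Int.rec (fun m => Nat.rec T.z (fun m' _ => Nat.rec A
    (fun _ _ => mapT (smulR a) A) m') m) (fun _ => mapT (smulR a) A) a

/-- Integer equality test. -/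
noncomputable def zeq (a b : ℤ) : Bool :=
  Int.rec (fun m => Int.rec (fun m' => Nat.beq m m') (fun _ => false) b)
    (fun m => Int.rec (fun _ => false) (fun m' => Nat.beq m m') b) a

/-- Row equality test. -/
noncomputable def rowEq (r : Row) : Row → Bool :=
  List.rec (motive := fun _ => Row → Bool)
    (fun s => List.rec (motive := fun _ => Bool) true (fun _ _ _ => false) s)
    (fun x _ ih s => List.rec (motive := fun _ => Bool) false
      (fun y ys _ => Bool.rec false (Bool.rec false (ih ys) (zeq x.2 y.2)) (Nat.beq x.1 y.1)) s) r

/-- Zero test. -/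
noncomputable def isZ (t : T) : Bool :=
  T.rec (motive := fun _ => Bool) true
    (fun r => List.rec (motive := fun _ => Bool) true (fun _ _ _ => false) r)
    (fun _ _ iha ihb => Bool.rec false ihb iha) t

/-- Equality test of tries (of the same shape). -/
noncomputable def eqT (t : T) : T → Bool :=
  T.rec (motive := fun _ => T → Bool) (fun y => isZ y)
    (fun r y => T.rec (motive := fun _ => Bool) (isZ (T.l r)) (fun s => rowEq r s)
      (fun _ _ _ _ => false) y)
    (fun a b iha ihb y => T.rec (motive := fun _ => Bool) (isZ (T.n a b)) (fun _ => false)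
      (fun c d _ _ => Bool.rec false (ihb d) (iha c)) y) t

/-- All columns `< n`. -/
noncomputable def okR (n : ℕ) (r : Row) : Bool :=
  List.rec (motive := fun _ => Bool) true
    (fun x _ ih => Bool.rec false ih (Nat.blt x.1 n)) r

/-- Well-formedness: all rows at depth `d`, all columns `< n`. -/
noncomputable def ok (n : ℕ) (t : T) : ℕ → Bool :=
  T.rec (motive := fun _ => ℕ → Bool) (fun _ => true)
    (fun r d => Nat.rec (okR n r) (fun _ _ => false) d)
    (fun _ _ iha ihb d => Nat.rec false (fun d _ => Bool.rec false (ihb d) (iha d)) d) t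

/-! ### Specifications -/

/-- The matrix of a trie. -/
noncomputable def toM (n : ℕ) (A : T) : Matrix (Fin n) (Fin n) ℤ :=
  fun i j => rval (get A i) j

lemma rval_nil (j : ℕ) : rval [] j = 0 := rfl

lemma rval_cons (x : ℕ × ℤ) (xs : Row) (j : ℕ) :
    rval (x :: xs) j = (if x.1 = j then x.2 else 0) + rval xs j := by
  simp [rval]

lemma smulR_spec (a : ℤ) (r : Row) (j : ℕ) : rval (smulR a r) j = a * rval r j := by
  induction r with
  | nil => simp [smulR, rval_nil]
  | cons x xs ih =>
    have : smulR a (x :: xs) = (x.1, a * x.2) :: smulR a xs := rfl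
    rw [this, rval_cons, rval_cons, ih]
    split_ifs <;> ring

lemma ins_spec (k : ℕ) (v : ℤ) (cont : Row → Row) (S : ℤ) (j : ℕ)
    (h : ∀ ys, rval (cont ys) j = S + rval ys j) (ys : Row) :
    rval (ins k v cont ys) j = (if k = j then v else 0) + S + rval ys j := by
  induction ys with
  | nil =>
    have : ins k v cont [] = (k, v) :: cont [] := rfl
    rw [this, rval_cons, h]
    ring
  | cons y ys ih =>
    cases h1 : Nat.blt k y.1 with
    | true =>
      have : ins k v cont (y :: ys) = (k, v) :: cont (y :: ys) := by
        simp only [ins, h1]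
      rw [this, rval_cons, h]
      ring
    | false =>
      cases h2 : Nat.beq k y.1 with
      | false =>
        have : ins k v cont (y :: ys) = y :: ins k v cont ys := by
          simp only [ins, h1, h2]
        rw [this, rval_cons, rval_cons, ih]
        ring
      | true =>
        have hk : k = y.1 := Nat.eq_of_beq_eq_true h2
        have key : rval (ins k v cont (y :: ys)) j =
            (if k = j then v + y.2 else 0) + rval (cont ys) j := by
          rcases hv : v + y.2 with m | m
          · rcases m with _ | m
            · have : ins k v cont (y :: ys) = cont ys := by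
                simp only [ins, h1, h2, hv]
                rfl
              rw [this]; simp
            · have : ins k v cont (y :: ys) = (k, Int.ofNat (m + 1)) :: cont ys := by
                simp only [ins, h1, h2, hv]
              rw [this, rval_cons]
          · have : ins k v cont (y :: ys) = (k, Int.negSucc m) :: cont ys := by
              simp only [ins, h1, h2, hv]
            rw [this, rval_cons]
        rw [key, h, rval_cons, ← hk]
        split_ifs <;> ring

lemma addR_spec (xs ys : Row) (j : ℕ) : rval (addR xs ys) j = rval xs j + rval ys j := by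
  induction xs generalizing ys with
  | nil =>
    have : addR [] ys = ys := rfl
    rw [this, rval_nil, zero_add]
  | cons x xs ih =>
    have : addR (x :: xs) ys = ins x.1 x.2 (addR xs) ys := rfl
    rw [this, ins_spec x.1 x.2 (addR xs) (rval xs j) j ih, rval_cons]

lemma combine_spec (B : T) (r : Row) (j : ℕ) :
    rval (combine B r) j = (r.map fun p => p.2 * rval (get B p.1) j).sum := by
  induction r with
  | nil => rfl
  | cons x xs ih =>
    cases xs with
    | nil =>
      have : combine B [x] = smulR x.2 (get B x.1) := rfl
      rw [this, smulR_spec]; simp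
    | cons y ys =>
      have : combine B (x :: y :: ys) =
        addR (smulR x.2 (get B x.1)) (combine B (y :: ys)) := rfl
      rw [this, addR_spec, smulR_spec, ih, List.map_cons (l := y :: ys), List.sum_cons]

lemma okR_cons {n : ℕ} {x : ℕ × ℤ} {xs : Row} (h : okR n (x :: xs) = true) :
    x.1 < n ∧ okR n xs = true := by
  have h0 : okR n (x :: xs) = Bool.rec false (okR n xs) (Nat.blt x.1 n) := rfl
  rw [h0] at h
  cases h1 : Nat.blt x.1 n with
  | false => rw [h1] at h; simp at h
  | true =>
    rw [h1] at h
    refine ⟨?_, h⟩
    have := Nat.le_of_ble_eq_true h1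
    omega

lemma okR_cons' {n : ℕ} {x : ℕ × ℤ} {xs : Row} (h1 : x.1 < n) (h2 : okR n xs = true) :
    okR n (x :: xs) = true := by
  have h0 : okR n (x :: xs) = Bool.rec false (okR n xs) (Nat.blt x.1 n) := rfl
  have h3 : Nat.blt x.1 n = true := Nat.ble_eq_true_of_le h1
  rw [h0, h3]
  exact h2

lemma sum_range_row {n : ℕ} {r : Row} (hr : okR n r = true) (g : ℕ → ℤ) :
    (r.map fun p => p.2 * g p.1).sum = ∑ k ∈ Finset.range n, rval r k * g k := by
  induction r with
  | nil => simp [rval_nil]
  | cons x xs ih =>
    obtain ⟨h1, h2⟩ := okR_cons hr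
    rw [List.map_cons, List.sum_cons, ih h2]
    simp only [rval_cons, add_mul, Finset.sum_add_distrib]
    congr 1
    rw [Finset.sum_eq_single x.1]
    · simp
    · intro b _ hb; simp [hb.symm]
    · intro hb; exact absurd (Finset.mem_range.mpr h1) hb

lemma smulR_ok {n : ℕ} (a : ℤ) {r : Row} (h : okR n r = true) : okR n (smulR a r) = true := by
  induction r with
  | nil => rfl
  | cons x xs ih =>
    obtain ⟨h1, h2⟩ := okR_cons h
    have : smulR a (x :: xs) = (x.1, a * x.2) :: smulR a xs := rfl
    rw [this]
    exact okR_cons' h1 (ih h2)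

lemma ins_ok {n k : ℕ} {v : ℤ} (hk : k < n) {cont : Row → Row}
    (h : ∀ ys, okR n ys = true → okR n (cont ys) = true) {ys : Row} (hy : okR n ys = true) :
    okR n (ins k v cont ys) = true := by
  induction ys with
  | nil =>
    have : ins k v cont [] = (k, v) :: cont [] := rfl
    rw [this]
    exact okR_cons' hk (h _ hy)
  | cons y ys ih =>
    obtain ⟨g1, g2⟩ := okR_cons hy
    cases h1 : Nat.blt k y.1 with
    | true =>
      have : ins k v cont (y :: ys) = (k, v) :: cont (y :: ys) := by
        simp only [ins, h1]
      rw [this]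
      exact okR_cons' hk (h _ hy)
    | false =>
      cases h2 : Nat.beq k y.1 with
      | false =>
        have : ins k v cont (y :: ys) = y :: ins k v cont ys := by
          simp only [ins, h1, h2]
        rw [this]
        exact okR_cons' g1 (ih g2)
      | true =>
        rcases hv : v + y.2 with m | m
        · rcases m with _ | m
          · have : ins k v cont (y :: ys) = cont ys := by
              simp only [ins, h1, h2, hv]
              rfl
            rw [this]
            exact h _ g2
          · have : ins k v cont (y :: ys) = (k, Int.ofNat (m + 1)) :: cont ys := by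
              simp only [ins, h1, h2, hv]
            rw [this]
            exact okR_cons' hk (h _ g2)
        · have : ins k v cont (y :: ys) = (k, Int.negSucc m) :: cont ys := by
            simp only [ins, h1, h2, hv]
          rw [this]
          exact okR_cons' hk (h _ g2)

lemma addR_ok {n : ℕ} {xs ys : Row} (hx : okR n xs = true) (hy : okR n ys = true) :
    okR n (addR xs ys) = true := by
  induction xs generalizing ys with
  | nil => exact hy
  | cons x xs ih =>
    obtain ⟨h1, h2⟩ := okR_cons hx
    have : addR (x :: xs) ys = ins x.1 x.2 (addR xs) ys := rfl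
    rw [this]
    exact ins_ok h1 (fun zs hz => ih h2 hz) hy

lemma get_n (a b : T) (k : ℕ) : get (T.n a b) k = if k % 2 = 0 then get a (k / 2)
    else get b (k / 2) := by
  have : get (T.n a b) k =
    Nat.rec (motive := fun _ => Row) (get a (k / 2)) (fun _ _ => get b (k / 2)) (k % 2) := rfl
  rw [this]
  rcases Nat.mod_two_eq_zero_or_one k with h | h
  · rw [h]; rfl
  · rw [h]; rfl

lemma ok_l {n : ℕ} {r : Row} {d : ℕ} (h : ok n (T.l r) d = true) :
    d = 0 ∧ okR n r = true := by
  cases d with
  | zero => exact ⟨rfl, h⟩
  | succ d =>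
    have : ok n (T.l r) (d + 1) = false := rfl
    rw [this] at h; simp at h

lemma ok_n {n : ℕ} {a b : T} {d : ℕ} (h : ok n (T.n a b) d = true) :
    ∃ d', d = d' + 1 ∧ ok n a d' = true ∧ ok n b d' = true := by
  cases d with
  | zero =>
    have : ok n (T.n a b) 0 = false := rfl
    rw [this] at h; simp at h
  | succ d =>
    refine ⟨d, rfl, ?_⟩
    have h0 : ok n (T.n a b) (d + 1) = Bool.rec false (ok n b d) (ok n a d) := rfl
    rw [h0] at h
    cases h1 : ok n a d with
    | false => rw [h1] at h; simp at h
    | true => rw [h1] at h; exact ⟨rfl, h⟩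

lemma ok_n' {n : ℕ} {a b : T} {d : ℕ} (ha : ok n a d = true) (hb : ok n b d = true) :
    ok n (T.n a b) (d + 1) = true := by
  have h0 : ok n (T.n a b) (d + 1) = Bool.rec false (ok n b d) (ok n a d) := rfl
  rw [h0, ha]
  exact hb

lemma get_ok {n : ℕ} {A : T} {d : ℕ} (h : ok n A d = true) (k : ℕ) :
    okR n (get A k) = true := by
  induction A generalizing d k with
  | z => rfl
  | l r => exact (ok_l h).2
  | n a b iha ihb =>
    obtain ⟨d', rfl, h1, h2⟩ := ok_n h
    rw [get_n]
    split_ifs
    · exact iha h1 _
    · exact ihb h2 _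

lemma combine_ok {n : ℕ} {B : T} {d : ℕ} (hB : ok n B d = true) (r : Row) :
    okR n (combine B r) = true := by
  induction r with
  | nil => rfl
  | cons x xs ih =>
    cases xs with
    | nil =>
      have : combine B [x] = smulR x.2 (get B x.1) := rfl
      rw [this]
      exact smulR_ok _ (get_ok hB _)
    | cons y ys =>
      have : combine B (x :: y :: ys) =
        addR (smulR x.2 (get B x.1)) (combine B (y :: ys)) := rfl
      rw [this]
      exact addR_ok (smulR_ok _ (get_ok hB _)) ih

lemma get_mapT (f : Row → Row) (hf : f [] = []) (A : T) (k : ℕ) :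
    get (mapT f A) k = f (get A k) := by
  induction A generalizing k with
  | z => exact hf.symm
  | l r => rfl
  | n a b iha ihb =>
    have : mapT f (T.n a b) = T.n (mapT f a) (mapT f b) := rfl
    rw [this, get_n, get_n]
    split_ifs
    · exact iha _
    · exact ihb _

lemma mapT_ok {n : ℕ} {f : Row → Row} (hf : ∀ r, okR n r = true → okR n (f r) = true)
    {A : T} {d : ℕ} (h : ok n A d = true) : ok n (mapT f A) d = true := by
  induction A generalizing d with
  | z => rfl
  | l r =>
    obtain ⟨rfl, h2⟩ := ok_l h
    exact hf _ h2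
  | n a b iha ihb =>
    obtain ⟨d', rfl, h1, h2⟩ := ok_n h
    exact ok_n' (iha h1) (ihb h2)

lemma mul_ok {n d : ℕ} {A B : T} (hA : ok n A d = true) (hB : ok n B d = true) :
    ok n (mul A B) d = true := mapT_ok (fun r _ => combine_ok hB r) hA

lemma toM_mul {n d : ℕ} {A B : T} (hA : ok n A d = true) :
    toM n (mul A B) = toM n A * toM n B := by
  ext i j
  simp only [toM, mul, Matrix.mul_apply]
  rw [get_mapT _ rfl, combine_spec, sum_range_row (get_ok hA i) (fun k => rval (get B k) j),
    Finset.sum_range]

lemma addT_ok {n d : ℕ} {A B : T} (hA : ok n A d = true) (hB : ok n B d = true) :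
    ok n (addT A B) d = true := by
  induction A generalizing B d with
  | z => exact hB
  | l r =>
    cases B with
    | z => exact hA
    | l s =>
      obtain ⟨rfl, h1⟩ := ok_l hA
      obtain ⟨_, h2⟩ := ok_l hB
      exact addR_ok h1 h2
    | n c d => rfl
  | n a b iha ihb =>
    cases B with
    | z => exact hA
    | l s => rfl
    | n c e =>
      obtain ⟨d', rfl, h1, h2⟩ := ok_n hA
      obtain ⟨d'', h0, h3, h4⟩ := ok_n hB
      have : d'' = d' := by omega
      subst this
      exact ok_n' (iha h1 h3) (ihb h2 h4)

lemma rval_get_addT {n d : ℕ} {A B : T} (hA : ok n A d = true) (hB : ok n B d = true)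
    (k j : ℕ) : rval (get (addT A B) k) j = rval (get A k) j + rval (get B k) j := by
  induction A generalizing B d k with
  | z =>
    have h1 : addT T.z B = B := rfl
    have h2 : get T.z k = [] := rfl
    rw [h1, h2, rval_nil, zero_add]
  | l r =>
    cases B with
    | z =>
      have h1 : addT (T.l r) T.z = T.l r := rfl
      have h2 : get T.z k = [] := rfl
      rw [h1, h2, rval_nil, add_zero]
    | l s => exact addR_spec r s j
    | n c e =>
      obtain ⟨rfl, _⟩ := ok_l hA
      obtain ⟨d', h0, _⟩ := ok_n hB
      omega
  | n a b iha ihb =>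
    cases B with
    | z =>
      have h1 : addT (T.n a b) T.z = T.n a b := rfl
      have h2 : get T.z k = [] := rfl
      rw [h1, h2, rval_nil, add_zero]
    | l s =>
      obtain ⟨rfl, _⟩ := ok_l hB
      obtain ⟨d', h0, _⟩ := ok_n hA
      omega
    | n c e =>
      obtain ⟨d', rfl, h1, h2⟩ := ok_n hA
      obtain ⟨d'', h0, h3, h4⟩ := ok_n hB
      have : d'' = d' := by omega
      subst this
      have h5 : addT (T.n a b) (T.n c e) = T.n (addT a c) (addT b e) := rfl
      rw [h5, get_n, get_n, get_n]
      split_ifs
      · exact iha h1 h3 _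
      · exact ihb h2 h4 _

lemma toM_add {n d : ℕ} {A B : T} (hA : ok n A d = true) (hB : ok n B d = true) :
    toM n (addT A B) = toM n A + toM n B := by
  ext i j
  exact rval_get_addT hA hB i j

lemma toM_z (n : ℕ) : toM n T.z = 0 := rfl

lemma toM_mapT_smulR (n : ℕ) (a : ℤ) (A : T) : toM n (mapT (smulR a) A) = a • toM n A := by
  ext i j
  simp only [toM, Matrix.smul_apply, smul_eq_mul]
  rw [get_mapT _ rfl, smulR_spec]

lemma toM_smulT (n : ℕ) (a : ℤ) (A : T) : toM n (smulT a A) = a • toM n A := by
  rcases a with m | m
  · rcases m with _ | _ | m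
    · have : smulT (Int.ofNat 0) A = T.z := rfl
      rw [this, toM_z]; simp
    · have : smulT (Int.ofNat (0 + 1)) A = A := rfl
      rw [this]; simp
    · have : smulT (Int.ofNat (m + 1 + 1)) A = mapT (smulR (Int.ofNat (m + 1 + 1))) A := rfl
      rw [this, toM_mapT_smulR]
  · have : smulT (Int.negSucc m) A = mapT (smulR (Int.negSucc m)) A := rfl
    rw [this, toM_mapT_smulR]

lemma smulT_ok {n d : ℕ} (a : ℤ) {A : T} (h : ok n A d = true) :
    ok n (smulT a A) d = true := by
  rcases a with m | m
  · rcases m with _ | _ | m
    · rfl
    · exact h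
    · exact mapT_ok (fun r hr => smulR_ok _ hr) h
  · exact mapT_ok (fun r hr => smulR_ok _ hr) h

lemma zeq_eq {a b : ℤ} (h : zeq a b = true) : a = b := by
  rcases a with a | a <;> rcases b with b | b
  · exact congrArg _ (Nat.eq_of_beq_eq_true h)
  · have : zeq (Int.ofNat a) (Int.negSucc b) = false := rfl
    rw [this] at h; simp at h
  · have : zeq (Int.negSucc a) (Int.ofNat b) = false := rfl
    rw [this] at h; simp at h
  · exact congrArg _ (Nat.eq_of_beq_eq_true h)

lemma rowEq_eq {r s : Row} (h : rowEq r s = true) : r = s := by
  induction r generalizing s with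
  | nil =>
    cases s with
    | nil => rfl
    | cons y ys =>
      have : rowEq [] (y :: ys) = false := rfl
      rw [this] at h; simp at h
  | cons x xs ih =>
    cases s with
    | nil =>
      have : rowEq (x :: xs) [] = false := rfl
      rw [this] at h; simp at h
    | cons y ys =>
      have h0 : rowEq (x :: xs) (y :: ys) =
        Bool.rec false (Bool.rec false (rowEq xs ys) (zeq x.2 y.2)) (Nat.beq x.1 y.1) := rfl
      rw [h0] at h
      cases h1 : Nat.beq x.1 y.1 with
      | false => rw [h1] at h; simp at h
      | true =>
        rw [h1] at h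
        cases h2 : zeq x.2 y.2 with
        | false => rw [h2] at h; simp at h
        | true =>
          rw [h2] at h
          rw [ih h]
          congr 1
          exact Prod.ext (Nat.eq_of_beq_eq_true h1) (zeq_eq h2)

lemma isZ_get {A : T} (h : isZ A = true) (k : ℕ) : get A k = [] := by
  induction A generalizing k with
  | z => rfl
  | l r =>
    cases r with
    | nil => rfl
    | cons x xs =>
      have : isZ (T.l (x :: xs)) = false := rfl
      rw [this] at h; simp at h
  | n a b iha ihb =>
    have h0 : isZ (T.n a b) = Bool.rec false (isZ b) (isZ a) := rfl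
    rw [h0] at h
    cases h1 : isZ a with
    | false => rw [h1] at h; simp at h
    | true =>
      rw [h1] at h
      rw [get_n]
      split_ifs
      · exact iha h1 _
      · exact ihb h _

lemma eqT_get {A B : T} (h : eqT A B = true) (k : ℕ) : get A k = get B k := by
  induction A generalizing B k with
  | z =>
    have h0 : eqT T.z B = isZ B := rfl
    rw [h0] at h
    rw [isZ_get h]; rfl
  | l r =>
    cases B with
    | z =>
      have h0 : eqT (T.l r) T.z = isZ (T.l r) := rfl
      rw [h0] at h
      rw [isZ_get h]; rfl
    | l s =>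
      have h0 : eqT (T.l r) (T.l s) = rowEq r s := rfl
      rw [h0] at h
      rw [rowEq_eq h]
    | n c d =>
      have : eqT (T.l r) (T.n c d) = false := rfl
      rw [this] at h; simp at h
  | n a b iha ihb =>
    cases B with
    | z =>
      have h0 : eqT (T.n a b) T.z = isZ (T.n a b) := rfl
      rw [h0] at h
      rw [isZ_get h]; rfl
    | l s =>
      have : eqT (T.n a b) (T.l s) = false := rfl
      rw [this] at h; simp at h
    | n c d =>
      have h0 : eqT (T.n a b) (T.n c d) = Bool.rec false (eqT b d) (eqT a c) := rfl
      rw [h0] at h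
      cases h1 : eqT a c with
      | false => rw [h1] at h; simp at h
      | true =>
        rw [h1] at h
        rw [get_n, get_n]
        split_ifs
        · exact iha h1 _
        · exact ihb h _

lemma eqT_toM {A B : T} (h : eqT A B = true) (n : ℕ) : toM n A = toM n B := by
  ext i j
  simp only [toM, eqT_get h]

/-! ### Matrices `c • 1 + N` -/

/-- A matrix `c • 1 + N`. -/
structure Aff where
  c : ℤ
  N : T

/-- The matrix of an affine trie. -/
noncomputable def affM (n : ℕ) (x : Aff) : Matrix (Fin n) (Fin n) ℤ := x.c • 1 + toM n x.N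

/-- Well-formedness. -/
noncomputable def okA (n d : ℕ) (x : Aff) : Bool := ok n x.N d

/-- Product. -/
noncomputable def mulA (x y : Aff) : Aff :=
  ⟨x.c * y.c, addT (addT (smulT x.c y.N) (smulT y.c x.N)) (mul x.N y.N)⟩

/-- Product of a matrix `x` with `y = c • 1 + N`, without scalar part. -/
noncomputable def mulNA (x : T) (y : Aff) : T := addT (smulT y.c x) (mul x y.N)

/-- Product of a matrix `x = c • 1 + N` with `y`, without scalar part. -/
noncomputable def mulAN (x : Aff) (y : T) : T := addT (smulT x.c y) (mul x.N y)

/-- Equality test. -/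
noncomputable def eqA (x y : Aff) : Bool := Bool.rec false (eqT x.N y.N) (zeq x.c y.c)

lemma mulA_ok {n d : ℕ} {x y : Aff} (hx : okA n d x = true) (hy : okA n d y = true) :
    okA n d (mulA x y) = true :=
  addT_ok (addT_ok (smulT_ok _ hy) (smulT_ok _ hx)) (mul_ok hx hy)

lemma affM_mulA {n d : ℕ} {x y : Aff} (hx : okA n d x = true) (hy : okA n d y = true) :
    affM n (mulA x y) = affM n x * affM n y := by
  unfold affM mulA
  simp only
  rw [toM_add (addT_ok (smulT_ok _ hy) (smulT_ok _ hx)) (mul_ok hx hy),
    toM_add (smulT_ok _ hy) (smulT_ok _ hx), toM_smulT, toM_smulT, toM_mul hx]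
  simp only [add_mul, mul_add, smul_mul_assoc, mul_smul_comm, one_mul, mul_one, smul_add,
    smul_smul, mul_comm y.c x.c]
  abel

lemma toM_mulNA {n d : ℕ} {x : T} {y : Aff} (hx : ok n x d = true) (hy : okA n d y = true) :
    toM n (mulNA x y) = toM n x * affM n y := by
  unfold affM mulNA
  rw [toM_add (smulT_ok _ hx) (mul_ok hx hy), toM_smulT, toM_mul hx, mul_add,
    mul_smul_comm, mul_one]

lemma toM_mulAN {n d : ℕ} {x : Aff} {y : T} (hx : okA n d x = true) (hy : ok n y d = true) :
    toM n (mulAN x y) = affM n x * toM n y := by
  unfold affM mulAN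
  rw [toM_add (smulT_ok _ hy) (mul_ok hx hy), toM_smulT, toM_mul hx, add_mul,
    smul_mul_assoc, one_mul]

lemma eqA_affM {x y : Aff} (h : eqA x y = true) (n : ℕ) : affM n x = affM n y := by
  unfold eqA at h
  cases h1 : zeq x.c y.c with
  | false => rw [h1] at h; simp at h
  | true =>
    rw [h1] at h
    unfold affM
    rw [zeq_eq h1, eqT_toM h n]

end Sp

end MP9bf44d
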